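import Pool.Agent.Limb.Targets
import Pool.Agent.Multibrot.Annulus
import Pool.Agent.Multibrot.Contract

/-!
# AREA: `|P'(s)| Re s → 0` by the area argument
-/

set_option autoImplicit false

open Complex Filter Topology Set MeasureTheory
open Pool.Agent.Multibrot

namespace Pool.Agent.Limb

namespace AREA_

/-- area mean value inequality -/
theorem mean {g : ℂ → ℂ} (hg : Measurable g) {s : ℂ} {R : ℝ} (hR : 0 < R)
    (hd : ∀ x ∈ Metric.ball s R, DifferentiableAt ℂ g x) :
    ENNReal.ofReal (Real.pi / 2 * R ^ 2 * ‖g s‖) ≤ ∫⁻ x in Metric.ball s R, ‖g x‖ₑ := by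
  set h : ℂ → ℂ := fun x => x⁻¹ * (g (s + x) * ((R / 2 : ℝ) : ℂ)) with hh
  have hhm : Measurable h := by
    rw [hh]
    exact measurable_inv.mul ((hg.comp (measurable_const_add s)).mul_const _)
  have h1 : ∀ r ∈ Ioo (R / 2) R, Real.pi * R * ‖g s‖ ≤ ‖∮ x in C(0, r), h x‖ := by
    intro r hr
    have hr0 : 0 < r := lt_trans (by positivity) hr.1
    have hdf : ∀ x ∈ Metric.closedBall (0 : ℂ) r,
        DifferentiableAt ℂ (fun x : ℂ => g (s + x) * ((R / 2 : ℝ) : ℂ)) x := by
      intro x hx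
      have h2 : s + x ∈ Metric.ball s R := by
        rw [Metric.mem_ball, dist_eq_norm]
        rw [Metric.mem_closedBall, dist_zero_right] at hx
        have : s + x - s = x := by ring
        rw [this]
        linarith [hr.2]
      have h3 : DifferentiableAt ℂ (fun x : ℂ => g (s + x)) x :=
        (hd _ h2).comp x ((differentiableAt_id).const_add s)
      exact h3.mul_const _
    have h2 := circleIntegral_sub_inv_smul_of_differentiable_on_off_countable (R := r) (c := 0)
      (w := 0) (f := fun x : ℂ => g (s + x) * ((R / 2 : ℝ) : ℂ)) (s := ∅) countable_empty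
      (Metric.mem_ball_self hr0) (fun x hx => (hdf x hx).continuousAt.continuousWithinAt)
      (fun x hx => hdf x (Metric.ball_subset_closedBall hx.1))
    have h3 : ∮ x in C(0, r), h x = 2 * Real.pi * I * (g s * ((R / 2 : ℝ) : ℂ)) := by
      simpa [hh] using h2
    rw [h3, norm_mul, norm_mul, norm_mul, norm_mul, norm_I, Complex.norm_real, Complex.norm_real,
      Real.norm_eq_abs, Real.norm_eq_abs, abs_of_pos Real.pi_pos, abs_of_pos (by positivity),
      Complex.norm_ofNat]
    apply le_of_eq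
    ring
  have h2 := annul_lower (by positivity : (0 : ℝ) ≤ R / 2) (by positivity) hhm h1
  have e1 : Real.pi * R * ‖g s‖ * (R - R / 2) = Real.pi / 2 * R ^ 2 * ‖g s‖ := by ring
  rw [e1] at h2
  refine h2.trans ?_
  have h3 : ∫⁻ x in annul (R / 2) R, ‖h x‖ₑ ≤ ∫⁻ x in annul (R / 2) R, ‖g (s + x)‖ₑ := by
    refine setLIntegral_mono' (annul_meas _ _) fun x hx => ?_
    rw [hh]
    rw [← ofReal_norm, ← ofReal_norm]
    apply ENNReal.ofReal_le_ofReal
    rw [norm_mul, norm_mul, norm_inv, Complex.norm_real, Real.norm_eq_abs,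
      abs_of_pos (by positivity)]
    have hx1 : R / 2 < ‖x‖ := hx.1
    have hx0 : 0 < ‖x‖ := lt_trans (by positivity) hx1
    rw [inv_mul_le_iff₀ hx0, mul_comm ‖x‖]
    exact mul_le_mul_of_nonneg_left hx1.le (norm_nonneg _)
  refine h3.trans ?_
  have h4 : annul (R / 2) R ⊆ Metric.ball 0 R := by
    intro x hx
    rw [mem_ball_zero_iff]
    exact hx.2
  refine (lintegral_mono_set h4).trans ?_
  rw [← lintegral_indicator Metric.isOpen_ball.measurableSet,
    ← lintegral_indicator Metric.isOpen_ball.measurableSet,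
    ← lintegral_add_left_eq_self ((Metric.ball s R).indicator fun x => ‖g x‖ₑ) s]
  apply le_of_eq
  apply lintegral_congr
  intro x
  by_cases hx : x ∈ Metric.ball (0 : ℂ) R
  · have hx' : s + x ∈ Metric.ball s R := by
      rw [Metric.mem_ball, dist_eq_norm] at hx ⊢
      rw [sub_zero] at hx
      rwa [add_sub_cancel_left]
    rw [indicator_of_mem hx, indicator_of_mem hx']
  · have hx' : s + x ∉ Metric.ball s R := by
      rw [Metric.mem_ball, dist_eq_norm] at hx ⊢
      rw [sub_zero] at hx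
      rwa [add_sub_cancel_left]
    rw [indicator_of_notMem hx, indicator_of_notMem hx']

section
variable {n : ℕ} {Λ : ℂ → ℂ → ℂ} {c : ℂ}

/-- rotation, iterated -/
theorem rot_iter (hn : 2 ≤ n) (hL : IsExt n Λ) (hc : c ∈ MM n) (k : ℕ) : ∀ s : ℂ, 0 < s.re →
    Λ c (s + 2 * Real.pi * I * k / n) = Λ c s + 2 * Real.pi * I * k / n := by
  induction k with
  | zero => intro s _; simp
  | succ k ih =>
    intro s hs
    have hre : (s + 2 * Real.pi * I * k / n).re = s.re := by
      have : (2 * Real.pi * I * k / n : ℂ) = ((2 * Real.pi * k / n : ℝ) : ℂ) * I := by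
        push_cast
        ring
      rw [this, add_re, re_ofReal_mul, I_re, mul_zero, add_zero]
    have h1 := hL.rot c hc (s + 2 * Real.pi * I * k / n) (by rw [hre]; exact hs)
    have e1 : s + 2 * Real.pi * I * ((k + 1 : ℕ) : ℂ) / n =
        s + 2 * Real.pi * I * k / n + 2 * Real.pi * I / n := by
      push_cast
      ring
    rw [e1, h1, ih s hs]
    push_cast
    ring

theorem add_re' (s : ℂ) (k : ℤ) : (s + k * (2 * Real.pi * I)).re = s.re := by
  have : (k * (2 * Real.pi * I) : ℂ) = ((k * (2 * Real.pi) : ℝ) : ℂ) * I := by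
    push_cast
    ring
  rw [this, add_re, re_ofReal_mul, I_re, mul_zero, add_zero]

theorem add_im' (s : ℂ) (k : ℤ) : (s + k * (2 * Real.pi * I)).im = s.im + k * (2 * Real.pi) := by
  have : (k * (2 * Real.pi * I) : ℂ) = ((k * (2 * Real.pi) : ℝ) : ℂ) * I := by
    push_cast
    ring
  rw [this, add_im, im_ofReal_mul, I_im, mul_one]

theorem per_one (hn : 2 ≤ n) (hL : IsExt n Λ) (hc : c ∈ MM n) (s : ℂ) (hs : 0 < s.re) :
    exp (Λ c (s + 2 * Real.pi * I)) = exp (Λ c s) := by
  have h1 := rot_iter hn hL hc n s hs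
  have hn0 := natCast_ne hn
  rw [mul_div_assoc, div_self hn0, mul_one] at h1
  rw [h1, exp_add, exp_two_pi_mul_I, mul_one]

theorem per_nat (hn : 2 ≤ n) (hL : IsExt n Λ) (hc : c ∈ MM n) (k : ℕ) : ∀ s : ℂ, 0 < s.re →
    exp (Λ c (s + k * (2 * Real.pi * I))) = exp (Λ c s) := by
  induction k with
  | zero => intro s _; simp
  | succ k ih =>
    intro s hs
    have e1 : s + ((k + 1 : ℕ) : ℂ) * (2 * Real.pi * I) =
        s + k * (2 * Real.pi * I) + 2 * Real.pi * I := by
      push_cast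
      ring
    have hre : (s + (k : ℂ) * (2 * Real.pi * I)).re = s.re := by
      have := add_re' s k
      push_cast at this
      exact this
    rw [e1, per_one hn hL hc _ (by rw [hre]; exact hs), ih s hs]

theorem per_int (hn : 2 ≤ n) (hL : IsExt n Λ) (hc : c ∈ MM n) (k : ℤ) (s : ℂ) (hs : 0 < s.re) :
    exp (Λ c (s + k * (2 * Real.pi * I))) = exp (Λ c s) := by
  rcases Int.eq_nat_or_neg k with ⟨m, rfl | rfl⟩
  · push_cast
    exact per_nat hn hL hc m s hs
  · have h1 := per_nat hn hL hc m (s + ((-(m : ℤ) : ℤ) : ℂ) * (2 * Real.pi * I))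
      (by rw [add_re']; exact hs)
    have e1 : s + ((-(m : ℤ) : ℤ) : ℂ) * (2 * Real.pi * I) + m * (2 * Real.pi * I) = s := by
      push_cast
      ring
    rw [e1] at h1
    exact h1.symm

theorem isOpen_half : IsOpen {s : ℂ | 0 < s.re} := isOpen_lt continuous_const continuous_re

theorem diff (hL : IsExt n Λ) (hc : c ∈ MM n) {s : ℂ} (hs : 0 < s.re) :
    DifferentiableAt ℂ (fun s => exp (Λ c s)) s :=
  ((hL.diff c hc).differentiableAt (isOpen_half.mem_nhds hs)).cexp

theorem deriv_per (hn : 2 ≤ n) (hL : IsExt n Λ) (hc : c ∈ MM n) (k : ℤ) (s : ℂ) (hs : 0 < s.re) :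
    deriv (fun s => exp (Λ c s)) (s + k * (2 * Real.pi * I)) =
      deriv (fun s => exp (Λ c s)) s := by
  rw [← deriv_comp_add_const]
  apply Filter.EventuallyEq.deriv_eq
  filter_upwards [isOpen_half.mem_nhds hs] with z hz
  exact per_int hn hL hc k z hz

theorem deriv_diff (hL : IsExt n Λ) (hc : c ∈ MM n) {s : ℂ} (hs : 0 < s.re) :
    DifferentiableAt ℂ (fun z => deriv (fun s => exp (Λ c s)) z ^ 2) s := by
  have h1 : DifferentiableOn ℂ (fun s => exp (Λ c s)) {s : ℂ | 0 < s.re} :=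
    (hL.diff c hc).cexp
  exact ((h1.deriv isOpen_half).differentiableAt (isOpen_half.mem_nhds hs)).pow 2

/-- half open strip -/
def strip (a : ℝ) : Set ℂ := {s : ℂ | (0 < s.re ∧ s.re < 1) ∧ a ≤ s.im ∧ s.im < a + 2 * Real.pi}

theorem strip_meas (a : ℝ) : MeasurableSet (strip a) := by
  unfold strip
  refine MeasurableSet.inter (MeasurableSet.inter ?_ ?_) (MeasurableSet.inter ?_ ?_)
  · exact measurableSet_lt measurable_const measurable_re
  · exact measurableSet_lt measurable_re measurable_const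
  · exact measurableSet_le measurable_const measurable_im
  · exact measurableSet_lt measurable_im measurable_const

theorem strip_inj (hL : IsExt n Λ) (hc : c ∈ MM n) (a : ℝ) :
    InjOn (fun s => exp (Λ c s)) (strip a) := by
  intro s hs t ht hst
  obtain ⟨k, hk⟩ := hL.inj c hc s t hs.1.1 ht.1.1 hst
  have h1 : s = t + k * (2 * Real.pi * I) := by
    rw [← hk]; ring
  have h2 : s.im = t.im + k * (2 * Real.pi) := by
    rw [h1, add_im']
  have h3 : |(k : ℝ) * (2 * Real.pi)| < 2 * Real.pi := by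
    rw [abs_lt]
    obtain ⟨-, h4, h5⟩ := hs
    obtain ⟨-, h6, h7⟩ := ht
    constructor <;> linarith
  rw [abs_mul, abs_of_pos (by positivity : (0 : ℝ) < 2 * Real.pi)] at h3
  have h4 : |(k : ℝ)| < 1 := by
    by_contra hcon
    push Not at hcon
    have := mul_le_mul_of_nonneg_right hcon (by positivity : (0 : ℝ) ≤ 2 * Real.pi)
    linarith
  have h5 : k = 0 := by
    have : |k| < 1 := by exact_mod_cast h4
    rwa [Int.abs_lt_one_iff] at this
  rw [h1, h5]
  simp

theorem strip_fin (hL : IsExt n Λ) (hc : c ∈ MM n) (a : ℝ) :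
    ∫⁻ s in strip a, ‖deriv (fun s => exp (Λ c s)) s ^ 2‖ₑ < ⊤ := by
  have h1 := lintegral_abs_det_fderiv_eq_addHaar_image volume (strip_meas a)
    (f := fun s => exp (Λ c s)) (f' := fun s => mulR (deriv (fun s => exp (Λ c s)) s))
    (fun s hs => (hasFDerivAt_of_hasDerivAt (diff hL hc hs.1.1).hasDerivAt).hasFDerivWithinAt)
    (strip_inj hL hc a)
  have h2 : ∫⁻ s in strip a, ‖deriv (fun s => exp (Λ c s)) s ^ 2‖ₑ =
      ∫⁻ s in strip a, ENNReal.ofReal |(mulR (deriv (fun s => exp (Λ c s)) s)).det| := by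
    apply lintegral_congr
    intro s
    rw [mulR_det, abs_of_nonneg (by positivity), ← ofReal_norm, norm_pow]
  rw [h2, h1]
  have h3 : (fun s => exp (Λ c s)) '' strip a ⊆ Metric.closedBall 0 (4 * Real.exp 1) := by
    rintro _ ⟨s, hs, rfl⟩
    rw [mem_closedBall_zero_iff]
    refine (hL.bdd c hc s hs.1.1).trans ?_
    have := Real.exp_le_exp.2 hs.1.2.le
    linarith
  refine (measure_mono h3).trans_lt ?_
  exact (isCompact_closedBall _ _).measure_lt_top

end

end AREA_

open AREA_ in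
theorem p_AREA : T_AREA := by
  intro n hn Λ hL c hc ε hε
  set P' : ℂ → ℂ := deriv (fun s => exp (Λ c s)) with hP'
  have hPm : Measurable (fun s => P' s ^ 2) := (measurable_deriv _).pow_const 2
  set T : Set ℂ := strip (-(2 * Real.pi)) ∪ (strip 0 ∪ strip (2 * Real.pi)) with hT
  have hTm : MeasurableSet T := (strip_meas _).union ((strip_meas _).union (strip_meas _))
  have hfin : ∫⁻ s, T.indicator (fun s => ‖P' s ^ 2‖ₑ) s ≠ ⊤ := by
    rw [lintegral_indicator hTm]
    refine ((lintegral_union_le _ _ _).trans_lt ?_).ne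
    refine ENNReal.add_lt_top.2 ⟨strip_fin hL hc _, (lintegral_union_le _ _ _).trans_lt ?_⟩
    exact ENNReal.add_lt_top.2 ⟨strip_fin hL hc _, strip_fin hL hc _⟩
  have hη : ENNReal.ofReal (Real.pi / 8 * ε ^ 2) ≠ 0 := by
    rw [Ne, ENNReal.ofReal_eq_zero, not_le]
    positivity
  obtain ⟨δ', hδ', hδ2⟩ := exists_pos_setLIntegral_lt_of_measure_lt hfin hη
  -- a real number below `δ'`
  obtain ⟨δ0, hδ0, hδ01⟩ : ∃ δ0 : ℝ, 0 < δ0 ∧ ∀ r : ℝ, 0 < r → r < δ0 → ∀ s : ℂ,
      volume (Metric.ball s r) < δ' := by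
    have h1 : Tendsto (fun r : ℝ => ENNReal.ofReal r ^ 2 * (NNReal.pi : ENNReal)) (𝓝 0)
        (𝓝 (ENNReal.ofReal 0 ^ 2 * (NNReal.pi : ENNReal))) := by
      refine ENNReal.Tendsto.mul_const ?_ (Or.inr ENNReal.coe_ne_top)
      exact (ENNReal.continuous_pow 2).continuousAt.comp ENNReal.continuous_ofReal.continuousAt
    rw [ENNReal.ofReal_zero, zero_pow two_ne_zero, zero_mul] at h1
    have h2 := h1.eventually (gt_mem_nhds hδ')
    obtain ⟨δ0, h3, h4⟩ := Metric.eventually_nhds_iff.1 h2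
    refine ⟨δ0, h3, fun r hr hr2 s => ?_⟩
    rw [Complex.volume_ball]
    apply h4
    rw [Real.dist_eq, sub_zero, abs_of_pos hr]
    exact hr2
  refine ⟨min (1 / 2) δ0, lt_min (by norm_num) hδ0, ?_⟩
  -- reduction to `0 ≤ Im s < 2 π`
  have key : ∀ s : ℂ, 0 < s.re → s.re < min (1 / 2) δ0 → 0 ≤ s.im → s.im < 2 * Real.pi →
      ‖P' s‖ * s.re ≤ ε := by
    intro s hs hs2 hi hi2
    have hs3 : s.re < 1 / 2 := hs2.trans_le (min_le_left _ _)
    have hs4 : s.re < δ0 := hs2.trans_le (min_le_right _ _)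
    have hball : ∀ x ∈ Metric.ball s (s.re / 2), 0 < x.re ∧ x.re < 1 ∧ -(2 * Real.pi) ≤ x.im ∧
        x.im < 4 * Real.pi := by
      intro x hx
      rw [Metric.mem_ball, dist_eq_norm] at hx
      have h1 := (abs_re_le_norm (x - s)).trans_lt hx
      have h2 := (abs_im_le_norm (x - s)).trans_lt hx
      rw [sub_re, abs_lt] at h1
      rw [sub_im, abs_lt] at h2
      have hpi := Real.pi_gt_three
      refine ⟨by linarith, by linarith, by linarith, by linarith⟩
    have hsub : Metric.ball s (s.re / 2) ⊆ T := by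
      intro x hx
      obtain ⟨h1, h2, h3, h4⟩ := hball x hx
      rw [hT]
      by_cases h5 : x.im < 0
      · exact Or.inl ⟨⟨h1, h2⟩, h3, by linarith⟩
      · push Not at h5
        by_cases h6 : x.im < 2 * Real.pi
        · exact Or.inr (Or.inl ⟨⟨h1, h2⟩, h5, by linarith⟩)
        · push Not at h6
          exact Or.inr (Or.inr ⟨⟨h1, h2⟩, h6, by linarith⟩)
    have h1 := mean hPm (s := s) (R := s.re / 2) (by positivity)
      (fun x hx => deriv_diff hL hc (hball x hx).1)
    have h2 := hδ2 (Metric.ball s (s.re / 2)) (hδ01 _ (by positivity) (by linarith) s)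
    have h3 : ∫⁻ x in Metric.ball s (s.re / 2), ‖P' x ^ 2‖ₑ =
        ∫⁻ x in Metric.ball s (s.re / 2), T.indicator (fun s => ‖P' s ^ 2‖ₑ) x := by
      refine setLIntegral_congr_fun Metric.isOpen_ball.measurableSet fun x hx => ?_
      exact (indicator_of_mem (hsub hx) (fun s => ‖P' s ^ 2‖ₑ)).symm
    rw [h3] at h1
    have h4 := h1.trans_lt h2
    have h5 : Real.pi / 2 * (s.re / 2) ^ 2 * ‖P' s ^ 2‖ < Real.pi / 8 * ε ^ 2 :=
      (ENNReal.ofReal_lt_ofReal_iff (by positivity)).1 h4
    rw [norm_pow] at h5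
    have h6 : (‖P' s‖ * s.re) ^ 2 < ε ^ 2 := by
      have h7 : Real.pi / 2 * (s.re / 2) ^ 2 * ‖P' s‖ ^ 2 =
          Real.pi / 8 * (‖P' s‖ * s.re) ^ 2 := by ring
      rw [h7] at h5
      exact lt_of_mul_lt_mul_left h5 (by positivity)
    exact (lt_of_pow_lt_pow_left₀ 2 hε.le h6).le
  intro s hs hs2
  have h2pi : (0 : ℝ) < 2 * Real.pi := by positivity
  set k : ℤ := -⌊s.im / (2 * Real.pi)⌋ with hk
  have h1 := key (s + k * (2 * Real.pi * I)) (by rw [add_re']; exact hs)
    (by rw [add_re']; exact hs2) ?_ ?_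
  · rw [add_re', hP', deriv_per hn hL hc k s hs] at h1
    exact h1
  · rw [add_im', hk]
    have := Int.floor_le (s.im / (2 * Real.pi))
    rw [le_div_iff₀ h2pi] at this
    push_cast
    linarith
  · rw [add_im', hk]
    have := Int.lt_floor_add_one (s.im / (2 * Real.pi))
    rw [div_lt_iff₀ h2pi] at this
    push_cast
    linarith

end Pool.Agent.Limb
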