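import Pool.Agent.Limb.Targets

/-!
# LIMB: periodic rays land (T_LAND from T_AREA)
-/

set_option autoImplicit false

open Complex Filter Topology Set
open Pool.Agent.Multibrot

namespace Pool.Agent.Limb.LAND_

lemma F_exp {n : ℕ} {Λ : ℂ → ℂ → ℂ} (h : IsExt n Λ) {c : ℂ} (hc : c ∈ MM n) {s : ℂ}
    (hs : 0 < s.re) : F n c (exp (Λ c s)) = exp (Λ c (n * s)) := by
  have := h.func c hc s hs
  rw [F, ← exp_nat_mul, this]; ring

lemma iter_exp {n : ℕ} (hn : 2 ≤ n) {Λ : ℂ → ℂ → ℂ} (h : IsExt n Λ) {c : ℂ} (hc : c ∈ MM n)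
    (m : ℕ) : ∀ s : ℂ, 0 < s.re → (F n c)^[m] (exp (Λ c s)) = exp (Λ c ((n : ℂ) ^ m * s)) := by
  have hn0 : (0 : ℝ) < n := by
    have : (2 : ℝ) ≤ n := by exact_mod_cast hn
    linarith
  induction m with
  | zero => intro s _; simp
  | succ m ih =>
    intro s hs
    rw [Function.iterate_succ_apply, F_exp h hc hs, ih]
    · rw [pow_succ, mul_assoc]
    · have : ((n : ℂ) * s).re = n * s.re := by simp
      rw [this]; positivity

lemma rot_nat {n : ℕ} {Λ : ℂ → ℂ → ℂ} (h : IsExt n Λ) {c : ℂ} (hc : c ∈ MM n) (s : ℂ)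
    (hs : 0 < s.re) (j : ℕ) :
    Λ c (s + j * (2 * Real.pi * I / n)) = Λ c s + j * (2 * Real.pi * I / n) := by
  induction j with
  | zero => simp
  | succ j ih =>
    have hre : 0 < (s + j * (2 * Real.pi * I / n)).re := by
      have : ((j : ℂ) * (2 * Real.pi * I / n)).re = 0 := by
        have e : (j : ℂ) * (2 * Real.pi * I / n) = ((j * (2 * Real.pi / n) : ℝ) : ℂ) * I := by
          push_cast; ring
        rw [e, re_ofReal_mul]; simp
      rw [add_re, this, add_zero]; exact hs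
    have := h.rot c hc _ hre
    have e1 : s + ((j + 1 : ℕ) : ℂ) * (2 * Real.pi * I / n) =
        s + j * (2 * Real.pi * I / n) + 2 * Real.pi * I / n := by push_cast; ring
    rw [e1, this, ih]; push_cast; ring

lemma per_one {n : ℕ} (hn : 2 ≤ n) {Λ : ℂ → ℂ → ℂ} (h : IsExt n Λ) {c : ℂ} (hc : c ∈ MM n)
    (s : ℂ) (hs : 0 < s.re) : exp (Λ c (s + 2 * Real.pi * I)) = exp (Λ c s) := by
  have hn0 : (n : ℂ) ≠ 0 := natCast_ne hn
  have := rot_nat h hc s hs n
  have e : (n : ℂ) * (2 * Real.pi * I / n) = 2 * Real.pi * I := by field_simp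
  rw [e] at this
  rw [this, exp_add, exp_two_pi_mul_I, mul_one]

lemma per_nat {n : ℕ} (hn : 2 ≤ n) {Λ : ℂ → ℂ → ℂ} (h : IsExt n Λ) {c : ℂ} (hc : c ∈ MM n)
    (k : ℕ) (s : ℂ) (hs : 0 < s.re) : exp (Λ c (s + k * (2 * Real.pi * I))) = exp (Λ c s) := by
  induction k with
  | zero => simp
  | succ k ih =>
    have hre : 0 < (s + k * (2 * Real.pi * I)).re := by
      have : ((k : ℂ) * (2 * Real.pi * I)).re = 0 := by
        have e : (k : ℂ) * (2 * Real.pi * I) = ((k * (2 * Real.pi) : ℝ) : ℂ) * I := by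
          push_cast; ring
        rw [e, re_ofReal_mul]; simp
      rw [add_re, this, add_zero]; exact hs
    have e1 : s + ((k + 1 : ℕ) : ℂ) * (2 * Real.pi * I) =
        s + k * (2 * Real.pi * I) + 2 * Real.pi * I := by push_cast; ring
    rw [e1, per_one hn h hc _ hre, ih]

lemma per_int {n : ℕ} (hn : 2 ≤ n) {Λ : ℂ → ℂ → ℂ} (h : IsExt n Λ) {c : ℂ} (hc : c ∈ MM n)
    (k : ℤ) (s : ℂ) (hs : 0 < s.re) : exp (Λ c (s + k * (2 * Real.pi * I))) = exp (Λ c s) := by
  have hre : ∀ k : ℤ, (s + (k : ℂ) * (2 * Real.pi * I)).re = s.re := by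
    intro k
    have : ((k : ℂ) * (2 * Real.pi * I)).re = 0 := by
      have e : (k : ℂ) * (2 * Real.pi * I) = ((k * (2 * Real.pi) : ℝ) : ℂ) * I := by
        push_cast; ring
      rw [e, re_ofReal_mul]; simp
    rw [add_re, this, add_zero]
  obtain ⟨m, rfl | rfl⟩ := k.eq_nat_or_neg
  · simpa using per_nat hn h hc m s hs
  · have h1 := per_nat hn h hc m (s + ((-(m : ℤ) : ℤ) : ℂ) * (2 * Real.pi * I))
      (by rw [hre]; exact hs)
    rw [← h1]; congr 2; push_cast; ring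

/-- `g (n ^ p t) = f ^ p (g t)`. -/
lemma ray_pow {n : ℕ} (hn : 2 ≤ n) {Λ : ℂ → ℂ → ℂ} (h : IsExt n Λ) {c : ℂ} (hc : c ∈ MM n)
    {p : ℕ} {θ : ℝ} {k : ℤ} (hk : ((n : ℝ) ^ p - 1) * θ = k) {t : ℝ} (ht : 0 < t) :
    (F n c)^[p] (ray Λ c θ t) = ray Λ c θ ((n : ℝ) ^ p * t) := by
  have hn0 : (0 : ℝ) < n := by
    have : (2 : ℝ) ≤ n := by exact_mod_cast hn
    linarith
  have hre : ∀ u : ℝ, ((u : ℂ) + 2 * Real.pi * θ * I).re = u := by
    intro u
    have e : (2 * Real.pi * θ * I : ℂ) = ((2 * Real.pi * θ : ℝ) : ℂ) * I := by push_cast; ring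
    rw [e, add_re, re_ofReal_mul]; simp
  rw [ray, ray, iter_exp hn h hc p _ (by rw [hre]; exact ht)]
  rw [← per_int hn h hc k (((n : ℝ) ^ p * t : ℝ) + 2 * Real.pi * θ * I)
    (by rw [hre]; positivity)]
  congr 2
  have hk' : ((n : ℂ) ^ p - 1) * θ = k := by exact_mod_cast congrArg (fun x : ℝ => (x : ℂ)) hk
  push_cast
  linear_combination (2 * Real.pi * I) * hk'

/-- The difference `g (n ^ p t) - g t` tends to `0`. -/
lemma diff_small (hA : T_AREA) {n : ℕ} (hn : 2 ≤ n) {Λ : ℂ → ℂ → ℂ} (h : IsExt n Λ) {c : ℂ}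
    (hc : c ∈ MM n) (θ : ℝ) {a : ℝ} (ha : 1 ≤ a) {η : ℝ} (hη : 0 < η) :
    ∀ᶠ t in 𝓝[>] (0 : ℝ), ‖ray Λ c θ (a * t) - ray Λ c θ t‖ < η := by
  have ha0 : 0 < a := by linarith
  set ε : ℝ := η / (2 * a) with hε
  have hε0 : 0 < ε := by positivity
  obtain ⟨δ, hδ, hd⟩ := hA n hn Λ h c hc ε hε0
  have hev : ∀ᶠ t in 𝓝[>] (0 : ℝ), t < δ / a :=
    nhdsWithin_le_nhds (Iio_mem_nhds (by positivity))
  filter_upwards [hev, self_mem_nhdsWithin] with t ht1 ht0
  have ht0 : 0 < t := ht0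
  have hre : ∀ u : ℝ, ((u : ℂ) + 2 * Real.pi * θ * I).re = u := by
    intro u
    have e : (2 * Real.pi * θ * I : ℂ) = ((2 * Real.pi * θ : ℝ) : ℂ) * I := by push_cast; ring
    rw [e, add_re, re_ofReal_mul]; simp
  -- the derivative of the ray
  have hder : ∀ u : ℝ, 0 < u → HasDerivAt (ray Λ c θ)
      (deriv (fun s => exp (Λ c s)) (u + 2 * Real.pi * θ * I)) u := by
    intro u hu
    have h1 : DifferentiableAt ℂ (Λ c) ((u : ℂ) + 2 * Real.pi * θ * I) :=
      (h.diff c hc).differentiableAt ((isOpen_lt continuous_const continuous_re).mem_nhds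
        (by show (0 : ℝ) < ((u : ℂ) + 2 * Real.pi * θ * I).re; rw [hre]; exact hu))
    have h2 : HasDerivAt (fun s => exp (Λ c s))
        (deriv (fun s => exp (Λ c s)) ((u : ℂ) + 2 * Real.pi * θ * I))
        ((u : ℂ) + 2 * Real.pi * θ * I) := h1.cexp.hasDerivAt
    have h3 : HasDerivAt (fun u : ℝ => (u : ℂ) + 2 * Real.pi * θ * I) 1 u :=
      (hasDerivAt_id u).ofReal_comp.add_const _
    have h4 := HasDerivAt.comp u h2 h3
    rw [mul_one] at h4
    exact h4
  have hbound : ∀ u ∈ Ico t (a * t), ‖deriv (fun s => exp (Λ c s)) ((u : ℂ) + 2 * Real.pi * θ * I)‖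
      ≤ ε / t := by
    intro u hu
    have hu0 : 0 < u := lt_of_lt_of_le ht0 hu.1
    have hu1 : u < δ := by
      have : a * t < δ := by
        have := (lt_div_iff₀ ha0).1 ht1
        linarith [mul_comm a t]
      linarith [hu.2]
    have := hd ((u : ℂ) + 2 * Real.pi * θ * I) (by rw [hre]; exact hu0) (by rw [hre]; exact hu1)
    rw [hre] at this
    rw [le_div_iff₀ ht0]
    exact le_trans (mul_le_mul_of_nonneg_left hu.1 (norm_nonneg _)) this
  have hle : t ≤ a * t := by nlinarith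
  have hmv := norm_image_sub_le_of_norm_deriv_le_segment'
    (f := ray Λ c θ) (f' := fun u => deriv (fun s => exp (Λ c s)) ((u : ℂ) + 2 * Real.pi * θ * I))
    (a := t) (b := a * t) (C := ε / t)
    (fun u hu => (hder u (lt_of_lt_of_le ht0 hu.1)).hasDerivWithinAt) hbound (a * t)
    ⟨hle, le_refl _⟩
  have h5 : ε / t * (a * t - t) = ε * (a - 1) := by field_simp
  have h6 : ε * (a - 1) < η := by
    have : ε * a = η / 2 := by rw [hε]; field_simp
    nlinarith
  linarith [hmv, h5, h6]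

/-- The fixed points of `f ^ p` form a finite set. -/
lemma finite_fix {n : ℕ} (hn : 2 ≤ n) {c : ℂ} (hc : c ∈ MM n) {p : ℕ} (hp : 1 ≤ p) :
    {z : ℂ | (F n c)^[p] z = z}.Finite := by
  classical
  have hcn : ‖c‖ ≤ 2 := by
    have := hc 1
    have e : Q n 1 c = c := by
      have : (0 : ℂ) ^ n = 0 := zero_pow (by omega)
      simp [Q, this]
    rwa [e] at this
  have hgrow : ∀ m : ℕ, ∀ z : ℂ, 4 ≤ ‖z‖ → ‖z‖ + m ≤ ‖(F n c)^[m] z‖ := by
    intro m
    induction m with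
    | zero => intro z _; simp
    | succ m ih =>
      intro z hz
      have h1 : ‖z‖ ^ 2 ≤ ‖z‖ ^ n := pow_le_pow_right₀ (by linarith) hn
      have h2 : ‖z‖ ^ n - ‖c‖ ≤ ‖F n c z‖ := by
        have := norm_sub_norm_le (z ^ n) (-c)
        rw [norm_neg, norm_pow, sub_neg_eq_add] at this
        exact this
      have h3 : ‖z‖ + 1 ≤ ‖F n c z‖ := by nlinarith
      rw [Function.iterate_succ_apply]
      have := ih (F n c z) (by linarith)
      push_cast
      linarith
  set P : Polynomial ℂ :=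
    (Polynomial.comp (Polynomial.X ^ n + Polynomial.C c))^[p] Polynomial.X - Polynomial.X with hP
  have hev : ∀ z : ℂ, P.eval z = (F n c)^[p] z - z := by
    intro z
    rw [hP, Polynomial.eval_sub, Polynomial.eval_X, Polynomial.iterate_comp_eval,
      Polynomial.eval_X]
    have : (fun x => Polynomial.eval x (Polynomial.X ^ n + Polynomial.C c)) = F n c := by
      funext x; simp [F]
    rw [this]
  have hP0 : P ≠ 0 := by
    intro h0
    have h1 := hev 4
    rw [h0, Polynomial.eval_zero] at h1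
    have h2 := hgrow p 4 (by simp)
    rw [← sub_eq_zero.1 h1.symm] at h2
    have : (1 : ℝ) ≤ p := by exact_mod_cast hp
    have h3 : ‖(F n c)^[p] 4‖ = ‖(4 : ℂ)‖ := by rw [sub_eq_zero.1 h1.symm]
    have h4 := hgrow p 4 (by simp)
    linarith
  refine Set.Finite.subset (P.roots.toFinset.finite_toSet) fun z hz => ?_
  simp only [Finset.mem_coe, Multiset.mem_toFinset, Polynomial.mem_roots hP0,
    Polynomial.IsRoot.def]
  rw [hev]; exact sub_eq_zero.2 hz

end Pool.Agent.Limb.LAND_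

namespace Pool.Agent.Limb

open LAND_

theorem p_LAND (h : T_AREA) : T_LAND := by
  classical
  intro n hn Λ hE c hc p θ k hp hk
  have hn1 : (2 : ℝ) ≤ n := by exact_mod_cast hn
  have hre : ∀ u : ℝ, ((u : ℂ) + 2 * Real.pi * θ * I).re = u := by
    intro u
    have e : (2 * Real.pi * θ * I : ℂ) = ((2 * Real.pi * θ : ℝ) : ℂ) * I := by push_cast; ring
    rw [e, add_re, re_ofReal_mul]; simp
  have hcont : ContinuousOn (ray Λ c θ) (Ioi 0) := by
    intro u hu
    have h1 : DifferentiableAt ℂ (Λ c) ((u : ℂ) + 2 * Real.pi * θ * I) :=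
      (hE.diff c hc).differentiableAt ((isOpen_lt continuous_const continuous_re).mem_nhds
        (by show (0 : ℝ) < ((u : ℂ) + 2 * Real.pi * θ * I).re; rw [hre]; exact hu))
    have h2 : ContinuousAt (fun s => exp (Λ c s)) ((u : ℂ) + 2 * Real.pi * θ * I) :=
      h1.cexp.continuousAt
    have h3 : ContinuousAt (fun u : ℝ => (u : ℂ) + 2 * Real.pi * θ * I) u := by fun_prop
    have h4 : ContinuousAt (fun u : ℝ => exp (Λ c ((u : ℂ) + 2 * Real.pi * θ * I))) u :=
      ContinuousAt.comp (f := fun u : ℝ => (u : ℂ) + 2 * Real.pi * θ * I) h2 h3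
    exact h4.continuousWithinAt
  have hbd : ∀ t : ℝ, 0 < t → t < 1 → ‖ray Λ c θ t‖ ≤ 4 * Real.exp 1 := by
    intro t ht0 ht1
    have := hE.bdd c hc ((t : ℂ) + 2 * Real.pi * θ * I) (by rw [hre]; exact ht0)
    rw [hre] at this
    refine this.trans ?_
    have := Real.exp_le_exp.2 ht1.le
    linarith
  have hfin := finite_fix hn hc hp
  set S : Finset ℂ := hfin.toFinset with hS
  have hSmem : ∀ z, z ∈ S ↔ (F n c)^[p] z = z := by intro z; rw [hS]; simp
  have hFc : Continuous (F n c) := by unfold F; fun_prop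
  have hFi : Continuous ((F n c)^[p]) := hFc.iterate p
  -- g gets close to S
  have hclose : ∀ ρ : ℝ, 0 < ρ → ∀ᶠ t in 𝓝[>] (0 : ℝ), ∃ z ∈ S, dist (ray Λ c θ t) z < ρ := by
    intro ρ hρ
    set K : Set ℂ := Metric.closedBall (0 : ℂ) (4 * Real.exp 1) ∩
      ⋂ z ∈ S, {w : ℂ | ρ ≤ dist w z} with hK
    have hKc : IsCompact K := by
      refine (isCompact_closedBall _ _).inter_right ?_
      exact isClosed_biInter fun z _ => isClosed_le continuous_const (by fun_prop)
    obtain ⟨m, hm, hmK⟩ : ∃ m : ℝ, 0 < m ∧ ∀ w ∈ K, m ≤ ‖(F n c)^[p] w - w‖ := by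
      rcases K.eq_empty_or_nonempty with h0 | h0
      · exact ⟨1, one_pos, by intro w hw; rw [h0] at hw; exact absurd hw (Set.notMem_empty _)⟩
      · obtain ⟨w0, hw0, hmin⟩ := hKc.exists_isMinOn h0
          (f := fun w => ‖(F n c)^[p] w - w‖) (by fun_prop)
        refine ⟨‖(F n c)^[p] w0 - w0‖, ?_, fun w hw => hmin hw⟩
        rw [norm_pos_iff]
        intro h1
        have h2 : w0 ∈ S := (hSmem w0).2 (sub_eq_zero.1 h1)
        have h3 := Set.mem_iInter₂.1 hw0.2 w0 h2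
        have h4 : ρ ≤ dist w0 w0 := h3
        rw [dist_self] at h4
        linarith
    have hev := diff_small h hn hE hc θ (a := (n : ℝ) ^ p) (one_le_pow₀ (by linarith)) hm
    have hev1 : ∀ᶠ t in 𝓝[>] (0 : ℝ), t < 1 := nhdsWithin_le_nhds (Iio_mem_nhds one_pos)
    filter_upwards [hev, hev1, self_mem_nhdsWithin] with t ht1 ht2 ht0
    by_contra hcon
    push Not at hcon
    have hmem : ray Λ c θ t ∈ K := by
      refine ⟨?_, Set.mem_iInter₂.2 fun z hz => hcon z hz⟩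
      rw [mem_closedBall_zero_iff]; exact hbd t ht0 ht2
    have := hmK _ hmem
    rw [ray_pow hn hE hc hk ht0] at this
    linarith
  -- separation radius
  obtain ⟨r, hr0, hr⟩ : ∃ r : ℝ, 0 < r ∧ ∀ z ∈ S, ∀ z' ∈ S, z ≠ z' → 3 * r ≤ dist z z' := by
    have : ∀ᶠ r in 𝓝[>] (0 : ℝ), ∀ z ∈ S, ∀ z' ∈ S, z ≠ z' → 3 * r ≤ dist z z' := by
      rw [eventually_all_finset]
      intro z _
      rw [eventually_all_finset]
      intro z' _
      by_cases hzz : z = z'
      · exact Eventually.of_forall fun r h1 => absurd hzz h1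
      · have h1 : 0 < dist z z' / 3 := by have := dist_pos.2 hzz; positivity
        filter_upwards [nhdsWithin_le_nhds (Iio_mem_nhds h1)] with r hr _
        have hr : r < dist z z' / 3 := hr
        linarith
    obtain ⟨r, h1, h2⟩ := (this.and self_mem_nhdsWithin).exists
    exact ⟨r, h2, h1⟩
  -- eventually in the union of the balls
  obtain ⟨t0, ht0, hin⟩ : ∃ t0 : ℝ, 0 < t0 ∧ ∀ t ∈ Ioo 0 t0, ∃ z ∈ S,
      dist (ray Λ c θ t) z < r := by
    obtain ⟨t0, h1, h2⟩ := mem_nhdsGT_iff_exists_Ioo_subset.1 (hclose r hr0)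
    exact ⟨t0, h1, h2⟩
  have hpre : IsPreconnected (ray Λ c θ '' Ioo 0 t0) :=
    isPreconnected_Ioo.image _ (hcont.mono fun t ht => ht.1)
  have hmid : t0 / 2 ∈ Ioo 0 t0 := ⟨by positivity, by linarith⟩
  obtain ⟨z, hzS, hz⟩ := hin (t0 / 2) hmid
  have hsub : ray Λ c θ '' Ioo 0 t0 ⊆ Metric.ball z r := by
    refine hpre.subset_left_of_subset_union (v := ⋃ z' ∈ S.erase z, Metric.ball z' r)
      Metric.isOpen_ball (isOpen_biUnion fun _ _ => Metric.isOpen_ball) ?_ ?_ ?_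
    · rw [Set.disjoint_iUnion₂_right]
      intro z' hz'
      have hne := (Finset.mem_erase.1 hz').1
      have := hr z hzS z' (Finset.mem_erase.1 hz').2 (Ne.symm hne)
      exact Metric.ball_disjoint_ball (by linarith)
    · rintro _ ⟨t, ht, rfl⟩
      obtain ⟨z', hz', hd⟩ := hin t ht
      by_cases he : z' = z
      · left; rw [he] at hd; exact hd
      · right; exact Set.mem_iUnion₂.2 ⟨z', Finset.mem_erase.2 ⟨he, hz'⟩, hd⟩
    · exact ⟨_, ⟨_, hmid, rfl⟩, hz⟩
  have hlim : Tendsto (ray Λ c θ) (𝓝[>] 0) (𝓝 z) := by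
    rw [Metric.tendsto_nhds]
    intro ε hε
    have h1 := hclose (min ε r) (lt_min hε hr0)
    have h2 : ∀ᶠ t in 𝓝[>] (0 : ℝ), t < t0 := nhdsWithin_le_nhds (Iio_mem_nhds ht0)
    filter_upwards [h1, h2, self_mem_nhdsWithin] with t ht1 ht2 ht3
    obtain ⟨z', hz', hd⟩ := ht1
    have h3 : dist (ray Λ c θ t) z < r := hsub ⟨t, ⟨ht3, ht2⟩, rfl⟩
    have h4 : z' = z := by
      by_contra hne
      have h5 := hr z' hz' z hzS hne
      have h6 := dist_triangle_left z' z (ray Λ c θ t)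
      have h7 : dist (ray Λ c θ t) z' < r := lt_of_lt_of_le hd (min_le_right _ _)
      linarith
    rw [h4] at hd
    exact lt_of_lt_of_le hd (min_le_left _ _)
  have hland : land Λ c θ = z := hlim.limUnder_eq
  rw [hland]
  exact ⟨hlim, (hSmem z).1 hzS⟩

end Pool.Agent.Limb
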