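import Pool.Agent.Limb.Targets

/-!
# LIMB, job STAB: continuity of repelling landing points
-/

set_option autoImplicit false

open Complex Filter Topology Set
open Pool.Agent.Multibrot

namespace Pool.Agent.Limb

namespace STAB_

lemma contF (n : ℕ) (p : ℕ) : Continuous (fun q : ℂ × ℂ => (F n q.1)^[p] q.2) := by
  induction p with
  | zero => simpa using continuous_snd
  | succ p ih =>
    have : (fun q : ℂ × ℂ => (F n q.1)^[p + 1] q.2) =
        fun q : ℂ × ℂ => ((F n q.1)^[p] q.2) ^ n + q.1 := by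
      funext q
      rw [Function.iterate_succ_apply']
      rfl
    rw [this]
    exact (ih.pow n).add continuous_fst

lemma diffF (n : ℕ) (c : ℂ) (p : ℕ) : Differentiable ℂ ((F n c)^[p]) := by
  have h : Differentiable ℂ (F n c) := by
    unfold F
    exact (differentiable_id.pow n).add_const c
  exact h.iterate p

lemma func_iter {n : ℕ} (hn : 2 ≤ n) {Λ : ℂ → ℂ → ℂ} (hΛ : IsExt n Λ) {c : ℂ} (hc : c ∈ MM n)
    (p : ℕ) (s : ℂ) (hs : 0 < s.re) :
    exp (Λ c ((n : ℂ) ^ p * s)) = (F n c)^[p] (exp (Λ c s)) := by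
  have hn0 : (0 : ℝ) < n := by positivity
  induction p with
  | zero => simp
  | succ p ih =>
    rw [Function.iterate_succ_apply', ← ih]
    have h1 : 0 < ((n : ℂ) ^ p * s).re := by
      have : ((n : ℂ) ^ p * s).re = (n : ℝ) ^ p * s.re := by
        rw [← Complex.ofReal_natCast, ← Complex.ofReal_pow, Complex.re_ofReal_mul]
      rw [this]
      positivity
    have h2 := hΛ.func c hc _ h1
    rw [Complex.exp_nat_mul] at h2
    unfold F
    rw [h2, pow_succ]
    ring_nf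

lemma rot_nat {n : ℕ} (hn : 2 ≤ n) {Λ : ℂ → ℂ → ℂ} (hΛ : IsExt n Λ) {c : ℂ} (hc : c ∈ MM n)
    (m : ℕ) (s : ℂ) (hs : 0 < s.re) :
    Λ c (s + m * (2 * Real.pi * I / n)) = Λ c s + m * (2 * Real.pi * I / n) := by
  induction m with
  | zero => simp
  | succ m ih =>
    have h0 : (m * (2 * Real.pi * I / n) : ℂ).re = 0 := by
      have : (m * (2 * Real.pi * I / n) : ℂ) = ((m * (2 * Real.pi) / n : ℝ) : ℂ) * I := by
        push_cast
        ring
      rw [this]
      simp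
    have h1 : 0 < (s + m * (2 * Real.pi * I / n)).re := by
      rw [Complex.add_re, h0, add_zero]
      exact hs
    have h2 := hΛ.rot c hc _ h1
    have e1 : s + ((m + 1 : ℕ) : ℂ) * (2 * Real.pi * I / n) =
        s + m * (2 * Real.pi * I / n) + 2 * Real.pi * I / n := by
      push_cast
      ring
    rw [e1, h2, ih]
    push_cast
    ring

lemma rot_int {n : ℕ} (hn : 2 ≤ n) {Λ : ℂ → ℂ → ℂ} (hΛ : IsExt n Λ) {c : ℂ} (hc : c ∈ MM n)
    (k : ℤ) (s : ℂ) (hs : 0 < s.re) :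
    exp (Λ c (s + k * (2 * Real.pi * I))) = exp (Λ c s) := by
  have hn0 : (n : ℂ) ≠ 0 := by
    have : n ≠ 0 := by omega
    exact_mod_cast this
  have key : ∀ (m : ℕ) (s : ℂ), 0 < s.re →
      exp (Λ c (s + m * (2 * Real.pi * I))) = exp (Λ c s) := by
    intro m s hs
    have h := rot_nat hn hΛ hc (m * n) s hs
    have e : (((m * n : ℕ) : ℂ)) * (2 * Real.pi * I / n) = m * (2 * Real.pi * I) := by
      push_cast
      field_simp
    rw [e] at h
    rw [h, Complex.exp_add]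
    have : exp ((m : ℂ) * (2 * Real.pi * I)) = 1 := by
      have := Complex.exp_int_mul_two_pi_mul_I (m : ℤ)
      simpa using this
    rw [this, mul_one]
  have hre : ∀ m : ℤ, (s + m * (2 * Real.pi * I)).re = s.re := by
    intro m
    have : (m * (2 * Real.pi * I) : ℂ) = ((m * (2 * Real.pi) : ℝ) : ℂ) * I := by
      push_cast
      ring
    rw [Complex.add_re, this]
    simp
  rcases Int.le_total 0 k with hk | hk
  · obtain ⟨m, rfl⟩ := Int.eq_ofNat_of_zero_le hk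
    simpa using key m s hs
  · obtain ⟨m, hm⟩ := Int.eq_ofNat_of_zero_le (neg_nonneg.mpr hk)
    have hk' : k = -(m : ℤ) := by omega
    have h := key m (s + k * (2 * Real.pi * I)) (by rw [hre]; exact hs)
    rw [← h]
    congr 2
    rw [hk']
    push_cast
    ring

lemma ray_rel {n : ℕ} (hn : 2 ≤ n) {Λ : ℂ → ℂ → ℂ} (hΛ : IsExt n Λ) {c : ℂ} (hc : c ∈ MM n)
    {p : ℕ} {θ : ℝ} {k : ℤ} (hk : ((n : ℝ) ^ p - 1) * θ = k) {t : ℝ} (ht : 0 < t) :
    ray Λ c θ ((n : ℝ) ^ p * t) = (F n c)^[p] (ray Λ c θ t) := by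
  have hn0 : (0 : ℝ) < n := by positivity
  unfold ray
  have hs : 0 < ((t : ℂ) + 2 * Real.pi * θ * I).re := by
    have : ((t : ℂ) + 2 * Real.pi * θ * I) = (t : ℂ) + ((2 * Real.pi * θ : ℝ) : ℂ) * I := by
      push_cast
      ring
    rw [this]
    simpa using ht
  have hs' : 0 < ((((n : ℝ) ^ p * t : ℝ) : ℂ) + 2 * Real.pi * θ * I).re := by
    have : ((((n : ℝ) ^ p * t : ℝ) : ℂ) + 2 * Real.pi * θ * I) =
        (((n : ℝ) ^ p * t : ℝ) : ℂ) + ((2 * Real.pi * θ : ℝ) : ℂ) * I := by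
      push_cast
      ring
    rw [this, Complex.add_re, Complex.ofReal_re]
    have h2 : (((2 * Real.pi * θ : ℝ) : ℂ) * I).re = 0 := by simp
    rw [h2, add_zero]
    positivity
  rw [← func_iter hn hΛ hc p _ hs, ← rot_int hn hΛ hc k _ hs']
  congr 2
  have hkc : ((n : ℂ) ^ p - 1) * θ = k := by
    have := congrArg (fun x : ℝ => (x : ℂ)) hk
    push_cast at this
    exact this
  have : (k : ℂ) * (2 * Real.pi * I) = ((n : ℂ) ^ p - 1) * θ * (2 * Real.pi * I) := by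
    rw [hkc]
  rw [this]
  push_cast
  ring

lemma cont_ray {n : ℕ} {Λ : ℂ → ℂ → ℂ} (hΛ : IsExt n Λ) (θ : ℝ) (c : MM n) (t : ℝ)
    (ht : 0 < t) :
    ContinuousAt (fun q : MM n × ℝ => ray Λ q.1 θ q.2) (c, t) := by
  unfold ray
  refine Complex.continuous_exp.continuousAt.comp ?_
  have hre : ∀ u : ℝ, ((u : ℂ) + 2 * Real.pi * θ * I).re = u := by
    intro u
    have : ((u : ℂ) + 2 * Real.pi * θ * I) = (u : ℂ) + ((2 * Real.pi * θ : ℝ) : ℂ) * I := by
      push_cast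
      ring
    rw [this]
    simp
  have h1 := hΛ.cont (((c : ℂ), (t : ℂ) + 2 * Real.pi * θ * I)) (by
    refine ⟨c.2, ?_⟩
    show 0 < ((t : ℂ) + 2 * Real.pi * θ * I).re
    rw [hre]
    exact ht)
  have h2 : Tendsto (fun q : MM n × ℝ => (((q.1 : ℂ), (q.2 : ℂ) + 2 * Real.pi * θ * I) : ℂ × ℂ))
      (𝓝 (c, t)) (𝓝[MM n ×ˢ {s : ℂ | 0 < s.re}] (((c : ℂ), (t : ℂ) + 2 * Real.pi * θ * I))) := by
    refine tendsto_nhdsWithin_iff.mpr ⟨?_, ?_⟩
    · have hcont : Continuous (fun q : MM n × ℝ =>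
          (((q.1 : ℂ), (q.2 : ℂ) + 2 * Real.pi * θ * I) : ℂ × ℂ)) := by
        refine (continuous_subtype_val.comp continuous_fst).prodMk ?_
        exact (Complex.continuous_ofReal.comp continuous_snd).add continuous_const
      exact hcont.tendsto (c, t)
    · have hev : ∀ᶠ q : MM n × ℝ in 𝓝 (c, t), 0 < q.2 :=
        continuous_snd.tendsto (c, t) (Ioi_mem_nhds ht)
      filter_upwards [hev] with q hq
      refine ⟨q.1.2, ?_⟩
      show 0 < ((q.2 : ℂ) + 2 * Real.pi * θ * I).re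
      rw [hre]
      exact hq
  exact Tendsto.comp h1 h2

lemma expanding {G : ℂ → ℂ} {p0 : ℂ} (hG : DifferentiableAt ℂ G p0) (hfix : G p0 = p0)
    (hd : 1 < ‖deriv G p0‖) :
    ∃ r0 : ℝ, 0 < r0 ∧ ∀ z : ℂ, z ≠ p0 → ‖z - p0‖ ≤ r0 → ‖z - p0‖ < ‖G z - p0‖ := by
  have h := hG.hasDerivAt
  rw [hasDerivAt_iff_isLittleO] at h
  have h2 := h.def (c := (‖deriv G p0‖ - 1) / 2) (by linarith)
  obtain ⟨r, hr, hb⟩ := Metric.eventually_nhds_iff.mp h2
  refine ⟨r / 2, by positivity, ?_⟩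
  intro z hz hzr
  have h3 := hb (y := z) (by rw [dist_eq_norm]; linarith)
  rw [hfix, smul_eq_mul] at h3
  have hpos : 0 < ‖z - p0‖ := norm_pos_iff.mpr (sub_ne_zero.mpr hz)
  have h4 : ‖(z - p0) * deriv G p0‖ ≤ ‖G z - p0‖ + ‖G z - p0 - (z - p0) * deriv G p0‖ := by
    have : (z - p0) * deriv G p0 = (G z - p0) - (G z - p0 - (z - p0) * deriv G p0) := by ring
    calc ‖(z - p0) * deriv G p0‖ = ‖(G z - p0) - (G z - p0 - (z - p0) * deriv G p0)‖ := by
          rw [← this]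
      _ ≤ _ := norm_sub_le _ _
  rw [norm_mul] at h4
  nlinarith

end STAB_

open STAB_ in
/-- **STAB.** Repelling landing points depend continuously on the parameter. -/
theorem p_STAB (h : T_LAND) : T_STAB := by
  intro n hn Λ hΛ p θ k hp hk c0 hc0 hrep
  have hn1 : (1 : ℝ) < n := by
    have : (2 : ℝ) ≤ n := by exact_mod_cast hn
    linarith
  have hN1 : (1 : ℝ) < (n : ℝ) ^ p := one_lt_pow₀ hn1 (by omega)
  have hN0 : (0 : ℝ) < (n : ℝ) ^ p := by linarith
  obtain ⟨hlim0, hfix0⟩ := h n hn Λ hΛ c0 hc0 p θ k hp hk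
  set p0 := land Λ c0 θ with hp0
  obtain ⟨r0, hr0, hexp⟩ := expanding (diffF n c0 p p0) hfix0 (hrep p0 hfix0)
  show Tendsto (fun c => land Λ c θ) (𝓝[MM n] c0) (𝓝 (land Λ c0 θ))
  rw [Metric.tendsto_nhds]
  intro ε hε
  set r := min r0 (ε / 2) with hr
  have hrpos : 0 < r := lt_min hr0 (by positivity)
  have hrr0 : r ≤ r0 := min_le_left _ _
  have hrε : r < ε := lt_of_le_of_lt (min_le_right _ _) (by linarith)
  -- step 2
  have ev1 : ∀ᶠ c in 𝓝 c0, ∀ z ∈ Metric.sphere p0 r, r < ‖(F n c)^[p] z - p0‖ := by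
    refine (isCompact_sphere p0 r).eventually_forall_of_forall_eventually ?_
    intro z hz
    have hz' : ‖z - p0‖ = r := by rw [← dist_eq_norm]; exact hz
    have hzne : z ≠ p0 := by
      intro hzz
      rw [hzz, sub_self, norm_zero] at hz'
      linarith
    have h1 := hexp z hzne (by rw [hz']; exact hrr0)
    rw [hz'] at h1
    have hcont : Continuous (fun q : ℂ × ℂ => ‖(F n q.1)^[p] q.2 - p0‖) :=
      ((contF n p).sub continuous_const).norm
    exact hcont.continuousAt.eventually (lt_mem_nhds h1)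
  -- step 3
  have ev0 : ∀ᶠ t in 𝓝[>] (0 : ℝ), ray Λ c0 θ t ∈ Metric.ball p0 r :=
    hlim0 (Metric.ball_mem_nhds p0 hrpos)
  obtain ⟨t1, ht1, hsub⟩ := mem_nhdsGT_iff_exists_Ioc_subset.mp ev0
  have ht1' : (0 : ℝ) < t1 := ht1
  -- step 4
  have ev2 : ∀ᶠ c : MM n in 𝓝 (⟨c0, hc0⟩ : MM n), ∀ t ∈ Icc (t1 / (n : ℝ) ^ p) t1,
      ‖ray Λ c θ t - p0‖ < r := by
    refine isCompact_Icc.eventually_forall_of_forall_eventually ?_
    intro t ht
    have htpos : 0 < t := lt_of_lt_of_le (by positivity) ht.1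
    have h1 : ray Λ c0 θ t ∈ Metric.ball p0 r := hsub ⟨htpos, ht.2⟩
    have h2 : ‖ray Λ c0 θ t - p0‖ < r := by rw [← dist_eq_norm]; exact h1
    have hcont := ((cont_ray hΛ θ ⟨c0, hc0⟩ t htpos).sub
      (continuousAt_const (y := p0))).norm
    exact hcont.eventually (gt_mem_nhds h2)
  have ev2' : ∀ᶠ c in 𝓝[MM n] c0, ∀ t ∈ Icc (t1 / (n : ℝ) ^ p) t1,
      ‖ray Λ c θ t - p0‖ < r := by
    rw [nhdsWithin_eq_map_subtype_coe hc0, eventually_map]
    exact ev2
  filter_upwards [ev2', mem_nhdsWithin_of_mem_nhds ev1, self_mem_nhdsWithin] with c h2 h1 hc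
  -- step 5
  have hcr : ContinuousOn (fun t : ℝ => ray Λ c θ t) (Ioi 0) := by
    intro t ht
    have h3 := cont_ray hΛ θ ⟨c, hc⟩ t ht
    have h4 : ContinuousAt (fun t : ℝ => ((⟨c, hc⟩ : MM n), t)) t :=
      continuousAt_const.prodMk continuousAt_id
    exact (ContinuousAt.comp (f := fun t : ℝ => ((⟨c, hc⟩ : MM n), t)) h3 h4).continuousWithinAt
  have claim : ∀ t : ℝ, 0 < t → t ≤ t1 → ‖ray Λ c θ t - p0‖ < r := by
    intro tb htb htb1
    by_contra hcon
    have hcon' : r ≤ ‖ray Λ c θ tb - p0‖ := not_lt.mp hcon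
    have hcr' : ContinuousOn (fun t : ℝ => ‖ray Λ c θ t - p0‖) (Icc tb t1) :=
      ((hcr.mono (fun x hx => lt_of_lt_of_le htb hx.1)).sub continuousOn_const).norm
    have hcomp : IsCompact (Icc tb t1 ∩ (fun t : ℝ => ‖ray Λ c θ t - p0‖) ⁻¹' (Ici r)) :=
      isCompact_Icc.of_isClosed_subset
        (hcr'.preimage_isClosed_of_isClosed isClosed_Icc isClosed_Ici) inter_subset_left
    obtain ⟨t', ⟨⟨hb1, hb2⟩, hb3⟩, hmax⟩ := hcomp.exists_isGreatest
      ⟨tb, ⟨le_rfl, htb1⟩, hcon'⟩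
    have hb3' : r ≤ ‖ray Λ c θ t' - p0‖ := hb3
    have ht'0 : 0 < t' := lt_of_lt_of_le htb hb1
    have hafter : ∀ t, t' < t → t ≤ t1 → ‖ray Λ c θ t - p0‖ < r := by
      intro t ht ht1
      by_contra hc2
      have := hmax (a := t) ⟨⟨hb1.trans ht.le, ht1⟩, not_lt.mp hc2⟩
      linarith
    have hlt : t' < t1 / (n : ℝ) ^ p := by
      by_contra hc2
      have := h2 t' ⟨not_lt.mp hc2, hb2⟩
      linarith
    have hlt1 : (n : ℝ) ^ p * t' < t1 := by
      rw [lt_div_iff₀ hN0] at hlt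
      linarith
    have hlt2 : t' < (n : ℝ) ^ p * t' := by nlinarith
    have heq : ‖ray Λ c θ t' - p0‖ = r := by
      refine le_antisymm ?_ hb3'
      have hca : ContinuousAt (fun t : ℝ => ‖ray Λ c θ t - p0‖) t' :=
        ((hcr.continuousAt (Ioi_mem_nhds ht'0)).sub continuousAt_const).norm
      have hev : ∀ᶠ t in 𝓝[>] t', ‖ray Λ c θ t - p0‖ ≤ r := by
        have : ∀ᶠ t in 𝓝[>] t', t ∈ Ioc t' t1 := Ioc_mem_nhdsGT (by linarith)
        filter_upwards [this] with t ht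
        exact (hafter t ht.1 ht.2).le
      exact le_of_tendsto (hca.tendsto.mono_left nhdsWithin_le_nhds) hev
    have h5 := hafter _ hlt2 hlt1.le
    rw [ray_rel hn hΛ hc hk ht'0] at h5
    have h6 := h1 (ray Λ c θ t') (by
      show dist (ray Λ c θ t') p0 = r
      rw [dist_eq_norm]
      exact heq)
    linarith
  have hlim := (h n hn Λ hΛ c hc p θ k hp hk).1
  have hle : ‖land Λ c θ - p0‖ ≤ r := by
    refine le_of_tendsto ((hlim.sub_const p0).norm) ?_
    have : ∀ᶠ t in 𝓝[>] (0 : ℝ), t ∈ Ioc 0 t1 := Ioc_mem_nhdsGT ht1'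
    filter_upwards [this] with t ht
    exact (claim t ht.1 ht.2).le
  rw [dist_eq_norm]
  exact lt_of_le_of_lt hle hrε

end Pool.Agent.Limb
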