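import Pool.Agent.Limb.Targets

/-!
# LIMB-ATT: attracting cycles exist when `|exp W|` is small
-/

set_option autoImplicit false

open Complex Filter Topology Set
open Pool.Agent.Multibrot

namespace Pool.Agent.Limb

theorem p_ATT (h1 : T_GDISC) (h2 : T_MU) (h3 : T_ATTA) : T_ATT := by
  intro n j L hL hz hNR
  by_contra hcon
  push Not at hcon
  have hn2 := hL.two_le
  have hn0 : (n : ℂ) ≠ 0 := natCast_ne hn2
  have hzz : ∀ i, 1 ≤ i → i ≤ j → (10 : ℝ) ^ 8 ≤ ‖zz n L i‖ ∧ zz n L i ≠ -n := by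
    intro i hi hij
    exact ⟨hL.ge8 hi hij, hNR.zz_ne hn2 i hij⟩
  have hone : ∀ z : ℂ, z ≠ -n → 1 + z / n ≠ 0 := by
    intro z hz h0
    apply hz
    have h4 : z = n * (1 + z / n) - n := by field_simp; ring
    rw [h4, h0]
    ring
  have hz1 : zz n L (j + 1) ≠ 0 := by
    rw [zz_succ, E]
    exact mul_ne_zero (exp_ne_zero _) (pow_ne_zero _ (hone _ hz))
  have hDD : DD n L j ≠ 0 := by
    refine Finset.prod_ne_zero_iff.mpr ?_
    intro i hi
    have hi' := Finset.mem_range.mp hi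
    obtain ⟨h4, h5⟩ := hzz (i + 1) (by omega) (by omega)
    refine div_ne_zero ?_ (hone _ h5)
    intro h0
    rw [h0, norm_zero] at h4
    norm_num at h4
  obtain ⟨u, hu1, hu0, hueq, hmul⟩ := h3 (GG n L j)
    (fun u hu => (h1 n j L u hL.hn hzz hu).2.2.2.2.1)
    (fun u hu => (h1 n j L u hL.hn hzz hu).1) _ (mul_ne_zero hz1 hDD) hcon
  have hu3 : ‖u‖ < 3 := by linarith
  have hev : ∀ᶠ v in 𝓝 u, v * exp (GG n L j v) = DD n L j * W0 n L j v ∧
      (E n L)^[j] (W0 n L j v) = n * ((1 + zz n L j / n) * exp (v / n) - 1) := by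
    have hopen : IsOpen {v : ℂ | ‖v‖ < 3} := isOpen_lt continuous_norm continuous_const
    filter_upwards [hopen.mem_nhds hu3] with v hv
    exact ⟨(h1 n j L v hL.hn hzz hv).2.2.1, (h1 n j L v hL.hn hzz hv).2.2.2.1⟩
  obtain ⟨_, m2, m3⟩ := h2 n j L u (GG n L j) hn2 hu0 hz1 hDD
    (h1 n j L u hL.hn hzz hu3).2.2.2.2.1 (h1 n j L u hL.hn hzz hu3).2.2.2.2.2.1 hev hueq
  have h5 := hNR (j + 1) (by omega) le_rfl _ m2
  have h6 := congrArg norm m3
  rw [norm_mul, norm_one] at h6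
  nlinarith

end Pool.Agent.Limb
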