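import Pool.Agent.Limb.Targets

/-!
# LIMB: ATTA, the analytic lemma on attracting solutions
-/

set_option autoImplicit false

open Complex Filter Topology Set

namespace Pool.Agent.Limb

namespace ATTA_

/-- Cauchy's estimate for `g'` on the closed unit disc. -/
lemma deriv_le {g : ℂ → ℂ} (hd : ∀ u : ℂ, ‖u‖ < 3 → DifferentiableAt ℂ g u)
    (hb : ∀ u : ℂ, ‖u‖ < 3 → ‖g u‖ ≤ 1 / 10 ^ 7 * ‖u‖) {u : ℂ} (hu : ‖u‖ ≤ 1) :
    ‖deriv g u‖ ≤ 2 / 10 ^ 7 := by
  have key := Complex.norm_deriv_le_of_forall_mem_sphere_norm_le (c := u) (R := 1)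
    (C := 2 / 10 ^ 7) (f := g) one_pos ?_ ?_
  · simpa using key
  · constructor
    · intro z hz
      have hz' : ‖z - u‖ < 1 := by simpa [dist_eq_norm] using hz
      have : ‖z‖ < 3 := by
        have := norm_le_norm_sub_add z u
        linarith
      exact (hd z this).differentiableWithinAt
    · rw [closure_ball u one_ne_zero]
      intro z hz
      have hz' : ‖z - u‖ ≤ 1 := by simpa [dist_eq_norm] using hz
      have : ‖z‖ < 3 := by
        have := norm_le_norm_sub_add z u
        linarith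
      exact (hd z this).continuousAt.continuousWithinAt
  · intro z hz
    have hz' : ‖z - u‖ = 1 := by simpa [dist_eq_norm] using hz
    have h2 : ‖z‖ ≤ 2 := by
      have := norm_le_norm_sub_add z u
      linarith
    have h3 := hb z (by linarith)
    calc ‖g z‖ ≤ 1 / 10 ^ 7 * ‖z‖ := h3
      _ ≤ 1 / 10 ^ 7 * 2 := by gcongr
      _ = 2 / 10 ^ 7 := by norm_num

/-- `exp (-0.0000999) ≤ 1 - 0.00009`. -/
lemma exp_small : Real.exp (-(999 / 10000000 : ℝ)) ≤ 1 - 9 / 100000 := by
  have h := Real.add_one_le_exp (999 / 10000000 : ℝ)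
  rw [Real.exp_neg]
  calc (Real.exp (999 / 10000000))⁻¹ ≤ (999 / 10000000 + 1 : ℝ)⁻¹ := by gcongr
    _ ≤ 1 - 9 / 100000 := by norm_num

lemma norm_P {g : ℂ → ℂ} (hb : ∀ u : ℂ, ‖u‖ < 3 → ‖g u‖ ≤ 1 / 10 ^ 7 * ‖u‖) {v : ℂ}
    (hv : ‖v‖ < Real.exp (-10001 / 10000)) {u : ℂ} (hu : ‖u‖ ≤ 1) :
    ‖v * exp (u - g u)‖ ≤ 1 - 9 / 100000 := by
  have h1 : (u - g u).re ≤ 1 + 1 / 10 ^ 7 := by
    have h2 := hb u (by linarith)
    have h3 := Complex.re_le_norm (u - g u)
    have h4 := norm_sub_le u (g u)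
    nlinarith
  rw [norm_mul, Complex.norm_exp]
  calc ‖v‖ * Real.exp (u - g u).re
      ≤ Real.exp (-10001 / 10000) * Real.exp (1 + 1 / 10 ^ 7) := by gcongr
    _ = Real.exp (-(999 / 10000000 : ℝ)) := by
        rw [← Real.exp_add]
        norm_num
    _ ≤ 1 - 9 / 100000 := exp_small

end ATTA_

open ATTA_ in
theorem p_ATTA : T_ATTA := by
  intro g hd hb v hv0 hv
  set P : ℂ → ℂ := fun u => v * exp (u - g u) with hP
  set S : Set ℂ := Metric.closedBall (0 : ℂ) 1 with hS
  have hSn : ∀ u ∈ S, ‖u‖ ≤ 1 := fun u hu => by simpa [hS] using hu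
  have hmaps : MapsTo P S S := by
    intro u hu
    have := norm_P hb hv (hSn u hu)
    simp only [hS, Metric.mem_closedBall, dist_zero_right]
    linarith
  have hder : ∀ u ∈ S, HasDerivAt P (v * (exp (u - g u) * (1 - deriv g u))) u := by
    intro u hu
    have h1 := (hd u (by linarith [hSn u hu])).hasDerivAt
    exact (((hasDerivAt_id u).sub h1).cexp).const_mul v
  have hK : ∀ u ∈ S, ‖v * (exp (u - g u) * (1 - deriv g u))‖₊ ≤ (99995 / 100000 : NNReal) := by
    intro u hu
    rw [← NNReal.coe_le_coe, coe_nnnorm]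
    have h1 := norm_P hb hv (hSn u hu)
    have h2 := deriv_le hd hb (hSn u hu)
    have h3 : ‖(1 : ℂ) - deriv g u‖ ≤ 1 + 2 / 10 ^ 7 := by
      have := norm_sub_le (1 : ℂ) (deriv g u)
      rw [norm_one] at this
      linarith
    rw [← mul_assoc, norm_mul]
    calc ‖v * exp (u - g u)‖ * ‖1 - deriv g u‖
        ≤ (1 - 9 / 100000) * (1 + 2 / 10 ^ 7) := by gcongr
      _ ≤ ((99995 / 100000 : NNReal) : ℝ) := by
          push_cast
          norm_num
  have hlip : LipschitzOnWith (99995 / 100000 : NNReal) P S :=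
    (convex_closedBall (0 : ℂ) 1).lipschitzOnWith_of_nnnorm_hasDerivWithin_le
      (fun u hu => (hder u hu).hasDerivWithinAt) hK
  have hcontr : ContractingWith (99995 / 100000 : NNReal) (hmaps.restrict P S S) := by
    refine ⟨?_, ?_⟩
    · rw [← NNReal.coe_lt_coe]
      push_cast
      norm_num
    · exact hlip.mapsToRestrict hmaps
  have hcomp : IsComplete S := Metric.isClosed_closedBall.isComplete
  obtain ⟨u, huS, hufix, -⟩ := hcontr.exists_fixedPoint' hcomp hmaps (x := 0)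
    (by simp [hS]) (edist_ne_top _ _)
  have hfix : v * exp (u - g u) = u := hufix
  have hr : ‖u‖ ≤ 1 - 9 / 100000 := by
    have := norm_P hb hv (hSn u huS)
    rwa [hfix] at this
  have hu0 : u ≠ 0 := by
    rw [← hfix]
    exact mul_ne_zero hv0 (exp_ne_zero _)
  refine ⟨u, by linarith, hu0, ?_, ?_⟩
  · calc u * exp (g u - u) = (v * exp (u - g u)) * exp (g u - u) := by rw [hfix]
      _ = v * (exp (u - g u) * exp (g u - u)) := by ring
      _ = v := by
          rw [← Complex.exp_add]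
          simp
  · have h1 : ‖(1 : ℂ) / u‖ ≤ ‖1 / u + deriv g u‖ + ‖deriv g u‖ := by
      have := norm_sub_le (1 / u + deriv g u) (deriv g u)
      simpa using this
    have h2 := deriv_le hd hb (hSn u huS)
    have hpos : 0 < ‖u‖ := norm_pos_iff.2 hu0
    have h3 : 1 + 9 / 100000 ≤ ‖(1 : ℂ) / u‖ := by
      rw [norm_div, norm_one, le_div_iff₀ hpos]
      nlinarith
    linarith

end Pool.Agent.Limb
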