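import Pool.Agent.Limb.Targets

/-!
# LIMB: strict inequalities on the neighbourhood
-/

set_option autoImplicit false

open Complex Filter Topology Set
open Pool.Agent.Multibrot

namespace Pool.Agent.Limb

namespace BOOT_

lemma log_small {z z0 : ℂ} (h0 : (10 : ℝ) ^ 9 ≤ ‖z0‖) (h : ‖z - z0‖ ≤ 1) :
    ‖log (z / z0)‖ ≤ 2 / 10 ^ 9 * ‖z - z0‖ := by
  have hz0 : z0 ≠ 0 := by
    intro h1
    rw [h1, norm_zero] at h0
    norm_num at h0
  have e : z / z0 = 1 + (z - z0) / z0 := by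
    field_simp
    ring
  have hp : (0 : ℝ) < ‖z0‖ := norm_pos_iff.2 hz0
  have h1 : ‖(z - z0) / z0‖ ≤ 1 / 10 ^ 9 * ‖z - z0‖ := by
    rw [norm_div, div_le_iff₀ hp]
    have := norm_nonneg (z - z0)
    nlinarith
  have h2 : ‖(z - z0) / z0‖ ≤ 1 / 2 := by
    refine h1.trans ?_
    have := norm_nonneg (z - z0)
    nlinarith
  rw [e]
  refine (norm_log_one_add_half_le_self h2).trans ?_
  have := norm_nonneg (z - z0)
  nlinarith

lemma eq_of_exp_close {a b : ℂ} (h : exp a = exp b) (hab : ‖a - b‖ < 6) : a = b := by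
  obtain ⟨m, hm⟩ := exp_eq_exp_iff_exists_int.1 h
  rw [hm, add_sub_cancel_left, norm_mul, norm_mul, norm_mul, norm_I, Complex.norm_real,
    Real.norm_of_nonneg Real.pi_pos.le, norm_ofNat, norm_intCast] at hab
  have h1 := Real.pi_gt_d2
  have h2 : m = 0 := by
    by_contra h3
    have h4 : (1 : ℝ) ≤ |(m : ℝ)| := by exact_mod_cast Int.one_le_abs h3
    nlinarith
  rw [hm, h2]
  simp

lemma exp_sub_one {v : ℂ} (hv : ‖v‖ ≤ 1 / 100) : ‖exp v - 1‖ ≤ 102 / 100 * ‖v‖ := by
  refine (norm_exp_sub_one_le' v).trans ?_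
  rw [mul_comm]
  apply mul_le_mul_of_nonneg_right _ (norm_nonneg _)
  have h1 : max 0 v.re ≤ 1 / 100 := max_le (by norm_num) ((le_abs_self _).trans
    ((abs_re_le_norm v).trans hv))
  have h2 := Real.exp_le_exp.2 h1
  have h3 := Real.one_sub_le_exp_neg (1 / 100)
  rw [Real.exp_neg] at h3
  have h4 : 0 < Real.exp (1 / 100) := Real.exp_pos _
  have h5 : Real.exp (1 / 100) * (1 - 1 / 100) ≤ 1 := by
    calc Real.exp (1 / 100) * (1 - 1 / 100) ≤ Real.exp (1 / 100) *
        (Real.exp (1 / 100))⁻¹ := mul_le_mul_of_nonneg_left h3 h4.le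
      _ = 1 := mul_inv_cancel₀ h4.ne'
  linarith

lemma big {n j : ℕ} {L : ℂ} (h : LowS n j L) : ∀ i, 1 ≤ i → i ≤ j → (10 : ℝ) ^ 9 ≤ ‖zz n L i‖ := by
  intro i hi
  induction i, hi using Nat.le_induction with
  | base => intro _; exact h.h1
  | succ i hi ih =>
    intro hj
    have h1 := ih (by omega)
    have h2 := h.hgr i hi (by omega)
    linarith

lemma low0 {n j : ℕ} {L : ℂ} (h : LowS n j L) : Low n j L where
  hn := h.hn
  hj := h.hj
  h1 := le_trans (by norm_num) h.h1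
  hgr := fun i h1 h2 => by
    have h3 := h.hgr i h1 h2
    have h4 := norm_nonneg (zz n L i)
    linarith
  hre := fun i h1 h2 => by
    have h3 := h.hre i h1 h2
    linarith

/-- One step: `n log (ratio) = log q - (L - L0)`. -/
lemma step {n : ℕ} (hn : (10 : ℝ) ^ 20 ≤ n) {L L0 z z0 : ℂ} (h0 : 0 ≤ z.re) (h00 : 0 ≤ z0.re)
    (hzz : ‖z - z0‖ ≤ 1) (hL : ‖L - L0‖ ≤ 1) (hn1 : ‖1 + z0 / n‖ ≤ 1 + 1 / 10 ^ 16)
    (hlog : ‖log (E n L z / E n L0 z0)‖ ≤ 1) :
    ‖z - z0‖ ≤ 11 / 10 * (‖log (E n L z / E n L0 z0)‖ + ‖L - L0‖) := by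
  have hn0 : (0 : ℝ) < n := lt_of_lt_of_le (by norm_num) hn
  have hnC : (n : ℂ) ≠ 0 := by exact_mod_cast hn0.ne'
  have a1 : 1 + z / n ≠ 0 := one_add_ne h0
  have a2 : 1 + z0 / n ≠ 0 := one_add_ne h00
  have a3 : 1 ≤ ‖1 + z0 / n‖ := one_le_norm h00
  have e1 : (1 + z / n) / (1 + z0 / n) = 1 + (z - z0) / (n * (1 + z0 / n)) := by
    rw [div_eq_iff a2, add_mul, one_mul, div_mul_eq_mul_div, mul_div_mul_right _ _ a2]
    field_simp
    ring
  have b1 : ‖(z - z0) / (n * (1 + z0 / n))‖ ≤ ‖z - z0‖ / n := by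
    rw [norm_div, norm_mul, Complex.norm_natCast]
    apply div_le_div_of_nonneg_left (norm_nonneg _) hn0
    nlinarith
  have b2 : ‖z - z0‖ / n ≤ 1 / 10 ^ 20 := by
    rw [div_le_div_iff₀ hn0 (by norm_num)]
    nlinarith
  have b3 : ‖log ((1 + z / n) / (1 + z0 / n))‖ ≤ 3 / 2 * (‖z - z0‖ / n) := by
    rw [e1]
    refine (norm_log_one_add_half_le_self ?_).trans ?_
    · exact b1.trans (b2.trans (by norm_num))
    · linarith
  have b4 : ‖(n : ℂ) * log ((1 + z / n) / (1 + z0 / n))‖ ≤ 3 / 2 := by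
    rw [norm_mul, Complex.norm_natCast]
    calc (n : ℝ) * ‖log ((1 + z / n) / (1 + z0 / n))‖ ≤ n * (3 / 2 * (‖z - z0‖ / n)) :=
          mul_le_mul_of_nonneg_left b3 hn0.le
      _ = 3 / 2 * ‖z - z0‖ := by field_simp
      _ ≤ 3 / 2 := by linarith
  have hq0 : E n L z / E n L0 z0 ≠ 0 := by
    unfold E
    exact div_ne_zero (mul_ne_zero (exp_ne_zero _) (pow_ne_zero _ a1))
      (mul_ne_zero (exp_ne_zero _) (pow_ne_zero _ a2))
  have key : (n : ℂ) * log ((1 + z / n) / (1 + z0 / n)) =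
      log (E n L z / E n L0 z0) - (L - L0) := by
    apply eq_of_exp_close
    · rw [exp_nat_mul, exp_log (div_ne_zero a1 a2), exp_sub, exp_log hq0, exp_sub, E, E, div_pow]
      have e3 : exp L ≠ 0 := exp_ne_zero _
      have e4 : exp L0 ≠ 0 := exp_ne_zero _
      field_simp
    · calc ‖(n : ℂ) * log ((1 + z / n) / (1 + z0 / n)) -
          (log (E n L z / E n L0 z0) - (L - L0))‖ ≤
          ‖(n : ℂ) * log ((1 + z / n) / (1 + z0 / n))‖ + ‖log (E n L z / E n L0 z0) - (L - L0)‖ :=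
            norm_sub_le _ _
        _ ≤ 3 / 2 + (1 + 1) := add_le_add b4 ((norm_sub_le _ _).trans (add_le_add hlog hL))
        _ < 6 := by norm_num
  set v := log ((1 + z / n) / (1 + z0 / n)) with hv
  have hv1 : ‖v‖ ≤ 1 / 100 := by
    refine b3.trans ?_
    have : (3 : ℝ) / 2 * (1 / 10 ^ 20) ≤ 1 / 100 := by norm_num
    linarith
  have c1 : z - z0 = n * (1 + z0 / n) * (exp v - 1) := by
    rw [hv, exp_log (div_ne_zero a1 a2), mul_sub, mul_one, mul_assoc, mul_div_cancel₀ _ a2]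
    field_simp
    ring
  have c2 : (n : ℝ) * ‖v‖ ≤ ‖log (E n L z / E n L0 z0)‖ + ‖L - L0‖ := by
    have := congrArg norm key
    rw [norm_mul, Complex.norm_natCast] at this
    rw [this]
    exact norm_sub_le _ _
  have c3 := exp_sub_one hv1
  calc ‖z - z0‖ = n * ‖1 + z0 / n‖ * ‖exp v - 1‖ := by
        rw [c1, norm_mul, norm_mul, Complex.norm_natCast]
    _ ≤ n * (1 + 1 / 10 ^ 16) * (102 / 100 * ‖v‖) := by
        apply mul_le_mul (mul_le_mul_of_nonneg_left hn1 hn0.le) c3 (norm_nonneg _)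
        exact mul_nonneg hn0.le (by norm_num)
    _ = (1 + 1 / 10 ^ 16) * (102 / 100) * (n * ‖v‖) := by ring
    _ ≤ (1 + 1 / 10 ^ 16) * (102 / 100) * (‖log (E n L z / E n L0 z0)‖ + ‖L - L0‖) :=
        mul_le_mul_of_nonneg_left c2 (by norm_num)
    _ ≤ _ := by
        apply mul_le_mul_of_nonneg_right (by norm_num)
        positivity

end BOOT_

theorem p_BOOT : T_BOOT := by
  intro n j L0 L h0 hc0 hc hN
  obtain ⟨N1, N2, N3⟩ := hN
  have hj := h0.hj
  have hn := h0.hn
  have hn0 : (0 : ℝ) < n := lt_of_lt_of_le (by norm_num) hn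
  have hbig := BOOT_.big h0
  have hone : ∀ m : ℕ, ((1 : ℝ) / 2) ^ m ≤ 1 := fun m => pow_le_one₀ (by norm_num) (by norm_num)
  have hd : ∀ i, 1 ≤ i → i < j → ‖zz n L i - zz n L0 i‖ ≤ 1 := fun i h1 h2 =>
    (N2 i h1 h2).trans (hone _)
  have hre : ∀ i, 1 ≤ i → i < j → 0 ≤ (zz n L i).re := by
    intro i h1 h2
    have h3 := h0.hre i h1 h2
    have h4 := (abs_re_le_norm (zz n L i - zz n L0 i)).trans (hd i h1 h2)
    rw [sub_re] at h4
    have h5 := neg_abs_le ((zz n L i).re - (zz n L0 i).re)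
    linarith
  have hzj : zz n L j ≠ 0 := by
    obtain ⟨k, rfl⟩ : ∃ k, j = k + 1 := ⟨j - 1, by omega⟩
    rw [zz_succ, E]
    refine mul_ne_zero (exp_ne_zero _) (pow_ne_zero _ ?_)
    rcases Nat.eq_zero_or_pos k with hk | hk
    · rw [hk, zz_zero]; simp
    · exact one_add_ne (hre k hk (by omega))
  have hzj0 : zz n L0 j ≠ 0 := by
    intro h
    have h2 := hbig j hj le_rfl
    rw [h, norm_zero] at h2
    norm_num at h2
  have hquart : 3 / 4 * ‖zz n L0 j‖ ≤ ‖zz n L j‖ := by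
    have h1 : ‖zz n L j / zz n L0 j‖ = Real.exp (log (zz n L j / zz n L0 j)).re := by
      rw [← norm_exp, exp_log (div_ne_zero hzj hzj0)]
    have h2 : (-1 / 4 : ℝ) ≤ (log (zz n L j / zz n L0 j)).re := by
      have h3 := (abs_re_le_norm (log (zz n L j / zz n L0 j))).trans N3
      have h4 := neg_abs_le (log (zz n L j / zz n L0 j)).re
      linarith
    have h3 : (3 / 4 : ℝ) ≤ Real.exp (log (zz n L j / zz n L0 j)).re := by
      have h4 := Real.add_one_le_exp (log (zz n L j / zz n L0 j)).re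
      linarith
    rw [← h1, norm_div, le_div_iff₀ (norm_pos_iff.2 hzj0)] at h3
    exact h3
  have hlow : Low n j L := by
    refine ⟨hn, hj, ?_, ?_, hre⟩
    · rcases Nat.lt_or_ge 1 j with h1 | h1
      · have h2 := hd 1 le_rfl h1
        have h3 := h0.h1
        have h4 := norm_sub_norm_le (zz n L0 1) (zz n L 1)
        rw [norm_sub_rev] at h4
        have : (10 : ℝ) ^ 8 + 1 ≤ 10 ^ 9 := by norm_num
        linarith
      · have h2 : j = 1 := by omega
        have h3 := h0.h1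
        rw [h2] at hquart
        have : (10 : ℝ) ^ 8 ≤ 3 / 4 * 10 ^ 9 := by norm_num
        linarith
    · intro i h1 h2
      have h3 := h0.hgr i h1 h2
      have h4 := hd i h1 h2
      have h5 := norm_sub_norm_le (zz n L i) (zz n L0 i)
      have h6 := hbig i h1 h2.le
      rcases Nat.lt_or_ge (i + 1) j with h7 | h7
      · have h8 := hd (i + 1) (by omega) h7
        have h9 := norm_sub_norm_le (zz n L0 (i + 1)) (zz n L (i + 1))
        rw [norm_sub_rev] at h9
        linarith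
      · have h8 : i + 1 = j := by omega
        rw [h8] at h3 ⊢
        linarith
  have hReL : 0 ≤ L0.re := le_trans (by norm_num) (BOOT_.low0 h0).re_L
  -- log q for the lower levels
  have hlq : ∀ i, 1 ≤ i → i < j → ‖log (zz n L i / zz n L0 i)‖ ≤
      2 / 10 ^ 9 * (1 / 2) ^ (j - 1 - i) := by
    intro i h1 h2
    refine (BOOT_.log_small (hbig i h1 h2.le) (hd i h1 h2)).trans ?_
    exact mul_le_mul_of_nonneg_left (N2 i h1 h2) (by norm_num)
  have hL1 : ‖L - L0‖ ≤ 1 := N1.trans (hone _)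
  -- the difference of the parameters
  have hq1 : ‖log (zz n L 1 / zz n L0 1)‖ ≤ 1 / 4 := by
    rcases Nat.lt_or_ge 1 j with h1 | h1
    · refine (hlq 1 le_rfl h1).trans ?_
      have := hone (j - 1 - 1)
      nlinarith
    · have h2 : j = 1 := by omega
      rw [h2] at N3
      exact N3
  have hLeq : L - L0 = log (zz n L 1 / zz n L0 1) := by
    apply BOOT_.eq_of_exp_close
    · rw [zz_one, zz_one, exp_log (div_ne_zero (exp_ne_zero _) (exp_ne_zero _)), exp_sub]
    · refine lt_of_le_of_lt (norm_sub_le _ _) ?_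
      linarith
  have hLs : 2 ≤ j → ‖L - L0‖ ≤ 2 / 10 ^ 9 * (1 / 2) ^ (j - 2) := by
    intro h1
    rw [hLeq]
    have h2 := hlq 1 le_rfl (by omega)
    rwa [show j - 1 - 1 = j - 2 by omega] at h2
  refine ⟨hlow, ?_, ?_⟩
  · rcases Nat.lt_or_ge 1 j with h1 | h1
    · refine lt_of_le_of_lt (hLs h1) ?_
      have h2 : ((1 : ℝ) / 2) ^ (j - 1) = 1 / 2 * (1 / 2) ^ (j - 2) := by
        rw [← pow_succ']
        congr 1
        omega
      rw [h2]
      have h3 : (0 : ℝ) < (1 / 2) ^ (j - 2) := pow_pos (by norm_num) _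
      nlinarith
    · have h2 : j = 1 := by omega
      rw [hLeq, h2]
      refine lt_of_le_of_lt hq1 ?_
      norm_num
  · intro i h1 h2
    have hq : ‖log (E n L (zz n L i) / E n L0 (zz n L0 i))‖ ≤ 1 / 4 ∧
        (i + 1 < j → ‖log (E n L (zz n L i) / E n L0 (zz n L0 i))‖ ≤
          2 / 10 ^ 9 * (1 / 2) ^ (j - 1 - (i + 1))) := by
      rw [← zz_succ, ← zz_succ]
      constructor
      · rcases Nat.lt_or_ge (i + 1) j with h3 | h3
        · refine (hlq (i + 1) (by omega) h3).trans ?_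
          have := hone (j - 1 - (i + 1))
          nlinarith
        · have h4 : i + 1 = j := by omega
          rw [h4]
          exact N3
      · intro h3
        exact hlq (i + 1) (by omega) h3
    have hstep := BOOT_.step hn (hre i h1 h2) (le_trans (by norm_num) (h0.hre i h1 h2))
      (hd i h1 h2) hL1 (one_add_norm_le hn hc0 hReL i) (hq.1.trans (by norm_num))
    have hLs' := hLs (by omega)
    rcases Nat.lt_or_ge (i + 1) j with h3 | h3
    · have h4 := hq.2 h3
      have h5 : ((1 : ℝ) / 2) ^ (j - 1 - i) = 1 / 2 * (1 / 2) ^ (j - 1 - (i + 1)) := by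
        rw [← pow_succ']
        congr 1
        omega
      have h6 : ((1 : ℝ) / 2) ^ (j - 2) ≤ (1 / 2) ^ (j - 1 - (i + 1)) :=
        pow_le_pow_of_le_one (by norm_num) (by norm_num) (by omega)
      have h7 : (0 : ℝ) < (1 / 2) ^ (j - 1 - (i + 1)) := pow_pos (by norm_num) _
      rw [h5]
      nlinarith
    · have h4 : j - 1 - i = 0 := by omega
      rw [h4, pow_zero]
      have h5 := hq.1
      have h6 := hone (j - 2)
      nlinarith

end Pool.Agent.Limb
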