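import Pool.Agent.Limb.Defs

/-!
# LIMB: basic lemmas
-/

set_option autoImplicit false

open Complex Filter Topology Set
open Pool.Agent.Multibrot

namespace Pool.Agent.Limb

lemma zz_zero (n : ℕ) (L : ℂ) : zz n L 0 = 0 := rfl

lemma zz_succ (n : ℕ) (L : ℂ) (i : ℕ) : zz n L (i + 1) = E n L (zz n L i) :=
  Function.iterate_succ_apply' _ _ _

lemma zz_one (n : ℕ) (L : ℂ) : zz n L 1 = exp L := by
  rw [zz_succ, zz_zero, E]
  simp

lemma cc_ne (n : ℕ) (L : ℂ) : cc n L ≠ 0 := exp_ne_zero _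

lemma n_ell {n : ℕ} (hn : 2 ≤ n) (L : ℂ) : (n : ℂ) * ell n L = ell n L + L - (Real.log n : ℝ) := by
  have h : (n : ℂ) - 1 ≠ 0 := by
    have h2 : ((n : ℂ) - 1) = ((n - 1 : ℝ) : ℂ) := by push_cast; ring
    rw [h2]
    have : (2 : ℝ) ≤ n := by exact_mod_cast hn
    exact_mod_cast (by linarith : (n - 1 : ℝ) ≠ 0)
  unfold ell
  field_simp
  ring

lemma natCast_ne {n : ℕ} (hn : 2 ≤ n) : (n : ℂ) ≠ 0 := by
  exact_mod_cast (by omega : n ≠ 0)

lemma exp_log_nat {n : ℕ} (hn : 2 ≤ n) : exp ((Real.log n : ℝ) : ℂ) = n := by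
  rw [← ofReal_exp, Real.exp_log (by exact_mod_cast (by omega : 0 < n))]
  simp

/-- `c ^ n = c * exp L / n`. -/
lemma cc_pow {n : ℕ} (hn : 2 ≤ n) (L : ℂ) : cc n L ^ n = cc n L * (exp L / n) := by
  rw [cc, ← exp_nat_mul, n_ell hn, exp_sub, exp_add, exp_log_nat hn]
  ring

/-- The conjugacy between the `z`-plane and the `w`-plane. -/
lemma F_conj {n : ℕ} (hn : 2 ≤ n) (L w : ℂ) :
    F n (cc n L) (cc n L * (1 + w / n)) = cc n L * (1 + E n L w / n) := by
  unfold F E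
  rw [mul_pow, cc_pow hn]
  ring

lemma F_iter_conj {n : ℕ} (hn : 2 ≤ n) (L w : ℂ) (k : ℕ) :
    (F n (cc n L))^[k] (cc n L * (1 + w / n)) = cc n L * (1 + (E n L)^[k] w / n) := by
  induction k with
  | zero => rfl
  | succ k ih => rw [Function.iterate_succ_apply', ih, F_conj hn, Function.iterate_succ_apply']

lemma Q_succ_eq {n : ℕ} (hn : 2 ≤ n) (L : ℂ) (k : ℕ) :
    Q n (k + 1) (cc n L) = cc n L * (1 + zz n L k / n) := by
  have h : (F n (cc n L))^[k] (cc n L * (1 + 0 / n)) = cc n L * (1 + (E n L)^[k] 0 / n) :=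
    F_iter_conj hn L 0 k
  rw [zero_div, add_zero, mul_one] at h
  have h2 : Q n (k + 1) (cc n L) = (F n (cc n L))^[k] (cc n L) := by
    rw [Q_eq_iterate, Function.iterate_succ_apply]
    congr 1
    simp [zero_pow (by omega : n ≠ 0)]
  rw [h2, h]
  rfl

/-- The derivative of an iterate in the two coordinates. -/
lemma deriv_F_iter {n : ℕ} (hn : 2 ≤ n) (L w : ℂ) (k : ℕ) :
    deriv ((F n (cc n L))^[k]) (cc n L * (1 + w / n)) = deriv ((E n L)^[k]) w := by
  have hE : Differentiable ℂ (E n L) := by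
    unfold E
    fun_prop
  have hF : Differentiable ℂ (F n (cc n L)) := by
    unfold F
    fun_prop
  have hn0 := natCast_ne hn
  have hc := cc_ne n L
  have h1 : (fun w : ℂ => (F n (cc n L))^[k] (cc n L * (1 + w / n))) =
      fun w => cc n L * (1 + (E n L)^[k] w / n) := by
    funext w
    exact F_iter_conj hn L w k
  have h2 : HasDerivAt (fun w : ℂ => (F n (cc n L))^[k] (cc n L * (1 + w / n)))
      (deriv ((F n (cc n L))^[k]) (cc n L * (1 + w / n)) * (cc n L * (1 / n))) w := by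
    have h3 : HasDerivAt (fun w : ℂ => cc n L * (1 + w / n)) (cc n L * (1 / n)) w :=
      (((hasDerivAt_id w).div_const (n : ℂ)).const_add 1).const_mul (cc n L)
    have h4 : DifferentiableAt ℂ ((F n (cc n L))^[k]) (cc n L * (1 + w / n)) :=
      (hF.iterate k) _
    exact h4.hasDerivAt.comp w h3
  have h5 : HasDerivAt (fun w => cc n L * (1 + (E n L)^[k] w / n))
      (cc n L * (deriv ((E n L)^[k]) w / n)) w := by
    have h4 : DifferentiableAt ℂ ((E n L)^[k]) w := (hE.iterate k) _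
    exact ((h4.hasDerivAt.div_const (n : ℂ)).const_add 1).const_mul (cc n L)
  rw [h1] at h2
  have h6 := h2.unique h5
  have h7 : cc n L * (deriv ((F n (cc n L))^[k]) (cc n L * (1 + w / n))) =
      cc n L * deriv ((E n L)^[k]) w := by
    have h8 : cc n L * (deriv ((F n (cc n L))^[k]) (cc n L * (1 + w / n))) =
        n * (deriv ((F n (cc n L))^[k]) (cc n L * (1 + w / n)) * (cc n L * (1 / n))) := by
      field_simp
    rw [h8, h6]
    field_simp
  exact mul_left_cancel₀ hc h7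

lemma hasDerivAt_E (n : ℕ) (L w : ℂ) (hn : n ≠ 0) :
    HasDerivAt (E n L) (exp L * (1 + w / n) ^ (n - 1)) w := by
  have h1 : HasDerivAt (fun w : ℂ => 1 + w / n) (1 / n) w :=
    ((hasDerivAt_id w).div_const (n : ℂ)).const_add 1
  have h2 := (h1.pow n).const_mul (exp L)
  have hn0 : (n : ℂ) ≠ 0 := by exact_mod_cast hn
  have h3 : exp L * (n * (1 + w / n) ^ (n - 1) * (1 / n)) = exp L * (1 + w / n) ^ (n - 1) := by
    field_simp
  rw [h3] at h2
  exact h2

/-- The derivative of an iterate as a product. -/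
lemma deriv_E_iter {n : ℕ} (hn : n ≠ 0) (L w : ℂ) (k : ℕ) :
    HasDerivAt ((E n L)^[k]) (∏ i ∈ Finset.range k, exp L * (1 + (E n L)^[i] w / n) ^ (n - 1)) w := by
  induction k with
  | zero => simpa using hasDerivAt_id w
  | succ k ih =>
    rw [Finset.prod_range_succ]
    have h := (hasDerivAt_E n L ((E n L)^[k] w) hn).comp w ih
    have e : (E n L)^[k + 1] = E n L ∘ (E n L)^[k] := by
      funext z
      rw [Function.iterate_succ_apply']
      rfl
    rw [e]
    exact h.congr_deriv (by ring)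

/-! ### the tower -/

lemma Low.two_le {n j : ℕ} {L : ℂ} (h : Low n j L) : 2 ≤ n := by
  have h1 : (2 : ℝ) ≤ n := le_trans (by norm_num) h.hn
  exact_mod_cast h1

lemma Low.big {n j : ℕ} {L : ℂ} (h : Low n j L) : ∀ i, i < j →
    (10 : ℝ) ^ 8 * 2 ^ i ≤ ‖zz n L (i + 1)‖ := by
  intro i
  induction i with
  | zero =>
    intro _
    simpa using h.h1
  | succ i ih =>
    intro hi
    have h1 := ih (by omega)
    have h2 := h.hgr (i + 1) (by omega) hi
    have h3 : (10 : ℝ) ^ 8 * 2 ^ (i + 1) = 2 * (10 ^ 8 * 2 ^ i) := by ring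
    linarith

lemma Low.ge8 {n j : ℕ} {L : ℂ} (h : Low n j L) {i : ℕ} (h1 : 1 ≤ i) (h2 : i ≤ j) :
    (10 : ℝ) ^ 8 ≤ ‖zz n L i‖ := by
  obtain ⟨k, rfl⟩ : ∃ k, i = k + 1 := ⟨i - 1, by omega⟩
  have h3 := h.big k (by omega)
  have h4 : (1 : ℝ) ≤ 2 ^ k := one_le_pow₀ (by norm_num)
  nlinarith

lemma Low.mono {n j : ℕ} {L : ℂ} (h : Low n j L) {i : ℕ} (hi : i ≤ j) :
    ‖zz n L i‖ ≤ ‖zz n L j‖ := by
  have key : ∀ d, i + d ≤ j → ‖zz n L i‖ ≤ ‖zz n L (i + d)‖ := by
    intro d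
    induction d with
    | zero => intro _; exact le_refl _
    | succ d ih =>
      intro hd
      have h1 := ih (by omega)
      rcases Nat.eq_zero_or_pos (i + d) with h0 | h0
      · have hi0 : i = 0 := by omega
        rw [hi0, zz_zero, norm_zero]
        exact norm_nonneg _
      · have h2 := h.hgr (i + d) h0 (by omega)
        have h3 : 0 ≤ ‖zz n L (i + d)‖ := norm_nonneg _
        rw [← add_assoc]
        linarith
  have h1 := key (j - i) (by omega)
  rwa [Nat.add_sub_cancel' hi] at h1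

lemma one_add_re {n : ℕ} {z : ℂ} (h : 0 ≤ z.re) : 1 ≤ (1 + z / n).re := by
  have h1 : (z / n).re = z.re / n := by
    rw [← ofReal_natCast, div_ofReal_re]
  rw [add_re, one_re, h1]
  have : 0 ≤ z.re / n := div_nonneg h (Nat.cast_nonneg _)
  linarith

lemma one_add_ne {n : ℕ} {z : ℂ} (h : 0 ≤ z.re) : 1 + z / n ≠ 0 := by
  intro h0
  have h1 := one_add_re (n := n) h
  rw [h0] at h1
  norm_num at h1

lemma one_le_norm {n : ℕ} {z : ℂ} (h : 0 ≤ z.re) : 1 ≤ ‖1 + z / n‖ :=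
  (one_add_re h).trans (re_le_norm _)

lemma ne_zero_of_big {z : ℂ} (h : (10 : ℝ) ^ 8 ≤ ‖z‖) : z ≠ 0 := by
  intro h0
  rw [h0, norm_zero] at h
  norm_num at h

lemma mem_slit_of_re {z : ℂ} (h : 0 ≤ z.re) (h0 : z ≠ 0) : z ∈ slitPlane := by
  rcases h.lt_or_eq with h1 | h1
  · exact Or.inl h1
  · right
    intro h2
    exact h0 (Complex.ext h1.symm h2)

lemma Tow.one_add {n j : ℕ} {L x : ℂ} (h : Tow n j L x) : 1 + zz n L j / n = exp (x / n) := by
  have hn0 := natCast_ne h.toLow.two_le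
  rw [h.hx]
  field_simp
  ring

/-! ### parameters in the Multibrot set -/

/-- Orbit points of parameters in `M_n` satisfy `|z| ^ (n-1) ≤ 2`. -/
lemma Q_pow_le {n : ℕ} (hn : 2 ≤ n) {c : ℂ} (hc : c ∈ MM n) (k : ℕ) :
    ‖Q n k c‖ ^ (n - 1) ≤ 2 := by
  have main : ∀ k, ‖c‖ ≤ ‖Q n k c‖ → ‖Q n k c‖ ^ (n - 1) ≤ 2 := by
    intro k hk
    by_contra hcon
    push Not at hcon
    set l := ‖Q n k c‖ ^ (n - 1) - 1 with hl
    have hl1 : 1 < l := by linarith
    have hc0 : 0 < ‖Q n k c‖ := by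
      by_contra h
      have h0 : ‖Q n k c‖ = 0 := le_antisymm (not_lt.1 h) (norm_nonneg _)
      rw [h0, zero_pow (by omega)] at hcon
      linarith
    have key : ∀ m : ℕ, l ^ m * ‖Q n k c‖ ≤ ‖Q n (k + m) c‖ ∧
        ‖Q n k c‖ ≤ ‖Q n (k + m) c‖ := by
      intro m
      induction m with
      | zero => simp
      | succ m ih =>
        obtain ⟨i1, i2⟩ := ih
        set z := Q n (k + m) c with hz
        have h3 : ‖z‖ ^ n - ‖c‖ ≤ ‖z ^ n + c‖ := by
          have := norm_sub_norm_le (z ^ n) (-c)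
          rw [sub_neg_eq_add, norm_neg, norm_pow] at this
          exact this
        have h4 : ‖z‖ ^ n = ‖z‖ ^ (n - 1) * ‖z‖ := by
          rw [← pow_succ]
          congr 1
          omega
        have h5 : l + 1 ≤ ‖z‖ ^ (n - 1) := by
          have := pow_le_pow_left₀ (norm_nonneg _) i2 (n - 1)
          linarith
        have e : Q n (k + (m + 1)) c = z ^ n + c := rfl
        have h6 : l * ‖z‖ ≤ ‖z ^ n + c‖ := by
          have h7 : (l + 1) * ‖z‖ ≤ ‖z‖ ^ (n - 1) * ‖z‖ :=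
            mul_le_mul_of_nonneg_right h5 (norm_nonneg _)
          have h8 : ‖c‖ ≤ ‖z‖ := hk.trans i2
          nlinarith
        rw [e]
        constructor
        · calc l ^ (m + 1) * ‖Q n k c‖ = l * (l ^ m * ‖Q n k c‖) := by ring
            _ ≤ l * ‖z‖ := mul_le_mul_of_nonneg_left i1 (by linarith)
            _ ≤ _ := h6
        · have h9 : ‖z‖ ≤ l * ‖z‖ := by
            have := norm_nonneg z
            nlinarith
          linarith
    have h1 : Tendsto (fun m : ℕ => l ^ m * ‖Q n k c‖) atTop atTop :=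
      (tendsto_pow_atTop_atTop_of_one_lt hl1).atTop_mul_const hc0
    obtain ⟨m, hm⟩ := (h1.eventually (eventually_gt_atTop 2)).exists
    exact absurd (hc (k + m)) (not_le.2 (hm.trans_le (key m).1))
  rcases le_total ‖c‖ ‖Q n k c‖ with h | h
  · exact main k h
  · have h1 : Q n 1 c = c := Q_one (by omega) c
    have h2 := main 1 (by rw [h1])
    rw [h1] at h2
    exact (pow_le_pow_left₀ (norm_nonneg _) h _).trans h2

lemma norm_cc {n : ℕ} (hn : 2 ≤ n) (L : ℂ) :
    ‖cc n L‖ = Real.exp ((L.re - Real.log n) / (n - 1)) := by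
  rw [cc, norm_exp]
  congr 1
  have h : ((n : ℂ) - 1) = ((n - 1 : ℝ) : ℂ) := by push_cast; ring
  rw [ell, h, div_ofReal_re, sub_re, ofReal_re]

/-- `n |log |1 + z_i / n||` is at most `(n / (n - 1)) (log (2 n) - Re L)`. -/
lemma log_orbit_le {n : ℕ} (hn : 2 ≤ n) {L : ℂ} (hc : cc n L ∈ MM n) (i : ℕ) :
    (n - 1) * Real.log ‖1 + zz n L i / n‖ ≤ Real.log 2 + Real.log n - L.re := by
  have hn1 : (0 : ℝ) < n - 1 := by
    have : (2 : ℝ) ≤ n := by exact_mod_cast hn
    linarith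
  have h1 := Q_pow_le hn hc (i + 1)
  rw [Q_succ_eq hn, norm_mul, mul_pow] at h1
  rcases eq_or_ne (1 + zz n L i / n) 0 with h0 | h0
  · rw [h0, norm_zero, Real.log_zero, mul_zero]
    have h2 := Q_pow_le hn hc 1
    rw [Q_one (by omega)] at h2
    rw [norm_cc hn, ← Real.exp_nat_mul] at h2
    have h3 := Real.log_le_log (Real.exp_pos _) h2
    rw [Real.log_exp, Nat.cast_sub (by omega), Nat.cast_one, mul_div_cancel₀ _ hn1.ne'] at h3
    linarith
  · have h2 : 0 < ‖1 + zz n L i / n‖ := norm_pos_iff.2 h0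
    have h3 : 0 < ‖cc n L‖ := norm_pos_iff.2 (cc_ne n L)
    have h4 := Real.log_le_log (by positivity) h1
    rw [Real.log_mul (by positivity) (by positivity), Real.log_pow, Real.log_pow, norm_cc hn,
      Real.log_exp, Nat.cast_sub (by omega), Nat.cast_one, mul_div_cancel₀ _ hn1.ne'] at h4
    linarith

/-- For `c ∈ M_n` and `Re L ≥ 0`: `|1 + z_i / n| ≤ exp (2 log (2 n) / n)`. -/
lemma log_orbit_le' {n : ℕ} (hn : 2 ≤ n) {L : ℂ} (hc : cc n L ∈ MM n) (hL : 0 ≤ L.re) (i : ℕ) :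
    n * Real.log ‖1 + zz n L i / n‖ ≤ 2 * (Real.log 2 + Real.log n) := by
  have h1 := log_orbit_le hn hc i
  have hn2 : (2 : ℝ) ≤ n := by exact_mod_cast hn
  have h0 : 0 ≤ Real.log 2 + Real.log n :=
    add_nonneg (Real.log_nonneg (by norm_num)) (Real.log_nonneg (by linarith))
  rcases le_total (Real.log ‖1 + zz n L i / n‖) 0 with h2 | h2
  · have : (n : ℝ) * Real.log ‖1 + zz n L i / n‖ ≤ 0 :=
      mul_nonpos_of_nonneg_of_nonpos (by linarith) h2
    linarith
  · have : (n : ℝ) * Real.log ‖1 + zz n L i / n‖ ≤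
        2 * ((n - 1) * Real.log ‖1 + zz n L i / n‖) := by nlinarith
    linarith

lemma log_nat_le {n : ℕ} (hn : (10 : ℝ) ^ 20 ≤ n) :
    Real.log 2 + Real.log n ≤ n / 10 ^ 17 := by
  have hn0 : (0 : ℝ) < n := lt_of_lt_of_le (by norm_num) hn
  have h1 : Real.log 2 + Real.log n = Real.log (2 * n / (4 * 10 ^ 17)) + Real.log (4 * 10 ^ 17) := by
    rw [← Real.log_mul (by norm_num) hn0.ne', ← Real.log_mul (by positivity) (by norm_num)]
    congr 1
    field_simp
  have h2 := Real.log_le_sub_one_of_pos (by positivity : (0 : ℝ) < 2 * n / (4 * 10 ^ 17))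
  have h3 : Real.log (4 * 10 ^ 17 : ℝ) ≤ 156 := by
    rw [Real.log_mul (by norm_num) (by norm_num), Real.log_pow]
    have h4 := Real.log_le_sub_one_of_pos (by norm_num : (0 : ℝ) < 4)
    have h5 := Real.log_le_sub_one_of_pos (by norm_num : (0 : ℝ) < 10)
    push_cast
    linarith
  have h6 : (n : ℝ) / 10 ^ 17 = 2 * n / (4 * 10 ^ 17) + n / (2 * 10 ^ 17) := by
    field_simp
    norm_num
  have h7 : (500 : ℝ) ≤ n / (2 * 10 ^ 17) := by
    rw [le_div_iff₀ (by positivity)]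
    linarith
  rw [h1, h6]
  exact (add_le_add h2 h3).trans (by linarith)

lemma one_add_norm_le {n : ℕ} (hn : (10 : ℝ) ^ 20 ≤ n) {L : ℂ} (hc : cc n L ∈ MM n)
    (hL : 0 ≤ L.re) (i : ℕ) : ‖1 + zz n L i / n‖ ≤ 1 + 1 / 10 ^ 16 := by
  have hn0 : (0 : ℝ) < n := lt_of_lt_of_le (by norm_num) hn
  have h2 : 2 ≤ n := by
    have : (2 : ℝ) ≤ n := le_trans (by norm_num) hn
    exact_mod_cast this
  have h1 := log_orbit_le' h2 hc hL i
  have h3 := log_nat_le hn
  have h4 : Real.log ‖1 + zz n L i / n‖ ≤ 2 / 10 ^ 17 := by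
    have h5 : n * Real.log ‖1 + zz n L i / n‖ ≤ n * (2 / 10 ^ 17) := by
      calc n * Real.log ‖1 + zz n L i / n‖ ≤ 2 * (Real.log 2 + Real.log n) := h1
        _ ≤ 2 * (n / 10 ^ 17) := by linarith
        _ = _ := by ring
    exact le_of_mul_le_mul_left h5 hn0
  rcases eq_or_ne (1 + zz n L i / n) 0 with h0 | h0
  · rw [h0, norm_zero]
    positivity
  · have h5 := (Real.log_le_iff_le_exp (norm_pos_iff.2 h0)).1 h4
    have h6 : Real.exp (2 / 10 ^ 17) ≤ 1 / (1 - 2 / 10 ^ 17) := by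
      have h7 := Real.one_sub_le_exp_neg (2 / 10 ^ 17)
      rw [Real.exp_neg] at h7
      have h8 : 0 < Real.exp (2 / 10 ^ 17) := Real.exp_pos _
      rw [le_div_iff₀ (by norm_num)]
      calc Real.exp (2 / 10 ^ 17) * (1 - 2 / 10 ^ 17) ≤
          Real.exp (2 / 10 ^ 17) * (Real.exp (2 / 10 ^ 17))⁻¹ :=
            mul_le_mul_of_nonneg_left h7 h8.le
        _ = 1 := mul_inv_cancel₀ h8.ne'
    calc ‖1 + zz n L i / n‖ ≤ Real.exp (2 / 10 ^ 17) := h5
      _ ≤ 1 / (1 - 2 / 10 ^ 17) := h6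
      _ ≤ _ := by norm_num

lemma norm_zz_le {n : ℕ} (hn : (10 : ℝ) ^ 20 ≤ n) {L : ℂ} (hc : cc n L ∈ MM n)
    (hL : 0 ≤ L.re) (i : ℕ) : ‖zz n L i‖ ≤ 3 * n := by
  have hn0 : (0 : ℝ) < n := lt_of_lt_of_le (by norm_num) hn
  have h1 := one_add_norm_le hn hc hL i
  have h2 : ‖zz n L i / n‖ ≤ 3 := by
    have h3 : ‖zz n L i / n‖ ≤ ‖1 + zz n L i / n‖ + ‖(1 : ℂ)‖ := by
      have := norm_sub_le (1 + zz n L i / n) 1
      rwa [add_sub_cancel_left] at this
    rw [norm_one] at h3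
    calc ‖zz n L i / n‖ ≤ ‖1 + zz n L i / n‖ + 1 := h3
      _ ≤ (1 + 1 / 10 ^ 16) + 1 := by linarith
      _ ≤ 3 := by norm_num
  rw [norm_div, norm_natCast, div_le_iff₀ hn0] at h2
  exact h2

lemma Low.re_L {n j : ℕ} {L : ℂ} (h : Low n j L) : 18 ≤ L.re := by
  have h1 := h.h1
  rw [zz_one, norm_exp] at h1
  by_contra hcon
  push Not at hcon
  have h2 : Real.exp L.re < Real.exp 18 := Real.exp_lt_exp.2 hcon
  have h3 : Real.exp 18 ≤ (10 : ℝ) ^ 8 := by
    have h4 : Real.exp 18 = Real.exp 1 ^ 18 := by rw [← Real.exp_nat_mul]; norm_num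
    rw [h4]
    have h5 := Real.exp_one_lt_d9
    have h6 : Real.exp 1 ^ 18 ≤ 2.7182818286 ^ 18 :=
      pow_le_pow_left₀ (Real.exp_pos 1).le h5.le 18
    refine h6.trans (by norm_num)
  linarith

/-! ### more on towers -/

lemma norm_exp_sub_one_le' (v : ℂ) : ‖exp v - 1‖ ≤ ‖v‖ * Real.exp (max 0 v.re) := by
  have h := Convex.norm_image_sub_le_of_norm_deriv_le (𝕜 := ℂ) (f := exp) (s := segment ℝ 0 v)
    (C := Real.exp (max 0 v.re)) (fun w _ => differentiable_exp w) ?_ (convex_segment 0 v)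
    (left_mem_segment ℝ 0 v) (right_mem_segment ℝ 0 v)
  · rw [exp_zero, sub_zero] at h
    rw [mul_comm]
    exact h
  · intro w hw
    rw [Complex.deriv_exp, norm_exp]
    apply Real.exp_le_exp.2
    obtain ⟨a, b, ha, hb, hab, rfl⟩ := hw
    simp only [smul_zero, zero_add, real_smul, mul_re, ofReal_re, ofReal_im, zero_mul, sub_zero]
    rcases le_total 0 v.re with h0 | h0
    · have h1 : b ≤ 1 := by linarith
      have h2 : b * v.re ≤ 1 * v.re := mul_le_mul_of_nonneg_right h1 h0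
      exact (by linarith : b * v.re ≤ v.re).trans (le_max_right _ _)
    · exact (mul_nonpos_of_nonneg_of_nonpos hb h0).trans (le_max_left _ _)

lemma Tow.norm_x_le {n j : ℕ} {L x : ℂ} (h : Tow n j L x) : ‖x‖ ≤ 401 / 100 * n := by
  have h1 := Complex.norm_le_abs_re_add_abs_im x
  have h2 := h.him
  have h3 := h.hle
  linarith

lemma Tow.norm_x {n j : ℕ} {L x : ℂ} (h : Tow n j L x) : 4 * 10 ^ 7 * 2 ^ j ≤ ‖x‖ := by
  have hn0 : (0 : ℝ) < n := lt_of_lt_of_le (by norm_num) h.toLow.hn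
  obtain ⟨k, hk⟩ : ∃ k, j = k + 1 := ⟨j - 1, by have := h.toLow.hj; omega⟩
  have h1 := h.toLow.big k (by omega)
  rw [← hk, h.hx, norm_mul, norm_natCast] at h1
  have h2 := norm_exp_sub_one_le' (x / n)
  have h3 : (x / n).re = x.re / n := by rw [← ofReal_natCast, div_ofReal_re]
  have h4 : max 0 (x / n).re ≤ 8 / 1000 := by
    rw [h3]
    apply max_le (by norm_num)
    rw [div_le_iff₀ hn0]
    have h5 := h.him
    have h6 := h.hle
    have h7 := le_abs_self x.re
    linarith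
  have h5 : Real.exp (8 / 1000) ≤ 1.01 := by
    have h6 := Real.one_sub_le_exp_neg (8 / 1000)
    rw [Real.exp_neg] at h6
    have h7 : 0 < Real.exp (8 / 1000) := Real.exp_pos _
    have h8 : Real.exp (8 / 1000) * (1 - 8 / 1000) ≤ 1 := by
      calc Real.exp (8 / 1000) * (1 - 8 / 1000) ≤ Real.exp (8 / 1000) *
          (Real.exp (8 / 1000))⁻¹ := mul_le_mul_of_nonneg_left h6 h7.le
        _ = 1 := mul_inv_cancel₀ h7.ne'
    by_contra hcon
    push Not at hcon
    linarith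
  have h6 : Real.exp (max 0 (x / n).re) ≤ 1.01 := (Real.exp_le_exp.2 h4).trans h5
  have h7 : ‖exp (x / n) - 1‖ ≤ ‖x‖ / n * 1.01 := by
    refine h2.trans ?_
    rw [norm_div, norm_natCast]
    exact mul_le_mul_of_nonneg_left h6 (by positivity)
  have h8 : (n : ℝ) * ‖exp (x / n) - 1‖ ≤ 1.01 * ‖x‖ := by
    calc (n : ℝ) * ‖exp (x / n) - 1‖ ≤ n * (‖x‖ / n * 1.01) :=
          mul_le_mul_of_nonneg_left h7 hn0.le
      _ = 1.01 * ‖x‖ := by field_simp
  have h9 : (2 : ℝ) ^ j = 2 * 2 ^ k := by rw [hk]; ring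
  rw [h9]
  nlinarith [pow_pos (by norm_num : (0 : ℝ) < 2) k]

/-- On a cycle of period dividing `j + 1` there is no critical point. -/
lemma NR.crit {n j : ℕ} (hn : 2 ≤ n) {L w : ℂ} (h : NR n (j + 1) (cc n L))
    (hw : (E n L)^[j + 1] w = w) : ∀ i, i ≤ j → 1 + (E n L)^[i] w / n ≠ 0 := by
  intro i hi h0
  have h1 : (F n (cc n L))^[j + 1] (cc n L * (1 + w / n)) = cc n L * (1 + w / n) := by
    rw [F_iter_conj hn, hw]
  have h2 := h (j + 1) (by omega) (le_refl _) _ h1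
  rw [deriv_F_iter hn, (deriv_E_iter (by omega) L w (j + 1)).deriv,
    Finset.prod_eq_zero (i := i) (Finset.mem_range.2 (by omega))] at h2
  · norm_num at h2
  · rw [h0, zero_pow (by omega), mul_zero]

lemma NR.zz_ne {n j : ℕ} (hn : 2 ≤ n) {L : ℂ} (h : NR n (j + 1) (cc n L)) :
    ∀ i, i ≤ j → zz n L i ≠ -n := by
  intro i hi h0
  have hn0 := natCast_ne hn
  have h1 : 1 + zz n L i / n = 0 := by
    rw [h0]
    field_simp
    ring
  have h2 : NR n (i + 1) (cc n L) := fun p hp hp2 => h p hp (by omega)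
  have h3 : (E n L)^[i + 1] 0 = 0 := by
    rw [Function.iterate_succ_apply']
    show E n L (zz n L i) = 0
    rw [E, h1, zero_pow (by omega), mul_zero]
  exact h2.crit hn h3 i (le_refl _) h1

lemma NR.mono {n m m' : ℕ} {c : ℂ} (h : NR n m c) (hm : m' ≤ m) : NR n m' c :=
  fun p hp hp2 => h p hp (hp2.trans hm)

end Pool.Agent.Limb
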