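import Pool.Agent.Limb.Targets

/-!
# LIMB: the chain along the rays, low stages
-/

set_option autoImplicit false

open Complex Filter Topology Set
open Pool.Agent.Multibrot

namespace Pool.Agent.Limb

namespace CHL_

lemma const_of_int {f : ℝ → ℝ} {T : ℝ} (hc : ContinuousOn f (Ioi T))
    (hint : ∀ t, T < t → ∃ m : ℤ, f t = m) (hlim : Tendsto f atTop (𝓝 0)) :
    ∀ t, T < t → f t = 0 := by
  intro t ht
  by_contra hne
  obtain ⟨m, hm⟩ := hint t ht
  have h1 : ∀ᶠ u in atTop, |f u| < 1 / 2 := by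
    have h2 := hlim.abs
    rw [abs_zero] at h2
    exact h2.eventually (gt_mem_nhds (by norm_num))
  obtain ⟨u, hu1, hu2⟩ := (h1.and (eventually_gt_atTop T)).exists
  obtain ⟨m', hm'⟩ := hint u hu2
  have hm0 : m' = 0 := by
    rw [hm'] at hu1
    have h3 : |(m' : ℝ)| < 1 := by linarith
    have h4 : |m'| < 1 := by exact_mod_cast h3
    exact Int.abs_lt_one_iff.1 h4
  have hord := (isPreconnected_Ioi.image f hc).ordConnected
  have hu0 : f u = 0 := by rw [hm', hm0]; simp
  have hmem0 : (0 : ℝ) ∈ f '' Ioi T := ⟨u, hu2, hu0⟩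
  have hmemt : (m : ℝ) ∈ f '' Ioi T := ⟨t, ht, hm⟩
  have hmne : m ≠ 0 := by
    intro h0
    rw [h0] at hm
    exact hne (by rw [hm]; simp)
  rcases lt_or_gt_of_ne hmne with hneg | hpos
  · have h5 : (m : ℝ) ≤ -1 := by exact_mod_cast (by omega : m ≤ -1)
    obtain ⟨v, hv1, hv2⟩ := hord.out hmemt hmem0 (show (-1 / 2 : ℝ) ∈ Icc (m : ℝ) 0 from
      ⟨by linarith, by norm_num⟩)
    obtain ⟨k, hk⟩ := hint v hv1
    rw [hk] at hv2
    have h6 : (2 * k : ℝ) = -1 := by linarith
    have h7 : (2 * k : ℤ) = -1 := by exact_mod_cast h6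
    omega
  · have h5 : (1 : ℝ) ≤ m := by exact_mod_cast (by omega : 1 ≤ m)
    obtain ⟨v, hv1, hv2⟩ := hord.out hmem0 hmemt (show (1 / 2 : ℝ) ∈ Icc (0 : ℝ) m from
      ⟨by norm_num, by linarith⟩)
    obtain ⟨k, hk⟩ := hint v hv1
    rw [hk] at hv2
    have h6 : (2 * k : ℝ) = 1 := by linarith
    have h7 : (2 * k : ℤ) = 1 := by exact_mod_cast h6
    omega

/-- Two continuous functions with the same exponential and the same limit of the imaginary part. -/
lemma eq_of_exp {f g : ℝ → ℂ} {T a : ℝ} (hf : ContinuousOn f (Ioi T)) (hg : ContinuousOn g (Ioi T))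
    (he : ∀ t, T < t → exp (f t) = exp (g t))
    (h1 : Tendsto (fun t => (f t).im) atTop (𝓝 a)) (h2 : Tendsto (fun t => (g t).im) atTop (𝓝 a)) :
    ∀ t, T < t → f t = g t := by
  intro t ht
  have h3 : ∀ t, T < t → ∃ m : ℤ, ((f t).im - (g t).im) / (2 * Real.pi) = m := by
    intro t ht
    obtain ⟨m, hm⟩ := Complex.exp_eq_exp_iff_exists_int.1 (he t ht)
    refine ⟨m, ?_⟩
    rw [hm]
    have h4 : (m * (2 * Real.pi * I) : ℂ).im = m * (2 * Real.pi) := by
      simp
    rw [add_im, h4]
    field_simp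
    ring
  have h4 : ContinuousOn (fun t => ((f t).im - (g t).im) / (2 * Real.pi)) (Ioi T) :=
    ((continuous_im.comp_continuousOn hf).sub (continuous_im.comp_continuousOn hg)).div_const _
  have h5 : Tendsto (fun t => ((f t).im - (g t).im) / (2 * Real.pi)) atTop (𝓝 0) := by
    have := (h1.sub h2).div_const (2 * Real.pi)
    rwa [sub_self, zero_div] at this
  have h6 := const_of_int h4 h3 h5 t ht
  obtain ⟨m, hm⟩ := Complex.exp_eq_exp_iff_exists_int.1 (he t ht)
  have h7 : (m * (2 * Real.pi * I) : ℂ).im = m * (2 * Real.pi) := by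
    simp
  have h8 : (f t).im - (g t).im = 0 := by
    have h9 : (2 * Real.pi) ≠ 0 := by positivity
    exact (div_eq_zero_iff.1 h6).resolve_right h9
  rw [hm, add_im, h7] at h8
  have h9 : (m : ℝ) * (2 * Real.pi) = 0 := by linarith
  have h10 : (m : ℝ) = 0 := (mul_eq_zero.1 h9).resolve_right (by positivity)
  have h11 : m = 0 := by exact_mod_cast h10
  rw [hm, h11]
  simp

/-- Limits along a ray. -/
lemma lims {n : ℕ} {Λ : ℂ → ℂ → ℂ} {L : ℂ} (hn : (0 : ℝ) < n) (a : ℝ)
    (h : Tendsto (fun t : ℝ => xi n Λ L (t + a * I) - (n * (t + a * I) - n * ell n L)) atTop (𝓝 0))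
    (c : ℂ) :
    Tendsto (fun t : ℝ => (xi n Λ L (t + a * I) - c).re) atTop atTop ∧
    Tendsto (fun t : ℝ => (xi n Λ L (t + a * I) - c).im) atTop
      (𝓝 (n * a - n * (ell n L).im - c.im)) := by
  have hre : Tendsto (fun t : ℝ => (xi n Λ L (t + a * I) -
      (n * (t + a * I) - n * ell n L)).re) atTop (𝓝 0) := by
    have h2 := (continuous_re.tendsto (0 : ℂ)).comp h
    rw [zero_re] at h2
    exact h2
  have him : Tendsto (fun t : ℝ => (xi n Λ L (t + a * I) -
      (n * (t + a * I) - n * ell n L)).im) atTop (𝓝 0) := by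
    have h2 := (continuous_im.tendsto (0 : ℂ)).comp h
    rw [zero_im] at h2
    exact h2
  constructor
  · have h1 : Tendsto (fun t : ℝ => (n : ℝ) * t) atTop atTop :=
      tendsto_id.const_mul_atTop hn
    have h2 := h1.atTop_add (hre.add_const (- n * (ell n L).re - c.re))
    refine h2.congr (fun t => ?_)
    simp
    ring
  · have h2 := him.add_const (n * a - n * (ell n L).im - c.im)
    rw [zero_add] at h2
    refine h2.congr (fun t => ?_)
    simp

/-- The exponential of the previous stage. -/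
lemma step_exp {n : ℕ} {Λ : ℂ → ℂ → ℂ} {L : ℂ} (hn : 2 ≤ n)
    (r1 : ∀ s : ℂ, 0 < s.re → exp (L + xi n Λ L s) = n * (exp (xi n Λ L (n * s) / n) - 1))
    (r3 : ∀ (s : ℂ) (k : ℤ), 0 < s.re →
      xi n Λ L (s + 2 * Real.pi * I * k / n) = xi n Λ L s + 2 * Real.pi * I * k)
    {θ θ' : ℝ} {s : ℤ} (hθ : θ' = n * θ - s) {z z' : ℂ} (hz' : z' ≠ 0) (hz1 : 1 + z' / n ≠ 0)
    (hty : n * log (1 + z / n) = log z' - L + 2 * Real.pi * I * s) (t : ℝ) (ht : 0 < t) :
    exp (xi n Λ L ((t / n : ℝ) + 2 * Real.pi * θ * I) - n * log (1 + z / n)) =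
      1 + (1 + n / z') * (exp ((xi n Λ L (t + 2 * Real.pi * θ' * I) -
        n * log (1 + z' / n)) / n) - 1) := by
  have hn0 : (n : ℂ) ≠ 0 := natCast_ne hn
  have hnR : (0 : ℝ) < n := by exact_mod_cast (by omega : 0 < n)
  have hre : ((t / n : ℝ) + 2 * Real.pi * θ * I : ℂ).re = t / n := by
    simp
  have h1 := r1 ((t / n : ℝ) + 2 * Real.pi * θ * I) (by rw [hre]; positivity)
  have h2 := r3 (t + 2 * Real.pi * θ' * I) (n * s) (by simpa using ht)
  have h3 : (n : ℂ) * ((t / n : ℝ) + 2 * Real.pi * θ * I) =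
      t + 2 * Real.pi * θ' * I + 2 * Real.pi * I * ((n * s : ℤ) : ℂ) / n := by
    rw [hθ]
    push_cast
    field_simp
    ring
  rw [h3, h2] at h1
  have h4 : exp ((xi n Λ L (t + 2 * Real.pi * θ' * I) + 2 * Real.pi * I * ((n * s : ℤ) : ℂ)) / n) =
      exp (xi n Λ L (t + 2 * Real.pi * θ' * I) / n) := by
    have h5 : (xi n Λ L (t + 2 * Real.pi * θ' * I) + 2 * Real.pi * I * ((n * s : ℤ) : ℂ)) / n =
        xi n Λ L (t + 2 * Real.pi * θ' * I) / n + s * (2 * Real.pi * I) := by
      push_cast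
      field_simp
    rw [h5, exp_add, exp_int_mul_two_pi_mul_I, mul_one]
  rw [h4] at h1
  have h5 : exp (n * log (1 + z / n)) = z' * exp (-L) := by
    have h6 : (2 * Real.pi * I * s : ℂ) = s * (2 * Real.pi * I) := by ring
    rw [hty, h6, exp_add, exp_int_mul_two_pi_mul_I, mul_one, sub_eq_add_neg, exp_add,
      exp_log hz']
  have h6 : exp ((xi n Λ L (t + 2 * Real.pi * θ' * I) - n * log (1 + z' / n)) / n) =
      exp (xi n Λ L (t + 2 * Real.pi * θ' * I) / n) / (1 + z' / n) := by
    rw [sub_div, mul_div_cancel_left₀ _ hn0, exp_sub, exp_log hz1]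
  have h7 : exp (xi n Λ L ((t / n : ℝ) + 2 * Real.pi * θ * I)) =
      exp (-L) * exp (L + xi n Λ L ((t / n : ℝ) + 2 * Real.pi * θ * I)) := by
    rw [← exp_add]
    congr 1
    ring
  rw [exp_sub, h5, h7, h1, h6]
  have h8 : (n : ℂ) + z' ≠ 0 := by
    intro h9
    apply hz1
    field_simp
    rw [mul_zero]
    exact h9
  have h9 : exp (-L) ≠ 0 := exp_ne_zero _
  generalize exp (xi n Λ L (t + 2 * Real.pi * θ' * I) / n) = e at *
  generalize exp (-L) = e' at *
  field_simp
  ring

end CHL_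

theorem p_CHL (h1 : T_RAY) (h2 : T_LOWST) (h3 : T_INFL) : T_CHL := by
  intro n k
  induction k with
  | zero =>
    intro Λ L θ s T hn hΛ hc _ _ _ hT hQ
    have hn2 : 2 ≤ n := by
      have h4 : (2 : ℝ) ≤ n := le_trans (by norm_num) hn
      exact_mod_cast h4
    have hn0 : (0 : ℝ) < n := lt_of_lt_of_le (by norm_num) hn
    obtain ⟨r1, r2, r3, r4, r5, r6⟩ := h1 n Λ L hn2 hΛ hc
    have hzero : (n : ℂ) * log (1 + zz n L 0 / n) = 0 := by
      rw [zz_zero]; simp
    refine ⟨fun t ht => ?_, ?_⟩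
    · rw [hzero, sub_zero, VV, pow_zero, div_one]
    · have hl := CHL_.lims hn0 (2 * Real.pi * θ 0) (r5 (2 * Real.pi * θ 0))
        (n * log (1 + zz n L 0 / n))
      set b : ℝ := n * (2 * Real.pi * θ 0) - n * (ell n L).im - (n * log (1 + zz n L 0 / n)).im
        with hb
      have hcast : ∀ t : ℝ, ((t : ℂ) + ((2 * Real.pi * θ 0 : ℝ) : ℂ) * I) =
          t + 2 * Real.pi * θ 0 * I := by
        intro t; push_cast; ring
      simp only [hcast] at hl
      have hb2 : |b| ≤ 2 := by
        have h5 := hl.2.abs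
        refine le_of_tendsto h5 ?_
        filter_upwards [eventually_gt_atTop T] with t ht
        exact (hQ t ht).2.le
      have h6 := (h3 n ((10 : ℝ) ^ 8 : ℝ) b _ hn (by simp) (by simp; norm_num) hb2 hl.1 hl.2).2.2.2
      have h7 : b / n = ∑ i ∈ Finset.range 0, ((log (zz n L (i + 1))).im -
          (log (1 + zz n L (i + 1) / n)).im) + 2 * Real.pi * θ 0 - (ell n L).im := by
        rw [Finset.sum_range_zero, hb, hzero, zero_im]
        field_simp
        ring
      rw [← h7]
      exact h6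
  | succ k ih =>
    intro Λ L θ s T hn hΛ hc hθ hty hz hT hQ
    have hn2 : 2 ≤ n := by
      have h4 : (2 : ℝ) ≤ n := le_trans (by norm_num) hn
      exact_mod_cast h4
    have hn0 : (0 : ℝ) < n := lt_of_lt_of_le (by norm_num) hn
    have hnC : (n : ℂ) ≠ 0 := natCast_ne hn2
    obtain ⟨r1, r2, r3, r4, r5, r6⟩ := h1 n Λ L hn2 hΛ hc
    obtain ⟨hz8, hzre⟩ := hz (k + 1) (by omega) le_rfl
    have hz0 : zz n L (k + 1) ≠ 0 := ne_zero_of_big hz8
    have hz1 : 1 + zz n L (k + 1) / n ≠ 0 := one_add_ne hzre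
    -- the limits at stage k + 1
    have hcast : ∀ (t : ℝ) (i : ℕ), ((t : ℂ) + ((2 * Real.pi * θ i : ℝ) : ℂ) * I) =
        t + 2 * Real.pi * θ i * I := by
      intro t i; push_cast; ring
    have hl := CHL_.lims hn0 (2 * Real.pi * θ (k + 1)) (r5 (2 * Real.pi * θ (k + 1)))
      (n * log (1 + zz n L (k + 1) / n))
    simp only [hcast] at hl
    set b : ℝ := n * (2 * Real.pi * θ (k + 1)) - n * (ell n L).im -
      (n * log (1 + zz n L (k + 1) / n)).im with hb
    have hb2 : |b| ≤ 2 := by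
      refine le_of_tendsto hl.2.abs ?_
      filter_upwards [eventually_gt_atTop T] with t ht
      exact (hQ t ht).2.le
    obtain ⟨l1, l2, l3, l4⟩ := h3 n (zz n L (k + 1)) b _ hn hz8 hzre hb2 hl.1 hl.2
    -- the limit at stage k
    have hl' := CHL_.lims hn0 (2 * Real.pi * θ k) (r5 (2 * Real.pi * θ k))
      (n * log (1 + zz n L k / n))
    simp only [hcast] at hl'
    have hdiv : Tendsto (fun t : ℝ => t / n) atTop atTop := tendsto_id.atTop_div_const hn0
    have l5 := hl'.2.comp hdiv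
    -- equality
    have himre : (n : ℂ) * log (1 + zz n L k / n) = log (zz n L (k + 1)) - L +
        2 * Real.pi * I * s k := hty k (by omega)
    have hlim_eq : n * (2 * Real.pi * θ k) - n * (ell n L).im - (n * log (1 + zz n L k / n)).im =
        b / n + (log (1 + zz n L (k + 1) / n)).im - (log (zz n L (k + 1))).im := by
      have e1 : ((n : ℂ) * log (1 + zz n L k / n)).im =
          (log (zz n L (k + 1))).im - L.im + 2 * Real.pi * s k := by
        rw [himre]
        simp
      have e2 : n * (ell n L).im = (ell n L).im + L.im := by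
        have h5 := congrArg Complex.im (n_ell hn2 L)
        rw [← ofReal_natCast, im_ofReal_mul, sub_im, add_im, ofReal_im, sub_zero] at h5
        exact h5
      have e3 : b / n = 2 * Real.pi * θ (k + 1) - (ell n L).im -
          (log (1 + zz n L (k + 1) / n)).im := by
        have h5 : ((n : ℂ) * log (1 + zz n L (k + 1) / n)).im =
            n * (log (1 + zz n L (k + 1) / n)).im := by simp
        rw [hb, h5]
        field_simp
      rw [e1, e2, e3, hθ k (by omega)]
      ring
    have hcont1 : ContinuousOn (fun t : ℝ => xi n Λ L ((t / n : ℝ) + 2 * Real.pi * θ k * I) -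
        n * log (1 + zz n L k / n)) (Ioi T) := by
      have h5 := r4 (2 * Real.pi * θ k)
      simp only [hcast] at h5
      have h6 : ContinuousOn (fun t : ℝ => t / (n : ℝ)) (Ioi T) := by fun_prop
      have h7 : MapsTo (fun t : ℝ => t / (n : ℝ)) (Ioi T) (Ioi 0) := fun t ht =>
        div_pos (lt_of_le_of_lt hT ht) hn0
      exact (h5.comp h6 h7).sub continuousOn_const
    have hcont2 : ContinuousOn (fun t : ℝ => hh n (zz n L (k + 1))
        (xi n Λ L (t + 2 * Real.pi * θ (k + 1) * I) - n * log (1 + zz n L (k + 1) / n)))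
        (Ioi T) := by
      have h5 := r4 (2 * Real.pi * θ (k + 1))
      simp only [hcast] at h5
      have h6 : ContinuousOn (fun t : ℝ => xi n Λ L (t + 2 * Real.pi * θ (k + 1) * I) -
          n * log (1 + zz n L (k + 1) / n)) (Ioi T) :=
        (h5.mono (fun t ht => lt_of_le_of_lt hT ht)).sub continuousOn_const
      have h7 : ContinuousOn (hh n (zz n L (k + 1))) QQ := fun U hU =>
        ((h2 n _ U hn hz8 hzre hU).2.2.2.2.2.2.1).continuousAt.continuousWithinAt
      exact h7.comp h6 (fun t ht => hQ t ht)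
    have key : ∀ t : ℝ, T < t → xi n Λ L ((t / n : ℝ) + 2 * Real.pi * θ k * I) -
        n * log (1 + zz n L k / n) = hh n (zz n L (k + 1))
        (xi n Λ L (t + 2 * Real.pi * θ (k + 1) * I) - n * log (1 + zz n L (k + 1) / n)) := by
      refine CHL_.eq_of_exp hcont1 hcont2 (fun t ht => ?_) l5 ?_
      · rw [CHL_.step_exp hn2 r1 r3 (hθ k (by omega)) hz0 hz1 himre t (lt_of_le_of_lt hT ht)]
        have h5 := (h2 n _ _ hn hz8 hzre (hQ t ht)).1
        rw [hh, exp_log]
        intro h0
        rw [h0] at h5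
        norm_num at h5
      · rw [hlim_eq]
        exact l2
    -- the induction hypothesis
    have hQ' : ∀ t : ℝ, T / n < t →
        xi n Λ L (t + 2 * Real.pi * θ k * I) - n * log (1 + zz n L k / n) ∈ QQ := by
      intro t ht
      have h5 : T < n * t := by
        rw [div_lt_iff₀ hn0] at ht
        linarith
      have h6 := key (n * t) h5
      rw [mul_div_cancel_left₀ _ hn0.ne'] at h6
      rw [h6]
      exact (h2 n _ _ hn hz8 hzre (hQ _ h5)).2.1
    obtain ⟨i1, i2⟩ := ih Λ L θ s (T / n) hn hΛ hc (fun i hi => hθ i (by omega))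
      (fun i hi => hty i (by omega)) (fun i hi hi2 => hz i hi (by omega)) (by positivity) hQ'
    refine ⟨fun t ht => ?_, ?_⟩
    · rw [VV, ← key t ht, i1 (t / n) ((div_lt_div_iff_of_pos_right hn0).2 ht), div_div,
        ← pow_succ']
    · have h5 := (i2.comp hdiv).add l3
      rw [Finset.sum_range_succ]
      have h6 : ∑ i ∈ Finset.range k, ((log (zz n L (i + 1))).im -
          (log (1 + zz n L (i + 1) / n)).im) + ((log (zz n L (k + 1))).im -
          (log (1 + zz n L (k + 1) / n)).im) + 2 * Real.pi * θ 0 - (ell n L).im =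
          ∑ i ∈ Finset.range k, ((log (zz n L (i + 1))).im -
          (log (1 + zz n L (i + 1) / n)).im) + 2 * Real.pi * θ 0 - (ell n L).im +
          ((log (zz n L (k + 1))).im - (log (1 + zz n L (k + 1) / n)).im) := by ring
      rw [h6]
      refine h5.congr' ?_
      filter_upwards [eventually_gt_atTop T] with t ht
      rw [GG, add_im, ← key t ht]
      rfl

end Pool.Agent.Limb
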