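import Pool.Agent.Limb.Targets

/-!
# LIMB: CLOP, the closed type implies the open type
-/

set_option autoImplicit false

open Complex Filter Topology Set
open Pool.Agent.Multibrot

namespace Pool.Agent.Limb

namespace CLOP_

/-- `(1 + z / n) * exp (ui n z w / n) = 1 + w / n`. -/
lemma mul_exp_ui {n : ℕ} (hn : 2 ≤ n) {z w : ℂ} (hz : 1 + z / n ≠ 0) (hw : 1 + w / n ≠ 0) :
    (1 + z / n) * exp (ui n z w / n) = 1 + w / n := by
  have hn0 := natCast_ne hn
  have h1 : ui n z w / n = log ((1 + w / n) / (1 + z / n)) := by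
    unfold ui
    field_simp
  rw [h1, exp_log (div_ne_zero hw hz), mul_div_cancel₀ _ hz]

/-- `E z * exp (ui n z w) = E w`. -/
lemma E_mul_exp_ui {n : ℕ} (hn : 2 ≤ n) {L z w : ℂ} (hz : 1 + z / n ≠ 0) (hw : 1 + w / n ≠ 0) :
    E n L z * exp (ui n z w) = E n L w := by
  have hn0 := natCast_ne hn
  have h1 := mul_exp_ui hn hz hw
  have h2 : exp (ui n z w) = exp (ui n z w / n) ^ n := by
    rw [← exp_nat_mul]
    congr 1
    field_simp
  unfold E
  rw [h2, ← h1, mul_pow]
  ring

lemma nat_le_two_pow (j : ℕ) : (j : ℝ) + 1 ≤ 2 ^ j := by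
  have h : j + 1 ≤ 2 ^ j := Nat.lt_two_pow_self
  exact_mod_cast h

lemma log_le_quarter {y : ℝ} (hy : 0 < y) : Real.log y ≤ y / 4 + 1 := by
  have h1 : Real.log y = Real.log (y / 4) + 2 * Real.log 2 := by
    rw [Real.log_div hy.ne' (by norm_num)]
    have h2 : Real.log 4 = 2 * Real.log 2 := by
      rw [show (4 : ℝ) = 2 ^ 2 by norm_num, Real.log_pow]
      norm_num
    rw [h2]
    ring
  have h3 := Real.log_le_sub_one_of_pos (by positivity : 0 < y / 4)
  have h4 := Real.log_two_lt_d9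
  rw [h1]
  linarith

end CLOP_

open CLOP_ in
/-- CLOP: the closed type implies the open type. -/
theorem p_CLOP (h1 : T_REAL) (h2 : T_UI1) (h3 : T_UI2) (h4 : T_WEST) (h5 : T_GTOP) : T_CLOP := by
  intro n j L x w s hT hNR hw hWW hcl
  obtain ⟨hc1, hc2, hb0, hb1⟩ := hcl
  have hn2 := hT.toLow.two_le
  have hn0 := natCast_ne hn2
  have hnR : (10 : ℝ) ^ 20 ≤ n := hT.toLow.hn
  have hn0R : (0 : ℝ) < n := lt_of_lt_of_le (by norm_num) hnR
  have hx1 := hT.norm_x
  have hx2 := hT.norm_x_le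
  have hj2 := nat_le_two_pow j
  have hjnn : (0 : ℝ) ≤ j := Nat.cast_nonneg j
  have hxj : 4 * 10 ^ 7 * ((j : ℝ) + 1) ≤ ‖x‖ := by
    refine le_trans ?_ hx1
    exact mul_le_mul_of_nonneg_left hj2 (by norm_num)
  have hx0 : 0 < ‖x‖ := lt_of_lt_of_le (by positivity) hxj
  have hcrit := hNR.crit hn2 hw
  have hW0 := h3 n j L x w hT hcrit hc1 hc2
  set u := ui n (zz n L j) ((E n L)^[j] w) with hu
  obtain ⟨hu1, hu2, hu3⟩ := h2 n j L x u hT hc2
  rw [hW0] at hu1 hu2 hu3
  have hzj : 1 + zz n L j / n ≠ 0 := by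
    rw [hT.one_add]
    exact exp_ne_zero _
  have hwj := hcrit j (le_refl _)
  -- the point `w`
  have hwu : zz n L (j + 1) * exp u = w := by
    have := E_mul_exp_ui (L := L) hn2 hzj hwj
    rw [zz_succ, hu, this, ← Function.iterate_succ_apply' (E n L), hw]
  have huTT : u ∈ TT x := by
    have h6 := Complex.abs_re_le_norm u
    have h7 := Complex.abs_im_le_norm u
    have h8 := neg_abs_le u.re
    refine ⟨?_, ?_⟩
    · linarith
    · linarith
  obtain ⟨-, -, -, hg4, -, -, hg7⟩ := h5 n j L x u hT huTT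
  obtain ⟨hG, hS⟩ := hg7 hc2
  rw [hW0] at hg4
  obtain ⟨-, -, -, hW4, -, hW6, hW7⟩ := h4 n j L x hT
  have hW6 := hW6 hNR
  have hfix : u * exp (GG n L j u - u) = exp (WW n j L x) := by
    rw [hW4, exp_sub, mul_div_assoc', hg4, ← hwu]
    have := exp_ne_zero u
    field_simp
  have hu0 : u ≠ 0 := by
    intro h0
    rw [h0, zero_mul] at hfix
    exact exp_ne_zero _ hfix.symm
  have hun : 0 < ‖u‖ := norm_pos_iff.2 hu0
  have h5u : 5 * ‖u‖ / ‖x‖ ≤ 1 / 20 := by
    rw [div_le_iff₀ hx0]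
    linarith
  have hG' : ‖GG n L j u‖ ≤ 1 / 20 := hG.trans h5u
  have hS' : ‖SS n L j u - u‖ ≤ 1 / 20 := hS.trans h5u
  -- the real part
  have hre : Real.log ‖u‖ + ((GG n L j u).re - u.re) = (WW n j L x).re := by
    have h6 := congrArg norm hfix
    rw [norm_mul, norm_exp, norm_exp, sub_re] at h6
    have h7 := congrArg Real.log h6
    rw [Real.log_mul hun.ne' (Real.exp_pos _).ne', Real.log_exp, Real.log_exp] at h7
    exact h7
  have hGre := (Complex.abs_re_le_norm (GG n L j u)).trans hG'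
  rw [abs_le] at hGre
  -- the imaginary part
  have hsum : ∑ i ∈ Finset.range (j + 1), (ui n (zz n L i) ((E n L)^[i] w)).im =
      (SS n L j u).im := by
    rw [← hu3, Complex.im_sum]
  have hbeta : beta n j L x w s =
      (WW n j L x).im - 2 * Real.pi * s + (1 - 1 / (n : ℝ)) * (SS n L j u).im := by
    unfold beta
    rw [hsum]
  have hSim : |(SS n L j u).im - u.im| ≤ 1 / 20 := by
    have := (Complex.abs_im_le_norm (SS n L j u - u)).trans hS'
    rwa [sub_im] at this
  have hSle : |(SS n L j u).im| ≤ ‖x‖ / 100 + 1 / 20 := by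
    have h6 := Complex.abs_im_le_norm u
    have h7 : |(SS n L j u).im| ≤ |(SS n L j u).im - u.im| + |u.im| := by
      have := abs_add_le ((SS n L j u).im - u.im) u.im
      rwa [sub_add_cancel] at this
    linarith
  have hSn : |(SS n L j u).im| / n ≤ 1 / 10 := by
    rw [div_le_iff₀ hn0R]
    have h9 : (10 : ℝ) ≤ n := le_trans (by norm_num) hnR
    linarith
  have hpi := Real.pi_lt_d2
  have hpi0 := Real.pi_pos
  have hSmul : |(1 - 1 / (n : ℝ)) * (SS n L j u).im| ≤ 2 * j + 12 := by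
    have h6 : (1 - 1 / (n : ℝ)) * (SS n L j u).im =
        beta n j L x w s - ((WW n j L x).im - 2 * Real.pi * s) := by
      rw [hbeta]
      ring
    rw [h6]
    rw [abs_le] at hWW ⊢
    constructor <;> linarith [hWW.1, hWW.2]
  have hSim2 : |(SS n L j u).im| ≤ 2 * j + 13 := by
    have h6 : (SS n L j u).im = (1 - 1 / (n : ℝ)) * (SS n L j u).im + (SS n L j u).im / n := by
      ring
    have h7 : |(SS n L j u).im / n| ≤ 1 / 10 := by
      rw [abs_div, abs_of_pos hn0R]
      exact hSn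
    have h8 := abs_add_le ((1 - 1 / (n : ℝ)) * (SS n L j u).im) ((SS n L j u).im / n)
    rw [← h6] at h8
    linarith
  have huim : |u.im| ≤ 2 * j + 14 := by
    have h7 : |u.im| ≤ |(SS n L j u).im - u.im| + |(SS n L j u).im| := by
      have h8 : |u.im| = |(SS n L j u).im - ((SS n L j u).im - u.im)| := by
        rw [sub_sub_cancel]
      rw [h8]
      have h9 := norm_sub_le (SS n L j u).im ((SS n L j u).im - u.im)
      simp only [Real.norm_eq_abs] at h9
      linarith
    linarith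
  have hlt : ‖u‖ < ‖x‖ / 100 := by
    rcases lt_or_ge ‖u‖ 1 with h6 | h6
    · linarith
    · have h7 := log_le_quarter hun
      have h8 : 0 ≤ Real.log ‖u‖ := Real.log_nonneg h6
      have h9 : |u.re| ≤ Real.log ‖u‖ + 2 + ‖x‖ / 400 := by
        rw [abs_le]
        constructor <;> linarith [hGre.1, hGre.2]
      have h10 := Complex.norm_le_abs_re_add_abs_im u
      linarith
  refine ⟨?_, hlt, ?_, ?_⟩
  · intro i hi
    exact lt_of_le_of_lt (hu1 i hi) (by norm_num)
  · refine lt_of_le_of_ne hb0 ?_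
    intro h0
    refine h1 n j L x u s hT hNR hu0 hc2 hfix ?_
    rw [hbeta] at h0
    linarith
  · refine lt_of_le_of_ne hb1 ?_
    intro h0
    refine h1 n j L x u (s + 1) hT hNR hu0 hc2 hfix ?_
    rw [hbeta] at h0
    push_cast
    linarith

end Pool.Agent.Limb
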