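import Pool.Agent.Limb.Targets

/-!
# LIMB: crossing
-/

set_option autoImplicit false

open Complex Filter Topology Set
open Pool.Agent.Multibrot

namespace Pool.Agent.Limb

namespace CROSS_

lemma continuous_zz (n i : ℕ) : Continuous (fun L => zz n L i) := by
  induction i with
  | zero => exact continuous_const
  | succ i ih =>
    have h : (fun L => zz n L (i + 1)) = fun L => exp L * (1 + zz n L i / n) ^ n := by
      funext L
      rw [zz_succ, E]
    rw [h]
    fun_prop

lemma zz_ne_zero {n j : ℕ} (hn : 2 ≤ n) (hj : 1 ≤ j) {L : ℂ} (h : NR n (j + 1) (cc n L)) :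
    zz n L j ≠ 0 := by
  obtain ⟨k, rfl⟩ : ∃ k, j = k + 1 := ⟨j - 1, by omega⟩
  have h1 := h.zz_ne hn k (by omega)
  rw [zz_succ, E]
  refine mul_ne_zero (exp_ne_zero _) (pow_ne_zero _ ?_)
  intro h0
  apply h1
  have hn0 := natCast_ne hn
  have h2 : zz n L k / n = -1 := by
    linear_combination h0
  rw [div_eq_iff hn0] at h2
  rw [h2]
  ring

lemma self_mem (n j : ℕ) (L0 : ℂ) : NN n j L0 L0 := by
  refine ⟨?_, ?_, ?_⟩
  · rw [sub_self, norm_zero]
    positivity
  · intro i _ _
    rw [sub_self, norm_zero]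
    positivity
  · rcases eq_or_ne (zz n L0 j) 0 with h | h
    · rw [h, div_zero, log_zero, norm_zero]
      norm_num
    · rw [div_self h, log_one, norm_zero]
      norm_num

lemma exp_log_small {q : ℂ} (hq : q ≠ 0) :
    ‖log q‖ ≤ 1 / 4 ↔ q ∈ exp '' (Metric.closedBall (0 : ℂ) (1 / 4)) := by
  constructor
  · intro h
    exact ⟨log q, by simpa using h, exp_log hq⟩
  · rintro ⟨ρ, hρ, rfl⟩
    have h1 : ‖ρ‖ ≤ 1 / 4 := by simpa using hρ
    have h2 := abs_le.1 ((abs_im_le_norm ρ).trans h1)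
    have h3 := Real.pi_gt_three
    rw [log_exp (by linarith [h2.1]) (by linarith [h2.2])]
    exact h1

lemma small_closed : IsClosed (exp '' (Metric.closedBall (0 : ℂ) (1 / 4))) :=
  ((isCompact_closedBall _ _).image continuous_exp).isClosed

lemma slit_of_small {q : ℂ} (hq : q ≠ 0) (h : ‖log q‖ ≤ 1 / 4) : q ∈ slitPlane := by
  rw [mem_slitPlane_iff_arg]
  refine ⟨?_, hq⟩
  have h1 := abs_le.1 ((abs_im_le_norm (log q)).trans h)
  rw [log_im] at h1
  have h3 := Real.pi_gt_three
  linarith [h1.2]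

end CROSS_

open CROSS_ in
theorem p_CROSS (hEXT : T_EXT) (hBOOT : T_BOOT) (hNEAR : T_NEAR) (hUP : T_UP) (hWEST : T_WEST) :
    T_CROSS := by
  intro n j A L0 hA hadm hL0 hS hout
  have hn2 : 2 ≤ n := by
    have h1 : (2 : ℝ) ≤ n := le_trans (by norm_num) hS.hn
    exact_mod_cast h1
  obtain ⟨Λ, hΛ⟩ := hEXT n hn2
  by_contra hcon
  have hnfr : ∀ L ∈ A, NN n j L0 L → NFR n j L := by
    intro L hL hN
    by_contra h
    exact hcon ⟨L, hL, hN, h⟩
  obtain ⟨-, -, hc0, hr0⟩ := hadm L0 hL0
  set x : ℂ → ℂ := fun L => xL n j L0 L with hx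
  set A1 : Set ℂ := {L | L ∈ A ∧ NN n j L0 L} with hA1
  have hnear : ∀ L ∈ A1, Tow n j L (x L) ∧
      (1 + zz n L j / n) / (1 + zz n L0 j / n) ∈ slitPlane ∧
      (‖log (zz n L j / zz n L0 j)‖ = 1 / 4 → |(x L0).im| / 20 ≤ |(x L).im - (x L0).im|) := by
    intro L hL
    obtain ⟨-, -, hc, hr⟩ := hadm L hL.1
    exact hNEAR n j L0 L hS hc0 hc hr0 hr hL.2 (hnfr L0 hL0 (self_mem n j L0)) (hnfr L hL.1 hL.2)
  have hadm1 : ∀ L ∈ A1, Adm n j L (x L) := by
    intro L hL
    obtain ⟨a1, a2, a3, a4⟩ := hadm L hL.1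
    exact ⟨(hnear L hL).1, a1, a2, a3, a4⟩
  have hxc : ContinuousOn x A1 := by
    intro L hL
    have h1 : ContinuousAt (fun L => (1 + zz n L j / n) / (1 + zz n L0 j / n)) L := by
      have := (continuous_zz n j).continuousAt (x := L)
      fun_prop
    have h2 : ContinuousAt (fun L => log ((1 + zz n L j / n) / (1 + zz n L0 j / n))) L :=
      h1.clog (hnear L hL).2.1
    have h3 : ContinuousAt x L := by
      show ContinuousAt (fun L => n * log (1 + zz n L0 j / n) +
        n * log ((1 + zz n L j / n) / (1 + zz n L0 j / n))) L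
      exact continuousAt_const.add (continuousAt_const.mul h2)
    exact h3.continuousWithinAt
  have hL01 : L0 ∈ A1 := ⟨hL0, self_mem n j L0⟩
  set W : ℂ → ℝ := fun L => (WW n j L (x L)).im with hW
  have hpi := Real.pi_gt_three
  have hpi4 := Real.pi_lt_four
  set B : ℝ := 2 * j + 5 with hB
  set sp : ℤ := ⌊(W L0 + B) / (2 * Real.pi)⌋ + 1 with hsp
  set sm : ℤ := ⌈(W L0 - B) / (2 * Real.pi)⌉ - 1 with hsm
  have h2pi : 0 < 2 * Real.pi := by positivity
  have hsp1 : W L0 + B < 2 * Real.pi * sp := by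
    have h1 := Int.lt_floor_add_one ((W L0 + B) / (2 * Real.pi))
    rw [div_lt_iff₀ h2pi] at h1
    rw [hsp]
    push_cast
    linarith
  have hsp2 : 2 * Real.pi * sp ≤ W L0 + B + 2 * Real.pi := by
    have h1 := Int.floor_le ((W L0 + B) / (2 * Real.pi))
    rw [le_div_iff₀ h2pi] at h1
    rw [hsp]
    push_cast
    linarith
  have hsm1 : 2 * Real.pi * sm < W L0 - B := by
    have h1 := Int.ceil_lt_add_one ((W L0 - B) / (2 * Real.pi))
    rw [← sub_lt_iff_lt_add, lt_div_iff₀ h2pi] at h1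
    rw [hsm]
    push_cast
    linarith
  have hsm2 : W L0 - B - 2 * Real.pi ≤ 2 * Real.pi * sm := by
    have h1 := Int.le_ceil ((W L0 - B) / (2 * Real.pi))
    rw [div_le_iff₀ h2pi] at h1
    rw [hsm]
    push_cast
    linarith
  have hj0 : (0 : ℝ) ≤ j := Nat.cast_nonneg j
  set WS : Set ℂ := {L | L ∈ A1 ∧ Up n Λ j L (x L) sp ∧ ¬ Up n Λ j L (x L) sm} with hWS
  -- the reference point
  have hmem : L0 ∈ WS := by
    refine ⟨hL01, Or.inl ?_, ?_⟩
    · show W L0 - 2 * Real.pi * sp < -(2 * j + 5)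
      linarith
    · rintro (h | h)
      · have h' : W L0 - 2 * Real.pi * sm < -(2 * j + 5) := h
        linarith
      · have h' : |W L0 - 2 * Real.pi * sm| ≤ 2 * j + 5 := h.1
        have := (abs_le.1 h').2
        linarith
  -- on WS the neighbourhood inequalities are strict
  have hstrict : ∀ L ∈ WS, ‖log (zz n L j / zz n L0 j)‖ < 1 / 4 := by
    intro L hL
    obtain ⟨hL1, hup, hdn⟩ := hL
    refine lt_of_le_of_ne hL1.2.2.2 ?_
    intro heq
    have h1 := (hnear L hL1).2.2 heq
    have hT := (hnear L hL1).1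
    have hT0 := (hnear L0 hL01).1
    have hK := (hWEST n j L (x L) hT).2.2.2.2.1
    have hK0 := (hWEST n j L0 (x L0) hT0).2.2.2.2.1
    have hWL : W L = (x L).im + L.im + (KK n j L (x L)).im := by
      show (x L + L + KK n j L (x L)).im = _
      rw [add_im, add_im]
    have hWL0 : W L0 = (x L0).im + L0.im + (KK n j L0 (x L0)).im := by
      show (x L0 + L0 + KK n j L0 (x L0)).im = _
      rw [add_im, add_im]
    have h2 : W L ≤ W L0 + (2 * B + 2 * Real.pi) := by
      rcases hup with h | h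
      · have h' : W L - 2 * Real.pi * sp < -(2 * j + 5) := h
        linarith
      · have h' := (abs_le.1 h.1).2
        have h'' : W L - 2 * Real.pi * sp ≤ 2 * j + 5 := h'
        linarith
    have h3 : W L0 - (2 * B + 2 * Real.pi) ≤ W L := by
      by_contra h
      push Not at h
      apply hdn
      left
      show W L - 2 * Real.pi * sm < -(2 * j + 5)
      linarith
    have h4 : |L.im - L0.im| ≤ 1 := by
      have h5 : |(L - L0).im| ≤ ‖L - L0‖ := abs_im_le_norm _
      rw [sub_im] at h5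
      have h6 := hL1.2.1
      have h7 : ((1 : ℝ) / 2) ^ (j - 1) ≤ 1 := pow_le_one₀ (by norm_num) (by norm_num)
      linarith
    have h5 : |(x L).im - (x L0).im| ≤ 2 * B + 2 * Real.pi + 1 + 16 / 5 * j := by
      have e : (x L).im - (x L0).im = (W L - W L0) - (L.im - L0.im) -
          ((KK n j L (x L)).im - (KK n j L0 (x L0)).im) := by
        rw [hWL, hWL0]
        ring
      rw [e]
      have h6 := abs_le.1 h4
      have h7 := abs_le.1 hK
      have h8 := abs_le.1 hK0
      rw [abs_le]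
      constructor
      · linarith [h6.2, h7.2, h8.1]
      · linarith [h6.1, h7.1, h8.2]
    have h6 := hT0.norm_x
    have h7 : ‖x L0‖ ≤ 501 / 500 * |(x L0).im| := by
      have h8 := Complex.norm_le_abs_re_add_abs_im (x L0)
      have h9 := hT0.him
      linarith
    have h8 : (j : ℝ) + 1 ≤ 2 ^ j := by
      have := Nat.lt_two_pow_self (n := j)
      exact_mod_cast this
    have h9 : |(x L0).im| / 20 ≤ 2 * B + 2 * Real.pi + 1 + 16 / 5 * j := h1.trans h5
    nlinarith
  have hq0 : ∀ L ∈ A, zz n L j / zz n L0 j ≠ 0 := by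
    intro L hL
    exact div_ne_zero (zz_ne_zero hn2 hS.hj (hadm L hL).2.2.2)
      (zz_ne_zero hn2 hS.hj hr0)
  have hqc : Continuous (fun L => zz n L j / zz n L0 j) := (continuous_zz n j).div_const _
  -- WS is open in A
  have hopen : ∀ L ∈ WS, ∀ᶠ L' in 𝓝[A] L, L' ∈ WS := by
    intro L hL
    have hs := hstrict L hL
    obtain ⟨hL1, hup, hdn⟩ := hL
    obtain ⟨-, hb1, hb2⟩ := hBOOT n j L0 L hS hc0 (hadm L hL1.1).2.2.1 hL1.2
    have e1 : ∀ᶠ L' in 𝓝 L, ‖L' - L0‖ < (1 / 2) ^ (j - 1) := by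
      have hc : Continuous (fun L' : ℂ => ‖L' - L0‖) := by fun_prop
      exact hc.continuousAt.eventually (gt_mem_nhds hb1)
    have e2 : ∀ᶠ L' in 𝓝 L, ∀ i ∈ Finset.range j, 1 ≤ i →
        ‖zz n L' i - zz n L0 i‖ < (1 / 2) ^ (j - 1 - i) := by
      rw [Filter.eventually_all_finset]
      intro i hi
      by_cases h1 : 1 ≤ i
      · have hc : Continuous (fun L' : ℂ => ‖zz n L' i - zz n L0 i‖) :=
          ((continuous_zz n i).sub continuous_const).norm
        have := hc.continuousAt.eventually (gt_mem_nhds (hb2 i h1 (Finset.mem_range.1 hi)))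
        exact this.mono fun L' h _ => h
      · exact Eventually.of_forall fun L' h => absurd h h1
    have e3 : ∀ᶠ L' in 𝓝 L, ‖log (zz n L' j / zz n L0 j)‖ < 1 / 4 := by
      have hc : ContinuousAt (fun L' => ‖log (zz n L' j / zz n L0 j)‖) L :=
        (hqc.continuousAt.clog (slit_of_small (hq0 L hL1.1) hs.le)).norm
      exact hc.eventually (gt_mem_nhds hs)
    have e4 : ∀ᶠ L' in 𝓝[A] L, L' ∈ A1 := by
      filter_upwards [self_mem_nhdsWithin, mem_nhdsWithin_of_mem_nhds e1,
        mem_nhdsWithin_of_mem_nhds e2, mem_nhdsWithin_of_mem_nhds e3] with L' h0 h1 h2 h3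
      exact ⟨h0, h1.le, fun i hi1 hi2 => (h2 i (Finset.mem_range.2 hi2) hi1).le, h3.le⟩
    have e5 := (hUP n j Λ A1 x sp hΛ hxc hadm1 L hL1).1 hup
    have e6 := (hUP n j Λ A1 x sm hΛ hxc hadm1 L hL1).2 hdn
    rw [eventually_nhdsWithin_iff] at e5 e6
    filter_upwards [e4, mem_nhdsWithin_of_mem_nhds e5, mem_nhdsWithin_of_mem_nhds e6]
      with L' h1 h2 h3
    exact ⟨h1, h2 h1, h3 h1⟩
  -- WS is closed in A
  have hclosed : ∀ L ∈ A, L ∉ WS → ∀ᶠ L' in 𝓝[A] L, L' ∉ WS := by
    intro L hL hLW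
    by_cases hL1 : L ∈ A1
    · have hL1' : ¬ (Up n Λ j L (x L) sp ∧ ¬ Up n Λ j L (x L) sm) := fun h => hLW ⟨hL1, h⟩
      by_cases hup : Up n Λ j L (x L) sp
      · have hdn : Up n Λ j L (x L) sm := by
          by_contra h
          exact hL1' ⟨hup, h⟩
        have e6 := (hUP n j Λ A1 x sm hΛ hxc hadm1 L hL1).1 hdn
        rw [eventually_nhdsWithin_iff] at e6
        filter_upwards [mem_nhdsWithin_of_mem_nhds e6] with L' h1 h2
        exact h2.2.2 (h1 h2.1)
      · have e5 := (hUP n j Λ A1 x sp hΛ hxc hadm1 L hL1).2 hup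
        rw [eventually_nhdsWithin_iff] at e5
        filter_upwards [mem_nhdsWithin_of_mem_nhds e5] with L' h1 h2
        exact h1 h2.1 h2.2.1
    · -- NN fails at L, hence nearby
      suffices h : ∀ᶠ L' in 𝓝[A] L, ¬ NN n j L0 L' by
        filter_upwards [h] with L' h1 h2
        exact h1 h2.1.2
      have hN : ¬ NN n j L0 L := fun h => hL1 ⟨hL, h⟩
      by_contra hfr
      rw [not_eventually] at hfr
      simp only [not_not] at hfr
      apply hN
      refine ⟨?_, ?_, ?_⟩
      · by_contra h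
        push Not at h
        have hc : Continuous (fun L' : ℂ => ‖L' - L0‖) := by fun_prop
        have h1 := (hc.continuousAt.eventually (lt_mem_nhds h)).filter_mono
          (nhdsWithin_le_nhds (s := A))
        obtain ⟨L', h2, h3⟩ := (hfr.and_eventually h1).exists
        exact absurd h2.1 (not_le.2 h3)
      · intro i hi1 hi2
        by_contra h
        push Not at h
        have hc : Continuous (fun L' : ℂ => ‖zz n L' i - zz n L0 i‖) :=
          ((continuous_zz n i).sub continuous_const).norm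
        have h1 := (hc.continuousAt.eventually (lt_mem_nhds h)).filter_mono
          (nhdsWithin_le_nhds (s := A))
        obtain ⟨L', h2, h3⟩ := (hfr.and_eventually h1).exists
        exact absurd (h2.2.1 i hi1 hi2) (not_le.2 h3)
      · by_contra h
        rw [exp_log_small (hq0 L hL)] at h
        have h1 := (hqc.continuousAt.eventually (small_closed.isOpen_compl.mem_nhds h)).filter_mono
          (nhdsWithin_le_nhds (s := A))
        have h4 : ∀ᶠ L' in 𝓝[A] L, L' ∈ A := self_mem_nhdsWithin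
        obtain ⟨L', h2, h3, h5⟩ := (hfr.and_eventually (h1.and h4)).exists
        exact h3 ((exp_log_small (hq0 L' h5)).1 h2.2.2)
  -- conclusion
  classical
  have hcont : ContinuousOn (fun L => decide (L ∈ WS)) A := by
    intro L hL
    by_cases h : L ∈ WS
    · have h1 : ∀ᶠ L' in 𝓝[A] L, decide (L ∈ WS) = decide (L' ∈ WS) :=
        (hopen L h).mono fun L' h' => by simp [h, h']
      exact tendsto_const_nhds.congr' h1
    · have h1 : ∀ᶠ L' in 𝓝[A] L, decide (L ∈ WS) = decide (L' ∈ WS) :=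
        (hclosed L hL h).mono fun L' h' => by simp [h, h']
      exact tendsto_const_nhds.congr' h1
  obtain ⟨L1, hL1, hL2⟩ := hout
  have h1 := hA.constant hcont hL0 hL1
  have h2 : L1 ∈ WS := by
    have h3 : decide (L0 ∈ WS) = true := decide_eq_true hmem
    have h4 : decide (L1 ∈ WS) = true := h1.symm.trans h3
    exact of_decide_eq_true h4
  exact hL2 h2.1.2

end Pool.Agent.Limb
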