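import Pool.Agent.Limb.Targets

set_option autoImplicit false

/-!
# CUSPA: analytic lemma near the cusp
-/

open Complex Filter Topology Set
open Pool.Agent.Multibrot

namespace Pool.Agent.Limb

namespace CUSPA_

/-- first derivative -/
theorem dg_bound {g : ℂ → ℂ} (hg : ∀ u : ℂ, ‖u‖ < 3 → DifferentiableAt ℂ g u)
    (hgb : ∀ u : ℂ, ‖u‖ < 3 → ‖g u‖ ≤ 1 / 10 ^ 7 * ‖u‖) (v : ℂ) (hv : ‖v‖ ≤ 2) :
    ‖deriv g v‖ ≤ 1 / 10 ^ 6 := by
  have hin : ∀ z ∈ Metric.closedBall v (1 / 2), ‖z‖ < 3 := by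
    intro z hz
    rw [mem_closedBall_iff_norm] at hz
    have : ‖z‖ ≤ ‖z - v‖ + ‖v‖ := by
      calc ‖z‖ = ‖(z - v) + v‖ := by rw [sub_add_cancel]
        _ ≤ _ := norm_add_le _ _
    linarith
  have h1 := Complex.norm_deriv_le_of_forall_mem_sphere_norm_le (c := v) (R := 1 / 2)
    (C := 3 / 10 ^ 7) (f := g) (by norm_num)
    (DifferentiableOn.diffContOnCl_ball (U := Metric.closedBall v (1 / 2))
      (fun z hz => (hg z (hin z hz)).differentiableWithinAt) subset_rfl)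
    (fun z hz => by
      have h2 := hin z (Metric.sphere_subset_closedBall hz)
      refine (hgb z h2).trans ?_
      have : (1 : ℝ) / 10 ^ 7 * ‖z‖ ≤ 1 / 10 ^ 7 * 3 := by gcongr
      linarith)
  refine h1.trans ?_
  norm_num

theorem dg_diff {g : ℂ → ℂ} (hg : ∀ u : ℂ, ‖u‖ < 3 → DifferentiableAt ℂ g u) (v : ℂ)
    (hv : ‖v‖ < 3) : DifferentiableAt ℂ (deriv g) v := by
  have ho : IsOpen (Metric.ball (0 : ℂ) 3) := Metric.isOpen_ball
  have hd : DifferentiableOn ℂ g (Metric.ball (0 : ℂ) 3) := fun z hz =>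
    (hg z (by simpa using hz)).differentiableWithinAt
  exact (hd.deriv ho).differentiableAt (ho.mem_nhds (by simpa using hv))

/-- second derivative -/
theorem ddg_bound {g : ℂ → ℂ} (hg : ∀ u : ℂ, ‖u‖ < 3 → DifferentiableAt ℂ g u)
    (hgb : ∀ u : ℂ, ‖u‖ < 3 → ‖g u‖ ≤ 1 / 10 ^ 7 * ‖u‖) (v : ℂ) (hv : ‖v‖ ≤ 3 / 2) :
    ‖deriv (deriv g) v‖ ≤ 2 / 10 ^ 6 := by
  have hin : ∀ z ∈ Metric.closedBall v (1 / 2), ‖z‖ ≤ 2 := by
    intro z hz
    rw [mem_closedBall_iff_norm] at hz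
    have : ‖z‖ ≤ ‖z - v‖ + ‖v‖ := by
      calc ‖z‖ = ‖(z - v) + v‖ := by rw [sub_add_cancel]
        _ ≤ _ := norm_add_le _ _
    linarith
  have h1 := Complex.norm_deriv_le_of_forall_mem_sphere_norm_le (c := v) (R := 1 / 2)
    (C := 1 / 10 ^ 6) (f := deriv g) (by norm_num)
    (DifferentiableOn.diffContOnCl_ball (U := Metric.closedBall v (1 / 2))
      (fun z hz => (dg_diff hg z (lt_of_le_of_lt (hin z hz) (by norm_num))).differentiableWithinAt)
      subset_rfl)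
    (fun z hz => dg_bound hg hgb z (hin z (Metric.sphere_subset_closedBall hz)))
  refine h1.trans ?_
  norm_num

/-- the derivative of the equation -/
noncomputable def hK (g : ℂ → ℂ) (u y : ℂ) : ℂ := 1 - (u - y)⁻¹ - deriv g (u - y)

/-- the error term -/
noncomputable def er (g : ℂ → ℂ) (u ε y : ℂ) : ℂ := hK g u y - ε + y

section

variable {g : ℂ → ℂ} {u ε : ℂ}

theorem near (hu : ‖u - 1‖ ≤ 1 / 50) {y : ℂ} (hy : ‖y‖ ≤ 1 / 20) : ‖u - y - 1‖ ≤ 7 / 100 := by
  have : u - y - 1 = (u - 1) - y := by ring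
  rw [this]
  refine (norm_sub_le _ _).trans ?_
  linarith

theorem norms {w : ℂ} (hw : ‖w - 1‖ ≤ 7 / 100) :
    93 / 100 ≤ ‖w‖ ∧ ‖w‖ ≤ 107 / 100 ∧ ‖w + 1‖ ≤ 207 / 100 := by
  have h1 : ‖(1 : ℂ)‖ = 1 := norm_one
  refine ⟨?_, ?_, ?_⟩
  · have h2 : ‖(1 : ℂ)‖ ≤ ‖w‖ + ‖w - 1‖ := by
      calc ‖(1 : ℂ)‖ = ‖w - (w - 1)‖ := by congr 1; ring
        _ ≤ _ := norm_sub_le _ _
    linarith
  · have h2 : ‖w‖ ≤ ‖w - 1‖ + ‖(1 : ℂ)‖ := by
      calc ‖w‖ = ‖(w - 1) + 1‖ := by congr 1; ring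
        _ ≤ _ := norm_add_le _ _
    linarith
  · have h2 : ‖w + 1‖ ≤ ‖w - 1‖ + ‖(2 : ℂ)‖ := by
      calc ‖w + 1‖ = ‖(w - 1) + 2‖ := by congr 1; ring
        _ ≤ _ := norm_add_le _ _
    have h3 : ‖(2 : ℂ)‖ = 2 := by simp
    linarith

theorem er_deriv (hg : ∀ u : ℂ, ‖u‖ < 3 → DifferentiableAt ℂ g u) (hu : ‖u - 1‖ ≤ 1 / 50)
    {y : ℂ} (hy : ‖y‖ ≤ 1 / 20) :
    HasDerivAt (er g u ε) (-((u - y) ^ 2)⁻¹ + deriv (deriv g) (u - y) + 1) y := by
  have hn := norms (near hu hy)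
  have hne : u - y ≠ 0 := by
    intro h; rw [h, norm_zero] at hn; linarith [hn.1]
  have h0 : HasDerivAt (fun y => u - y) (-1) y := by
    simpa using (hasDerivAt_id y).const_sub u
  have h1 : HasDerivAt (fun y => (u - y)⁻¹) (-(-1) / (u - y) ^ 2) y := h0.inv hne
  have h2 : HasDerivAt (deriv g) (deriv (deriv g) (u - y)) (u - y) :=
    (dg_diff hg (u - y) (by linarith [hn.2.1])).hasDerivAt
  have h3 : HasDerivAt (fun y => deriv g (u - y)) (deriv (deriv g) (u - y) * (-1)) y :=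
    h2.comp y h0
  have h4 := (((h1.const_sub 1).sub h3).sub_const ε).add (hasDerivAt_id y)
  have h5 : -((u - y) ^ 2)⁻¹ + deriv (deriv g) (u - y) + 1 =
      -(-(-1) / (u - y) ^ 2) - deriv (deriv g) (u - y) * -1 + 1 := by
    rw [neg_neg, one_div]
    ring
  rw [h5]
  exact h4

theorem er_lip (hg : ∀ u : ℂ, ‖u‖ < 3 → DifferentiableAt ℂ g u)
    (hgb : ∀ u : ℂ, ‖u‖ < 3 → ‖g u‖ ≤ 1 / 10 ^ 7 * ‖u‖) (hu : ‖u - 1‖ ≤ 1 / 50)
    {y y' : ℂ} (hy : ‖y‖ ≤ 1 / 20) (hy' : ‖y'‖ ≤ 1 / 20) :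
    ‖er g u ε y - er g u ε y'‖ ≤ 17 / 100 * ‖y - y'‖ := by
  refine Convex.norm_image_sub_le_of_norm_hasDerivWithin_le (s := Metric.closedBall (0 : ℂ) (1 / 20))
    (f' := fun y => -((u - y) ^ 2)⁻¹ + deriv (deriv g) (u - y) + 1)
    (fun z hz => (er_deriv hg hu (by simpa using hz)).hasDerivWithinAt) (fun z hz => ?_)
    (convex_closedBall _ _) (by simpa using hy') (by simpa using hy)
  have hz' : ‖z‖ ≤ 1 / 20 := by simpa using hz
  have hw := near hu hz'
  have hn := norms hw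
  set w := u - z with hwd
  have hne : w ≠ 0 := by
    intro h; rw [h, norm_zero] at hn; linarith [hn.1]
  have h1 : -((w) ^ 2)⁻¹ + deriv (deriv g) w + 1 =
      (w - 1) * (w + 1) / w ^ 2 + deriv (deriv g) w := by
    field_simp
    ring
  show ‖-((w) ^ 2)⁻¹ + deriv (deriv g) w + 1‖ ≤ _
  rw [h1]
  have h2 := ddg_bound hg hgb w (by linarith [hn.2.1])
  have h3 : ‖(w - 1) * (w + 1) / w ^ 2‖ ≤ 1676 / 10000 := by
    rw [norm_div, norm_mul, norm_pow]
    rw [div_le_iff₀ (by nlinarith [hn.1])]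
    have h4 : ‖w - 1‖ * ‖w + 1‖ ≤ 7 / 100 * (207 / 100) :=
      mul_le_mul hw hn.2.2 (norm_nonneg _) (by norm_num)
    nlinarith [hn.1]
  refine (norm_add_le _ _).trans ?_
  have : (1676 : ℝ) / 10000 + 2 / 10 ^ 6 ≤ 17 / 100 := by norm_num
  linarith

theorem er_cont (hg : ∀ u : ℂ, ‖u‖ < 3 → DifferentiableAt ℂ g u) (hu : ‖u - 1‖ ≤ 1 / 50)
    {y : ℂ} (hy : ‖y‖ ≤ 1 / 20) :
    ContinuousOn (fun s : ℝ => er g u ε (s * y)) (uIcc 0 1) := by
  intro s hs
  rw [uIcc_of_le zero_le_one] at hs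
  have h1 : ‖(s : ℂ) * y‖ ≤ 1 / 20 := by
    rw [norm_mul, Complex.norm_real, Real.norm_of_nonneg hs.1]
    nlinarith [hs.1, hs.2, norm_nonneg y]
  have h2 : ContinuousAt (er g u ε) ((s : ℂ) * y) := (er_deriv hg hu h1).continuousAt
  have h3 : ContinuousAt (fun s : ℝ => (s : ℂ) * y) s := by fun_prop
  exact (ContinuousAt.comp (f := fun s : ℝ => (s : ℂ) * y) h2 h3).continuousWithinAt

/-- the averaged error -/
noncomputable def rr (g : ℂ → ℂ) (u ε y : ℂ) : ℂ := ∫ s in (0 : ℝ)..1, er g u ε (s * y)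

theorem rr_lip (hg : ∀ u : ℂ, ‖u‖ < 3 → DifferentiableAt ℂ g u)
    (hgb : ∀ u : ℂ, ‖u‖ < 3 → ‖g u‖ ≤ 1 / 10 ^ 7 * ‖u‖) (hu : ‖u - 1‖ ≤ 1 / 50)
    {y y' : ℂ} (hy : ‖y‖ ≤ 1 / 20) (hy' : ‖y'‖ ≤ 1 / 20) :
    ‖rr g u ε y - rr g u ε y'‖ ≤ 17 / 200 * ‖y - y'‖ := by
  unfold rr
  rw [← intervalIntegral.integral_sub (er_cont hg hu hy).intervalIntegrable
    (er_cont hg hu hy').intervalIntegrable]
  have h1 : ∫ s in (0 : ℝ)..1, 17 / 100 * ‖y - y'‖ * s = 17 / 200 * ‖y - y'‖ := by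
    rw [intervalIntegral.integral_const_mul, integral_id]
    ring
  rw [← h1]
  refine intervalIntegral.norm_integral_le_of_norm_le zero_le_one ?_ ?_
  · refine Filter.Eventually.of_forall fun s hs => ?_
    have hs0 : 0 ≤ s := hs.1.le
    have hs1 : s ≤ 1 := hs.2
    have hb : ∀ z : ℂ, ‖z‖ ≤ 1 / 20 → ‖(s : ℂ) * z‖ ≤ 1 / 20 := by
      intro z hz
      rw [norm_mul, Complex.norm_real, Real.norm_of_nonneg hs0]
      nlinarith [norm_nonneg z]
    refine (er_lip hg hgb hu (hb y hy) (hb y' hy')).trans ?_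
    rw [← mul_sub, norm_mul, Complex.norm_real, Real.norm_of_nonneg hs0]
    exact le_of_eq (by ring)
  · exact (by fun_prop : Continuous fun s : ℝ => 17 / 100 * ‖y - y'‖ * s).intervalIntegrable _ _

theorem er_zero (h : hK g u 0 = ε) : er g u ε 0 = 0 := by
  unfold er; rw [h]; ring

theorem rr_zero (h : hK g u 0 = ε) : rr g u ε 0 = 0 := by
  unfold rr
  simp [er_zero h]

/-- the equation as an integral -/
theorem eqn (hg : ∀ u : ℂ, ‖u‖ < 3 → DifferentiableAt ℂ g u) (hu : ‖u - 1‖ ≤ 1 / 50)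
    {y : ℂ} (hy : ‖y‖ ≤ 1 / 20) :
    log (1 - y / u) + y + g (u - y) - g u = y * (ε - y / 2 + rr g u ε y) := by
  have hu0 : u ≠ 0 := by
    have := norms (w := u) (hu.trans (by norm_num))
    intro h; rw [h, norm_zero] at this; linarith [this.1]
  have hun := norms (w := u) (hu.trans (by norm_num))
  have key : ∀ z : ℂ, ‖z‖ ≤ 1 / 20 →
      HasDerivAt (fun z => log (1 - z / u) + z + g (u - z)) (hK g u z) z := by
    intro z hz
    have hn := norms (near hu hz)
    have hne : u - z ≠ 0 := by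
      intro h; rw [h, norm_zero] at hn; linarith [hn.1]
    have h0 : HasDerivAt (fun z => u - z) (-1) z := by
      simpa using (hasDerivAt_id z).const_sub u
    have h1 : HasDerivAt (fun z => 1 - z / u) (-(1 / u)) z := by
      simpa using ((hasDerivAt_id z).div_const u).const_sub 1
    have hsl : 1 - z / u ∈ slitPlane := by
      rw [sub_eq_add_neg]
      apply Complex.mem_slitPlane_of_norm_lt_one
      rw [norm_neg, norm_div, div_lt_one (by linarith [hun.1])]
      linarith [hun.1]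
    have h2 : HasDerivAt (fun z => log (1 - z / u)) (-(1 / u) / (1 - z / u)) z := h1.clog hsl
    have h3 : HasDerivAt (fun z => g (u - z)) (deriv g (u - z) * (-1)) z :=
      (hg (u - z) (by linarith [hn.2.1])).hasDerivAt.comp z h0
    have h4 := (h2.add (hasDerivAt_id z)).add h3
    have h5 : 1 - z / u = (u - z) / u := by field_simp
    have h6 : hK g u z = -(1 / u) / (1 - z / u) + 1 + deriv g (u - z) * (-1) := by
      unfold hK
      rw [h5]
      field_simp
      ring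
    rw [h6]
    exact h4
  have hs : ∀ s ∈ uIcc (0 : ℝ) 1, ‖(s : ℂ) * y‖ ≤ 1 / 20 := by
    intro s hs
    rw [uIcc_of_le zero_le_one] at hs
    rw [norm_mul, Complex.norm_real, Real.norm_of_nonneg hs.1]
    nlinarith [hs.1, hs.2, norm_nonneg y]
  have hd : ∀ s ∈ uIcc (0 : ℝ) 1, HasDerivAt
      (fun s : ℝ => log (1 - (s * y) / u) + (s * y) + g (u - (s * y))) (hK g u (s * y) * y) s := by
    intro s hs'
    have h1 : HasDerivAt (fun z : ℂ => z * y) y (s : ℂ) := by
      simpa using (hasDerivAt_id (s : ℂ)).mul_const y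
    exact ((key _ (hs s hs')).comp (s : ℂ) h1).comp_ofReal
  have hKe : ∀ s : ℝ, hK g u (s * y) * y = y * ε - y * y * s + y * er g u ε (s * y) := by
    intro s
    unfold er
    ring
  have hci : IntervalIntegrable (fun s : ℝ => y * er g u ε (s * y)) MeasureTheory.volume 0 1 :=
    ((er_cont hg hu hy).const_mul y).intervalIntegrable
  have hci2 : IntervalIntegrable (fun s : ℝ => y * ε - y * y * (s : ℂ)) MeasureTheory.volume 0 1 :=
    (by fun_prop : Continuous fun s : ℝ => y * ε - y * y * (s : ℂ)).intervalIntegrable _ _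
  have hi := intervalIntegral.integral_eq_sub_of_hasDerivAt hd (by
    simp only [hKe]
    exact hci2.add hci)
  simp only [hKe] at hi
  rw [intervalIntegral.integral_add hci2 hci, intervalIntegral.integral_const_mul,
    intervalIntegral.integral_sub ((by fun_prop : Continuous fun _ : ℝ => y * ε).intervalIntegrable _ _)
      ((by fun_prop : Continuous fun s : ℝ => y * y * (s : ℂ)).intervalIntegrable _ _),
    intervalIntegral.integral_const_mul, intervalIntegral.integral_const,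
    intervalIntegral.integral_const_mul, intervalIntegral.integral_ofReal, integral_id] at hi
  have h0 : log (1 - ((0 : ℝ) : ℂ) * y / u) + ((0 : ℝ) : ℂ) * y + g (u - ((0 : ℝ) : ℂ) * y) = g u := by
    simp
  have h1 : log (1 - ((1 : ℝ) : ℂ) * y / u) + ((1 : ℝ) : ℂ) * y + g (u - ((1 : ℝ) : ℂ) * y) =
      log (1 - y / u) + y + g (u - y) := by
    simp
  rw [h0, h1] at hi
  rw [← hi]
  unfold rr
  simp only [sub_zero, one_smul]
  push_cast
  ring

end

end CUSPA_

open CUSPA_ in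
theorem p_CUSPA : T_CUSPA := by
  intro g hg hgb u t hu ht ht' h
  -- the small real parameter
  set e : ℝ := t / (1 + t) with he
  have he0 : 0 < e := by positivity
  have he1 : e ≤ 1 / 51 := by
    rw [he, div_le_div_iff₀ (by linarith) (by norm_num)]
    linarith
  have h0 : hK g u 0 = (e : ℂ) := by
    unfold hK
    have h1 : (1 : ℂ) + (t : ℂ) ≠ 0 := by
      have : ((1 + t : ℝ) : ℂ) ≠ 0 := by
        rw [Ne, Complex.ofReal_eq_zero]; linarith
      simpa using this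
    have h2 : (u - 0)⁻¹ = 1 / u := by rw [sub_zero, one_div]
    rw [h2, sub_zero, sub_sub, h, he]
    push_cast
    field_simp
    ring
  have hrr : ∀ y : ℂ, ‖y‖ ≤ 1 / 20 → ‖rr g u e y‖ ≤ 17 / 200 * ‖y‖ := by
    intro y hy
    have h1 := rr_lip (ε := (e : ℂ)) hg hgb hu hy (y' := 0) (by rw [norm_zero]; norm_num)
    rwa [rr_zero h0, sub_zero, sub_zero] at h1
  have her : ∀ y : ℂ, ‖y‖ ≤ 1 / 20 → ‖er g u e y‖ ≤ 17 / 100 * ‖y‖ := by
    intro y hy
    have h1 := er_lip (ε := (e : ℂ)) hg hgb hu hy (y' := 0) (by rw [norm_zero]; norm_num)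
    rwa [er_zero h0, sub_zero, sub_zero] at h1
  set S : Set ℂ := Metric.closedBall (2 * (e : ℂ)) (42 / 100 * e) with hS
  have hSn : ∀ y ∈ S, ‖y‖ ≤ 242 / 100 * e := by
    intro y hy
    rw [hS, mem_closedBall_iff_norm] at hy
    have h1 : ‖y‖ ≤ ‖y - 2 * (e : ℂ)‖ + ‖2 * (e : ℂ)‖ := by
      calc ‖y‖ = ‖(y - 2 * (e : ℂ)) + 2 * (e : ℂ)‖ := by rw [sub_add_cancel]
        _ ≤ _ := norm_add_le _ _
    have h2 : ‖2 * (e : ℂ)‖ = 2 * e := by
      rw [norm_mul, Complex.norm_real, Real.norm_of_nonneg he0.le]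
      simp
    linarith
  have hSn' : ∀ y ∈ S, ‖y‖ ≤ 1 / 20 := by
    intro y hy
    have := hSn y hy
    linarith
  set N : ℂ → ℂ := fun y => 2 * (e : ℂ) + 2 * rr g u e y with hN
  have hmaps : MapsTo N S S := by
    intro y hy
    rw [hS, mem_closedBall_iff_norm, hN]
    have h1 : 2 * (e : ℂ) + 2 * rr g u e y - 2 * (e : ℂ) = 2 * rr g u e y := by ring
    show ‖2 * (e : ℂ) + 2 * rr g u e y - 2 * (e : ℂ)‖ ≤ _
    rw [h1, norm_mul]
    have h2 := hrr y (hSn' y hy)
    have h3 := hSn y hy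
    have h4 : ‖(2 : ℂ)‖ = 2 := by simp
    rw [h4]
    linarith
  have hcontr : ContractingWith (17 / 100 : NNReal) (hmaps.restrict N S S) := by
    refine ⟨?_, ?_⟩
    · rw [← NNReal.coe_lt_coe]
      norm_num
    · refine LipschitzWith.of_dist_le_mul fun y y' => ?_
      rw [Subtype.dist_eq, Subtype.dist_eq, dist_eq_norm, dist_eq_norm]
      show ‖(2 * (e : ℂ) + 2 * rr g u e y) - (2 * (e : ℂ) + 2 * rr g u e y')‖ ≤ _
      have h1 : (2 * (e : ℂ) + 2 * rr g u e y) - (2 * (e : ℂ) + 2 * rr g u e y') =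
          2 * (rr g u e y - rr g u e y') := by ring
      have h2 := rr_lip (ε := (e : ℂ)) hg hgb hu (hSn' y y.2) (hSn' y' y'.2)
      have h4 : ‖(2 : ℂ)‖ = 2 := by simp
      rw [h1, norm_mul, h4]
      push_cast
      linarith
  obtain ⟨y, hyS, hyN, -, -⟩ := hcontr.exists_fixedPoint' (Metric.isClosed_closedBall.isComplete)
    hmaps (x := 2 * (e : ℂ)) (by rw [hS]; exact Metric.mem_closedBall_self (by positivity))
    (edist_ne_top _ _)
  have hy := hSn' y hyS
  have hfix : (e : ℂ) - y / 2 + rr g u e y = 0 := by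
    have h1 : 2 * (e : ℂ) + 2 * rr g u e y = y := hyN
    linear_combination (1 / 2) * h1
  have heq := eqn (ε := (e : ℂ)) hg hu hy
  rw [hfix, mul_zero] at heq
  have hun := norms (w := u) (hu.trans (by norm_num))
  have hu0 : u ≠ 0 := by
    intro h; rw [h, norm_zero] at hun; linarith [hun.1]
  have hvn := norms (near hu hy)
  have hv0 : u - y ≠ 0 := by
    intro h; rw [h, norm_zero] at hvn; linarith [hvn.1]
  refine ⟨u - y, (near hu hy).trans (by norm_num), ?_, ?_⟩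
  · have h1 : 1 - y / u ≠ 0 := by
      have : 1 - y / u = (u - y) / u := by field_simp
      rw [this]
      exact div_ne_zero hv0 hu0
    have h2 : u - y = u * exp (g u - g (u - y) - y) := by
      have h3 : g u - g (u - y) - y = log (1 - y / u) := by linear_combination -heq
      rw [h3, Complex.exp_log h1]
      field_simp
    have h3 : exp (g u - u) = exp (g u - g (u - y) - y) * exp (g (u - y) - (u - y)) := by
      rw [← Complex.exp_add]
      congr 1
      ring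
    rw [h3, ← mul_assoc, ← h2]
  · have h1 : 1 / (u - y) + deriv g (u - y) = 1 - (er g u e y + e - y) := by
      unfold er hK
      rw [one_div]
      ring
    rw [h1]
    have h2 : (1 - (er g u e y + e - y)).re ≤ ‖1 - (er g u e y + e - y)‖ := Complex.re_le_norm _
    refine lt_of_lt_of_le ?_ h2
    simp only [Complex.sub_re, Complex.add_re, Complex.one_re, Complex.ofReal_re]
    have h3 : (er g u e y).re ≤ 17 / 100 * (242 / 100 * e) :=
      (Complex.re_le_norm _).trans ((her y hy).trans (by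
        have := hSn y hyS
        linarith))
    have h4 : 158 / 100 * e ≤ y.re := by
      have h5 : |(y - 2 * (e : ℂ)).re| ≤ 42 / 100 * e :=
        (Complex.abs_re_le_norm _).trans (by
          have := hyS
          rwa [hS, mem_closedBall_iff_norm] at this)
      have h6 : (y - 2 * (e : ℂ)).re = y.re - 2 * e := by simp
      rw [h6] at h5
      have := (abs_le.1 h5).1
      linarith
    linarith

end Pool.Agent.Limb
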