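import Pool.Agent.Limb.Targets

/-!
# LIMB: a stage near `0`
-/

set_option autoImplicit false

open Complex Filter Topology Set
open Pool.Agent.Multibrot

namespace Pool.Agent.Limb

namespace DISCST_

theorem mul_psi (v : ℂ) : v * psi v = exp v - 1 := by
  unfold psi
  split_ifs with h
  · rw [h]
    simp
  · field_simp

theorem mul_phi (y : ℂ) : y * phi y = log (1 + y) := by
  unfold phi
  split_ifs with h
  · rw [h]
    simp
  · field_simp

end DISCST_

open DISCST_ in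
theorem p_DISCST (h1 : T_PSI) (h2 : T_PHI) : T_DISCST := by
  intro n z U hn hz hzn hU
  have hnpos : (0 : ℝ) < n := lt_of_lt_of_le (by positivity) hn
  have hn0 : (n : ℂ) ≠ 0 := by
    have : (n : ℝ) ≠ 0 := hnpos.ne'
    exact_mod_cast this
  have hzpos : (0 : ℝ) < ‖z‖ := lt_of_lt_of_le (by positivity) hz
  have hz0 : z ≠ 0 := norm_pos_iff.1 hzpos
  set v : ℂ := U / n with hv
  set y : ℂ := (1 + n / z) * (exp v - 1) with hy
  have hUv : U = n * v := by
    rw [hv]
    field_simp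
  have hvn : ‖v‖ = ‖U‖ / n := by
    rw [hv, norm_div, norm_natCast]
  have hv1 : ‖v‖ ≤ 1 / 10 ^ 20 * ‖U‖ := by
    rw [hvn, div_le_iff₀ hnpos]
    have : 0 ≤ ‖U‖ := norm_nonneg _
    nlinarith
  have hU0 : 0 ≤ ‖U‖ := norm_nonneg _
  have hv2 : ‖v‖ ≤ 3 / 10 ^ 20 := by
    refine hv1.trans ?_
    have := hU.le
    norm_num at this ⊢
    linarith
  have hexp : ‖exp v - 1‖ ≤ 2 * ‖v‖ :=
    Complex.norm_exp_sub_one_le (hv2.trans (by norm_num))
  have hyn : ‖y‖ ≤ 21 / 10 ^ 9 * ‖U‖ := by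
    have e1 : ‖1 + (n : ℂ) / z‖ ≤ 1 + n / 10 ^ 8 := by
      refine (norm_add_le _ _).trans ?_
      rw [norm_one, norm_div, norm_natCast]
      gcongr
    calc ‖y‖ = ‖1 + (n : ℂ) / z‖ * ‖exp v - 1‖ := norm_mul _ _
      _ ≤ (1 + n / 10 ^ 8) * (2 * ‖v‖) := by gcongr
      _ = 2 * ‖v‖ + 2 * (n * ‖v‖) / 10 ^ 8 := by ring
      _ = 2 * ‖v‖ + 2 * ‖U‖ / 10 ^ 8 := by
          rw [hvn]
          field_simp
      _ ≤ 2 * (1 / 10 ^ 20 * ‖U‖) + 2 * ‖U‖ / 10 ^ 8 := by gcongr
      _ ≤ 21 / 10 ^ 9 * ‖U‖ := by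
          norm_num
          linarith
  have hy1 : ‖y‖ ≤ 1 / 10 ^ 6 := by
    refine hyn.trans ?_
    have := hU.le
    norm_num at this ⊢
    linarith
  have hslit : 1 + y ∈ slitPlane := by
    left
    have e1 : |y.re| ≤ ‖y‖ := Complex.abs_re_le_norm y
    have e2 := (abs_le.1 e1).1
    simp only [add_re, one_re]
    norm_num at hy1
    linarith
  have hvim : |v.im| < Real.pi := by
    have e1 : |v.im| ≤ ‖v‖ := Complex.abs_im_le_norm v
    have := Real.pi_gt_three
    norm_num at hv2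
    linarith
  have hpsi := h1.2.1 v hvim
  have hphi := h2.2.1 y hslit
  have hpsi0 : psi v ≠ 0 := slitPlane_ne_zero hpsi.1
  have hphi0 : phi y ≠ 0 := slitPlane_ne_zero hphi.1
  have hhdef : hh n z U = log (1 + y) := rfl
  have htdef : tau n z U = log (phi y) + log (psi v) := rfl
  have hlog : ‖log (1 + y)‖ ≤ 3 / 10 ^ 8 * ‖U‖ := by
    have e1 := Complex.norm_log_one_add_le (z := y) (lt_of_le_of_lt hy1 (by norm_num))
    have e2 : ‖y‖ ^ 2 * (1 - ‖y‖)⁻¹ / 2 ≤ ‖y‖ * (1 / 10 ^ 5) := by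
      have e3 : (1 - ‖y‖)⁻¹ ≤ 2 := by
        rw [inv_le_comm₀ _ (by norm_num)]
        · norm_num at hy1 ⊢
          linarith
        · norm_num at hy1
          linarith
      have e4 : 0 ≤ ‖y‖ := norm_nonneg _
      calc ‖y‖ ^ 2 * (1 - ‖y‖)⁻¹ / 2 ≤ ‖y‖ ^ 2 * 2 / 2 := by gcongr
        _ = ‖y‖ * ‖y‖ := by ring
        _ ≤ ‖y‖ * (1 / 10 ^ 5) := by
            refine mul_le_mul_of_nonneg_left (hy1.trans ?_) e4
            norm_num
    refine e1.trans ?_
    norm_num at e2 hyn ⊢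
    linarith
  have htau : ‖tau n z U‖ ≤ 3 / 10 ^ 8 * ‖U‖ := by
    rw [htdef]
    refine (norm_add_le _ _).trans ?_
    have e1 := h2.2.2 y (hy1.trans (by norm_num))
    have e2 := h1.2.2.1 v (hv2.trans (by norm_num))
    norm_num at e1 e2 hyn hv1 ⊢
    linarith
  refine ⟨hslit, hhdef ▸ hlog, htau, ?_, ?_, ?_⟩
  · have e1 : exp (tau n z U) = phi y * psi v := by
      rw [htdef, exp_add, exp_log hphi0, exp_log hpsi0]
    rw [e1, hhdef, ← mul_phi y]
    have e2 : n * (exp v - 1) = U * psi v := by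
      rw [← mul_psi v, hUv]
      ring
    have e3 : (1 : ℂ) + z / n ≠ 0 := by
      intro h
      apply hzn
      have : (n : ℂ) * (1 + z / n) = 0 := by rw [h, mul_zero]
      rw [mul_add, mul_one, mul_div_cancel₀ _ hn0] at this
      linear_combination this
    have e4 : z / (1 + z / n) * (1 + n / z) = n := by
      rw [div_mul_eq_mul_div, div_eq_iff e3]
      field_simp
      ring
    calc U * (phi y * psi v) = (U * psi v) * phi y := by ring
      _ = (n * (exp v - 1)) * phi y := by rw [e2]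
      _ = (z / (1 + z / n) * (1 + n / z)) * (exp v - 1) * phi y := by rw [e4]
      _ = z / (1 + z / n) * (y * phi y) := by rw [hy]; ring
  · have e1 : DifferentiableAt ℂ (fun W : ℂ => 1 + (1 + n / z) * (exp (W / n) - 1)) U := by
      fun_prop
    exact e1.clog hslit
  · have e1 : DifferentiableAt ℂ (fun W : ℂ => (1 + n / z) * (exp (W / n) - 1)) U := by
      fun_prop
    have e2 : DifferentiableAt ℂ (fun W : ℂ => phi ((1 + n / z) * (exp (W / n) - 1))) U :=
      DifferentiableAt.comp (g := phi) U (h2.1 y hslit) e1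
    have e3 : DifferentiableAt ℂ (fun W : ℂ => W / (n : ℂ)) U := by fun_prop
    have e4 : DifferentiableAt ℂ (fun W : ℂ => psi (W / n)) U :=
      DifferentiableAt.comp (g := psi) U (h1.1 v) e3
    exact (e2.clog hphi.1).add (e4.clog hpsi.1)

end Pool.Agent.Limb
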