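import Pool.Agent.Multibrot.Coarse

/-!
# LIMB: definitions

`f_c(z) = z ^ n + c`, parameter `c = exp ((L - log n) / (n - 1))`, point `Z = c (1 + w / n)`
(the `w`-plane, critical value `w = 0`, critical point `w = - n`), `E w = exp L * (1 + w / n) ^ n`.
-/

set_option autoImplicit false

open Complex Filter Topology Set
open Pool.Agent.Multibrot

namespace Pool.Agent.Limb

/-! ### the dynamical planes -/

/-- The polynomial `z ↦ z ^ n + c`. -/
noncomputable def F (n : ℕ) (c z : ℂ) : ℂ := z ^ n + c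

/-- No cycle of period `≤ m` has a multiplier of modulus `≤ 1`. -/
def NR (n m : ℕ) (c : ℂ) : Prop :=
  ∀ p, 1 ≤ p → p ≤ m → ∀ z : ℂ, (F n c)^[p] z = z → 1 < ‖deriv ((F n c)^[p]) z‖

/-- `ell n L = (L - log n) / (n - 1)`, a logarithm of the parameter. -/
noncomputable def ell (n : ℕ) (L : ℂ) : ℂ := (L - (Real.log n : ℝ)) / ((n : ℂ) - 1)

/-- The parameter. -/
noncomputable def cc (n : ℕ) (L : ℂ) : ℂ := exp (ell n L)

/-- The polynomial in the `w`-plane. -/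
noncomputable def E (n : ℕ) (L w : ℂ) : ℂ := exp L * (1 + w / n) ^ n

/-- The orbit of the critical value `0`. -/
noncomputable def zz (n : ℕ) (L : ℂ) (i : ℕ) : ℂ := (E n L)^[i] 0

/-! ### the inverse chain -/

/-- One step of the inverse chain at the point `z = z_i`: from `U_i` to `U_{i-1}`. -/
noncomputable def hh (n : ℕ) (z U : ℂ) : ℂ := log (1 + (1 + n / z) * (exp (U / n) - 1))

/-- `U_0` as a function of `U = U_k`. -/
noncomputable def VV (n : ℕ) (L : ℂ) : ℕ → ℂ → ℂ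
  | 0, U => U
  | k + 1, U => VV n L k (hh n (zz n L (k + 1)) U)

/-- `U_0 + ... + U_k` as a function of `U = U_k`. -/
noncomputable def SS (n : ℕ) (L : ℂ) : ℕ → ℂ → ℂ
  | 0, U => U
  | k + 1, U => U + SS n L k (hh n (zz n L (k + 1)) U)

/-- `(exp v - 1) / v`. -/
noncomputable def psi (v : ℂ) : ℂ := if v = 0 then 1 else (exp v - 1) / v

/-- `log (1 + y) / y`. -/
noncomputable def phi (y : ℂ) : ℂ := if y = 0 then 1 else log (1 + y) / y

/-- The logarithmic correction of one step. -/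
noncomputable def tau (n : ℕ) (z U : ℂ) : ℂ :=
  log (phi ((1 + n / z) * (exp (U / n) - 1))) + log (psi (U / n))

/-- The function `g`: `U * exp (GG n L k U) = DD n L k * W0 n L k U`. -/
noncomputable def GG (n : ℕ) (L : ℂ) : ℕ → ℂ → ℂ
  | 0, U => log (psi (U / n))
  | k + 1, U => GG n L k (hh n (zz n L (k + 1)) U) + tau n (zz n L (k + 1)) U

/-- The point `w_0` of the cycle as a function of `U = U_k`. -/
noncomputable def W0 (n : ℕ) (L : ℂ) (k : ℕ) (U : ℂ) : ℂ := n * (exp (VV n L k U / n) - 1)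

/-- `∏_{1 ≤ i ≤ k} z_i / (1 + z_i / n)`. -/
noncomputable def DD (n : ℕ) (L : ℂ) (k : ℕ) : ℂ :=
  ∏ i ∈ Finset.range k, (zz n L (i + 1) / (1 + zz n L (i + 1) / n))

/-! ### towers -/

/-- The first `j - 1` points of the critical orbit are in the right half plane and grow. -/
structure Low (n j : ℕ) (L : ℂ) : Prop where
  hn : (10 : ℝ) ^ 20 ≤ n
  hj : 1 ≤ j
  h1 : (10 : ℝ) ^ 8 ≤ ‖zz n L 1‖
  hgr : ∀ i, 1 ≤ i → i < j → 2 * ‖zz n L i‖ ≤ ‖zz n L (i + 1)‖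
  hre : ∀ i, 1 ≤ i → i < j → 0 ≤ (zz n L i).re

/-- In addition `z_j = n (exp (x / n) - 1)` with `x` nearly imaginary. -/
structure Tow (n j : ℕ) (L x : ℂ) : Prop extends Low n j L where
  hx : zz n L j = n * (exp (x / n) - 1)
  him : |x.re| ≤ |x.im| / 500
  hle : |x.im| ≤ 4 * n

/-- A logarithm of `n (exp (x / n) - 1)`. -/
noncomputable def zeta (n : ℕ) (x : ℂ) : ℂ :=
  (Real.log n : ℝ) + x / (2 * n) + log (2 * sinh (x / (2 * n)))

/-- A logarithm of `DD n L j`. -/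
noncomputable def KK (n j : ℕ) (L x : ℂ) : ℂ :=
  ∑ i ∈ Finset.range (j - 1), (log (zz n L (i + 1)) - log (1 + zz n L (i + 1) / n)) +
    (zeta n x - x / n)

/-- A logarithm of `zz n L (j + 1) * DD n L j`. -/
noncomputable def WW (n j : ℕ) (L x : ℂ) : ℂ := x + L + KK n j L x

/-- The domain of `U_j`. -/
def TT (x : ℂ) : Set ℂ := {u | -(‖x‖ / 80) < u.re ∧ |u.im| < ‖x‖ / 50}

/-- The domain of `U_i`, `i < j`. -/
def QQ : Set ℂ := {U | -(1 / 5 : ℝ) < U.re ∧ |U.im| < 2}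

/-! ### types -/

/-- `n log ((1 + w / n) / (1 + z / n))`. -/
noncomputable def ui (n : ℕ) (z w : ℂ) : ℂ := n * log ((1 + w / n) / (1 + z / n))

/-- `arg` of the multiplier minus `2 π s`, on a suitable branch. -/
noncomputable def beta (n j : ℕ) (L x w : ℂ) (s : ℤ) : ℝ :=
  (WW n j L x).im - 2 * Real.pi * s +
    (1 - 1 / (n : ℝ)) * ∑ i ∈ Finset.range (j + 1), (ui n (zz n L i) ((E n L)^[i] w)).im

/-- Closed type. -/
def Tcl (n j : ℕ) (L x w : ℂ) (s : ℤ) : Prop :=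
  (∀ i, i < j → ‖ui n (zz n L i) ((E n L)^[i] w)‖ ≤ 1) ∧
    ‖ui n (zz n L j) ((E n L)^[j] w)‖ ≤ ‖x‖ / 100 ∧
    0 ≤ beta n j L x w s ∧ beta n j L x w s ≤ 2 * Real.pi

/-- Open type. -/
def Top' (n j : ℕ) (L x w : ℂ) (s : ℤ) : Prop :=
  (∀ i, i < j → ‖ui n (zz n L i) ((E n L)^[i] w)‖ < 1) ∧
    ‖ui n (zz n L j) ((E n L)^[j] w)‖ < ‖x‖ / 100 ∧
    0 < beta n j L x w s ∧ beta n j L x w s < 2 * Real.pi

/-- The integers `s_i` (`i < j`), as real numbers: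
`n log (1 + z_i / n) = log z_{i+1} - L + 2 π i s_i` for `i < j - 1`, and with `zeta n x` in place
of `log z_j` for `i = j - 1`. -/
noncomputable def sI (n j : ℕ) (L x : ℂ) (i : ℕ) : ℝ :=
  (n * log (1 + zz n L i / n) - (if i = j - 1 then zeta n x else log (zz n L (i + 1))) + L).im /
    (2 * Real.pi)

/-- The angle `θ_0` of the ray with itinerary `s_0, ..., s_{j-1}, s`. -/
noncomputable def th (n j : ℕ) (L x : ℂ) (s : ℤ) : ℝ :=
  (∑ i ∈ Finset.range j, sI n j L x i * (n : ℝ) ^ (j - i) + s) / ((n : ℝ) ^ (j + 1) - 1)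

/-! ### external rays -/

/-- `exp (Λ c s)` is the inverse Böttcher map of `f_c` at `exp s`. -/
structure IsExt (n : ℕ) (Λ : ℂ → ℂ → ℂ) : Prop where
  cont : ContinuousOn (fun q : ℂ × ℂ => Λ q.1 q.2) (MM n ×ˢ {s : ℂ | 0 < s.re})
  diff : ∀ c ∈ MM n, DifferentiableOn ℂ (Λ c) {s : ℂ | 0 < s.re}
  func : ∀ c ∈ MM n, ∀ s : ℂ, 0 < s.re → exp (n * Λ c s) = exp (Λ c (n * s)) - c
  rot : ∀ c ∈ MM n, ∀ s : ℂ, 0 < s.re →
    Λ c (s + 2 * Real.pi * I / n) = Λ c s + 2 * Real.pi * I / n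
  near : ∀ c ∈ MM n, ∀ s : ℂ, 2 ≤ s.re → ‖Λ c s - s‖ ≤ Real.exp (-s.re)
  inj : ∀ c ∈ MM n, ∀ s t : ℂ, 0 < s.re → 0 < t.re → exp (Λ c s) = exp (Λ c t) →
    ∃ k : ℤ, s - t = k * (2 * Real.pi * I)
  bdd : ∀ c ∈ MM n, ∀ s : ℂ, 0 < s.re → ‖exp (Λ c s)‖ ≤ 4 * Real.exp s.re

/-- The ray of angle `θ`. -/
noncomputable def ray (Λ : ℂ → ℂ → ℂ) (c : ℂ) (θ t : ℝ) : ℂ :=
  exp (Λ c (t + 2 * Real.pi * θ * I))

/-- Its landing point. -/
noncomputable def land (Λ : ℂ → ℂ → ℂ) (c : ℂ) (θ : ℝ) : ℂ :=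
  limUnder (𝓝[>] (0 : ℝ)) (ray Λ c θ)

/-- The landing point of the ray with itinerary `s_0, ..., s_{j-1}, s`, in the `w`-plane. -/
noncomputable def wl (n : ℕ) (Λ : ℂ → ℂ → ℂ) (j : ℕ) (L x : ℂ) (s : ℤ) : ℂ :=
  n * (land Λ (cc n L) (th n j L x s) / cc n L - 1)

/-- The ray position relative to `z`: a branch of `n log ((1 + w(t) / n) / (1 + z / n))`. -/
noncomputable def xi (n : ℕ) (Λ : ℂ → ℂ → ℂ) (L s : ℂ) : ℂ := n * (Λ (cc n L) s - ell n L)

end Pool.Agent.Limb
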