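import Pool.Agent.Limb.Targets

/-!
# LIMB: EX0, the inverse Böttcher map near infinity
-/

set_option autoImplicit false

open Complex Filter Topology Set
open Pool.Agent.Multibrot

namespace Pool.Agent.Limb

namespace EX0_

/-- The approximations of `Λ c s - s`. -/
noncomputable def d (n : ℕ) : ℕ → ℂ → ℂ → ℂ
  | 0, _, _ => 0
  | k + 1, c, s => d n k c (n * s) / n + log (1 - c * exp (-(n * s) - d n k c (n * s))) / n

lemma re_nat_mul (n : ℕ) (s : ℂ) : ((n : ℂ) * s).re = n * s.re := by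
  rw [mul_re, natCast_re, natCast_im, zero_mul, sub_zero]

lemma re_big {n : ℕ} (hn : 2 ≤ n) {s : ℂ} (hs : (3 / 2 : ℝ) < s.re) :
    2 * s.re ≤ ((n : ℂ) * s).re := by
  rw [re_nat_mul]
  have : (2 : ℝ) ≤ n := by exact_mod_cast hn
  nlinarith

lemma re_dom {n : ℕ} (hn : 2 ≤ n) {s : ℂ} (hs : (3 / 2 : ℝ) < s.re) :
    (3 / 2 : ℝ) < ((n : ℂ) * s).re := by
  have := re_big hn hs
  linarith

lemma exp_neg_three : Real.exp (-3) ≤ 1 / 20 := by
  have h1 := Real.exp_one_gt_d9
  have h2 : Real.exp 3 = Real.exp 1 ^ 3 := by rw [← Real.exp_nat_mul]; norm_num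
  have h3 : (20 : ℝ) ≤ Real.exp 3 := by
    rw [h2]
    have h4 : (2.7182818283 : ℝ) ^ 3 ≤ Real.exp 1 ^ 3 := pow_le_pow_left₀ (by norm_num) h1.le 3
    refine le_trans ?_ h4
    norm_num
  rw [Real.exp_neg, one_div]
  exact inv_anti₀ (by norm_num) h3

lemma exp_neg_32 : Real.exp (-(3 / 2)) ≤ 1 / 4 := by
  have h1 : Real.exp (-(3 / 2)) ^ 2 = Real.exp (-3) := by
    rw [← Real.exp_nat_mul]; norm_num
  have h2 := exp_neg_three
  have h3 : 0 < Real.exp (-(3 / 2)) := Real.exp_pos _
  by_contra hcon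
  push Not at hcon
  nlinarith

lemma exp_20 : Real.exp (1 / 20) ≤ 11 / 10 := by
  have h1 := Real.one_sub_le_exp_neg (1 / 20)
  rw [Real.exp_neg] at h1
  have h2 : 0 < Real.exp (1 / 20) := Real.exp_pos _
  have h3 : Real.exp (1 / 20) * (1 - 1 / 20) ≤ 1 := by
    calc Real.exp (1 / 20) * (1 - 1 / 20) ≤ Real.exp (1 / 20) * (Real.exp (1 / 20))⁻¹ :=
          mul_le_mul_of_nonneg_left h1 h2.le
      _ = 1 := mul_inv_cancel₀ h2.ne'
  linarith

/-- The size of `y`. -/
lemma y_bd {c t a : ℂ} (hc : ‖c‖ ≤ 2) (ha : ‖a‖ ≤ 1 / 20) :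
    ‖c * exp (-t - a)‖ ≤ 22 / 10 * Real.exp (-t.re) := by
  rw [norm_mul, norm_exp, sub_re, neg_re]
  have h1 : -a.re ≤ 1 / 20 := by
    have := Complex.abs_re_le_norm a
    have := neg_abs_le a.re
    linarith
  have h2 : Real.exp (-t.re - a.re) ≤ Real.exp (-t.re) * (11 / 10) := by
    rw [sub_eq_add_neg, Real.exp_add]
    exact mul_le_mul_of_nonneg_left ((Real.exp_le_exp.2 h1).trans exp_20) (Real.exp_pos _).le
  calc ‖c‖ * Real.exp (-t.re - a.re) ≤ 2 * (Real.exp (-t.re) * (11 / 10)) :=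
        mul_le_mul hc h2 (Real.exp_pos _).le (by norm_num)
    _ = _ := by ring

lemma y_bd' {c t a : ℂ} (hc : ‖c‖ ≤ 2) (ht : 3 ≤ t.re) (ha : ‖a‖ ≤ 1 / 20) :
    ‖c * exp (-t - a)‖ ≤ 11 / 100 := by
  refine (y_bd hc ha).trans ?_
  have h1 : Real.exp (-t.re) ≤ 1 / 20 := (Real.exp_le_exp.2 (by linarith)).trans exp_neg_three
  linarith

lemma slit {y : ℂ} (h : ‖y‖ ≤ 11 / 100) : 1 - y ∈ slitPlane := by
  left
  rw [sub_re, one_re]
  have h1 := Complex.re_le_norm y
  linarith

lemma bound {n : ℕ} (hn : 2 ≤ n) {c : ℂ} (hc : ‖c‖ ≤ 2) (k : ℕ) :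
    ∀ s : ℂ, (3 / 2 : ℝ) < s.re → ‖d n k c s‖ ≤ Real.exp (-s.re) := by
  induction k with
  | zero =>
    intro s _
    simp only [d, norm_zero]
    exact (Real.exp_pos _).le
  | succ k ih =>
    intro s hs
    have hn2 : (2 : ℝ) ≤ n := by exact_mod_cast hn
    set t : ℂ := n * s with ht
    have hb := re_big hn hs
    rw [← ht] at hb
    have h1 := ih t (by linarith)
    have h20 : ‖d n k c t‖ ≤ 1 / 20 :=
      h1.trans ((Real.exp_le_exp.2 (by linarith)).trans exp_neg_three)
    have h2 := y_bd (t := t) hc h20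
    have h3 := y_bd' (t := t) hc (by linarith) h20
    have h4 : ‖log (1 - c * exp (-t - d n k c t))‖ ≤
        3 / 2 * ‖c * exp (-t - d n k c t)‖ := by
      have h5 := norm_log_one_add_half_le_self (z := -(c * exp (-t - d n k c t)))
        (by rw [norm_neg]; linarith)
      rw [norm_neg, ← sub_eq_add_neg] at h5
      exact h5
    have hE : Real.exp (-t.re) ≤ 1 / 4 * Real.exp (-s.re) := by
      have h6 : Real.exp (-t.re) ≤ Real.exp (-s.re + -(3 / 2)) :=
        Real.exp_le_exp.2 (by linarith)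
      rw [Real.exp_add] at h6
      nlinarith [exp_neg_32, Real.exp_pos (-s.re)]
    have hn0 : (0 : ℝ) < n := by linarith
    show ‖d n k c t / n + log (1 - c * exp (-t - d n k c t)) / n‖ ≤ _
    refine (norm_add_le _ _).trans ?_
    rw [norm_div, norm_div, norm_natCast, ← add_div, div_le_iff₀ hn0]
    have h7 : 0 < Real.exp (-s.re) := Real.exp_pos _
    nlinarith

lemma small {n : ℕ} (hn : 2 ≤ n) {c : ℂ} (hc : ‖c‖ ≤ 2) (k : ℕ) {s : ℂ}
    (hs : (3 / 2 : ℝ) < s.re) : ‖d n k c (n * s)‖ ≤ 1 / 20 := by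
  have hb := re_big hn hs
  exact (bound hn hc k _ (re_dom hn hs)).trans
    ((Real.exp_le_exp.2 (by linarith)).trans exp_neg_three)

/-- Lipschitz estimate. -/
lemma lip {c t a b : ℂ} (hc : ‖c‖ ≤ 2) (ht : 3 ≤ t.re) (ha : ‖a‖ ≤ 1 / 20) (hb : ‖b‖ ≤ 1 / 20) :
    ‖log (1 - c * exp (-t - b)) - log (1 - c * exp (-t - a))‖ ≤ 1 / 5 * ‖b - a‖ := by
  have hderiv : ∀ x ∈ Metric.closedBall (0 : ℂ) (1 / 20),
      HasDerivWithinAt (fun x => log (1 - c * exp (-t - x)))
        ((c * exp (-t - x)) / (1 - c * exp (-t - x))) (Metric.closedBall (0 : ℂ) (1 / 20)) x := by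
    intro x hx
    rw [mem_closedBall_zero_iff] at hx
    have h1 : HasDerivAt (fun x : ℂ => 1 - c * exp (-t - x)) (c * exp (-t - x)) x := by
      have h2 : HasDerivAt (fun x : ℂ => -t - x) (-1) x := by
        simpa using (hasDerivAt_id x).const_sub (-t)
      have h3 := ((h2.cexp).const_mul c).const_sub 1
      refine h3.congr_deriv ?_
      ring
    have h4 := h1.clog (slit (y_bd' hc ht hx))
    exact h4.hasDerivWithinAt
  have hbd : ∀ x ∈ Metric.closedBall (0 : ℂ) (1 / 20),
      ‖(c * exp (-t - x)) / (1 - c * exp (-t - x))‖ ≤ 1 / 5 := by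
    intro x hx
    rw [mem_closedBall_zero_iff] at hx
    have h1 := y_bd' (t := t) hc ht hx
    set y := c * exp (-t - x)
    have h2 : 1 - ‖y‖ ≤ ‖1 - y‖ := by
      have := norm_sub_norm_le 1 y
      rwa [norm_one] at this
    rw [norm_div, div_le_iff₀ (by linarith)]
    linarith
  exact (convex_closedBall (0 : ℂ) (1 / 20)).norm_image_sub_le_of_norm_hasDerivWithin_le
    hderiv hbd (mem_closedBall_zero_iff.2 ha) (mem_closedBall_zero_iff.2 hb)

lemma step {n : ℕ} (hn : 2 ≤ n) {c : ℂ} (hc : ‖c‖ ≤ 2) (k : ℕ) :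
    ∀ s : ℂ, (3 / 2 : ℝ) < s.re → ‖d n (k + 1) c s - d n k c s‖ ≤ (3 / 5) ^ k := by
  induction k with
  | zero =>
    intro s hs
    have h1 := bound hn hc 1 s hs
    have h2 : Real.exp (-s.re) ≤ 1 := by
      rw [Real.exp_le_one_iff]
      linarith
    simp only [d, sub_zero, pow_zero] at h1 ⊢
    exact h1.trans h2
  | succ k ih =>
    intro s hs
    have hn2 : (2 : ℝ) ≤ n := by exact_mod_cast hn
    have hn0 : (0 : ℝ) < n := by linarith
    have hb := re_big hn hs
    have h1 := ih (n * s) (re_dom hn hs)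
    have h2 := lip (t := n * s) hc (by linarith) (small hn hc k hs) (small hn hc (k + 1) hs)
    have e : d n (k + 1 + 1) c s - d n (k + 1) c s =
        ((d n (k + 1) c (n * s) - d n k c (n * s)) +
        (log (1 - c * exp (-(n * s) - d n (k + 1) c (n * s))) -
          log (1 - c * exp (-(n * s) - d n k c (n * s))))) / n := by
      conv_lhs => rw [d]
      rw [show d n (k + 1) c s = d n k c (n * s) / n +
        log (1 - c * exp (-(n * s) - d n k c (n * s))) / n from rfl]
      ring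
    rw [e, norm_div, norm_natCast, div_le_iff₀ hn0]
    refine (norm_add_le _ _).trans ?_
    have h3 : (0 : ℝ) < (3 / 5) ^ k := by positivity
    rw [pow_succ]
    nlinarith [norm_nonneg (d n (k + 1) c (n * s) - d n k c (n * s))]

lemma per {n : ℕ} (hn : 2 ≤ n) (c : ℂ) (k : ℕ) : ∀ (s : ℂ) (j : ℕ),
    d n k c (s + j * (2 * Real.pi * I / n)) = d n k c s := by
  have hn0 := natCast_ne hn
  induction k with
  | zero => intro s j; rfl
  | succ k ih =>
    intro s j
    have e1 : (n : ℂ) * (s + j * (2 * Real.pi * I / n)) =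
        n * s + ((j * n : ℕ) : ℂ) * (2 * Real.pi * I / n) := by
      push_cast
      field_simp
    have e2 := ih (n * s) (j * n)
    show d n k c (n * (s + j * (2 * Real.pi * I / n))) / n +
      log (1 - c * exp (-(n * (s + j * (2 * Real.pi * I / n))) -
        d n k c (n * (s + j * (2 * Real.pi * I / n))))) / n = _
    rw [e1, e2]
    have e3 : exp (-(n * s + ((j * n : ℕ) : ℂ) * (2 * Real.pi * I / n)) - d n k c (n * s)) =
        exp (-(n * s) - d n k c (n * s)) := by
      rw [exp_eq_exp_iff_exists_int]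
      refine ⟨-(j : ℤ), ?_⟩
      push_cast
      field_simp
      ring
    rw [e3]
    rfl

lemma contOn {n : ℕ} (hn : 2 ≤ n) (k : ℕ) :
    ContinuousOn (fun q : ℂ × ℂ => d n k q.1 q.2)
      ({c : ℂ | ‖c‖ ≤ 2} ×ˢ {s : ℂ | (3 / 2 : ℝ) < s.re}) := by
  induction k with
  | zero => exact continuousOn_const
  | succ k ih =>
    have h1 : ContinuousOn (fun q : ℂ × ℂ => d n k q.1 (n * q.2))
        ({c : ℂ | ‖c‖ ≤ 2} ×ˢ {s : ℂ | (3 / 2 : ℝ) < s.re}) := by
      have h2 : ContinuousOn (fun q : ℂ × ℂ => (q.1, (n : ℂ) * q.2))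
          ({c : ℂ | ‖c‖ ≤ 2} ×ˢ {s : ℂ | (3 / 2 : ℝ) < s.re}) := by fun_prop
      exact ih.comp h2 fun q hq => ⟨hq.1, re_dom hn hq.2⟩
    have h3 : ContinuousOn (fun q : ℂ × ℂ =>
        log (1 - q.1 * exp (-(n * q.2) - d n k q.1 (n * q.2))))
        ({c : ℂ | ‖c‖ ≤ 2} ×ˢ {s : ℂ | (3 / 2 : ℝ) < s.re}) := by
      apply ContinuousOn.clog
      · fun_prop
      · intro q hq
        have hb := re_big hn hq.2
        have hq2 : (3 / 2 : ℝ) < q.2.re := hq.2
        exact slit (y_bd' hq.1 (by linarith) (small hn hq.1 k hq.2))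
    exact (h1.div_const _).add (h3.div_const _)

lemma diffOn {n : ℕ} (hn : 2 ≤ n) {c : ℂ} (hc : ‖c‖ ≤ 2) (k : ℕ) :
    DifferentiableOn ℂ (d n k c) {s : ℂ | (3 / 2 : ℝ) < s.re} := by
  induction k with
  | zero => exact differentiableOn_const _
  | succ k ih =>
    have h1 : DifferentiableOn ℂ (fun s : ℂ => d n k c (n * s)) {s : ℂ | (3 / 2 : ℝ) < s.re} := by
      have h2 : DifferentiableOn ℂ (fun s : ℂ => (n : ℂ) * s) {s : ℂ | (3 / 2 : ℝ) < s.re} := by
        fun_prop
      exact ih.comp h2 fun q hq => re_dom hn hq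
    have h3 : DifferentiableOn ℂ (fun s : ℂ =>
        log (1 - c * exp (-(n * s) - d n k c (n * s)))) {s : ℂ | (3 / 2 : ℝ) < s.re} := by
      apply DifferentiableOn.clog
      · fun_prop
      · intro q hq
        have hb := re_big hn hq
        have hq2 : (3 / 2 : ℝ) < q.re := hq
        exact slit (y_bd' hc (by linarith) (small hn hc k hq))
    exact (h1.div_const _).add (h3.div_const _)

/-- The limit. -/
noncomputable def D (n : ℕ) (c s : ℂ) : ℂ := ∑' k, (d n (k + 1) c s - d n k c s)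

lemma summ : Summable fun k : ℕ => ((3 : ℝ) / 5) ^ k :=
  summable_geometric_of_lt_one (by norm_num) (by norm_num)

lemma tendsto_D {n : ℕ} (hn : 2 ≤ n) {c : ℂ} (hc : ‖c‖ ≤ 2) {s : ℂ}
    (hs : (3 / 2 : ℝ) < s.re) : Tendsto (fun k => d n k c s) atTop (𝓝 (D n c s)) := by
  have h1 : Summable fun k => d n (k + 1) c s - d n k c s :=
    Summable.of_norm_bounded summ fun k => step hn hc k s hs
  have h2 := h1.hasSum.tendsto_sum_nat
  refine h2.congr fun K => ?_
  rw [Finset.sum_range_sub (fun k => d n k c s)]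
  simp [d]

end EX0_

open EX0_ in
theorem p_EX0 : T_EX0 := by
  intro n hn
  have hn0 := natCast_ne hn
  refine ⟨fun c s => s + D n c s, ?_, fun c hc => ⟨?_, fun s hs => ⟨?_, ?_, ?_⟩⟩⟩
  · refine continuousOn_snd.add ?_
    refine continuousOn_tsum (fun k => (contOn hn (k + 1)).sub (contOn hn k)) summ ?_
    intro k q hq
    exact step hn hq.1 k q.2 hq.2
  · refine differentiableOn_id.add ?_
    refine differentiableOn_tsum_of_summable_norm summ
      (fun k => (diffOn hn hc (k + 1)).sub (diffOn hn hc k)) ?_ ?_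
    · exact isOpen_lt continuous_const continuous_re
    · intro k s hs
      exact step hn hc k s hs
  · -- the functional equation
    have hs2 := re_dom hn hs
    have hb := re_big hn hs
    have t1 := tendsto_D hn hc hs2
    have hsm : ‖D n c (n * s)‖ ≤ 1 / 20 :=
      le_of_tendsto t1.norm (Eventually.of_forall fun k => small hn hc k hs)
    have hsl : 1 - c * exp (-(n * s) - D n c (n * s)) ∈ slitPlane :=
      slit (y_bd' hc (by linarith) hsm)
    have t2 : Tendsto (fun k => d n k c (n * s) / n +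
        log (1 - c * exp (-(n * s) - d n k c (n * s))) / n) atTop
        (𝓝 (D n c (n * s) / n + log (1 - c * exp (-(n * s) - D n c (n * s))) / n)) := by
      refine (t1.div_const _).add (Tendsto.div_const ?_ _)
      refine Tendsto.clog ?_ hsl
      refine tendsto_const_nhds.sub (tendsto_const_nhds.mul ?_)
      exact (continuous_exp.tendsto _).comp (tendsto_const_nhds.sub t1)
    have t3 : Tendsto (fun k => d n (k + 1) c s) atTop (𝓝 (D n c s)) :=
      (tendsto_D hn hc hs).comp (tendsto_add_atTop_nat 1)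
    have e : D n c s = D n c (n * s) / n +
        log (1 - c * exp (-(n * s) - D n c (n * s))) / n := tendsto_nhds_unique t3 t2
    have e2 : (n : ℂ) * (s + D n c s) = (n * s + D n c (n * s)) +
        log (1 - c * exp (-(n * s) - D n c (n * s))) := by
      rw [e]
      field_simp
      ring
    show exp (n * (s + D n c s)) = exp (n * s + D n c (n * s)) - c
    rw [e2, exp_add, exp_log (slitPlane_ne_zero hsl)]
    have e3 : exp (-(n * s) - D n c (n * s)) = (exp (n * s + D n c (n * s)))⁻¹ := by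
      rw [← exp_neg]
      congr 1
      ring
    rw [e3]
    field_simp
  · -- periodicity
    have h1 : D n c (s + 2 * Real.pi * I / n) = D n c s := by
      unfold D
      congr 1
      funext k
      have h2 := per hn c (k + 1) s 1
      have h3 := per hn c k s 1
      rw [Nat.cast_one, one_mul] at h2 h3
      rw [h2, h3]
    show s + 2 * Real.pi * I / n + D n c (s + 2 * Real.pi * I / n) = s + D n c s + _
    rw [h1]
    ring
  · rw [add_sub_cancel_left]
    exact le_of_tendsto (tendsto_D hn hc hs).norm (Eventually.of_forall fun k => bound hn hc k s hs)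

end Pool.Agent.Limb
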