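import Pool.Agent.Limb.Targets

/-!
# LIMB: one extension step of the inverse Böttcher map
-/

set_option autoImplicit false

open Complex Filter Topology Set
open Pool.Agent.Multibrot

namespace Pool.Agent.Limb

namespace EX1_

lemma re_nat (n : ℕ) (s : ℂ) : ((n : ℂ) * s).re = n * s.re := by
  simp [Complex.mul_re]

/-- the set of the arguments -/
def DD' (n : ℕ) (S : ℝ) : Set (ℂ × ℂ) := MM n ×ˢ {s : ℂ | S / n < s.re}

/-- moving to the right -/
noncomputable def mv (S : ℝ) (t : unitInterval) (s : ℂ) : ℂ := s + (((1 - (t : ℝ)) * S : ℝ) : ℂ)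

lemma re_mv (S : ℝ) (t : unitInterval) (s : ℂ) : (mv S t s).re = s.re + (1 - (t : ℝ)) * S := by
  rw [mv, Complex.add_re, Complex.ofReal_re]

lemma le_re_mv {S : ℝ} (hS : 0 < S) (t : unitInterval) (s : ℂ) : s.re ≤ (mv S t s).re := by
  rw [re_mv]
  have h1 : 0 ≤ 1 - (t : ℝ) := by linarith [t.2.2]
  have h2 := mul_nonneg h1 hS.le
  linarith

lemma mv_zero (S : ℝ) (s : ℂ) : mv S 0 s = s + S := by
  simp [mv]

lemma mv_one (S : ℝ) (s : ℂ) : mv S 1 s = s := by
  simp [mv]

lemma continuous_mv (S : ℝ) : Continuous fun q : unitInterval × ℂ => mv S q.1 q.2 := by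
  unfold mv
  fun_prop

section

variable {n : ℕ} {S : ℝ} {f : ℂ → ℂ → ℂ}

/-- the right side of the functional equation -/
noncomputable def hf (n : ℕ) (f : ℂ → ℂ → ℂ) (q : ℂ × ℂ) : ℂ := exp (f q.1 (n * q.2)) - q.1

lemma mem_of_lt (hn : 0 < (n : ℝ)) {s : ℂ} (h : S / n < s.re) : S < ((n : ℂ) * s).re := by
  rw [re_nat]
  rw [div_lt_iff₀ hn] at h
  linarith

lemma cont_hf (hn : 0 < (n : ℝ))
    (hc : ContinuousOn (fun q : ℂ × ℂ => f q.1 q.2) (MM n ×ˢ {s : ℂ | S < s.re})) :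
    ContinuousOn (hf n f) (DD' n S) := by
  have h1 : ContinuousOn (fun q : ℂ × ℂ => ((q.1, (n : ℂ) * q.2) : ℂ × ℂ)) (DD' n S) := by
    fun_prop
  have h2 : MapsTo (fun q : ℂ × ℂ => ((q.1, (n : ℂ) * q.2) : ℂ × ℂ)) (DD' n S)
      (MM n ×ˢ {s : ℂ | S < s.re}) := by
    rintro ⟨c, s⟩ ⟨h3, h4⟩
    exact ⟨h3, mem_of_lt hn h4⟩
  have h3 : ContinuousOn (fun q : ℂ × ℂ => f q.1 (n * q.2)) (DD' n S) := hc.comp h1 h2
  exact h3.cexp.sub continuousOn_fst

lemma hf_ne (hn : 0 < (n : ℝ)) (hne : ∀ c ∈ MM n, ∀ s : ℂ, S < s.re → exp (f c s) ≠ c)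
    (q : ℂ × ℂ) (hq : q ∈ DD' n S) : hf n f q ≠ 0 := by
  intro h0
  exact hne q.1 hq.1 _ (mem_of_lt hn hq.2) (sub_eq_zero.1 h0)

lemma mv_mem (hS : 0 < S) (t : unitInterval) (q : ℂ × ℂ) (hq : q ∈ DD' n S) :
    (q.1, mv S t q.2) ∈ DD' n S :=
  ⟨hq.1, lt_of_lt_of_le hq.2 (le_re_mv hS t q.2)⟩

/-- the homotopy -/
noncomputable def HH (hS : 0 < S) (hn : 0 < (n : ℝ))
    (hc : ContinuousOn (fun q : ℂ × ℂ => f q.1 q.2) (MM n ×ˢ {s : ℂ | S < s.re}))
    (hne : ∀ c ∈ MM n, ∀ s : ℂ, S < s.re → exp (f c s) ≠ c) :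
    C(unitInterval × (DD' n S : Set (ℂ × ℂ)), {z : ℂ // z ≠ 0}) where
  toFun p := ⟨hf n f (p.2.1.1, mv S p.1 p.2.1.2), hf_ne hn hne _ (mv_mem hS p.1 _ p.2.2)⟩
  continuous_toFun := by
    refine Continuous.subtype_mk ?_ _
    have h1 : Continuous fun p : unitInterval × (DD' n S : Set (ℂ × ℂ)) =>
        ((p.2.1.1, mv S p.1 p.2.1.2) : ℂ × ℂ) := by
      have h2 : Continuous fun p : unitInterval × (DD' n S : Set (ℂ × ℂ)) =>
          ((p.1, p.2.1.2) : unitInterval × ℂ) := by fun_prop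
      exact (by fun_prop : Continuous fun p : unitInterval × (DD' n S : Set (ℂ × ℂ)) =>
        p.2.1.1).prodMk ((continuous_mv S).comp h2)
    exact (cont_hf hn hc).comp_continuous h1 (fun p => mv_mem hS p.1 _ p.2.2)

/-- the start of the lift -/
noncomputable def f0 (hS : 0 < S) (hn : 0 < (n : ℝ))
    (hc : ContinuousOn (fun q : ℂ × ℂ => f q.1 q.2) (MM n ×ˢ {s : ℂ | S < s.re})) :
    C((DD' n S : Set (ℂ × ℂ)), ℂ) where
  toFun a := n * f a.1.1 (a.1.2 + S)
  continuous_toFun := by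
    have h1 : Continuous fun a : (DD' n S : Set (ℂ × ℂ)) =>
        ((a.1.1, a.1.2 + (S : ℂ)) : ℂ × ℂ) := by fun_prop
    have h2 : Continuous fun a : (DD' n S : Set (ℂ × ℂ)) => f a.1.1 (a.1.2 + S) := by
      refine hc.comp_continuous h1 (fun a => ⟨a.2.1, ?_⟩)
      show S < (a.1.2 + (S : ℂ)).re
      rw [Complex.add_re, Complex.ofReal_re]
      have h3 : S / n < a.1.2.re := a.2.2
      have h4 : 0 < S / n := div_pos hS hn
      linarith
    exact continuous_const.mul h2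

end

end EX1_

open EX1_ in
theorem p_EX1 : T_EX1 := by
  classical
  intro n hn2 S hS f hc hfe hne
  have hn : 0 < (n : ℝ) := by
    have : 0 < n := by omega
    exact_mod_cast this
  have hSn : 0 < S / n := div_pos hS hn
  have key : ∀ c ∈ MM n, ∀ s : ℂ, S < s.re → exp (n * f c s) = hf n f (c, s) :=
    fun c hcm s hs => hfe c hcm s hs
  have H0 : ∀ a : (DD' n S : Set (ℂ × ℂ)), HH hS hn hc hne (0, a) =
      (fun z : ℂ => (⟨exp z, z.exp_ne_zero⟩ : {z : ℂ // z ≠ 0})) (f0 hS hn hc a) := by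
    intro a
    apply Subtype.ext
    show hf n f (a.1.1, mv S 0 a.1.2) = exp (n * f a.1.1 (a.1.2 + S))
    rw [mv_zero]
    refine (key _ a.2.1 _ ?_).symm
    rw [Complex.add_re, Complex.ofReal_re]
    have h3 : S / n < a.1.2.re := a.2.2
    linarith
  set G := Complex.isCoveringMap_exp.liftHomotopy (HH hS hn hc hne) (f0 hS hn hc) H0 with hG
  have hGl : ∀ t a, exp (G (t, a)) = hf n f (a.1.1, mv S t a.1.2) := by
    intro t a
    have h := congrFun (Complex.isCoveringMap_exp.liftHomotopy_lifts (HH hS hn hc hne)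
      (f0 hS hn hc) H0) (t, a)
    exact congrArg Subtype.val h
  have hG0 : ∀ a, G (0, a) = n * f a.1.1 (a.1.2 + S) := fun a =>
    Complex.isCoveringMap_exp.liftHomotopy_zero (HH hS hn hc hne) (f0 hS hn hc) H0 a
  refine ⟨fun c s => if h : (c, s) ∈ DD' n S then G (1, ⟨(c, s), h⟩) / n else 0, ?_, ?_, ?_⟩
  · rw [continuousOn_iff_continuous_domRestrict]
    have h1 : Continuous fun a : (DD' n S : Set (ℂ × ℂ)) => G (1, a) / n := by
      have h2 : Continuous fun a : (DD' n S : Set (ℂ × ℂ)) => G (1, a) :=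
        G.continuous.comp (by fun_prop)
      exact h2.div_const _
    refine h1.congr (fun a => ?_)
    have h3 : (a.1.1, a.1.2) ∈ DD' n S := a.2
    show G (1, a) / n = if h : (a.1.1, a.1.2) ∈ DD' n S then G (1, ⟨(a.1.1, a.1.2), h⟩) / n else 0
    rw [dif_pos h3]
  · intro c hcm s hs
    have hs' : S / n < s.re := by
      have h1 : S / n ≤ S := div_le_self hS.le (by exact_mod_cast (by omega : 1 ≤ n))
      linarith
    have hmem : (c, s) ∈ DD' n S := ⟨hcm, hs'⟩
    show (if h : (c, s) ∈ DD' n S then G (1, ⟨(c, s), h⟩) / n else 0) = f c s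
    rw [dif_pos hmem]
    have hpath : (fun t : unitInterval => G (t, ⟨(c, s), hmem⟩)) =
        fun t : unitInterval => n * f c (mv S t s) := by
      refine Complex.isCoveringMap_exp.eq_of_comp_eq ?_ ?_ ?_ (0 : unitInterval) ?_
      · exact G.continuous.comp (by fun_prop)
      · have h1 : Continuous fun t : unitInterval => ((c, mv S t s) : ℂ × ℂ) := by
          have h2 : Continuous fun t : unitInterval => ((t, s) : unitInterval × ℂ) := by fun_prop
          exact continuous_const.prodMk ((continuous_mv S).comp h2)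
        have h3 : Continuous fun t : unitInterval => f c (mv S t s) :=
          hc.comp_continuous h1 (fun t => ⟨hcm, lt_of_lt_of_le hs (le_re_mv hS t s)⟩)
        exact continuous_const.mul h3
      · funext t
        apply Subtype.ext
        show exp (G (t, ⟨(c, s), hmem⟩)) = exp (n * f c (mv S t s))
        rw [hGl]
        exact (key c hcm _ (lt_of_lt_of_le hs (le_re_mv hS t s))).symm
      · show G (0, ⟨(c, s), hmem⟩) = n * f c (mv S 0 s)
        rw [hG0, mv_zero]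
    have h1 := congrFun hpath 1
    simp only [mv_one] at h1
    rw [h1]
    have hn' : (n : ℂ) ≠ 0 := by
      have : n ≠ 0 := by omega
      exact_mod_cast this
    field_simp
  · intro c hcm s hs
    have hmem : (c, s) ∈ DD' n S := ⟨hcm, hs⟩
    show exp (n * (if h : (c, s) ∈ DD' n S then G (1, ⟨(c, s), h⟩) / n else 0)) = hf n f (c, s)
    rw [dif_pos hmem]
    have hn' : (n : ℂ) ≠ 0 := by
      have : n ≠ 0 := by omega
      exact_mod_cast this
    rw [mul_div_cancel₀ _ hn', hGl, mv_one]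

end Pool.Agent.Limb
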