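import Pool.Agent.Limb.Targets

/-!
# LIMB: EXG, the global inverse Böttcher map
-/

set_option autoImplicit false

open Complex Filter Topology Set
open Pool.Agent.Multibrot

namespace Pool.Agent.Limb

namespace EXG_

/-- the local properties of the map, for `S < Re s` -/
structure Good (n : ℕ) (Λ0 : ℂ → ℂ → ℂ) (S : ℝ) (f : ℂ → ℂ → ℂ) : Prop where
  cont : ContinuousOn (fun q : ℂ × ℂ => f q.1 q.2) (MM n ×ˢ {s : ℂ | S < s.re})
  func : ∀ c ∈ MM n, ∀ s : ℂ, S < s.re → exp (n * f c s) = exp (f c (n * s)) - c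
  agree : ∀ c ∈ MM n, ∀ s : ℂ, (3 / 2 : ℝ) < s.re → f c s = Λ0 c s
  diff : ∀ c ∈ MM n, DifferentiableOn ℂ (f c) {s : ℂ | S < s.re}

lemma re_nat_mul (m : ℕ) (s : ℂ) : ((m : ℂ) * s).re = m * s.re := by
  simp [mul_re]

lemma re_pow_mul (n k : ℕ) (s : ℂ) : ((n : ℂ) ^ k * s).re = (n : ℝ) ^ k * s.re := by
  have h : ((n : ℂ) ^ k) = ((n ^ k : ℕ) : ℂ) := by push_cast; rfl
  rw [h, re_nat_mul]
  push_cast
  rfl

lemma norm_le_two {n : ℕ} (hn : 2 ≤ n) {c : ℂ} (hc : c ∈ MM n) : ‖c‖ ≤ 2 := by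
  have h := hc 1
  rwa [Q_one (by omega)] at h

lemma exp_lower {z s : ℂ} (h : ‖z - s‖ ≤ Real.exp (-s.re)) (hs : 2 ≤ s.re) : 2 < ‖exp z‖ := by
  rw [norm_exp]
  have h1 : |(z - s).re| ≤ ‖z - s‖ := abs_re_le_norm _
  have h2 : s.re - z.re ≤ Real.exp (-s.re) := by
    have := (abs_le.mp (h1.trans h)).1
    rw [sub_re] at this
    linarith
  have h3 : Real.exp (-s.re) ≤ 1 := Real.exp_le_one_iff.mpr (by linarith)
  have h4 : (1 : ℝ) ≤ z.re := by linarith
  have h5 : Real.exp 1 ≤ Real.exp z.re := Real.exp_le_exp.mpr h4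
  have h6 := Real.exp_one_gt_d9
  linarith

lemma exp_upper {z s : ℂ} (h : ‖z - s‖ ≤ Real.exp (-s.re)) (hs : 2 ≤ s.re) :
    ‖exp z‖ ≤ 4 * Real.exp s.re := by
  rw [norm_exp]
  have h1 : |(z - s).re| ≤ ‖z - s‖ := abs_re_le_norm _
  have h2 : z.re - s.re ≤ Real.exp (-s.re) := by
    have := (abs_le.mp (h1.trans h)).2
    rw [sub_re] at this
    linarith
  have h3 : Real.exp (-s.re) ≤ 1 := Real.exp_le_one_iff.mpr (by linarith)
  have h5 : Real.exp z.re ≤ Real.exp (1 + s.re) := Real.exp_le_exp.mpr (by linarith)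
  rw [Real.exp_add] at h5
  have h6 := Real.exp_one_lt_d9
  have h7 := Real.exp_pos s.re
  nlinarith

lemma large {n : ℕ} (hn : 2 ≤ n) {x : ℝ} (hx : 0 < x) (C : ℝ) : ∃ m : ℕ, C ≤ (n : ℝ) ^ m * x := by
  have h1 : (1 : ℝ) < n := by
    have : (2 : ℝ) ≤ n := by exact_mod_cast hn
    linarith
  obtain ⟨m, hm⟩ := pow_unbounded_of_one_lt (C / x) h1
  refine ⟨m, ?_⟩
  rw [div_lt_iff₀ hx] at hm
  exact hm.le

lemma pow_re_gt {n : ℕ} (hn : 2 ≤ n) (m : ℕ) {x S : ℝ} (hS : 0 < S) (hx : S < x) :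
    S < (n : ℝ) ^ m * x := by
  have h1 : (1 : ℝ) ≤ (n : ℝ) ^ m := one_le_pow₀ (by
    have : (2 : ℝ) ≤ n := by exact_mod_cast hn
    linarith)
  nlinarith

/-- the third hypothesis of EX1 -/
lemma exp_ne {n : ℕ} (hn : 2 ≤ n) {Λ0 : ℂ → ℂ → ℂ}
    (hnear : ∀ c : ℂ, ‖c‖ ≤ 2 → ∀ s : ℂ, (3 / 2 : ℝ) < s.re → ‖Λ0 c s - s‖ ≤ Real.exp (-s.re))
    {S : ℝ} (hS : 0 < S) {f : ℂ → ℂ → ℂ} (hf : Good n Λ0 S f) {c : ℂ} (hc : c ∈ MM n) {s : ℂ}
    (hs : S < s.re) : exp (f c s) ≠ c := by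
  intro h
  have key : ∀ m : ℕ, Q n (m + 1) c = exp (f c ((n : ℂ) ^ m * s)) := by
    intro m
    induction m with
    | zero => rw [zero_add, Q_one (by omega), pow_zero, one_mul, h]
    | succ m ih =>
      rw [Q_succ, ih, ← exp_nat_mul, hf.func c hc _ (by rw [re_pow_mul]; exact pow_re_gt hn m hS hs)]
      rw [sub_add_cancel]
      congr 2
      ring
  obtain ⟨m, hm⟩ := large hn (hS.trans hs) 2
  have h1 := key m
  have h2 := hc (m + 1)
  have h3 : (2 : ℝ) ≤ ((n : ℂ) ^ m * s).re := by rw [re_pow_mul]; exact hm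
  rw [h1, hf.agree c hc _ (by linarith)] at h2
  have h4 := exp_lower (hnear c (norm_le_two hn hc) _ (by linarith : (3 / 2 : ℝ) < ((n : ℂ) ^ m * s).re)) h3
  linarith

/-- a continuous logarithm of a differentiable function is differentiable -/
lemma diff_of_exp {g h : ℂ → ℂ} {s0 : ℂ} (hg : ContinuousAt g s0)
    (he : ∀ᶠ s in 𝓝 s0, exp (g s) = h s) (hh : DifferentiableAt ℂ h s0) :
    DifferentiableAt ℂ g s0 := by
  have h0 : exp (g s0) = h s0 := he.self_of_nhds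
  have hne : h s0 ≠ 0 := by rw [← h0]; exact exp_ne_zero _
  have h1 : ∀ᶠ s in 𝓝 s0, ‖g s - g s0‖ < 1 := by
    have := (Metric.tendsto_nhds.mp hg) 1 one_pos
    filter_upwards [this] with s hs
    rwa [← dist_eq_norm]
  have h2 : g =ᶠ[𝓝 s0] fun s => g s0 + log (h s / h s0) := by
    filter_upwards [h1, he] with s hs hes
    have h3 : |(g s - g s0).im| < 1 := (abs_im_le_norm _).trans_lt hs
    have h4 := abs_lt.mp h3
    rw [← hes, ← h0, ← exp_sub, log_exp (by linarith [Real.pi_gt_three]) (by linarith [Real.pi_gt_three])]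
    ring
  refine DifferentiableAt.congr_of_eventuallyEq ?_ h2
  refine (DifferentiableAt.clog (hh.div_const _) ?_).const_add _
  rw [div_self hne]
  exact one_mem_slitPlane

lemma isOpen_re (S : ℝ) : IsOpen {s : ℂ | S < s.re} := isOpen_lt continuous_const continuous_re

lemma cont_slice {n : ℕ} {S : ℝ} {f : ℂ → ℂ → ℂ}
    (h : ContinuousOn (fun q : ℂ × ℂ => f q.1 q.2) (MM n ×ˢ {s : ℂ | S < s.re})) {c : ℂ}
    (hc : c ∈ MM n) {s : ℂ} (hs : S < s.re) : ContinuousAt (f c) s := by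
  have h1 : ContinuousOn (fun s : ℂ => f c s) {s : ℂ | S < s.re} := by
    have h2 : ContinuousOn (fun s : ℂ => (c, s)) {s : ℂ | S < s.re} := by fun_prop
    exact h.comp h2 fun s hs => ⟨hc, hs⟩
  exact h1.continuousAt ((isOpen_re S).mem_nhds hs)

lemma step {n : ℕ} (hn : 2 ≤ n) {Λ0 : ℂ → ℂ → ℂ} (h1 : T_EX1)
    (hnear : ∀ c : ℂ, ‖c‖ ≤ 2 → ∀ s : ℂ, (3 / 2 : ℝ) < s.re → ‖Λ0 c s - s‖ ≤ Real.exp (-s.re))
    {S : ℝ} (hS : 0 < S) (hS' : S ≤ 3 / 2) {f : ℂ → ℂ → ℂ} (hf : Good n Λ0 S f) :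
    ∃ f', Good n Λ0 (S / n) f' ∧ ∀ c ∈ MM n, ∀ s : ℂ, S < s.re → f' c s = f c s := by
  obtain ⟨f', hc', ha', hf'⟩ := h1 n hn S hS f hf.cont hf.func
    (fun c hc s hs => exp_ne hn hnear hS hf hc hs)
  have hn1 : (2 : ℝ) ≤ n := by exact_mod_cast hn
  have hn0 : (n : ℂ) ≠ 0 := natCast_ne hn
  have hre : ∀ s : ℂ, S / n < s.re → S < ((n : ℂ) * s).re := by
    intro s hs
    rw [re_nat_mul]
    rw [div_lt_iff₀ (by linarith)] at hs
    linarith
  have hfun : ∀ c ∈ MM n, ∀ s : ℂ, S / n < s.re → exp (n * f' c s) = exp (f' c (n * s)) - c := by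
    intro c hc s hs
    rw [hf' c hc s hs, ha' c hc _ (hre s hs)]
  refine ⟨f', ⟨hc', hfun, ?_, ?_⟩, ha'⟩
  · intro c hc s hs
    rw [ha' c hc s (by linarith), hf.agree c hc s hs]
  · intro c hc s hs
    have hs' : S / n < s.re := hs
    have hcont : ContinuousAt (f' c) s := cont_slice hc' hc hs'
    have h2 : ContinuousAt (fun s => (n : ℂ) * f' c s) s := continuousAt_const.mul hcont
    have h3 : ∀ᶠ t in 𝓝 s, exp ((n : ℂ) * f' c t) = exp (f c (n * t)) - c := by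
      filter_upwards [(isOpen_re (S / n)).mem_nhds hs'] with t ht
      exact hf' c hc t ht
    have h4 : DifferentiableAt ℂ (fun t => exp (f c (n * t)) - c) s := by
      have h5 : DifferentiableAt ℂ (f c) (n * s) :=
        (hf.diff c hc).differentiableAt ((isOpen_re S).mem_nhds (hre s hs'))
      have h6 : DifferentiableAt ℂ (fun t : ℂ => (n : ℂ) * t) s := by fun_prop
      have h7 : DifferentiableAt ℂ (fun t => f c (n * t)) s :=
        DifferentiableAt.comp s (g := f c) (f := fun t : ℂ => (n : ℂ) * t) h5 h6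
      exact h7.cexp.sub_const c
    have h5 := diff_of_exp h2 h3 h4
    have h6 : DifferentiableAt ℂ (fun t => (n : ℂ)⁻¹ * ((n : ℂ) * f' c t)) s := h5.const_mul _
    have h7 : (fun t => (n : ℂ)⁻¹ * ((n : ℂ) * f' c t)) = f' c := by
      funext t
      rw [inv_mul_cancel_left₀ hn0]
    rw [h7] at h6
    exact h6.differentiableWithinAt

/-- the half planes -/
noncomputable def SS' (n k : ℕ) : ℝ := 3 / 2 / (n : ℝ) ^ k

lemma SS'_pos {n : ℕ} (hn : 2 ≤ n) (k : ℕ) : 0 < SS' n k := by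
  have hn1 : (2 : ℝ) ≤ n := by exact_mod_cast hn
  unfold SS'
  positivity

lemma SS'_succ (n k : ℕ) : SS' n (k + 1) = SS' n k / n := by
  unfold SS'
  rw [pow_succ, ← div_div]

lemma SS'_zero (n : ℕ) : SS' n 0 = 3 / 2 := by
  unfold SS'
  simp

lemma SS'_anti {n : ℕ} (hn : 2 ≤ n) {k m : ℕ} (h : k ≤ m) : SS' n m ≤ SS' n k := by
  have hn1 : (2 : ℝ) ≤ n := by exact_mod_cast hn
  unfold SS'
  exact div_le_div_of_nonneg_left (by norm_num) (by positivity)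
    (pow_le_pow_right₀ (by linarith) h)

lemma SS'_exists {n : ℕ} (hn : 2 ≤ n) {x : ℝ} (hx : 0 < x) : ∃ k, SS' n k < x := by
  obtain ⟨m, hm⟩ := large hn hx 2
  have hn1 : (2 : ℝ) ≤ n := by exact_mod_cast hn
  refine ⟨m, ?_⟩
  unfold SS'
  rw [div_lt_iff₀ (by positivity)]
  linarith

section Seq

open Classical in
/-- the sequence of extensions -/
noncomputable def fk (n : ℕ) (Λ0 : ℂ → ℂ → ℂ) : ℕ → ℂ → ℂ → ℂ
  | 0 => Λ0
  | k + 1 => if h : ∃ f', Good n Λ0 (SS' n (k + 1)) f' ∧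
      ∀ c ∈ MM n, ∀ s : ℂ, SS' n k < s.re → f' c s = fk n Λ0 k c s then h.choose else Λ0

end Seq

lemma fk_good {n : ℕ} (hn : 2 ≤ n) {Λ0 : ℂ → ℂ → ℂ} (h1 : T_EX1)
    (hnear : ∀ c : ℂ, ‖c‖ ≤ 2 → ∀ s : ℂ, (3 / 2 : ℝ) < s.re → ‖Λ0 c s - s‖ ≤ Real.exp (-s.re))
    (h0 : Good n Λ0 (3 / 2) Λ0) (k : ℕ) : Good n Λ0 (SS' n k) (fk n Λ0 k) ∧
      ∀ c ∈ MM n, ∀ s : ℂ, SS' n k < s.re → fk n Λ0 (k + 1) c s = fk n Λ0 k c s := by
  have hstep : ∀ k, Good n Λ0 (SS' n k) (fk n Λ0 k) → ∃ f', Good n Λ0 (SS' n (k + 1)) f' ∧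
      ∀ c ∈ MM n, ∀ s : ℂ, SS' n k < s.re → f' c s = fk n Λ0 k c s := by
    intro k hk
    rw [SS'_succ]
    refine step hn h1 hnear (SS'_pos hn k) ?_ hk
    have := SS'_anti hn (Nat.zero_le k)
    rwa [SS'_zero] at this
  induction k with
  | zero =>
    have h2 : Good n Λ0 (SS' n 0) (fk n Λ0 0) := by
      rw [SS'_zero]
      exact h0
    refine ⟨h2, ?_⟩
    have h3 := hstep 0 h2
    have h4 : fk n Λ0 (0 + 1) = h3.choose := by
      rw [fk, dif_pos h3]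
    rw [h4]
    exact h3.choose_spec.2
  | succ k ih =>
    have h3 := hstep k ih.1
    have h4 : fk n Λ0 (k + 1) = h3.choose := by
      rw [fk, dif_pos h3]
    have h5 : Good n Λ0 (SS' n (k + 1)) (fk n Λ0 (k + 1)) := by
      rw [h4]
      exact h3.choose_spec.1
    refine ⟨h5, ?_⟩
    have h6 := hstep (k + 1) h5
    have h7 : fk n Λ0 (k + 1 + 1) = h6.choose := by
      rw [fk, dif_pos h6]
    rw [h7]
    exact h6.choose_spec.2

open Classical in
/-- the global map -/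
noncomputable def LL (n : ℕ) (Λ0 : ℂ → ℂ → ℂ) (c s : ℂ) : ℂ :=
  if h : ∃ k, SS' n k < s.re then fk n Λ0 (Nat.find h) c s else 0

lemma LL_eq {n : ℕ} (hn : 2 ≤ n) {Λ0 : ℂ → ℂ → ℂ}
    (hg : ∀ k, Good n Λ0 (SS' n k) (fk n Λ0 k) ∧
      ∀ c ∈ MM n, ∀ s : ℂ, SS' n k < s.re → fk n Λ0 (k + 1) c s = fk n Λ0 k c s)
    {c : ℂ} (hc : c ∈ MM n) {s : ℂ} {k : ℕ} (hs : SS' n k < s.re) :
    LL n Λ0 c s = fk n Λ0 k c s := by
  classical
  have h : ∃ k, SS' n k < s.re := ⟨k, hs⟩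
  have mono : ∀ a b : ℕ, SS' n a < s.re → fk n Λ0 (a + b) c s = fk n Λ0 a c s := by
    intro a b ha
    induction b with
    | zero => rfl
    | succ b ih =>
      rw [← ih, ← add_assoc]
      exact (hg (a + b)).2 c hc s ((SS'_anti hn (by omega)).trans_lt ha)
  have h1 : LL n Λ0 c s = fk n Λ0 (Nat.find h) c s := by
    unfold LL
    rw [dif_pos h]
  rw [h1]
  have h2 : Nat.find h ≤ k := Nat.find_min' h hs
  obtain ⟨b, hb⟩ := Nat.exists_eq_add_of_le h2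
  have h3 := mono (Nat.find h) b (Nat.find_spec h)
  rw [← hb] at h3
  exact h3.symm

/-- properties of the global map before rotation and injectivity -/
structure Pre (n : ℕ) (Λ : ℂ → ℂ → ℂ) : Prop where
  cont : ContinuousOn (fun q : ℂ × ℂ => Λ q.1 q.2) (MM n ×ˢ {s : ℂ | 0 < s.re})
  diff : ∀ c ∈ MM n, DifferentiableOn ℂ (Λ c) {s : ℂ | 0 < s.re}
  func : ∀ c ∈ MM n, ∀ s : ℂ, 0 < s.re → exp (n * Λ c s) = exp (Λ c (n * s)) - c
  rot0 : ∀ c ∈ MM n, ∀ s : ℂ, (3 / 2 : ℝ) < s.re →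
    Λ c (s + 2 * Real.pi * I / n) = Λ c s + 2 * Real.pi * I / n
  near : ∀ c ∈ MM n, ∀ s : ℂ, (3 / 2 : ℝ) < s.re → ‖Λ c s - s‖ ≤ Real.exp (-s.re)

lemma exists_pre (h0 : T_EX0) (h1 : T_EX1) {n : ℕ} (hn : 2 ≤ n) : ∃ Λ, Pre n Λ := by
  obtain ⟨Λ0, hc0, hL0⟩ := h0 n hn
  have hn1 : (2 : ℝ) ≤ n := by exact_mod_cast hn
  have hnear : ∀ c : ℂ, ‖c‖ ≤ 2 → ∀ s : ℂ, (3 / 2 : ℝ) < s.re →
      ‖Λ0 c s - s‖ ≤ Real.exp (-s.re) := fun c hc s hs => ((hL0 c hc).2 s hs).2.2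
  have hgood0 : Good n Λ0 (3 / 2) Λ0 := by
    refine ⟨?_, ?_, fun c _ s _ => rfl, ?_⟩
    · refine hc0.mono ?_
      intro q hq
      exact ⟨norm_le_two hn hq.1, hq.2⟩
    · intro c hc s hs
      exact ((hL0 c (norm_le_two hn hc)).2 s hs).1
    · intro c hc
      exact (hL0 c (norm_le_two hn hc)).1
  have hg := fk_good hn h1 hnear hgood0
  have hgr : ∀ c ∈ MM n, ∀ s : ℂ, (3 / 2 : ℝ) < s.re → LL n Λ0 c s = Λ0 c s := by
    intro c hc s hs
    have h2 : SS' n 0 < s.re := by rw [SS'_zero]; exact hs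
    rw [LL_eq hn hg hc h2]
    rfl
  have hmul : ∀ (s : ℂ) (S : ℝ), 0 < S → S < s.re → S < ((n : ℂ) * s).re := by
    intro s S hS hs
    rw [re_nat_mul]
    nlinarith
  refine ⟨LL n Λ0, ?_, ?_, ?_, ?_, ?_⟩
  · rintro ⟨c, s⟩ ⟨hc, hs⟩
    have hc' : c ∈ MM n := hc
    have hs' : 0 < s.re := hs
    obtain ⟨k, hk⟩ := SS'_exists hn hs'
    have h2 : ContinuousOn (fun q : ℂ × ℂ => LL n Λ0 q.1 q.2)
        (MM n ×ˢ {s : ℂ | SS' n k < s.re}) := by
      refine (hg k).1.cont.congr ?_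
      rintro ⟨c', t⟩ ⟨hc', ht⟩
      exact LL_eq hn hg hc' ht
    have h3 := h2 (c, s) ⟨hc', hk⟩
    refine h3.mono_of_mem_nhdsWithin ?_
    have h4 : (univ ×ˢ {s : ℂ | SS' n k < s.re} : Set (ℂ × ℂ)) ∈ 𝓝 (c, s) :=
      (isOpen_univ.prod (isOpen_re _)).mem_nhds ⟨trivial, hk⟩
    filter_upwards [nhdsWithin_le_nhds h4, self_mem_nhdsWithin] with q hq1 hq2
    exact ⟨hq2.1, hq1.2⟩
  · intro c hc s hs
    obtain ⟨k, hk⟩ := SS'_exists hn (show 0 < s.re from hs)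
    have h2 : DifferentiableAt ℂ (fk n Λ0 k c) s :=
      ((hg k).1.diff c hc).differentiableAt ((isOpen_re _).mem_nhds hk)
    have h3 : LL n Λ0 c =ᶠ[𝓝 s] fk n Λ0 k c := by
      filter_upwards [(isOpen_re (SS' n k)).mem_nhds hk] with t ht
      exact LL_eq hn hg hc ht
    exact (h2.congr_of_eventuallyEq h3).differentiableWithinAt
  · intro c hc s hs
    obtain ⟨k, hk⟩ := SS'_exists hn hs
    rw [LL_eq hn hg hc hk, LL_eq hn hg hc (hmul s _ (SS'_pos hn k) hk)]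
    exact (hg k).1.func c hc s hk
  · intro c hc s hs
    have h2 : (3 / 2 : ℝ) < (s + 2 * Real.pi * I / n).re := by
      have h3 : (2 * (Real.pi : ℂ) * I / n).re = 0 := by
        have h4 : (2 * (Real.pi : ℂ) * I / n) = ((2 * Real.pi / n : ℝ) : ℂ) * I := by
          push_cast
          ring
        rw [h4]
        simp
      rw [add_re, h3, add_zero]
      exact hs
    rw [hgr c hc _ h2, hgr c hc s hs]
    exact ((hL0 c (norm_le_two hn hc)).2 s hs).2.1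
  · intro c hc s hs
    rw [hgr c hc s hs]
    exact hnear c (norm_le_two hn hc) s hs

lemma rot_re (_n : ℕ) (x : ℝ) (s : ℂ) : (s + x * I).re = s.re := by
  simp

lemma two_pi_div (n : ℕ) : (2 * (Real.pi : ℂ) * I / n) = ((2 * Real.pi / n : ℝ) : ℂ) * I := by
  push_cast
  ring

lemma rot {n : ℕ} {Λ : ℂ → ℂ → ℂ} (h : Pre n Λ) {c : ℂ} (hc : c ∈ MM n) {s : ℂ}
    (hs : 0 < s.re) : Λ c (s + 2 * Real.pi * I / n) = Λ c s + 2 * Real.pi * I / n := by
  have hopen := isOpen_re 0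
  have hf : AnalyticOnNhd ℂ (fun s => Λ c (s + 2 * Real.pi * I / n)) {s : ℂ | 0 < s.re} := by
    apply DifferentiableOn.analyticOnNhd _ hopen
    intro t ht
    have h1 : 0 < (t + 2 * Real.pi * I / n).re := by
      rw [two_pi_div, rot_re n]
      exact ht
    have h2 : DifferentiableAt ℂ (Λ c) (t + 2 * Real.pi * I / n) :=
      (h.diff c hc).differentiableAt (hopen.mem_nhds h1)
    have h3 : DifferentiableAt ℂ (fun t : ℂ => t + 2 * Real.pi * I / n) t := by fun_prop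
    exact (DifferentiableAt.comp t (g := Λ c) h2 h3).differentiableWithinAt
  have hg : AnalyticOnNhd ℂ (fun s => Λ c s + 2 * Real.pi * I / n) {s : ℂ | 0 < s.re} := by
    apply DifferentiableOn.analyticOnNhd _ hopen
    exact (h.diff c hc).add_const _
  have hpre : IsPreconnected {s : ℂ | 0 < s.re} := (convex_halfSpace_re_gt 0).isPreconnected
  have h2 : (2 : ℂ) ∈ {s : ℂ | 0 < s.re} := by
    show (0 : ℝ) < (2 : ℂ).re
    norm_num
  have he : (fun s => Λ c (s + 2 * Real.pi * I / n)) =ᶠ[𝓝 (2 : ℂ)]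
      (fun s => Λ c s + 2 * Real.pi * I / n) := by
    have h3 : (2 : ℂ) ∈ {s : ℂ | (3 / 2 : ℝ) < s.re} := by
      show (3 / 2 : ℝ) < (2 : ℂ).re
      norm_num
    filter_upwards [(isOpen_re (3 / 2)).mem_nhds h3] with t ht
    exact h.rot0 c hc t ht
  exact hf.eqOn_of_preconnected_of_eventuallyEq hg hpre h2 he hs

lemma rot_nat {n : ℕ} {Λ : ℂ → ℂ → ℂ} (h : Pre n Λ) {c : ℂ} (hc : c ∈ MM n) (l : ℕ) :
    ∀ {s : ℂ}, 0 < s.re → Λ c (s + l * (2 * Real.pi * I / n)) = Λ c s + l * (2 * Real.pi * I / n) := by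
  induction l with
  | zero => intro s _; simp
  | succ l ih =>
    intro s hs
    have h1 : 0 < (s + l * (2 * Real.pi * I / n)).re := by
      have h2 : (l : ℂ) * (2 * Real.pi * I / n) = ((l * (2 * Real.pi / n) : ℝ) : ℂ) * I := by
        push_cast
        ring
      rw [h2, rot_re n]
      exact hs
    have h2 : s + ((l + 1 : ℕ) : ℂ) * (2 * Real.pi * I / n) =
        (s + l * (2 * Real.pi * I / n)) + 2 * Real.pi * I / n := by
      push_cast
      ring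
    rw [h2, rot h hc h1, ih hs]
    push_cast
    ring

lemma rot_int {n : ℕ} {Λ : ℂ → ℂ → ℂ} (h : Pre n Λ) {c : ℂ} (hc : c ∈ MM n) (l : ℤ)
    {s : ℂ} (hs : 0 < s.re) :
    Λ c (s + l * (2 * Real.pi * I / n)) = Λ c s + l * (2 * Real.pi * I / n) := by
  obtain ⟨m, rfl | rfl⟩ := l.eq_nat_or_neg
  · exact_mod_cast rot_nat h hc m hs
  · have h1 : 0 < (s + ((-(m : ℤ) : ℤ) : ℂ) * (2 * Real.pi * I / n)).re := by
      have h2 : ((-(m : ℤ) : ℤ) : ℂ) * (2 * Real.pi * I / n) =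
          ((-(m * (2 * Real.pi / n)) : ℝ) : ℂ) * I := by
        push_cast
        ring
      rw [h2, rot_re n]
      exact hs
    have h3 := rot_nat h hc m h1
    have h4 : (s + ((-(m : ℤ) : ℤ) : ℂ) * (2 * Real.pi * I / n)) + m * (2 * Real.pi * I / n) = s := by
      push_cast
      ring
    rw [h4] at h3
    rw [h3]
    push_cast
    ring

/-- injectivity far to the right -/
lemma inj_far {n : ℕ} {Λ : ℂ → ℂ → ℂ} (h : Pre n Λ) {c : ℂ} (hc : c ∈ MM n) {s t : ℂ}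
    (hs : 2 ≤ s.re) (ht : 2 ≤ t.re) (he : Λ c s = Λ c t) : s = t := by
  have hd : ∀ z : ℂ, (3 / 2 : ℝ) < z.re → DifferentiableAt ℂ (fun z => Λ c z - z) z := by
    intro z hz
    have h1 : DifferentiableAt ℂ (Λ c) z :=
      (h.diff c hc).differentiableAt ((isOpen_re 0).mem_nhds (show (0 : ℝ) < z.re by linarith))
    exact h1.sub differentiableAt_id
  have hb : ∀ z ∈ {z : ℂ | 2 ≤ z.re}, ‖deriv (fun z => Λ c z - z) z‖ ≤ 1 / 2 := by
    intro z hz
    have hz' : 2 ≤ z.re := hz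
    have hin : ∀ w : ℂ, dist w z ≤ 49 / 100 → (3 / 2 : ℝ) < w.re := by
      intro w hw
      have h1 : |(w - z).re| ≤ 49 / 100 := (abs_re_le_norm _).trans (by rwa [← dist_eq_norm])
      rw [sub_re] at h1
      have := (abs_le.mp h1).1
      linarith
    have h1 : DiffContOnCl ℂ (fun z => Λ c z - z) (Metric.ball z (49 / 100)) := by
      apply DifferentiableOn.diffContOnCl
      intro w hw
      have hw2 := Metric.closure_ball_subset_closedBall hw
      exact (hd w (hin w hw2)).differentiableWithinAt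
    have h2 : ∀ w ∈ Metric.sphere z (49 / 100), ‖(fun z => Λ c z - z) w‖ ≤ 224 / 1000 := by
      intro w hw
      have hw1 : (3 / 2 : ℝ) < w.re := hin w (le_of_eq hw)
      refine (h.near c hc w hw1).trans ?_
      have h3 : Real.exp (-w.re) ≤ Real.exp (-(3 / 2)) := Real.exp_le_exp.mpr (by linarith)
      refine h3.trans ?_
      have h4 : Real.exp (-(3 / 2)) ^ 2 = Real.exp (-1) ^ 3 := by
        rw [← Real.exp_nat_mul, ← Real.exp_nat_mul]
        norm_num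
      have h5 : Real.exp (-1) < 0.3678794412 := Real.exp_neg_one_lt_d9
      have h6 : Real.exp (-(3 / 2)) ^ 2 ≤ (224 / 1000) ^ 2 := by
        rw [h4]
        have h7 : Real.exp (-1) ^ 3 ≤ 0.3678794412 ^ 3 :=
          pow_le_pow_left₀ (Real.exp_pos _).le h5.le 3
        refine h7.trans ?_
        norm_num
      exact le_of_sq_le_sq h6 (by norm_num)
    have h3 := Complex.norm_deriv_le_of_forall_mem_sphere_norm_le (by norm_num : (0 : ℝ) < 49 / 100) h1 h2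
    refine h3.trans ?_
    norm_num
  have hconv : Convex ℝ {z : ℂ | 2 ≤ z.re} := convex_halfSpace_re_ge 2
  have h1 := hconv.norm_image_sub_le_of_norm_deriv_le (𝕜 := ℂ) (f := fun z => Λ c z - z)
    (fun z hz => hd z (by have : 2 ≤ z.re := hz; linarith)) hb ht hs
  have h2 : Λ c s - s - (Λ c t - t) = -(s - t) := by
    rw [he]
    ring
  rw [h2, norm_neg] at h1
  have h3 : ‖s - t‖ ≤ 0 := by linarith
  have h4 := norm_le_zero_iff.mp h3
  exact sub_eq_zero.mp h4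

lemma inj_all {n : ℕ} (hn : 2 ≤ n) {Λ : ℂ → ℂ → ℂ} (h : Pre n Λ) {c : ℂ} (hc : c ∈ MM n) {s t : ℂ}
    (hs : 0 < s.re) (ht : 0 < t.re) (he : exp (Λ c s) = exp (Λ c t)) :
    ∃ k : ℤ, s - t = k * (2 * Real.pi * I) := by
  have hn0 : (n : ℂ) ≠ 0 := natCast_ne hn
  have hn1 : (2 : ℝ) ≤ n := by exact_mod_cast hn
  have hpi : (2 * (Real.pi : ℂ) * I) ≠ 0 := by
    simp [Real.pi_ne_zero]
  have hpos : ∀ (k : ℕ) {z : ℂ}, 0 < z.re → 0 < ((n : ℂ) ^ k * z).re := by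
    intro k z hz
    rw [re_pow_mul]
    positivity
  have key : ∀ k : ℕ, exp (Λ c ((n : ℂ) ^ k * s)) = exp (Λ c ((n : ℂ) ^ k * t)) := by
    intro k
    induction k with
    | zero => simpa using he
    | succ k ih =>
      have h1 := h.func c hc _ (hpos k hs)
      have h2 := h.func c hc _ (hpos k ht)
      rw [exp_nat_mul] at h1 h2
      rw [ih, h2] at h1
      have h3 : (n : ℂ) ^ (k + 1) * s = n * ((n : ℂ) ^ k * s) := by ring
      have h4 : (n : ℂ) ^ (k + 1) * t = n * ((n : ℂ) ^ k * t) := by ring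
      rw [h3, h4]
      exact (sub_left_inj.mp h1).symm
  have hfar : ∃ k : ℕ, ∃ l : ℤ, (n : ℂ) ^ k * s - (n : ℂ) ^ k * t = l * (2 * Real.pi * I) := by
    obtain ⟨m, hm⟩ := large hn (lt_min hs ht) 2
    have hs2 : 2 ≤ ((n : ℂ) ^ m * s).re := by
      rw [re_pow_mul]
      refine hm.trans ?_
      exact mul_le_mul_of_nonneg_left (min_le_left _ _) (by positivity)
    have ht2 : 2 ≤ ((n : ℂ) ^ m * t).re := by
      rw [re_pow_mul]
      refine hm.trans ?_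
      exact mul_le_mul_of_nonneg_left (min_le_right _ _) (by positivity)
    obtain ⟨l, hl⟩ := exp_eq_exp_iff_exists_int.mp (key m)
    refine ⟨m, l, ?_⟩
    have h1 : (l : ℂ) * (2 * Real.pi * I) = ((l * n : ℤ) : ℂ) * (2 * Real.pi * I / n) := by
      push_cast
      field_simp
    have h2 := rot_int h hc (l * n : ℤ) (s := (n : ℂ) ^ m * t) (by linarith)
    rw [← h1, ← hl] at h2
    have h3 : 2 ≤ ((n : ℂ) ^ m * t + l * (2 * Real.pi * I)).re := by
      have h4 : (l : ℂ) * (2 * Real.pi * I) = ((l * (2 * Real.pi) : ℝ) : ℂ) * I := by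
        push_cast
        ring
      rw [h4, rot_re n]
      exact ht2
    have h5 := inj_far h hc h3 hs2 h2
    rw [← h5]
    ring
  obtain ⟨k, hk⟩ := hfar
  induction k with
  | zero => simpa using hk
  | succ k ih =>
    apply ih
    obtain ⟨l, hl⟩ := hk
    have ha : (n : ℂ) ^ k * s = (n : ℂ) ^ k * t + l * (2 * Real.pi * I / n) := by
      have h1 : (n : ℂ) * ((n : ℂ) ^ k * s) = n * ((n : ℂ) ^ k * t + l * (2 * Real.pi * I / n)) := by
        have h2 : (n : ℂ) * ((n : ℂ) ^ k * t + l * (2 * Real.pi * I / n)) =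
            (n : ℂ) ^ (k + 1) * t + l * (2 * Real.pi * I) := by
          field_simp
          ring
        rw [h2, ← hl]
        ring
      exact mul_left_cancel₀ hn0 h1
    have h1 := key k
    rw [ha, rot_int h hc l (hpos k ht), exp_add] at h1
    have h2 : exp (l * (2 * Real.pi * I / n)) = 1 := by
      have h3 := exp_ne_zero (Λ c ((n : ℂ) ^ k * t))
      exact mul_left_cancel₀ h3 (by rw [h1, mul_one])
    obtain ⟨m, hm⟩ := exp_eq_one_iff.mp h2
    refine ⟨m, ?_⟩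
    rw [ha, ← hm]
    ring

lemma bdd_all {n : ℕ} (hn : 2 ≤ n) {Λ : ℂ → ℂ → ℂ} (h : Pre n Λ) {c : ℂ} (hc : c ∈ MM n) {s : ℂ}
    (hs : 0 < s.re) : ‖exp (Λ c s)‖ ≤ 4 * Real.exp s.re := by
  by_contra hcon
  push Not at hcon
  have hn1 : (2 : ℝ) ≤ n := by exact_mod_cast hn
  have hpos : ∀ (k : ℕ), 0 < ((n : ℂ) ^ k * s).re := by
    intro k
    rw [re_pow_mul]
    positivity
  have key : ∀ k : ℕ, 4 * Real.exp ((n : ℂ) ^ k * s).re < ‖exp (Λ c ((n : ℂ) ^ k * s))‖ := by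
    intro k
    induction k with
    | zero => simpa using hcon
    | succ k ih =>
      have h1 := h.func c hc _ (hpos k)
      have h3 : (n : ℂ) ^ (k + 1) * s = n * ((n : ℂ) ^ k * s) := by ring
      rw [h3]
      have h4 : exp (Λ c (n * ((n : ℂ) ^ k * s))) = exp (Λ c ((n : ℂ) ^ k * s)) ^ n + c := by
        rw [← exp_nat_mul, h1]
        ring
      rw [h4]
      have h5 : ‖exp (Λ c ((n : ℂ) ^ k * s))‖ ^ n - 2 ≤ ‖exp (Λ c ((n : ℂ) ^ k * s)) ^ n + c‖ := by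
        have h6 := norm_sub_norm_le (exp (Λ c ((n : ℂ) ^ k * s)) ^ n) (-c)
        rw [sub_neg_eq_add, norm_neg, norm_pow] at h6
        linarith [norm_le_two hn hc]
      have h7 : (4 * Real.exp ((n : ℂ) ^ k * s).re) ^ n ≤ ‖exp (Λ c ((n : ℂ) ^ k * s))‖ ^ n :=
        pow_le_pow_left₀ (by positivity) ih.le n
      rw [mul_pow, ← Real.exp_nat_mul, ← re_nat_mul n ((n : ℂ) ^ k * s)] at h7
      have h8 : (4 : ℝ) ^ 2 ≤ 4 ^ n := pow_le_pow_right₀ (by norm_num) hn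
      have h9 : 1 ≤ Real.exp ((n : ℂ) * ((n : ℂ) ^ k * s)).re := by
        apply Real.one_le_exp
        rw [re_nat_mul]
        have := hpos k
        positivity
      nlinarith
  obtain ⟨m, hm⟩ := large hn hs 2
  have h1 : 2 ≤ ((n : ℂ) ^ m * s).re := by rw [re_pow_mul]; exact hm
  have h2 := exp_upper (h.near c hc _ (by linarith)) h1
  exact absurd (key m) (not_lt.mpr h2)

end EXG_

/-- **EXG**: the global inverse Böttcher map. -/
theorem p_EXG (h0 : T_EX0) (h1 : T_EX1) : T_EXT := by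
  intro n hn
  obtain ⟨Λ, h⟩ := EXG_.exists_pre h0 h1 hn
  exact ⟨Λ, h.cont, h.diff, h.func, fun c hc s hs => EXG_.rot h hc hs,
    fun c hc s hs => h.near c hc s (by linarith),
    fun c hc s t hs ht he => EXG_.inj_all hn h hc hs ht he,
    fun c hc s hs => EXG_.bdd_all hn h hc hs⟩

end Pool.Agent.Limb
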