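import Pool.Agent.Limb.Targets

/-!
# LIMB: the final induction
-/

set_option autoImplicit false

open Complex Filter Topology Set
open Pool.Agent.Multibrot

namespace Pool.Agent.Limb

namespace FIN_

lemma norm_exp_sub_le (a b : ℂ) (h : a.re ≤ b.re) : ‖exp a - exp b‖ ≤ ‖exp b‖ * ‖a - b‖ := by
  have h1 : exp a - exp b = exp b * (exp (a - b) - 1) := by
    rw [mul_sub, ← exp_add, mul_one]
    congr 2
    ring
  rw [h1, norm_mul]
  apply mul_le_mul_of_nonneg_left _ (norm_nonneg _)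
  have h2 := norm_exp_sub_one_le' (a - b)
  have h3 : max 0 (a - b).re = 0 := by
    rw [sub_re]
    exact max_eq_left (by linarith)
  rwa [h3, Real.exp_zero, mul_one] at h2

lemma ell_sub {n : ℕ} (hn : 2 ≤ n) (L M : ℂ) : ‖ell n L - ell n M‖ = ‖L - M‖ / (n - 1) := by
  have h : ((n : ℂ) - 1) = ((n - 1 : ℝ) : ℂ) := by push_cast; ring
  have h2 : (2 : ℝ) ≤ n := by exact_mod_cast hn
  rw [ell, ell, ← sub_div, norm_div, h, norm_real, Real.norm_eq_abs, abs_of_pos (by linarith)]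
  congr 2
  ring

lemma cc_dist {n : ℕ} (hn : 2 ≤ n) {L M : ℂ} (hL : cc n L ∈ MM n) (hM : cc n M ∈ MM n) :
    ‖cc n L - cc n M‖ ≤ 4 * ‖L - M‖ / n := by
  have h2 : (2 : ℝ) ≤ n := by exact_mod_cast hn
  have b : ∀ K : ℂ, cc n K ∈ MM n → ‖cc n K‖ ≤ 2 := by
    intro K hK
    have := hK 1
    rwa [Q_one (by omega)] at this
  have key : ∀ K K' : ℂ, cc n K' ∈ MM n → (ell n K).re ≤ (ell n K').re →
      ‖cc n K - cc n K'‖ ≤ 4 * ‖K - K'‖ / n := by
    intro K K' hK' hle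
    have h1 := norm_exp_sub_le _ _ hle
    have h3 := b K' hK'
    rw [ell_sub hn] at h1
    have h4 : ‖K - K'‖ / (n - 1) ≤ 2 * ‖K - K'‖ / n := by
      rw [div_le_div_iff₀ (by linarith) (by linarith)]
      nlinarith [norm_nonneg (K - K')]
    calc ‖cc n K - cc n K'‖ ≤ ‖cc n K'‖ * (‖K - K'‖ / (n - 1)) := h1
      _ ≤ 2 * (2 * ‖K - K'‖ / n) := by
        apply mul_le_mul h3 h4 (div_nonneg (norm_nonneg _) (by linarith)) (by norm_num)
      _ = 4 * ‖K - K'‖ / n := by ring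
  rcases le_total (ell n L).re (ell n M).re with h | h
  · exact key L M hM h
  · rw [norm_sub_rev, norm_sub_rev L M]
    exact key M L hL h

lemma norm_zz_succ (n : ℕ) (L : ℂ) (i : ℕ) :
    ‖zz n L (i + 1)‖ = Real.exp L.re * ‖1 + zz n L i / n‖ ^ n := by
  rw [zz_succ, E, norm_mul, norm_exp, norm_pow]

/-- Growth along the tower. -/
lemma grow {n : ℕ} (hn : (10 : ℝ) ^ 20 ≤ n) {L : ℂ} (hL : 0 ≤ L.re) {i : ℕ}
    (h1 : 2 * 10 ^ 9 ≤ ‖zz n L i‖) (h2 : ‖zz n L i‖ / 1990 - 4 ≤ (zz n L i).re) :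
    4 * ‖zz n L i‖ ≤ ‖zz n L (i + 1)‖ := by
  set z := zz n L i with hz
  have hn0 : (0 : ℝ) < n := lt_of_lt_of_le (by norm_num) hn
  have h3 : ‖z‖ / 2000 ≤ z.re := by linarith
  have hre : (z / n).re = z.re / n := by rw [← ofReal_natCast, div_ofReal_re]
  set y : ℝ := z.re / n with hy
  have hy0 : 0 ≤ y := div_nonneg (by linarith [norm_nonneg z]) hn0.le
  have h4 : 1 + y ≤ ‖1 + z / n‖ := by
    have := re_le_norm (1 + z / n)
    rwa [add_re, one_re, hre] at this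
  have h5 : (1 + y) ^ n ≤ ‖1 + z / n‖ ^ n := pow_le_pow_left₀ (by linarith) h4 n
  have h6 : ((1 + (n / 2 : ℕ) * y)) ^ 2 ≤ (1 + y) ^ n := by
    calc ((1 + (n / 2 : ℕ) * y)) ^ 2 ≤ ((1 + y) ^ (n / 2)) ^ 2 := by
          apply pow_le_pow_left₀ (by positivity)
          exact one_add_mul_le_pow (by linarith) (n / 2)
      _ = (1 + y) ^ (n / 2 * 2) := by rw [pow_mul]
      _ ≤ (1 + y) ^ n := pow_le_pow_right₀ (by linarith) (by omega)
  have h7 : (n : ℝ) / 3 ≤ (n / 2 : ℕ) := by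
    have h8 : n ≤ 2 * (n / 2) + 1 := by omega
    have h9 : (n : ℝ) ≤ 2 * (n / 2 : ℕ) + 1 := by exact_mod_cast h8
    linarith
  have h8 : z.re / 3 ≤ (n / 2 : ℕ) * y := by
    calc z.re / 3 = (n : ℝ) / 3 * y := by rw [hy]; field_simp
      _ ≤ _ := mul_le_mul_of_nonneg_right h7 hy0
  have h9 : (‖z‖ / 6000) ^ 2 ≤ (1 + (n / 2 : ℕ) * y) ^ 2 := by
    apply pow_le_pow_left₀ (by positivity)
    linarith
  have h10 : 4 * ‖z‖ ≤ (‖z‖ / 6000) ^ 2 := by
    nlinarith
  rw [norm_zz_succ]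
  calc 4 * ‖z‖ ≤ 1 * ‖1 + z / n‖ ^ n := by linarith
    _ ≤ Real.exp L.re * ‖1 + z / n‖ ^ n :=
        mul_le_mul_of_nonneg_right (Real.one_le_exp hL) (by positivity)

/-- The step at the top of the tower. -/
lemma far {n : ℕ} (hn : (10 : ℝ) ^ 20 ≤ n) {L : ℂ} (hc : cc n L ∈ MM n) (hL : 0 ≤ L.re) {j : ℕ}
    (hz : zz n L j ≠ -n) (hfar : ¬ NFR n j L) :
    ‖zz n L j‖ / 1990 ≤ (zz n L j).re ∧ Real.exp (‖zz n L j‖ / 1010) ≤ ‖zz n L (j + 1)‖ := by
  have hn0 : (0 : ℝ) < n := lt_of_lt_of_le (by norm_num) hn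
  have hn2 : 2 ≤ n := by
    have : (2 : ℝ) ≤ n := le_trans (by norm_num) hn
    exact_mod_cast this
  have hnc : (n : ℂ) ≠ 0 := natCast_ne hn2
  set z := zz n L j with hzdef
  have h1z : 1 + z / n ≠ 0 := by
    intro h0
    apply hz
    have h2 : z / n = -1 := by linear_combination h0
    rw [div_eq_iff hnc] at h2
    rw [h2]
    ring
  set v : ℂ := log (1 + z / n) with hv
  have hev : exp v = 1 + z / n := exp_log h1z
  have h1 : ‖(n : ℂ) * v‖ / 1000 ≤ ((n : ℂ) * v).re := not_lt.1 hfar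
  have hre : ((n : ℂ) * v).re = n * v.re := by
    rw [← ofReal_natCast, re_ofReal_mul]
  have hnorm : ‖(n : ℂ) * v‖ = n * ‖v‖ := by rw [norm_mul, norm_natCast]
  rw [hre, hnorm] at h1
  have h2 : ‖v‖ ≤ 1000 * v.re := by
    have h3 : n * (‖v‖ / 1000) ≤ n * v.re := by
      calc n * (‖v‖ / 1000) = n * ‖v‖ / 1000 := by ring
        _ ≤ _ := h1
    have h4 := le_of_mul_le_mul_left h3 hn0
    linarith
  have hvre : v.re = Real.log ‖1 + z / n‖ := by rw [hv, log_re]
  have h3 : n * v.re ≤ n * (2 / 10 ^ 17) := by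
    rw [hvre]
    calc n * Real.log ‖1 + z / n‖ ≤ 2 * (Real.log 2 + Real.log n) := log_orbit_le' hn2 hc hL j
      _ ≤ 2 * (n / 10 ^ 17) := by linarith [log_nat_le hn]
      _ = _ := by ring
  have h4 : v.re ≤ 2 / 10 ^ 17 := le_of_mul_le_mul_left h3 hn0
  have h5 : ‖v‖ ≤ 1 / 10 ^ 13 := by
    calc ‖v‖ ≤ 1000 * v.re := h2
      _ ≤ 1000 * (2 / 10 ^ 17) := by linarith
      _ ≤ _ := by norm_num
  have h6 : ‖exp v - 1 - v‖ ≤ ‖v‖ ^ 2 := norm_exp_sub_one_sub_id_le (h5.trans (by norm_num))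
  have h7 : exp v - 1 - v = z / n - v := by rw [hev]; ring
  rw [h7] at h6
  have h8 : ‖v‖ ^ 2 ≤ ‖v‖ / 10 ^ 13 := by
    have := mul_le_mul_of_nonneg_left h5 (norm_nonneg v)
    calc ‖v‖ ^ 2 = ‖v‖ * ‖v‖ := by ring
      _ ≤ ‖v‖ * (1 / 10 ^ 13) := this
      _ = _ := by ring
  have h9 : ‖z / n‖ ≤ 1.001 * ‖v‖ := by
    have h10 : ‖z / n‖ ≤ ‖z / n - v‖ + ‖v‖ := by
      have := norm_add_le (z / n - v) v
      rwa [sub_add_cancel] at this
    have h11 : ‖v‖ / 10 ^ 13 ≤ 0.001 * ‖v‖ := by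
      have := norm_nonneg v
      rw [div_le_iff₀ (by positivity)]
      nlinarith
    linarith
  have hzn : ‖z / n‖ = ‖z‖ / n := by rw [norm_div, norm_natCast]
  have hznre : (z / n).re = z.re / n := by rw [← ofReal_natCast, div_ofReal_re]
  constructor
  · have h10 : v.re - ‖z / n - v‖ ≤ (z / n).re := by
      have h11 := abs_re_le_norm (z / n - v)
      rw [sub_re] at h11
      have := (abs_le.1 h11).1
      linarith
    have h12 : ‖v‖ / 1000 - ‖v‖ / 10 ^ 13 ≤ (z / n).re := by linarith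
    have h13 : ‖z / n‖ / 1990 ≤ (z / n).re := by
      have h14 : ‖z / n‖ / 1990 ≤ ‖v‖ / 1000 - ‖v‖ / 10 ^ 13 := by
        have := norm_nonneg v
        have h15 : ‖v‖ / 10 ^ 13 ≤ ‖v‖ / 10 ^ 6 := by
          apply div_le_div_of_nonneg_left this (by norm_num) (by norm_num)
        linarith
      linarith
    rw [hzn, hznre] at h13
    have h14 : n * (‖z‖ / n / 1990) ≤ n * (z.re / n) := mul_le_mul_of_nonneg_left h13 hn0.le
    have e1 : n * (‖z‖ / n / 1990) = ‖z‖ / 1990 := by field_simp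
    have e2 : n * (z.re / n) = z.re := by field_simp
    rwa [e1, e2] at h14
  · rw [norm_zz_succ]
    have h10 : ‖1 + z / n‖ ^ n = Real.exp (n * v.re) := by
      rw [Real.exp_nat_mul, hvre, Real.exp_log (norm_pos_iff.2 h1z)]
    show Real.exp (‖z‖ / 1010) ≤ Real.exp L.re * ‖1 + z / n‖ ^ n
    rw [h10, ← Real.exp_add]
    apply Real.exp_le_exp.2
    have h11 : ‖z‖ ≤ 1.001 * (n * ‖v‖) := by
      rw [hzn, div_le_iff₀ hn0] at h9
      linarith
    have h12 : n * ‖v‖ ≤ n * (1000 * v.re) := mul_le_mul_of_nonneg_left h2 hn0.le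
    have h13 : 0 ≤ n * ‖v‖ := by positivity
    linarith

lemma exp23 : (4 : ℝ) * 10 ^ 9 ≤ Real.exp 23 := by
  have h4 : Real.exp 23 = Real.exp 1 ^ 23 := by rw [← Real.exp_nat_mul]; norm_num
  rw [h4]
  have h5 := Real.exp_one_gt_d9
  have h6 : (2.7182818283 : ℝ) ^ 23 ≤ Real.exp 1 ^ 23 :=
    pow_le_pow_left₀ (by norm_num) h5.le 23
  refine le_trans (by norm_num) h6

lemma iter_ge_one {x : ℝ} (hx : 0 ≤ x) : ∀ j, 1 ≤ j → 1 ≤ Real.exp^[j] x := by
  have h0 : ∀ j, 0 ≤ Real.exp^[j] x := by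
    intro j
    induction j with
    | zero => exact hx
    | succ j _ =>
      rw [Function.iterate_succ_apply']
      exact (Real.exp_pos _).le
  intro j hj
  obtain ⟨k, rfl⟩ : ∃ k, j = k + 1 := ⟨j - 1, by omega⟩
  rw [Function.iterate_succ_apply']
  exact Real.one_le_exp (h0 k)

/-- The inductive invariant. -/
structure Inv (n j : ℕ) (x : ℝ) (L0 L : ℂ) : Prop where
  i0 : ‖L - L0‖ ≤ 2 - 2 * (1 / 2) ^ (j - 1)
  i1 : ∀ i, 1 ≤ i → i < j →
    3 * 10 ^ 9 * Real.exp^[i] x - (2 - 2 * (1 / 2) ^ (j - 1 - i)) ≤ ‖zz n L i‖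
  i2 : ∀ i, 1 ≤ i → i < j →
    ‖zz n L i‖ / 1990 - (4 - 4 * (1 / 2) ^ (j - 1 - i)) ≤ (zz n L i).re
  i3 : 4 * 10 ^ 9 * Real.exp^[j] x ≤ ‖zz n L j‖

lemma Inv.lowS {n j : ℕ} {x : ℝ} {L0 L : ℂ} (h : Inv n j x L0 L) (hj : 1 ≤ j)
    (hn : (10 : ℝ) ^ 20 ≤ n) (hx : 0 ≤ x) (hL : 0 ≤ L.re) : LowS n j L := by
  have hp : ∀ k : ℕ, (0 : ℝ) < (1 / 2) ^ k := fun k => by positivity
  have hb : ∀ i, 1 ≤ i → i < j → 2 * 10 ^ 9 ≤ ‖zz n L i‖ := by
    intro i h1 h2
    have h3 := h.i1 i h1 h2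
    have h4 := iter_ge_one hx i h1
    have h5 := hp (j - 1 - i)
    linarith
  have hr : ∀ i, 1 ≤ i → i < j → ‖zz n L i‖ / 1990 - 4 ≤ (zz n L i).re := by
    intro i h1 h2
    have h3 := h.i2 i h1 h2
    have h5 := hp (j - 1 - i)
    linarith
  refine ⟨hn, hj, ?_, ?_, ?_⟩
  · rcases hj.lt_or_eq with h1 | h1
    · have := hb 1 (le_refl _) h1
      linarith
    · have h2 := h.i3
      rw [← h1] at h2
      have h4 := iter_ge_one hx 1 (le_refl _)
      linarith
  · intro i h1 h2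
    exact grow hn hL (hb i h1 h2) (hr i h1 h2)
  · intro i h1 h2
    have h3 := hb i h1 h2
    have h4 := hr i h1 h2
    linarith

lemma step {n j : ℕ} {x : ℝ} {L0 L M : ℂ} (h : Inv n j x L0 L) (hj : 1 ≤ j)
    (hn : (10 : ℝ) ^ 20 ≤ n) (hx : 0 ≤ x) (hM : 0 ≤ M.re) (hcM : cc n M ∈ MM n)
    (hrM : NR n (j + 1) (cc n M)) (hN : NN n j L M) (hfar : ¬ NFR n j M) :
    Inv n (j + 1) x L0 M := by
  have hn2 : 2 ≤ n := by
    have : (2 : ℝ) ≤ n := le_trans (by norm_num) hn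
    exact_mod_cast this
  obtain ⟨n1, n2, n3⟩ := hN
  obtain ⟨f1, f2⟩ := far hn hcM hM (hrM.zz_ne hn2 j (le_refl _)) hfar
  have ht := iter_ge_one hx j hj
  have hz0 : 0 < ‖zz n L j‖ := by
    have := h.i3
    linarith
  have hM0 : 0 < ‖zz n M j‖ := by
    obtain ⟨k, hk⟩ : ∃ k, j = k + 1 := ⟨j - 1, by omega⟩
    rw [hk, norm_zz_succ]
    have h1 : 1 + zz n M k / n ≠ 0 := by
      intro h0
      have h2 := hrM.zz_ne hn2 k (by omega)
      apply h2
      have hnc := natCast_ne hn2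
      have h3 : zz n M k / n = -1 := by linear_combination h0
      rw [div_eq_iff hnc] at h3
      rw [h3]
      ring
    have := norm_pos_iff.2 h1
    positivity
  have hzj : 3 * 10 ^ 9 * Real.exp^[j] x ≤ ‖zz n M j‖ := by
    set q := zz n M j / zz n L j with hq
    have hq0 : q ≠ 0 := div_ne_zero (norm_pos_iff.1 hM0) (norm_pos_iff.1 hz0)
    have h1 : ‖q‖ = Real.exp (log q).re := by rw [← norm_exp, exp_log hq0]
    have h2 : -(1 / 4 : ℝ) ≤ (log q).re := by
      have := abs_le.1 ((abs_re_le_norm (log q)).trans n3)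
      linarith [this.1]
    have h3 : (3 / 4 : ℝ) ≤ ‖q‖ := by
      rw [h1]
      have h4 := Real.add_one_le_exp (log q).re
      linarith
    have h4 : ‖zz n M j‖ = ‖q‖ * ‖zz n L j‖ := by
      rw [hq, norm_div, div_mul_cancel₀ _ hz0.ne']
    rw [h4]
    have h5 := h.i3
    nlinarith
  refine ⟨?_, ?_, ?_, ?_⟩
  · have h1 : ‖M - L0‖ ≤ ‖M - L‖ + ‖L - L0‖ := norm_sub_le_norm_sub_add_norm_sub _ _ _
    have h2 := h.i0
    have h3 : ((1 : ℝ) / 2) ^ (j + 1 - 1) = (1 / 2) ^ (j - 1) * (1 / 2) := by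
      rw [← pow_succ]
      congr 1
      omega
    rw [h3]
    linarith
  · intro i hi1 hi2
    rcases (Nat.lt_succ_iff.1 hi2).lt_or_eq with h1 | h1
    · have h2 := n2 i hi1 h1
      have h3 := h.i1 i hi1 h1
      have h4 : ‖zz n L i‖ ≤ ‖zz n M i‖ + ‖zz n M i - zz n L i‖ := by
        have := norm_add_le (zz n M i) (zz n L i - zz n M i)
        rw [add_sub_cancel, norm_sub_rev (zz n L i)] at this
        exact this
      have h5 : ((1 : ℝ) / 2) ^ (j + 1 - 1 - i) = (1 / 2) ^ (j - 1 - i) * (1 / 2) := by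
        rw [← pow_succ]
        congr 1
        omega
      rw [h5]
      linarith
    · rw [h1]
      have h5 : j + 1 - 1 - j = 0 := by omega
      rw [h5, pow_zero]
      linarith
  · intro i hi1 hi2
    rcases (Nat.lt_succ_iff.1 hi2).lt_or_eq with h1 | h1
    · have h2 := n2 i hi1 h1
      have h3 := h.i2 i hi1 h1
      have h4 : ‖zz n M i‖ ≤ ‖zz n L i‖ + ‖zz n M i - zz n L i‖ := by
        have := norm_add_le (zz n L i) (zz n M i - zz n L i)
        rwa [add_sub_cancel] at this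
      have h5 : ((1 : ℝ) / 2) ^ (j + 1 - 1 - i) = (1 / 2) ^ (j - 1 - i) * (1 / 2) := by
        rw [← pow_succ]
        congr 1
        omega
      have h6 := (abs_le.1 ((abs_re_le_norm (zz n M i - zz n L i)).trans h2)).1
      rw [sub_re] at h6
      have h7 : (0 : ℝ) < (1 / 2) ^ (j - 1 - i) := by positivity
      rw [h5]
      linarith
    · rw [h1]
      have h5 : j + 1 - 1 - j = 0 := by omega
      rw [h5, pow_zero]
      linarith
  · rw [Function.iterate_succ_apply']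
    refine le_trans ?_ f2
    set t := Real.exp^[j] x with htdef
    have h1 : 23 + t ≤ ‖zz n M j‖ / 1010 := by linarith
    calc 4 * 10 ^ 9 * Real.exp t ≤ Real.exp 23 * Real.exp t :=
          mul_le_mul_of_nonneg_right exp23 (Real.exp_pos _).le
      _ = Real.exp (23 + t) := by rw [Real.exp_add]
      _ ≤ _ := Real.exp_le_exp.2 h1

end FIN_

open FIN_ in
theorem p_FIN (hC : T_CROSS) (hG : T_GEO) (hR : T_ROT) : T_FIN := by
  refine ⟨10 ^ 21, by norm_num, ?_⟩
  intro m n x hm hn hx hnx A hA hconn hNR a ha b hb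
  have hn0 : (0 : ℝ) < n := by
    have : (2 : ℝ) ≤ n := by exact_mod_cast hn
    linarith
  have hbd : ∀ c ∈ A, ‖c‖ ≤ 2 := by
    intro c hc
    have := hA hc 1
    rwa [Q_one (by omega)] at this
  rcases lt_or_ge (n : ℝ) (10 ^ 20) with hsmall | hbig
  · have h1 : dist a b ≤ 4 := by
      rw [dist_eq_norm]
      have := norm_sub_le a b
      linarith [hbd a ha, hbd b hb]
    rw [le_div_iff₀ hn0]
    have h2 : dist a b * n ≤ 4 * 10 ^ 20 :=
      mul_le_mul h1 hsmall.le hn0.le (by norm_num)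
    nlinarith
  · by_contra hcon
    push Not at hcon
    have hn4 : 4 ≤ n := by
      have : (4 : ℝ) ≤ n := le_trans (by norm_num) hbig
      exact_mod_cast this
    obtain ⟨A', ω, La, Lb, hA', hω, hLa, hLb, hea, heb, hall⟩ :=
      hG n A hn4 hconn hA (fun c hc => (hNR c hc).mono hm) a ha b hb
    have hωn := (show ‖ω‖ = 1 from by
      have h1 : ‖ω‖ ^ (n - 1) = 1 := by rw [← norm_pow, hω]; simp
      exact (pow_eq_one_iff_of_nonneg (norm_nonneg _) (by omega)).1 h1)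
    have hMM : ∀ L ∈ A', cc n L ∈ MM n := fun L hL =>
      (hR n m (cc n L) ω hn hω).1 (hA (hall L hL).2.2.2.2)
    have hNR' : ∀ L ∈ A', NR n m (cc n L) := fun L hL =>
      (hR n m (cc n L) ω hn hω).2 (hNR _ (hall L hL).2.2.2.2)
    have hdist : dist a b ≤ 4 * ‖La - Lb‖ / n := by
      rw [dist_eq_norm, hea, heb, ← mul_sub, norm_mul, hωn, one_mul]
      exact cc_dist hn (hMM La hLa) (hMM Lb hLb)
    have hfar : 100 * (x + 1) < ‖La - Lb‖ := by
      have h1 : 10 ^ 21 * (x + 1) / n < 4 * ‖La - Lb‖ / n := hcon.trans_le hdist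
      rw [div_lt_div_iff_of_pos_right hn0] at h1
      linarith
    -- the starting point
    obtain ⟨L0, hL0, L1, hL1, hfar2, hre0⟩ : ∃ L0 ∈ A', ∃ L1 ∈ A', 100 < ‖L1 - L0‖ ∧
        25 * (x + 1) ≤ L0.re := by
      have h1 := Complex.norm_le_abs_re_add_abs_im (La - Lb)
      rw [sub_re, sub_im] at h1
      have h2 := hall La hLa
      have h3 := hall Lb hLb
      have hpi := Real.pi_lt_four
      have h4 : |La.im - Lb.im| ≤ 8 := by
        rw [abs_le]
        constructor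
        · linarith [h2.1, h3.2.1]
        · linarith [h2.2.1, h3.1]
      have h5 : 92 * (x + 1) ≤ |La.re - Lb.re| := by nlinarith
      rcases le_total 0 (La.re - Lb.re) with h6 | h6
      · rw [abs_of_nonneg h6] at h5
        refine ⟨La, hLa, Lb, hLb, ?_, by linarith [h3.2.2.1]⟩
        rw [norm_sub_rev]
        linarith
      · rw [abs_of_nonpos h6] at h5
        exact ⟨Lb, hLb, La, hLa, by linarith, by linarith [h2.2.2.1]⟩
    have key : ∀ j, 1 ≤ j → j ≤ m → ∃ L ∈ A', Inv n j x L0 L := by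
      intro j hj
      induction j, hj using Nat.le_induction with
      | base =>
        intro _
        refine ⟨L0, hL0, ?_, ?_, ?_, ?_⟩
        · simp
        · intro i h1 h2
          omega
        · intro i h1 h2
          omega
        · rw [zz_one, norm_exp]
          show 4 * 10 ^ 9 * Real.exp x ≤ Real.exp L0.re
          calc 4 * 10 ^ 9 * Real.exp x ≤ Real.exp 23 * Real.exp x :=
                mul_le_mul_of_nonneg_right exp23 (Real.exp_pos _).le
            _ = Real.exp (23 + x) := by rw [Real.exp_add]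
            _ ≤ _ := Real.exp_le_exp.2 (by linarith)
      | succ j hj ih =>
        intro hjm
        obtain ⟨L, hL, hI⟩ := ih (by omega)
        have hp : (0 : ℝ) < (1 / 2) ^ (j - 1) := by positivity
        have hp1 : ((1 : ℝ) / 2) ^ (j - 1) ≤ 1 := pow_le_one₀ (by norm_num) (by norm_num)
        have hL2 : ‖L - L0‖ ≤ 2 := by linarith [hI.i0]
        have hre : ∀ K : ℂ, ‖K - L0‖ ≤ 3 → 0 ≤ K.re := by
          intro K hK
          have h1 := (abs_le.1 ((abs_re_le_norm (K - L0)).trans hK)).1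
          rw [sub_re] at h1
          linarith
        have hS := hI.lowS hj hbig hx (hre L (by linarith))
        obtain ⟨M, hM, hN, hF⟩ := hC n j A' L hA'
          (fun K hK => ⟨(hall K hK).1, (hall K hK).2.1, hMM K hK, (hNR' K hK).mono hjm⟩) hL hS
          ⟨L1, hL1, by
            intro hN
            have h1 := hN.1
            have h2 : ‖L1 - L0‖ ≤ ‖L1 - L‖ + ‖L - L0‖ := norm_sub_le_norm_sub_add_norm_sub _ _ _
            linarith⟩
        have hM3 : ‖M - L0‖ ≤ 3 := by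
          have h1 := hN.1
          have h2 : ‖M - L0‖ ≤ ‖M - L‖ + ‖L - L0‖ := norm_sub_le_norm_sub_add_norm_sub _ _ _
          linarith
        exact ⟨M, hM, step hI hj hbig hx (hre M hM3) (hMM M hM) ((hNR' M hM).mono hjm) hN hF⟩
    obtain ⟨L, hL, hI⟩ := key m hm (le_refl _)
    have hre : 0 ≤ L.re := by
      have hp : (0 : ℝ) < (1 / 2) ^ (m - 1) := by positivity
      have h2 : ‖L - L0‖ ≤ 2 := by linarith [hI.i0]
      have h1 := (abs_le.1 ((abs_re_le_norm (L - L0)).trans h2)).1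
      rw [sub_re] at h1
      linarith
    have h1 := norm_zz_le hbig (hMM L hL) hre m
    have h2 := hI.i3
    linarith

end Pool.Agent.Limb
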