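import Pool.Agent.Limb.Targets

/-!
GDISC: the chain near the origin.
-/

set_option autoImplicit false

open Complex Filter Topology Set
open Pool.Agent.Multibrot

namespace Pool.Agent.Limb

namespace GDISC_

theorem step_E (n : ℕ) (hn : (n : ℂ) ≠ 0) (L a V : ℂ) :
    E n L (n * ((1 + a / n) * exp (V / n) - 1)) = E n L a * exp V := by
  unfold E
  have h1 : 1 + (n : ℂ) * ((1 + a / n) * exp (V / n) - 1) / n = (1 + a / n) * exp (V / n) := by
    field_simp
    ring
  rw [h1, mul_pow, ← exp_nat_mul]
  have h2 : (n : ℂ) * (V / n) = V := by field_simp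
  rw [h2]
  ring

end GDISC_

open GDISC_ in
theorem p_GDISC (h1 : T_PSI) (h2 : T_DISCST) : T_GDISC := by
  intro n k L U hn hz hU
  have hn0 : (0 : ℝ) < n := lt_of_lt_of_le (by positivity) hn
  have hnC : (n : ℂ) ≠ 0 := by
    have : (n : ℝ) ≠ 0 := hn0.ne'
    exact_mod_cast this
  have hnn : ‖(n : ℂ)‖ = (n : ℝ) := by simp
  induction k generalizing U with
  | zero =>
    obtain ⟨hpd, hps, hpl, _⟩ := h1
    have hUn : ‖U / n‖ ≤ ‖U‖ / (10 : ℝ) ^ 20 := by
      rw [norm_div, hnn]
      exact div_le_div_of_nonneg_left (norm_nonneg _) (by positivity) hn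
    have hsmall : ‖U / n‖ ≤ 1 / 20 := by
      refine hUn.trans ?_
      rw [div_le_iff₀ (by positivity)]
      norm_num
      linarith
    have him : |(U / (n : ℂ)).im| < Real.pi := by
      refine lt_of_le_of_lt ((abs_im_le_norm _).trans hsmall) ?_
      have := Real.pi_gt_three
      linarith
    have hsl := (hps _ him).1
    have hne : psi (U / n) ≠ 0 := slitPlane_ne_zero hsl
    have hdiffdiv : DifferentiableAt ℂ (fun V : ℂ => V / (n : ℂ)) U :=
      differentiableAt_id.div_const _
    refine ⟨?_, ?_, ?_, ?_, ?_, ?_, ?_⟩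
    · show ‖log (psi (U / n))‖ ≤ _
      refine (hpl _ hsmall).trans ?_
      have := norm_nonneg U
      have h3 : ‖U‖ / (10 : ℝ) ^ 20 ≤ 1 / 10 ^ 8 * ‖U‖ := by
        rw [div_eq_mul_inv, mul_comm]
        apply mul_le_mul_of_nonneg_right _ this
        norm_num
      nlinarith
    · show ‖U - U‖ ≤ _
      simp
    · show U * exp (log (psi (U / n))) = DD n L 0 * ((n : ℂ) * (exp (U / n) - 1))
      rw [exp_log hne]
      unfold DD psi
      simp only [Finset.range_zero, Finset.prod_empty, one_mul]
      split_ifs with h0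
      · have : U = 0 := by
          rcases div_eq_zero_iff.mp h0 with h | h
          · exact h
          · exact absurd h hnC
        subst this
        simp
      · have hU0 : U ≠ 0 := by
          intro h; apply h0; rw [h, zero_div]
        field_simp
    · show (n : ℂ) * (exp (U / n) - 1) = n * ((1 + (0 : ℂ) / n) * exp (U / n) - 1)
      simp
    · show DifferentiableAt ℂ (fun V : ℂ => log (psi (V / n))) U
      exact (hpd.differentiableAt.comp U hdiffdiv).clog hsl
    · show DifferentiableAt ℂ (fun V : ℂ => V) U
      exact differentiableAt_id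
    · show DifferentiableAt ℂ (fun V : ℂ => V) U
      exact differentiableAt_id
  | succ k ih =>
    obtain ⟨hz1, hz2⟩ := hz (k + 1) (by omega) le_rfl
    obtain ⟨hs, hU', htau, hid, hdh, hdt⟩ := h2 n (zz n L (k + 1)) U hn hz1 hz2 hU
    set z := zz n L (k + 1) with hzdef
    set V := hh n z U with hV
    have hU0 := norm_nonneg U
    have hV3 : ‖V‖ < 3 := by
      refine lt_of_le_of_lt hU' ?_
      have : (3 : ℝ) / 10 ^ 8 * ‖U‖ ≤ ‖U‖ := by
        have h4 : (3 : ℝ) / 10 ^ 8 ≤ 1 := by norm_num
        nlinarith
      linarith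
    obtain ⟨i1, i2, i3, i4, i5, i6, i7⟩ := ih V (fun i hi hik => hz i hi (by omega)) hV3
    have hzne : z ≠ 0 := by
      intro h
      rw [h, norm_zero] at hz1
      norm_num at hz1
    refine ⟨?_, ?_, ?_, ?_, ?_, ?_, ?_⟩
    · show ‖GG n L k V + tau n z U‖ ≤ _
      refine (norm_add_le _ _).trans ?_
      nlinarith
    · show ‖U + SS n L k V - U‖ ≤ _
      have h5 : U + SS n L k V - U = (SS n L k V - V) + V := by ring
      rw [h5]
      refine (norm_add_le _ _).trans ?_
      nlinarith
    · show U * exp (GG n L k V + tau n z U) = DD n L (k + 1) * W0 n L (k + 1) U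
      have h6 : W0 n L (k + 1) U = W0 n L k V := rfl
      have h7 : DD n L (k + 1) = DD n L k * (z / (1 + z / n)) := by
        unfold DD
        rw [Finset.prod_range_succ]
      rw [h6, h7, exp_add]
      calc U * (exp (GG n L k V) * exp (tau n z U))
          = (U * exp (tau n z U)) * exp (GG n L k V) := by ring
        _ = (z / (1 + z / n)) * (V * exp (GG n L k V)) := by rw [hid]; ring
        _ = (z / (1 + z / n)) * (DD n L k * W0 n L k V) := by rw [i3]
        _ = _ := by ring
    · have h6 : W0 n L (k + 1) U = W0 n L k V := rfl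
      rw [h6, Function.iterate_succ_apply', i4, step_E n hnC]
      have h8 : E n L (zz n L k) = z := by
        rw [hzdef]
        unfold zz
        rw [Function.iterate_succ_apply']
      rw [h8]
      have h9 : exp V = 1 + (1 + n / z) * (exp (U / n) - 1) := by
        rw [hV]
        unfold hh
        exact exp_log (slitPlane_ne_zero hs)
      rw [h9]
      field_simp
      ring
    · show DifferentiableAt ℂ (fun X : ℂ => GG n L k (hh n z X) + tau n z X) U
      have := (show DifferentiableAt ℂ (GG n L k) (hh n z U) from i5).comp U hdh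
      exact this.add hdt
    · show DifferentiableAt ℂ (fun X : ℂ => VV n L k (hh n z X)) U
      exact (show DifferentiableAt ℂ (VV n L k) (hh n z U) from i6).comp U hdh
    · show DifferentiableAt ℂ (fun X : ℂ => X + SS n L k (hh n z X)) U
      have := (show DifferentiableAt ℂ (SS n L k) (hh n z U) from i7).comp U hdh
      exact differentiableAt_id.add this

end Pool.Agent.Limb
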