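import Pool.Agent.Limb.Targets

/-!
# LIMB: GEO, logarithmic coordinates on a connected set of parameters without non-repelling
fixed points
-/

set_option autoImplicit false

open Complex Filter Topology Set
open Pool.Agent.Multibrot

namespace Pool.Agent.Limb

namespace GEO_

/-- The multiplier of a point for the first iterate. -/
lemma deriv_one (n : ℕ) (c z : ℂ) : deriv ((F n c)^[1]) z = n * z ^ (n - 1) := by
  rw [Function.iterate_one]
  have h : HasDerivAt (F n c) (n * z ^ (n - 1)) z := by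
    unfold F
    exact (hasDerivAt_pow n z).add_const c
  exact h.deriv

/-- A fixed point in the closed disc of radius `x0` has a small multiplier. -/
lemma no_fix {n : ℕ} (hn : 2 ≤ n) {c z : ℂ} (h : NR n 1 c) (hz : z ^ n + c = z) : x0 n < ‖z‖ := by
  by_contra hcon
  push Not at hcon
  have h1 := h 1 le_rfl le_rfl z (by rw [Function.iterate_one]; exact hz)
  rw [deriv_one, norm_mul, norm_pow, Complex.norm_natCast] at h1
  have h2 : ‖z‖ ^ (n - 1) ≤ 1 / n := by
    rw [← x0_pow hn]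
    exact pow_le_pow_left₀ (norm_nonneg _) hcon _
  have hn0 : (0 : ℝ) < n := by exact_mod_cast (by omega : 0 < n)
  have h3 : (n : ℝ) * ‖z‖ ^ (n - 1) ≤ n * (1 / n) := mul_le_mul_of_nonneg_left h2 hn0.le
  rw [mul_one_div_cancel hn0.ne'] at h3
  linarith

/-- Small parameters have an attracting fixed point. -/
lemma fix_small {n : ℕ} (hn : 2 ≤ n) {c : ℂ} (hc : ‖c‖ < r0 n) :
    ∃ z : ℂ, z ^ n + c = z ∧ ‖z‖ ≤ x0 n := by
  have hx := x0_pos hn
  have hn0 : (0 : ℝ) < n := by exact_mod_cast (by omega : 0 < n)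
  -- a radius
  obtain ⟨r, hr0, hrx, hr⟩ : ∃ r : ℝ, 0 < r ∧ r < x0 n ∧ ‖c‖ ≤ r - r ^ n := by
    have hcont : ContinuousAt (fun r : ℝ => r - r ^ n) (x0 n) := by fun_prop
    have hval : (fun r : ℝ => r - r ^ n) (x0 n) = r0 n := by
      simp only [x0_pow' hn]
      unfold r0
      ring
    have h1 : ∀ᶠ r in 𝓝 (x0 n), ‖c‖ < r - r ^ n := by
      apply hcont.eventually (lt_mem_nhds _)
      rw [hval]
      exact hc
    have h2 : ∀ᶠ r in 𝓝 (x0 n), 0 < r := lt_mem_nhds hx
    have h3 : ∀ᶠ r in 𝓝[<] (x0 n), ‖c‖ < r - r ^ n ∧ 0 < r := 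
      (h1.and h2).filter_mono nhdsWithin_le_nhds
    have h4 : ∀ᶠ r in 𝓝[<] (x0 n), r < x0 n := self_mem_nhdsWithin
    obtain ⟨r, ⟨a, b⟩, d⟩ := (h3.and h4).exists
    exact ⟨r, b, d, a.le⟩
  have hmaps : MapsTo (fun z : ℂ => z ^ n + c) (Metric.closedBall 0 r) (Metric.closedBall 0 r) := by
    intro z hz
    rw [mem_closedBall_zero_iff] at hz ⊢
    calc ‖z ^ n + c‖ ≤ ‖z‖ ^ n + ‖c‖ := by
          rw [← norm_pow]; exact norm_add_le _ _
      _ ≤ r ^ n + (r - r ^ n) := add_le_add (pow_le_pow_left₀ (norm_nonneg _) hz n) hr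
      _ = r := by ring
  have hK : (n : ℝ) * r ^ (n - 1) < 1 := by
    have : r ^ (n - 1) < x0 n ^ (n - 1) := pow_lt_pow_left₀ hrx hr0.le (by omega)
    rw [x0_pow hn] at this
    have h3 : (n : ℝ) * r ^ (n - 1) < n * (1 / n) := mul_lt_mul_of_pos_left this hn0
    rwa [mul_one_div_cancel hn0.ne'] at h3
  have hK0 : 0 ≤ (n : ℝ) * r ^ (n - 1) := by positivity
  have hlip : LipschitzOnWith (Real.toNNReal ((n : ℝ) * r ^ (n - 1))) (fun z : ℂ => z ^ n + c)
      (Metric.closedBall 0 r) := by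
    apply Convex.lipschitzOnWith_of_nnnorm_deriv_le (𝕜 := ℂ) _ _ (convex_closedBall _ _)
    · intro z _
      fun_prop
    · intro z hz
      rw [mem_closedBall_zero_iff] at hz
      have h : HasDerivAt (fun z : ℂ => z ^ n + c) (n * z ^ (n - 1)) z :=
        (hasDerivAt_pow n z).add_const c
      rw [h.deriv, ← NNReal.coe_le_coe, coe_nnnorm, Real.coe_toNNReal _ hK0, norm_mul, norm_pow,
        Complex.norm_natCast]
      exact mul_le_mul_of_nonneg_left (pow_le_pow_left₀ (norm_nonneg _) hz _) hn0.le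
  have hcontr : ContractingWith (Real.toNNReal ((n : ℝ) * r ^ (n - 1)))
      (hmaps.restrict (fun z : ℂ => z ^ n + c) (Metric.closedBall 0 r) (Metric.closedBall 0 r)) := by
    refine ⟨?_, ?_⟩
    · rw [← NNReal.coe_lt_coe, Real.coe_toNNReal _ hK0]
      exact hK
    · exact hlip.mapsToRestrict hmaps
  obtain ⟨z, hz, hfix, -⟩ := hcontr.exists_fixedPoint' (Metric.isClosed_closedBall.isComplete) hmaps
    (x := 0) (by simp [hr0.le]) (edist_ne_top _ _)
  refine ⟨z, hfix, ?_⟩
  rw [mem_closedBall_zero_iff] at hz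
  linarith

lemma norm_ge {n : ℕ} (hn : 2 ≤ n) {c : ℂ} (h : NR n 1 c) : r0 n ≤ ‖c‖ := by
  by_contra hcon
  push Not at hcon
  obtain ⟨z, h1, h2⟩ := fix_small hn hcon
  have := no_fix hn h h1
  linarith

/-- The parameter is not on the symmetry rays. -/
lemma not_ray {n : ℕ} (hn : 2 ≤ n) {c : ℂ} (h : NR n 1 c) (hc : c ∈ MM n) {r : ℝ} (hr : 0 ≤ r)
    {w : ℂ} (hw : w ^ (n - 1) = 1) : c ≠ r * w := by
  intro hcr
  have hw1 : ‖w‖ = 1 := by
    have h1 : ‖w‖ ^ (n - 1) = 1 := by rw [← norm_pow, hw, norm_one]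
    exact (pow_eq_one_iff_of_nonneg (norm_nonneg _) (by omega)).1 h1
  rcases lt_or_ge (r0 n) r with h1 | h1
  · exact slit hn h1 hw (hcr ▸ hc)
  · have hx := x0_pos hn
    have hcont : ContinuousOn (fun r : ℝ => r - r ^ n) (Icc 0 (x0 n)) := by fun_prop
    have hval : x0 n - x0 n ^ n = r0 n := by
      rw [x0_pow' hn]
      unfold r0
      ring
    have h2 := intermediate_value_Icc hx.le hcont
    have h3 : r ∈ Icc ((fun r : ℝ => r - r ^ n) 0) ((fun r : ℝ => r - r ^ n) (x0 n)) := by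
      simp only [hval]
      refine ⟨?_, h1⟩
      simp only [zero_pow (by omega : n ≠ 0), sub_zero]
      exact hr
    obtain ⟨x, hx1, hx2⟩ := h2 h3
    simp only at hx2
    have hwn : w ^ n = w := by
      have : w ^ n = w ^ (n - 1) * w := by
        rw [← pow_succ]
        congr 1
        omega
      rw [this, hw, one_mul]
    have h4 : ((x : ℂ) * w) ^ n + c = x * w := by
      rw [mul_pow, hwn, hcr, ← hx2]
      push_cast
      ring
    have h5 := no_fix hn h h4
    rw [norm_mul, hw1, mul_one, Complex.norm_real, Real.norm_eq_abs, abs_of_nonneg hx1.1] at h5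
    linarith [hx1.2]

/-- The multiplier at the critical value is not a nonnegative real. -/
lemma mem_slit {n : ℕ} (hn : 2 ≤ n) {c : ℂ} (h : NR n 1 c) (hc : c ∈ MM n) :
    -(n * c ^ (n - 1)) ∈ slitPlane := by
  have hn0 : (0 : ℝ) < n := by exact_mod_cast (by omega : 0 < n)
  have hc0 : 0 < ‖c‖ := lt_of_lt_of_le (r0_pos hn) (norm_ge hn h)
  rw [mem_slitPlane_iff]
  by_contra hcon
  push Not at hcon
  obtain ⟨hcon1, hcon2⟩ := hcon
  obtain ⟨t, ht0, ht⟩ : ∃ t : ℝ, 0 ≤ t ∧ (t : ℂ) = n * c ^ (n - 1) := by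
    refine ⟨((n : ℂ) * c ^ (n - 1)).re, ?_, ?_⟩
    · rw [neg_re] at hcon1
      linarith
    · apply Complex.ext
      · simp only [ofReal_re]
      · simp only [ofReal_im]
        rw [neg_im] at hcon2
        linarith
  have hnt : t = n * ‖c‖ ^ (n - 1) := by
    have := congrArg norm ht
    rw [norm_mul, norm_pow, Complex.norm_natCast, Complex.norm_real, Real.norm_eq_abs,
      abs_of_nonneg ht0] at this
    exact this
  have hcne : (‖c‖ : ℂ) ≠ 0 := by exact_mod_cast hc0.ne'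
  have hnne : (n : ℂ) ≠ 0 := natCast_ne hn
  have hw : (c / ‖c‖) ^ (n - 1) = 1 := by
    rw [div_pow, div_eq_one_iff_eq (pow_ne_zero _ hcne)]
    have h2 : (n : ℂ) * c ^ (n - 1) = n * (‖c‖ : ℂ) ^ (n - 1) := by
      rw [← ht, hnt]
      push_cast
      ring
    exact mul_left_cancel₀ hnne h2
  apply not_ray hn h hc hc0.le hw
  field_simp

lemma cc_pow_sub {n : ℕ} (hn : 2 ≤ n) (L : ℂ) : n * cc n L ^ (n - 1) = exp L := by
  have h := cc_pow hn L
  have h1 : cc n L ^ n = cc n L * cc n L ^ (n - 1) := by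
    rw [← pow_succ']
    congr 1
    omega
  rw [h1] at h
  have h2 := mul_left_cancel₀ (cc_ne n L) h
  rw [h2]
  field_simp [natCast_ne hn]

lemma exp_neg_one_le {n : ℕ} (hn : 2 ≤ n) : Real.exp (-1) ≤ n * r0 n ^ (n - 1) := by
  have h2 : (2 : ℝ) ≤ n := by exact_mod_cast hn
  unfold r0
  rw [mul_pow, x0_pow hn, ← mul_assoc, mul_one_div_cancel (by linarith), one_mul]
  have h3 : ((n - 1 : ℕ) : ℝ) = n - 1 := by
    rw [Nat.cast_sub (by omega)]
    simp
  have h4 : (1 - 1 / (n : ℝ)) = (1 + 1 / ((n : ℝ) - 1))⁻¹ := by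
    have i1 : (n : ℝ) - 1 ≠ 0 := by linarith
    have i2 : (n : ℝ) ≠ 0 := by linarith
    have i3 : 1 + 1 / ((n : ℝ) - 1) = n / (n - 1) := by
      field_simp
      ring
    rw [i3, inv_div]
    field_simp
  have h5 : (1 + 1 / ((n : ℝ) - 1)) ≤ Real.exp (1 / (n - 1)) := by
    rw [add_comm]
    exact Real.add_one_le_exp _
  have h6 : 0 < (1 + 1 / ((n : ℝ) - 1)) := by
    have : 0 < (n : ℝ) - 1 := by linarith
    positivity
  rw [h4, inv_pow, Real.exp_neg]
  apply inv_anti₀ (by positivity)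
  calc (1 + 1 / ((n : ℝ) - 1)) ^ (n - 1) ≤ Real.exp (1 / (n - 1)) ^ (n - 1) :=
        pow_le_pow_left₀ h6.le h5 _
    _ = Real.exp 1 := by
        rw [← Real.exp_nat_mul, h3]
        congr 1
        have : (n : ℝ) - 1 ≠ 0 := by linarith
        field_simp

end GEO_

open GEO_ in
theorem p_GEO : T_GEO := by
  intro n A hn4 hA hAM hNR a ha b hb
  have hn : 2 ≤ n := by omega
  have hn2 : (2 : ℝ) ≤ n := by exact_mod_cast hn
  have hn0 : (0 : ℝ) < n := by linarith
  -- the logarithm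
  set Lf : ℂ → ℂ := fun c => log (-(n * c ^ (n - 1))) + Real.pi * I with hLf
  have hslit : ∀ c ∈ A, -(n * c ^ (n - 1)) ∈ slitPlane := fun c hc =>
    mem_slit hn (hNR c hc) (hAM hc)
  have hcont : ContinuousOn Lf A := by
    intro c hc
    apply ContinuousAt.continuousWithinAt
    have h0 : ContinuousAt (fun c : ℂ => -(n * c ^ (n - 1))) c := by fun_prop
    have h1 : ContinuousAt (fun c : ℂ => log (-(n * c ^ (n - 1)))) c :=
      h0.clog (hslit c hc)
    exact h1.add continuousAt_const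
  have hexp : ∀ c ∈ A, exp (Lf c) = n * c ^ (n - 1) := by
    intro c hc
    simp only [hLf]
    rw [exp_add, exp_pi_mul_I, exp_log (slitPlane_ne_zero (hslit c hc))]
    ring
  -- the root of unity
  set g : ℂ → ℂ := fun c => c / cc n (Lf c) with hg
  have hgc : ContinuousOn g A := by
    apply ContinuousOn.div continuousOn_id _ (fun c _ => cc_ne n _)
    have : Continuous (cc n) := by
      unfold cc ell
      fun_prop
    exact this.comp_continuousOn hcont
  have hg1 : MapsTo g A {w : ℂ | w ^ (n - 1) = 1} := by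
    intro c hc
    change (g c) ^ (n - 1) = 1
    simp only [hg]
    rw [div_pow, div_eq_one_iff_eq (pow_ne_zero _ (cc_ne n _))]
    have h1 := cc_pow_sub hn (Lf c)
    rw [hexp c hc] at h1
    exact (mul_left_cancel₀ (natCast_ne hn) h1).symm
  have hfin : {w : ℂ | w ^ (n - 1) = 1}.Finite := by
    have : {w : ℂ | w ^ (n - 1) = 1} ⊆ (Polynomial.nthRootsFinset (n - 1) (1 : ℂ) : Set ℂ) := by
      intro w hw
      rw [Finset.mem_coe, Polynomial.mem_nthRootsFinset (by omega)]
      exact hw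
    exact (Finset.finite_toSet _).subset this
  have hgconst : ∀ x ∈ A, ∀ y ∈ A, g x = g y := by
    intro x hx y hy
    exact hA.constant_of_mapsTo hfin.isDiscrete hgc hg1 hx hy
  have hmul : ∀ c ∈ A, c = g a * cc n (Lf c) := by
    intro c hc
    rw [hgconst a ha c hc]
    simp only [hg]
    rw [div_mul_cancel₀ _ (cc_ne n _)]
  refine ⟨Lf '' A, g a, Lf a, Lf b, hA.image _ hcont, hg1 ha, mem_image_of_mem _ ha,
    mem_image_of_mem _ hb, hmul a ha, hmul b hb, ?_⟩
  rintro L ⟨c, hc, rfl⟩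
  have hre : (Lf c).re = Real.log (n * ‖c‖ ^ (n - 1)) := by
    simp only [hLf, add_re, log_re, norm_neg, norm_mul, norm_pow, Complex.norm_natCast]
    simp
  have him : (Lf c).im = arg (-(n * c ^ (n - 1))) + Real.pi := by
    simp only [hLf, add_im, log_im]
    simp
  have harg := mem_slitPlane_iff_arg.1 (hslit c hc)
  refine ⟨?_, ?_, ?_, ?_, ?_⟩
  · rw [him]
    have := neg_pi_lt_arg (-(n * c ^ (n - 1)))
    linarith
  · rw [him]
    have := arg_le_pi (-(n * c ^ (n - 1)))
    have := lt_of_le_of_ne this harg.1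
    linarith
  · rw [hre, Real.le_log_iff_exp_le]
    · refine (exp_neg_one_le hn).trans ?_
      apply mul_le_mul_of_nonneg_left _ hn0.le
      exact pow_le_pow_left₀ (r0_nonneg hn) (norm_ge hn (hNR c hc)) _
    · have hc0 : 0 < ‖c‖ := lt_of_lt_of_le (r0_pos hn) (norm_ge hn (hNR c hc))
      positivity
  · rw [hre]
    have hc0 : 0 < ‖c‖ := lt_of_lt_of_le (r0_pos hn) (norm_ge hn (hNR c hc))
    apply Real.log_le_log (by positivity)
    have h1 := Q_pow_le hn (hAM hc) 1
    rw [Q_one (by omega)] at h1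
    nlinarith
  · rw [← hmul c hc]
    exact hc

end Pool.Agent.Limb
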