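import Pool.Agent.Limb.Targets

/-!
# LIMB: GLOW (the chain, low stages)
-/

set_option autoImplicit false

open Complex Filter Topology Set
open Pool.Agent.Multibrot

namespace Pool.Agent.Limb

namespace GLOW_

lemma exp_hh {n : ℕ} {z U : ℂ} (h : 1 + (1 + n / z) * (exp (U / n) - 1) ≠ 0) :
    exp (hh n z U) = 1 + (1 + n / z) * (exp (U / n) - 1) := by
  unfold hh
  rw [exp_log h]

lemma W0_succ (n : ℕ) (L : ℂ) (k : ℕ) (U : ℂ) :
    W0 n L (k + 1) U = W0 n L k (hh n (zz n L (k + 1)) U) := rfl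

lemma DD_succ (n : ℕ) (L : ℂ) (k : ℕ) :
    DD n L (k + 1) = DD n L k * (zz n L (k + 1) / (1 + zz n L (k + 1) / n)) := by
  unfold DD
  rw [Finset.prod_range_succ]

lemma GG_succ (n : ℕ) (L : ℂ) (k : ℕ) (U : ℂ) :
    GG n L (k + 1) U = GG n L k (hh n (zz n L (k + 1)) U) + tau n (zz n L (k + 1)) U := rfl

lemma step_id {n k : ℕ} {L U : ℂ}
    (h1 : U * exp (tau n (zz n L (k + 1)) U) =
      zz n L (k + 1) / (1 + zz n L (k + 1) / n) * hh n (zz n L (k + 1)) U)
    (h2 : hh n (zz n L (k + 1)) U * exp (GG n L k (hh n (zz n L (k + 1)) U)) =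
      DD n L k * W0 n L k (hh n (zz n L (k + 1)) U)) :
    U * exp (GG n L (k + 1) U) = DD n L (k + 1) * W0 n L (k + 1) U := by
  rw [W0_succ, DD_succ, GG_succ, exp_add]
  calc U * (exp (GG n L k (hh n (zz n L (k + 1)) U)) * exp (tau n (zz n L (k + 1)) U))
      = exp (GG n L k (hh n (zz n L (k + 1)) U)) * (U * exp (tau n (zz n L (k + 1)) U)) := by ring
    _ = zz n L (k + 1) / (1 + zz n L (k + 1) / n) *
        (hh n (zz n L (k + 1)) U * exp (GG n L k (hh n (zz n L (k + 1)) U))) := by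
        rw [h1]; ring
    _ = _ := by rw [h2]; ring

lemma step_E {n k : ℕ} {L U : ℂ} (hn : n ≠ 0) (hz : zz n L (k + 1) ≠ 0)
    (h : 1 + (1 + n / zz n L (k + 1)) * (exp (U / n) - 1) ≠ 0)
    (h2 : (E n L)^[k] (W0 n L k (hh n (zz n L (k + 1)) U)) =
      n * ((1 + zz n L k / n) * exp (hh n (zz n L (k + 1)) U / n) - 1)) :
    (E n L)^[k + 1] (W0 n L (k + 1) U) =
      n * ((1 + zz n L (k + 1) / n) * exp (U / n) - 1) := by
  have hn' : (n : ℂ) ≠ 0 := by exact_mod_cast hn
  rw [W0_succ, Function.iterate_succ_apply', h2]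
  have e1 : E n L (n * ((1 + zz n L k / n) * exp (hh n (zz n L (k + 1)) U / n) - 1)) =
      exp L * ((1 + zz n L k / n) ^ n * exp (hh n (zz n L (k + 1)) U / n) ^ n) := by
    unfold E
    rw [← mul_pow]
    congr 2
    field_simp
    ring
  have e2 : exp (hh n (zz n L (k + 1)) U / n) ^ n = exp (hh n (zz n L (k + 1)) U) := by
    rw [← exp_nat_mul]
    congr 1
    field_simp
  have e3 : exp L * (1 + zz n L k / n) ^ n = zz n L (k + 1) := by
    rw [zz_succ]; rfl
  rw [e1, e2, ← mul_assoc, e3, exp_hh h]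
  field_simp
  ring

lemma step_dG {n k : ℕ} {L U : ℂ}
    (h1 : DifferentiableAt ℂ (hh n (zz n L (k + 1))) U)
    (h2 : DifferentiableAt ℂ (tau n (zz n L (k + 1))) U)
    (h3 : DifferentiableAt ℂ (GG n L k) (hh n (zz n L (k + 1)) U)) :
    DifferentiableAt ℂ (GG n L (k + 1)) U := by
  have : GG n L (k + 1) =
      fun U => GG n L k (hh n (zz n L (k + 1)) U) + tau n (zz n L (k + 1)) U := rfl
  rw [this]
  exact (DifferentiableAt.comp U h3 h1).add h2

lemma step_dV {n k : ℕ} {L U : ℂ}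
    (h1 : DifferentiableAt ℂ (hh n (zz n L (k + 1))) U)
    (h3 : DifferentiableAt ℂ (VV n L k) (hh n (zz n L (k + 1)) U)) :
    DifferentiableAt ℂ (VV n L (k + 1)) U := by
  have : VV n L (k + 1) = fun U => VV n L k (hh n (zz n L (k + 1)) U) := rfl
  rw [this]
  exact DifferentiableAt.comp U h3 h1

lemma step_dS {n k : ℕ} {L U : ℂ}
    (h1 : DifferentiableAt ℂ (hh n (zz n L (k + 1))) U)
    (h3 : DifferentiableAt ℂ (SS n L k) (hh n (zz n L (k + 1)) U)) :
    DifferentiableAt ℂ (SS n L (k + 1)) U := by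
  have : SS n L (k + 1) = fun U => U + SS n L k (hh n (zz n L (k + 1)) U) := rfl
  rw [this]
  exact differentiableAt_id.add (DifferentiableAt.comp U h3 h1)

lemma U_psi {n : ℕ} (hn : n ≠ 0) (U : ℂ) : U * psi (U / n) = n * (exp (U / n) - 1) := by
  have hn' : (n : ℂ) ≠ 0 := by exact_mod_cast hn
  unfold psi
  by_cases hU : U = 0
  · subst hU; simp
  · have : U / n ≠ 0 := div_ne_zero hU hn'
    rw [if_neg this]
    field_simp

lemma base_lower {n : ℕ} (hn : (10 : ℝ) ^ 20 ≤ n) {U : ℂ} (hU : U ∈ QQ) :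
    min ‖U‖ 1 / 4 ≤ ‖(n : ℂ) * (exp (U / n) - 1)‖ := by
  have hn0 : (0 : ℝ) < n := lt_of_lt_of_le (by norm_num) hn
  obtain ⟨ha, hb⟩ := hU
  set v : ℂ := U / n with hv
  have hvn : ‖v‖ = ‖U‖ / n := by rw [hv, norm_div, norm_natCast]
  have hre : v.re = U.re / n := by rw [hv, div_natCast_re]
  have him : v.im = U.im / n := by rw [hv, div_natCast_im]
  rw [norm_mul, norm_natCast]
  by_cases h : ‖v‖ ≤ 1 / 2
  · have h1 : ‖exp v - 1 - v‖ ≤ ‖v‖ ^ 2 := norm_exp_sub_one_sub_id_le (by linarith)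
    have h2 : ‖v‖ ≤ ‖exp v - 1‖ + ‖exp v - 1 - v‖ := by
      calc ‖v‖ = ‖(exp v - 1) - (exp v - 1 - v)‖ := by congr 1; ring
        _ ≤ _ := norm_sub_le _ _
    have h3 : ‖v‖ / 2 ≤ ‖exp v - 1‖ := by nlinarith [norm_nonneg v]
    have h4 : ‖U‖ = n * ‖v‖ := by rw [hvn]; field_simp
    calc min ‖U‖ 1 / 4 ≤ ‖U‖ / 4 := by gcongr; exact min_le_left _ _
      _ ≤ ‖U‖ / 2 := by linarith [norm_nonneg U]
      _ = n * (‖v‖ / 2) := by rw [h4]; ring
      _ ≤ _ := by gcongr
  · push Not at h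
    have h1 : |v.im| ≤ 1 / 10 := by
      rw [him, abs_div, abs_of_pos hn0, div_le_iff₀ hn0]
      nlinarith
    have h2 : -(1 / 10 : ℝ) ≤ v.re := by
      rw [hre, le_div_iff₀ hn0]
      nlinarith
    have h3 : (1 / 4 : ℝ) ≤ v.re := by
      by_contra h4
      push Not at h4
      have h5 : ‖v‖ ≤ |v.re| + |v.im| := norm_le_abs_re_add_abs_im v
      have h6 : |v.re| ≤ 1 / 4 := abs_le.mpr ⟨by linarith, h4.le⟩
      linarith
    have h4 : (1 / 4 : ℝ) ≤ ‖exp v - 1‖ := by
      have h5 : ‖exp v‖ ≤ ‖exp v - 1‖ + ‖(1 : ℂ)‖ := by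
        calc ‖exp v‖ = ‖(exp v - 1) + 1‖ := by congr 1; ring
          _ ≤ _ := norm_add_le _ _
      rw [norm_exp, norm_one] at h5
      have h6 := Real.add_one_le_exp v.re
      linarith
    calc min ‖U‖ 1 / 4 ≤ 1 / 4 := by gcongr; exact min_le_right _ _
      _ ≤ n * (1 / 4) := by nlinarith
      _ ≤ _ := by gcongr

end GLOW_

open GLOW_

theorem p_GLOW (h1 : T_PSI) (h2 : T_LOWST) : T_GLOW := by
  obtain ⟨hd, harg, -, hbd⟩ := h1
  intro n k L U hn
  have hn0 : (0 : ℝ) < n := lt_of_lt_of_le (by norm_num) hn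
  have hnn : n ≠ 0 := by
    rintro rfl
    norm_num at hn0
  have hn' : (n : ℂ) ≠ 0 := by exact_mod_cast hnn
  induction k generalizing U with
  | zero =>
    intro _ hU
    have hv : |(U / n : ℂ).im| ≤ 1 / 10 := by
      rw [div_natCast_im, abs_div, abs_of_pos hn0, div_le_iff₀ hn0]
      nlinarith [hU.2]
    have hpi : (3 : ℝ) < Real.pi := Real.pi_gt_three
    obtain ⟨hs, ha⟩ := harg (U / n) (by linarith)
    have h0 : psi (U / n) ≠ 0 := slitPlane_ne_zero hs
    have hG : exp (GG n L 0 U) = psi (U / n) := by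
      show exp (log (psi (U / n))) = _
      rw [exp_log h0]
    have hUp := U_psi hnn U
    refine ⟨?_, ?_, ?_, ?_, ?_, ?_, ?_, ?_⟩
    · show |(log (psi (U / n))).im| ≤ _
      rw [log_im]
      push_cast
      linarith
    · rw [hG, pow_zero, one_mul]
      refine (hbd _).trans (Real.exp_le_exp.mpr (max_le (by positivity) ?_))
      rw [div_natCast_re]
      gcongr
      exact re_le_norm U
    · rw [hG, hUp]
      simpa using base_lower hn hU
    · rw [hG, hUp]
      unfold DD W0 VV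
      simp
    · show W0 n L 0 U = _
      rw [zz_zero]
      unfold W0 VV
      simp
    · have e : GG n L 0 = fun U => log (psi (U / n)) := rfl
      rw [e]
      exact DifferentiableAt.clog ((hd _).comp U (differentiableAt_id.div_const _)) hs
    · have e : VV n L 0 = fun U => U := rfl
      rw [e]
      exact differentiableAt_id
    · have e : SS n L 0 = fun U => U := rfl
      rw [e]
      exact differentiableAt_id
  | succ k ih =>
    intro hz hU
    obtain ⟨hz8, hzre⟩ := hz (k + 1) (by omega) le_rfl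
    obtain ⟨a1, a2, a3, a4, a5, a6, a7, a8, a9⟩ := h2 n (zz n L (k + 1)) U hn hz8 hzre hU
    obtain ⟨b1, b2, b3, b4, b5, b6, b7, b8⟩ :=
      ih (hh n (zz n L (k + 1)) U) (fun i hi1 hi2 => hz i hi1 (by omega)) a2
    have hz0 : zz n L (k + 1) ≠ 0 := ne_zero_of_big hz8
    have hy : 1 + (1 + n / zz n L (k + 1)) * (exp (U / n) - 1) ≠ 0 := by
      intro h
      rw [h] at a1
      norm_num at a1
    refine ⟨?_, ?_, ?_, step_id a6 b4, step_E hnn hz0 hy b5, step_dG a7 a8 b6, step_dV a7 b7,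
      step_dS a7 b8⟩
    · rw [GG_succ, add_im]
      refine (abs_add_le _ _).trans ?_
      push_cast
      linarith
    · rw [GG_succ, exp_add, norm_mul]
      calc ‖exp (GG n L k (hh n (zz n L (k + 1)) U))‖ * ‖exp (tau n (zz n L (k + 1)) U)‖
          ≤ (3 ^ k * Real.exp (‖hh n (zz n L (k + 1)) U‖ / n)) * 3 := by gcongr
        _ ≤ (3 ^ k * Real.exp (‖U‖ / n)) * 3 := by gcongr
        _ = _ := by ring
    · have e : U * exp (GG n L (k + 1) U) =
          zz n L (k + 1) / (1 + zz n L (k + 1) / n) *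
            (hh n (zz n L (k + 1)) U * exp (GG n L k (hh n (zz n L (k + 1)) U))) := by
        rw [GG_succ, exp_add]
        calc U * (exp (GG n L k (hh n (zz n L (k + 1)) U)) * exp (tau n (zz n L (k + 1)) U))
            = exp (GG n L k (hh n (zz n L (k + 1)) U)) *
              (U * exp (tau n (zz n L (k + 1)) U)) := by ring
          _ = _ := by rw [a6]; ring
      rw [e, norm_mul]
      calc min ‖U‖ 1 / 4 ^ (k + 1 + 1) = (min ‖U‖ 1 / 4) / 4 ^ (k + 1) := by
            rw [pow_succ]; field_simp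
        _ ≤ (‖zz n L (k + 1) / (1 + zz n L (k + 1) / n)‖ *
            min ‖hh n (zz n L (k + 1)) U‖ 1) / 4 ^ (k + 1) := by gcongr
        _ = ‖zz n L (k + 1) / (1 + zz n L (k + 1) / n)‖ *
            (min ‖hh n (zz n L (k + 1)) U‖ 1 / 4 ^ (k + 1)) := by ring
        _ ≤ _ := by gcongr

end Pool.Agent.Limb
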