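import Pool.Agent.Limb.Targets

/-!
# LIMB: GTOP (the chain with the top stage)
-/

set_option autoImplicit false

open Complex Filter Topology Set
open Pool.Agent.Multibrot

namespace Pool.Agent.Limb

namespace GTOP_

lemma exp_hh {n : ℕ} {z U : ℂ} (h : 1 + (1 + n / z) * (exp (U / n) - 1) ≠ 0) :
    exp (hh n z U) = 1 + (1 + n / z) * (exp (U / n) - 1) := by
  unfold hh
  rw [exp_log h]

lemma W0_succ (n : ℕ) (L : ℂ) (k : ℕ) (U : ℂ) :
    W0 n L (k + 1) U = W0 n L k (hh n (zz n L (k + 1)) U) := rfl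

lemma DD_succ (n : ℕ) (L : ℂ) (k : ℕ) :
    DD n L (k + 1) = DD n L k * (zz n L (k + 1) / (1 + zz n L (k + 1) / n)) := by
  unfold DD
  rw [Finset.prod_range_succ]

lemma GG_succ (n : ℕ) (L : ℂ) (k : ℕ) (U : ℂ) :
    GG n L (k + 1) U = GG n L k (hh n (zz n L (k + 1)) U) + tau n (zz n L (k + 1)) U := rfl

lemma SS_succ (n : ℕ) (L : ℂ) (k : ℕ) (U : ℂ) :
    SS n L (k + 1) U = U + SS n L k (hh n (zz n L (k + 1)) U) := rfl

lemma step_id {n k : ℕ} {L U : ℂ}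
    (h1 : U * exp (tau n (zz n L (k + 1)) U) =
      zz n L (k + 1) / (1 + zz n L (k + 1) / n) * hh n (zz n L (k + 1)) U)
    (h2 : hh n (zz n L (k + 1)) U * exp (GG n L k (hh n (zz n L (k + 1)) U)) =
      DD n L k * W0 n L k (hh n (zz n L (k + 1)) U)) :
    U * exp (GG n L (k + 1) U) = DD n L (k + 1) * W0 n L (k + 1) U := by
  rw [W0_succ, DD_succ, GG_succ, exp_add]
  calc U * (exp (GG n L k (hh n (zz n L (k + 1)) U)) * exp (tau n (zz n L (k + 1)) U))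
      = exp (GG n L k (hh n (zz n L (k + 1)) U)) * (U * exp (tau n (zz n L (k + 1)) U)) := by ring
    _ = zz n L (k + 1) / (1 + zz n L (k + 1) / n) *
        (hh n (zz n L (k + 1)) U * exp (GG n L k (hh n (zz n L (k + 1)) U))) := by
        rw [h1]; ring
    _ = _ := by rw [h2]; ring

lemma step_E {n k : ℕ} {L U : ℂ} (hn : n ≠ 0) (hz : zz n L (k + 1) ≠ 0)
    (h : 1 + (1 + n / zz n L (k + 1)) * (exp (U / n) - 1) ≠ 0)
    (h2 : (E n L)^[k] (W0 n L k (hh n (zz n L (k + 1)) U)) =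
      n * ((1 + zz n L k / n) * exp (hh n (zz n L (k + 1)) U / n) - 1)) :
    (E n L)^[k + 1] (W0 n L (k + 1) U) =
      n * ((1 + zz n L (k + 1) / n) * exp (U / n) - 1) := by
  have hn' : (n : ℂ) ≠ 0 := by exact_mod_cast hn
  rw [W0_succ, Function.iterate_succ_apply', h2]
  have e1 : E n L (n * ((1 + zz n L k / n) * exp (hh n (zz n L (k + 1)) U / n) - 1)) =
      exp L * ((1 + zz n L k / n) ^ n * exp (hh n (zz n L (k + 1)) U / n) ^ n) := by
    unfold E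
    rw [← mul_pow]
    congr 2
    field_simp
    ring
  have e2 : exp (hh n (zz n L (k + 1)) U / n) ^ n = exp (hh n (zz n L (k + 1)) U) := by
    rw [← exp_nat_mul]
    congr 1
    field_simp
  have e3 : exp L * (1 + zz n L k / n) ^ n = zz n L (k + 1) := by
    rw [zz_succ]; rfl
  rw [e1, e2, ← mul_assoc, e3, exp_hh h]
  field_simp
  ring

lemma step_dG {n k : ℕ} {L U : ℂ}
    (h1 : DifferentiableAt ℂ (hh n (zz n L (k + 1))) U)
    (h2 : DifferentiableAt ℂ (tau n (zz n L (k + 1))) U)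
    (h3 : DifferentiableAt ℂ (GG n L k) (hh n (zz n L (k + 1)) U)) :
    DifferentiableAt ℂ (GG n L (k + 1)) U := by
  have : GG n L (k + 1) =
      fun U => GG n L k (hh n (zz n L (k + 1)) U) + tau n (zz n L (k + 1)) U := rfl
  rw [this]
  exact (DifferentiableAt.comp U h3 h1).add h2

lemma step_dV {n k : ℕ} {L U : ℂ}
    (h1 : DifferentiableAt ℂ (hh n (zz n L (k + 1))) U)
    (h3 : DifferentiableAt ℂ (VV n L k) (hh n (zz n L (k + 1)) U)) :
    DifferentiableAt ℂ (VV n L (k + 1)) U := by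
  have : VV n L (k + 1) = fun U => VV n L k (hh n (zz n L (k + 1)) U) := rfl
  rw [this]
  exact DifferentiableAt.comp U h3 h1

lemma step_dS {n k : ℕ} {L U : ℂ}
    (h1 : DifferentiableAt ℂ (hh n (zz n L (k + 1))) U)
    (h3 : DifferentiableAt ℂ (SS n L k) (hh n (zz n L (k + 1)) U)) :
    DifferentiableAt ℂ (SS n L (k + 1)) U := by
  have : SS n L (k + 1) = fun U => U + SS n L k (hh n (zz n L (k + 1)) U) := rfl
  rw [this]
  exact differentiableAt_id.add (DifferentiableAt.comp U h3 h1)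

end GTOP_

open GTOP_

theorem p_GTOP (h1 : T_GLOW) (h2 : T_GDISC) (h3 : T_TOPST) : T_GTOP := by
  intro n j L x u hT hu
  obtain ⟨k, rfl⟩ : ∃ k, j = k + 1 := ⟨j - 1, by have := hT.hj; omega⟩
  have hn := hT.hn
  have hn0 : (0 : ℝ) < n := lt_of_lt_of_le (by norm_num) hn
  have hnn : n ≠ 0 := by
    rintro rfl
    norm_num at hn0
  have hn' : (n : ℂ) ≠ 0 := by exact_mod_cast hnn
  have hX := hT.norm_x
  have hX7 : (10 : ℝ) ^ 7 ≤ ‖x‖ := by
    have : (1 : ℝ) ≤ 2 ^ (k + 1) := one_le_pow₀ (by norm_num)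
    nlinarith
  have hX0 : (0 : ℝ) < ‖x‖ := lt_of_lt_of_le (by norm_num) hX7
  obtain ⟨⟨a0, -, -⟩, a2, a3, a4, a5, a6, a7, a8, a9, a10⟩ :=
    h3 n x (zz n L (k + 1)) u hn hX7 hT.him hT.hle hT.hx hu
  have hlow : ∀ i, 1 ≤ i → i ≤ k → (10 : ℝ) ^ 8 ≤ ‖zz n L i‖ ∧ 0 ≤ (zz n L i).re :=
    fun i hi1 hi2 => ⟨hT.toLow.ge8 hi1 (by omega), hT.hre i hi1 (by omega)⟩
  obtain ⟨b1, b2, b3, b4, b5, b6, b7, b8⟩ := h1 n k L (hh n (zz n L (k + 1)) u) hn hlow a2
  have hz0 : zz n L (k + 1) ≠ 0 := ne_zero_of_big (hT.toLow.ge8 (by omega) le_rfl)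
  have hy : 1 + (1 + n / zz n L (k + 1)) * (exp (u / n) - 1) ≠ 0 := slitPlane_ne_zero a0
  refine ⟨?_, ?_, ?_, step_id a6 b4, step_E hnn hz0 hy b5, ⟨step_dG a7 a8 b6, step_dV a7 b7,
      step_dS a7 b8⟩, ?_⟩
  · rw [GG_succ, add_im]
    refine (abs_add_le _ _).trans ?_
    push_cast
    linarith
  · rw [GG_succ, exp_add, norm_mul]
    calc ‖exp (GG n L k (hh n (zz n L (k + 1)) u))‖ * ‖exp (tau n (zz n L (k + 1)) u)‖
        ≤ (3 ^ k * Real.exp (‖hh n (zz n L (k + 1)) u‖ / n)) * 3 := by gcongr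
      _ ≤ (3 ^ k * Real.exp (‖u‖ / n)) * 3 := by gcongr
      _ = _ := by ring
  · have e : u * exp (GG n L (k + 1) u) =
        zz n L (k + 1) / (1 + zz n L (k + 1) / n) *
          (hh n (zz n L (k + 1)) u * exp (GG n L k (hh n (zz n L (k + 1)) u))) := by
      rw [GG_succ, exp_add]
      calc u * (exp (GG n L k (hh n (zz n L (k + 1)) u)) * exp (tau n (zz n L (k + 1)) u))
          = exp (GG n L k (hh n (zz n L (k + 1)) u)) *
            (u * exp (tau n (zz n L (k + 1)) u)) := by ring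
        _ = _ := by rw [a6]; ring
    rw [e, norm_mul]
    calc min ‖u‖ 1 / 4 ^ (k + 1 + 1) = (min ‖u‖ 1 / 4) / 4 ^ (k + 1) := by
          rw [pow_succ]; field_simp
      _ ≤ (‖zz n L (k + 1) / (1 + zz n L (k + 1) / n)‖ *
          min ‖hh n (zz n L (k + 1)) u‖ 1) / 4 ^ (k + 1) := by gcongr
      _ = ‖zz n L (k + 1) / (1 + zz n L (k + 1) / n)‖ *
          (min ‖hh n (zz n L (k + 1)) u‖ 1 / 4 ^ (k + 1)) := by ring
      _ ≤ _ := by gcongr
  · intro hux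
    obtain ⟨c1, c2⟩ := a10 hux
    have hr : ‖u‖ / ‖x‖ ≤ 1 / 100 := by
      rw [div_le_iff₀ hX0]; linarith
    have hr0 : 0 ≤ ‖u‖ / ‖x‖ := by positivity
    have e1 : 4 * ‖u‖ / ‖x‖ = 4 * (‖u‖ / ‖x‖) := by ring
    have e2 : 5 / 2 * ‖u‖ / ‖x‖ = 5 / 2 * (‖u‖ / ‖x‖) := by ring
    have e3 : 5 * ‖u‖ / ‖x‖ = 5 * (‖u‖ / ‖x‖) := by ring
    rw [e1] at c1
    rw [e2] at c2
    rw [e3]
    have hdisc : ∀ i, 1 ≤ i → i ≤ k → (10 : ℝ) ^ 8 ≤ ‖zz n L i‖ ∧ zz n L i ≠ -n := by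
      intro i hi1 hi2
      refine ⟨(hlow i hi1 hi2).1, fun h => ?_⟩
      have := (hlow i hi1 hi2).2
      rw [h] at this
      simp at this
      exact hnn this
    obtain ⟨d1, d2, -⟩ := h2 n k L (hh n (zz n L (k + 1)) u) hn hdisc (by linarith)
    constructor
    · rw [GG_succ]
      refine (norm_add_le _ _).trans ?_
      linarith
    · rw [SS_succ, add_sub_cancel_left]
      have : ‖SS n L k (hh n (zz n L (k + 1)) u)‖ ≤
          ‖SS n L k (hh n (zz n L (k + 1)) u) - hh n (zz n L (k + 1)) u‖ +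
            ‖hh n (zz n L (k + 1)) u‖ := by
        calc _ = ‖(SS n L k (hh n (zz n L (k + 1)) u) - hh n (zz n L (k + 1)) u) +
              hh n (zz n L (k + 1)) u‖ := by congr 1; ring
          _ ≤ _ := norm_add_le _ _
      linarith

end Pool.Agent.Limb
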