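import Pool.Agent.Limb.Targets

/-!
# LIMB, INFL: limits at infinity, low stages
-/

set_option autoImplicit false

open Complex Filter Topology Set
open Pool.Agent.Multibrot

namespace Pool.Agent.Limb
namespace INFL_

/-- the argument of a function whose real part tends to infinity -/
lemma arg_tend {f : ℝ → ℂ} {a : ℝ} (h : Tendsto (fun t => (f t).re) atTop atTop)
    (h' : Tendsto (fun t => (f t).im) atTop (𝓝 a)) :
    Tendsto (fun t => (log (f t)).im) atTop (𝓝 0) := by
  have h1 : Tendsto (fun t => (f t).im / (f t).re) atTop (𝓝 0) := h'.div_atTop h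
  have h2 : Tendsto (fun t => (1 : ℂ) + (((f t).im / (f t).re : ℝ) : ℂ) * I) atTop (𝓝 1) := by
    have : Tendsto (fun t => (1 : ℂ) + (((f t).im / (f t).re : ℝ) : ℂ) * I) atTop
        (𝓝 (1 + ((0:ℝ):ℂ) * I)) :=
      tendsto_const_nhds.add (((continuous_ofReal.tendsto 0).comp h1).mul_const I)
    simpa using this
  have h3 : Tendsto (fun t => ((1 : ℂ) + (((f t).im / (f t).re : ℝ) : ℂ) * I).arg) atTop
      (𝓝 (arg 1)) := by
    have hc : ContinuousAt arg (1 : ℂ) := continuousAt_arg (by simp [slitPlane])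
    exact hc.tendsto.comp h2
  rw [arg_one] at h3
  refine h3.congr' ?_
  filter_upwards [h.eventually_gt_atTop 0] with t ht
  rw [log_im]
  have h4 : f t = ((f t).re : ℂ) * (1 + (((f t).im / (f t).re : ℝ) : ℂ) * I) := by
    apply Complex.ext
    · simp
    · simp
      field_simp
  conv_rhs => rw [h4]
  rw [arg_real_mul _ ht]

lemma exp_neg_tend {v : ℝ → ℂ} (h : Tendsto (fun t => (v t).re) atTop atTop) :
    Tendsto (fun t => exp (-(v t))) atTop (𝓝 0) := by
  rw [tendsto_zero_iff_norm_tendsto_zero]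
  have : Tendsto (fun t => Real.exp (-(v t).re)) atTop (𝓝 0) :=
    Real.tendsto_exp_neg_atTop_nhds_zero.comp h
  refine this.congr ?_
  intro t
  rw [norm_exp]
  simp

/-- logarithm of an exponential whose imaginary part has a limit in `(-π, π)` -/
lemma log_exp_ev {W : ℝ → ℂ} {a : ℝ} (h : Tendsto (fun t => (W t).im) atTop (𝓝 a))
    (ha : |a| < Real.pi) : ∀ᶠ t in atTop, log (exp (W t)) = W t := by
  rw [abs_lt] at ha
  filter_upwards [h.eventually_const_lt ha.1, h.eventually_lt_const ha.2] with t h1 h2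
  exact log_exp h1 h2.le

lemma log_one_sub_tend {v : ℝ → ℂ} (h : Tendsto (fun t => (v t).re) atTop atTop) :
    Tendsto (fun t => (log (1 - exp (-(v t)))).im) atTop (𝓝 0) ∧
      ∀ᶠ t in atTop, 1 - exp (-(v t)) ≠ 0 := by
  have h1 : Tendsto (fun t => 1 - exp (-(v t))) atTop (𝓝 (1 : ℂ)) := by
    have := (tendsto_const_nhds (x := (1 : ℂ))).sub (exp_neg_tend h)
    simpa using this
  have hc : ContinuousAt log (1 : ℂ) := continuousAt_clog (by simp [slitPlane])
  have h2 : Tendsto (fun t => log (1 - exp (-(v t)))) atTop (𝓝 (log 1)) := hc.tendsto.comp h1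
  have h3 := (continuous_im.tendsto _).comp h2
  rw [log_one] at h3
  exact ⟨by simpa [Function.comp_def] using h3, h1.eventually_ne one_ne_zero⟩

/-- the logarithm of `psi` at infinity -/
lemma psi_lim {v : ℝ → ℂ} {a : ℝ} (h : Tendsto (fun t => (v t).re) atTop atTop)
    (h' : Tendsto (fun t => (v t).im) atTop (𝓝 a)) (ha : |a| < Real.pi) :
    Tendsto (fun t => (log (psi (v t))).im) atTop (𝓝 a) := by
  obtain ⟨h1, h2⟩ := log_one_sub_tend h
  have h3 := arg_tend h h'
  have h4 : Tendsto (fun t => (v t + log (1 - exp (-(v t))) - log (v t)).im) atTop (𝓝 a) := by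
    have := (h'.add h1).sub h3
    simpa using this
  have h5 := log_exp_ev h4 ha
  refine h4.congr' ?_
  filter_upwards [h5, h2, h.eventually_gt_atTop 0] with t h6 h7 h8
  have hv : v t ≠ 0 := by
    intro h0
    rw [h0] at h8
    simp at h8
  rw [psi, if_neg hv]
  rw [← h6]
  congr 2
  rw [exp_sub, exp_add, exp_log h7, exp_log hv]
  congr 1
  rw [mul_sub, ← exp_add]
  simp

/-- the logarithm of `1 + y` and of `phi y` at infinity, `y = κ * (exp v - 1)` -/
lemma phi_lim {v : ℝ → ℂ} {a : ℝ} {κ : ℂ} (h : Tendsto (fun t => (v t).re) atTop atTop)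
    (h' : Tendsto (fun t => (v t).im) atTop (𝓝 a)) (hκ : κ ∈ slitPlane)
    (ha : |a + (log κ).im| < Real.pi) :
    Tendsto (fun t => (log (1 + κ * (exp (v t) - 1))).re) atTop atTop ∧
    Tendsto (fun t => (log (1 + κ * (exp (v t) - 1))).im) atTop (𝓝 (a + (log κ).im)) ∧
    Tendsto (fun t => (log (phi (κ * (exp (v t) - 1)))).im) atTop (𝓝 (-(a + (log κ).im))) := by
  have hk0 : κ ≠ 0 := slitPlane_ne_zero hκ
  -- `q t = κ - (κ - 1) exp (- v t)`
  have hq : Tendsto (fun t => κ - (κ - 1) * exp (-(v t))) atTop (𝓝 κ) := by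
    have := (tendsto_const_nhds (x := κ)).sub ((exp_neg_tend h).const_mul (κ - 1))
    simpa using this
  have hlq : Tendsto (fun t => log (κ - (κ - 1) * exp (-(v t)))) atTop (𝓝 (log κ)) :=
    (continuousAt_clog hκ).tendsto.comp hq
  have hlq_im := (continuous_im.tendsto _).comp hlq
  have hlq_re := (continuous_re.tendsto _).comp hlq
  have hW : Tendsto (fun t => (v t + log (κ - (κ - 1) * exp (-(v t)))).im) atTop
      (𝓝 (a + (log κ).im)) := by
    have := h'.add hlq_im
    simpa [Function.comp_def] using this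
  have hWr : Tendsto (fun t => (v t + log (κ - (κ - 1) * exp (-(v t)))).re) atTop atTop := by
    have := h.atTop_add hlq_re
    simpa [Function.comp_def] using this
  have hEq : ∀ᶠ t in atTop, log (1 + κ * (exp (v t) - 1)) =
      v t + log (κ - (κ - 1) * exp (-(v t))) := by
    filter_upwards [log_exp_ev hW ha, hq.eventually_ne hk0] with t h1 h2
    rw [← h1]
    congr 1
    have : exp (v t) * ((κ - 1) * exp (-(v t))) = κ - 1 := by
      rw [mul_left_comm, ← exp_add]
      simp
    rw [exp_add, exp_log h2, mul_sub (exp (v t)), this]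
    ring
  have c1 : Tendsto (fun t => (log (1 + κ * (exp (v t) - 1))).re) atTop atTop :=
    hWr.congr' (by filter_upwards [hEq] with t ht; rw [ht])
  have c2 : Tendsto (fun t => (log (1 + κ * (exp (v t) - 1))).im) atTop
      (𝓝 (a + (log κ).im)) :=
    hW.congr' (by filter_upwards [hEq] with t ht; rw [ht])
  refine ⟨c1, c2, ?_⟩
  obtain ⟨h1, h2⟩ := log_one_sub_tend h
  have h3 := arg_tend c1 c2
  have h4 : Tendsto (fun t => (log (log (1 + κ * (exp (v t) - 1))) -
      (log κ + v t + log (1 - exp (-(v t))))).im) atTop (𝓝 (-(a + (log κ).im))) := by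
    have := h3.sub (((tendsto_const_nhds (x := (log κ).im)).add h').add h1)
    have e1 : (0 : ℝ) - ((log κ).im + a + 0) = -(a + (log κ).im) := by ring
    rw [e1] at this
    simpa using this
  have h5 := log_exp_ev h4 (by rwa [abs_neg])
  refine h4.congr' ?_
  filter_upwards [h5, h2, c1.eventually_gt_atTop 0, h.eventually_gt_atTop 0] with t h6 h7 h8 h9
  have hl : log (1 + κ * (exp (v t) - 1)) ≠ 0 := by
    intro h0
    rw [h0] at h8
    simp at h8
  have hy : κ * (exp (v t) - 1) = κ * exp (v t) * (1 - exp (-(v t))) := by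
    rw [mul_assoc, mul_sub (exp (v t)), ← exp_add]
    simp
  have hy0 : κ * (exp (v t) - 1) ≠ 0 := by
    rw [hy]
    exact mul_ne_zero (mul_ne_zero hk0 (exp_ne_zero _)) h7
  rw [phi, if_neg hy0]
  rw [← h6]
  congr 2
  rw [exp_sub, exp_add, exp_add, exp_log hl, exp_log hk0, exp_log h7, ← hy]

/-- `1 + n / z` -/
lemma kappa {n : ℕ} {z : ℂ} (hn : 0 < (n : ℝ)) (hz : z ≠ 0) (hre : 0 ≤ z.re) :
    1 ≤ (1 + n / z).re ∧ (log (1 + n / z)).im = (log (1 + z / n)).im - (log z).im := by
  have hre1 : 1 ≤ (1 + (n : ℂ) / z).re := by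
    have : ((n : ℂ) / z).re = n * z.re / normSq z := by
      rw [div_re]
      simp
    rw [add_re, one_re, this]
    have : 0 ≤ (n : ℝ) * z.re / normSq z := by
      apply div_nonneg (mul_nonneg hn.le hre) (normSq_nonneg _)
    linarith
  refine ⟨hre1, ?_⟩
  have hnC : (n : ℂ) ≠ 0 := by
    intro h0
    have : ((n : ℝ) : ℂ) = 0 := by simpa using h0
    exact hn.ne' (by exact_mod_cast this)
  have hre2 : 1 ≤ (1 + z / (n : ℂ)).re := by
    have : (z / (n : ℂ)).re = z.re / n := by
      have : (n : ℂ) = ((n : ℝ) : ℂ) := by simp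
      rw [this, div_ofReal_re]
    rw [add_re, one_re, this]
    have : 0 ≤ z.re / (n : ℝ) := div_nonneg hre hn.le
    linarith
  have h10 : (1 + z / (n : ℂ)) ≠ 0 := by
    intro h0
    rw [h0] at hre2
    simp at hre2
    linarith
  have ha1 : |(1 + z / (n : ℂ)).arg| < Real.pi / 2 :=
    abs_arg_lt_pi_div_two_iff.2 (Or.inl (by linarith))
  have ha2 : |z.arg| ≤ Real.pi / 2 := abs_arg_le_pi_div_two_iff.2 hre
  rw [abs_lt] at ha1
  rw [abs_le] at ha2
  have key : log (1 + n / z) = log (n : ℂ) + log (1 + z / n) - log z := by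
    have e1 : exp (log (n : ℂ) + log (1 + z / n) - log z) = 1 + n / z := by
      rw [exp_sub, exp_add, exp_log hnC, exp_log h10, exp_log hz]
      field_simp
      ring
    rw [← e1]
    have hi : (log (n : ℂ) + log (1 + z / n) - log z).im = (1 + z / (n : ℂ)).arg - z.arg := by
      rw [sub_im, add_im, log_im, log_im, log_im]
      simp
    apply log_exp
    · rw [hi]; linarith [ha1.1, ha2.2]
    · rw [hi]; linarith [ha1.2, ha2.1]
  rw [key, sub_im, add_im, log_im (n : ℂ)]
  simp

end INFL_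

open INFL_ in
theorem p_INFL (_h1 : T_PSI) (_h2 : T_PHI) : T_INFL := by
  intro n z b U hn hz hre hb hUr hUi
  have hn0 : (0 : ℝ) < n := lt_of_lt_of_le (by positivity) hn
  have hz0 : z ≠ 0 := by
    intro h0
    rw [h0, norm_zero] at hz
    norm_num at hz
  obtain ⟨hk1, hk2⟩ := kappa hn0 hz0 hre
  have hkS : 1 + (n : ℂ) / z ∈ slitPlane := Or.inl (by linarith)
  have hvr : Tendsto (fun t => (U t / (n : ℂ)).re) atTop atTop := by
    have e1 : ∀ t, (U t / (n : ℂ)).re = (U t).re / n := by
      intro t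
      have : (n : ℂ) = ((n : ℝ) : ℂ) := by simp
      rw [this, div_ofReal_re]
    simp_rw [e1]
    exact hUr.atTop_div_const hn0
  have hvi : Tendsto (fun t => (U t / (n : ℂ)).im) atTop (𝓝 (b / n)) := by
    have e1 : ∀ t, (U t / (n : ℂ)).im = (U t).im / n := by
      intro t
      have : (n : ℂ) = ((n : ℝ) : ℂ) := by simp
      rw [this, div_ofReal_im]
    simp_rw [e1]
    exact hUi.div_const _
  have hbn : |b / n| ≤ 1 / 10 := by
    rw [abs_div, abs_of_pos hn0, div_le_iff₀ hn0]
    refine hb.trans ?_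
    have : (10 : ℝ) ^ 20 * (1 / 10) ≤ n * (1 / 10) := by nlinarith
    nlinarith
  have hpi := Real.pi_gt_three
  have harg : |(log (1 + (n : ℂ) / z)).im| < Real.pi / 2 := by
    rw [log_im]
    exact abs_arg_lt_pi_div_two_iff.2 (Or.inl (by linarith))
  have hA : |b / n + (log (1 + (n : ℂ) / z)).im| < Real.pi := by
    refine (abs_add_le _ _).trans_lt ?_
    linarith
  obtain ⟨c1, c2, c3⟩ := phi_lim hvr hvi hkS hA
  have c4 := psi_lim hvr hvi (by linarith)
  refine ⟨c1, ?_, ?_, c4⟩
  · rw [hk2] at c2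
    have e1 : b / n + (log (1 + z / (n : ℂ))).im - (log z).im =
        b / n + ((log (1 + z / (n : ℂ))).im - (log z).im) := by ring
    rw [e1]
    exact c2
  · have := c3.add c4
    rw [hk2] at this
    have e1 : -(b / n + ((log (1 + z / (n : ℂ))).im - (log z).im)) + b / n =
        (log z).im - (log (1 + z / (n : ℂ))).im := by ring
    rw [e1] at this
    refine this.congr ?_
    intro t
    rw [tau, add_im]

end Pool.Agent.Limb
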