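import Pool.Agent.Limb.Targets

/-!
# LIMB: limits at infinity, top stage
-/

set_option autoImplicit false

open Complex Filter Topology Set
open Pool.Agent.Multibrot

namespace Pool.Agent.Limb

namespace INFT_

/-- Limit of arguments up to positive factors. -/
lemma arg_lim {f g : ℝ → ℂ} {p : ℝ → ℝ} {w : ℂ} (hw : w ∈ slitPlane)
    (hp : ∀ᶠ t in atTop, 0 < p t) (he : ∀ᶠ t in atTop, f t = (p t : ℂ) * g t)
    (hg : Tendsto g atTop (𝓝 w)) : Tendsto (fun t => (f t).arg) atTop (𝓝 w.arg) := by
  have h1 : Tendsto (fun t => (g t).arg) atTop (𝓝 w.arg) :=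
    ((Complex.continuousAt_arg hw).tendsto).comp hg
  refine h1.congr' ?_
  filter_upwards [hp, he] with t h2 h3
  rw [h3, Complex.arg_real_mul _ h2]

/-- Direction of a point going to the right. -/
lemma unit_lim {f : ℝ → ℂ} {b : ℝ} (hre : Tendsto (fun t => (f t).re) atTop atTop)
    (him : Tendsto (fun t => (f t).im) atTop (𝓝 b)) :
    Tendsto (fun t => f t / ((f t).re : ℂ)) atTop (𝓝 1) := by
  have h1 : Tendsto (fun t => (f t).im / (f t).re) atTop (𝓝 0) := him.div_atTop hre
  have h2 : Tendsto (fun t => (1 : ℂ) + ((f t).im / (f t).re : ℝ) * I) atTop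
      (𝓝 (1 + ((0 : ℝ) : ℂ) * I)) := by
    apply Tendsto.const_add
    apply Tendsto.mul_const
    exact (Complex.continuous_ofReal.tendsto _).comp h1
  have h3 : (1 : ℂ) + ((0 : ℝ) : ℂ) * I = 1 := by simp
  rw [h3] at h2
  refine h2.congr' ?_
  filter_upwards [hre.eventually_gt_atTop 0] with t ht
  have hne : ((f t).re : ℂ) ≠ 0 := by exact_mod_cast ht.ne'
  rw [eq_div_iff hne]
  conv_rhs => rw [← Complex.re_add_im (f t)]
  push_cast
  field_simp

/-- The exponential of `-U/n` tends to `0`. -/
lemma exp_neg_lim {V : ℝ → ℂ} (hre : Tendsto (fun t => (V t).re) atTop atTop) :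
    Tendsto (fun t => exp (-V t)) atTop (𝓝 0) := by
  rw [tendsto_zero_iff_norm_tendsto_zero]
  have : (fun t => ‖exp (-V t)‖) = fun t => Real.exp (-(V t).re) := by
    funext t
    rw [Complex.norm_exp, Complex.neg_re]
  rw [this]
  exact Real.tendsto_exp_neg_atTop_nhds_zero.comp hre

/-- `exp V = exp (Re V) * exp (i Im V)`. -/
lemma exp_split (V : ℂ) : exp V = (Real.exp V.re : ℂ) * exp (V.im * I) := by
  rw [Complex.ofReal_exp, ← Complex.exp_add]
  congr 1
  exact (Complex.re_add_im V).symm

/-- The general statement, for a nonzero constant `κ` with a given argument. -/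
lemma general {V : ℝ → ℂ} {β δ R : ℝ} {κ : ℂ} (hR : 0 < R)
    (hκ : κ = (R : ℂ) * exp (δ * I)) (hA : |β + δ| < Real.pi) (hβ : |β| < Real.pi)
    (hre : Tendsto (fun t => (V t).re) atTop atTop)
    (him : Tendsto (fun t => (V t).im) atTop (𝓝 β)) :
    Tendsto (fun t => (log (1 + κ * (exp (V t) - 1))).re) atTop atTop ∧
    Tendsto (fun t => (log (1 + κ * (exp (V t) - 1))).im) atTop (𝓝 (β + δ)) ∧
    Tendsto (fun t => (log (phi (κ * (exp (V t) - 1)))).im) atTop (𝓝 (-(β + δ))) ∧
    Tendsto (fun t => (log (psi (V t))).im) atTop (𝓝 β) := by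
  have hunit : Tendsto (fun t => exp ((V t).im * I)) atTop (𝓝 (exp (β * I))) := by
    apply (Complex.continuous_exp.tendsto _).comp
    apply Tendsto.mul_const
    exact (Complex.continuous_ofReal.tendsto _).comp him
  have hneg := exp_neg_lim hre
  -- the limit point
  set w : ℂ := exp (β * I) * κ with hw
  have hweq : w = (R : ℂ) * (Complex.cos ((β + δ : ℝ) : ℂ) + Complex.sin ((β + δ : ℝ) : ℂ) * I) := by
    rw [← Complex.exp_mul_I, hw, hκ, mul_left_comm, ← Complex.exp_add]
    congr 2
    push_cast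
    ring
  have hargw : w.arg = β + δ := by
    rw [hweq]
    rw [abs_lt] at hA
    exact Complex.arg_mul_cos_add_sin_mul_I hR ⟨hA.1, hA.2.le⟩
  have hκ0 : κ ≠ 0 := by
    rw [hκ]
    exact mul_ne_zero (by exact_mod_cast hR.ne') (exp_ne_zero _)
  have hw0 : w ≠ 0 := mul_ne_zero (exp_ne_zero _) hκ0
  have hwpi : w.arg ≠ Real.pi := by
    rw [hargw]
    rw [abs_lt] at hA
    exact hA.2.ne
  have hws : w ∈ slitPlane := Complex.mem_slitPlane_iff_arg.2 ⟨hwpi, hw0⟩
  have hwis : w⁻¹ ∈ slitPlane := by
    rw [Complex.mem_slitPlane_iff_arg, Complex.arg_inv, if_neg hwpi, hargw]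
    refine ⟨?_, inv_ne_zero hw0⟩
    rw [abs_lt] at hA
    intro h
    linarith
  have hwiarg : (w⁻¹).arg = -(β + δ) := by
    rw [Complex.arg_inv, if_neg hwpi, hargw]
  have hee : ∀ t, exp (V t) * exp (-V t) = 1 := by
    intro t
    rw [← Complex.exp_add, add_neg_cancel, Complex.exp_zero]
  -- 1 + y
  set g : ℝ → ℂ := fun t => exp ((V t).im * I) * (κ - (κ - 1) * exp (-V t)) with hg
  have hglim : Tendsto g atTop (𝓝 w) := by
    have h1 : Tendsto (fun t => κ - (κ - 1) * exp (-V t)) atTop (𝓝 (κ - (κ - 1) * 0)) :=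
      tendsto_const_nhds.sub (tendsto_const_nhds.mul hneg)
    rw [mul_zero, sub_zero] at h1
    exact hunit.mul h1
  have hy1 : ∀ t, 1 + κ * (exp (V t) - 1) = (Real.exp (V t).re : ℂ) * g t := by
    intro t
    rw [hg]
    simp only
    rw [← mul_assoc, ← exp_split]
    linear_combination (1 - κ) * (-(hee t))
  set g' : ℝ → ℂ := fun t => exp ((V t).im * I) * (κ - κ * exp (-V t)) with hg'
  have hg'lim : Tendsto g' atTop (𝓝 w) := by
    have h1 : Tendsto (fun t => κ - κ * exp (-V t)) atTop (𝓝 (κ - κ * 0)) :=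
      tendsto_const_nhds.sub (tendsto_const_nhds.mul hneg)
    rw [mul_zero, sub_zero] at h1
    exact hunit.mul h1
  have hy : ∀ t, κ * (exp (V t) - 1) = (Real.exp (V t).re : ℂ) * g' t := by
    intro t
    rw [hg']
    simp only
    rw [← mul_assoc, ← exp_split]
    linear_combination κ * (hee t)
  have hexpinf : Tendsto (fun t => Real.exp (V t).re) atTop atTop :=
    Real.tendsto_exp_atTop.comp hre
  have hre1 : Tendsto (fun t => (log (1 + κ * (exp (V t) - 1))).re) atTop atTop := by
    have h1 : Tendsto (fun t => Real.exp (V t).re * ‖g t‖) atTop atTop :=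
      hexpinf.atTop_mul_pos (norm_pos_iff.2 hw0) hglim.norm
    have h2 := Real.tendsto_log_atTop.comp h1
    refine h2.congr ?_
    intro t
    rw [Complex.log_re, hy1 t, norm_mul, Complex.norm_real, Real.norm_eq_abs,
      abs_of_pos (Real.exp_pos _)]
    rfl
  have him1 : Tendsto (fun t => (log (1 + κ * (exp (V t) - 1))).im) atTop (𝓝 (β + δ)) := by
    have := arg_lim (f := fun t => 1 + κ * (exp (V t) - 1)) (g := g)
      (p := fun t => Real.exp (V t).re) hws (Eventually.of_forall fun t => Real.exp_pos _)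
      (Eventually.of_forall hy1) hglim
    rw [hargw] at this
    refine this.congr fun t => ?_
    rw [Complex.log_im]
  refine ⟨hre1, him1, ?_, ?_⟩
  · have hu := unit_lim hre1 him1
    have hlim : Tendsto (fun t => (log (1 + κ * (exp (V t) - 1)) /
        ((log (1 + κ * (exp (V t) - 1))).re : ℂ)) * (g' t)⁻¹) atTop (𝓝 (1 * w⁻¹)) :=
      hu.mul (hg'lim.inv₀ hw0)
    rw [one_mul] at hlim
    have := arg_lim (f := fun t => phi (κ * (exp (V t) - 1)))
      (p := fun t => (log (1 + κ * (exp (V t) - 1))).re * (Real.exp (V t).re)⁻¹) hwis ?_ ?_ hlim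
    · rw [hwiarg] at this
      refine this.congr fun t => ?_
      rw [Complex.log_im]
    · filter_upwards [hre1.eventually_gt_atTop 0] with t ht
      exact mul_pos ht (inv_pos.2 (Real.exp_pos _))
    · have hg'ne : ∀ᶠ t in atTop, g' t ≠ 0 := hg'lim.eventually_ne hw0
      filter_upwards [hre1.eventually_gt_atTop 0, hg'ne] with t ht hne
      have hex : (Real.exp (V t).re : ℂ) ≠ 0 := by exact_mod_cast (Real.exp_pos _).ne'
      have hyne : κ * (exp (V t) - 1) ≠ 0 := by
        rw [hy t]
        exact mul_ne_zero hex hne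
      rw [phi, if_neg hyne]
      have hr : ((log (1 + κ * (exp (V t) - 1))).re : ℂ) ≠ 0 := by exact_mod_cast ht.ne'
      generalize log (1 + κ * (exp (V t) - 1)) = l at hr
      rw [hy t]
      push_cast
      push_cast at hex
      field_simp
  · have hV : Tendsto (fun t => V t / ((V t).re : ℂ)) atTop (𝓝 1) := unit_lim hre him
    have hlim : Tendsto (fun t => (exp ((V t).im * I) * (1 - exp (-V t))) *
        (V t / ((V t).re : ℂ))⁻¹) atTop (𝓝 ((exp (β * I) * (1 - 0)) * (1 : ℂ)⁻¹)) :=
      (hunit.mul (tendsto_const_nhds.sub hneg)).mul (hV.inv₀ one_ne_zero)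
    rw [sub_zero, mul_one, inv_one, mul_one] at hlim
    have hbarg : (exp (β * I)).arg = β := by
      rw [abs_lt] at hβ
      have := Complex.arg_mul_cos_add_sin_mul_I (r := 1) one_pos (θ := β) ⟨hβ.1, hβ.2.le⟩
      rwa [Complex.ofReal_one, one_mul, ← Complex.exp_mul_I] at this
    have hbs : exp (β * I) ∈ slitPlane := by
      rw [Complex.mem_slitPlane_iff_arg, hbarg]
      rw [abs_lt] at hβ
      exact ⟨hβ.2.ne, exp_ne_zero _⟩
    have := arg_lim (f := fun t => psi (V t))
      (p := fun t => Real.exp (V t).re * ((V t).re)⁻¹) hbs ?_ ?_ hlim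
    · rw [hbarg] at this
      refine this.congr fun t => ?_
      rw [Complex.log_im]
    · filter_upwards [hre.eventually_gt_atTop 0] with t ht
      exact mul_pos (Real.exp_pos _) (inv_pos.2 ht)
    · filter_upwards [hre.eventually_gt_atTop 0] with t ht
      have hVne : V t ≠ 0 := by
        intro h
        rw [h] at ht
        simp at ht
      have hr : ((V t).re : ℂ) ≠ 0 := by exact_mod_cast ht.ne'
      have e1 : exp (V t) - 1 = (Real.exp (V t).re : ℂ) * (exp ((V t).im * I) *
          (1 - exp (-V t))) := by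
        rw [← mul_assoc, ← exp_split, mul_sub, ← Complex.exp_add, add_neg_cancel,
          Complex.exp_zero, mul_one]
      rw [psi, if_neg hVne, e1]
      push_cast
      field_simp

/-- Lower bound for the sine. -/
lemma sin_ge {β : ℝ} (h0 : 0 < β) (h2 : β ≤ 2) : β / 4 < Real.sin β := by
  have hpi1 := Real.pi_gt_three
  have hpi2 := Real.pi_lt_four
  rcases le_total β (Real.pi / 2) with h | h
  · have := Real.mul_le_sin h0.le h
    have h3 : 1 / 2 * β ≤ 2 / Real.pi * β := by
      apply mul_le_mul_of_nonneg_right _ h0.le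
      rw [div_le_div_iff₀ (by norm_num) Real.pi_pos]
      linarith
    linarith
  · have := Real.mul_le_sin (x := Real.pi - β) (by linarith) (by linarith)
    rw [Real.sin_pi_sub] at this
    have h3 : 1 / 2 * (Real.pi - β) ≤ 2 / Real.pi * (Real.pi - β) := by
      apply mul_le_mul_of_nonneg_right _ (by linarith)
      rw [div_le_div_iff₀ (by norm_num) Real.pi_pos]
      linarith
    linarith

/-- The argument of `sinh`, upper half plane. -/
lemma arg_sinh_pos {w : ℂ} (h0 : 0 < w.im) (h2 : w.im ≤ 2) (h1 : |w.re| ≤ w.im / 500) :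
    sinh w ≠ 0 ∧ Real.pi / 4 ≤ (sinh w).arg ∧ (sinh w).arg ≤ 3 * Real.pi / 4 := by
  have hre : (sinh w).re = Real.sinh w.re * Real.cos w.im := by
    rw [← Complex.re_add_im w, Complex.sinh_add, Complex.sinh_mul_I, Complex.cosh_mul_I]
    simp [← Complex.ofReal_sinh, ← Complex.ofReal_cosh, ← Complex.ofReal_cos,
      ← Complex.ofReal_sin]
  have him : (sinh w).im = Real.cosh w.re * Real.sin w.im := by
    rw [← Complex.re_add_im w, Complex.sinh_add, Complex.sinh_mul_I, Complex.cosh_mul_I]
    simp [← Complex.ofReal_sinh, ← Complex.ofReal_cosh, ← Complex.ofReal_cos,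
      ← Complex.ofReal_sin]
  have hs := sin_ge h0 h2
  have hsinh : |Real.sinh w.re| ≤ 2 * |w.re| * Real.cosh w.re := by
    have key : ∀ a : ℝ, 0 ≤ a → Real.sinh a ≤ 2 * a * Real.cosh a := by
      intro a ha
      have h1 := Real.add_one_le_exp (-(2 * a))
      have h2 : Real.exp (-a) = Real.exp a * Real.exp (-(2 * a)) := by
        rw [← Real.exp_add]
        congr 1
        ring
      have h3 := Real.exp_pos a
      have h4 := Real.exp_pos (-a)
      rw [Real.sinh_eq, Real.cosh_eq]
      nlinarith [mul_le_mul_of_nonneg_left h1 h3.le, mul_nonneg ha h4.le]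
    rcases le_total 0 w.re with h | h
    · rw [abs_of_nonneg (Real.sinh_nonneg_iff.2 h), abs_of_nonneg h]
      exact key _ h
    · rw [abs_of_nonpos (Real.sinh_nonpos_iff.2 h), abs_of_nonpos h, ← Real.sinh_neg,
        ← Real.cosh_neg w.re]
      exact key _ (by linarith)
  have hlt : |(sinh w).re| < (sinh w).im := by
    rw [hre, him, abs_mul]
    have hc := Real.cosh_pos w.re
    calc |Real.sinh w.re| * |Real.cos w.im| ≤ 2 * |w.re| * Real.cosh w.re * 1 := by
          apply mul_le_mul hsinh (Real.abs_cos_le_one _) (abs_nonneg _)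
          positivity
      _ = Real.cosh w.re * (2 * |w.re|) := by ring
      _ < Real.cosh w.re * Real.sin w.im := by
          apply mul_lt_mul_of_pos_left _ hc
          linarith
  have hne : sinh w ≠ 0 := by
    intro h
    rw [h] at hlt
    simp at hlt
  set s := sinh w with hsdef
  have hn : 0 < ‖s‖ := norm_pos_iff.2 hne
  have him0 : 0 < s.im := lt_of_le_of_lt (abs_nonneg _) hlt
  have harg0 : 0 ≤ s.arg := Complex.arg_nonneg_iff.2 him0.le
  have hargpi := Complex.arg_le_pi s
  have hcos : s.re = ‖s‖ * Real.cos s.arg := by rw [Complex.norm_mul_cos_arg]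
  have hsin : s.im = ‖s‖ * Real.sin s.arg := by rw [Complex.norm_mul_sin_arg]
  rw [abs_lt] at hlt
  refine ⟨hne, ?_, ?_⟩
  · by_contra hcon
    push Not at hcon
    have h4 : Real.sin s.arg ≤ Real.cos s.arg := by
      have e : Real.cos s.arg = Real.sin (Real.pi / 2 - s.arg) := by rw [Real.sin_pi_div_two_sub]
      rw [e]
      apply Real.sin_le_sin_of_le_of_le_pi_div_two <;> linarith [Real.pi_pos]
    have h5 := mul_le_mul_of_nonneg_left h4 hn.le
    rw [← hcos, ← hsin] at h5
    linarith [hlt.2]
  · by_contra hcon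
    push Not at hcon
    have h4 : Real.sin s.arg ≤ -Real.cos s.arg := by
      have e : -Real.cos s.arg = Real.sin (s.arg - Real.pi / 2) := by
        rw [Real.sin_sub_pi_div_two]
      have e2 : Real.sin s.arg = Real.sin (Real.pi - s.arg) := by rw [Real.sin_pi_sub]
      rw [e, e2]
      apply Real.sin_le_sin_of_le_of_le_pi_div_two <;> linarith [Real.pi_pos]
    have h5 := mul_le_mul_of_nonneg_left h4 hn.le
    rw [mul_neg, ← hcos, ← hsin] at h5
    linarith [hlt.1]

end INFT_

open INFT_ in
/-- INFT. -/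
theorem p_INFT : T_INFT := by
  intro n x z b U hn hx hxre hxim hz hb hUre hUim
  have hn0 : (0 : ℝ) < n := lt_of_lt_of_le (by norm_num) hn
  have hnC : (n : ℂ) ≠ 0 := by exact_mod_cast hn0.ne'
  have hpi1 := Real.pi_gt_three
  have hpi2 := Real.pi_lt_d2
  -- the imaginary part of x is not zero
  have hxim0 : 0 < |x.im| := by
    by_contra hcon
    push Not at hcon
    have h1 : |x.im| = 0 := le_antisymm hcon (abs_nonneg _)
    have h2 := Complex.norm_le_abs_re_add_abs_im x
    rw [h1] at hxre h2
    norm_num at hxre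
    rw [hxre] at h2
    norm_num at h2 hx
    rw [h2] at hx
    norm_num at hx
  have hxn : ‖x‖ ≤ 401 / 100 * n := by
    have h2 := Complex.norm_le_abs_re_add_abs_im x
    linarith
  -- half angle
  set w : ℂ := x / (2 * n) with hw
  have hwre : w.re = x.re / (2 * n) := by
    rw [hw]
    have : (2 * n : ℂ) = ((2 * n : ℝ) : ℂ) := by push_cast; ring
    rw [this, Complex.div_ofReal_re]
  have hwim : w.im = x.im / (2 * n) := by
    rw [hw]
    have : (2 * n : ℂ) = ((2 * n : ℝ) : ℂ) := by push_cast; ring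
    rw [this, Complex.div_ofReal_im]
  have hwre' : |w.re| ≤ |w.im| / 500 := by
    rw [hwre, hwim, abs_div, abs_div, abs_of_pos (show (0 : ℝ) < 2 * n by positivity),
      div_div, div_le_div_iff₀ (by positivity) (by positivity)]
    nlinarith
  have hwim2 : |w.im| ≤ 2 := by
    rw [hwim, abs_div, abs_of_pos (show (0 : ℝ) < 2 * n by positivity), div_le_iff₀ (by positivity)]
    linarith
  have hwim0 : 0 < |w.im| := by
    rw [hwim, abs_div, abs_of_pos (show (0 : ℝ) < 2 * n by positivity)]
    positivity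
  -- the argument of sinh w
  have hsinh : sinh w ≠ 0 ∧ |w.im - (sinh w).arg| ≤ 3 * Real.pi / 4 := by
    rcases lt_or_ge 0 w.im with h | h
    · rw [abs_of_pos h] at hwre' hwim2
      obtain ⟨a1, a2, a3⟩ := arg_sinh_pos h hwim2 hwre'
      refine ⟨a1, ?_⟩
      rw [abs_le]
      constructor <;> linarith
    · rw [abs_of_nonpos h] at hwre' hwim2 hwim0
      have hc1 : ((starRingEnd ℂ) w).im = -w.im := Complex.conj_im w
      have hc2 : ((starRingEnd ℂ) w).re = w.re := Complex.conj_re w
      obtain ⟨a1, a2, a3⟩ := arg_sinh_pos (w := (starRingEnd ℂ) w) (by rw [hc1]; linarith)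
        (by rw [hc1]; linarith) (by rw [hc1, hc2]; linarith)
      rw [Complex.sinh_conj] at a1 a2 a3
      have hne : sinh w ≠ 0 := by
        intro h0
        rw [h0] at a1
        simp at a1
      refine ⟨hne, ?_⟩
      rw [Complex.arg_conj] at a2 a3
      split_ifs at a2 a3 with hp
      · exfalso
        linarith
      · rw [abs_le]
        constructor <;> linarith
  obtain ⟨hs0, hsarg⟩ := hsinh
  -- zeta
  have hzim : (zeta n x).im = w.im + (sinh w).arg := by
    rw [zeta, Complex.add_im, Complex.add_im, Complex.ofReal_im, zero_add, ← hw, Complex.log_im]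
    congr 1
    have : (2 : ℂ) * sinh w = ((2 : ℝ) : ℂ) * sinh w := by push_cast; ring
    rw [this, Complex.arg_real_mul _ (by norm_num)]
  have hxn2 : x / n = 2 * w := by
    rw [hw]
    field_simp
  have hzexp : exp (zeta n x) = z := by
    rw [zeta, ← hw, Complex.exp_add, Complex.exp_add, Complex.exp_log (by
      exact mul_ne_zero two_ne_zero hs0), ← Complex.ofReal_exp, Real.exp_log hn0, hz, hxn2]
    have e1 : (2 : ℂ) * sinh w = exp w - exp (-w) := by
      rw [Complex.sinh]
      ring
    rw [e1, mul_assoc, mul_sub, ← Complex.exp_add, ← Complex.exp_add, add_neg_cancel,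
      Complex.exp_zero, two_mul]
    norm_cast
  set δ : ℝ := (x / n).im - (zeta n x).im with hδ
  have hδ2 : δ = w.im - (sinh w).arg := by
    rw [hδ, hzim, hxn2]
    simp
    ring
  have hz0 : z ≠ 0 := by
    rw [← hzexp]
    exact exp_ne_zero _
  set κ : ℂ := 1 + n / z with hκ
  have hκ1 : κ = n * exp (x / n - zeta n x) := by
    rw [hκ, Complex.exp_sub, hzexp]
    have e1 : z + n = n * exp (x / n) := by
      rw [hz]
      ring
    rw [mul_div_assoc', ← e1]
    field_simp
  have hκ2 : κ = ((n * Real.exp (x / n - zeta n x).re : ℝ) : ℂ) * exp (δ * I) := by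
    have e2 : (x / n - zeta n x).im = δ := by rw [Complex.sub_im]
    rw [hκ1, exp_split (x / n - zeta n x), e2]
    push_cast
    ring
  have hR : 0 < (n : ℝ) * Real.exp (x / n - zeta n x).re := mul_pos hn0 (Real.exp_pos _)
  have hbn : |b / n| ≤ 1 / 10 := by
    rw [abs_div, abs_of_pos hn0, div_le_iff₀ hn0]
    linarith
  have hA : |b / n + δ| < Real.pi := by
    rw [hδ2]
    calc |b / n + (w.im - (sinh w).arg)| ≤ |b / n| + |w.im - (sinh w).arg| := abs_add_le _ _
      _ < Real.pi := by linarith
  have hVre : Tendsto (fun t => (U t / n : ℂ).re) atTop atTop := by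
    have : (fun t => (U t / n : ℂ).re) = fun t => (U t).re / n := by
      funext t
      rw [← Complex.ofReal_natCast, Complex.div_ofReal_re]
    rw [this]
    exact hUre.atTop_div_const hn0
  have hVim : Tendsto (fun t => (U t / n : ℂ).im) atTop (𝓝 (b / n)) := by
    have : (fun t => (U t / n : ℂ).im) = fun t => (U t).im / n := by
      funext t
      rw [← Complex.ofReal_natCast, Complex.div_ofReal_im]
    rw [this]
    exact hUim.div_const _
  obtain ⟨r1, r2, r3, r4⟩ := general (V := fun t => U t / n) hR hκ2 hA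
    (lt_of_le_of_lt hbn (by linarith)) hVre hVim
  refine ⟨?_, ?_, ?_⟩
  · exact r1
  · have e : b / n + (x / n).im - (zeta n x).im = b / n + δ := by rw [hδ]; ring
    rw [e]
    exact r2
  · have h := r3.add r4
    have e : -(b / (n : ℝ) + δ) + b / n = (zeta n x).im - (x / n).im := by rw [hδ]; ring
    rw [e] at h
    refine h.congr fun t => ?_
    rw [tau, Complex.add_im]

end Pool.Agent.Limb
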