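import Pool.Agent.Limb.Targets

/-!
# LIMB: location of the landing point on both sides
-/

set_option autoImplicit false

open Complex Filter Topology Set
open Pool.Agent.Multibrot

namespace Pool.Agent.Limb

namespace LOC_

lemma pol_le (j : ℕ) : ((j : ℝ) ^ 2 + 4 * j + 6) ≤ 6 * 2 ^ j := by
  induction j with
  | zero => norm_num
  | succ j ih =>
    push_cast
    have e : (2 : ℝ) ^ (j + 1) = 2 * 2 ^ j := by ring
    rw [e]
    have h : (0 : ℝ) ≤ j := Nat.cast_nonneg _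
    nlinarith

lemma log4 : Real.log 4 ≤ 3 := by
  have := Real.log_le_sub_one_of_pos (by norm_num : (0 : ℝ) < 4)
  linarith

lemma log3 : Real.log 3 ≤ 2 := by
  have := Real.log_le_sub_one_of_pos (by norm_num : (0 : ℝ) < 3)
  linarith

/-- sign of the argument -/
lemma sarg {V : ℂ} {σ : ℝ} (hσ : σ = 1 ∨ σ = -1) (h : 0 < σ * V.im) :
    0 < σ * V.arg ∧ |V.arg| ≤ Real.pi := by
  refine ⟨?_, Complex.abs_arg_le_pi V⟩
  rcases hσ with rfl | rfl
  · rw [one_mul] at h ⊢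
    rcases (Complex.arg_nonneg_iff.2 h.le).lt_or_eq with h1 | h1
    · exact h1
    · exfalso
      have h2 := (Complex.arg_eq_zero_iff.1 h1.symm).2
      linarith
  · have h1 : V.im < 0 := by linarith
    have := Complex.arg_neg_iff.2 h1
    linarith

/-- `σ im / norm ≤ σ arg`. -/
lemma sarg_ge {V : ℂ} {σ : ℝ} (hσ : σ = 1 ∨ σ = -1) (h : 0 < σ * V.im) :
    σ * V.im / ‖V‖ ≤ σ * V.arg := by
  have h1 := (sarg hσ h).1
  have h2 := Complex.sin_arg V
  rcases hσ with rfl | rfl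
  · rw [one_mul] at h1 ⊢
    rw [one_mul, ← h2]
    exact Real.sin_le h1.le
  · have h3 := Real.sin_le h1.le
    have h4 : Real.sin (-1 * V.arg) = -1 * V.im / ‖V‖ := by
      rw [neg_one_mul, Real.sin_neg, h2]
      ring
    rw [h4] at h3
    exact h3

/-- One step of the recursion. -/
lemma step (h3 : T_GTOP) (h5 : T_WEST) {n j : ℕ} {L x V W : ℂ} {s : ℤ} {σ : ℝ}
    (hT : Tow n j L x) (hσ : σ = 1 ∨ σ = -1)
    (hW : (WW n j L x).im - 2 * Real.pi * s = -σ * (2 * j + 5))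
    (hV : V ∈ TT x) (hV1 : 1 < σ * V.im)
    (e : W = log V + GG n L j V - WW n j L x + 2 * Real.pi * I * s) :
    4 ≤ σ * W.im ∧ σ * W.im ≤ 4 * j + 10 ∧ -(3 * (j + 1) + ‖x‖ / 400) ≤ W.re := by
  obtain ⟨g1, -, g3, -⟩ := h3 n j L x V hT hV
  obtain ⟨-, -, -, -, -, -, w7⟩ := h5 n j L x hT
  have hs : (2 * Real.pi * I * s : ℂ) = ((2 * Real.pi * s : ℝ) : ℂ) * I := by
    push_cast
    ring
  have him : W.im = V.arg + (GG n L j V).im + σ * (2 * j + 5) := by
    rw [e, add_im, sub_im, add_im, log_im, hs, mul_I_im, ofReal_re]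
    linarith
  have hre : W.re = Real.log ‖V‖ + (GG n L j V).re - (WW n j L x).re := by
    rw [e, add_re, sub_re, add_re, log_re, hs]
    simp
  have hσ2 : σ * σ = 1 := by rcases hσ with rfl | rfl <;> norm_num
  have hσa : |σ| = 1 := by rcases hσ with rfl | rfl <;> norm_num
  obtain ⟨a1, a2⟩ := sarg hσ (by linarith : 0 < σ * V.im)
  have a3 : σ * V.arg ≤ Real.pi := by
    have := le_abs_self (σ * V.arg)
    rw [abs_mul, hσa, one_mul] at this
    linarith
  have a4 : |σ * (GG n L j V).im| ≤ 2 * j + 1 := by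
    rw [abs_mul, hσa, one_mul]
    exact g1
  have a5 := abs_le.1 a4
  have e1 : σ * W.im = σ * V.arg + σ * (GG n L j V).im + (2 * j + 5) := by
    rw [him]
    linear_combination (2 * (j : ℝ) + 5) * hσ2
  have hpi := Real.pi_lt_four
  refine ⟨by rw [e1]; linarith [a5.1], by rw [e1]; linarith [a5.2], ?_⟩
  have hV2 : 1 < ‖V‖ := by
    have h1 := Complex.abs_im_le_norm V
    have h2 := le_abs_self (σ * V.im)
    rw [abs_mul, hσa, one_mul] at h2
    linarith
  rw [min_eq_right hV2.le, norm_mul, norm_exp] at g3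
  have hV0 : 0 < ‖V‖ := by linarith
  have h4 := Real.log_le_log (by positivity) g3
  rw [Real.log_mul hV0.ne' (Real.exp_pos _).ne', Real.log_exp, one_div, Real.log_inv,
    Real.log_pow] at h4
  have h5' := log4
  have hj : (0 : ℝ) ≤ j := Nat.cast_nonneg _
  have h6 : ((j + 1 : ℕ) : ℝ) * Real.log 4 ≤ 3 * (j + 1) := by
    push_cast
    nlinarith
  rw [hre]
  linarith

/-- The limit point. -/
lemma lim (h1 : T_LOCI) (h2 : T_LAND) (h3 : T_GTOP) (h5 : T_WEST) (h6 : T_RAY) (h7 : T_TYPE)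
    {n j : ℕ} {Λ : ℂ → ℂ → ℂ} {L x : ℂ} {s : ℤ} {σ : ℝ} (hΛ : IsExt n Λ)
    (hT : Tow n j L x) (hL1 : 0 < L.im) (hL2 : L.im < 2 * Real.pi) (hc : cc n L ∈ MM n)
    (hσ : σ = 1 ∨ σ = -1)
    (hW : (WW n j L x).im - 2 * Real.pi * s = -σ * (2 * j + 5)) :
    ∃ u : ℂ, u ∈ TT x ∧ 4 ≤ σ * u.im ∧ σ * u.im ≤ 4 * j + 10 ∧
      -(3 * (j + 1) + ‖x‖ / 400) ≤ u.re ∧
      u = log u + GG n L j u - WW n j L x + 2 * Real.pi * I * s ∧
      W0 n L j u = wl n Λ j L x s := by
  have hn2 : 2 ≤ n := hT.toLow.two_le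
  have hn20 := hT.toLow.hn
  have hn0 : (0 : ℝ) < n := lt_of_lt_of_le (by norm_num) hn20
  have hnc : (n : ℂ) ≠ 0 := natCast_ne hn2
  obtain ⟨U, hU⟩ := h1 n j Λ L x s σ hΛ hT hL1 hL2 hc hσ hW
  obtain ⟨⟨w1, w2, -, -⟩, -, -, -, -, -, -⟩ := h5 n j L x hT
  obtain ⟨k, hk⟩ := (h7 n j L x s hT hL1 hL2).2.1
  obtain ⟨hl1, -⟩ := h2 n hn2 Λ hΛ (cc n L) hc (j + 1) (th n j L x s) k (by omega) hk
  have hray := (h6 n Λ L hn2 hΛ hc).2.1
  have hσa : |σ| = 1 := by rcases hσ with rfl | rfl <;> norm_num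
  -- the bounds for all positive times
  have hb : ∀ t : ℝ, 0 < t → 4 ≤ σ * (U t).im ∧ σ * (U t).im ≤ 4 * j + 10 ∧
      -(3 * (j + 1) + ‖x‖ / 400) ≤ (U t).re := by
    intro t ht
    have hN : (0 : ℝ) < (n : ℝ) ^ (j + 1) := by positivity
    obtain ⟨u1, u2, -, u4⟩ := hU ((n : ℝ) ^ (j + 1) * t) (by positivity)
    rw [mul_div_cancel_left₀ _ hN.ne'] at u4
    exact step h3 h5 hT hσ hW u1 u2 u4
  -- tendsto of dilations
  have hdil : ∀ m : ℕ, Tendsto (fun t : ℝ => t / (n : ℝ) ^ m) (𝓝[>] 0) (𝓝[>] 0) := by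
    intro m
    have hm : (0 : ℝ) < (n : ℝ) ^ m := by positivity
    refine tendsto_nhdsWithin_iff.2 ⟨?_, ?_⟩
    · have : Tendsto (fun t : ℝ => t / (n : ℝ) ^ m) (𝓝 0) (𝓝 (0 / (n : ℝ) ^ m)) :=
        tendsto_id.div_const _
      rw [zero_div] at this
      exact this.mono_left nhdsWithin_le_nhds
    · filter_upwards [self_mem_nhdsWithin] with t ht
      exact div_pos ht hm
  have hW0 : Tendsto (fun t : ℝ => W0 n L j (U t)) (𝓝[>] 0) (𝓝 (wl n Λ j L x s)) := by
    have ha : Tendsto (fun t : ℝ => (n : ℂ) * (ray Λ (cc n L) (th n j L x s) (t / (n : ℝ) ^ j) /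
        cc n L - 1)) (𝓝[>] 0) (𝓝 (wl n Λ j L x s)) := by
      unfold wl
      exact (((hl1.comp (hdil j)).div_const _).sub_const 1).const_mul _
    refine ha.congr' ?_
    filter_upwards [self_mem_nhdsWithin] with t ht
    rw [(hU t ht).2.2.1, hray]
    rfl
  have hz : 1 + zz n L j / n ≠ 0 := by
    rw [hT.one_add]
    exact exp_ne_zero _
  set q : ℂ := (1 + (E n L)^[j] (wl n Λ j L x s) / n) / (1 + zz n L j / n) with hq
  have hEc : Continuous ((E n L)^[j]) := by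
    apply Continuous.iterate
    unfold E
    fun_prop
  have hexp : Tendsto (fun t : ℝ => exp (U t / n)) (𝓝[>] 0) (𝓝 q) := by
    have ha : Tendsto (fun t : ℝ => (1 + (E n L)^[j] (W0 n L j (U t)) / n) / (1 + zz n L j / n))
        (𝓝[>] 0) (𝓝 q) :=
      ((((hEc.tendsto _).comp hW0).div_const _).const_add 1).div_const _
    refine ha.congr' ?_
    filter_upwards [self_mem_nhdsWithin] with t ht
    have g5 := (h3 n j L x (U t) hT (hU t ht).1).2.2.2.2.1
    rw [g5, mul_div_cancel_left₀ _ hnc, add_sub_cancel, mul_div_cancel_left₀ _ hz]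
  have hX : (2 : ℝ) ^ j * (4 * 10 ^ 7) ≤ ‖x‖ := by linarith
  have hp := pol_le j
  have hj0 : (0 : ℝ) ≤ j := Nat.cast_nonneg _
  have hxn := hT.norm_x_le
  have him1 : ∀ t : ℝ, 0 < t → |(U t / n).im| ≤ 1 := by
    intro t ht
    obtain ⟨b1, b2, -⟩ := hb t ht
    rw [← ofReal_natCast, div_ofReal_im, abs_div, Nat.abs_cast, div_le_one hn0]
    have h8 : |(U t).im| = |σ * (U t).im| := by rw [abs_mul, hσa, one_mul]
    rw [h8, abs_of_nonneg (by linarith)]
    nlinarith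
  have hqre : 0 < q.re := by
    set M : ℝ := (3 * (j + 1) + ‖x‖ / 400) / n with hM
    have ha : ∀ᶠ t : ℝ in 𝓝[>] 0, Real.exp (-M) * (1 / 2) ≤ (exp (U t / n)).re := by
      filter_upwards [self_mem_nhdsWithin] with t ht
      have h9 := him1 t ht
      rw [exp_re]
      have h10 : 1 / 2 ≤ Real.cos (U t / n).im := by
        have := Real.one_sub_sq_div_two_le_cos (x := (U t / n).im)
        have h11 : (U t / n).im ^ 2 ≤ 1 := by
          rw [← sq_abs]
          have := abs_nonneg (U t / n).im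
          nlinarith
        linarith
      have h12 : -M ≤ (U t / n).re := by
        rw [← ofReal_natCast, div_ofReal_re, hM, neg_le_iff_add_nonneg, ← add_div]
        apply div_nonneg _ hn0.le
        have := (hb t ht).2.2
        linarith
      exact mul_le_mul (Real.exp_le_exp.2 h12) h10 (by norm_num) (Real.exp_pos _).le
    have hb' : Tendsto (fun t : ℝ => (exp (U t / n)).re) (𝓝[>] 0) (𝓝 q.re) :=
      (continuous_re.tendsto _).comp hexp
    have hcc := ge_of_tendsto hb' ha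
    have := Real.exp_pos (-M)
    linarith
  have hqs : q ∈ slitPlane := Or.inl hqre
  set u : ℂ := n * log q with hu
  have hUu : Tendsto U (𝓝[>] 0) (𝓝 u) := by
    have ha : Tendsto (fun t : ℝ => (n : ℂ) * log (exp (U t / n))) (𝓝[>] 0) (𝓝 u) :=
      (hexp.clog hqs).const_mul _
    refine ha.congr' ?_
    filter_upwards [self_mem_nhdsWithin] with t ht
    have h9 := abs_le.1 (him1 t ht)
    have hpi := Real.pi_gt_three
    rw [log_exp (by linarith) (by linarith)]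
    field_simp
  have c1 : 4 ≤ σ * u.im := by
    have ha : Tendsto (fun t : ℝ => σ * (U t).im) (𝓝[>] 0) (𝓝 (σ * u.im)) :=
      ((continuous_im.tendsto _).comp hUu).const_mul _
    refine ge_of_tendsto ha ?_
    filter_upwards [self_mem_nhdsWithin] with t ht
    exact (hb t ht).1
  have c2 : σ * u.im ≤ 4 * j + 10 := by
    have ha : Tendsto (fun t : ℝ => σ * (U t).im) (𝓝[>] 0) (𝓝 (σ * u.im)) :=
      ((continuous_im.tendsto _).comp hUu).const_mul _
    refine le_of_tendsto ha ?_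
    filter_upwards [self_mem_nhdsWithin] with t ht
    exact (hb t ht).2.1
  have c3 : -(3 * (j + 1) + ‖x‖ / 400) ≤ u.re := by
    have ha : Tendsto (fun t : ℝ => (U t).re) (𝓝[>] 0) (𝓝 u.re) :=
      (continuous_re.tendsto _).comp hUu
    refine ge_of_tendsto ha ?_
    filter_upwards [self_mem_nhdsWithin] with t ht
    exact (hb t ht).2.2
  have c4 : |u.im| ≤ 4 * j + 10 := by
    have h8 : |u.im| = |σ * u.im| := by rw [abs_mul, hσa, one_mul]
    rw [h8, abs_of_nonneg (by linarith)]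
    exact c2
  have huT : u ∈ TT x := by
    refine ⟨?_, ?_⟩
    · nlinarith
    · nlinarith
  have hus : u ∈ slitPlane := by
    right
    intro h0
    rw [h0, mul_zero] at c1
    linarith
  obtain ⟨-, -, -, -, -, ⟨d1, d2, -⟩, -⟩ := h3 n j L x u hT huT
  refine ⟨u, huT, c1, c2, c3, ?_, ?_⟩
  · have ha : Tendsto (fun t : ℝ => U (t / (n : ℝ) ^ (j + 1))) (𝓝[>] 0) (𝓝 u) :=
      hUu.comp (hdil (j + 1))
    have hb2 : Tendsto (fun t : ℝ => log (U t) + GG n L j (U t) - WW n j L x +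
        2 * Real.pi * I * s) (𝓝[>] 0)
        (𝓝 (log u + GG n L j u - WW n j L x + 2 * Real.pi * I * s)) :=
      (((hUu.clog hus).add (d1.continuousAt.tendsto.comp hUu)).sub_const _).add_const _
    refine tendsto_nhds_unique ha (hb2.congr' ?_)
    filter_upwards [self_mem_nhdsWithin] with t ht
    exact (hU t ht).2.2.2.symm
  · have ha : Tendsto (fun t : ℝ => W0 n L j (U t)) (𝓝[>] 0) (𝓝 (W0 n L j u)) := by
      have hb3 : ContinuousAt (W0 n L j) u := by
        unfold W0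
        have := d2.continuousAt
        fun_prop
      exact hb3.tendsto.comp hUu
    exact tendsto_nhds_unique ha hW0

/-- The type of the limit point. -/
lemma typ (h1 : T_LOCI) (h2 : T_LAND) (h3 : T_GTOP) (h4 : T_UI1) (h5 : T_WEST) (h6 : T_RAY)
    (h7 : T_TYPE)
    {n j : ℕ} {Λ : ℂ → ℂ → ℂ} {L x : ℂ} {s : ℤ} {σ : ℝ} (hΛ : IsExt n Λ)
    (hT : Tow n j L x) (hL1 : 0 < L.im) (hL2 : L.im < 2 * Real.pi) (hc : cc n L ∈ MM n)
    (hNR : NR n (j + 1) (cc n L))
    (hσ : σ = 1 ∨ σ = -1)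
    (hW : (WW n j L x).im - 2 * Real.pi * s = -σ * (2 * j + 5)) :
    (∀ i, i < j → ‖ui n (zz n L i) ((E n L)^[i] (wl n Λ j L x s))‖ < 1) ∧
      ‖ui n (zz n L j) ((E n L)^[j] (wl n Λ j L x s))‖ < ‖x‖ / 100 ∧
      0 < σ * beta n j L x (wl n Λ j L x s) s ∧
      |beta n j L x (wl n Λ j L x s) s| < 2 * Real.pi := by
  obtain ⟨u, huT, c1, c2, c3, ceq, cW0⟩ := lim h1 h2 h3 h5 h6 h7 hΛ hT hL1 hL2 hc hσ hW
  obtain ⟨⟨w1, -, -, -⟩, -, -, -, -, w6, -⟩ := h5 n j L x hT
  have hw6 := w6 hNR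
  have hn20 := hT.toLow.hn
  have hn0 : (0 : ℝ) < n := lt_of_lt_of_le (by norm_num) hn20
  have hσa : |σ| = 1 := by rcases hσ with rfl | rfl <;> norm_num
  have hp := pol_le j
  have hj0 : (0 : ℝ) ≤ j := Nat.cast_nonneg _
  have hP : (0 : ℝ) < 2 ^ j := by positivity
  have hxn := hT.norm_x_le
  have hx0 : 0 < ‖x‖ := by linarith
  have c4 : |u.im| ≤ 4 * j + 10 := by
    have h8 : |u.im| = |σ * u.im| := by rw [abs_mul, hσa, one_mul]
    rw [h8, abs_of_nonneg (by linarith)]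
    exact c2
  have hu4 : 4 ≤ ‖u‖ := by
    have h8 := Complex.abs_im_le_norm u
    have h9 := le_abs_self (σ * u.im)
    rw [abs_mul, hσa, one_mul] at h9
    linarith
  have hu0 : 0 < ‖u‖ := by linarith
  have hnorm := Complex.norm_le_abs_re_add_abs_im u
  obtain ⟨-, g2, -, -, -, -, g7⟩ := h3 n j L x u hT huT
  have hs : (2 * Real.pi * I * s : ℂ) = ((2 * Real.pi * s : ℝ) : ℂ) * I := by
    push_cast
    ring
  have eim : u.im = u.arg + (GG n L j u).im - (WW n j L x).im + 2 * Real.pi * s := by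
    conv_lhs => rw [ceq]
    rw [add_im, sub_im, add_im, log_im, hs, mul_I_im, ofReal_re]
  -- the two cases
  have hcase : ‖u‖ ≤ ‖x‖ / 200 ∧ (0 ≤ u.re → ‖u‖ ≤ 9 * j + 18) := by
    rcases le_or_gt 0 u.re with hre | hre
    · have ere : u.re = Real.log ‖u‖ + (GG n L j u).re - (WW n j L x).re := by
        conv_lhs => rw [ceq]
        rw [add_re, sub_re, add_re, log_re, hs]
        simp
      have hG : (GG n L j u).re ≤ 2 * j + ‖u‖ / n := by
        rw [norm_exp] at g2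
        have h8 := Real.log_le_log (Real.exp_pos _) g2
        rw [Real.log_exp, Real.log_mul (by positivity) (Real.exp_pos _).ne', Real.log_exp,
          Real.log_pow] at h8
        have h9 := log3
        nlinarith
      have hlog : Real.log ‖u‖ ≤ ‖u‖ / 4 + 2 := by
        have h8 := Real.log_le_sub_one_of_pos (by positivity : (0 : ℝ) < ‖u‖ / 4)
        rw [Real.log_div hu0.ne' (by norm_num)] at h8
        have := log4
        linarith
      have hun : ‖u‖ / n ≤ ‖u‖ / 10 ^ 20 := by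
        apply div_le_div_of_nonneg_left hu0.le (by norm_num) hn20
      have hre' : |u.re| = u.re := abs_of_nonneg hre
      rw [hre'] at hnorm
      have hb : ‖u‖ ≤ 9 * j + 18 := by linarith
      refine ⟨?_, fun _ => hb⟩
      nlinarith
    · refine ⟨?_, fun h => absurd h (not_le.2 hre)⟩
      rw [abs_of_neg hre] at hnorm
      nlinarith
  obtain ⟨hc1, hc2⟩ := hcase
  obtain ⟨k1, k2, k3⟩ := h4 n j L x u hT (by linarith)
  rw [cW0] at k1 k2 k3
  refine ⟨fun i hi => lt_of_le_of_lt (k1 i hi) (by norm_num), ?_, ?_⟩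
  · rw [k2]
    linarith
  -- beta
  obtain ⟨m1, m2⟩ := g7 (by linarith)
  set e : ℝ := (GG n L j u).im + (1 - 1 / (n : ℝ)) * (SS n L j u - u).im - u.im / n with he
  have hbeta : beta n j L x (wl n Λ j L x s) s = u.arg + e := by
    unfold beta
    have h8 : ∑ i ∈ Finset.range (j + 1),
        (ui n (zz n L i) ((E n L)^[i] (wl n Λ j L x s))).im = (SS n L j u).im := by
      rw [← k3, Complex.im_sum]
    rw [h8, he, sub_im]
    have h9 : (WW n j L x).im - 2 * Real.pi * s = u.arg + (GG n L j u).im - u.im := by linarith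
    rw [h9]
    ring
  have hn1 : |1 - 1 / (n : ℝ)| ≤ 1 := by
    have h8 : 1 / (n : ℝ) ≤ 1 := by
      rw [div_le_one hn0]
      linarith
    have h9 : 0 < 1 / (n : ℝ) := by positivity
    rw [abs_le]
    constructor <;> linarith
  have he1 : |e| ≤ 141 / 10 * ‖u‖ / ‖x‖ := by
    have a1 : |(GG n L j u).im| ≤ 5 * ‖u‖ / ‖x‖ := (abs_im_le_norm _).trans m1
    have a2 : |(1 - 1 / (n : ℝ)) * (SS n L j u - u).im| ≤ 5 * ‖u‖ / ‖x‖ := by
      rw [abs_mul]
      calc |1 - 1 / (n : ℝ)| * |(SS n L j u - u).im| ≤ 1 * (5 * ‖u‖ / ‖x‖) :=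
            mul_le_mul hn1 ((abs_im_le_norm _).trans m2) (abs_nonneg _) (by norm_num)
        _ = _ := one_mul _
    have a3 : |u.im / n| ≤ 401 / 100 * ‖u‖ / ‖x‖ := by
      rw [abs_div, Nat.abs_cast, div_le_div_iff₀ hn0 hx0]
      have := abs_im_le_norm u
      calc |u.im| * ‖x‖ ≤ ‖u‖ * (401 / 100 * n) :=
            mul_le_mul this hxn hx0.le hu0.le
        _ = _ := by ring
    have a4 : |e| ≤ |(GG n L j u).im| + |(1 - 1 / (n : ℝ)) * (SS n L j u - u).im| + |u.im / n| := by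
      rw [he]
      exact (abs_sub _ _).trans (add_le_add (abs_add_le _ _) le_rfl)
    have a5 : 141 / 10 * ‖u‖ / ‖x‖ = 5 * ‖u‖ / ‖x‖ + 5 * ‖u‖ / ‖x‖ + 41 / 10 * ‖u‖ / ‖x‖ := by
      ring
    have a6 : 401 / 100 * ‖u‖ / ‖x‖ ≤ 41 / 10 * ‖u‖ / ‖x‖ := by
      rw [div_le_div_iff_of_pos_right hx0]
      linarith
    linarith
  have he2 : |e| ≤ 8 / 100 := by
    refine he1.trans ?_
    rw [div_le_iff₀ hx0]
    linarith
  obtain ⟨b1, b2⟩ := sarg hσ (by linarith : 0 < σ * u.im)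
  have hpi := Real.pi_gt_three
  have hlt : |e| < σ * u.arg := by
    rcases le_or_gt 0 u.re with hre | hre
    · have h8 := sarg_ge hσ (by linarith : 0 < σ * u.im)
      have h9 := hc2 hre
      have h10 : 4 / ‖u‖ ≤ σ * u.im / ‖u‖ := by
        rw [div_le_div_iff_of_pos_right hu0]
        exact c1
      refine lt_of_le_of_lt he1 (lt_of_lt_of_le ?_ (h10.trans h8))
      rw [div_lt_div_iff₀ hx0 hu0]
      have h11 : ‖u‖ * ‖u‖ ≤ (9 * j + 18) * (9 * j + 18) := by
        apply mul_le_mul h9 h9 hu0.le (by positivity)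
      nlinarith
    · have h8 : ¬ |u.arg| ≤ Real.pi / 2 := fun h => absurd (abs_arg_le_pi_div_two_iff.1 h)
        (not_le.2 hre)
      have h9 : |u.arg| = σ * u.arg := by
        rw [← abs_of_pos b1, abs_mul, hσa, one_mul]
      rw [h9] at h8
      linarith
  constructor
  · rw [hbeta, mul_add]
    have h8 := neg_abs_le (σ * e)
    rw [abs_mul, hσa, one_mul] at h8
    linarith
  · rw [hbeta]
    have := abs_add_le u.arg e
    linarith

end LOC_

theorem p_LOC (h1 : T_LOCI) (h2 : T_LAND) (h3 : T_GTOP) (h4 : T_UI1) (h5 : T_WEST) (h6 : T_RAY)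
    (h7 : T_TYPE) : T_LOC := by
  intro n j Λ L x s hΛ hT hL1 hL2 hc hNR
  constructor
  · intro hW
    obtain ⟨a1, a2, a3, a4⟩ := LOC_.typ h1 h2 h3 h4 h5 h6 h7 (σ := 1) hΛ hT hL1 hL2 hc hNR
      (Or.inl rfl) (by rw [hW]; ring)
    rw [one_mul] at a3
    exact ⟨a1, a2, a3, (abs_lt.1 a4).2⟩
  · intro hW hcl
    obtain ⟨-, -, a3, -⟩ := LOC_.typ h1 h2 h3 h4 h5 h6 h7 (σ := -1) hΛ hT hL1 hL2 hc hNR
      (Or.inr rfl) (by rw [hW]; ring)
    have := hcl.2.2.1
    linarith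

end Pool.Agent.Limb
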