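import Pool.Agent.Limb.Targets

/-!
# LIMB: the ray stays in the trapping region (job LOCI)
-/

set_option autoImplicit false

open Complex Filter Topology Set
open Pool.Agent.Multibrot

namespace Pool.Agent.Limb

namespace LOCI_

/-! ### analytic helpers -/

lemma const_of_exp {T : ℝ} {f : ℝ → ℂ} (hc : ContinuousOn f (Ioi T))
    (he : ∀ t, T < t → exp (f t) = 1) (c : ℝ) (hl : Tendsto (fun t => (f t).im) atTop (𝓝 c)) :
    ∀ t, T < t → f t = c * I := by
  have h1 : MapsTo (fun t => (f t).im) (Ioi T) (AddSubgroup.zmultiples (2 * Real.pi) : Set ℝ) := by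
    intro t ht
    obtain ⟨k, hk⟩ := Complex.exp_eq_one_iff.1 (he t ht)
    rw [SetLike.mem_coe, AddSubgroup.mem_zmultiples_iff]
    refine ⟨k, ?_⟩
    simp only [hk, zsmul_eq_mul]
    simp [mul_im]
  have hd : IsDiscrete (AddSubgroup.zmultiples (2 * Real.pi) : Set ℝ) :=
    ⟨(inferInstance : DiscreteTopology (AddSubgroup.zmultiples (2 * Real.pi : ℝ)))⟩
  obtain ⟨y, -, hy⟩ := isPreconnected_Ioi.eqOn_const_of_mapsTo (S := Ioi T) hd
    (continuous_im.comp_continuousOn hc) h1 ⟨0, zero_mem _⟩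
  have h2 : Tendsto (fun t => (f t).im) atTop (𝓝 y) := by
    refine tendsto_const_nhds.congr' ?_
    filter_upwards [eventually_gt_atTop T] with t ht
    exact (hy ht).symm
  have h3 : y = c := tendsto_nhds_unique h2 hl
  intro t ht
  have h4 : (f t).im = c := (hy ht).trans h3
  have h5 : (f t).re = 0 := by
    obtain ⟨k, hk⟩ := Complex.exp_eq_one_iff.1 (he t ht)
    rw [hk]
    simp
  apply Complex.ext
  · rw [h5]
    simp
  · rw [h4]
    simp

lemma tendsto_arg_zero {f : ℝ → ℂ} {b : ℝ} (h1 : Tendsto (fun t => (f t).re) atTop atTop)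
    (h2 : Tendsto (fun t => (f t).im) atTop (𝓝 b)) :
    Tendsto (fun t => (f t).arg) atTop (𝓝 0) := by
  have h3 : Tendsto (fun t => (f t).im / ‖f t‖) atTop (𝓝 0) := by
    refine h2.div_atTop ?_
    exact tendsto_atTop_mono (fun t => re_le_norm _) h1
  have h4 : Tendsto (fun t => Real.arcsin ((f t).im / ‖f t‖)) atTop (𝓝 (Real.arcsin 0)) :=
    (Real.continuous_arcsin.tendsto 0).comp h3
  rw [Real.arcsin_zero] at h4
  refine h4.congr' ?_
  filter_upwards [h1.eventually (eventually_ge_atTop 0)] with t ht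
  rw [Complex.arg_of_re_nonneg ht]

/-- the position on the ray -/
noncomputable def ct (θ t : ℝ) : ℂ := (t : ℂ) + 2 * Real.pi * θ * I

lemma ct_eq (θ t : ℝ) : ct θ t = (t : ℂ) + ((2 * Real.pi * θ : ℝ) : ℂ) * I := by
  unfold ct
  push_cast
  ring

lemma ct_re (θ t : ℝ) : (ct θ t).re = t := by
  rw [ct_eq]
  simp

lemma nat_mul_ct (n : ℕ) (θ t : ℝ) : (n : ℂ) * ct θ t = ct (n * θ) (n * t) := by
  unfold ct
  push_cast
  ring

section

variable {n : ℕ} {Λ : ℂ → ℂ → ℂ} {L : ℂ}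

/-- what the target RAY gives -/
structure RayF (n : ℕ) (Λ : ℂ → ℂ → ℂ) (L : ℂ) : Prop where
  r1 : ∀ s : ℂ, 0 < s.re → exp (L + xi n Λ L s) = n * (exp (xi n Λ L (n * s) / n) - 1)
  r3 : ∀ (s : ℂ) (k : ℤ), 0 < s.re →
    xi n Λ L (s + 2 * Real.pi * I * k / n) = xi n Λ L s + 2 * Real.pi * I * k
  r4 : ∀ a : ℝ, ContinuousOn (fun t : ℝ => xi n Λ L (t + a * I)) (Ioi 0)
  r5 : ∀ a : ℝ, Tendsto (fun t : ℝ => xi n Λ L (t + a * I) - (n * (t + a * I) - n * ell n L))
    atTop (𝓝 0)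

variable (R : RayF n Λ L) (hn : (10 : ℝ) ^ 20 ≤ n)
include R

lemma RayF.cont (θ : ℝ) : ContinuousOn (fun t : ℝ => xi n Λ L (ct θ t)) (Ioi 0) := by
  have h := R.r4 (2 * Real.pi * θ)
  refine h.congr fun t _ => ?_
  simp only [ct_eq]

lemma RayF.lim_re (hn : (10 : ℝ) ^ 20 ≤ n) (θ : ℝ) :
    Tendsto (fun t : ℝ => (xi n Λ L (ct θ t)).re) atTop atTop := by
  have h := R.r5 (2 * Real.pi * θ)
  have h1 := (continuous_re.tendsto 0).comp h
  have hn0 : (0 : ℝ) < n := lt_of_lt_of_le (by norm_num) hn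
  have h2 : Tendsto (fun t : ℝ => n * t - (n * ell n L).re) atTop atTop := by
    apply tendsto_atTop_add_const_right
    exact tendsto_id.const_mul_atTop hn0
  have h3 := h1.add_atTop h2
  refine h3.congr fun t => ?_
  simp only [Function.comp_apply, ct_eq, sub_re, add_re, mul_re, natCast_re, natCast_im, ofReal_re,
    ofReal_im, I_re, I_im, add_im, mul_im]
  ring

lemma RayF.lim_im (θ : ℝ) :
    Tendsto (fun t : ℝ => (xi n Λ L (ct θ t)).im) atTop
      (𝓝 (n * (2 * Real.pi * θ) - (n * ell n L).im)) := by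
  have h := R.r5 (2 * Real.pi * θ)
  have h1 := (continuous_im.tendsto 0).comp h
  have h3 := h1.add_const (n * (2 * Real.pi * θ) - (n * ell n L).im)
  rw [zero_im, zero_add] at h3
  refine h3.congr fun t => ?_
  simp only [Function.comp_apply, ct_eq, sub_im, add_re, mul_re, natCast_re, natCast_im, ofReal_re,
    ofReal_im, I_re, I_im, add_im, mul_im]
  ring

lemma RayF.shift (hn : (10 : ℝ) ^ 20 ≤ n) (θ t : ℝ) (k : ℤ) (ht : 0 < t) :
    xi n Λ L (ct (θ + k) t) = xi n Λ L (ct θ t) + 2 * Real.pi * I * (n * k) := by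
  have hn0 : (0 : ℝ) < n := lt_of_lt_of_le (by norm_num) hn
  have hn1 : (n : ℂ) ≠ 0 := by exact_mod_cast hn0.ne'
  have h := R.r3 (ct θ t) (n * k) (by rw [ct_re]; exact ht)
  push_cast at h
  rw [← h]
  congr 1
  unfold ct
  push_cast
  field_simp
  ring

/-- the functional equation along the rays -/
lemma RayF.func (hn : (10 : ℝ) ^ 20 ≤ n) (θ θ' t : ℝ) (k : ℤ) (ht : 0 < t) (h : θ' = n * θ - k) :
    exp (L + xi n Λ L (ct θ (t / n))) = n * (exp (xi n Λ L (ct θ' t) / n) - 1) := by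
  have hn0 : (0 : ℝ) < n := lt_of_lt_of_le (by norm_num) hn
  have hn1 : (n : ℂ) ≠ 0 := by exact_mod_cast hn0.ne'
  rw [R.r1 _ (by rw [ct_re]; positivity), nat_mul_ct]
  have h1 : (n : ℝ) * (t / n) = t := by field_simp
  have h2 : (n : ℝ) * θ = θ' + k := by rw [h]; ring
  rw [h1, h2, R.shift hn θ' t k ht, add_div]
  have h3 : 2 * (Real.pi : ℂ) * I * (n * k) / n = k * (2 * Real.pi * I) := by
    field_simp
  rw [h3, exp_add, Complex.exp_int_mul_two_pi_mul_I, mul_one]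

end

/-! ### the setting -/

/-- the angles -/
noncomputable def ang (n : ℕ) (sz : ℕ → ℤ) (a : ℝ) : ℕ → ℝ
  | 0 => a
  | i + 1 => n * ang n sz a i - sz i

lemma ang_formula (n : ℕ) (sz : ℕ → ℤ) (a : ℝ) (m : ℕ) :
    n * ang n sz a m = (n : ℝ) ^ (m + 1) * a - ∑ i ∈ Finset.range m, sz i * (n : ℝ) ^ (m - i) := by
  induction m with
  | zero => simp [ang]
  | succ m ih =>
    rw [ang, mul_sub, ih, Finset.sum_range_succ]
    have h1 : ∑ i ∈ Finset.range m, (sz i : ℝ) * (n : ℝ) ^ (m + 1 - i) =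
        n * ∑ i ∈ Finset.range m, (sz i : ℝ) * (n : ℝ) ^ (m - i) := by
      rw [Finset.mul_sum]
      refine Finset.sum_congr rfl fun i hi => ?_
      have h2 : m + 1 - i = (m - i) + 1 := by
        have := Finset.mem_range.1 hi
        omega
      rw [h2, pow_succ]
      ring
    have h3 : m + 1 - m = 1 := by omega
    rw [h1, h3, pow_one]
    ring

/-- the data, `j = k + 1` -/
structure Da (n k : ℕ) (Λ : ℂ → ℂ → ℂ) (L x : ℂ) (s : ℤ) (σ : ℝ) (sz : ℕ → ℤ) (θ : ℕ → ℝ) :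
    Prop where
  ext : IsExt n Λ
  tow : Tow n (k + 1) L x
  mm : cc n L ∈ MM n
  sg : σ = 1 ∨ σ = -1
  hW : (WW n (k + 1) L x).im - 2 * Real.pi * s = -σ * (2 * ((k : ℝ) + 1) + 5)
  hθ : ∀ i, θ (i + 1) = n * θ i - sz i
  hlow : ∀ i, i < k → n * log (1 + zz n L i / n) = log (zz n L (i + 1)) - L +
    2 * Real.pi * I * sz i
  htop : n * log (1 + zz n L k / n) = zeta n x - L + 2 * Real.pi * I * sz k
  hend : n * θ (k + 1) = θ 0 + s
  hell : |2 * Real.pi * θ 0 - (ell n L).im| ≤ 1 / 10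

/-- the position on the ray at the top -/
noncomputable def UU (n k : ℕ) (Λ : ℂ → ℂ → ℂ) (L x : ℂ) (θ : ℕ → ℝ) (t : ℝ) : ℂ :=
  xi n Λ L (ct (θ (k + 1)) t) - x

/-- the position one stage below -/
noncomputable def VU (n k : ℕ) (Λ : ℂ → ℂ → ℂ) (L : ℂ) (θ : ℕ → ℝ) (t : ℝ) : ℂ :=
  xi n Λ L (ct (θ k) t) - n * log (1 + zz n L k / n)

/-- the limit of the imaginary part -/
noncomputable def bb (n k : ℕ) (L x : ℂ) (θ : ℕ → ℝ) : ℝ :=
  n * (2 * Real.pi * θ (k + 1)) - (n * ell n L).im - x.im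

/-- the trapping region -/
def QT (x : ℂ) (σ : ℝ) : Set ℂ := {u | u ∈ TT x ∧ 1 < σ * u.im}

section

variable {n k : ℕ} {Λ : ℂ → ℂ → ℂ} {L x : ℂ} {s : ℤ} {σ : ℝ} {sz : ℕ → ℤ} {θ : ℕ → ℝ}
  (D : Da n k Λ L x s σ sz θ) (R : RayF n Λ L)
  (h2 : T_CHL) (h4 : T_WEST) (h5 : T_GTOP) (h6 : T_TOPST) (h7 : T_INFT)

include D

lemma Da.hn : (10 : ℝ) ^ 20 ≤ n := D.tow.toLow.hn

lemma Da.hn2 : 2 ≤ n := D.tow.toLow.two_le

lemma Da.npos : (0 : ℝ) < n := lt_of_lt_of_le (by norm_num) D.hn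

lemma Da.nne : (n : ℂ) ≠ 0 := by exact_mod_cast D.npos.ne'

lemma Da.ell_im : (n * ell n L).im = (ell n L).im + L.im := by
  rw [n_ell D.hn2, sub_im, add_im, ofReal_im, sub_zero]

lemma Da.bb_eq : bb n k L x θ = σ * (2 * ((k : ℝ) + 1) + 5) + (KK n (k + 1) L x).im +
    (2 * Real.pi * θ 0 - (ell n L).im) := by
  have h1 : (WW n (k + 1) L x).im = x.im + L.im + (KK n (k + 1) L x).im := by
    rw [WW]
    simp
  have h3 := D.hW
  have h4 := D.hend
  have h5 : n * (2 * Real.pi * θ (k + 1)) = 2 * Real.pi * (θ 0 + s) := by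
    rw [← h4]
    ring
  rw [bb, D.ell_im, h5]
  rw [h1] at h3
  linarith

include h4 in
lemma Da.X_lb : 4 * 10 ^ 7 * 2 ^ (k + 1) ≤ ‖x‖ := (h4 n (k + 1) L x D.tow).1.1

omit D in
lemma two_pow_ge (k : ℕ) : ((k : ℝ) + 1) ≤ 2 ^ (k + 1) := by
  have := Nat.lt_two_pow_self (n := k + 1)
  exact_mod_cast this.le

include h4 in
lemma Da.X_lb' : 4 * 10 ^ 7 * ((k : ℝ) + 1) ≤ ‖x‖ :=
  (mul_le_mul_of_nonneg_left (two_pow_ge k) (by norm_num)).trans (D.X_lb h4)

include h4 in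
lemma Da.X7 : (10 : ℝ) ^ 7 ≤ ‖x‖ := by
  have h := D.X_lb' h4
  have h1 : (0 : ℝ) ≤ k := Nat.cast_nonneg k
  have h2 : (10 : ℝ) ^ 7 = 10000000 := by norm_num
  rw [h2] at *
  linarith

include h4 in
lemma Da.bb_abs : |bb n k L x θ - σ * (2 * ((k : ℝ) + 1) + 5)| ≤ 8 / 5 * ((k : ℝ) + 1) + 1 / 10 := by
  have h1 := (h4 n (k + 1) L x D.tow).2.2.2.2.1
  push_cast at h1
  have h2 := D.hell
  rw [D.bb_eq]
  have e : σ * (2 * ((k : ℝ) + 1) + 5) + (KK n (k + 1) L x).im +
    (2 * Real.pi * θ 0 - (ell n L).im) - σ * (2 * ((k : ℝ) + 1) + 5) =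
    (KK n (k + 1) L x).im + (2 * Real.pi * θ 0 - (ell n L).im) := by ring
  rw [e]
  exact (abs_add_le _ _).trans (add_le_add h1 h2)

omit D in
lemma sg_abs {σ : ℝ} (h : σ = 1 ∨ σ = -1) (a : ℝ) : |σ * a| = |a| := by
  rcases h with h | h <;> rw [h] <;> simp

omit D in
lemma sg_sq {σ : ℝ} (h : σ = 1 ∨ σ = -1) : σ * σ = 1 := by
  rcases h with h | h <;> rw [h] <;> norm_num

include h4 in
lemma Da.bb_lo : 1 < σ * bb n k L x θ := by
  have h1 := D.bb_abs h4
  rw [← sg_abs D.sg] at h1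
  have h2 := (abs_le.1 h1).1
  have h3 : σ * (bb n k L x θ - σ * (2 * ((k : ℝ) + 1) + 5)) =
      σ * bb n k L x θ - (σ * σ) * (2 * ((k : ℝ) + 1) + 5) := by ring
  rw [h3, sg_sq D.sg] at h2
  have h5 : (0 : ℝ) ≤ k := Nat.cast_nonneg k
  linarith

include h4 in
lemma Da.bb_hi : |bb n k L x θ| < ‖x‖ / 50 := by
  have h1 := D.bb_abs h4
  have h2 : |bb n k L x θ| ≤ |bb n k L x θ - σ * (2 * ((k : ℝ) + 1) + 5)| +
      |σ * (2 * ((k : ℝ) + 1) + 5)| := by
    have := abs_add_le (bb n k L x θ - σ * (2 * ((k : ℝ) + 1) + 5)) (σ * (2 * ((k : ℝ) + 1) + 5))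
    rwa [sub_add_cancel] at this
  have h5 : (0 : ℝ) ≤ k := Nat.cast_nonneg k
  rw [sg_abs D.sg, abs_of_nonneg (by linarith : (0 : ℝ) ≤ 2 * ((k : ℝ) + 1) + 5)] at h2
  have h3 := D.X_lb' h4
  linarith

include R in
lemma Da.UU_re : Tendsto (fun t => (UU n k Λ L x θ t).re) atTop atTop := by
  have h := R.lim_re D.hn (θ (k + 1))
  have h1 := tendsto_atTop_add_const_right atTop (-x.re) h
  refine h1.congr fun t => ?_
  rw [UU, sub_re]
  ring

include R in
omit D in
lemma UU_im : Tendsto (fun t => (UU n k Λ L x θ t).im) atTop (𝓝 (bb n k L x θ)) := by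
  have h := (R.lim_im (θ (k + 1))).sub_const x.im
  refine h.congr fun t => ?_
  rw [UU, sub_im]

include R in
omit D in
lemma UU_cont : ContinuousOn (UU n k Λ L x θ) (Ioi 0) := (R.cont (θ (k + 1))).sub continuousOn_const

include R in
omit D in
lemma VU_cont : ContinuousOn (VU n k Λ L θ) (Ioi 0) := (R.cont (θ k)).sub continuousOn_const

include R in
lemma Da.VU_im : Tendsto (fun t => (VU n k Λ L θ t).im) atTop
    (𝓝 (2 * Real.pi * θ (k + 1) - (ell n L).im - (zeta n x).im)) := by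
  have h := (R.lim_im (θ k)).sub_const (n * log (1 + zz n L k / n)).im
  have h1 : (n * log (1 + zz n L k / n)).im = (zeta n x).im - L.im + 2 * Real.pi * sz k := by
    rw [D.htop]
    simp [mul_im]
  have h2 : n * (2 * Real.pi * θ k) - (n * ell n L).im - (n * log (1 + zz n L k / n)).im =
      2 * Real.pi * θ (k + 1) - (ell n L).im - (zeta n x).im := by
    rw [h1, D.hθ, D.ell_im]
    ring
  rw [h2] at h
  refine h.congr fun t => ?_
  rw [VU, sub_im]

include h4 in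
lemma Da.zk_ne : zz n L (k + 1) ≠ 0 := by
  rw [← (h4 n (k + 1) L x D.tow).2.1]
  exact exp_ne_zero _

include R h4 h6 h7 in
/-- (i): the relation between the two top stages -/
lemma Da.rel1 {T : ℝ} (hT : 0 ≤ T) (hQ : ∀ t, T < t → UU n k Λ L x θ t ∈ QT x σ) :
    ∀ t, T < t → hh n (zz n L (k + 1)) (UU n k Λ L x θ t) = VU n k Λ L θ (t / n) := by
  have hn0 := D.npos
  have hnn := D.nne
  have hzk := D.zk_ne h4
  have hz := D.tow.hx
  have hmaps : MapsTo (fun t : ℝ => t / n) (Ioi T) (Ioi 0) := fun t ht =>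
    div_pos (lt_of_le_of_lt hT ht) hn0
  have hc : ContinuousOn (fun t => hh n (zz n L (k + 1)) (UU n k Λ L x θ t) -
      VU n k Λ L θ (t / n)) (Ioi T) := by
    refine ContinuousOn.sub ?_ ?_
    · intro t ht
      have a1 := (h6 n x (zz n L (k + 1)) _ D.hn (D.X7 h4) D.tow.him D.tow.hle D.tow.hx (hQ t ht).1).2.2.2.2.2.2.1
      have a2 : ContinuousWithinAt (UU n k Λ L x θ) (Ioi T) t :=
        ((UU_cont R).mono (Ioi_subset_Ioi hT)) t ht
      exact ContinuousAt.comp_continuousWithinAt (g := hh n (zz n L (k + 1))) a1.continuousAt a2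
    · exact (VU_cont R).comp (continuous_id.div_const _).continuousOn hmaps
  have he : ∀ t, T < t → exp (hh n (zz n L (k + 1)) (UU n k Λ L x θ t) -
      VU n k Λ L θ (t / n)) = 1 := by
    intro t ht
    have ht0 : 0 < t := lt_of_le_of_lt hT ht
    have a1 := (h6 n x (zz n L (k + 1)) _ D.hn (D.X7 h4) D.tow.him D.tow.hle D.tow.hx (hQ t ht).1).1.1
    have a2 : exp (hh n (zz n L (k + 1)) (UU n k Λ L x θ t)) =
        1 + (1 + n / zz n L (k + 1)) * (exp (UU n k Λ L x θ t / n) - 1) := by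
      rw [hh, exp_log (slitPlane_ne_zero a1)]
    have a3 := R.func D.hn (θ k) (θ (k + 1)) t (sz k) ht0 (D.hθ k)
    have a4 : exp (VU n k Λ L θ (t / n)) * zz n L (k + 1) =
        n * (exp (xi n Λ L (ct (θ (k + 1)) t) / n) - 1) := by
      rw [← a3, VU, exp_sub, D.htop, exp_add, exp_sub, (h4 n (k + 1) L x D.tow).2.1, exp_add]
      have e1 : exp (2 * Real.pi * I * sz k) = 1 := by
        rw [mul_comm]
        exact Complex.exp_int_mul_two_pi_mul_I _
      rw [e1]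
      have e2 := exp_ne_zero L
      field_simp
    have a5 : exp (UU n k Λ L x θ t / n) = exp (xi n Λ L (ct (θ (k + 1)) t) / n) / exp (x / n) := by
      rw [UU, sub_div, exp_sub]
    have a6 : exp (x / n) = 1 + zz n L (k + 1) / n := by
      rw [hz]
      field_simp
      ring
    have a7 : exp (hh n (zz n L (k + 1)) (UU n k Λ L x θ t)) * zz n L (k + 1) =
        n * (exp (xi n Λ L (ct (θ (k + 1)) t) / n) - 1) := by
      rw [a2, a5]
      have e3 : exp (x / n) ≠ 0 := exp_ne_zero _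
      have e4 : (1 + n / zz n L (k + 1)) * zz n L (k + 1) = n * exp (x / n) := by
        rw [a6]
        field_simp
        ring
      have e5 : (1 + (1 + n / zz n L (k + 1)) *
          (exp (xi n Λ L (ct (θ (k + 1)) t) / n) / exp (x / n) - 1)) * zz n L (k + 1) =
          zz n L (k + 1) + ((1 + n / zz n L (k + 1)) * zz n L (k + 1)) *
          (exp (xi n Λ L (ct (θ (k + 1)) t) / n) / exp (x / n) - 1) := by ring
      rw [e5, e4, hz]
      field_simp
      ring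
    rw [exp_sub, div_eq_one_iff_eq (exp_ne_zero _)]
    exact mul_right_cancel₀ hzk (a7.trans a4.symm)
  have hl : Tendsto (fun t => (hh n (zz n L (k + 1)) (UU n k Λ L x θ t) -
      VU n k Λ L θ (t / n)).im) atTop (𝓝 0) := by
    have b1 := (h7 n x (zz n L (k + 1)) (bb n k L x θ) (UU n k Λ L x θ) D.hn (D.X7 h4)
      D.tow.him D.tow.hle D.tow.hx (D.bb_hi h4).le (D.UU_re R) (UU_im R)).2.1
    have b2 : Tendsto (fun t : ℝ => t / n) atTop atTop := tendsto_id.atTop_div_const hn0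
    have b3 := (D.VU_im R).comp b2
    have b4 := b1.sub b3
    have b5 : bb n k L x θ / n + (x / n).im - (zeta n x).im -
        (2 * Real.pi * θ (k + 1) - (ell n L).im - (zeta n x).im) = 0 := by
      have c1 : (x / n).im = x.im / n := by rw [← ofReal_natCast, div_ofReal_im]
      have c2 : (n * ell n L).im = n * (ell n L).im := by simp [mul_im]
      rw [bb, c1, c2]
      field_simp
      ring
    rw [b5] at b4
    refine b4.congr fun t => ?_
    rw [sub_im]
    rfl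
  intro t ht
  have h := const_of_exp hc he 0 hl t ht
  rw [ofReal_zero, zero_mul] at h
  exact sub_eq_zero.1 h

include R h2 h4 h6 h7 in
/-- (ii): the chain at the top, and the limit of `Im GG` -/
lemma Da.rel2 {T : ℝ} (hT : 0 ≤ T) (hQ : ∀ t, T < t → UU n k Λ L x θ t ∈ QT x σ) :
    (∀ t, T < t → W0 n L (k + 1) (UU n k Λ L x θ t) =
      n * (exp (xi n Λ L (ct (θ 0) (t / (n : ℝ) ^ (k + 1))) / n) - 1)) ∧
    Tendsto (fun t => (GG n L (k + 1) (UU n k Λ L x θ t)).im) atTop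
      (𝓝 ((KK n (k + 1) L x).im + (2 * Real.pi * θ 0 - (ell n L).im))) := by
  have hn0 := D.npos
  have hnn := D.nne
  have i1 := D.rel1 R h4 h6 h7 hT hQ
  have hq : ∀ t, T / n < t → VU n k Λ L θ t ∈ QQ := by
    intro t ht
    have ht2 : T < n * t := by
      rw [div_lt_iff₀ hn0] at ht
      linarith
    have a1 := i1 (n * t) ht2
    have a2 : (n : ℝ) * t / n = t := by field_simp
    rw [a2] at a1
    rw [← a1]
    exact (h6 n x (zz n L (k + 1)) _ D.hn (D.X7 h4) D.tow.him D.tow.hle D.tow.hx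
      (hQ (n * t) ht2).1).2.1
  obtain ⟨c1, c2⟩ := h2 n k Λ L θ sz (T / n) D.hn D.ext D.mm (fun i _ => D.hθ i) D.hlow
    (fun i hi1 hi2 => ⟨D.tow.toLow.ge8 hi1 (by omega), D.tow.toLow.hre i hi1 (by omega)⟩)
    (div_nonneg hT hn0.le) hq
  constructor
  · intro t ht
    have a1 := c1 (t / n) (div_lt_div_of_pos_right ht hn0)
    have a2 : VV n L (k + 1) (UU n k Λ L x θ t) =
        xi n Λ L (ct (θ 0) (t / (n : ℝ) ^ (k + 1))) := by
      rw [VV, i1 t ht]
      refine Eq.trans a1 ?_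
      rw [ct]
      have e : t / (n : ℝ) / (n : ℝ) ^ k = t / (n : ℝ) ^ (k + 1) := by
        rw [div_div, pow_succ]
        congr 1
        ring
      rw [e]
    rw [W0, a2]
  · have b2 : Tendsto (fun t : ℝ => t / n) atTop atTop := tendsto_id.atTop_div_const hn0
    have b3 := c2.comp b2
    have b4 := (h7 n x (zz n L (k + 1)) (bb n k L x θ) (UU n k Λ L x θ) D.hn (D.X7 h4)
      D.tow.him D.tow.hle D.tow.hx (D.bb_hi h4).le (D.UU_re R) (UU_im R)).2.2
    have b5 := b3.add b4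
    have b6 : (∑ i ∈ Finset.range k, ((log (zz n L (i + 1))).im -
        (log (1 + zz n L (i + 1) / n)).im) + 2 * Real.pi * θ 0 - (ell n L).im) +
        ((zeta n x).im - (x / n).im) =
        (KK n (k + 1) L x).im + (2 * Real.pi * θ 0 - (ell n L).im) := by
      rw [KK, Nat.add_sub_cancel, add_im, sub_im, Complex.im_sum]
      simp only [sub_im]
      ring
    rw [b6] at b5
    refine b5.congr' ?_
    filter_upwards [eventually_gt_atTop T] with t ht
    rw [GG, add_im, i1 t ht]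
    rfl

lemma QT_im {u : ℂ} (hu : u ∈ QT x σ) : 1 < |u.im| := by
  have h := hu.2
  rw [← sg_abs D.sg u.im]
  exact lt_of_lt_of_le h (le_abs_self _)

lemma QT_slit {u : ℂ} (hu : u ∈ QT x σ) : u ∈ slitPlane := by
  right
  have h := QT_im D hu
  intro h0
  rw [h0, abs_zero] at h
  linarith

lemma Da.pow_pos (m : ℕ) : (0 : ℝ) < (n : ℝ) ^ m := by
  have := D.npos
  positivity

include R h2 h4 h5 h6 h7 in
/-- (iii): the functional equation in the trapping region -/
lemma Da.rel3 {T : ℝ} (hT : 0 ≤ T) (hQ : ∀ t, T < t → UU n k Λ L x θ t ∈ QT x σ) :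
    ∀ t, T < t → UU n k Λ L x θ (t / (n : ℝ) ^ (k + 1 + 1)) =
      log (UU n k Λ L x θ t) + GG n L (k + 1) (UU n k Λ L x θ t) - WW n (k + 1) L x +
        2 * Real.pi * I * s := by
  have hn0 := D.npos
  have hnn := D.nne
  have hp := D.pow_pos (k + 1 + 1)
  obtain ⟨i1, i2⟩ := D.rel2 R h2 h4 h6 h7 hT hQ
  have hmaps : MapsTo (fun t : ℝ => t / (n : ℝ) ^ (k + 1 + 1)) (Ioi T) (Ioi 0) := fun t ht =>
    div_pos (lt_of_le_of_lt hT ht) hp
  have hU : ContinuousOn (UU n k Λ L x θ) (Ioi T) := (UU_cont R).mono (Ioi_subset_Ioi hT)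
  have hc : ContinuousOn (fun t => UU n k Λ L x θ (t / (n : ℝ) ^ (k + 1 + 1)) -
      (log (UU n k Λ L x θ t) + GG n L (k + 1) (UU n k Λ L x θ t) - WW n (k + 1) L x +
        2 * Real.pi * I * s)) (Ioi T) := by
    refine ContinuousOn.sub ?_ (ContinuousOn.add (ContinuousOn.sub (ContinuousOn.add ?_ ?_)
      continuousOn_const) continuousOn_const)
    · exact (UU_cont R).comp (continuous_id.div_const _).continuousOn hmaps
    · exact hU.clog fun t ht => QT_slit D (hQ t ht)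
    · intro t ht
      have a1 := (h5 n (k + 1) L x _ D.tow (hQ t ht).1).2.2.2.2.2.1.1
      exact ContinuousAt.comp_continuousWithinAt (g := GG n L (k + 1)) a1.continuousAt (hU t ht)
  have he : ∀ t, T < t → exp (UU n k Λ L x θ (t / (n : ℝ) ^ (k + 1 + 1)) -
      (log (UU n k Λ L x θ t) + GG n L (k + 1) (UU n k Λ L x θ t) - WW n (k + 1) L x +
        2 * Real.pi * I * s)) = 1 := by
    intro t ht
    have ht0 : 0 < t := lt_of_le_of_lt hT ht
    have a0 := (h5 n (k + 1) L x _ D.tow (hQ t ht).1).2.2.2.1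
    have a1 := i1 t ht
    have ht' : 0 < t / (n : ℝ) ^ (k + 1) := div_pos ht0 (D.pow_pos (k + 1))
    have a3 := R.func D.hn (θ (k + 1)) (θ 0) (t / (n : ℝ) ^ (k + 1)) s ht'
      (by rw [D.hend]; ring)
    have e : t / (n : ℝ) ^ (k + 1) / n = t / (n : ℝ) ^ (k + 1 + 1) := by
      rw [div_div, ← pow_succ]
    rw [e, ← a1] at a3
    have a4 : xi n Λ L (ct (θ (k + 1)) (t / (n : ℝ) ^ (k + 1 + 1))) =
        UU n k Λ L x θ (t / (n : ℝ) ^ (k + 1 + 1)) + x := by
      rw [UU]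
      ring
    rw [a4] at a3
    have a5 := slitPlane_ne_zero (QT_slit D (hQ t ht))
    have a6 := (h4 n (k + 1) L x D.tow).2.2.1
    have a7 := (h4 n (k + 1) L x D.tow).1.2.2.2
    rw [exp_sub, div_eq_one_iff_eq (exp_ne_zero _), exp_add, exp_sub, exp_add, exp_log a5, a0,
      ← a3]
    have e1 : exp (2 * Real.pi * I * s) = 1 := by
      rw [mul_comm]
      exact Complex.exp_int_mul_two_pi_mul_I _
    have e5 : exp (WW n (k + 1) L x) = exp x * exp L * DD n L (k + 1) := by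
      rw [WW, exp_add, exp_add, a6]
    have e6 : exp (L + (UU n k Λ L x θ (t / (n : ℝ) ^ (k + 1 + 1)) + x)) =
        exp L * (exp (UU n k Λ L x θ (t / (n : ℝ) ^ (k + 1 + 1))) * exp x) := by
      rw [exp_add, exp_add]
    rw [e1, mul_one, e5, e6]
    have e2 := exp_ne_zero L
    have e3 := exp_ne_zero x
    field_simp
  have hl : Tendsto (fun t => (UU n k Λ L x θ (t / (n : ℝ) ^ (k + 1 + 1)) -
      (log (UU n k Λ L x θ t) + GG n L (k + 1) (UU n k Λ L x θ t) - WW n (k + 1) L x +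
        2 * Real.pi * I * s)).im) atTop (𝓝 0) := by
    have b2 : Tendsto (fun t : ℝ => t / (n : ℝ) ^ (k + 1 + 1)) atTop atTop :=
      tendsto_id.atTop_div_const hp
    have b3 : Tendsto (fun t => (UU n k Λ L x θ (t / (n : ℝ) ^ (k + 1 + 1))).im) atTop
        (𝓝 (bb n k L x θ)) := (UU_im R).comp b2
    have b4 := tendsto_arg_zero (D.UU_re R) (UU_im R)
    have b5 := b3.sub (((b4.add i2).sub_const (WW n (k + 1) L x).im).add_const
      (2 * Real.pi * s))
    have b6 : bb n k L x θ - (0 + ((KK n (k + 1) L x).im + (2 * Real.pi * θ 0 - (ell n L).im)) -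
        (WW n (k + 1) L x).im + 2 * Real.pi * s) = 0 := by
      rw [D.bb_eq]
      linarith [D.hW]
    rw [b6] at b5
    refine b5.congr fun t => ?_
    simp only [sub_im, add_im, log_im]
    simp [mul_im]
  intro t ht
  have h := const_of_exp hc he 0 hl t ht
  rw [ofReal_zero, zero_mul] at h
  exact sub_eq_zero.1 h

include R h2 h4 h5 h6 h7 in
/-- (iv): trapping -/
lemma Da.rel4 {T : ℝ} (hT : 0 ≤ T) (hQ : ∀ t, T < t → UU n k Λ L x θ t ∈ QT x σ) :
    ∀ t, T < t → UU n k Λ L x θ (t / (n : ℝ) ^ (k + 1 + 1)) ∈ QT x σ := by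
  intro t ht
  have hu := hQ t ht
  rw [D.rel3 R h2 h4 h5 h6 h7 hT hQ t ht]
  obtain ⟨g1, -, g3, -⟩ := h5 n (k + 1) L x _ D.tow hu.1
  have hk : (0 : ℝ) ≤ k := Nat.cast_nonneg k
  have hX := D.X_lb' h4
  set u := UU n k Λ L x θ t with hu'
  have hu0 : u ≠ 0 := slitPlane_ne_zero (QT_slit D hu)
  have hu1 : 1 < ‖u‖ := (QT_im D hu).trans_le (abs_im_le_norm u)
  have hp1 := Real.pi_gt_three
  have hp2 := Real.pi_lt_d4
  have him : (log u + GG n L (k + 1) u - WW n (k + 1) L x + 2 * Real.pi * I * s).im =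
      u.arg + (GG n L (k + 1) u).im + σ * (2 * ((k : ℝ) + 1) + 5) := by
    have e : (log u + GG n L (k + 1) u - WW n (k + 1) L x + 2 * Real.pi * I * s).im =
        u.arg + (GG n L (k + 1) u).im - (WW n (k + 1) L x).im + 2 * Real.pi * s := by
      simp only [sub_im, add_im, log_im]
      simp [mul_im]
    rw [e]
    linarith [D.hW]
  push_cast at g1
  have harg : 0 ≤ σ * u.arg := by
    have h := hu.2
    rcases D.sg with h1 | h1
    · rw [h1, one_mul] at h ⊢
      exact arg_nonneg_iff.2 (by linarith)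
    · rw [h1] at h ⊢
      have h3 : u.im < 0 := by linarith
      have := arg_neg_iff.2 h3
      linarith
  refine ⟨⟨?_, ?_⟩, ?_⟩
  · have e1 : (log u + GG n L (k + 1) u - WW n (k + 1) L x + 2 * Real.pi * I * s).re =
        Real.log ‖u * exp (GG n L (k + 1) u)‖ - (WW n (k + 1) L x).re := by
      rw [norm_mul, Real.log_mul (norm_ne_zero_iff.2 hu0) (norm_ne_zero_iff.2 (exp_ne_zero _)),
        norm_exp, Real.log_exp]
      simp only [sub_re, add_re, log_re]
      simp [mul_re]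
    rw [e1]
    rw [min_eq_right hu1.le] at g3
    have h3 := Real.log_le_log (by positivity) g3
    have h8 : Real.log (1 / 4 ^ (k + 1 + 1)) = -(((k : ℝ) + 2) * Real.log 4) := by
      rw [one_div, Real.log_inv, Real.log_pow]
      push_cast
      ring
    have h9 : Real.log 4 ≤ 3 := by
      have := Real.log_le_sub_one_of_pos (by norm_num : (0 : ℝ) < 4)
      linarith
    have h10 : ((k : ℝ) + 2) * Real.log 4 ≤ ((k : ℝ) + 2) * 3 :=
      mul_le_mul_of_nonneg_left h9 (by linarith)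
    have h11 := (h4 n (k + 1) L x D.tow).2.2.2.2.2.2
    rw [h8] at h3
    linarith
  · rw [him]
    have h3 : |u.arg| ≤ Real.pi := abs_arg_le_pi u
    have h8 := abs_add_le (u.arg + (GG n L (k + 1) u).im) (σ * (2 * ((k : ℝ) + 1) + 5))
    have h9 := abs_add_le u.arg (GG n L (k + 1) u).im
    rw [sg_abs D.sg, abs_of_nonneg (by linarith : (0 : ℝ) ≤ 2 * ((k : ℝ) + 1) + 5)] at h8
    linarith
  · rw [him]
    have h3 : σ * (u.arg + (GG n L (k + 1) u).im + σ * (2 * ((k : ℝ) + 1) + 5)) =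
        σ * u.arg + σ * (GG n L (k + 1) u).im + (σ * σ) * (2 * ((k : ℝ) + 1) + 5) := by ring
    rw [h3, sg_sq D.sg]
    rw [← sg_abs D.sg] at g1
    have h8 := (abs_le.1 g1).1
    linarith

include R h4 in
lemma Da.start : ∃ T : ℝ, 0 ≤ T ∧ ∀ t, T < t → UU n k Λ L x θ t ∈ QT x σ := by
  have h1 := (D.UU_re R).eventually (eventually_gt_atTop (-(‖x‖ / 80)))
  have h2 : ∀ᶠ t in atTop, |(UU n k Λ L x θ t).im| < ‖x‖ / 50 :=
    (UU_im R).abs.eventually (gt_mem_nhds (D.bb_hi h4))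
  have h3 : ∀ᶠ t in atTop, 1 < σ * (UU n k Λ L x θ t).im :=
    ((UU_im R).const_mul σ).eventually (lt_mem_nhds (D.bb_lo h4))
  obtain ⟨T, hT⟩ := eventually_atTop.1 ((h1.and h2).and h3)
  refine ⟨max T 0, le_max_right _ _, fun t ht => ?_⟩
  obtain ⟨⟨a1, a2⟩, a3⟩ := hT t ((le_max_left _ _).trans ht.le)
  exact ⟨⟨a1, a2⟩, a3⟩

include R h2 h4 h5 h6 h7 in
lemma Da.all : ∀ t, 0 < t → UU n k Λ L x θ t ∈ QT x σ := by
  obtain ⟨T, hT0, hT⟩ := D.start R h4
  have hp := D.pow_pos (k + 1 + 1)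
  have hN : (1 : ℝ) < (n : ℝ) ^ (k + 1 + 1) := by
    have : (1 : ℝ) < n := lt_of_lt_of_le (by norm_num) D.hn
    exact one_lt_pow₀ this (by omega)
  have key : ∀ m : ℕ, ∀ t, T / ((n : ℝ) ^ (k + 1 + 1)) ^ m < t → UU n k Λ L x θ t ∈ QT x σ := by
    intro m
    induction m with
    | zero =>
      intro t ht
      rw [pow_zero, div_one] at ht
      exact hT t ht
    | succ m ih =>
      intro t ht
      have h1 := D.rel4 R h2 h4 h5 h6 h7 (by positivity) ih (t * (n : ℝ) ^ (k + 1 + 1)) (by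
        rw [pow_succ, ← div_div, div_lt_iff₀ hp] at ht
        exact ht)
      rwa [mul_div_cancel_right₀ _ hp.ne'] at h1
  intro t ht
  have h1 : Tendsto (fun m : ℕ => T / ((n : ℝ) ^ (k + 1 + 1)) ^ m) atTop (𝓝 0) :=
    tendsto_const_nhds.div_atTop (tendsto_pow_atTop_atTop_of_one_lt hN)
  obtain ⟨m, hm⟩ := (h1.eventually (gt_mem_nhds ht)).exists
  exact key m t hm

end

end LOCI_

open LOCI_ in
/-- The ray stays in the trapping region. -/
theorem p_LOCI (h1 : T_RAY) (h2 : T_CHL) (h3 : T_TYPE) (h4 : T_WEST) (h5 : T_GTOP) (h6 : T_TOPST)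
    (h7 : T_INFT) : T_LOCI := by
  intro n j Λ L x s σ hΛ hT hL0 hL1 hc hσ hW
  have hn2 : 2 ≤ n := hT.toLow.two_le
  obtain ⟨k, rfl⟩ : ∃ k, j = k + 1 := ⟨j - 1, by have := hT.toLow.hj; omega⟩
  obtain ⟨t1, t2, t3⟩ := h3 n (k + 1) L x s hT hL0 hL1
  choose! sz hsz using t1
  obtain ⟨r1, r2, r3, r4, r5, r6⟩ := h1 n Λ L hn2 hΛ hc
  have R : RayF n Λ L := ⟨r1, r3, r4, r5⟩
  set a := th n (k + 1) L x s with ha
  have hn1 : (1 : ℝ) < n := by
    have : (2 : ℝ) ≤ n := by exact_mod_cast hn2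
    linarith
  have hend : n * ang n sz a (k + 1) = ang n sz a 0 + s := by
    rw [ang_formula]
    have e1 : ((n : ℝ) ^ (k + 1 + 1) - 1) * a =
        ∑ i ∈ Finset.range (k + 1), sI n (k + 1) L x i * (n : ℝ) ^ (k + 1 - i) + s := by
      have hne : (n : ℝ) ^ (k + 1 + 1) - 1 ≠ 0 := by
        have := one_lt_pow₀ hn1 (by omega : k + 1 + 1 ≠ 0)
        linarith
      rw [ha, th]
      field_simp
    have e2 : ∑ i ∈ Finset.range (k + 1), sI n (k + 1) L x i * (n : ℝ) ^ (k + 1 - i) =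
        ∑ i ∈ Finset.range (k + 1), (sz i : ℝ) * (n : ℝ) ^ (k + 1 - i) := by
      refine Finset.sum_congr rfl fun i hi => ?_
      rw [(hsz i (Finset.mem_range.1 hi)).1]
    rw [e2] at e1
    have e3 : ang n sz a 0 = a := rfl
    rw [e3]
    linarith
  have D : Da n k Λ L x s σ sz (ang n sz a) := by
    refine ⟨hΛ, hT, hc, hσ, ?_, fun i => rfl, ?_, ?_, hend, ?_⟩
    · rw [hW]
      push_cast
      ring
    · intro i hi
      have h := (hsz i (by omega)).2
      rwa [if_neg (by omega)] at h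
    · have h := (hsz k (by omega)).2
      rwa [if_pos (by omega)] at h
    · apply t3
      rw [hW]
      have h8 : |-σ * (2 * ((k + 1 : ℕ) : ℝ) + 5)| = |2 * ((k + 1 : ℕ) : ℝ) + 5| := by
        rw [neg_mul, abs_neg, sg_abs hσ]
      rw [h8, abs_of_nonneg (by positivity)]
  have hall := D.all R h2 h4 h5 h6 h7
  have f1 := (D.rel2 R h2 h4 h6 h7 (le_refl 0) hall).1
  have f2 := D.rel3 R h2 h4 h5 h6 h7 (le_refl 0) hall
  refine ⟨UU n k Λ L x (ang n sz a), fun t ht => ⟨(hall t ht).1, (hall t ht).2, f1 t ht, f2 t ht⟩⟩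

end Pool.Agent.Limb
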