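import Pool.Agent.Limb.Main

/-!
# LIMB: the lower bound with attracting cycles
-/

set_option autoImplicit false

open Complex Filter Topology Set
open Pool.Agent.Multibrot

namespace Pool.Agent.Limb

/-- An attracting cycle of period `m + 1`. -/
theorem exists_attracting {n j : ℕ} {L : ℂ} (hL : Low n j L) (hz : zz n L j ≠ -n)
    (hcon : ‖zz n L (j + 1) * DD n L j‖ < Real.exp (-10001 / 10000)) :
    ∃ z : ℂ, (F n (cc n L))^[j + 1] z = z ∧ ‖deriv ((F n (cc n L))^[j + 1]) z‖ < 1 := by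
  have h1 : T_GDISC := p_GDISC p_PSI (p_DISCST p_PSI p_PHI)
  have hn2 := hL.two_le
  have hn0 : (n : ℂ) ≠ 0 := natCast_ne hn2
  have hzz := TRAPM_.ne_neg hL hz
  have hDD : DD n L j ≠ 0 := TRAPM_.DD_ne hL hz
  have hone : 1 + zz n L j / n ≠ 0 := by
    intro h0
    apply hz
    have h4 : zz n L j = n * (1 + zz n L j / n) - n := by field_simp; ring
    rw [h4, h0]
    ring
  have hz1 : zz n L (j + 1) ≠ 0 := by
    rw [zz_succ, E]
    exact mul_ne_zero (exp_ne_zero _) (pow_ne_zero _ hone)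
  obtain ⟨u, hu1, hu0, hueq, hmul⟩ := p_ATTA (GG n L j)
    (fun u hu => (h1 n j L u hL.hn hzz hu).2.2.2.2.1)
    (fun u hu => (h1 n j L u hL.hn hzz hu).1) _ (mul_ne_zero hz1 hDD) hcon
  have hu3 : ‖u‖ < 3 := by linarith
  have hev : ∀ᶠ v in 𝓝 u, v * exp (GG n L j v) = DD n L j * W0 n L j v ∧
      (E n L)^[j] (W0 n L j v) = n * ((1 + zz n L j / n) * exp (v / n) - 1) := by
    have hopen : IsOpen {v : ℂ | ‖v‖ < 3} := isOpen_lt continuous_norm continuous_const
    filter_upwards [hopen.mem_nhds hu3] with v hv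
    exact ⟨(h1 n j L v hL.hn hzz hv).2.2.1, (h1 n j L v hL.hn hzz hv).2.2.2.1⟩
  obtain ⟨_, m2, m3⟩ := p_MU n j L u (GG n L j) hn2 hu0 hz1 hDD
    (h1 n j L u hL.hn hzz hu3).2.2.2.2.1 (h1 n j L u hL.hn hzz hu3).2.2.2.2.2.1 hev hueq
  refine ⟨_, m2, ?_⟩
  have h6 := congrArg norm m3
  rw [norm_mul, norm_one] at h6
  by_contra h7
  push Not at h7
  nlinarith

/-- The lower bound, with attracting cycles of period `m + 1`. -/
theorem lower_att (m n : ℕ) (hm : 1 ≤ m) (hn : Real.exp^[m] 4000 ≤ n) :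
    ∃ A : Set ℂ, A ⊆ MM n ∧ IsConnected A ∧ (∀ c ∈ A, NR n m c ∧
      ∃ z : ℂ, (F n c)^[m + 1] z = z ∧ ‖deriv ((F n c)^[m + 1]) z‖ < 1) ∧
      ∃ a ∈ A, ∃ b ∈ A, Real.log^[m] n / (8 * n) ≤ dist a b := by
  obtain ⟨γ, a, b, hab, hγ, hall, hre⟩ := p_PATH m n hm hn
  have h2 := p_TRAPM (p_GDISC p_PSI (p_DISCST p_PSI p_PHI))
  have hcc : Continuous (cc n) := by
    unfold cc ell
    fun_prop
  have haI : a ∈ Icc a b := ⟨le_refl _, hab⟩
  have hbI : b ∈ Icc a b := ⟨hab, le_refl _⟩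
  have hLa := (hall a haI).1
  have hn0 : (0 : ℝ) < n := lt_of_lt_of_le (by norm_num) hLa.hn
  have hn2 := hLa.two_le
  have hn2' : (2 : ℝ) ≤ n := by exact_mod_cast hn2
  refine ⟨cc n '' (γ '' Icc a b), ?_, ?_, ?_, cc n (γ a), ⟨γ a, ⟨a, haI, rfl⟩, rfl⟩,
    cc n (γ b), ⟨γ b, ⟨b, hbI, rfl⟩, rfl⟩, ?_⟩
  · rintro c ⟨L, ⟨t, ht, rfl⟩, rfl⟩
    obtain ⟨k1, k2, k3, k4⟩ := hall t ht
    obtain ⟨k5, k6⟩ := LOWER_.trap hm k1 k2 k3 k4
    exact h2 n m (γ t) k1 k5 k6
  · exact ((isConnected_Icc hab).image γ hγ).image _ hcc.continuousOn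
  · rintro c ⟨L, ⟨t, ht, rfl⟩, rfl⟩
    obtain ⟨k1, k2, k3, k4⟩ := hall t ht
    obtain ⟨k5, k6⟩ := LOWER_.trap hm k1 k2 k3 k4
    refine ⟨p_LOWNR n m (γ t) k1, exists_attracting k1 k5 (lt_of_le_of_lt k6 ?_)⟩
    have h3 : Real.exp (-2) ≤ Real.exp (-10001 / 10000) := Real.exp_le_exp.2 (by norm_num)
    refine lt_of_lt_of_le ?_ h3
    rw [Real.exp_neg, one_div]
    apply inv_strictAnti₀ (Real.exp_pos _)
    have h4 : Real.exp 2 = Real.exp 1 * Real.exp 1 := by rw [← Real.exp_add]; norm_num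
    rw [h4]
    have h5 := Real.exp_one_lt_d9
    have h6 := Real.exp_pos 1
    nlinarith
  · rcases le_total (Real.log^[m] (n : ℝ)) 0 with h0 | h0
    · exact le_trans (div_nonpos_of_nonpos_of_nonneg h0 (by positivity)) dist_nonneg
    · set La := γ a with hLadef
      set Lb := γ b with hLbdef
      have hra := hLa.re_L
      have hd : ‖cc n Lb‖ - ‖cc n La‖ ≤ dist (cc n La) (cc n Lb) := by
        rw [dist_comm, dist_eq_norm]
        exact norm_sub_norm_le _ _
      refine le_trans ?_ hd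
      rw [norm_cc hn2, norm_cc hn2]
      set p := (La.re - Real.log n) / (n - 1) with hp
      set q := (Lb.re - Real.log n) / (n - 1) with hq
      have hn1 : (0 : ℝ) < n - 1 := by linarith
      have hqp : Real.log^[m] (n : ℝ) / 2 / n ≤ q - p := by
        have h4 : q - p = (Lb.re - La.re) / (n - 1) := by
          rw [hq, hp]
          ring
        rw [h4]
        have h5 : Real.log^[m] (n : ℝ) / 2 ≤ Lb.re - La.re := by linarith
        exact div_le_div₀ (by linarith) h5 hn1 (by linarith)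
      have hp1 : -1 ≤ p := by
        rw [hp, le_div_iff₀ hn1]
        have := Real.log_le_sub_one_of_pos hn0
        linarith
      have hep : (1 / 4 : ℝ) ≤ Real.exp p := by
        have h4 : Real.exp (-1) ≤ Real.exp p := Real.exp_le_exp.2 hp1
        have h5 : (1 / 4 : ℝ) ≤ Real.exp (-1) := by
          rw [Real.exp_neg, one_div]
          apply inv_anti₀ (Real.exp_pos _)
          have := Real.exp_one_lt_d9
          linarith
        linarith
      have h6 : Real.exp p * (q - p) ≤ Real.exp q - Real.exp p := by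
        have h7 := Real.add_one_le_exp (q - p)
        have h8 : Real.exp q = Real.exp p * Real.exp (q - p) := by
          rw [← Real.exp_add]
          ring_nf
        rw [h8]
        nlinarith [Real.exp_pos p]
      have h9 : 0 ≤ Real.log^[m] (n : ℝ) / 2 / n := by positivity
      calc Real.log^[m] (n : ℝ) / (8 * n) = 1 / 4 * (Real.log^[m] (n : ℝ) / 2 / n) := by
            field_simp
            ring
        _ ≤ Real.exp p * (q - p) := mul_le_mul hep hqp h9 (Real.exp_pos _).le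
        _ ≤ _ := h6

end Pool.Agent.Limb
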