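import Pool.Agent.Limb.Targets2

/-!
# LIMB: the lower bound
-/

set_option autoImplicit false

open Complex Filter Topology Set
open Pool.Agent.Multibrot

namespace Pool.Agent.Limb

namespace LOWER_

lemma size {t : ℝ} (ht : 20 ≤ t) : t - Real.exp t + 3 / 2 * t * t + 1 ≤ -5 := by
  have h := Real.pow_div_factorial_le_exp t (by linarith) 4
  have h1 : (400 : ℝ) ≤ t ^ 2 := by nlinarith
  have h2 : t ^ 4 / (Nat.factorial 4 : ℕ) = t ^ 2 * t ^ 2 / 24 := by
    have : (Nat.factorial 4 : ℕ) = 24 := by decide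
    rw [this]
    push_cast
    ring
  rw [h2] at h
  nlinarith

lemma trap {n m : ℕ} {L : ℂ} (hm : 1 ≤ m) {t : ℝ} (hL : Low n m L)
    (hz : zz n L m = -(Real.exp t : ℝ)) (ht : 20 ≤ t) (ht2 : t ≤ Real.log n - 1) :
    zz n L m ≠ -n ∧ ‖zz n L (m + 1) * DD n L m‖ ≤ 1 / 100 := by
  have hn0 : (0 : ℝ) < n := lt_of_lt_of_le (by norm_num) hL.hn
  have hn2 := hL.two_le
  have het : Real.exp t ≤ n / 2 := by
    have h1 : Real.exp t ≤ Real.exp (Real.log n - 1) := Real.exp_le_exp.2 ht2
    rw [Real.exp_sub, Real.exp_log hn0] at h1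
    have h2 : (2 : ℝ) ≤ Real.exp 1 := by
      have := Real.add_one_le_exp (1 : ℝ)
      linarith
    exact h1.trans (div_le_div_of_nonneg_left hn0.le (by norm_num) h2)
  have hznorm : ‖zz n L m‖ = Real.exp t := by
    rw [hz, norm_neg, norm_real, Real.norm_eq_abs, abs_of_pos (Real.exp_pos t)]
  have h1z : 1 + zz n L m / n = ((1 - Real.exp t / n : ℝ) : ℂ) := by
    rw [hz]
    push_cast
    ring
  have hq : (1 / 2 : ℝ) ≤ 1 - Real.exp t / n := by
    have : Real.exp t / n ≤ 1 / 2 := by
      rw [div_le_iff₀ hn0]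
      linarith
    linarith
  have h1zn : ‖1 + zz n L m / n‖ = 1 - Real.exp t / n := by
    rw [h1z, norm_real, Real.norm_eq_abs, abs_of_pos (by linarith)]
  constructor
  · intro h0
    rw [h0, norm_neg, norm_natCast] at hznorm
    linarith
  · -- the size of `z_{m+1}`
    have hs1 : ‖zz n L (m + 1)‖ ≤ Real.exp (t - Real.exp t) := by
      rw [zz_succ, E, norm_mul, norm_exp, norm_pow, h1zn]
      have h2 : 1 - Real.exp t / n ≤ Real.exp (-(Real.exp t / n)) :=
        Real.one_sub_le_exp_neg _
      have h3 : (1 - Real.exp t / n) ^ n ≤ Real.exp (-Real.exp t) := by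
        calc (1 - Real.exp t / n) ^ n ≤ Real.exp (-(Real.exp t / n)) ^ n :=
              pow_le_pow_left₀ (by linarith) h2 n
          _ = Real.exp (n * (-(Real.exp t / n))) := by rw [Real.exp_nat_mul]
          _ = _ := by congr 1; field_simp
      have h4 : L.re ≤ t := by
        have h5 := hL.mono hm
        rw [hznorm, zz_one, norm_exp] at h5
        exact Real.exp_le_exp.1 h5
      calc Real.exp L.re * (1 - Real.exp t / n) ^ n ≤ Real.exp t * Real.exp (-Real.exp t) :=
            mul_le_mul (Real.exp_le_exp.2 h4) h3 (pow_nonneg (by linarith) n) (Real.exp_pos _).le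
        _ = _ := by rw [← Real.exp_add]; ring_nf
    have hs2 : ‖DD n L m‖ ≤ 2 * Real.exp t ^ m := by
      have key : ∀ k, k < m → ‖DD n L k‖ ≤ Real.exp t ^ k := by
        intro k
        induction k with
        | zero => intro _; simp [DD]
        | succ k ih =>
          intro hk
          rw [DD, Finset.prod_range_succ, norm_mul, pow_succ]
          apply mul_le_mul (ih (by omega)) _ (norm_nonneg _) (by positivity)
          rw [norm_div]
          have h2 := hL.hre (k + 1) (by omega) hk
          have h3 := one_le_norm (n := n) h2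
          have h4 : ‖zz n L (k + 1)‖ ≤ Real.exp t := by
            have := hL.mono hk.le
            rwa [hznorm] at this
          rw [div_le_iff₀ (by linarith)]
          nlinarith [Real.exp_pos t]
      obtain ⟨k, rfl⟩ : ∃ k, m = k + 1 := ⟨m - 1, by omega⟩
      rw [DD, Finset.prod_range_succ, norm_mul, pow_succ]
      have h2 := key k (by omega)
      have h3 : ‖zz n L (k + 1) / (1 + zz n L (k + 1) / n)‖ ≤ 2 * Real.exp t := by
        rw [norm_div, hznorm, h1zn, div_le_iff₀ (by linarith)]
        nlinarith [Real.exp_pos t]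
      calc ‖∏ i ∈ Finset.range k, zz n L (i + 1) / (1 + zz n L (i + 1) / n)‖ *
            ‖zz n L (k + 1) / (1 + zz n L (k + 1) / n)‖
          ≤ Real.exp t ^ k * (2 * Real.exp t) :=
            mul_le_mul h2 h3 (norm_nonneg _) (by positivity)
        _ = 2 * (Real.exp t ^ k * Real.exp t) := by ring
    -- `m ≤ 3 t / 2`
    have hm2 : (m : ℝ) ≤ 3 / 2 * t := by
      obtain ⟨k, hk⟩ : ∃ k, m = k + 1 := ⟨m - 1, by omega⟩
      have h2 := hL.big k (by omega)
      rw [← hk, hznorm] at h2
      have h3 : (2 : ℝ) ^ m ≤ Real.exp t := by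
        rw [hk, pow_succ]
        have : (0 : ℝ) < 2 ^ k := by positivity
        nlinarith
      have h4 : m * Real.log 2 ≤ t := by
        have h5 := Real.log_le_log (by positivity) h3
        rwa [Real.log_pow, Real.log_exp] at h5
      have h5 := Real.log_two_gt_d9
      have h6 : (0 : ℝ) ≤ m := Nat.cast_nonneg m
      nlinarith
    rw [norm_mul]
    calc ‖zz n L (m + 1)‖ * ‖DD n L m‖ ≤ Real.exp (t - Real.exp t) * (2 * Real.exp t ^ m) :=
          mul_le_mul hs1 hs2 (norm_nonneg _) (Real.exp_pos _).le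
      _ ≤ Real.exp (t - Real.exp t) * (Real.exp 1 * Real.exp (m * t)) := by
          apply mul_le_mul_of_nonneg_left _ (Real.exp_pos _).le
          rw [← Real.exp_nat_mul]
          apply mul_le_mul_of_nonneg_right _ (Real.exp_pos _).le
          have := Real.add_one_le_exp (1 : ℝ)
          linarith
      _ = Real.exp (t - Real.exp t + (1 + m * t)) := by rw [← Real.exp_add, ← Real.exp_add]
      _ ≤ Real.exp (-5) := by
          apply Real.exp_le_exp.2
          have h2 : (m : ℝ) * t ≤ 3 / 2 * t * t := mul_le_mul_of_nonneg_right hm2 (by linarith)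
          have h3 := size ht
          linarith
      _ ≤ 1 / 100 := by
          rw [Real.exp_neg, one_div]
          apply inv_anti₀ (by norm_num)
          have h2 : Real.exp 5 = Real.exp 1 ^ 5 := by rw [← Real.exp_nat_mul]; norm_num
          rw [h2]
          have h3 := Real.exp_one_gt_d9
          have h4 : (2.7182818283 : ℝ) ^ 5 ≤ Real.exp 1 ^ 5 :=
            pow_le_pow_left₀ (by norm_num) h3.le 5
          refine le_trans (by norm_num) h4

end LOWER_

open LOWER_ in
theorem p_LOWER (h1 : T_PATH) (h2 : T_TRAPM) (h3 : T_LOWNR) : T_LOWER := by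
  intro m n hm hn
  obtain ⟨γ, a, b, hab, hγ, hall, hre⟩ := h1 m n hm hn
  have hcc : Continuous (cc n) := by
    unfold cc ell
    fun_prop
  have haI : a ∈ Icc a b := ⟨le_refl _, hab⟩
  have hbI : b ∈ Icc a b := ⟨hab, le_refl _⟩
  have hLa := (hall a haI).1
  have hn0 : (0 : ℝ) < n := lt_of_lt_of_le (by norm_num) hLa.hn
  have hn2 := hLa.two_le
  have hn2' : (2 : ℝ) ≤ n := by exact_mod_cast hn2
  refine ⟨cc n '' (γ '' Icc a b), ?_, ?_, ?_, cc n (γ a), ⟨γ a, ⟨a, haI, rfl⟩, rfl⟩,
    cc n (γ b), ⟨γ b, ⟨b, hbI, rfl⟩, rfl⟩, ?_⟩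
  · rintro c ⟨L, ⟨t, ht, rfl⟩, rfl⟩
    obtain ⟨k1, k2, k3, k4⟩ := hall t ht
    obtain ⟨k5, k6⟩ := trap hm k1 k2 k3 k4
    exact h2 n m (γ t) k1 k5 k6
  · exact ((isConnected_Icc hab).image γ hγ).image _ hcc.continuousOn
  · rintro c ⟨L, ⟨t, ht, rfl⟩, rfl⟩
    exact h3 n m (γ t) (hall t ht).1
  · rcases le_total (Real.log^[m] (n : ℝ)) 0 with h0 | h0
    · exact le_trans (div_nonpos_of_nonpos_of_nonneg h0 (by positivity)) dist_nonneg
    · set La := γ a with hLadef
      set Lb := γ b with hLbdef
      have hra := hLa.re_L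
      have hd : ‖cc n Lb‖ - ‖cc n La‖ ≤ dist (cc n La) (cc n Lb) := by
        rw [dist_comm, dist_eq_norm]
        exact norm_sub_norm_le _ _
      refine le_trans ?_ hd
      rw [norm_cc hn2, norm_cc hn2]
      set p := (La.re - Real.log n) / (n - 1) with hp
      set q := (Lb.re - Real.log n) / (n - 1) with hq
      have hn1 : (0 : ℝ) < n - 1 := by linarith
      have hqp : Real.log^[m] (n : ℝ) / 2 / n ≤ q - p := by
        have h4 : q - p = (Lb.re - La.re) / (n - 1) := by
          rw [hq, hp]
          ring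
        rw [h4]
        have h5 : Real.log^[m] (n : ℝ) / 2 ≤ Lb.re - La.re := by linarith
        exact div_le_div₀ (by linarith) h5 hn1 (by linarith)
      have hp1 : -1 ≤ p := by
        rw [hp, le_div_iff₀ hn1]
        have := Real.log_le_sub_one_of_pos hn0
        linarith
      have hep : (1 / 4 : ℝ) ≤ Real.exp p := by
        have h4 : Real.exp (-1) ≤ Real.exp p := Real.exp_le_exp.2 hp1
        have h5 : (1 / 4 : ℝ) ≤ Real.exp (-1) := by
          rw [Real.exp_neg, one_div]
          apply inv_anti₀ (Real.exp_pos _)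
          have := Real.exp_one_lt_d9
          linarith
        linarith
      have h6 : Real.exp p * (q - p) ≤ Real.exp q - Real.exp p := by
        have h7 := Real.add_one_le_exp (q - p)
        have h8 : Real.exp q = Real.exp p * Real.exp (q - p) := by
          rw [← Real.exp_add]
          ring_nf
        rw [h8]
        nlinarith [Real.exp_pos p]
      have h9 : 0 ≤ Real.log^[m] (n : ℝ) / 2 / n := by positivity
      calc Real.log^[m] (n : ℝ) / (8 * n) = 1 / 4 * (Real.log^[m] (n : ℝ) / 2 / n) := by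
            field_simp
            ring
        _ ≤ Real.exp p * (q - p) := mul_le_mul hep hqp h9 (Real.exp_pos _).le
        _ ≤ _ := h6

end Pool.Agent.Limb
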