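import Pool.Agent.Limb.Targets

/-!
# LIMB: targets for the lower bound (see Blueprint2.lean.txt)
-/

set_option autoImplicit false

open Complex Filter Topology Set
open Pool.Agent.Multibrot

namespace Pool.Agent.Limb

/-- LOWNR: if `z_1, ..., z_{j-1}` are in the right half plane then all cycles of period `≤ j` are
repelling. -/
def T_LOWNR : Prop := ∀ (n j : ℕ) (L : ℂ), Low n j L → NR n j (cc n L)

/-- TRAPM: an attracting cycle of period `m + 1` which traps the critical orbit. -/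
def T_TRAPM : Prop := ∀ (n m : ℕ) (L : ℂ), Low n m L → zz n L m ≠ -n →
  ‖zz n L (m + 1) * DD n L m‖ ≤ 1 / 100 → cc n L ∈ MM n

/-- PATH: the spine of the finger of period `m + 1`. -/
def T_PATH : Prop := ∀ (m n : ℕ), 1 ≤ m → Real.exp^[m] 4000 ≤ n →
  ∃ (γ : ℝ → ℂ) (a b : ℝ), a ≤ b ∧ ContinuousOn γ (Icc a b) ∧
    (∀ t ∈ Icc a b, Low n m (γ t) ∧ zz n (γ t) m = -(Real.exp t : ℝ) ∧ 20 ≤ t ∧
      t ≤ Real.log n - 1) ∧
    (γ a).re + Real.log^[m] n / 2 ≤ (γ b).re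

/-- LOWER: the lower bound. -/
def T_LOWER : Prop := ∀ (m n : ℕ), 1 ≤ m → Real.exp^[m] 4000 ≤ n →
  ∃ A : Set ℂ, A ⊆ MM n ∧ IsConnected A ∧ (∀ c ∈ A, NR n m c) ∧
    ∃ a ∈ A, ∃ b ∈ A, Real.log^[m] n / (8 * n) ≤ dist a b

end Pool.Agent.Limb
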