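import Mathlib
import Pool.Agent.Limb.Targets2
import Pool.Agent.Limb.Basics

/-!
# LIMB: in the low region all cycles of period at most `j` are repelling
-/

set_option autoImplicit false

open Complex Filter Topology Set
open Pool.Agent.Multibrot

namespace Pool.Agent.Limb

namespace LOWNR_

/-- The factor of the multiplier. -/
noncomputable def rho (n : ℕ) (w : ℂ) : ℝ := ‖w‖ / ‖1 + w / n‖

lemma log_one_add_le {y : ℂ} (hy : ‖y‖ ≤ 1 / 4) : ‖log (1 + y)‖ ≤ ‖y‖ * (1 + ‖y‖) := by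
  have h := norm_log_one_add_le (lt_of_le_of_lt hy (by norm_num))
  have h0 := norm_nonneg y
  have h1 : (1 - ‖y‖)⁻¹ ≤ 2 := by
    rw [inv_le_comm₀ (by linarith) (by norm_num)]
    linarith
  have h2 : ‖y‖ ^ 2 * (1 - ‖y‖)⁻¹ / 2 ≤ ‖y‖ ^ 2 := by
    have : ‖y‖ ^ 2 * (1 - ‖y‖)⁻¹ ≤ ‖y‖ ^ 2 * 2 := mul_le_mul_of_nonneg_left h1 (sq_nonneg _)
    linarith
  calc ‖log (1 + y)‖ ≤ ‖y‖ ^ 2 + ‖y‖ := by linarith
    _ = _ := by ring

lemma exp_sub_one_le {u : ℂ} (hu : ‖u‖ ≤ 1) : ‖exp u - 1‖ ≤ ‖u‖ * (1 + ‖u‖) := by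
  have h := norm_exp_sub_one_sub_id_le hu
  have h1 : ‖exp u - 1‖ ≤ ‖exp u - 1 - u‖ + ‖u‖ := by
    have := norm_add_le (exp u - 1 - u) u
    rwa [sub_add_cancel] at this
  nlinarith [norm_nonneg u]

lemma rho_ge {n : ℕ} (hn : (0 : ℝ) < n) {w : ℂ} (h0 : 1 + w / n ≠ 0) {x : ℝ} (hx : 0 ≤ x)
    (hxw : x ≤ ‖w‖) : x / (1 + x / n) ≤ rho n w := by
  have h1 : 0 < ‖1 + w / n‖ := norm_pos_iff.2 h0
  have h2 : ‖1 + w / n‖ ≤ 1 + ‖w‖ / n := by
    refine (norm_add_le _ _).trans ?_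
    rw [norm_one, norm_div, norm_natCast]
  unfold rho
  rw [div_le_div_iff₀ (by positivity) h1]
  calc x * ‖1 + w / n‖ ≤ x * (1 + ‖w‖ / n) := mul_le_mul_of_nonneg_left h2 hx
    _ = x + x * ‖w‖ / n := by ring
    _ ≤ ‖w‖ + x * ‖w‖ / n := by linarith
    _ = ‖w‖ * (1 + x / n) := by ring

/-- The first step. -/
lemma step0 {n : ℕ} (hn : (10 : ℝ) ^ 20 ≤ n) {v : ℂ} (hv : ‖v‖ ≤ 2) (h0 : 1 + v / n ≠ 0) :
    ‖(n : ℂ) * log (1 + v / n)‖ ≤ 101 / 100 * rho n v := by
  have hn0 : (0 : ℝ) < n := lt_of_lt_of_le (by norm_num) hn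
  have h1 : ‖v / n‖ = ‖v‖ / n := by rw [norm_div, norm_natCast]
  have h2 : ‖v‖ / n ≤ 1 / 1000 := by
    rw [div_le_iff₀ hn0]
    linarith
  have h3 := log_one_add_le (y := v / n) (by rw [h1]; linarith)
  rw [h1] at h3
  rw [norm_mul, norm_natCast]
  have h4 : (n : ℝ) * ‖log (1 + v / n)‖ ≤ ‖v‖ * (1 + 1 / 1000) := by
    calc (n : ℝ) * ‖log (1 + v / n)‖ ≤ n * (‖v‖ / n * (1 + ‖v‖ / n)) :=
          mul_le_mul_of_nonneg_left h3 hn0.le
      _ = ‖v‖ * (1 + ‖v‖ / n) := by field_simp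
      _ ≤ _ := by
          apply mul_le_mul_of_nonneg_left _ (norm_nonneg _)
          linarith
  have h5 := rho_ge hn0 h0 (norm_nonneg v) le_rfl
  have h6 : ‖v‖ / (1 + 1 / 1000) ≤ ‖v‖ / (1 + ‖v‖ / n) := by
    apply div_le_div_of_nonneg_left (norm_nonneg _) (by positivity)
    linarith
  have h7 : ‖v‖ = ‖v‖ / (1 + 1 / 1000) * (1 + 1 / 1000) := by
    field_simp
  have h8 : ‖v‖ ≤ rho n v * (1 + 1 / 1000) := by
    rw [h7]
    apply mul_le_mul_of_nonneg_right (h6.trans h5) (by norm_num)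
  have h9 : 0 ≤ rho n v := by
    unfold rho
    positivity
  linarith

/-- One more step. -/
lemma step {n : ℕ} (hn : (0 : ℝ) < n) {z v u : ℂ} (hz : 0 ≤ z.re) (hv : v = z * exp u)
    (hu : ‖u‖ ≤ 1 / 1000) (hv0 : 1 + v / n ≠ 0) :
    ‖ui n z v‖ ≤ ‖u‖ * rho n v * (1 + 10 * ‖u‖) := by
  have hnC : (n : ℂ) ≠ 0 := by
    have : (n : ℝ) ≠ 0 := hn.ne'
    exact_mod_cast this
  have hz1 : 1 + z / n ≠ 0 := one_add_ne hz
  have hnz : (n : ℂ) + z ≠ 0 := by
    intro h
    apply hz1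
    field_simp
    rw [h, mul_zero]
  have hnv : (n : ℂ) + v ≠ 0 := by
    intro h
    apply hv0
    field_simp
    rw [h, mul_zero]
  have hu0 := norm_nonneg u
  set D : ℂ := z / (1 + z / n) with hD
  set y : ℂ := D / n * (exp u - 1) with hy
  have e1 : (1 + v / n) / (1 + z / n) = 1 + y := by
    have e2 : D / n * (1 + z / n) = z / n := by
      rw [hD]
      field_simp
    rw [div_eq_iff hz1, add_mul, hy, mul_right_comm, e2, hv]
    ring
  have hDn : ‖D / n‖ ≤ 1 := by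
    have e2 : D / n = z / n / (1 + z / n) := by
      rw [hD]
      field_simp
    rw [e2, norm_div]
    have h1 : 0 < ‖1 + z / n‖ := norm_pos_iff.2 hz1
    rw [div_le_one h1]
    have h2 : 0 ≤ (z / n).re := by
      rw [← ofReal_natCast, div_ofReal_re]
      exact div_nonneg hz (Nat.cast_nonneg _)
    rw [Complex.norm_def, Complex.norm_def]
    apply Real.sqrt_le_sqrt
    rw [normSq_apply, normSq_apply, add_re, add_im, one_re, one_im, zero_add]
    nlinarith
  have he := exp_sub_one_le (u := u) (by linarith)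
  have hy1 : ‖y‖ ≤ ‖u‖ * (1 + ‖u‖) := by
    rw [hy, norm_mul]
    calc ‖D / n‖ * ‖exp u - 1‖ ≤ 1 * (‖u‖ * (1 + ‖u‖)) :=
          mul_le_mul hDn he (norm_nonneg _) (by norm_num)
      _ = _ := one_mul _
  have hy2 : ‖y‖ ≤ 2 * ‖u‖ := by nlinarith
  have hlog := log_one_add_le (y := y) (by linarith)
  have hny : (n : ℝ) * ‖y‖ ≤ ‖D‖ * (‖u‖ * (1 + ‖u‖)) := by
    have : (n : ℝ) * ‖y‖ = ‖D‖ * ‖exp u - 1‖ := by
      rw [hy, norm_mul, norm_div, Complex.norm_natCast]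
      field_simp
    rw [this]
    exact mul_le_mul_of_nonneg_left he (norm_nonneg _)
  have h1 : ‖ui n z v‖ ≤ ‖D‖ * (‖u‖ * (1 + ‖u‖)) * (1 + 2 * ‖u‖) := by
    unfold ui
    rw [e1, norm_mul, Complex.norm_natCast]
    calc (n : ℝ) * ‖log (1 + y)‖ ≤ n * (‖y‖ * (1 + ‖y‖)) :=
          mul_le_mul_of_nonneg_left hlog hn.le
      _ = (n * ‖y‖) * (1 + ‖y‖) := by ring
      _ ≤ (‖D‖ * (‖u‖ * (1 + ‖u‖))) * (1 + 2 * ‖u‖) := by
          apply mul_le_mul hny (by linarith) (by positivity) (by positivity)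
  have h2 : ‖D‖ ≤ rho n v * ((1 + 2 * ‖u‖) * (1 + 2 * ‖u‖)) := by
    have e3 : v / (1 + v / n) * ((1 + y) / exp u) = D := by
      have h : exp u ≠ 0 := exp_ne_zero u
      have e5 : v / (1 + v / n) * ((1 + v / n) / (1 + z / n) / exp u) =
          v / exp u / (1 + z / n) := by
        field_simp
      rw [← e1, e5, hD, hv]
      field_simp
    have e4 : ‖D‖ = rho n v * (‖1 + y‖ / ‖exp u‖) := by
      rw [← e3, norm_mul, norm_div, norm_div]
      rfl
    have h3 : ‖1 + y‖ ≤ 1 + 2 * ‖u‖ := by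
      refine (norm_add_le _ _).trans ?_
      rw [norm_one]
      linarith
    have h4 : 1 / ‖exp u‖ ≤ 1 + 2 * ‖u‖ := by
      rw [norm_exp, one_div, ← Real.exp_neg]
      have h5 : -u.re ≤ ‖u‖ := (neg_le_abs _).trans (abs_re_le_norm u)
      have h6 : Real.exp (-u.re) ≤ Real.exp ‖u‖ := Real.exp_le_exp.2 h5
      have h7 := Real.one_sub_le_exp_neg ‖u‖
      rw [Real.exp_neg] at h7
      have h8 : 0 < Real.exp ‖u‖ := Real.exp_pos _
      have h9 : Real.exp ‖u‖ * (1 - ‖u‖) ≤ 1 := by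
        calc Real.exp ‖u‖ * (1 - ‖u‖) ≤ Real.exp ‖u‖ * (Real.exp ‖u‖)⁻¹ :=
              mul_le_mul_of_nonneg_left h7 h8.le
          _ = 1 := mul_inv_cancel₀ h8.ne'
      refine h6.trans ?_
      have h10 : 1 ≤ (1 - ‖u‖) * (1 + 2 * ‖u‖) := by nlinarith
      have h11 : 0 < 1 - ‖u‖ := by linarith
      calc Real.exp ‖u‖ = Real.exp ‖u‖ * 1 := (mul_one _).symm
        _ ≤ Real.exp ‖u‖ * ((1 - ‖u‖) * (1 + 2 * ‖u‖)) :=
            mul_le_mul_of_nonneg_left h10 h8.le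
        _ = (Real.exp ‖u‖ * (1 - ‖u‖)) * (1 + 2 * ‖u‖) := by ring
        _ ≤ 1 * (1 + 2 * ‖u‖) := mul_le_mul_of_nonneg_right h9 (by linarith)
        _ = _ := one_mul _
    have h5 : 0 ≤ rho n v := by
      unfold rho
      positivity
    rw [e4]
    apply mul_le_mul_of_nonneg_left _ h5
    rw [div_eq_mul_one_div]
    apply mul_le_mul h3 h4 (by positivity) (by positivity)
  have h5 : 0 ≤ rho n v := by
    unfold rho
    positivity
  have h6 : (1 + 2 * ‖u‖) * (1 + 2 * ‖u‖) * (1 + ‖u‖) * (1 + 2 * ‖u‖) ≤ 1 + 10 * ‖u‖ := by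
    have hu2 : ‖u‖ ^ 2 ≤ ‖u‖ / 1000 := by nlinarith
    have hu3 : ‖u‖ ^ 3 ≤ ‖u‖ / 1000 := by
      calc ‖u‖ ^ 3 = ‖u‖ ^ 2 * ‖u‖ := by ring
        _ ≤ ‖u‖ ^ 2 * 1 := mul_le_mul_of_nonneg_left (by linarith) (sq_nonneg _)
        _ ≤ _ := by linarith
    have hu4 : ‖u‖ ^ 4 ≤ ‖u‖ / 1000 := by
      calc ‖u‖ ^ 4 = ‖u‖ ^ 3 * ‖u‖ := by ring
        _ ≤ ‖u‖ ^ 3 * 1 := mul_le_mul_of_nonneg_left (by linarith) (by positivity)
        _ ≤ _ := by linarith
    have e5 : (1 + 2 * ‖u‖) * (1 + 2 * ‖u‖) * (1 + ‖u‖) * (1 + 2 * ‖u‖) =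
        1 + 7 * ‖u‖ + 18 * ‖u‖ ^ 2 + 20 * ‖u‖ ^ 3 + 8 * ‖u‖ ^ 4 := by ring
    rw [e5]
    linarith
  calc ‖ui n z v‖ ≤ ‖D‖ * (‖u‖ * (1 + ‖u‖)) * (1 + 2 * ‖u‖) := h1
    _ ≤ (rho n v * ((1 + 2 * ‖u‖) * (1 + 2 * ‖u‖))) * (‖u‖ * (1 + ‖u‖)) * (1 + 2 * ‖u‖) := by
        gcongr
    _ = ‖u‖ * rho n v * ((1 + 2 * ‖u‖) * (1 + 2 * ‖u‖) * (1 + ‖u‖) * (1 + 2 * ‖u‖)) := by ring
    _ ≤ _ := mul_le_mul_of_nonneg_left h6 (by positivity)

/-- `E v = E z * exp (ui z v)`. -/
lemma E_ui {n : ℕ} (L : ℂ) {z v : ℂ} (hz : 1 + z / n ≠ 0) (hv : 1 + v / n ≠ 0) :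
    E n L v = E n L z * exp (ui n z v) := by
  unfold E ui
  rw [exp_nat_mul, exp_log (div_ne_zero hv hz), div_pow]
  have := pow_ne_zero n hz
  field_simp

/-- A block between two small indices has a product larger than 1. -/
lemma block {n j : ℕ} {L : ℂ} (hL : Low n j L) (v : ℕ → ℂ) (hvs : ∀ l, v (l + 1) = E n L (v l))
    (hv1 : ∀ l, 1 + v l / n ≠ 0) (h0 : ‖v 0‖ ≤ 2) (q : ℕ) (hq : 1 ≤ q) (hqj : q ≤ j)
    (hbig : ∀ l, 1 ≤ l → l < q → 2 < ‖v l‖)
    (hprod : ∏ i ∈ Finset.range q, rho n (v i) ≤ 1) : 2 < ‖v q‖ := by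
  have hn0 : (0 : ℝ) < n := lt_of_lt_of_le (by norm_num) hL.hn
  have hn20 := hL.hn
  set R : ℕ → ℝ := fun l => ∏ i ∈ Finset.range l, rho n (v i) with hR
  have hrho0 : ∀ i, 0 ≤ rho n (v i) := fun i => by
    unfold rho
    positivity
  have hR0 : ∀ l, 0 ≤ R l := fun l => Finset.prod_nonneg fun i _ => hrho0 i
  have hRs : ∀ l, R (l + 1) = R l * rho n (v l) := fun l => Finset.prod_range_succ _ _
  have hrho32 : ∀ l, 1 ≤ l → l < q → 3 / 2 ≤ rho n (v l) := by
    intro l h1 h2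
    have h3 := rho_ge hn0 (hv1 l) (by norm_num : (0 : ℝ) ≤ 2) (hbig l h1 h2).le
    refine le_trans ?_ h3
    rw [le_div_iff₀ (by positivity)]
    have : (2 : ℝ) / n ≤ 1 / 3 := by
      rw [div_le_iff₀ hn0]
      linarith
    linarith
  have hback : ∀ d l, l + d + 1 = q → R (l + 1) ≤ (2 / 3 : ℝ) ^ d := by
    intro d
    induction d with
    | zero =>
      intro l hl
      have e : l + 1 = q := by omega
      rw [e, pow_zero]
      exact hprod
    | succ d ih =>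
      intro l hl
      have h1 := ih (l + 1) (by omega)
      rw [hRs (l + 1)] at h1
      have h2 := hrho32 (l + 1) (by omega) (by omega)
      have h3 : R (l + 1) * (3 / 2) ≤ R (l + 1) * rho n (v (l + 1)) :=
        mul_le_mul_of_nonneg_left h2 (hR0 _)
      rw [pow_succ]
      linarith
  set uu : ℕ → ℂ := fun l => ui n (zz n L l) (v l) with huu
  have hz1 : ∀ l, l < j → 1 + zz n L l / n ≠ 0 := by
    intro l hl
    rcases Nat.eq_zero_or_pos l with h | h
    · rw [h, zz_zero]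
      simp
    · exact one_add_ne (hL.hre l h hl)
  have hvz : ∀ l, l < j → v (l + 1) = zz n L (l + 1) * exp (uu l) := by
    intro l hl
    rw [hvs, zz_succ]
    exact E_ui L (hz1 l hl) (hv1 l)
  have hmain : ∀ l d, l + d + 1 = q →
      ‖uu l‖ ≤ (101 / 100 + 1 / 10 ^ 5 * (2 / 3 : ℝ) ^ d) * R (l + 1) := by
    intro l
    induction l with
    | zero =>
      intro d _
      have e : uu 0 = (n : ℂ) * log (1 + v 0 / n) := by
        rw [huu]
        simp only [ui, zz_zero, zero_div, add_zero, div_one]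
      have e2 : R (0 + 1) = rho n (v 0) := by
        rw [hRs, hR]
        simp
      rw [e, e2]
      refine (step0 hn20 h0 (hv1 0)).trans ?_
      apply mul_le_mul_of_nonneg_right _ (hrho0 0)
      have : (0 : ℝ) ≤ 1 / 10 ^ 5 * (2 / 3 : ℝ) ^ d := by positivity
      linarith
    | succ l ih =>
      intro d hd
      have h1 := ih (d + 1) (by omega)
      have hs0 : (0 : ℝ) < (2 / 3 : ℝ) ^ d := by positivity
      have hs1 : (2 / 3 : ℝ) ^ d ≤ 1 := pow_le_one₀ (by norm_num) (by norm_num)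
      have hsd : (2 / 3 : ℝ) ^ (d + 1) = 2 / 3 * (2 / 3 : ℝ) ^ d := by rw [pow_succ]; ring
      have hRl := hback (d + 1) l (by omega)
      have hRl2 := hback d (l + 1) hd
      rw [hsd] at h1 hRl
      set s : ℝ := (2 / 3 : ℝ) ^ d with hs
      have hR1 := hR0 (l + 1)
      have hu1 : ‖uu l‖ ≤ 7 / 10 := by
        calc ‖uu l‖ ≤ (101 / 100 + 1 / 10 ^ 5 * (2 / 3 * s)) * R (l + 1) := h1
          _ ≤ (101 / 100 + 1 / 10 ^ 5 * (2 / 3 * 1)) * (2 / 3 * 1) := by
              apply mul_le_mul _ _ hR1 (by norm_num)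
              · gcongr
              · linarith
          _ ≤ 7 / 10 := by norm_num
      have hvl : (3 : ℝ) * 10 ^ 7 ≤ ‖v (l + 1)‖ := by
        rw [hvz l (by omega), norm_mul, norm_exp]
        have h2 := hL.ge8 (i := l + 1) (by omega) (by omega)
        have h3 : (3 / 10 : ℝ) ≤ Real.exp (uu l).re := by
          have h4 := Real.add_one_le_exp (uu l).re
          have h5 : -(7 / 10 : ℝ) ≤ (uu l).re := by
            have := abs_le.1 ((abs_re_le_norm (uu l)).trans hu1)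
            exact this.1
          linarith
        calc (3 : ℝ) * 10 ^ 7 = 10 ^ 8 * (3 / 10) := by norm_num
          _ ≤ _ := mul_le_mul h2 h3 (by norm_num) (norm_nonneg _)
      have hrl : (2 : ℝ) * 10 ^ 7 ≤ rho n (v (l + 1)) := by
        have h3 := rho_ge hn0 (hv1 (l + 1)) (by norm_num : (0 : ℝ) ≤ 3 * 10 ^ 7) hvl
        refine le_trans ?_ h3
        rw [le_div_iff₀ (by positivity)]
        have : (3 * 10 ^ 7 : ℝ) / n ≤ 1 / 3 := by
          rw [div_le_iff₀ hn0]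
          linarith
        linarith
      have hRR : R (l + 1) * (2 * 10 ^ 7) ≤ s := by
        calc R (l + 1) * (2 * 10 ^ 7) ≤ R (l + 1) * rho n (v (l + 1)) :=
              mul_le_mul_of_nonneg_left hrl hR1
          _ = R (l + 1 + 1) := (hRs _).symm
          _ ≤ s := hRl2
      have hu2 : ‖uu l‖ ≤ 6 / 10 ^ 8 * s := by
        calc ‖uu l‖ ≤ (101 / 100 + 1 / 10 ^ 5 * (2 / 3 * s)) * R (l + 1) := h1
          _ ≤ (101 / 100 + 1 / 10 ^ 5 * (2 / 3 * 1)) * (s / (2 * 10 ^ 7)) := by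
              apply mul_le_mul _ _ hR1 (by norm_num)
              · gcongr
              · rw [le_div_iff₀ (by norm_num)]
                exact hRR
          _ ≤ _ := by linarith
      have hstep := step hn0 (z := zz n L (l + 1)) (v := v (l + 1)) (u := uu l)
        (hL.hre (l + 1) (by omega) (by omega)) (hvz l (by omega)) (by linarith) (hv1 _)
      have hr0 := hrho0 (l + 1)
      calc ‖uu (l + 1)‖ ≤ ‖uu l‖ * rho n (v (l + 1)) * (1 + 10 * ‖uu l‖) := hstep
        _ ≤ ((101 / 100 + 1 / 10 ^ 5 * (2 / 3 * s)) * R (l + 1)) * rho n (v (l + 1)) *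
            (1 + 10 * (6 / 10 ^ 8 * s)) := by gcongr
        _ = ((101 / 100 + 1 / 10 ^ 5 * (2 / 3 * s)) * (1 + 10 * (6 / 10 ^ 8 * s))) *
            R (l + 1 + 1) := by rw [hRs (l + 1)]; ring
        _ ≤ (101 / 100 + 1 / 10 ^ 5 * s) * R (l + 1 + 1) := by
            apply mul_le_mul_of_nonneg_right _ (hR0 _)
            nlinarith
  have hfin := hmain (q - 1) 0 (by omega)
  have e1 : q - 1 + 1 = q := by omega
  rw [e1, pow_zero, mul_one] at hfin
  have hu : ‖uu (q - 1)‖ ≤ 11 / 10 := by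
    calc ‖uu (q - 1)‖ ≤ (101 / 100 + 1 / 10 ^ 5) * R q := hfin
      _ ≤ (101 / 100 + 1 / 10 ^ 5) * 1 := by gcongr
      _ ≤ _ := by norm_num
  have h2 := hvz (q - 1) (by omega)
  rw [e1] at h2
  rw [h2, norm_mul, norm_exp]
  have h3 := hL.ge8 hq hqj
  have h4 : (1 / 5 : ℝ) ≤ Real.exp (uu (q - 1)).re := by
    have h5 : -(11 / 10 : ℝ) ≤ (uu (q - 1)).re :=
      (abs_le.1 ((abs_re_le_norm (uu (q - 1))).trans hu)).1
    have h6 : Real.exp (-(11 / 10)) ≤ Real.exp (uu (q - 1)).re := Real.exp_le_exp.2 h5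
    have h7 := Real.one_sub_le_exp_neg (11 / 20)
    have h8 : Real.exp (-(11 / 10)) = Real.exp (-(11 / 20)) * Real.exp (-(11 / 20)) := by
      rw [← Real.exp_add]
      norm_num
    rw [h8] at h6
    nlinarith
  have h5 : (10 : ℝ) ^ 8 * (1 / 5) ≤ ‖zz n L q‖ * Real.exp (uu (q - 1)).re :=
    mul_le_mul h3 h4 (by norm_num) (norm_nonneg _)
  linarith

lemma prod_shift {p : ℕ} (f : ℕ → ℝ) (hf : ∀ i, f (i + p) = f i) (hf0 : ∀ i, f i ≠ 0) (a : ℕ) :
    ∏ i ∈ Finset.range p, f (a + i) = ∏ i ∈ Finset.range p, f i := by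
  induction a with
  | zero => simp
  | succ a ih =>
    rw [← ih]
    have h1 := Finset.prod_range_succ (fun i => f (a + i)) p
    have h2 := Finset.prod_range_succ' (fun i => f (a + i)) p
    rw [h1] at h2
    simp only [add_zero] at h2
    rw [hf a] at h2
    have h3 := mul_right_cancel₀ (hf0 a) h2
    rw [h3]
    refine Finset.prod_congr rfl fun i _ => ?_
    congr 1
    ring

end LOWNR_

open LOWNR_

theorem p_LOWNR : T_LOWNR := by
  intro n j L hL p hp hpj Z hZ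
  by_contra hcon
  push Not at hcon
  have h2n := hL.two_le
  have hn0 : (0 : ℝ) < n := lt_of_lt_of_le (by norm_num) hL.hn
  have hnC := natCast_ne h2n
  have hc := cc_ne n L
  obtain ⟨w0, rfl⟩ : ∃ w : ℂ, Z = cc n L * (1 + w / n) :=
    ⟨n * (Z / cc n L - 1), by field_simp; ring⟩
  have hper : (E n L)^[p] w0 = w0 := by
    rw [F_iter_conj h2n] at hZ
    have h1 := mul_left_cancel₀ hc hZ
    have h2 := add_left_cancel h1
    field_simp at h2
    exact h2
  rw [deriv_F_iter h2n, (deriv_E_iter (by omega) L w0 p).deriv, norm_prod] at hcon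
  set w : ℕ → ℂ := fun i => (E n L)^[i] w0 with hw
  have hws : ∀ i, w (i + 1) = E n L (w i) := fun i => Function.iterate_succ_apply' _ _ _
  have hwp : ∀ i, w (i + p) = w i := by
    intro i
    rw [hw]
    simp only
    rw [Function.iterate_add_apply, hper]
  -- no critical point
  have hwz : ∀ i l, w i = 0 → w (i + l) = zz n L l := by
    intro i l h
    induction l with
    | zero => rw [add_zero, h, zz_zero]
    | succ l ih => rw [← add_assoc, hws, ih, zz_succ]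
  have hw0 : ∀ i, w i ≠ 0 := by
    intro i h
    have h1 := hwz i p h
    rw [hwp, h] at h1
    exact ne_zero_of_big (hL.ge8 hp hpj) h1.symm
  have hw1 : ∀ i, 1 + w i / n ≠ 0 := by
    intro i h
    apply hw0 (i + 1)
    rw [hws, E, h, zero_pow (by omega), mul_zero]
  have hf0 : ∀ i, ‖w i‖ ≠ 0 := fun i => norm_ne_zero_iff.2 (hw0 i)
  have hrho : ∀ i, ‖exp L * (1 + w i / n) ^ (n - 1)‖ = ‖w (i + 1)‖ / ‖1 + w i / n‖ := by
    intro i
    have h1 : w (i + 1) = exp L * (1 + w i / n) ^ (n - 1) * (1 + w i / n) := by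
      rw [hws, E, mul_assoc, ← pow_succ]
      congr 2
      omega
    rw [h1, norm_mul _ (1 + w i / n), mul_div_assoc, div_self (norm_ne_zero_iff.2 (hw1 i)),
      mul_one]
  have hprod : ∏ i ∈ Finset.range p, rho n (w i) ≤ 1 := by
    have h1 : ∏ i ∈ Finset.range p, ‖exp L * (1 + w i / n) ^ (n - 1)‖ =
        ∏ i ∈ Finset.range p, rho n (w i) := by
      have h2 : ∏ i ∈ Finset.range p, ‖w (1 + i)‖ = ∏ i ∈ Finset.range p, ‖w i‖ :=
        prod_shift (fun i => ‖w i‖) (fun i => by simp only [hwp]) hf0 1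
      simp only [hrho, rho]
      rw [Finset.prod_div_distrib, Finset.prod_div_distrib, ← h2]
      congr 1
      refine Finset.prod_congr rfl fun i _ => ?_
      rw [add_comm]
    rw [← h1]
    exact hcon
  have hr0 : ∀ i, rho n (w i) ≠ 0 := fun i => by
    unfold rho
    exact div_ne_zero (hf0 i) (norm_ne_zero_iff.2 (hw1 i))
  -- the segments between small indices
  have hseg : ∀ m, ∀ a, 1 ≤ m → m ≤ p → ‖w a‖ ≤ 2 → ‖w (a + m)‖ ≤ 2 →
      1 < ∏ i ∈ Finset.range m, rho n (w (a + i)) := by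
    intro m
    induction m using Nat.strong_induction_on with
    | _ m ih =>
      intro a hm hmp ha ham
      have hex : ∃ q, 1 ≤ q ∧ ‖w (a + q)‖ ≤ 2 := ⟨m, hm, ham⟩
      classical
      set q := Nat.find hex with hq
      obtain ⟨hq1, hq2⟩ := Nat.find_spec hex
      rw [← hq] at hq1 hq2
      have hqm : q ≤ m := Nat.find_min' hex ⟨hm, ham⟩
      have hbig : ∀ l, 1 ≤ l → l < q → 2 < ‖w (a + l)‖ := by
        intro l h1 h2
        by_contra h3
        exact Nat.find_min hex h2 ⟨h1, not_lt.1 h3⟩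
      have h1 : 1 < ∏ i ∈ Finset.range q, rho n (w (a + i)) := by
        by_contra h
        have := block hL (fun l => w (a + l)) (fun l => hws (a + l)) (fun l => hw1 _) (by simpa using ha) q hq1 (by omega) hbig
          (not_lt.1 h)
        exact absurd hq2 (not_le.2 this)
      rcases hqm.lt_or_eq with h | h
      · have h2 := ih (m - q) (by omega) (a + q) (by omega) (by omega) hq2
          (by rw [add_assoc, Nat.add_sub_cancel' hqm]; exact ham)
        have h3 := Finset.prod_range_add (fun i => rho n (w (a + i))) q (m - q)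
        rw [Nat.add_sub_cancel' hqm] at h3
        rw [h3]
        simp only [← add_assoc]
        nlinarith
      · rw [← h]
        exact h1
  -- there is a small index
  have hsmall : ∃ a, ‖w a‖ ≤ 2 := by
    by_contra h
    push Not at h
    have h1 : ∀ i, 3 / 2 ≤ rho n (w i) := by
      intro i
      have h3 := rho_ge hn0 (hw1 i) (by norm_num : (0 : ℝ) ≤ 2) (h i).le
      refine le_trans ?_ h3
      rw [le_div_iff₀ (by positivity)]
      have : (2 : ℝ) / n ≤ 1 / 3 := by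
        rw [div_le_iff₀ hn0]
        have := hL.hn
        linarith
      linarith
    have h2 : (3 / 2 : ℝ) ^ p ≤ ∏ i ∈ Finset.range p, rho n (w i) := by
      have := Finset.prod_le_prod (s := Finset.range p) (f := fun _ => (3 / 2 : ℝ))
        (g := fun i => rho n (w i)) (fun i _ => by norm_num) (fun i _ => h1 i)
      rw [Finset.prod_const, Finset.card_range] at this
      exact this
    have h3 : (1 : ℝ) < (3 / 2) ^ p := one_lt_pow₀ (by norm_num) (by omega)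
    linarith
  obtain ⟨a, ha⟩ := hsmall
  have h1 := hseg p a hp le_rfl ha (by rw [hwp]; exact ha)
  rw [prod_shift (fun i => rho n (w i)) (fun i => by simp only [hwp]) hr0 a] at h1
  linarith

end Pool.Agent.Limb
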