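import Pool.Agent.Limb.Targets

/-!
# LIMB: a low stage (LOWST)
-/

set_option autoImplicit false

open Complex Filter Topology Set
open Pool.Agent.Multibrot

namespace Pool.Agent.Limb

namespace LOWST_

lemma div_re_im (n : ℕ) (U : ℂ) : (U / n).re = U.re / n ∧ (U / n).im = U.im / n := by
  rw [← ofReal_natCast, div_ofReal_re, div_ofReal_im]
  exact ⟨rfl, rfl⟩

/-- The basic lower bound for the real part. -/
lemma re_bound {n : ℕ} {z U : ℂ} (hn : (10 : ℝ) ^ 20 ≤ n) (hz : (10 : ℝ) ^ 8 ≤ ‖z‖)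
    (hzr : 0 ≤ z.re) (hU : U ∈ QQ) :
    Real.exp (U.re / n) * (1 - 1 / 10 ^ 7) ≤ (1 + (1 + n / z) * (exp (U / n) - 1)).re ∧
    99 / 100 ≤ Real.exp (U.re / n) := by
  obtain ⟨ha, hb⟩ := hU
  have hn0 : (0 : ℝ) < n := lt_of_lt_of_le (by norm_num) hn
  set ν : ℝ := 1 / n with hν
  have hν0 : 0 < ν := by positivity
  have hν1 : ν ≤ 1 / 10 ^ 20 := one_div_le_one_div_of_le (by norm_num) hn
  have hnν : n * ν = 1 := by rw [hν]; field_simp
  set M : ℝ := Real.exp (U.re / n) with hM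
  set c : ℝ := Real.cos (U.im / n) with hc
  set s : ℝ := Real.sin (U.im / n) with hs
  have hM1 : 1 - ν / 5 ≤ M := by
    have h1 := Real.add_one_le_exp (U.re / n)
    have h2 : U.re / n = U.re * ν := by rw [hν]; ring
    have h3 : -(1 / 5) * ν ≤ U.re * ν := mul_le_mul_of_nonneg_right ha.le hν0.le
    rw [← hM, h2] at h1
    linarith
  have hM99 : 99 / 100 ≤ M := by
    have : ν / 5 ≤ 1 / 100 := by
      have : (1 : ℝ) / 10 ^ 20 ≤ 1 / 100 := by norm_num
      linarith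
    linarith
  have hbs : U.im ^ 2 ≤ 4 := by
    have h1 := sq_abs U.im
    have h2 : |U.im| ^ 2 ≤ 2 ^ 2 := pow_le_pow_left₀ (abs_nonneg _) hb.le 2
    linarith
  have hc1 : 1 - 2 * ν ^ 2 ≤ c := by
    have h1 := Real.one_sub_sq_div_two_le_cos (x := U.im / n)
    have h2 : (U.im / n) ^ 2 = U.im ^ 2 * ν ^ 2 := by rw [hν]; ring
    rw [h2] at h1
    have h3 : U.im ^ 2 * ν ^ 2 ≤ 4 * ν ^ 2 := mul_le_mul_of_nonneg_right hbs (sq_nonneg _)
    linarith
  have hνs : ν ^ 2 ≤ ν / 10 ^ 20 := by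
    have : ν * ν ≤ ν * (1 / 10 ^ 20) := mul_le_mul_of_nonneg_left hν1 hν0.le
    calc ν ^ 2 = ν * ν := by ring
      _ ≤ ν * (1 / 10 ^ 20) := this
      _ = ν / 10 ^ 20 := by ring
  have hνt : ν ^ 2 ≤ 1 / 10 ^ 20 := by
    have : ν / 10 ^ 20 ≤ 1 / 10 ^ 20 := by
      apply div_le_div_of_nonneg_right _ (by positivity)
      exact hν1.trans (by norm_num)
    linarith
  have hc0 : 0 ≤ c := by
    have : (2 : ℝ) * (1 / 10 ^ 20) ≤ 1 := by norm_num
    linarith
  have hs1 : |s| ≤ 2 * ν := by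
    have h1 : |s| ≤ |U.im / n| := Real.abs_sin_le_abs
    have h2 : |U.im / n| = |U.im| * ν := by
      rw [abs_div, abs_of_pos hn0, hν]; ring
    rw [h2] at h1
    exact h1.trans (mul_le_mul_of_nonneg_right hb.le hν0.le)
  have hMc : 1 - 21 / 100 * ν ≤ M * c := by
    have h1 : (1 - ν / 5) * c ≤ M * c := mul_le_mul_of_nonneg_right hM1 hc0
    have h2 : (1 - ν / 5) * (1 - 2 * ν ^ 2) ≤ (1 - ν / 5) * c := by
      apply mul_le_mul_of_nonneg_left hc1
      have : (1 : ℝ) / 10 ^ 20 ≤ 1 := by norm_num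
      linarith
    have h3 : 0 ≤ ν * ν ^ 2 := by positivity
    have h4 : 2 * (ν / 10 ^ 20) ≤ ν / 100 := by
      rw [div_eq_mul_inv, div_eq_mul_inv]
      have : (2 : ℝ) * (10 ^ 20)⁻¹ ≤ 100⁻¹ := by norm_num
      nlinarith
    nlinarith
  have hexp : exp (U / n) = ⟨M * c, M * s⟩ := by
    apply Complex.ext
    · rw [exp_re, (div_re_im n U).1, (div_re_im n U).2]
    · rw [exp_im, (div_re_im n U).1, (div_re_im n U).2]
  have hz0 : 0 < ‖z‖ := lt_of_lt_of_le (by norm_num) hz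
  have hsplit : 1 + (1 + n / z) * (exp (U / n) - 1) =
      exp (U / n) + (n * (exp (U / n) - 1)) / z := by ring
  have hpre : (n * (exp (U / n) - 1)).re = n * (M * c - 1) := by
    rw [hexp]; simp
  have hpim : (n * (exp (U / n) - 1)).im = n * (M * s) := by
    rw [hexp]; simp
  have hre1 : -(21 / 100) ≤ n * (M * c - 1) := by nlinarith
  have him1 : |n * (M * s)| ≤ 2 * M := by
    rw [abs_mul, abs_mul, abs_of_pos hn0, abs_of_pos (by linarith : 0 < M)]
    calc n * (M * |s|) ≤ n * (M * (2 * ν)) := by gcongr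
      _ = 2 * M * (n * ν) := by ring
      _ = 2 * M := by rw [hnν, mul_one]
  have hdiv : -((21 / 100 + 2 * M) / ‖z‖) ≤ ((n * (exp (U / n) - 1)) / z).re := by
    rw [div_re, hpre, hpim, ← add_div, normSq_eq_norm_sq, le_div_iff₀ (by positivity)]
    have h1 : -((21 / 100 + 2 * M) / ‖z‖) * ‖z‖ ^ 2 = -((21 / 100 + 2 * M) * ‖z‖) := by
      field_simp
    rw [h1]
    have h2 : -(21 / 100) * z.re ≤ n * (M * c - 1) * z.re := mul_le_mul_of_nonneg_right hre1 hzr
    have h3 : z.re ≤ ‖z‖ := re_le_norm z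
    have h4 : |n * (M * s) * z.im| ≤ 2 * M * ‖z‖ := by
      rw [abs_mul]
      exact mul_le_mul him1 (abs_im_le_norm z) (abs_nonneg _) (by linarith)
    have h5 := neg_abs_le (n * (M * s) * z.im)
    nlinarith
  refine ⟨?_, hM99⟩
  rw [hsplit, add_re]
  have h1 : (exp (U / n)).re = M * c := by rw [hexp]
  rw [h1]
  have h2 : (21 / 100 + 2 * M) / ‖z‖ ≤ (21 / 100 + 2 * M) / 10 ^ 8 :=
    div_le_div_of_nonneg_left (by linarith) (by norm_num) hz
  have h3 : M * (1 - 2 * (1 / 10 ^ 20)) ≤ M * c := by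
    apply mul_le_mul_of_nonneg_left _ (by linarith)
    linarith
  have h4 : (21 / 100 + 2 * M) / 10 ^ 8 ≤ M * (3 / 10 ^ 8) := by
    rw [div_eq_mul_inv]
    have : M * (3 / 10 ^ 8) = 3 * M * (10 ^ 8)⁻¹ := by ring
    rw [this]
    exact mul_le_mul_of_nonneg_right (by linarith) (by positivity)
  have h5 : M * (1 - 1 / 10 ^ 7) ≤ M * (1 - 2 * (1 / 10 ^ 20)) - M * (3 / 10 ^ 8) := by
    rw [← mul_sub]
    exact mul_le_mul_of_nonneg_left (by norm_num) (by linarith)
  linarith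

lemma convex_QQ : Convex ℝ QQ := by
  have h : QQ = (re ⁻¹' Ioi (-(1 / 5 : ℝ))) ∩ (im ⁻¹' Ioo (-2 : ℝ) 2) := by
    ext U
    simp only [QQ, mem_ofPred_eq, mem_inter_iff, mem_preimage, mem_Ioi, mem_Ioo, abs_lt]
  rw [h]
  exact ((convex_Ioi _).is_linear_preimage (IsLinearMap.mk add_re smul_re)).inter
    ((convex_Ioo _ _).is_linear_preimage (IsLinearMap.mk add_im smul_im))

lemma zero_mem : (0 : ℂ) ∈ QQ := by
  constructor
  · norm_num
  · norm_num

lemma slit {n : ℕ} {z U : ℂ} (hn : (10 : ℝ) ^ 20 ≤ n) (hz : (10 : ℝ) ^ 8 ≤ ‖z‖)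
    (hzr : 0 ≤ z.re) (hU : U ∈ QQ) :
    9 / 10 ≤ (1 + (1 + n / z) * (exp (U / n) - 1)).re := by
  obtain ⟨h1, h2⟩ := re_bound hn hz hzr hU
  have h3 : 99 / 100 * (1 - 1 / 10 ^ 7) ≤ Real.exp (U.re / n) * (1 - 1 / 10 ^ 7) :=
    mul_le_mul_of_nonneg_right h2 (by norm_num)
  have h4 : (9 / 10 : ℝ) ≤ 99 / 100 * (1 - 1 / 10 ^ 7) := by norm_num
  linarith

lemma hasDeriv_hh {n : ℕ} {z U : ℂ}
    (h : 1 + (1 + n / z) * (exp (U / n) - 1) ∈ slitPlane) :
    HasDerivAt (hh n z) ((1 + n / z) * (exp (U / n) * (1 / n)) /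
      (1 + (1 + n / z) * (exp (U / n) - 1))) U := by
  have h1 : HasDerivAt (fun U : ℂ => U / n) (1 / n) U := (hasDerivAt_id U).div_const _
  have h2 : HasDerivAt (fun U : ℂ => 1 + (1 + n / z) * (exp (U / n) - 1))
      ((1 + n / z) * (exp (U / n) * (1 / n))) U :=
    ((h1.cexp.sub_const 1).const_mul _).const_add 1
  exact h2.clog h

/-- The Lipschitz bound. -/
lemma norm_hh {n : ℕ} {z U : ℂ} (hn : (10 : ℝ) ^ 20 ≤ n) (hz : (10 : ℝ) ^ 8 ≤ ‖z‖)
    (hzr : 0 ≤ z.re) (hU : U ∈ QQ) :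
    ‖hh n z U‖ ≤ 11 / 10 * (‖1 + n / z‖ / n) * ‖U‖ := by
  have hn0 : (0 : ℝ) < n := lt_of_lt_of_le (by norm_num) hn
  have h0 : hh n z 0 = 0 := by simp [hh]
  have h := Convex.norm_image_sub_le_of_norm_hasDerivWithin_le (𝕜 := ℂ) (f := hh n z) (s := QQ)
    (C := 11 / 10 * (‖1 + n / z‖ / n))
    (f' := fun U => (1 + n / z) * (exp (U / n) * (1 / n)) /
      (1 + (1 + n / z) * (exp (U / n) - 1)))
    (fun V hV => (hasDeriv_hh (Or.inl (lt_of_lt_of_le (by norm_num)
      (slit hn hz hzr hV)))).hasDerivWithinAt) ?_ convex_QQ zero_mem hU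
  · rwa [h0, sub_zero, sub_zero] at h
  · intro V hV
    obtain ⟨h1, h2⟩ := re_bound hn hz hzr hV
    have h3 := h1.trans (re_le_norm _)
    have hM0 : 0 < Real.exp (V.re / n) := Real.exp_pos _
    have h4 : 0 < Real.exp (V.re / n) * (1 - 1 / 10 ^ 7) := mul_pos hM0 (by norm_num)
    rw [norm_div, norm_mul, norm_mul, norm_exp, (div_re_im n V).1, norm_div, norm_one,
      norm_natCast, div_le_iff₀ (h4.trans_le h3)]
    have h5 : 11 / 10 * (‖1 + (n : ℂ) / z‖ / n) * (Real.exp (V.re / n) * (1 - 1 / 10 ^ 7)) ≤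
        11 / 10 * (‖1 + (n : ℂ) / z‖ / n) * ‖1 + (1 + n / z) * (exp (V / n) - 1)‖ :=
      mul_le_mul_of_nonneg_left h3 (by positivity)
    refine le_trans ?_ h5
    have h6 : ‖1 + (n : ℂ) / z‖ * (Real.exp (V.re / n) * (1 / n)) * 1 ≤
        ‖1 + (n : ℂ) / z‖ * (Real.exp (V.re / n) * (1 / n)) * (11 / 10 * (1 - 1 / 10 ^ 7)) :=
      mul_le_mul_of_nonneg_left (by norm_num) (by positivity)
    calc ‖1 + (n : ℂ) / z‖ * (Real.exp (V.re / n) * (1 / n)) =
        ‖1 + (n : ℂ) / z‖ * (Real.exp (V.re / n) * (1 / n)) * 1 := by ring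
      _ ≤ _ := h6
      _ = _ := by ring

lemma psi_mul (v : ℂ) : v * psi v = exp v - 1 := by
  unfold psi
  split_ifs with h
  · simp [h]
  · field_simp

lemma phi_mul (y : ℂ) : phi y * y = log (1 + y) := by
  unfold phi
  split_ifs with h
  · simp [h]
  · field_simp

/-- A lower bound for `n |exp (U / n) - 1|`. -/
lemma low_exp {n : ℕ} {U : ℂ} (hn : (10 : ℝ) ^ 20 ≤ n) (hU : U ∈ QQ) :
    9 / 10 * min ‖U‖ 1 ≤ n * ‖exp (U / n) - 1‖ := by
  obtain ⟨ha, hb⟩ := hU
  have hn0 : (0 : ℝ) < n := lt_of_lt_of_le (by norm_num) hn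
  rcases le_total ‖U‖ (n / 10) with h | h
  · have h1 : ‖U / n‖ = ‖U‖ / n := by rw [norm_div, norm_natCast]
    have h2 : ‖U / n‖ ≤ 1 / 10 := by
      rw [h1, div_le_iff₀ hn0]
      linarith
    have h3 := norm_exp_sub_one_sub_id_le (x := U / n) (h2.trans (by norm_num))
    have h4 : ‖U / n‖ - ‖U / n‖ ^ 2 ≤ ‖exp (U / n) - 1‖ := by
      have h5 : ‖U / n‖ ≤ ‖exp (U / n) - 1‖ + ‖exp (U / n) - 1 - U / n‖ := by
        have := norm_sub_le (exp (U / n) - 1) (exp (U / n) - 1 - U / n)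
        rwa [sub_sub_cancel] at this
      linarith
    have h6 : 9 / 10 * ‖U / n‖ ≤ ‖exp (U / n) - 1‖ := by
      have h7 := norm_nonneg (U / n)
      nlinarith
    calc 9 / 10 * min ‖U‖ 1 ≤ 9 / 10 * ‖U‖ :=
          mul_le_mul_of_nonneg_left (min_le_left _ _) (by norm_num)
      _ = n * (9 / 10 * ‖U / n‖) := by rw [h1]; field_simp
      _ ≤ _ := mul_le_mul_of_nonneg_left h6 hn0.le
  · have h1 := Complex.norm_le_abs_re_add_abs_im U
    have h2 : (1 : ℝ) ≤ U.re := by
      rcases le_total 0 U.re with h0 | h0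
      · rw [abs_of_nonneg h0] at h1
        linarith
      · rw [abs_of_nonpos h0] at h1
        exfalso
        linarith
    have h3 : (U / n).re ≤ ‖exp (U / n) - 1‖ := by
      have h4 := Real.add_one_le_exp (U / n).re
      have h5 := norm_sub_norm_le (exp (U / n)) 1
      rw [norm_exp, norm_one] at h5
      linarith
    rw [(div_re_im n U).1, div_le_iff₀ hn0] at h3
    have h6 := min_le_right ‖U‖ 1
    linarith

end LOWST_

open LOWST_

theorem p_LOWST (h1 : T_PSI) (h2 : T_PHI) : T_LOWST := by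
  intro n z U hn hz hzr hU
  have hn0 : (0 : ℝ) < n := lt_of_lt_of_le (by norm_num) hn
  have hn2 : 2 ≤ n := by
    have : (2 : ℝ) ≤ n := le_trans (by norm_num) hn
    exact_mod_cast this
  have hnc := natCast_ne hn2
  have hz0 : z ≠ 0 := ne_zero_of_big hz
  have hz1 : 1 + z / n ≠ 0 := one_add_ne hzr
  have hznorm : 0 < ‖z‖ := norm_pos_iff.2 hz0
  have hre := slit hn hz hzr hU
  set y : ℂ := (1 + n / z) * (exp (U / n) - 1) with hy
  have hyre : 0 < (1 + y).re := lt_of_lt_of_le (by norm_num) hre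
  have hslit : 1 + y ∈ slitPlane := Or.inl hyre
  have hpi := Real.pi_lt_d2
  have hpi3 := Real.pi_gt_three
  have hxx : hh n z U = log (1 + y) := rfl
  have harg : |(1 + y).arg| ≤ Real.pi / 2 := abs_arg_le_pi_div_two_iff.2 hyre.le
  have hnorm9 : 9 / 10 ≤ ‖1 + y‖ := hre.trans (re_le_norm _)
  -- `hh` is in the domain
  have hQ : hh n z U ∈ QQ := by
    rw [hxx]
    constructor
    · rw [log_re, Real.lt_log_iff_exp_lt (lt_of_lt_of_le (by norm_num) hnorm9)]
      have h5 := Real.add_one_le_exp (1 / 5)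
      have h6 : Real.exp (-(1 / 5)) * Real.exp (1 / 5) = 1 := by
        rw [← Real.exp_add]
        norm_num
      have h7 := Real.exp_pos (-(1 / 5))
      nlinarith
    · rw [log_im]
      linarith
  -- the factors of `exp tau`
  have him : |(U / n).im| ≤ 2 / n := by
    rw [(div_re_im n U).2, abs_div, abs_of_pos hn0]
    exact div_le_div_of_nonneg_right hU.2.le hn0.le
  have h2n : 2 / (n : ℝ) ≤ 1 / 100 := by
    rw [div_le_iff₀ hn0]
    linarith
  obtain ⟨ps1, ps2⟩ := h1.2.1 (U / n) (by linarith)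
  obtain ⟨ph1, ph2⟩ := h2.2.1 y hslit
  have htau : tau n z U = log (phi y) + log (psi (U / n)) := rfl
  have hexp : exp (tau n z U) = phi y * psi (U / n) := by
    rw [htau, exp_add, exp_log (slitPlane_ne_zero ph1), exp_log (slitPlane_ne_zero ps1)]
  have hK : z / (1 + z / n) * (1 + n / z) = n := by
    have h3 : (n : ℂ) + z ≠ 0 := by
      intro h
      apply hz1
      have : 1 + z / n = (n + z) / n := by field_simp
      rw [this, h, zero_div]
    have h4 : 1 + z / n = (n + z) / n := by field_simp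
    have h5 : 1 + (n : ℂ) / z = (n + z) / z := by field_simp; ring
    rw [h4, h5]
    field_simp
  have hUpsi : U * psi (U / n) = n * (exp (U / n) - 1) := by
    rw [← psi_mul]
    field_simp
  have hident : U * exp (tau n z U) = z / (1 + z / n) * hh n z U := by
    rw [hexp, hxx, ← phi_mul]
    calc U * (phi y * psi (U / n)) = phi y * (U * psi (U / n)) := by ring
      _ = phi y * (n * (exp (U / n) - 1)) := by rw [hUpsi]
      _ = phi y * ((z / (1 + z / n) * (1 + n / z)) * (exp (U / n) - 1)) := by rw [hK]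
      _ = _ := by rw [hy]; ring
  have hKn : ‖z / (1 + z / n)‖ * ‖1 + n / z‖ = n := by
    rw [← norm_mul, hK, norm_natCast]
  have hB1 : ‖1 + n / z‖ ≤ 1 + n / 10 ^ 8 := by
    refine (norm_add_le _ _).trans ?_
    rw [norm_one, norm_div, norm_natCast]
    have := div_le_div_of_nonneg_left hn0.le (by norm_num) hz
    linarith
  have hlip := norm_hh hn hz hzr hU
  have hKpos : 0 < ‖z / (1 + z / n)‖ := norm_pos_iff.2 (div_ne_zero hz0 hz1)
  have hKh : ‖z / (1 + z / n)‖ * ‖hh n z U‖ ≤ 11 / 10 * ‖U‖ := by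
    calc ‖z / (1 + z / n)‖ * ‖hh n z U‖ ≤
        ‖z / (1 + z / n)‖ * (11 / 10 * (‖1 + n / z‖ / n) * ‖U‖) :=
          mul_le_mul_of_nonneg_left hlip hKpos.le
      _ = 11 / 10 * (‖z / (1 + z / n)‖ * ‖1 + n / z‖ / n) * ‖U‖ := by ring
      _ = _ := by rw [hKn, div_self hn0.ne', mul_one]
  refine ⟨hre, hQ, ?_, ?_, ?_, hident, ?_, ?_, ?_⟩
  · -- imaginary part of `tau`
    rw [htau, add_im, log_im, log_im]
    refine (abs_add_le _ _).trans ?_
    linarith
  · -- modulus of `exp tau`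
    rcases eq_or_ne U 0 with h0 | h0
    · have : tau n z U = 0 := by
        rw [htau, hy, h0]
        simp [phi, psi]
      rw [this, exp_zero, norm_one]
      norm_num
    · have hU0 : 0 < ‖U‖ := norm_pos_iff.2 h0
      have h3 : ‖U‖ * ‖exp (tau n z U)‖ ≤ 11 / 10 * ‖U‖ := by
        rw [← norm_mul, hident, norm_mul]
        exact hKh
      have h4 : ‖exp (tau n z U)‖ ≤ 11 / 10 := by
        by_contra hcon
        push Not at hcon
        nlinarith
      linarith
  · -- the lower bound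
    have hmin1 : min ‖U‖ 1 ≤ 1 := min_le_right _ _
    rcases le_total 1 ‖hh n z U‖ with h3 | h3
    · rw [min_eq_right h3, mul_one]
      have h4 : 1 ≤ ‖z / (1 + z / n)‖ := by
        by_contra hcon
        push Not at hcon
        have h5 : ‖z / (1 + z / n)‖ * ‖1 + n / z‖ ≤ 1 * (1 + n / 10 ^ 8) :=
          mul_le_mul hcon.le hB1 (norm_nonneg _) (by norm_num)
        rw [hKn] at h5
        linarith
      linarith
    · rw [min_eq_left h3]
      have h4 : ‖y‖ ≤ 28 / 10 * ‖hh n z U‖ := by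
        have h5 := norm_exp_sub_one_le' (hh n z U)
        have h6 : exp (hh n z U) - 1 = y := by
          rw [hxx, exp_log (slitPlane_ne_zero hslit)]
          ring
        rw [h6] at h5
        have h7 : Real.exp (max 0 (hh n z U).re) ≤ 28 / 10 := by
          have h8 : max 0 (hh n z U).re ≤ 1 :=
            max_le (by norm_num) ((re_le_norm _).trans h3)
          have h9 := Real.exp_le_exp.2 h8
          have h10 := Real.exp_one_lt_d9
          linarith
        have h8 := mul_le_mul_of_nonneg_left h7 (norm_nonneg (hh n z U))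
        linarith
      have h5 : ‖z / (1 + z / n)‖ * ‖y‖ = n * ‖exp (U / n) - 1‖ := by
        rw [hy, norm_mul, ← mul_assoc, hKn]
      have h6 := low_exp hn hU
      have h7 := mul_le_mul_of_nonneg_left h4 hKpos.le
      have h8 : 0 ≤ min ‖U‖ 1 := le_min (norm_nonneg _) (by norm_num)
      rw [h5] at h7
      have h9 : ‖z / (1 + z / n)‖ * (28 / 10 * ‖hh n z U‖) =
          28 / 10 * (‖z / (1 + z / n)‖ * ‖hh n z U‖) := by ring
      rw [h9] at h7
      linarith
  · exact (hasDeriv_hh hslit).differentiableAt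
  · -- differentiability of `tau`
    have h3 : DifferentiableAt ℂ (fun U : ℂ => (1 + n / z) * (exp (U / n) - 1)) U := by
      fun_prop
    have h4 : DifferentiableAt ℂ (fun U : ℂ => phi ((1 + n / z) * (exp (U / n) - 1))) U :=
      DifferentiableAt.comp (g := phi) U (h2.1 y hslit) h3
    have h5 : DifferentiableAt ℂ (fun U : ℂ => psi (U / n)) U := by
      have h6 : DifferentiableAt ℂ (fun U : ℂ => U / (n : ℂ)) U := by fun_prop
      exact DifferentiableAt.comp (g := psi) U (h1.1 _) h6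
    exact (h4.clog ph1).add (h5.clog ps1)
  · -- contraction
    have h3 : 11 / 10 * (‖1 + n / z‖ / n) ≤ 1 := by
      have h4 : ‖1 + n / z‖ / n ≤ 1 / 2 := by
        rw [div_le_iff₀ hn0]
        linarith
      linarith
    calc ‖hh n z U‖ ≤ 11 / 10 * (‖1 + n / z‖ / n) * ‖U‖ := hlip
      _ ≤ 1 * ‖U‖ := mul_le_mul_of_nonneg_right h3 (norm_nonneg _)
      _ = ‖U‖ := one_mul _

end Pool.Agent.Limb
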