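import Pool.Agent.Limb.Targets

/-!
# LIMB, entry MU: the multiplier
-/

set_option autoImplicit false

open Complex Filter Topology Set
open Pool.Agent.Multibrot

namespace Pool.Agent.Limb

namespace MU_

/-- `E` of a point of the form `n ((1 + z / n) exp (v / n) - 1)`. -/
lemma E_of_form {n : ℕ} (hn : 2 ≤ n) (L z v : ℂ) :
    E n L (n * ((1 + z / n) * exp (v / n) - 1)) = E n L z * exp v := by
  have hn0 := natCast_ne hn
  have h1 : 1 + (n * ((1 + z / n) * exp (v / n) - 1)) / n = (1 + z / n) * exp (v / n) := by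
    field_simp
    ring
  have h2 : exp (v / n) ^ n = exp v := by
    rw [← exp_nat_mul]
    congr 1
    field_simp
  unfold E
  rw [h1, mul_pow, h2]
  ring

lemma exp_mul_pow {n : ℕ} (hn : 2 ≤ n) (L z : ℂ) (hz : 1 + z / n ≠ 0) :
    exp L * (1 + z / n) ^ (n - 1) = E n L z / (1 + z / n) := by
  obtain ⟨m, rfl⟩ : ∃ m, n = m + 1 := ⟨n - 1, by omega⟩
  rw [Nat.add_sub_cancel]
  unfold E
  rw [eq_div_iff hz, pow_succ]
  ring

lemma pow_ratio {n : ℕ} (hn : 2 ≤ n) (z w : ℂ) (hz : 1 + z / n ≠ 0) (hw : 1 + w / n ≠ 0) :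
    (1 + w / n) ^ (n - 1) = (1 + z / n) ^ (n - 1) * exp ((1 - 1 / n) * ui n z w) := by
  have hn0 := natCast_ne hn
  have h0 : (1 + w / n) / (1 + z / n) ≠ 0 := div_ne_zero hw hz
  have h1 : exp ((1 - 1 / n) * ui n z w) = ((1 + w / n) / (1 + z / n)) ^ (n - 1) := by
    have h2 : (1 - 1 / (n : ℂ)) * ui n z w =
        ((n - 1 : ℕ) : ℂ) * log ((1 + w / n) / (1 + z / n)) := by
      unfold ui
      rw [Nat.cast_sub (by omega : 1 ≤ n)]
      push_cast
      field_simp
    rw [h2, exp_nat_mul, exp_log h0]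
  rw [h1, div_pow, mul_div_assoc', mul_div_cancel_left₀]
  exact pow_ne_zero _ hz

end MU_

theorem p_MU : T_MU := by
  intro n j L u g hn hu hz hD hg hV hev heq
  have hn0 := natCast_ne hn
  have hnn : n ≠ 0 := by omega
  -- the value of the iterate
  have hE : ∀ᶠ v in 𝓝 u, (E n L)^[j + 1] (W0 n L j v) = zz n L (j + 1) * exp v := by
    filter_upwards [hev] with v hv
    rw [Function.iterate_succ_apply', hv.2, MU_.E_of_form hn, zz_succ]
  have h0 := hev.self_of_nhds
  have hE0 := hE.self_of_nhds
  have hW : W0 n L j u = zz n L (j + 1) * exp u := by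
    apply mul_left_cancel₀ hD
    have h1 : u * exp (g u) = u * exp (g u - u) * exp u := by
      rw [mul_assoc, ← exp_add]
      congr 2
      ring
    rw [← h0.1, h1, heq]
    ring
  have hfix : (E n L)^[j + 1] (W0 n L j u) = W0 n L j u := by rw [hE0, hW]
  refine ⟨hfix, ?_, ?_⟩
  · rw [F_iter_conj hn, hfix]
  · rw [deriv_F_iter hn]
    have hdE : HasDerivAt ((E n L)^[j + 1]) (deriv ((E n L)^[j + 1]) (W0 n L j u)) (W0 n L j u) :=
      (deriv_E_iter hnn L (W0 n L j u) (j + 1)).differentiableAt.hasDerivAt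
    set μ := deriv ((E n L)^[j + 1]) (W0 n L j u) with hμ
    -- derivative of `W0`
    have hWd : DifferentiableAt ℂ (W0 n L j) u := by
      have : W0 n L j = fun U => (n : ℂ) * (exp (VV n L j U / n) - 1) := by
        funext U
        rfl
      rw [this]
      exact (((hV.div_const _).cexp).sub_const 1).const_mul _
    have hW1 := hWd.hasDerivAt
    set W' := deriv (W0 n L j) u with hW'
    have hc : HasDerivAt (fun v => (E n L)^[j + 1] (W0 n L j v)) (μ * W') u := by
      have h := HasDerivAt.comp (h₂ := (E n L)^[j + 1]) (h := W0 n L j) u hdE hW1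
      exact h
    have hc2 : HasDerivAt (fun v => zz n L (j + 1) * exp v) (zz n L (j + 1) * exp u) u :=
      (Complex.hasDerivAt_exp u).const_mul _
    have hc3 : HasDerivAt (fun v => zz n L (j + 1) * exp v) (μ * W') u :=
      hc.congr_of_eventuallyEq (hE.mono fun v hv => hv.symm)
    have e1 : μ * W' = zz n L (j + 1) * exp u := hc3.unique hc2
    -- derivative of `v exp (g v)`
    have hg1 := hg.hasDerivAt
    set g' := deriv g u with hg'
    have hd : HasDerivAt (fun v => v * exp (g v)) (1 * exp (g u) + u * (exp (g u) * g')) u :=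
      (hasDerivAt_id u).fun_mul hg1.cexp
    have hd2 : HasDerivAt (fun v => DD n L j * W0 n L j v) (DD n L j * W') u := hW1.const_mul _
    have hd3 : HasDerivAt (fun v => DD n L j * W0 n L j v)
        (1 * exp (g u) + u * (exp (g u) * g')) u :=
      hd.congr_of_eventuallyEq (hev.mono fun v hv => hv.1.symm)
    have e2 : DD n L j * W' = 1 * exp (g u) + u * (exp (g u) * g') := hd2.unique hd3
    have e3 : μ * (1 * exp (g u) + u * (exp (g u) * g')) = u * exp (g u) := by
      rw [← e2]
      have : μ * (DD n L j * W') = DD n L j * (μ * W') := by ring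
      rw [this, e1, h0.1, hW]
    have he : exp (g u) ≠ 0 := exp_ne_zero _
    have e4 : μ * (1 + u * g') = u := by
      apply mul_right_cancel₀ he
      rw [← e3]
      ring
    have e5 : u * (μ * (1 / u + g')) = u * 1 := by
      have : u * (μ * (1 / u + g')) = μ * (u * (1 / u) + u * g') := by ring
      rw [this, mul_one_div_cancel hu, e4, mul_one]
    exact mul_left_cancel₀ hu e5

theorem p_MUL : T_MUL := by
  intro n j L w hn hw hz
  have hnn : n ≠ 0 := by omega
  rw [deriv_F_iter hn, (deriv_E_iter hnn L w (j + 1)).deriv]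
  have h1 : ∀ i ∈ Finset.range (j + 1), exp L * (1 + (E n L)^[i] w / n) ^ (n - 1) =
      (zz n L (i + 1) / (1 + zz n L i / n)) *
        exp ((1 - 1 / n) * ui n (zz n L i) ((E n L)^[i] w)) := by
    intro i hi
    have hi' : i ≤ j := by
      have := Finset.mem_range.mp hi
      omega
    rw [MU_.pow_ratio hn _ _ (hz i hi') (hw i hi'), ← mul_assoc,
      MU_.exp_mul_pow hn L _ (hz i hi'), zz_succ]
  rw [Finset.prod_congr rfl h1, Finset.prod_mul_distrib, ← exp_sum, ← Finset.mul_sum]
  congr 1
  unfold DD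
  rw [Finset.prod_div_distrib, Finset.prod_div_distrib, Finset.prod_range_succ,
    Finset.prod_range_succ' (fun i => 1 + zz n L i / n) j]
  rw [zz_zero, zero_div, add_zero, mul_one]
  ring

end Pool.Agent.Limb
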