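import Pool.Agent.Limb.Targets

/-!
# LIMB: NEAR (the tower on the neighbourhood)
-/

set_option autoImplicit false

open Complex Filter Topology Set
open Pool.Agent.Multibrot

namespace Pool.Agent.Limb

namespace NEAR_

lemma log_sq_le {y : ℝ} (hy : (10 : ℝ) ^ 8 ≤ y) : 16 / 10 * (Real.log y) ^ 2 ≤ y / 2000 := by
  have hy0 : 0 < y := lt_of_lt_of_le (by norm_num) hy
  set s := Real.sqrt (Real.sqrt y) with hs
  have hs2 : s ^ 2 = Real.sqrt y := Real.sq_sqrt (Real.sqrt_nonneg _)
  have hs4 : s ^ 4 = y := by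
    have : s ^ 4 = (s ^ 2) ^ 2 := by ring
    rw [this, hs2, Real.sq_sqrt hy0.le]
  have hs0 : 0 ≤ s := Real.sqrt_nonneg _
  have hs100 : 100 ≤ s := by
    by_contra hcon
    push Not at hcon
    have h1 : s ^ 4 < 100 ^ 4 := pow_lt_pow_left₀ hcon hs0 (by norm_num)
    rw [hs4] at h1
    norm_num at h1 hy
    linarith
  have hl : Real.log y = 4 * Real.log s := by
    rw [← hs4, Real.log_pow]
    norm_num
  have h1 : Real.log s ≤ s / 100 + 4 := by
    have e : s = s / 100 * 100 := by ring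
    have h2 : Real.log s = Real.log (s / 100) + Real.log 100 := by
      rw [← Real.log_mul (by positivity) (by norm_num)]
      congr 1
    have h3 := Real.log_le_sub_one_of_pos (by positivity : (0 : ℝ) < s / 100)
    have h4 : Real.log 100 ≤ 5 := by
      have : (100 : ℝ) = 2 ^ 2 * 5 ^ 2 := by norm_num
      rw [this, Real.log_mul (by norm_num) (by norm_num), Real.log_pow, Real.log_pow]
      have h5 := Real.log_two_lt_d9
      have h6 : Real.log 5 ≤ 17 / 10 := by
        have h7 : Real.log 5 = Real.log (5 / 4) + 2 * Real.log 2 := by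
          have : (5 : ℝ) = 5 / 4 * 2 ^ 2 := by norm_num
          rw [this, Real.log_mul (by norm_num) (by norm_num), Real.log_pow]
          norm_num
        have h8 := Real.log_le_sub_one_of_pos (by norm_num : (0 : ℝ) < 5 / 4)
        rw [h7]
        linarith
      push_cast
      linarith
    rw [h2]
    linarith
  have h0 : 0 ≤ Real.log s := Real.log_nonneg (by linarith)
  have h2 : Real.log s ≤ s / 20 := by linarith
  have h3 : (Real.log y) ^ 2 ≤ (s / 5) ^ 2 := by
    rw [hl]
    apply pow_le_pow_left₀ (by linarith)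
    linarith
  have h4 : (s / 5) ^ 2 = s ^ 2 / 25 := by ring
  have h5 : (10000 : ℝ) ≤ s ^ 2 := by nlinarith
  have h6 : s ^ 2 * 10000 ≤ y := by
    rw [← hs4]
    have : s ^ 4 = s ^ 2 * s ^ 2 := by ring
    rw [this]
    exact mul_le_mul_of_nonneg_left h5 (by positivity)
  rw [h4] at h3
  linarith

/-- Consequence of `T_ATT`: `(n - 1) log |1 + z_j / n|` is not very negative. -/
lemma att_log {n j : ℕ} {L : ℂ} (hatt : T_ATT) (h : Low n j L) (hNR : NR n (j + 1) (cc n L)) :
    1 + zz n L j / n ≠ 0 ∧ -(16 / 10 * (Real.log ‖zz n L j‖) ^ 2) ≤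
      n * Real.log ‖1 + zz n L j / n‖ := by
  have hn2 := h.two_le
  have hn0 := natCast_ne hn2
  have hne := hNR.zz_ne hn2 j (le_refl _)
  have hw : 1 + zz n L j / n ≠ 0 := by
    intro h0
    apply hne
    have h1 : zz n L j / n = -1 := by linear_combination h0
    rw [div_eq_iff hn0] at h1
    rw [h1]
    ring
  refine ⟨hw, ?_⟩
  have h1 := hatt n j L h hne hNR
  obtain ⟨k, hk⟩ : ∃ k, j = k + 1 := ⟨j - 1, by have := h.hj; omega⟩
  have hz0 : 0 < ‖zz n L j‖ := lt_of_lt_of_le (by norm_num) (h.ge8 h.hj (le_refl _))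
  have hw0 : 0 < ‖1 + zz n L j / n‖ := norm_pos_iff.2 hw
  have hprod : ‖DD n L j‖ ≤ ‖zz n L j‖ ^ k * (‖zz n L j‖ / ‖1 + zz n L j / n‖) := by
    unfold DD
    rw [hk, Finset.prod_range_succ, norm_mul, norm_prod, norm_div]
    apply mul_le_mul_of_nonneg_right _ (by positivity)
    calc ∏ i ∈ Finset.range k, ‖zz n L (i + 1) / (1 + zz n L (i + 1) / n)‖
        ≤ ∏ _i ∈ Finset.range k, ‖zz n L (k + 1)‖ := by
          apply Finset.prod_le_prod (fun _ _ => norm_nonneg _)
          intro i hi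
          have hi' := Finset.mem_range.1 hi
          rw [norm_div]
          have h3 : 0 ≤ (zz n L (i + 1)).re := h.hre (i + 1) (by omega) (by omega)
          have h4 := one_le_norm (n := n) h3
          have h5 : ‖zz n L (i + 1)‖ ≤ ‖zz n L j‖ := h.mono (by omega)
          rw [hk] at h5
          exact (div_le_self (norm_nonneg _) h4).trans h5
      _ = _ := by rw [Finset.prod_const, Finset.card_range]
  have hz1 : ‖exp L‖ ≤ ‖zz n L j‖ := by
    rw [← zz_one n L]
    exact h.mono h.hj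
  have h2 : ‖zz n L (j + 1)‖ = ‖exp L‖ * ‖1 + zz n L j / n‖ ^ n := by
    rw [zz_succ, E, norm_mul, norm_pow]
  have h3 : Real.exp (-10001 / 10000) ≤
      ‖zz n L j‖ ^ (k + 2) * ‖1 + zz n L j / n‖ ^ (n - 1) := by
    calc Real.exp (-10001 / 10000) ≤ ‖zz n L (j + 1) * DD n L j‖ := h1
      _ = ‖exp L‖ * ‖1 + zz n L j / n‖ ^ n * ‖DD n L j‖ := by rw [norm_mul, h2]
      _ ≤ ‖zz n L j‖ * ‖1 + zz n L j / n‖ ^ n *
          (‖zz n L j‖ ^ k * (‖zz n L j‖ / ‖1 + zz n L j / n‖)) := by
          apply mul_le_mul _ hprod (norm_nonneg _) (by positivity)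
          exact mul_le_mul_of_nonneg_right hz1 (by positivity)
      _ = _ := by
          have e : ‖1 + zz n L j / n‖ ^ n = ‖1 + zz n L j / n‖ ^ (n - 1) * ‖1 + zz n L j / n‖ := by
            rw [← pow_succ]
            congr 1
            omega
          rw [e]
          generalize ‖1 + zz n L j / n‖ = W at hw0 ⊢
          have e2 : ‖zz n L j‖ ^ (k + 2) = ‖zz n L j‖ ^ k * ‖zz n L j‖ * ‖zz n L j‖ := by ring
          rw [e2]
          field_simp
  set l := Real.log ‖zz n L j‖ with hl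
  set v := Real.log ‖1 + zz n L j / n‖ with hv
  have h4 := Real.log_le_log (Real.exp_pos _) h3
  rw [Real.log_exp, Real.log_mul (by positivity) (by positivity), Real.log_pow, Real.log_pow,
    ← hl, ← hv, Nat.cast_sub (by omega), Nat.cast_one] at h4
  have hbig := h.big k (by omega)
  rw [← hk] at hbig
  have hl18 : 18 ≤ l := by
    have h5 := h.re_L
    have h6 := Real.log_le_log (norm_pos_iff.2 (exp_ne_zero L)) hz1
    rw [norm_exp, Real.log_exp] at h6
    linarith
  have hjl : (j : ℝ) ≤ 145 / 100 * l := by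
    have h5 : (2 : ℝ) ^ j ≤ ‖zz n L j‖ := by
      have h6 : (2 : ℝ) ^ j = 2 * 2 ^ k := by rw [hk]; ring
      have h7 : (0 : ℝ) < 2 ^ k := by positivity
      rw [h6]
      linarith
    have h6 := Real.log_le_log (by positivity) h5
    rw [Real.log_pow, ← hl] at h6
    have h7 := Real.log_two_gt_d9
    have h8 : (j : ℝ) * (69 / 100) ≤ l :=
      (mul_le_mul_of_nonneg_left (by linarith) (Nat.cast_nonneg _)).trans h6
    linarith
  have hkj : ((k + 2 : ℕ) : ℝ) = j + 1 := by
    rw [hk]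
    push_cast
    ring
  rw [hkj] at h4
  have h5 : ((j : ℝ) + 1) * l ≤ (145 / 100 * l + 1) * l :=
    mul_le_mul_of_nonneg_right (by linarith) (by linarith)
  have h6 : -(152 / 100 * l ^ 2) ≤ (n - 1) * v := by nlinarith
  have hn20 := h.hn
  have hn1 : (10 : ℝ) ^ 19 ≤ n - 1 := by
    have : (10 : ℝ) ^ 19 + 1 ≤ 10 ^ 20 := by norm_num
    linarith
  rcases le_total 0 v with h7 | h7
  · have h8 : 0 ≤ (n : ℝ) * v := mul_nonneg (by positivity) h7
    have h9 : 0 ≤ l ^ 2 := sq_nonneg _
    linarith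
  · have h8 : 105 / 100 * ((n - 1) * v) ≤ n * v := by
      have h9 : (n : ℝ) ≤ 105 / 100 * (n - 1) := by linarith
      have h10 := mul_le_mul_of_nonpos_right h9 h7
      linarith
    have h9 : 0 ≤ l ^ 2 := sq_nonneg _
    linarith

lemma re_mul_log {n : ℕ} (w : ℂ) : ((n : ℂ) * log w).re = n * Real.log ‖w‖ := by
  have h : (n : ℂ) = ((n : ℝ) : ℂ) := by simp
  rw [h, re_ofReal_mul, log_re]

lemma im_mul_log {n : ℕ} (w : ℂ) : ((n : ℂ) * log w).im = n * w.arg := by
  have h : (n : ℂ) = ((n : ℝ) : ℂ) := by simp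
  rw [h, im_ofReal_mul, log_im]

/-- The logarithm `n log (1 + z_j / n)` is nearly imaginary. -/
lemma near_im {n j : ℕ} {L : ℂ} (hatt : T_ATT) (h : Low n j L) (hc : cc n L ∈ MM n)
    (hNR : NR n (j + 1) (cc n L)) (hNF : NFR n j L) :
    1 + zz n L j / n ≠ 0 ∧
    |((n : ℂ) * log (1 + zz n L j / n)).re| ≤ |((n : ℂ) * log (1 + zz n L j / n)).im| / 999 := by
  obtain ⟨hw, h1⟩ := att_log hatt h hNR
  refine ⟨hw, ?_⟩
  have hn2 := h.two_le
  have hn0 := natCast_ne hn2
  have hnpos : (0 : ℝ) < n := lt_of_lt_of_le (by norm_num) h.hn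
  set x : ℂ := n * log (1 + zz n L j / n) with hx
  have hxe : zz n L j = n * (exp (x / n) - 1) := by
    have e : x / n = log (1 + zz n L j / n) := by
      rw [hx]
      field_simp
    rw [e, exp_log hw]
    field_simp
    ring
  have hre : x.re = n * Real.log ‖1 + zz n L j / n‖ := re_mul_log _
  have hz8 := h.ge8 h.hj (le_refl _)
  have hL0 : 0 ≤ L.re := by linarith [h.re_L]
  have h2 := one_add_norm_le h.hn hc hL0 j
  have hzx : ‖zz n L j‖ ≤ 101 / 100 * ‖x‖ := by
    have h3 := norm_exp_sub_one_le' (x / n)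
    have h4 : (x / n).re = Real.log ‖1 + zz n L j / n‖ := by
      have : (x / n).re = x.re / n := by rw [← ofReal_natCast, div_ofReal_re]
      rw [this, hre]
      field_simp
    have h5 : max 0 (x / n).re ≤ 1 / 1000 := by
      apply max_le (by norm_num)
      rw [h4]
      have h6 := Real.log_le_sub_one_of_pos (norm_pos_iff.2 hw)
      have h7 : (1 : ℝ) / 10 ^ 16 ≤ 1 / 1000 := by norm_num
      linarith
    have h6 : Real.exp (1 / 1000) ≤ 101 / 100 := by
      have h7 := Real.one_sub_le_exp_neg (1 / 1000)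
      rw [Real.exp_neg] at h7
      have h8 : 0 < Real.exp (1 / 1000) := Real.exp_pos _
      have h9 : Real.exp (1 / 1000) * (1 - 1 / 1000) ≤ 1 := by
        calc Real.exp (1 / 1000) * (1 - 1 / 1000) ≤ Real.exp (1 / 1000) *
            (Real.exp (1 / 1000))⁻¹ := mul_le_mul_of_nonneg_left h7 h8.le
          _ = 1 := mul_inv_cancel₀ h8.ne'
      linarith
    have h7 : Real.exp (max 0 (x / n).re) ≤ 101 / 100 := (Real.exp_le_exp.2 h5).trans h6
    have h8 : ‖exp (x / n) - 1‖ ≤ ‖x‖ / n * (101 / 100) := by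
      refine h3.trans ?_
      rw [norm_div, norm_natCast]
      exact mul_le_mul_of_nonneg_left h7 (by positivity)
    rw [hxe, norm_mul, norm_natCast]
    calc (n : ℝ) * ‖exp (x / n) - 1‖ ≤ n * (‖x‖ / n * (101 / 100)) :=
          mul_le_mul_of_nonneg_left h8 hnpos.le
      _ = 101 / 100 * ‖x‖ := by field_simp
  have h3 := log_sq_le hz8
  have h4 : -(‖x‖ / 1000) ≤ x.re := by
    rw [hre]
    linarith [norm_nonneg x]
  have h5 : x.re < ‖x‖ / 1000 := hNF
  have h6 : |x.re| ≤ ‖x‖ / 1000 := abs_le.2 ⟨h4, h5.le⟩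
  have h7 := Complex.norm_le_abs_re_add_abs_im x
  linarith

lemma exp_quarter : Real.exp (1 / 4) ≤ 1285 / 1000 := by
  have h1 : Real.exp (1 / 4) ^ 4 = Real.exp 1 := by
    rw [← Real.exp_nat_mul]
    norm_num
  have h2 := Real.exp_one_lt_d9
  by_contra hcon
  push Not at hcon
  have h3 : (1285 / 1000 : ℝ) ^ 4 < Real.exp (1 / 4) ^ 4 :=
    pow_lt_pow_left₀ hcon (by norm_num) (by norm_num)
  rw [h1] at h3
  norm_num at h3
  linarith

lemma exp_sub_one_upper {r : ℂ} (h : ‖r‖ ≤ 1 / 4) : ‖exp r - 1‖ ≤ 285 / 1000 := by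
  have h1 : ‖exp r - 1‖ ≤ Real.exp ‖r‖ - 1 := by
    have h2 := Complex.norm_exp_sub_sum_le_exp_norm_sub_sum r 1
    simpa using h2
  have h2 : Real.exp ‖r‖ ≤ Real.exp (1 / 4) := Real.exp_le_exp.2 h
  linarith [exp_quarter]

lemma exp_sub_one_lower {r : ℂ} (h : ‖r‖ = 1 / 4) : 215 / 1000 ≤ ‖exp r - 1‖ := by
  have h1 : ‖exp r - (1 + r)‖ ≤ Real.exp ‖r‖ - (1 + ‖r‖) := by
    have h2 := Complex.norm_exp_sub_sum_le_exp_norm_sub_sum r 2
    simpa [Finset.sum_range_succ] using h2
  rw [h] at h1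
  have h2 : ‖r‖ ≤ ‖exp r - 1‖ + ‖exp r - (1 + r)‖ := by
    have h3 : r = (exp r - 1) - (exp r - (1 + r)) := by ring
    calc ‖r‖ = ‖(exp r - 1) - (exp r - (1 + r))‖ := by rw [← h3]
      _ ≤ _ := norm_sub_le _ _
  rw [h] at h2
  linarith [exp_quarter]

/-- `|1 - exp (-v)|` for `v` nearly imaginary. -/
lemma one_sub_exp_neg_upper {v : ℂ} (h : -(4 / 1000) ≤ v.re) : ‖1 - exp (-v)‖ ≤ 201 / 100 := by
  have h1 : ‖1 - exp (-v)‖ ≤ ‖(1 : ℂ)‖ + ‖exp (-v)‖ := norm_sub_le _ _
  rw [norm_one, norm_exp, neg_re] at h1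
  have h2 : Real.exp (-v.re) ≤ Real.exp (4 / 1000) := Real.exp_le_exp.2 (by linarith)
  have h3 : Real.exp (4 / 1000) ≤ 101 / 100 := by
    have h7 := Real.one_sub_le_exp_neg (4 / 1000)
    rw [Real.exp_neg] at h7
    have h8 : 0 < Real.exp (4 / 1000) := Real.exp_pos _
    have h9 : Real.exp (4 / 1000) * (1 - 4 / 1000) ≤ 1 := by
      calc Real.exp (4 / 1000) * (1 - 4 / 1000) ≤ Real.exp (4 / 1000) *
          (Real.exp (4 / 1000))⁻¹ := mul_le_mul_of_nonneg_left h7 h8.le
        _ = 1 := mul_inv_cancel₀ h8.ne'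
    linarith
  linarith

lemma one_sub_exp_neg_lower {v : ℂ} (h : |v.re| ≤ 4 / 1000) (h2 : |v.im| ≤ Real.pi) :
    63 / 100 * |v.im| ≤ ‖1 - exp (-v)‖ := by
  have h3 : 1 - exp (-v) = exp (-(v / 2)) * (2 * sinh (v / 2)) := by
    rw [two_sinh, mul_sub, ← exp_add, ← exp_add]
    congr 1
    · rw [show -(v / 2) + v / 2 = (0 : ℂ) by ring, exp_zero]
    · congr 1
      ring
  have h4 : |Real.sin (v / 2).im| ≤ ‖sinh (v / 2)‖ := by
    have h5 : sinh (v / 2) = Real.sinh (v / 2).re * Real.cos (v / 2).im +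
        Real.cosh (v / 2).re * Real.sin (v / 2).im * I := by
      conv_lhs => rw [← re_add_im (v / 2)]
      rw [sinh_add, sinh_mul_I, cosh_mul_I]
      push_cast
      ring
    have h6 : (sinh (v / 2)).im = Real.cosh (v / 2).re * Real.sin (v / 2).im := by
      rw [h5, add_im, ← ofReal_mul, ← ofReal_mul, ofReal_im, im_ofReal_mul, I_im]
      ring
    calc |Real.sin (v / 2).im| ≤ Real.cosh (v / 2).re * |Real.sin (v / 2).im| :=
          le_mul_of_one_le_left (abs_nonneg _) (Real.one_le_cosh _)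
      _ = |(sinh (v / 2)).im| := by
          rw [h6, abs_mul, abs_of_pos (Real.cosh_pos _)]
      _ ≤ _ := abs_im_le_norm _
  have h5 : (v / 2).im = v.im / 2 := by simp
  have h6 : |v.im| / Real.pi ≤ |Real.sin (v / 2).im| := by
    rw [h5]
    have h7 : 2 / Real.pi * (|v.im| / 2) ≤ Real.sin (|v.im| / 2) :=
      Real.mul_le_sin (by positivity) (by linarith)
    have h8 : Real.sin (|v.im| / 2) ≤ |Real.sin (v.im / 2)| := by
      rcases abs_cases v.im with ⟨h9, -⟩ | ⟨h9, -⟩
      · rw [h9]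
        exact le_abs_self _
      · rw [h9, show -v.im / 2 = -(v.im / 2) by ring, Real.sin_neg]
        exact neg_le_abs _
    calc |v.im| / Real.pi = 2 / Real.pi * (|v.im| / 2) := by ring
      _ ≤ _ := h7.trans h8
  have h7 : (995 / 1000 : ℝ) ≤ ‖exp (-(v / 2))‖ := by
    rw [norm_exp]
    have h8 : (-(v / 2)).re = -(v.re / 2) := by simp
    rw [h8]
    have h9 := Real.add_one_le_exp (-(v.re / 2))
    have h10 := le_abs_self v.re
    linarith
  have h8 : (318 / 1000 : ℝ) * |v.im| ≤ ‖sinh (v / 2)‖ := by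
    refine le_trans ?_ (h6.trans h4)
    rw [le_div_iff₀ Real.pi_pos]
    have h9 := Real.pi_lt_d6
    have h10 : (318 / 1000 : ℝ) * Real.pi ≤ 1 := by linarith
    nlinarith [abs_nonneg v.im]
  rw [h3, norm_mul, norm_mul, Complex.norm_ofNat]
  have h9 : 0 ≤ ‖sinh (v / 2)‖ := norm_nonneg _
  nlinarith [abs_nonneg v.im]

end NEAR_

open NEAR_ in
theorem p_NEAR (h1 : T_BOOT) (h2 : T_ATT) : T_NEAR := by
  intro n j L0 L hS hc0 hc hNR0 hNR hNN hNF0 hNF
  have hNN0 : NN n j L0 L0 := by
    refine ⟨by simp, fun i _ _ => by simp, ?_⟩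
    rcases eq_or_ne (zz n L0 j) 0 with h0 | h0
    · rw [h0]
      simp
    · rw [div_self h0]
      simp
  have hLow0 := (h1 n j L0 L0 hS hc0 hc0 hNN0).1
  have hLow := (h1 n j L0 L hS hc0 hc hNN).1
  obtain ⟨hw0, hx0⟩ := near_im h2 hLow0 hc0 hNR0 hNF0
  obtain ⟨hw, hxj⟩ := near_im h2 hLow hc hNR hNF
  have hn2 := hLow.two_le
  have hn0 := natCast_ne hn2
  have hnpos : (0 : ℝ) < n := lt_of_lt_of_le (by norm_num) hLow.hn
  have hz0 : zz n L0 j ≠ 0 := ne_zero_of_big (hLow0.ge8 hLow0.hj (le_refl _))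
  have hz : zz n L j ≠ 0 := ne_zero_of_big (hLow.ge8 hLow.hj (le_refl _))
  set w0 := 1 + zz n L0 j / n with hw0d
  set w := 1 + zz n L j / n with hwd
  set r := log (zz n L j / zz n L0 j) with hr
  have hr14 : ‖r‖ ≤ 1 / 4 := hNN.2.2
  have her : exp r = zz n L j / zz n L0 j := exp_log (div_ne_zero hz hz0)
  set x0 : ℂ := n * log w0 with hx0d
  set xj : ℂ := n * log w with hxjd
  set d : ℂ := log (w / w0) with hd
  have hxx : xL n j L0 L = x0 + n * d := rfl
  have hx00 : xL n j L0 L0 = x0 := by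
    unfold xL
    rw [div_self hw0]
    simp [hx0d, hw0d]
  have hexp0 : exp (x0 / n) = w0 := by
    have e : x0 / n = log w0 := by
      rw [hx0d]
      field_simp
    rw [e, exp_log hw0]
  have hww0 : w / w0 ≠ 0 := div_ne_zero hw hw0
  have hexpd : exp d = w / w0 := exp_log hww0
  -- the ratio
  have hratio : w / w0 = 1 + (exp r - 1) * (1 - exp (-(x0 / n))) := by
    rw [exp_neg, hexp0, her]
    rw [hwd]
    have e1 : zz n L0 j = n * (w0 - 1) := by
      rw [hw0d]
      field_simp
      ring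
    have e2 : w0 - 1 ≠ 0 := by
      intro h0
      rw [e1, h0, mul_zero] at hz0
      exact hz0 rfl
    rw [e1]
    field_simp
    ring
  have hreal0 : (x0 / n).re = x0.re / n := by rw [← ofReal_natCast, div_ofReal_re]
  have himag0 : (x0 / n).im = x0.im / n := by rw [← ofReal_natCast, div_ofReal_im]
  have him0 : |x0.im| ≤ Real.pi * n := by
    rw [hx0d, im_mul_log, abs_mul, abs_of_pos hnpos, mul_comm]
    exact mul_le_mul_of_nonneg_right (abs_arg_le_pi _) hnpos.le
  have himj : |xj.im| ≤ Real.pi * n := by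
    rw [hxjd, im_mul_log, abs_mul, abs_of_pos hnpos, mul_comm]
    exact mul_le_mul_of_nonneg_right (abs_arg_le_pi _) hnpos.le
  have hpi := Real.pi_lt_d6
  have hre0 : |(x0 / n).re| ≤ 4 / 1000 := by
    rw [hreal0, abs_div, abs_of_pos hnpos, div_le_iff₀ hnpos]
    have : |x0.im| / 999 ≤ 4 / 1000 * n := by
      have h3 : Real.pi * n ≤ 3.15 * n := mul_le_mul_of_nonneg_right (by linarith) hnpos.le
      linarith
    exact hx0.trans this
  have him0' : |(x0 / n).im| ≤ Real.pi := by
    rw [himag0, abs_div, abs_of_pos hnpos, div_le_iff₀ hnpos]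
    exact him0
  have hup : ‖w / w0 - 1‖ ≤ 573 / 1000 := by
    rw [hratio, add_sub_cancel_left, norm_mul]
    have h3 := exp_sub_one_upper hr14
    have h4 := one_sub_exp_neg_upper (v := x0 / n) (by linarith [(abs_le.1 hre0).1])
    calc ‖exp r - 1‖ * ‖1 - exp (-(x0 / n))‖ ≤ 285 / 1000 * (201 / 100) :=
          mul_le_mul h3 h4 (norm_nonneg _) (by norm_num)
      _ ≤ _ := by norm_num
  have hrepos : 0 < (w / w0).re := by
    have h3 := abs_re_le_norm (w / w0 - 1)
    rw [sub_re, one_re] at h3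
    linarith [(abs_le.1 (h3.trans hup)).1]
  have hslit : w / w0 ∈ slitPlane := Or.inl hrepos
  have hargd : |d.im| ≤ 85 / 100 := by
    rw [hd, log_im]
    by_contra hcon
    push Not at hcon
    have h3 : |(w / w0).arg| < Real.pi / 2 := abs_arg_lt_pi_div_two_iff.2 (Or.inl hrepos)
    have h4 : Real.sin (85 / 100) ≤ Real.sin |(w / w0).arg| :=
      Real.sin_le_sin_of_le_of_le_pi_div_two (by linarith [Real.pi_pos]) h3.le hcon.le
    have h5 : (74 / 100 : ℝ) ≤ Real.sin (85 / 100) := by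
      have h6 := Real.sin_gt_sub_cube (x := 85 / 100) (by norm_num)
      refine le_trans ?_ h6.le
      norm_num
    -- distance from 1 to the line through w / w0
    have h6 : |Real.sin (w / w0).arg| ≤ ‖w / w0 - 1‖ := by
      have h7 : (w / w0 - 1) * exp (-((w / w0).arg * I)) =
          ‖w / w0‖ - exp (-((w / w0).arg * I)) := by
        rw [sub_mul, one_mul]
        congr 1
        have h8 := norm_mul_exp_arg_mul_I (w / w0)
        nth_rewrite 1 [← h8]
        rw [mul_assoc, ← exp_add, add_neg_cancel, exp_zero, mul_one]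
      have h8 : ‖w / w0 - 1‖ = ‖(w / w0 - 1) * exp (-((w / w0).arg * I))‖ := by
        rw [norm_mul, norm_exp]
        simp
      rw [h8, h7]
      have h9 : ((‖w / w0‖ : ℂ) - exp (-((w / w0).arg * I))).im = Real.sin (w / w0).arg := by
        rw [sub_im, ofReal_im, zero_sub, ← neg_mul, ← ofReal_neg, exp_ofReal_mul_I_im,
          Real.sin_neg, neg_neg]
      rw [← h9]
      exact abs_im_le_norm _
    have h7 : Real.sin |(w / w0).arg| ≤ |Real.sin (w / w0).arg| := by
      rcases abs_cases (w / w0).arg with ⟨h9, -⟩ | ⟨h9, -⟩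
      · rw [h9]
        exact le_abs_self _
      · rw [h9, Real.sin_neg]
        exact neg_le_abs _
    linarith
  -- real and imaginary parts of x
  set x := xL n j L0 L with hxd
  have hexpx : exp (x / n) = w := by
    rw [hxx, add_div, exp_add, hexp0, mul_div_cancel_left₀ _ hn0, hexpd, mul_div_cancel₀ _ hw0]
  have hexpj : exp (xj / n) = w := by
    have e : xj / n = log w := by
      rw [hxjd]
      field_simp
    rw [e, exp_log hw]
  have hre : x.re = xj.re := by
    have h3 : ‖exp (x / n)‖ = ‖exp (xj / n)‖ := by rw [hexpx, hexpj]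
    rw [norm_exp, norm_exp] at h3
    have h4 := Real.exp_injective h3
    rw [← ofReal_natCast, div_ofReal_re, div_ofReal_re] at h4
    field_simp at h4
    exact h4
  have himx : |xj.im| ≤ |x.im| := by
    have h3 : exp (x / n) = exp (xj / n) := by rw [hexpx, hexpj]
    obtain ⟨k, hk⟩ := exp_eq_exp_iff_exists_int.1 h3
    have h4 : x = xj + (k * (2 * Real.pi) * n : ℝ) * I := by
      have h5 : x = n * (x / n) := by field_simp
      rw [h5, hk]
      push_cast
      field_simp
    have h5 : x.im = xj.im + k * (2 * Real.pi) * n := by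
      have h6 := congrArg Complex.im h4
      rwa [add_im, im_ofReal_mul, I_im, mul_one] at h6
    rcases eq_or_ne k 0 with h6 | h6
    · rw [h5, h6]
      simp
    · have h7 : (1 : ℝ) ≤ |(k : ℝ)| := by
        have : (1 : ℤ) ≤ |k| := Int.one_le_abs h6
        exact_mod_cast this
      have h8 : 2 * (Real.pi * n) ≤ |(k : ℝ) * (2 * Real.pi) * n| := by
        rw [abs_mul, abs_mul, abs_of_pos hnpos, abs_of_pos (by positivity : 0 < 2 * Real.pi)]
        have h9 : 0 < Real.pi * n := by positivity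
        nlinarith
      have h9 : |(k : ℝ) * (2 * Real.pi) * n| ≤ |x.im| + |xj.im| := by
        have h10 : (k : ℝ) * (2 * Real.pi) * n = x.im - xj.im := by rw [h5]; ring
        rw [h10]
        exact abs_sub _ _
      linarith
  have himd : x.im - x0.im = n * d.im := by
    rw [hxx, add_im]
    have e : ((n : ℂ) * d).im = n * d.im := by
      have h : (n : ℂ) = ((n : ℝ) : ℂ) := by simp
      rw [h, im_ofReal_mul]
    rw [e]
    ring
  have hred : x.re - x0.re = n * d.re := by
    rw [hxx, add_re]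
    have e : ((n : ℂ) * d).re = n * d.re := by
      have h : (n : ℂ) = ((n : ℝ) : ℂ) := by simp
      rw [h, re_ofReal_mul]
    rw [e]
    ring
  have himle : |x.im - x0.im| ≤ 85 / 100 * n := by
    rw [himd, abs_mul, abs_of_pos hnpos, mul_comm]
    exact mul_le_mul_of_nonneg_right hargd hnpos.le
  refine ⟨⟨hLow, ?_, ?_, ?_⟩, hslit, ?_⟩
  · rw [hexpx, hwd]
    field_simp
    ring
  · rw [hre]
    have := abs_nonneg x.im
    linarith
  · have h3 : |x.im| ≤ |x.im - x0.im| + |x0.im| := by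
      have := abs_add_le (x.im - x0.im) x0.im
      rwa [sub_add_cancel] at this
    have h4 : Real.pi * n ≤ 3.15 * n := mul_le_mul_of_nonneg_right (by linarith) hnpos.le
    linarith
  · intro hbd
    rw [hx00]
    have h3 := exp_sub_one_lower hbd
    have h4 := one_sub_exp_neg_lower (v := x0 / n) hre0 him0'
    have h5 : 215 / 1000 * (63 / 100 * |(x0 / n).im|) ≤ ‖exp d - 1‖ := by
      rw [hexpd, hratio, add_sub_cancel_left, norm_mul]
      exact mul_le_mul h3 h4 (by positivity) (norm_nonneg _)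
    have h6 := norm_exp_sub_one_le' d
    -- real part of d
    have h7 : n * |d.re| ≤ |x0.im| / 999 + |x.im| / 999 := by
      have h8 : n * |d.re| = |x.re - x0.re| := by
        rw [hred, abs_mul, abs_of_pos hnpos]
      rw [h8, hre]
      have h9 : |xj.re - x0.re| ≤ |xj.re| + |x0.re| := abs_sub _ _
      linarith
    have h8 : |x.im| ≤ |x0.im| + n * ‖d‖ := by
      have h9 : |x.im| ≤ |x.im - x0.im| + |x0.im| := by
        have := abs_add_le (x.im - x0.im) x0.im
        rwa [sub_add_cancel] at this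
      have h10 : |x.im - x0.im| ≤ n * ‖d‖ := by
        rw [himd, abs_mul, abs_of_pos hnpos]
        exact mul_le_mul_of_nonneg_left (abs_im_le_norm _) hnpos.le
      linarith
    set t := |x0.im| / n with ht
    have ht0 : 0 ≤ t := by positivity
    have htn : |x0.im| = n * t := by rw [ht]; field_simp
    have him0'' : |(x0 / n).im| = t := by
      rw [himag0, abs_div, abs_of_pos hnpos]
    rw [him0''] at h5
    have h9 : |d.re| ≤ 2 / 999 * t + ‖d‖ / 999 := by
      rw [htn] at h7 h8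
      have h10 : n * |d.re| ≤ n * (2 / 999 * t + ‖d‖ / 999) := by
        have e : (n : ℝ) * (2 / 999 * t + ‖d‖ / 999) = (n * t + (n * t + n * ‖d‖)) / 999 := by ring
        rw [e]
        linarith
      exact le_of_mul_le_mul_left h10 hnpos
    have htpi : t ≤ 315 / 100 := by
      rw [ht, div_le_iff₀ hnpos]
      have h4 : Real.pi * n ≤ 315 / 100 * n := mul_le_mul_of_nonneg_right (by linarith) hnpos.le
      linarith
    have hred2 : |d.re| ≤ 8 / 1000 := by
      have h10 := Complex.norm_le_abs_re_add_abs_im d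
      linarith
    have h10 : Real.exp (max 0 d.re) ≤ 101 / 100 := by
      have h11 : max 0 d.re ≤ 8 / 1000 := max_le (by norm_num) ((le_abs_self _).trans hred2)
      have h7 := Real.one_sub_le_exp_neg (8 / 1000)
      rw [Real.exp_neg] at h7
      have h8 : 0 < Real.exp (8 / 1000) := Real.exp_pos _
      have h9 : Real.exp (8 / 1000) * (1 - 8 / 1000) ≤ 1 := by
        calc Real.exp (8 / 1000) * (1 - 8 / 1000) ≤ Real.exp (8 / 1000) *
            (Real.exp (8 / 1000))⁻¹ := mul_le_mul_of_nonneg_left h7 h8.le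
          _ = 1 := mul_inv_cancel₀ h8.ne'
      have h12 := Real.exp_le_exp.2 h11
      linarith
    have h11 : ‖exp d - 1‖ ≤ ‖d‖ * (101 / 100) :=
      h6.trans (mul_le_mul_of_nonneg_left h10 (norm_nonneg _))
    have h12 : 134 / 1000 * t ≤ ‖d‖ := by linarith
    have h13 := Complex.norm_le_abs_re_add_abs_im d
    have h14 : t / 20 ≤ |d.im| := by linarith
    rw [himd, abs_mul, abs_of_pos hnpos, htn]
    have h15 := mul_le_mul_of_nonneg_left h14 hnpos.le
    linarith

end Pool.Agent.Limb
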