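import Pool.Agent.Limb.Targets2
import Pool.Agent.Multibrot.Scales

/-!
PATH: the spine of the finger of period `m + 1`.
-/

set_option autoImplicit false

open Complex Filter Topology Set

namespace Pool.Agent.Limb

namespace PATH_

/-- Facts on the sequence of iterated logarithms. -/
structure Tw (n : ℕ) (y : ℕ → ℝ) (k : ℕ) : Prop where
  big : ∀ i, i ≤ k → 1000 ≤ y i
  lg : ∀ i, i < k → y (i + 1) = Real.log (y i)
  drop : ∀ i, i < k → 500 * y (i + 1) ≤ y i
  len : 500 * y 0 ≤ n

/-- The backward orbit. -/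
noncomputable def xs (n : ℕ) (t : ℝ) (lam : ℂ) : ℕ → ℂ
  | 0 => (t : ℂ) + (Real.pi : ℝ) * I
  | i + 1 => log (Multibrot.E n (xs n t lam i - lam))

section orbit

variable {n k : ℕ} {y : ℕ → ℝ} {t : ℝ}

lemma Tw.anti (T : Tw n y k) : ∀ i j, i ≤ j → j ≤ k → y j ≤ y i := by
  intro i j hij
  induction hij with
  | refl => intro _; exact le_rfl
  | @step j _ ih =>
    intro hj
    have h1 := ih (by omega)
    have h2 := T.drop j (by omega)
    have h3 := T.big (j + 1) hj
    have : y (j + 1) ≤ y j := by linarith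
    exact this.trans h1

lemma Tw.le_n (T : Tw n y k) {i : ℕ} (hi : i ≤ k) : 500 * y i ≤ n := by
  have h1 := T.len
  have h2 := T.anti 0 i (by omega) hi
  linarith

lemma Tw.n_pos (T : Tw n y k) : 0 < n := by
  have h1 := T.len
  have h2 := T.big 0 (by omega)
  have : (0 : ℝ) < n := by linarith
  exact_mod_cast this

lemma Tw.small (T : Tw n y k) {i : ℕ} (hi : i < k) {lam : ℂ}
    (hlam : ‖lam - (y k : ℝ)‖ ≤ 1 / 2) {x : ℂ} (hx : ‖x - (y i : ℝ)‖ ≤ 4) :
    ‖(x - lam) - (y i : ℝ)‖ ≤ y i / 100 := by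
  have h1 := T.big k le_rfl
  have h2 := T.drop i hi
  have h3 := T.anti (i + 1) k (by omega) le_rfl
  have h4 := T.big (i + 1) (by omega)
  have hl : ‖lam‖ ≤ y k + 1 / 2 := by
    have : lam = (lam - (y k : ℝ)) + (y k : ℝ) := by ring
    rw [this]
    refine (norm_add_le _ _).trans ?_
    rw [Complex.norm_real, Real.norm_eq_abs, abs_of_nonneg (by linarith)]
    linarith
  have e : (x - lam) - ((y i : ℝ) : ℂ) = (x - (y i : ℝ)) - lam := by ring
  rw [e]
  refine (norm_sub_le _ _).trans ?_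
  linarith

lemma xs_zero_near (n : ℕ) (lam : ℂ) (h0 : y 0 = t) : ‖xs n t lam 0 - (y 0 : ℝ)‖ ≤ 4 := by
  have e : xs n t lam 0 - ((y 0 : ℝ) : ℂ) = (Real.pi : ℝ) * I := by
    show ((t : ℝ) : ℂ) + (Real.pi : ℝ) * I - ((y 0 : ℝ) : ℂ) = _
    rw [h0]
    ring
  rw [e, norm_mul, Complex.norm_I, mul_one, Complex.norm_real, Real.norm_eq_abs,
    abs_of_pos Real.pi_pos]
  linarith [Real.pi_lt_d2]

lemma Tw.near (T : Tw n y k) (h0 : y 0 = t) {lam : ℂ} (hlam : ‖lam - (y k : ℝ)‖ ≤ 1 / 2) :
    ∀ i, i ≤ k → ‖xs n t lam i - (y i : ℝ)‖ ≤ 4 := by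
  intro i
  induction i with
  | zero => intro _; exact xs_zero_near n lam h0
  | succ i ih =>
    intro hi
    have h1 := T.small (by omega : i < k) hlam (ih (by omega))
    have hpos : 0 < y i := by linarith [T.big i (by omega)]
    have h2 := Multibrot.E_near hpos (T.le_n (by omega : i ≤ k)) h1
    have h3 := Multibrot.log_near hpos h2
    rw [T.lg i (by omega)]
    exact h3.trans (by norm_num)

lemma Tw.half (T : Tw n y k) (h0 : y 0 = t) {lam : ℂ} (hlam : ‖lam - (y k : ℝ)‖ ≤ 1 / 2)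
    {i : ℕ} (hi : i < k) : y i / 2 ≤ (Multibrot.E n (xs n t lam i - lam)).re := by
  have hpos : 0 < y i := by linarith [T.big i (by omega)]
  exact Multibrot.re_ge hpos (Multibrot.E_near hpos (T.le_n hi.le)
    (T.small hi hlam (T.near h0 hlam i hi.le)))

lemma Tw.near' (T : Tw n y k) (h0 : y 0 = t) {lam : ℂ} (hlam : ‖lam - (y k : ℝ)‖ ≤ 1 / 2)
    {i : ℕ} (hi : i < k) : ‖xs n t lam (i + 1) - (y (i + 1) : ℝ)‖ ≤ 1 / 20 := by
  have hpos : 0 < y i := by linarith [T.big i (by omega)]
  rw [T.lg i hi]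
  exact Multibrot.log_near hpos (Multibrot.E_near hpos (T.le_n hi.le)
    (T.small hi hlam (T.near h0 hlam i hi.le)))

lemma Tw.re_le (T : Tw n y k) (h0 : y 0 = t) {lam : ℂ} (hlam : ‖lam - (y k : ℝ)‖ ≤ 1 / 2)
    {i : ℕ} (hi : i < k) : (xs n t lam i - lam).re ≤ n / 2 := by
  have h1 := T.small hi hlam (T.near h0 hlam i hi.le)
  have h2 := T.le_n hi.le
  have h3 := (Complex.re_le_norm ((xs n t lam i - lam) - (y i : ℝ))).trans h1
  rw [Complex.sub_re, Complex.ofReal_re] at h3
  have h4 := T.big i (by omega)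
  linarith

end orbit

/-- Joint Lipschitz bound. -/
lemma lip {n k : ℕ} {y y' : ℕ → ℝ} {t t' : ℝ} (T : Tw n y k) (T' : Tw n y' k)
    (h0 : y 0 = t) (h0' : y' 0 = t') {lam mu : ℂ} (hlam : ‖lam - (y k : ℝ)‖ ≤ 1 / 2)
    (hmu : ‖mu - (y' k : ℝ)‖ ≤ 1 / 2) :
    ∀ i, i ≤ k → ‖xs n t lam i - xs n t' mu i‖ ≤ |t - t'| + 1 / 2 * ‖lam - mu‖ := by
  have hn := T.n_pos
  have hA := abs_nonneg (t - t')
  have hB := norm_nonneg (lam - mu)
  intro i
  induction i with
  | zero =>
    intro _
    have : xs n t lam 0 - xs n t' mu 0 = ((t - t' : ℝ) : ℂ) := by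
      show ((t : ℂ) + (Real.pi : ℝ) * I) - ((t' : ℂ) + (Real.pi : ℝ) * I) = _
      push_cast
      ring
    rw [this, Complex.norm_real, Real.norm_eq_abs]
    linarith
  | succ i ih =>
    intro hi
    have hp := T.big i (by omega)
    have hp' := T'.big i (by omega)
    have h1 := Multibrot.log_lip (by norm_num : (0 : ℝ) < 500)
      (z := Multibrot.E n (xs n t lam i - lam)) (z' := Multibrot.E n (xs n t' mu i - mu))
      (by have := T.half h0 hlam (by omega : i < k); linarith)
      (by have := T'.half h0' hmu (by omega : i < k); linarith)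
    have h2 := Multibrot.E_lip hn (T.re_le h0 hlam (by omega : i < k))
      (T'.re_le h0' hmu (by omega : i < k))
    have h3 : ‖(xs n t lam i - lam) - (xs n t' mu i - mu)‖ ≤ |t - t'| + 3 / 2 * ‖lam - mu‖ := by
      have e : (xs n t lam i - lam) - (xs n t' mu i - mu)
          = (xs n t lam i - xs n t' mu i) - (lam - mu) := by
        ring
      rw [e]
      refine (norm_sub_le _ _).trans ?_
      linarith [ih (by omega)]
    refine h1.trans ?_
    rw [div_le_iff₀ (by norm_num)]
    nlinarith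

/-- The fixed point. -/
lemma Tw.fixed {n k : ℕ} {y : ℕ → ℝ} {t : ℝ} (T : Tw n y k) (h0 : y 0 = t) (hk : 1 ≤ k) :
    ∃ lam : ℂ, ‖lam - (y k : ℝ)‖ ≤ 1 / 20 ∧ xs n t lam k = lam := by
  set K : Set ℂ := Metric.closedBall ((y k : ℝ) : ℂ) (1 / 2) with hK
  have hmem : ∀ z, z ∈ K ↔ ‖z - (y k : ℝ)‖ ≤ 1 / 2 := fun z => by
    rw [hK, Metric.mem_closedBall, dist_eq_norm]
  obtain ⟨j, rfl⟩ : ∃ j, k = j + 1 := ⟨k - 1, by omega⟩
  have hmaps : Set.MapsTo (fun lam => xs n t lam (j + 1)) K K := by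
    intro z hz
    rw [hmem] at hz ⊢
    exact (T.near' h0 hz (by omega : j < j + 1)).trans (by norm_num)
  have hcontr : ContractingWith (1 / 2) (hmaps.restrict (fun lam => xs n t lam (j + 1)) K K) := by
    refine ⟨by norm_num, LipschitzWith.of_dist_le_mul ?_⟩
    rintro ⟨x, hx⟩ ⟨z, hz⟩
    have := lip T T h0 h0 ((hmem x).1 hx) ((hmem z).1 hz) (j + 1) le_rfl
    rw [Subtype.dist_eq, Subtype.dist_eq, dist_eq_norm, dist_eq_norm]
    simpa using this
  have h0' : ((y (j + 1) : ℝ) : ℂ) ∈ K := by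
    rw [hmem]
    simp
  obtain ⟨z, hz, hfix, -⟩ := hcontr.exists_fixedPoint' Metric.isClosed_closedBall.isComplete hmaps h0'
    (edist_ne_top _ _)
  have hfix' : xs n t z (j + 1) = z := hfix
  refine ⟨z, ?_, hfix'⟩
  have := T.near' h0 ((hmem z).1 hz) (by omega : j < j + 1)
  rw [hfix'] at this
  exact this

/-- The orbit of the critical value. -/
lemma orbit_eq {n k : ℕ} {y : ℕ → ℝ} {t : ℝ} (T : Tw n y k) (h0 : y 0 = t)
    {lam : ℂ} (hlam : ‖lam - (y k : ℝ)‖ ≤ 1 / 2) (hfix : xs n t lam k = lam) :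
    ∀ i, i ≤ k → zz n lam (i + 1) = exp (xs n t lam (k - i)) := by
  have hn := T.n_pos
  have hnc : (n : ℂ) ≠ 0 := by exact_mod_cast hn.ne'
  intro i
  induction i with
  | zero =>
    intro _
    rw [Nat.sub_zero, hfix]
    unfold zz E
    simp
  | succ i ih =>
    intro hi
    have ih' := ih (by omega)
    obtain ⟨j, hj⟩ : ∃ j, k - i = j + 1 := ⟨k - i - 1, by omega⟩
    have hj' : k - (i + 1) = j := by omega
    rw [hj'] 
    rw [hj] at ih'
    have hne : Multibrot.E n (xs n t lam j - lam) ≠ 0 := by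
      intro h
      have h1 := T.half h0 hlam (by omega : j < k)
      rw [h, Complex.zero_re] at h1
      have := T.big j (by omega)
      linarith
    have e1 : zz n lam (i + 1) = n * (exp ((xs n t lam j - lam) / n) - 1) := by
      rw [ih']
      show exp (log (Multibrot.E n (xs n t lam j - lam))) = _
      rw [exp_log hne]
      rfl
    have e2 : zz n lam (i + 1 + 1) = E n lam (zz n lam (i + 1)) :=
      Function.iterate_succ_apply' _ _ _
    rw [e2, e1]
    unfold E
    have e3 : 1 + (n : ℂ) * (exp ((xs n t lam j - lam) / n) - 1) / n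
        = exp ((xs n t lam j - lam) / n) := by
      field_simp
      ring
    rw [e3, ← exp_nat_mul, ← exp_add]
    congr 1
    field_simp
    ring

/-! ### iterated logarithms of `t` -/

lemma logiter_ge {t : ℝ} {k : ℕ} {C : ℝ} (h : Real.exp^[k] C ≤ t) :
    ∀ i, i ≤ k → Real.exp^[k - i] C ≤ Real.log^[i] t := by
  intro i
  induction i with
  | zero => intro _; exact h
  | succ i ih =>
    intro hi
    have h1 := ih (by omega)
    have e : k - i = (k - (i + 1)) + 1 := by omega
    rw [e, Function.iterate_succ_apply'] at h1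
    rw [Function.iterate_succ_apply', Real.le_log_iff_exp_le ((Real.exp_pos _).trans_le h1)]
    exact h1

lemma tw {n k : ℕ} {t : ℝ} (h : Real.exp^[k] 1000 ≤ t) (hn : 500 * t ≤ n) :
    Tw n (fun i => Real.log^[i] t) k := by
  have h1 : ∀ i, i ≤ k → 1000 ≤ Real.log^[i] t := fun i hi =>
    (Multibrot.le_exp_iter 1000 _).trans (logiter_ge h i hi)
  refine ⟨h1, fun i _ => Function.iterate_succ_apply' _ _ _, fun i hi => ?_, hn⟩
  have h2 := h1 i (by omega)
  have h3 := h1 (i + 1) (by omega)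
  have h4 : Real.exp (Real.log^[i + 1] t) = Real.log^[i] t := by
    rw [Function.iterate_succ_apply', Real.exp_log (by linarith)]
  have h5 := Real.quadratic_le_exp_of_nonneg (show 0 ≤ Real.log^[i + 1] t by linarith)
  show 500 * Real.log^[i + 1] t ≤ Real.log^[i] t
  rw [← h4]
  nlinarith

lemma abs_log_sub {u v : ℝ} (hu : 1 ≤ u) (hv : 1 ≤ v) : |Real.log u - Real.log v| ≤ |u - v| := by
  have key : ∀ a b : ℝ, 1 ≤ a → 1 ≤ b → Real.log a - Real.log b ≤ |a - b| := by
    intro a b ha hb
    rw [← Real.log_div (by linarith) (by linarith)]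
    have h1 := Real.log_le_sub_one_of_pos (show 0 < a / b by positivity)
    refine h1.trans ?_
    have h2 : a / b - 1 = (a - b) / b := by field_simp
    rw [h2, div_le_iff₀ (by linarith)]
    have h3 := le_abs_self (a - b)
    have h4 := abs_nonneg (a - b)
    nlinarith
  rw [abs_le]
  constructor
  · have := key v u hv hu
    rw [abs_sub_comm] at this
    linarith
  · exact key u v hu hv

lemma logiter_lip {k : ℕ} {t t' : ℝ} (h : Real.exp^[k] 1000 ≤ t) (h' : Real.exp^[k] 1000 ≤ t') :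
    ∀ i, i ≤ k → |Real.log^[i] t - Real.log^[i] t'| ≤ |t - t'| := by
  intro i
  induction i with
  | zero => intro _; exact le_rfl
  | succ i ih =>
    intro hi
    have h1 := (Multibrot.le_exp_iter 1000 _).trans (logiter_ge h i (by omega))
    have h2 := (Multibrot.le_exp_iter 1000 _).trans (logiter_ge h' i (by omega))
    rw [Function.iterate_succ_apply', Function.iterate_succ_apply']
    exact (abs_log_sub (by linarith) (by linarith)).trans (ih (by omega))

lemma logiter_sub_one {T : ℝ} {k : ℕ} (h : Real.exp^[k] 4000 ≤ T) :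
    ∀ i, i ≤ k → Real.log^[i] T - 1 ≤ Real.log^[i] (T - 1) := by
  intro i
  induction i with
  | zero => intro _; exact le_rfl
  | succ i ih =>
    intro hi
    have h1 := (Multibrot.le_exp_iter 4000 _).trans (logiter_ge h i (by omega))
    have h2 := ih (by omega)
    rw [Function.iterate_succ_apply', Function.iterate_succ_apply']
    set u := Real.log^[i] T with hu
    have h3 : Real.log (u - 1) ≤ Real.log (Real.log^[i] (T - 1)) :=
      Real.log_le_log (by linarith) h2
    refine le_trans ?_ h3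
    rw [Real.le_log_iff_exp_le (by linarith), Real.exp_sub, Real.exp_log (by linarith),
      div_le_iff₀ (Real.exp_pos 1)]
    have h4 := Real.add_one_le_exp (1 : ℝ)
    nlinarith

lemma exp_iter_add_one (k : ℕ) : Real.exp^[k] 1000 + 1 ≤ Real.exp^[k] 4000 := by
  induction k with
  | zero => norm_num
  | succ k ih =>
    rw [Function.iterate_succ_apply', Function.iterate_succ_apply']
    have h1 : Real.exp (Real.exp^[k] 1000 + 1) ≤ Real.exp (Real.exp^[k] 4000) :=
      Real.exp_le_exp.2 ih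
    rw [Real.exp_add] at h1
    have h2 := Real.add_one_le_exp (1 : ℝ)
    have h3 : 1 ≤ Real.exp (Real.exp^[k] 1000) := by
      apply Real.one_le_exp
      exact le_trans (by norm_num) (Multibrot.le_exp_iter 1000 k)
    nlinarith

/-- All requirements at one parameter, `m = k + 1`. -/
lemma low_of {n k : ℕ} {t : ℝ} (ht : Real.exp^[k] 1000 ≤ t) (htn : 500 * t ≤ n)
    (hn20 : (10 : ℝ) ^ 20 ≤ n) {lam : ℂ}
    (hz : ∀ i, i ≤ k → zz n lam (i + 1) = exp (xs n t lam (k - i)))
    (hx0 : xs n t lam 0 = (t : ℂ) + (Real.pi : ℝ) * I)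
    (hx : ∀ i, 1 ≤ i → i ≤ k → ‖xs n t lam i - ((Real.log^[i] t : ℝ) : ℂ)‖ ≤ 1 / 20) :
    Low n (k + 1) lam ∧ zz n lam (k + 1) = -(Real.exp t : ℝ) := by
  have T := tw ht htn
  have hre : ∀ i, i ≤ k → Real.log^[i] t - 1 / 20 ≤ (xs n t lam i).re ∧
      (xs n t lam i).re ≤ Real.log^[i] t + 1 / 20 := by
    intro i hi
    rcases Nat.eq_zero_or_pos i with rfl | hpos
    · rw [hx0]
      simp
    · have h1 := (Complex.abs_re_le_norm _).trans (hx i hpos hi)
      rw [Complex.sub_re, Complex.ofReal_re, abs_le] at h1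
      constructor <;> linarith [h1.1, h1.2]
  have hnorm : ∀ i, i ≤ k → ‖zz n lam (i + 1)‖ = Real.exp (xs n t lam (k - i)).re := by
    intro i hi
    rw [hz i hi, Complex.norm_exp]
  refine ⟨⟨hn20, by omega, ?_, ?_, ?_⟩, ?_⟩
  · have h1 := hnorm 0 (by omega)
    have h2 := (hre k le_rfl).1
    have h3 : (1000 : ℝ) ≤ Real.log^[k] t := T.big k le_rfl
    rw [h1, Nat.sub_zero]
    have h4 : (200 : ℝ) ≤ (xs n t lam k).re := by linarith
    have h5 : (10 : ℝ) ^ 8 ≤ Real.exp 200 := by
      have h6 : Real.exp 200 = Real.exp 20 ^ 10 := by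
        rw [← Real.exp_nat_mul]
        norm_num
      rw [h6]
      have h7 := Real.add_one_le_exp (20 : ℝ)
      calc (10 : ℝ) ^ 8 ≤ (21 : ℝ) ^ 10 := by norm_num
        _ ≤ Real.exp 20 ^ 10 := pow_le_pow_left₀ (by norm_num) (by linarith) 10
    exact h5.trans (Real.exp_le_exp.2 h4)
  · intro i hi hik
    obtain ⟨j, rfl⟩ : ∃ j, i = j + 1 := ⟨i - 1, by omega⟩
    obtain ⟨l, hl⟩ : ∃ l, k - j = l + 1 := ⟨k - j - 1, by omega⟩
    have hl' : k - (j + 1) = l := by omega
    rw [hnorm j (by omega), hnorm (j + 1) (by omega), hl, hl']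
    have h1 := (hre (l + 1) (by omega)).2
    have h2 := (hre l (by omega)).1
    have h3 : 500 * Real.log^[l + 1] t ≤ Real.log^[l] t := T.drop l (by omega)
    have h4 : (1000 : ℝ) ≤ Real.log^[l + 1] t := T.big (l + 1) (by omega)
    have h5 : (xs n t lam (l + 1)).re + 1 ≤ (xs n t lam l).re := by linarith
    have h6 := Real.exp_le_exp.2 h5
    rw [Real.exp_add] at h6
    have h7 := Real.add_one_le_exp (1 : ℝ)
    have h8 := Real.exp_pos (xs n t lam (l + 1)).re
    nlinarith
  · intro i hi hik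
    obtain ⟨j, rfl⟩ : ∃ j, i = j + 1 := ⟨i - 1, by omega⟩
    rw [hz j (by omega), Complex.exp_re]
    have h1 := hx (k - j) (by omega) (by omega)
    have h2 := (Complex.abs_im_le_norm _).trans h1
    rw [Complex.sub_im, Complex.ofReal_im, sub_zero, abs_le] at h2
    have h3 : 0 ≤ Real.cos (xs n t lam (k - j)).im := by
      apply Real.cos_nonneg_of_neg_pi_div_two_le_of_le
      · have := Real.pi_gt_three
        linarith [h2.1]
      · have := Real.pi_gt_three
        linarith [h2.2]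
    exact mul_nonneg (Real.exp_pos _).le h3
  · rw [hz k le_rfl, Nat.sub_self, hx0, exp_add, Complex.exp_mul_I]
    simp

end PATH_

open PATH_ in
theorem p_PATH : T_PATH := by
  intro m n hm hn
  obtain ⟨k, rfl⟩ : ∃ k, m = k + 1 := ⟨m - 1, by omega⟩
  -- `log n`
  have hnpos : (0 : ℝ) < n := lt_of_lt_of_le (by
    rw [Function.iterate_succ_apply']
    exact Real.exp_pos _) hn
  have hlogn : Real.exp^[k] 4000 ≤ Real.log n := by
    rw [Real.le_log_iff_exp_le hnpos]
    rw [Function.iterate_succ_apply'] at hn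
    exact hn
  have hlog4 : (4000 : ℝ) ≤ Real.log n := (Multibrot.le_exp_iter 4000 k).trans hlogn
  have hexp : Real.exp (Real.log n) = n := Real.exp_log hnpos
  have hquad := Real.quadratic_le_exp_of_nonneg (show 0 ≤ Real.log n by linarith)
  rw [hexp] at hquad
  have h500 : 500 * Real.log n ≤ n := by nlinarith
  have hn20 : (10 : ℝ) ^ 20 ≤ n := by
    rw [← hexp]
    have h6 : Real.exp 4000 = Real.exp 100 ^ 40 := by
      rw [← Real.exp_nat_mul]
      norm_num
    have h7 := Real.add_one_le_exp (100 : ℝ)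
    calc (10 : ℝ) ^ 20 ≤ (101 : ℝ) ^ 40 := by norm_num
      _ ≤ Real.exp 100 ^ 40 := pow_le_pow_left₀ (by norm_num) (by linarith) 40
      _ = Real.exp 4000 := h6.symm
      _ ≤ Real.exp (Real.log n) := Real.exp_le_exp.2 hlog4
  set a : ℝ := Real.exp^[k] 1000 with ha
  set b : ℝ := Real.log n - 1 with hb
  have hab : a ≤ b := by
    have := exp_iter_add_one k
    linarith
  have ha1000 : 1000 ≤ a := Multibrot.le_exp_iter 1000 k
  have hlen : ∀ t ∈ Icc a b, 500 * t ≤ (n : ℝ) := by
    intro t ht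
    have : t ≤ Real.log n := by linarith [ht.2]
    linarith
  -- the last step on the real parts
  have hlast : Real.log^[k] b ≥ Real.log^[k + 1] n - 1 := by
    have h1 := logiter_sub_one hlogn k le_rfl
    have h2 : Real.log^[k + 1] (n : ℝ) = Real.log^[k] (Real.log n) := rfl
    rw [h2]
    exact h1
  have hbig : 4000 ≤ Real.log^[k + 1] (n : ℝ) := by
    have h2 : Real.log^[k + 1] (n : ℝ) = Real.log^[k] (Real.log n) := rfl
    rw [h2]
    have h3 := logiter_ge hlogn k le_rfl
    rw [Nat.sub_self] at h3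
    exact h3
  have hloga : Real.log^[k] a = 1000 := by
    rw [ha]
    have : ∀ j, Real.log^[j] (Real.exp^[j] 1000) = 1000 := by
      intro j
      induction j with
      | zero => rfl
      | succ j ih => rw [Function.iterate_succ_apply, Function.iterate_succ_apply',
          Real.log_exp, ih]
    exact this k
  rcases Nat.eq_zero_or_pos k with hk | hk
  · subst hk
    refine ⟨fun t => (t : ℂ) + (Real.pi : ℝ) * I, a, b, hab, ?_, ?_, ?_⟩
    · exact (Complex.continuous_ofReal.add continuous_const).continuousOn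
    · intro t ht
      have h1 : (1000 : ℝ) ≤ t := ha1000.trans ht.1
      obtain ⟨hl, hz⟩ := low_of (k := 0) (t := t) ht.1 (hlen t ht) hn20
        (lam := (t : ℂ) + (Real.pi : ℝ) * I)
        (fun i hi => by
          have : i = 0 := by omega
          subst this
          rw [zz_one]
          rfl) rfl (fun i h1 h2 => by omega)
      exact ⟨hl, hz, by linarith, ht.2⟩
    · have e : ∀ t : ℝ, ((t : ℂ) + (Real.pi : ℝ) * I).re = t := by
        intro t
        simp
      show ((a : ℂ) + (Real.pi : ℝ) * I).re + _ ≤ ((b : ℂ) + (Real.pi : ℝ) * I).re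
      rw [e, e]
      have h1 : Real.log^[0] a = a := rfl
      have h2 : Real.log^[0] b = b := rfl
      rw [h1] at hloga
      rw [h2] at hlast
      linarith
  · have hex : ∀ t : ℝ, ∃ lam : ℂ, t ∈ Icc a b →
        ‖lam - ((Real.log^[k] t : ℝ) : ℂ)‖ ≤ 1 / 20 ∧ xs n t lam k = lam := by
      intro t
      by_cases ht : t ∈ Icc a b
      · obtain ⟨lam, h1, h2⟩ := (tw ht.1 (hlen t ht)).fixed (t := t) rfl hk
        exact ⟨lam, fun _ => ⟨h1, h2⟩⟩
      · exact ⟨0, fun h => absurd h ht⟩
    choose γ hγ using hex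
    refine ⟨γ, a, b, hab, ?_, ?_, ?_⟩
    · rw [Metric.continuousOn_iff]
      intro t ht ε hε
      refine ⟨min (ε / 3) (2 / 5), by positivity, fun t' ht' hd => ?_⟩
      rw [Real.dist_eq] at hd
      have hd1 : |t' - t| < ε / 3 := hd.trans_le (min_le_left _ _)
      have hd2 : |t' - t| < 2 / 5 := hd.trans_le (min_le_right _ _)
      obtain ⟨g1, g2⟩ := hγ t ht
      obtain ⟨g1', g2'⟩ := hγ t' ht'
      have T := tw ht.1 (hlen t ht)
      have T' := tw ht'.1 (hlen t' ht')
      have hY := logiter_lip ht'.1 ht.1 k le_rfl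
      -- the fixed point of `t` lies in the ball of `t'`
      have hball : ‖γ t - ((Real.log^[k] t' : ℝ) : ℂ)‖ ≤ 1 / 2 := by
        have e : γ t - ((Real.log^[k] t' : ℝ) : ℂ) = (γ t - ((Real.log^[k] t : ℝ) : ℂ))
            - ((Real.log^[k] t' - Real.log^[k] t : ℝ) : ℂ) := by
          push_cast
          ring
        rw [e]
        refine (norm_sub_le _ _).trans ?_
        rw [Complex.norm_real, Real.norm_eq_abs]
        linarith
      have hl1 := lip T' T' rfl rfl (t := t') (t' := t') (g1'.trans (by norm_num)) hball k le_rfl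
      have hl2 := lip T' T rfl rfl (t := t') (t' := t) hball (g1.trans (by norm_num)) k le_rfl
      rw [g2'] at hl1
      rw [g2, sub_self, norm_zero] at hl2
      rw [sub_self, abs_zero] at hl1
      rw [dist_eq_norm]
      have e : γ t' - γ t = (γ t' - xs n t' (γ t) k) + (xs n t' (γ t) k - γ t) := by ring
      have h3 : ‖γ t' - γ t‖ ≤ ‖γ t' - xs n t' (γ t) k‖ + ‖xs n t' (γ t) k - γ t‖ := by
        rw [e]
        exact norm_add_le _ _
      linarith
    · intro t ht
      obtain ⟨g1, g2⟩ := hγ t ht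
      have T := tw ht.1 (hlen t ht)
      obtain ⟨hl, hz⟩ := low_of (k := k) (t := t) ht.1 (hlen t ht) hn20 (lam := γ t)
        (orbit_eq T rfl (g1.trans (by norm_num)) g2) rfl
        (fun i h1 h2 => by
          obtain ⟨j, rfl⟩ : ∃ j, i = j + 1 := ⟨i - 1, by omega⟩
          exact T.near' rfl (g1.trans (by norm_num)) (by omega : j < k))
      exact ⟨hl, hz, by linarith [ht.1], ht.2⟩
    · obtain ⟨ga, -⟩ := hγ a ⟨le_rfl, hab⟩
      obtain ⟨gb, -⟩ := hγ b ⟨hab, le_rfl⟩
      have h1 := (Complex.abs_re_le_norm _).trans ga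
      have h2 := (Complex.abs_re_le_norm _).trans gb
      rw [Complex.sub_re, Complex.ofReal_re, abs_le] at h1 h2
      rw [hloga] at h1
      linarith [h1.1, h1.2, h2.1, h2.2]

end Pool.Agent.Limb
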