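import Pool.Agent.Limb.Targets

/-!
# LIMB: the function phi
-/

set_option autoImplicit false

open Complex Filter Topology Set
open Pool.Agent.Multibrot

namespace Pool.Agent.Limb

namespace PHI_

/-- The integral of `exp (t v)`. -/
lemma int_exp {v : ℂ} (hv : v ≠ 0) :
    ∫ t in (0 : ℝ)..1, exp (v * t) = (exp v - 1) / v := by
  have := integral_exp_mul_complex (a := 0) (b := 1) hv
  rw [this]
  simp

/-- Real part of a rotated integral. -/
lemma re_int (w v : ℂ) :
    (w * ∫ t in (0 : ℝ)..1, exp (v * t)).re = ∫ t in (0 : ℝ)..1, (w * exp (v * t)).re := by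
  have hc : Continuous (fun t : ℝ => w * exp (v * t)) := by fun_prop
  rw [← intervalIntegral.integral_const_mul]
  have := (Complex.reCLM).intervalIntegral_comp_comm (μ := MeasureTheory.volume)
    (a := (0 : ℝ)) (b := 1) (f := fun t : ℝ => w * exp (v * t)) (hc.intervalIntegrable _ _)
  simp only [Complex.reCLM_apply] at this
  rw [this]

/-- Imaginary part of a rotated integral. -/
lemma im_int (w v : ℂ) :
    (w * ∫ t in (0 : ℝ)..1, exp (v * t)).im = ∫ t in (0 : ℝ)..1, (w * exp (v * t)).im := by
  have hc : Continuous (fun t : ℝ => w * exp (v * t)) := by fun_prop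
  rw [← intervalIntegral.integral_const_mul]
  have := (Complex.imCLM).intervalIntegral_comp_comm (μ := MeasureTheory.volume)
    (a := (0 : ℝ)) (b := 1) (f := fun t : ℝ => w * exp (v * t)) (hc.intervalIntegrable _ _)
  simp only [Complex.imCLM_apply] at this
  rw [this]

/-- Rotated exponential. -/
lemma rot_eq (v : ℂ) (c t : ℝ) :
    exp (-(c * I)) * exp (v * t) = exp ((v.re * t : ℝ) + (v.im * t - c : ℝ) * I) := by
  rw [← Complex.exp_add]
  congr 1
  apply Complex.ext <;> simp
  ring

/-- The cone lemma, nonnegative imaginary part. -/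
lemma arg_nonneg {v : ℂ} (hv : v ≠ 0) (h0 : 0 ≤ v.im) (h1 : v.im < Real.pi) :
    0 ≤ ((exp v - 1) / v).arg ∧ ((exp v - 1) / v).arg ≤ v.im ∧ (exp v - 1) / v ≠ 0 := by
  have hint := int_exp hv
  set J : ℂ := (exp v - 1) / v with hJ
  have himJ : 0 ≤ J.im := by
    have h := im_int 1 v
    rw [one_mul, hint] at h
    rw [h]
    apply intervalIntegral.integral_nonneg zero_le_one
    intro t ht
    rw [one_mul, Complex.exp_im]
    have e1 : (v * (t : ℂ)).im = v.im * t := by simp
    rw [e1]
    apply mul_nonneg (Real.exp_pos _).le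
    apply Real.sin_nonneg_of_nonneg_of_le_pi
    · exact mul_nonneg h0 ht.1
    · have : v.im * t ≤ v.im * 1 := mul_le_mul_of_nonneg_left ht.2 h0
      linarith
  have himJ2 : (exp (-((v.im : ℝ) * I)) * J).im ≤ 0 := by
    have h := im_int (exp (-((v.im : ℝ) * I))) v
    rw [hint] at h
    rw [h]
    have h2 : 0 ≤ ∫ t in (0 : ℝ)..1, -(exp (-((v.im : ℝ) * I)) * exp (v * t)).im := by
      apply intervalIntegral.integral_nonneg zero_le_one
      intro t ht
      rw [rot_eq, Complex.exp_im]
      have e1 : ((v.re * t : ℝ) + (v.im * t - v.im : ℝ) * I : ℂ).im = v.im * t - v.im := by simp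
      rw [e1]
      have : Real.sin (v.im * t - v.im) ≤ 0 := by
        apply Real.sin_nonpos_of_nonpos_of_neg_pi_le
        · nlinarith [ht.2]
        · nlinarith [ht.1, mul_nonneg h0 ht.1]
      nlinarith [Real.exp_pos ((v.re * t : ℝ) + (v.im * t - v.im : ℝ) * I : ℂ).re]
    rw [intervalIntegral.integral_neg] at h2
    linarith
  have hre : 0 < (exp (-((v.im / 2 : ℝ) * I)) * J).re := by
    have h := re_int (exp (-((v.im / 2 : ℝ) * I))) v
    rw [hint] at h
    rw [h]
    apply intervalIntegral.intervalIntegral_pos_of_pos_on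
    · apply Continuous.intervalIntegrable
      fun_prop
    · intro t ht
      rw [rot_eq, Complex.exp_re]
      have e1 : ((v.re * t : ℝ) + (v.im * t - v.im / 2 : ℝ) * I : ℂ).im
          = v.im * t - v.im / 2 := by simp
      rw [e1]
      apply mul_pos (Real.exp_pos _)
      apply Real.cos_pos_of_mem_Ioo
      constructor
      · nlinarith [ht.1, mul_nonneg h0 ht.1.le, Real.pi_pos]
      · nlinarith [ht.2, mul_nonneg h0 (sub_nonneg.2 ht.2.le), Real.pi_pos]
    · exact zero_lt_one
  have hJ0 : J ≠ 0 := by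
    rintro h
    rw [h] at hre
    simp at hre
  have hpolar : J = (‖J‖ : ℂ) * exp (J.arg * I) := (Complex.norm_mul_exp_arg_mul_I J).symm
  have hn : 0 < ‖J‖ := norm_pos_iff.2 hJ0
  have harg0 : 0 ≤ J.arg := Complex.arg_nonneg_iff.2 himJ
  have hargpi : J.arg ≤ Real.pi := Complex.arg_le_pi J
  have rotJ : ∀ c : ℝ, exp (-((c : ℝ) * I)) * J = (‖J‖ : ℂ) * exp ((J.arg - c : ℝ) * I) := by
    intro c
    conv_lhs => rw [hpolar]
    rw [mul_left_comm, ← Complex.exp_add]
    congr 2
    push_cast
    ring
  have hcos : 0 < Real.cos (J.arg - v.im / 2) := by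
    rw [rotJ (v.im / 2), Complex.re_ofReal_mul, Complex.exp_ofReal_mul_I_re] at hre
    exact (mul_pos_iff_of_pos_left hn).1 hre
  have hlt : J.arg - v.im / 2 < Real.pi / 2 := by
    by_contra hcon
    push Not at hcon
    have : Real.cos (J.arg - v.im / 2) ≤ 0 := by
      apply Real.cos_nonpos_of_pi_div_two_le_of_le hcon
      linarith
    linarith
  have hsin : Real.sin (J.arg - v.im) ≤ 0 := by
    rw [rotJ v.im, Complex.im_ofReal_mul, Complex.exp_ofReal_mul_I_im] at himJ2
    by_contra hcon
    push Not at hcon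
    have := mul_pos hn hcon
    linarith
  have hle : J.arg ≤ v.im := by
    by_contra hcon
    push Not at hcon
    have : 0 < Real.sin (J.arg - v.im) := by
      apply Real.sin_pos_of_pos_of_lt_pi
      · linarith
      · linarith
    linarith
  exact ⟨harg0, hle, hJ0⟩

/-- The cone lemma. -/
lemma arg_abs {v : ℂ} (hv : v ≠ 0) (h1 : |v.im| < Real.pi) :
    |((exp v - 1) / v).arg| ≤ |v.im| ∧ (exp v - 1) / v ≠ 0 := by
  rcases le_total 0 v.im with h0 | h0
  · obtain ⟨a, b, c⟩ := arg_nonneg hv h0 (by rwa [abs_of_nonneg h0] at h1)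
    exact ⟨by rwa [abs_of_nonneg a, abs_of_nonneg h0], c⟩
  · set v' : ℂ := (starRingEnd ℂ) v with hv'
    have hv'0 : v' ≠ 0 := by simpa [hv'] using hv
    have him : v'.im = -v.im := by simp [hv']
    have hconj : (exp v' - 1) / v' = (starRingEnd ℂ) ((exp v - 1) / v) := by
      simp [hv', Complex.exp_conj]
    obtain ⟨a, b, c⟩ := arg_nonneg hv'0 (by rw [him]; linarith)
      (by rw [him]; rwa [abs_of_nonpos h0] at h1)
    rw [hconj] at a b c
    have hc0 : (exp v - 1) / v ≠ 0 := by
      intro h
      rw [h] at c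
      simp at c
    refine ⟨?_, hc0⟩
    rw [Complex.arg_conj] at a b
    split_ifs at a b with hpi
    · exfalso
      rw [him] at b
      rw [abs_of_nonpos h0] at h1
      linarith
    · rw [him] at b
      rw [abs_of_nonpos h0, abs_le]
      constructor <;> linarith

/-- `phi` in terms of the exponential. -/
lemma phi_eq {y : ℂ} (hy : y ≠ 0) (h : 1 + y ∈ slitPlane) :
    log (1 + y) ≠ 0 ∧ phi y = ((exp (log (1 + y)) - 1) / log (1 + y))⁻¹ := by
  have h10 : 1 + y ≠ 0 := slitPlane_ne_zero h
  have hl : log (1 + y) ≠ 0 := by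
    intro h0
    have := Complex.exp_log h10
    rw [h0, Complex.exp_zero] at this
    apply hy
    linear_combination -this
  refine ⟨hl, ?_⟩
  rw [Complex.exp_log h10, phi, if_neg hy]
  rw [add_sub_cancel_left, inv_div]

end PHI_

open PHI_ in
/-- PHI. -/
theorem p_PHI : T_PHI := by
  refine ⟨?_, ?_, ?_⟩
  · -- differentiability
    have hopen : IsOpen {y : ℂ | 1 + y ∈ slitPlane} :=
      isOpen_slitPlane.preimage (by fun_prop)
    have h0 : (0 : ℂ) ∈ {y : ℂ | 1 + y ∈ slitPlane} := by simp
    have hd : DifferentiableOn ℂ (fun y : ℂ => log (1 + y)) {y : ℂ | 1 + y ∈ slitPlane} := by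
      intro y hy
      apply DifferentiableAt.differentiableWithinAt
      exact DifferentiableAt.clog (by fun_prop) hy
    have hds := (Complex.differentiableOn_dslope (hopen.mem_nhds h0)).2 hd
    have hphi : phi = dslope (fun y : ℂ => log (1 + y)) 0 := by
      funext y
      rcases eq_or_ne y 0 with rfl | hy
      · rw [dslope_same]
        have h1 : HasDerivAt (fun y : ℂ => log (1 + y)) ((1 : ℂ) / (1 + 0)) 0 := by
          have h2 : HasDerivAt (fun y : ℂ => 1 + y) 1 0 := by
            simpa using (hasDerivAt_id (0 : ℂ)).const_add 1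
          exact h2.clog (by simp)
        rw [h1.deriv]
        simp [phi]
      · rw [dslope_of_ne _ hy, phi, if_neg hy, slope_def_field]
        simp
    intro y hy
    rw [hphi]
    exact (hds y hy).differentiableAt (hopen.mem_nhds hy)
  · intro y hy
    rcases eq_or_ne y 0 with rfl | hy0
    · simp [phi]
    · obtain ⟨hl, he⟩ := phi_eq hy0 hy
      have him : (log (1 + y)).im = (1 + y).arg := Complex.log_im _
      have hlt : |(log (1 + y)).im| < Real.pi := by
        rw [him, abs_lt]
        refine ⟨Complex.neg_pi_lt_arg _, ?_⟩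
        exact lt_of_le_of_ne (Complex.arg_le_pi _) (Complex.mem_slitPlane_iff_arg.1 hy).1
      obtain ⟨ha, hne⟩ := arg_abs hl hlt
      set J := (exp (log (1 + y)) - 1) / log (1 + y) with hJ
      have hJpi : J.arg ≠ Real.pi := by
        intro h
        rw [h, abs_of_pos Real.pi_pos] at ha
        linarith
      have harg : (phi y).arg = -J.arg := by
        rw [he, Complex.arg_inv, if_neg hJpi]
      have hpne : phi y ≠ 0 := by
        rw [he]
        exact inv_ne_zero hne
      refine ⟨?_, ?_⟩
      · rw [Complex.mem_slitPlane_iff_arg]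
        refine ⟨?_, hpne⟩
        rw [harg]
        intro h
        have : |J.arg| = Real.pi := by
          rw [← abs_neg, h, abs_of_pos Real.pi_pos]
        linarith
      · rw [harg, abs_neg, ← him]
        exact ha
  · intro y hy
    rcases eq_or_ne y 0 with rfl | hy0
    · simp [phi]
    · have hyp : 0 < ‖y‖ := norm_pos_iff.2 hy0
      have hy1 : ‖y‖ < 1 := by linarith
      have h1 := Complex.norm_log_one_add_sub_self_le hy1
      have hw : phi y - 1 = (log (1 + y) - y) / y := by
        rw [phi, if_neg hy0, sub_div, div_self hy0]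
      have hinv : (1 - ‖y‖)⁻¹ ≤ 20 / 19 := by
        rw [inv_le_comm₀ (by linarith) (by norm_num)]
        linarith
      have hwn : ‖phi y - 1‖ ≤ 10 / 19 * ‖y‖ := by
        rw [hw, norm_div, div_le_iff₀ hyp]
        calc ‖log (1 + y) - y‖ ≤ ‖y‖ ^ 2 * (1 - ‖y‖)⁻¹ / 2 := h1
          _ ≤ ‖y‖ ^ 2 * (20 / 19) / 2 := by gcongr
          _ = 10 / 19 * ‖y‖ * ‖y‖ := by ring
      set w := phi y - 1 with hwdef
      have hw1 : ‖w‖ ≤ 1 / 38 := by linarith
      have h2 := Complex.norm_log_one_add_le (z := w) (by linarith)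
      have hpe : phi y = 1 + w := by rw [hwdef]; ring
      have hinv2 : (1 - ‖w‖)⁻¹ ≤ 38 / 37 := by
        rw [inv_le_comm₀ (by linarith) (by norm_num)]
        linarith
      rw [hpe]
      have hw0 : 0 ≤ ‖w‖ := norm_nonneg w
      calc ‖log (1 + w)‖ ≤ ‖w‖ ^ 2 * (1 - ‖w‖)⁻¹ / 2 + ‖w‖ := h2
        _ ≤ ‖w‖ ^ 2 * (38 / 37) / 2 + ‖w‖ := by gcongr
        _ ≤ 11 / 20 * ‖y‖ := by nlinarith

end Pool.Agent.Limb
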