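import Pool.Agent.Limb.Targets

/-!
# LIMB: entry PSI, the function `psi v = (exp v - 1) / v`
-/

set_option autoImplicit false

open Complex Filter Topology Set

namespace Pool.Agent.Limb

namespace PSI_

lemma psi_eq_dslope : psi = dslope exp 0 := by
  funext v
  by_cases h : v = 0
  · subst h
    simp [psi, dslope_same]
  · rw [dslope_of_ne _ h, slope_def_field]
    simp [psi, h]

lemma diff : Differentiable ℂ psi := by
  rw [psi_eq_dslope, ← differentiableOn_univ]
  exact (Complex.differentiableOn_dslope (by simp)).2 Complex.differentiable_exp.differentiableOn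

lemma psi_int (v : ℂ) : psi v = ∫ t in (0 : ℝ)..1, exp (v * (t : ℂ)) := by
  by_cases h : v = 0
  · subst h
    simp [psi]
  · rw [integral_exp_mul_complex h]
    simp [psi, h]

lemma re_int (v : ℂ) (φ : ℝ) : (psi v * exp (-(φ : ℂ) * I)).re =
    ∫ t in (0 : ℝ)..1, Real.exp (v.re * t) * Real.cos (v.im * t - φ) := by
  have h1 : psi v * exp (-(φ : ℂ) * I) =
      ∫ t in (0 : ℝ)..1, exp (v * (t : ℂ)) * exp (-(φ : ℂ) * I) := by
    rw [intervalIntegral.integral_mul_const, psi_int]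
  have hc : Continuous fun t : ℝ => exp (v * (t : ℂ)) * exp (-(φ : ℂ) * I) := by
    fun_prop
  have h2 : (∫ t in (0 : ℝ)..1, exp (v * (t : ℂ)) * exp (-(φ : ℂ) * I)).re =
      ∫ t in (0 : ℝ)..1, (exp (v * (t : ℂ)) * exp (-(φ : ℂ) * I)).re :=
    (Complex.reCLM.intervalIntegral_comp_comm (hc.intervalIntegrable 0 1)).symm
  rw [h1, h2]
  apply intervalIntegral.integral_congr
  intro t _
  simp only
  rw [← Complex.exp_add, Complex.exp_re]
  simp [sub_eq_add_neg]

lemma pos_re (v : ℂ) (hv : |v.im| < Real.pi) :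
    0 < (psi v * exp (-((v.im / 2 : ℝ) : ℂ) * I)).re := by
  rw [re_int]
  apply intervalIntegral.intervalIntegral_pos_of_pos_on
  · apply Continuous.intervalIntegrable
    fun_prop
  · intro t ht
    apply mul_pos (Real.exp_pos _)
    apply Real.cos_pos_of_mem_Ioo
    have h1 := abs_lt.1 hv
    constructor
    · nlinarith [ht.1, ht.2, abs_nonneg v.im, neg_abs_le v.im, le_abs_self v.im,
        mul_nonneg (abs_nonneg v.im) ht.1.le]
    · nlinarith [ht.1, ht.2, abs_nonneg v.im, neg_abs_le v.im, le_abs_self v.im]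
  · norm_num

lemma im_nonneg (v : ℂ) (h0 : 0 ≤ v.im) (hv : v.im < Real.pi) : 0 ≤ (psi v).im := by
  have h := re_int v (Real.pi / 2)
  have h1 : (psi v * exp (-((Real.pi / 2 : ℝ) : ℂ) * I)).re = (psi v).im := by
    have : exp (-((Real.pi / 2 : ℝ) : ℂ) * I) = -I := by
      rw [show -((Real.pi / 2 : ℝ) : ℂ) * I = ((-(Real.pi / 2) : ℝ) : ℂ) * I by push_cast; ring,
        Complex.exp_mul_I, ← Complex.ofReal_cos, ← Complex.ofReal_sin]
      simp
    rw [this]
    simp
  rw [← h1, h]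
  apply intervalIntegral.integral_nonneg (by norm_num)
  intro t ht
  apply mul_nonneg (Real.exp_pos _).le
  rw [Real.cos_sub_pi_div_two]
  apply Real.sin_nonneg_of_nonneg_of_le_pi
  · exact mul_nonneg h0 ht.1
  · nlinarith [ht.1, ht.2]

lemma rot_nonneg (v : ℂ) (h0 : 0 ≤ v.im) (hv : v.im < Real.pi) :
    0 ≤ (psi v * exp (-((v.im + Real.pi / 2 - Real.pi : ℝ) : ℂ) * I)).re := by
  rw [re_int]
  apply intervalIntegral.integral_nonneg (by norm_num)
  intro t ht
  apply mul_nonneg (Real.exp_pos _).le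
  apply Real.cos_nonneg_of_mem_Icc
  constructor
  · nlinarith [ht.1, ht.2]
  · nlinarith [ht.1, ht.2, mul_nonneg h0 (sub_nonneg.2 ht.2)]

/-- polar form of `Re (w exp(-i φ))` -/
lemma polar (w : ℂ) (φ : ℝ) : (w * exp (-(φ : ℂ) * I)).re = ‖w‖ * Real.cos (w.arg - φ) := by
  conv_lhs => rw [← Complex.norm_mul_exp_arg_mul_I w]
  rw [mul_assoc, ← Complex.exp_add, show (w.arg : ℂ) * I + -(φ : ℂ) * I =
    ((w.arg - φ : ℝ) : ℂ) * I by push_cast; ring, Complex.re_ofReal_mul,
    Complex.exp_ofReal_mul_I_re]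

lemma arg_nonneg_case (v : ℂ) (h0 : 0 ≤ v.im) (hv : v.im < Real.pi) :
    psi v ∈ slitPlane ∧ |(psi v).arg| ≤ v.im := by
  have hp := pos_re v (by rw [abs_of_nonneg h0]; exact hv)
  have hi := im_nonneg v h0 hv
  have hr := rot_nonneg v h0 hv
  set w := psi v with hw
  have hw0 : w ≠ 0 := by
    intro h
    rw [h] at hp
    simp at hp
  have hn : 0 < ‖w‖ := norm_pos_iff.2 hw0
  have ha0 : 0 ≤ w.arg := Complex.arg_nonneg_iff.2 hi
  have hapi : w.arg ≤ Real.pi := Complex.arg_le_pi w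
  rw [polar] at hp hr
  have hp' : 0 < Real.cos (w.arg - v.im / 2) := by
    rcases pos_and_pos_or_neg_and_neg_of_mul_pos hp with h | h
    · exact h.2
    · linarith [h.1]
  have hr' : 0 ≤ Real.cos (w.arg - (v.im + Real.pi / 2 - Real.pi)) := by
    by_contra h
    push Not at h
    linarith [mul_neg_of_pos_of_neg hn h]
  have hle : w.arg ≤ v.im := by
    by_contra h
    push Not at h
    have h1 : Real.cos (w.arg - (v.im + Real.pi / 2 - Real.pi)) =
        - Real.sin (w.arg - v.im) := by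
      rw [show w.arg - (v.im + Real.pi / 2 - Real.pi) = (w.arg - v.im) + Real.pi / 2 by ring,
        Real.cos_add_pi_div_two]
    rw [h1] at hr'
    rcases lt_or_eq_of_le (show w.arg - v.im ≤ Real.pi by linarith) with h2 | h2
    · have := Real.sin_pos_of_pos_of_lt_pi (sub_pos.2 h) h2
      linarith
    · have h3 : v.im = 0 := by linarith
      have h4 : w.arg = Real.pi := by linarith
      rw [h3, h4] at hp'
      simp at hp'
      linarith
  refine ⟨?_, ?_⟩
  · rw [Complex.mem_slitPlane_iff_arg]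
    exact ⟨by linarith [hle] |> fun h : w.arg < Real.pi => h.ne, hw0⟩
  · rw [abs_of_nonneg ha0]
    exact hle

lemma psi_conj (v : ℂ) : psi ((starRingEnd ℂ) v) = (starRingEnd ℂ) (psi v) := by
  by_cases h : v = 0
  · subst h
    simp [psi]
  · have h' : (starRingEnd ℂ) v ≠ 0 := by simpa using h
    simp only [psi, if_neg h, if_neg h']
    rw [Complex.exp_conj]
    simp

lemma arg_case (v : ℂ) (hv : |v.im| < Real.pi) :
    psi v ∈ slitPlane ∧ |(psi v).arg| ≤ |v.im| := by
  rcases le_total 0 v.im with h0 | h0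
  · rw [abs_of_nonneg h0] at hv ⊢
    exact arg_nonneg_case v h0 hv
  · have h := arg_nonneg_case ((starRingEnd ℂ) v) (by simpa using h0)
      (by rw [abs_of_nonpos h0] at hv; simpa using hv)
    rw [psi_conj] at h
    have hs : psi v ∈ slitPlane := by
      have h1 := h.1
      rw [Complex.mem_slitPlane_iff] at h1 ⊢
      simpa using h1
    refine ⟨hs, ?_⟩
    have h2 := h.2
    rw [Complex.arg_conj, if_neg (Complex.mem_slitPlane_iff_arg.1 hs).1, abs_neg] at h2
    rw [abs_of_nonpos h0]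
    simpa using h2

lemma norm_sub_one (v : ℂ) (hv : ‖v‖ ≤ 1 / 20) : ‖psi v - 1‖ ≤ 512 / 1000 * ‖v‖ := by
  by_cases h : v = 0
  · subst h
    simp [psi]
  have hn : 0 < ‖v‖ := norm_pos_iff.2 h
  have h1 := Complex.exp_bound (x := v) (by linarith) (n := 3) (by norm_num)
  have h2 : psi v - 1 = v / 2 + (exp v - ∑ m ∈ Finset.range 3, v ^ m / m.factorial) / v := by
    simp only [psi, if_neg h, Finset.sum_range_succ, Finset.sum_range_zero, Nat.factorial]
    field_simp
    push_cast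
    ring
  rw [h2]
  have h3 : ‖(exp v - ∑ m ∈ Finset.range 3, v ^ m / m.factorial) / v‖ ≤ 2 / 9 * ‖v‖ ^ 2 := by
    rw [norm_div, div_le_iff₀ hn]
    refine h1.trans (le_of_eq ?_)
    simp [Nat.factorial]
    ring
  have h4 : ‖v / 2‖ = ‖v‖ / 2 := by simp
  calc _ ≤ ‖v / 2‖ + ‖(exp v - ∑ m ∈ Finset.range 3, v ^ m / m.factorial) / v‖ := norm_add_le _ _
    _ ≤ ‖v‖ / 2 + 2 / 9 * ‖v‖ ^ 2 := by rw [h4]; linarith
    _ ≤ _ := by nlinarith

lemma log_bound (v : ℂ) (hv : ‖v‖ ≤ 1 / 20) : ‖log (psi v)‖ ≤ 11 / 20 * ‖v‖ := by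
  have h := norm_sub_one v hv
  set w := psi v - 1 with hw
  have hw1 : ‖w‖ ≤ 26 / 1000 := by nlinarith
  have h1 : psi v = 1 + w := by rw [hw]; ring
  rw [h1]
  have h2 := Complex.norm_log_one_add_le (z := w) (by linarith)
  refine h2.trans ?_
  have h3 : (1 - ‖w‖)⁻¹ ≤ 2 := by
    rw [inv_le_comm₀ (by linarith) (by norm_num)]
    norm_num
    linarith
  have h4 : ‖w‖ ^ 2 * (1 - ‖w‖)⁻¹ / 2 ≤ ‖w‖ ^ 2 := by
    nlinarith [sq_nonneg ‖w‖]
  nlinarith [norm_nonneg w, norm_nonneg v]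

lemma norm_psi (v : ℂ) : ‖psi v‖ ≤ Real.exp (max 0 v.re) := by
  rw [psi_int]
  have h := intervalIntegral.norm_integral_le_of_norm_le_const (a := (0 : ℝ)) (b := 1)
    (f := fun t : ℝ => exp (v * (t : ℂ))) (C := Real.exp (max 0 v.re)) (by
      intro t ht
      rw [Set.uIoc_of_le (by norm_num)] at ht
      rw [Complex.norm_exp]
      apply Real.exp_le_exp.2
      simp only [Complex.mul_re, Complex.ofReal_re, Complex.ofReal_im, mul_zero, sub_zero]
      rcases le_total 0 v.re with h0 | h0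
      · rw [max_eq_right h0]
        nlinarith [ht.1, ht.2]
      · rw [max_eq_left h0]
        nlinarith [ht.1, ht.2])
  simpa using h

end PSI_

/-- PSI. -/
theorem p_PSI : T_PSI :=
  ⟨PSI_.diff, PSI_.arg_case, PSI_.log_bound, PSI_.norm_psi⟩

end Pool.Agent.Limb
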