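import Pool.Agent.Limb.Targets

/-!
# LIMB: RAY, the rays in the `w`-plane
-/

set_option autoImplicit false

open Complex Filter Topology Set
open Pool.Agent.Multibrot

namespace Pool.Agent.Limb

namespace RAY_

lemma exp_L_sub {n : ℕ} (hn : 2 ≤ n) (L : ℂ) : exp (L - n * ell n L) = n / cc n L := by
  rw [n_ell hn, cc]
  have h : L - (ell n L + L - (Real.log n : ℝ)) = (Real.log n : ℝ) - ell n L := by ring
  rw [h, exp_sub, exp_log_nat hn]

lemma exp_xi_div {n : ℕ} (hn : 2 ≤ n) (Λ : ℂ → ℂ → ℂ) (L s : ℂ) :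
    exp (xi n Λ L s / n) = exp (Λ (cc n L) s) / cc n L := by
  have hn0 := natCast_ne hn
  rw [xi, mul_div_cancel_left₀ _ hn0, exp_sub]
  rfl

lemma item1 {n : ℕ} (hn : 2 ≤ n) {Λ : ℂ → ℂ → ℂ} (hΛ : IsExt n Λ) {L : ℂ} (hc : cc n L ∈ MM n)
    {s : ℂ} (hs : 0 < s.re) :
    exp (L + xi n Λ L s) = n * (exp (xi n Λ L (n * s) / n) - 1) := by
  have h1 : L + xi n Λ L s = (L - n * ell n L) + n * Λ (cc n L) s := by
    rw [xi]
    ring
  have hc0 := cc_ne n L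
  rw [h1, exp_add, exp_L_sub hn, hΛ.func _ hc s hs, exp_xi_div hn]
  field_simp

lemma item2 {n : ℕ} (hn : 2 ≤ n) (Λ : ℂ → ℂ → ℂ) (L s : ℂ) :
    n * (exp (xi n Λ L s / n) - 1) = n * (exp (Λ (cc n L) s) / cc n L - 1) := by
  rw [exp_xi_div hn]

lemma re_shift (n : ℕ) (s : ℂ) (r : ℝ) : (s + 2 * Real.pi * I * r / n).re = s.re := by
  have h : s + 2 * Real.pi * I * r / n = s + ((2 * Real.pi * r / n : ℝ) : ℂ) * I := by
    push_cast
    ring
  rw [h, add_re, re_ofReal_mul, I_re, mul_zero, add_zero]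

lemma rot_int {n : ℕ} {Λ : ℂ → ℂ → ℂ} (hΛ : IsExt n Λ) {c : ℂ} (hc : c ∈ MM n)
    {s : ℂ} (hs : 0 < s.re) (k : ℤ) :
    Λ c (s + 2 * Real.pi * I * k / n) = Λ c s + 2 * Real.pi * I * k / n := by
  have hre : ∀ k : ℤ, (s + 2 * Real.pi * I * k / n).re = s.re := by
    intro k
    have h := re_shift n s (k : ℝ)
    rw [ofReal_intCast] at h
    exact h
  induction k using Int.induction_on with
  | zero => simp
  | succ k ih =>
    have h1 := hΛ.rot c hc (s + 2 * Real.pi * I * ((k : ℤ) : ℂ) / n) (by rw [hre]; exact hs)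
    have e1 : s + 2 * Real.pi * I * (((k : ℤ) + 1 : ℤ) : ℂ) / n =
        s + 2 * Real.pi * I * ((k : ℤ) : ℂ) / n + 2 * Real.pi * I / n := by
      push_cast
      ring
    rw [e1, h1, ih]
    push_cast
    ring
  | pred k ih =>
    have h1 := hΛ.rot c hc (s + 2 * Real.pi * I * ((-(k : ℤ) - 1 : ℤ) : ℂ) / n)
      (by rw [hre]; exact hs)
    have e1 : s + 2 * Real.pi * I * ((-(k : ℤ) - 1 : ℤ) : ℂ) / n + 2 * Real.pi * I / n =
        s + 2 * Real.pi * I * ((-(k : ℤ) : ℤ) : ℂ) / n := by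
      push_cast
      ring
    rw [e1, ih] at h1
    have h2 : Λ c (s + 2 * Real.pi * I * ((-(k : ℤ) - 1 : ℤ) : ℂ) / n) =
        Λ c s + 2 * Real.pi * I * ((-(k : ℤ) : ℤ) : ℂ) / n - 2 * Real.pi * I / n := by
      rw [h1]
      ring
    rw [h2]
    push_cast
    ring

lemma item3 {n : ℕ} (hn : 2 ≤ n) {Λ : ℂ → ℂ → ℂ} (hΛ : IsExt n Λ) {L : ℂ} (hc : cc n L ∈ MM n)
    {s : ℂ} (k : ℤ) (hs : 0 < s.re) :
    xi n Λ L (s + 2 * Real.pi * I * k / n) = xi n Λ L s + 2 * Real.pi * I * k := by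
  have hn0 := natCast_ne hn
  rw [xi, xi, rot_int hΛ hc hs k]
  field_simp
  ring

lemma re_ray (t a : ℝ) : ((t : ℂ) + a * I).re = t := by simp

lemma item4 {n : ℕ} {Λ : ℂ → ℂ → ℂ} (hΛ : IsExt n Λ) {L : ℂ} (hc : cc n L ∈ MM n) (a : ℝ) :
    ContinuousOn (fun t : ℝ => xi n Λ L (t + a * I)) (Ioi 0) := by
  have h1 := (hΛ.diff _ hc).continuousOn
  have h2 : ContinuousOn (fun t : ℝ => Λ (cc n L) (t + a * I)) (Ioi 0) := by
    refine h1.comp (f := fun t : ℝ => (t : ℂ) + a * I) (by fun_prop) ?_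
    intro t ht
    show 0 < ((t : ℂ) + a * I).re
    rw [re_ray]
    exact ht
  exact continuousOn_const.mul (h2.sub continuousOn_const)

lemma item5 {n : ℕ} {Λ : ℂ → ℂ → ℂ} (hΛ : IsExt n Λ) {L : ℂ} (hc : cc n L ∈ MM n) (a : ℝ) :
    Tendsto (fun t : ℝ => xi n Λ L (t + a * I) - (n * (t + a * I) - n * ell n L)) atTop
      (𝓝 0) := by
  have h0 : Tendsto (fun t : ℝ => (n : ℝ) * Real.exp (-t)) atTop (𝓝 0) := by
    have := (Real.tendsto_exp_neg_atTop_nhds_zero).const_mul (n : ℝ)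
    rwa [mul_zero] at this
  refine squeeze_zero_norm' ?_ h0
  filter_upwards [eventually_ge_atTop 2] with t ht
  have h1 := hΛ.near _ hc (t + a * I) (by rw [re_ray]; exact ht)
  rw [re_ray] at h1
  have h2 : xi n Λ L (t + a * I) - (n * (t + a * I) - n * ell n L) =
      n * (Λ (cc n L) (t + a * I) - (t + a * I)) := by
    rw [xi]
    ring
  rw [h2, norm_mul, norm_natCast]
  exact mul_le_mul_of_nonneg_left h1 (Nat.cast_nonneg n)

lemma E_step {n : ℕ} (hn : 2 ≤ n) (L v : ℂ) : E n L (n * (exp (v / n) - 1)) = exp (L + v) := by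
  have hn0 := natCast_ne hn
  have h1 : 1 + n * (exp (v / n) - 1) / n = exp (v / n) := by
    field_simp
    ring
  have h2 : (n : ℂ) * (v / n) = v := by field_simp
  rw [E, h1, ← exp_nat_mul, h2, exp_add]

lemma per {n : ℕ} (hn : 2 ≤ n) {Λ : ℂ → ℂ → ℂ} (hΛ : IsExt n Λ) {L : ℂ} (hc : cc n L ∈ MM n)
    {s : ℂ} (k : ℤ) (hs : 0 < s.re) :
    exp (xi n Λ L (s + 2 * Real.pi * I * k) / n) = exp (xi n Λ L s / n) := by
  have hn0 := natCast_ne hn
  have h1 := item3 hn hΛ hc (k * n) hs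
  have e1 : s + 2 * Real.pi * I * ((k * n : ℤ) : ℂ) / n = s + 2 * Real.pi * I * k := by
    push_cast
    field_simp
  have e2 : (xi n Λ L s + 2 * Real.pi * I * ((k * n : ℤ) : ℂ)) / n =
      xi n Λ L s / n + k * (2 * Real.pi * I) := by
    push_cast
    field_simp
  rw [e1] at h1
  rw [h1, e2, exp_add, exp_int_mul_two_pi_mul_I, mul_one]

lemma item6 {n : ℕ} (hn : 2 ≤ n) {Λ : ℂ → ℂ → ℂ} (hΛ : IsExt n Λ) {L : ℂ} (hc : cc n L ∈ MM n)
    (p : ℕ) (θ t : ℝ) (ht : 0 < t) :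
    (E n L)^[p] (n * (exp (xi n Λ L (t + 2 * Real.pi * θ * I) / n) - 1)) =
      n * (exp (xi n Λ L ((n : ℝ) ^ p * t + 2 * Real.pi * ((n : ℝ) ^ p * θ) * I) / n) - 1) := by
  have hnr : (0 : ℝ) < n := by exact_mod_cast (by omega : 0 < n)
  induction p with
  | zero => simp
  | succ p ih =>
    have hre : 0 < (((n : ℝ) ^ p * t + 2 * Real.pi * ((n : ℝ) ^ p * θ) * I : ℂ)).re := by
      have e : (((n : ℝ) ^ p * t + 2 * Real.pi * ((n : ℝ) ^ p * θ) * I : ℂ)) =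
          (((n : ℝ) ^ p * t : ℝ) : ℂ) + ((2 * Real.pi * ((n : ℝ) ^ p * θ) : ℝ) : ℂ) * I := by
        push_cast
        ring
      rw [e, re_ray]
      positivity
    rw [Function.iterate_succ_apply', ih, E_step hn, item1 hn hΛ hc hre]
    have e : (n : ℂ) * (((n : ℝ) : ℂ) ^ p * t + 2 * Real.pi * (((n : ℝ) : ℂ) ^ p * θ) * I) =
        ((n : ℝ) : ℂ) ^ (p + 1) * t + 2 * Real.pi * (((n : ℝ) : ℂ) ^ (p + 1) * θ) * I := by
      push_cast
      ring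
    rw [e]

end RAY_

/-- RAY: the rays in the `w`-plane. -/
theorem p_RAY : T_RAY := by
  intro n Λ L hn hΛ hc
  refine ⟨fun s hs => RAY_.item1 hn hΛ hc hs, fun s => RAY_.item2 hn Λ L s,
    fun s k hs => RAY_.item3 hn hΛ hc k hs, RAY_.item4 hΛ hc, RAY_.item5 hΛ hc, ?_⟩
  intro p θ t k ht
  rw [RAY_.item6 hn hΛ hc p θ t ht]
  have hnr : (0 : ℝ) < n := by exact_mod_cast (by omega : 0 < n)
  have hre : 0 < (((n : ℝ) ^ p * t + 2 * Real.pi * ((n : ℝ) ^ p * θ) * I : ℂ)).re := by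
    have e : (((n : ℝ) ^ p * t + 2 * Real.pi * ((n : ℝ) ^ p * θ) * I : ℂ)) =
        (((n : ℝ) ^ p * t : ℝ) : ℂ) + ((2 * Real.pi * ((n : ℝ) ^ p * θ) : ℝ) : ℂ) * I := by
      push_cast
      ring
    rw [e, RAY_.re_ray]
    positivity
  have h1 := RAY_.per hn hΛ hc k hre
  have e : (((n : ℝ) : ℂ) ^ p * t + 2 * Real.pi * (((n : ℝ) : ℂ) ^ p * θ + k) * I) =
      ((n : ℝ) : ℂ) ^ p * t + 2 * Real.pi * (((n : ℝ) : ℂ) ^ p * θ) * I + 2 * Real.pi * I * k := by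
    ring
  rw [e, h1]

end Pool.Agent.Limb
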