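import Pool.Agent.Limb.Targets

/-!
# LIMB: REAL -- the multiplier is not a positive number
-/

set_option autoImplicit false

open Complex Filter Topology Set
open Pool.Agent.Multibrot

namespace Pool.Agent.Limb

namespace REAL_

lemma log_hi : Real.log (1016 / 1000) ≤ 1588 / 100000 := by
  have h := Real.abs_log_sub_add_sum_range_le (x := -(16 / 1000 : ℝ)) (by norm_num [abs_lt]) 2
  rw [abs_le] at h
  have h2 := h.2
  simp only [Finset.sum_range_succ, Finset.sum_range_zero] at h2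
  norm_num [abs_of_nonneg] at h2
  have h3 : (1016 / 1000 : ℝ) = 127 / 125 := by norm_num
  rw [h3]
  linarith

lemma log_lo : Real.log (984 / 1000) ≤ -(1612 / 100000) := by
  have h := Real.abs_log_sub_add_sum_range_le (x := (16 / 1000 : ℝ)) (by norm_num [abs_lt]) 2
  rw [abs_le] at h
  have h2 := h.2
  simp only [Finset.sum_range_succ, Finset.sum_range_zero] at h2
  norm_num [abs_of_nonneg] at h2
  have h3 : (984 / 1000 : ℝ) = 123 / 125 := by norm_num
  rw [h3]
  linarith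

/-- tangent line bound -/
lemma log_tangent {a r : ℝ} (ha : 0 < a) (hr : 0 < r) :
    Real.log r ≤ Real.log a + r / a - 1 := by
  have h1 : Real.log r = Real.log a + Real.log (r / a) := by
    rw [Real.log_div hr.ne' ha.ne']
    ring
  have h2 := Real.log_le_sub_one_of_pos (div_pos hr ha)
  linarith

lemma near_one {r : ℝ} (hr : 0 < r) (h : -(11 / 100000 : ℝ) ≤ Real.log r - r + 1) :
    |r - 1| ≤ 16 / 1000 := by
  rw [abs_le]
  constructor
  · by_contra hcon
    push Not at hcon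
    have h1 := log_tangent (a := 984 / 1000) (by norm_num) hr
    have h2 := log_lo
    have h3 : r / (984 / 1000) = r + r * (16 / 984) := by ring
    rw [h3] at h1
    linarith
  · by_contra hcon
    push Not at hcon
    have h1 := log_tangent (a := 1016 / 1000) (by norm_num) hr
    have h2 := log_hi
    have h3 : r / (1016 / 1000) = r - r * (16 / 1016) := by ring
    rw [h3] at h1
    linarith

lemma lt_two {r : ℝ} (hr : 0 < r) (h : -(10001 / 10000 : ℝ) ≤ Real.log r - 98 / 100 * r) :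
    r < 2 := by
  by_contra hcon
  push Not at hcon
  have h1 := log_tangent (a := 2) (by norm_num) hr
  have h2 := Real.log_two_lt_d9
  linarith

end REAL_

open REAL_ in
theorem p_REAL (h1 : T_WEST) (h2 : T_GTOP) (h3 : T_GDISC) (h4 : T_UI1) (h5 : T_MU) (h6 : T_MUL)
    (h7 : T_CUSPA) : T_REAL := by
  intro n j L x u k hT hNR hu0 hu heq hk
  have hn2 : 2 ≤ n := hT.toLow.two_le
  have hn0 : (n : ℂ) ≠ 0 := natCast_ne hn2
  have hnR : (10 : ℝ) ^ 20 ≤ n := hT.toLow.hn
  have hnpos : (0 : ℝ) < n := lt_of_lt_of_le (by norm_num) hnR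
  obtain ⟨⟨hX, hzj, hz1, hDD⟩, -, -, hWW, -, hre, -⟩ := h1 n j L x hT
  have hre' := hre hNR
  have hj : 1 ≤ j := hT.toLow.hj
  have hX8 : (8 : ℝ) * 10 ^ 7 ≤ ‖x‖ := by
    have : (2 : ℝ) ^ 1 ≤ 2 ^ j := pow_le_pow_right₀ (by norm_num) hj
    linarith
  have hXpos : 0 < ‖x‖ := by linarith
  have hXn := hT.norm_x_le
  -- openness of the domains
  have hTTo : IsOpen (TT x) := by
    apply IsOpen.inter
    · exact isOpen_lt continuous_const continuous_re
    · exact isOpen_lt (continuous_abs.comp continuous_im) continuous_const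
  have huT : u ∈ TT x := by
    constructor
    · have := (abs_le.1 (abs_re_le_norm u)).1
      show -(‖x‖ / 80) < u.re
      linarith
    · have := abs_im_le_norm u
      show |u.im| < ‖x‖ / 50
      linarith
  obtain ⟨-, -, -, -, -, ⟨hGd, hVd, -⟩, hsm⟩ := h2 n j L x u hT huT
  obtain ⟨hG, hS⟩ := hsm hu
  -- the cycle at `u`
  have hev : ∀ᶠ v in 𝓝 u, v * exp (GG n L j v) = DD n L j * W0 n L j v ∧
      (E n L)^[j] (W0 n L j v) = n * ((1 + zz n L j / n) * exp (v / n) - 1) := by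
    filter_upwards [hTTo.mem_nhds huT] with v hv
    obtain ⟨-, -, -, e1, e2, -, -⟩ := h2 n j L x v hT hv
    exact ⟨e1, e2⟩
  obtain ⟨hcyc, hfix, hder⟩ := h5 n j L u (GG n L j) hn2 hu0 hz1 hDD hGd hVd hev (heq.trans hWW)
  have hcr := hNR.crit hn2 hcyc
  have hzne := hNR.zz_ne hn2
  have hzne' : ∀ i, i ≤ j → 1 + zz n L i / n ≠ 0 := by
    intro i hi h0
    apply hzne i hi
    field_simp at h0
    linear_combination h0
  have hmul := h6 n j L (W0 n L j u) hn2 hcr hzne'
  obtain ⟨-, -, hsum⟩ := h4 n j L x u hT hu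
  rw [hsum, ← hWW, ← exp_add] at hmul
  -- the multiplier is a positive number
  set m : ℝ := Real.exp (WW n j L x + (1 - 1 / n) * SS n L j u).re with hm
  have hmpos : 0 < m := Real.exp_pos _
  have hn1 : ((1 : ℂ) - 1 / n) = ((1 - 1 / n : ℝ) : ℂ) := by push_cast; ring
  have hexp : exp (WW n j L x + (1 - 1 / n) * SS n L j u) = (m : ℂ) := by
    have him : (WW n j L x + (1 - 1 / n) * SS n L j u).im = 2 * Real.pi * k := by
      rw [add_im, hn1, im_ofReal_mul]
      exact hk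
    have e : WW n j L x + (1 - 1 / n) * SS n L j u =
        ((WW n j L x + (1 - 1 / n) * SS n L j u).re : ℂ) + k * (2 * Real.pi * I) := by
      apply Complex.ext
      · simp
      · rw [him]
        simp
        ring
    rw [e, exp_add, exp_int_mul_two_pi_mul_I, mul_one, hm, ofReal_exp]
  rw [hexp] at hmul
  have hNRu := hNR (j + 1) (by omega) le_rfl _ hfix
  rw [hmul] at hNRu hder
  have hm1 : 1 < m := by
    rwa [norm_real, Real.norm_of_nonneg hmpos.le] at hNRu
  -- `eta`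
  set η : ℂ := GG n L j u + (1 - 1 / n) * (SS n L j u - u) - u / n with hη
  have hmu : (m : ℂ) = u * exp η := by
    rw [← hexp, exp_add, ← heq, mul_assoc, ← exp_add]
    congr 2
    rw [hη]
    ring
  have hnle : 1 / (n : ℝ) ≤ 401 / 100 / ‖x‖ := by
    rw [div_le_div_iff₀ hnpos hXpos]
    linarith
  have hηn : ‖η‖ ≤ 1401 / 100 * ‖u‖ / ‖x‖ := by
    have a1 : ‖(1 - 1 / n : ℂ) * (SS n L j u - u)‖ ≤ 5 * ‖u‖ / ‖x‖ := by
      rw [norm_mul, hn1, norm_real]
      have b1 : ‖(1 - 1 / n : ℝ)‖ ≤ 1 := by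
        rw [Real.norm_eq_abs, abs_le]
        have b2 : 0 ≤ 1 / (n : ℝ) := by positivity
        have b3 : 1 / (n : ℝ) ≤ 1 := by
          rw [div_le_one hnpos]
          linarith
        constructor <;> linarith
      calc ‖(1 - 1 / n : ℝ)‖ * ‖SS n L j u - u‖ ≤ 1 * ‖SS n L j u - u‖ :=
            mul_le_mul_of_nonneg_right b1 (norm_nonneg _)
        _ ≤ _ := by rw [one_mul]; exact hS
    have a2 : ‖u / n‖ ≤ 401 / 100 * ‖u‖ / ‖x‖ := by
      rw [norm_div, norm_natCast, div_eq_mul_one_div]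
      calc ‖u‖ * (1 / (n : ℝ)) ≤ ‖u‖ * (401 / 100 / ‖x‖) :=
            mul_le_mul_of_nonneg_left hnle (norm_nonneg _)
        _ = _ := by ring
    calc ‖η‖ ≤ ‖GG n L j u + (1 - 1 / n) * (SS n L j u - u)‖ + ‖u / n‖ := norm_sub_le _ _
      _ ≤ ‖GG n L j u‖ + ‖(1 - 1 / n) * (SS n L j u - u)‖ + ‖u / n‖ := by
          gcongr
          exact norm_add_le _ _
      _ ≤ 5 * ‖u‖ / ‖x‖ + 5 * ‖u‖ / ‖x‖ + 401 / 100 * ‖u‖ / ‖x‖ := by
          linarith
      _ = _ := by ring
  have hr : 0 < ‖u‖ := norm_pos_iff.2 hu0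
  -- `u = m exp (- eta)`
  have hum : u = m * exp (-η) := by
    rw [hmu, mul_assoc, ← exp_add]
    simp
  have hunorm : ‖u‖ = m * Real.exp (-η.re) := by
    conv_lhs => rw [hum]
    rw [norm_mul, norm_exp, norm_real, Real.norm_of_nonneg hmpos.le, neg_re]
  have hure : u.re = ‖u‖ * Real.cos η.im := by
    rw [hunorm]
    conv_lhs => rw [hum]
    rw [re_ofReal_mul, exp_re, neg_re, neg_im, Real.cos_neg]
    ring
  have hcos : ∀ e : ℝ, 0 ≤ e → ‖η‖ ≤ e → ‖u‖ * (1 - e ^ 2 / 2) ≤ u.re := by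
    intro e he0 he
    rw [hure]
    apply mul_le_mul_of_nonneg_left _ hr.le
    have c1 := Real.one_sub_sq_div_two_le_cos (x := η.im)
    have c2 : η.im ^ 2 ≤ e ^ 2 := by
      rw [← sq_abs]
      exact pow_le_pow_left₀ (abs_nonneg _) ((abs_im_le_norm η).trans he) 2
    linarith
  -- norms in the cycle equation
  have hlog : Real.log ‖u‖ + (GG n L j u).re - u.re = (WW n j L x).re := by
    have d1 : ‖u‖ * Real.exp ((GG n L j u).re - u.re) = Real.exp (WW n j L x).re := by
      have := congrArg norm heq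
      rwa [norm_mul, norm_exp, norm_exp, sub_re] at this
    have d2 := congrArg Real.log d1
    rw [Real.log_mul hr.ne' (Real.exp_pos _).ne', Real.log_exp, Real.log_exp] at d2
    linarith
  have hG7 : (GG n L j u).re ≤ 1 / 10 ^ 7 * ‖u‖ := by
    refine (re_le_norm _).trans (hG.trans ?_)
    rw [div_le_iff₀ hXpos]
    nlinarith
  have hη1 : ‖η‖ ≤ 1401 / 10000 := by
    refine hηn.trans ?_
    rw [div_le_iff₀ hXpos]
    linarith
  have hr2 : ‖u‖ < 2 := by
    apply lt_two hr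
    have e1 := hcos (1401 / 10000) (by norm_num) hη1
    norm_num at e1 hG7
    linarith
  have hη2 : ‖η‖ ≤ 1 / 10 ^ 6 := by
    refine hηn.trans ?_
    rw [div_le_iff₀ hXpos]
    norm_num
    linarith
  have hr1 : |‖u‖ - 1| ≤ 16 / 1000 := by
    apply near_one hr
    have e1 := hcos (1 / 10 ^ 6) (by norm_num) hη2
    norm_num at e1 hG7
    linarith
  have hr1' := abs_le.1 hr1
  -- `m` is close to `1`
  have hmr : m = ‖u‖ * Real.exp η.re := by
    rw [hunorm, mul_assoc, ← Real.exp_add]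
    simp
  have hm2 : m ≤ 10161 / 10000 := by
    rw [hmr]
    have e1 : η.re ≤ 1 / 10 ^ 6 := (re_le_norm η).trans hη2
    have e2 : Real.exp η.re ≤ 100001 / 100000 := by
      refine (Real.exp_le_exp.2 e1).trans ?_
      have e3 := Real.exp_bound_div_one_sub_of_interval (x := 1 / 10 ^ 6) (by norm_num)
        (by norm_num)
      refine e3.trans (by norm_num)
    calc ‖u‖ * Real.exp η.re ≤ (1016 / 1000) * (100001 / 100000) := by
          apply mul_le_mul _ e2 (Real.exp_pos _).le (by norm_num)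
          linarith
      _ ≤ _ := by norm_num
  have hu1 : ‖u - 1‖ ≤ 1 / 50 := by
    have e0 : ‖exp (-η) - 1‖ ≤ 2 * ‖-η‖ := by
      apply Complex.norm_exp_sub_one_le
      rw [norm_neg]
      exact hη2.trans (by norm_num)
    rw [norm_neg] at e0
    have e1 : u - 1 = m * (exp (-η) - 1) + ((m - 1 : ℝ) : ℂ) := by
      conv_lhs => rw [hum]
      push_cast
      ring
    rw [e1]
    refine (norm_add_le _ _).trans ?_
    rw [norm_mul, norm_real, norm_real, Real.norm_of_nonneg hmpos.le,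
      Real.norm_of_nonneg (by linarith)]
    have e2 : m * ‖exp (-η) - 1‖ ≤ 10161 / 10000 * (2 * (1 / 10 ^ 6)) := by
      apply mul_le_mul hm2 _ (norm_nonneg _) (by norm_num)
      linarith
    norm_num at e2
    linarith
  -- the cusp
  have hdom : ∀ i, 1 ≤ i → i ≤ j → (10 : ℝ) ^ 8 ≤ ‖zz n L i‖ ∧ zz n L i ≠ -n :=
    fun i hi1 hi2 => ⟨hT.toLow.ge8 hi1 hi2, hzne i hi2⟩
  have hgd : ∀ U : ℂ, ‖U‖ < 3 → DifferentiableAt ℂ (GG n L j) U :=
    fun U hU => (h3 n j L U hnR hdom hU).2.2.2.2.1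
  have hgs : ∀ U : ℂ, ‖U‖ < 3 → ‖GG n L j U‖ ≤ 1 / 10 ^ 7 * ‖U‖ :=
    fun U hU => (h3 n j L U hnR hdom hU).1
  have hcu : 1 / u + deriv (GG n L j) u = 1 / (1 + ((m - 1 : ℝ) : ℂ)) := by
    have e1 : (1 : ℂ) + ((m - 1 : ℝ) : ℂ) = m := by push_cast; ring
    rw [e1, eq_div_iff (by exact_mod_cast hmpos.ne')]
    rw [mul_comm]
    exact hder
  obtain ⟨v, hv1, hv2, hv3⟩ := h7 (GG n L j) hgd hgs u (m - 1) hu1 (by linarith) (by linarith) hcu
  have hv0 : v ≠ 0 := by
    intro h0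
    rw [h0] at hv1
    norm_num at hv1
  have hv3n : ‖v‖ < 3 := by
    have e1 : ‖v‖ ≤ ‖v - 1‖ + ‖(1 : ℂ)‖ := by
      have := norm_add_le (v - 1) 1
      rwa [sub_add_cancel] at this
    rw [norm_one] at e1
    linarith
  have hevv : ∀ᶠ w in 𝓝 v, w * exp (GG n L j w) = DD n L j * W0 n L j w ∧
      (E n L)^[j] (W0 n L j w) = n * ((1 + zz n L j / n) * exp (w / n) - 1) := by
    have ho : IsOpen {w : ℂ | ‖w‖ < 3} := isOpen_lt continuous_norm continuous_const
    filter_upwards [ho.mem_nhds hv3n] with w hw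
    obtain ⟨-, -, e1, e2, -⟩ := h3 n j L w hnR hdom hw
    exact ⟨e1, e2⟩
  obtain ⟨-, hfixv, hderv⟩ := h5 n j L v (GG n L j) hn2 hv0 hz1 hDD (hgd v hv3n)
    (h3 n j L v hnR hdom hv3n).2.2.2.2.2.1 hevv ((hv2.trans heq).trans hWW)
  have hNRv := hNR (j + 1) (by omega) le_rfl _ hfixv
  have hfin := congrArg norm hderv
  rw [norm_mul, norm_one] at hfin
  nlinarith

end Pool.Agent.Limb
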