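import Pool.Agent.Limb.Targets

/-!
# LIMB: rotation invariance
-/

set_option autoImplicit false

open Complex Filter Topology Set
open Pool.Agent.Multibrot

namespace Pool.Agent.Limb

lemma ROT_.norm_eq {n : ℕ} (hn : 2 ≤ n) {ω : ℂ} (h : ω ^ (n - 1) = 1) : ‖ω‖ = 1 := by
  have h1 : ‖ω‖ ^ (n - 1) = 1 := by rw [← norm_pow, h]; simp
  exact (pow_eq_one_iff_of_nonneg (norm_nonneg _) (by omega)).1 h1

lemma ROT_.pow_n {n : ℕ} (hn : 2 ≤ n) {ω : ℂ} (h : ω ^ (n - 1) = 1) : ω ^ n = ω := by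
  have h1 : n = (n - 1) + 1 := by omega
  rw [h1, pow_succ, h, one_mul]

lemma ROT_.Q {n : ℕ} (hn : 2 ≤ n) {ω : ℂ} (h : ω ^ (n - 1) = 1) (c : ℂ) (k : ℕ) :
    Q n k (ω * c) = ω * Q n k c := by
  induction k with
  | zero => simp
  | succ k ih =>
    rw [Q_succ, Q_succ, ih, mul_pow, ROT_.pow_n hn h]
    ring

lemma ROT_.F_iter {n : ℕ} (hn : 2 ≤ n) {ω : ℂ} (h : ω ^ (n - 1) = 1) (c z : ℂ) (p : ℕ) :
    (F n (ω * c))^[p] (ω * z) = ω * (F n c)^[p] z := by
  induction p with
  | zero => rfl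
  | succ p ih =>
    rw [Function.iterate_succ_apply', Function.iterate_succ_apply', ih, F, F, mul_pow,
      ROT_.pow_n hn h]
    ring

theorem p_ROT : T_ROT := by
  intro n m c ω hn h
  have hω := ROT_.norm_eq hn h
  have hω0 : ω ≠ 0 := by
    intro h0
    rw [h0, norm_zero] at hω
    norm_num at hω
  constructor
  · intro hc k
    have h1 := hc k
    rwa [ROT_.Q hn h, norm_mul, hω, one_mul] at h1
  · intro hc p hp hpm z hz
    have h1 := hc p hp hpm (ω * z) (by rw [ROT_.F_iter hn h, hz])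
    have hF : ∀ c : ℂ, Differentiable ℂ (F n c) := fun c => by
      unfold F
      fun_prop
    have h2 : HasDerivAt (fun z : ℂ => (F n (ω * c))^[p] (ω * z))
        (deriv ((F n (ω * c))^[p]) (ω * z) * ω) z := by
      have h3 : HasDerivAt (fun z : ℂ => ω * z) ω z := by
        simpa using (hasDerivAt_id z).const_mul ω
      exact HasDerivAt.comp z (((hF _).iterate p) _).hasDerivAt h3
    have h4 : HasDerivAt (fun z : ℂ => ω * (F n c)^[p] z) (ω * deriv ((F n c)^[p]) z) z :=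
      (((hF _).iterate p) _).hasDerivAt.const_mul ω
    have h5 : (fun z : ℂ => (F n (ω * c))^[p] (ω * z)) = fun z => ω * (F n c)^[p] z := by
      funext z
      exact ROT_.F_iter hn h c z p
    rw [h5] at h2
    have h6 := h2.unique h4
    have h7 : deriv ((F n (ω * c))^[p]) (ω * z) = deriv ((F n c)^[p]) z := by
      have h8 : ω * deriv ((F n (ω * c))^[p]) (ω * z) = ω * deriv ((F n c)^[p]) z := by
        rw [← h6]; ring
      exact mul_left_cancel₀ hω0 h8
    rwa [h7] at h1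

end Pool.Agent.Limb
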