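import Pool.Agent.Limb.Targets

/-!
# LIMB: the top stage (job TOPST)
-/

set_option autoImplicit false

open Complex Filter Topology Set
open Pool.Agent.Multibrot

namespace Pool.Agent.Limb

namespace TOPST_

/-! ### real inequalities -/

lemma sin_two : (9 / 10 : ℝ) ≤ Real.sin 2 := by
  have h1 : Real.sin 2 = Real.cos (2 - Real.pi / 2) := by
    rw [← Real.cos_neg, neg_sub, Real.cos_pi_div_two_sub]
  rw [h1]
  have h2 := Real.one_sub_sq_div_two_le_cos (x := 2 - Real.pi / 2)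
  have h3 := Real.pi_gt_d4
  have h4 := Real.pi_lt_d4
  have h5 : (2 - Real.pi / 2) ^ 2 ≤ (43 / 100) ^ 2 :=
    pow_le_pow_left₀ (by linarith) (by linarith) 2
  linarith

lemma sin_lb {y : ℝ} (h0 : 0 ≤ y) (h : y ≤ 2) : 9 / 20 * y ≤ Real.sin y := by
  have h3 := Real.pi_gt_d4
  have hc := strictConcaveOn_sin_Icc.concaveOn
  have h1 := hc.2 (show (0 : ℝ) ∈ Icc 0 Real.pi from ⟨le_refl _, by linarith⟩)
    (show (2 : ℝ) ∈ Icc 0 Real.pi from ⟨by norm_num, by linarith⟩)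
    (show (0 : ℝ) ≤ 1 - y / 2 by linarith) (show (0 : ℝ) ≤ y / 2 by linarith) (by ring)
  simp only [smul_eq_mul, mul_zero, Real.sin_zero, zero_add] at h1
  have h2 : y / 2 * 2 = y := by ring
  rw [h2] at h1
  have h4 := sin_two
  nlinarith

lemma abs_sin_lb {y : ℝ} (h : |y| ≤ 2) : 9 / 20 * |y| ≤ |Real.sin y| := by
  rcases le_total 0 y with h0 | h0
  · rw [abs_of_nonneg h0] at h ⊢
    exact (sin_lb h0 h).trans (le_abs_self _)
  · rw [abs_of_nonpos h0] at h ⊢
    have h1 := sin_lb (y := -y) (by linarith) h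
    rw [Real.sin_neg] at h1
    exact h1.trans (neg_le_abs _)

lemma abs_sinh_le {y : ℝ} (h : |y| ≤ 4 / 1000) : |Real.sinh y| ≤ 251 / 250 * |y| := by
  have h1 := abs_le.1 (Real.abs_exp_sub_one_sub_id_le (x := y) (by linarith))
  have h2 := abs_le.1 (Real.abs_exp_sub_one_sub_id_le (x := -y) (by rw [abs_neg]; linarith))
  rw [Real.sinh_eq]
  have h3 : y ^ 2 = |y| ^ 2 := (sq_abs y).symm
  have h4 : (-y) ^ 2 = |y| ^ 2 := by rw [neg_sq, h3]
  have h5 : |y| ^ 2 ≤ 4 / 1000 * |y| := by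
    rw [sq]
    exact mul_le_mul_of_nonneg_right h (abs_nonneg _)
  rw [h3] at h1
  rw [h4] at h2
  have h6 : |Real.exp y - Real.exp (-y)| ≤ 2 * |y| + 2 * |y| ^ 2 := by
    have h7 := le_abs_self y
    have h8 := neg_abs_le y
    rw [abs_le]
    constructor <;> linarith [h1.1, h1.2, h2.1, h2.2]
  rw [abs_div, abs_two, div_le_iff₀ (by norm_num)]
  linarith

lemma cosh_le {y : ℝ} (h : |y| ≤ 4 / 1000) : Real.cosh y ≤ 1005 / 1000 := by
  have h1 := abs_le.1 (Real.abs_exp_sub_one_sub_id_le (x := y) (by linarith))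
  have h2 := abs_le.1 (Real.abs_exp_sub_one_sub_id_le (x := -y) (by rw [abs_neg]; linarith))
  rw [Real.cosh_eq]
  have h3 : y ^ 2 = |y| ^ 2 := (sq_abs y).symm
  have h4 : (-y) ^ 2 = |y| ^ 2 := by rw [neg_sq, h3]
  have h5 : |y| ^ 2 ≤ 4 / 1000 * |y| := by
    rw [sq]
    exact mul_le_mul_of_nonneg_right h (abs_nonneg _)
  rw [h3] at h1
  rw [h4] at h2
  linarith [h1.2, h2.2]

/-- the hypotheses on `a = Re r`, `θ = Im r`, `p = Re v`, `q = Im v` -/
structure Hy (a θ p q : ℝ) : Prop where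
  ne : θ ≠ 0
  le : |θ| ≤ 4
  ha : |a| ≤ |θ| / 500
  hp : -(|θ| * (501 / 500) / 80) < p
  hq : |q| < |θ| * (501 / 500) / 50

namespace Hy

variable {a θ p q : ℝ} (h : Hy a θ p q)
include h

lemma pos : 0 < |θ| := abs_pos.2 h.ne

lemma S_lb : 9 / 40 * |θ| ≤ |Real.sin (θ / 2)| := by
  have h1 := abs_sin_lb (y := θ / 2) (by rw [abs_div, abs_two]; linarith [h.le])
  rw [abs_div, abs_two] at h1
  linarith

lemma S_pos : 0 < |Real.sin (θ / 2)| := by
  have := h.S_lb
  have := h.pos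
  linarith

lemma a2 : |a / 2| ≤ 4 / 1000 := by
  rw [abs_div, abs_two]
  linarith [h.ha, h.le]

lemma Y0 : |Real.sinh (a / 2) * Real.cos (θ / 2)| ≤ 45 / 10000 * |Real.sin (θ / 2)| := by
  have h1 := abs_sinh_le h.a2
  have h2 : |Real.cos (θ / 2)| ≤ 1 := Real.abs_cos_le_one _
  have h3 := h.S_lb
  have h4 : |a / 2| ≤ |θ| / 1000 := by
    rw [abs_div, abs_two]
    linarith [h.ha]
  have h5 := h.pos
  rw [abs_mul]
  calc |Real.sinh (a / 2)| * |Real.cos (θ / 2)| ≤ (251 / 250 * |a / 2|) * 1 :=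
        mul_le_mul h1 h2 (abs_nonneg _) (by positivity)
    _ ≤ _ := by linarith

omit h in
lemma X0_lb : |Real.sin (θ / 2)| ≤ |Real.cosh (a / 2) * Real.sin (θ / 2)| := by
  rw [abs_mul, abs_of_pos (Real.cosh_pos _)]
  have h1 := Real.one_le_cosh (a / 2)
  have h2 := abs_nonneg (Real.sin (θ / 2))
  nlinarith

lemma X0_ub : |Real.cosh (a / 2) * Real.sin (θ / 2)| ≤ 1005 / 1000 * |Real.sin (θ / 2)| := by
  rw [abs_mul, abs_of_pos (Real.cosh_pos _)]
  exact mul_le_mul_of_nonneg_right (cosh_le h.a2) (abs_nonneg _)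

lemma q2 : |q / 2| ≤ 45 / 1000 * |Real.sin (θ / 2)| := by
  rw [abs_div, abs_two]
  linarith [h.hq, h.S_lb, h.pos]

lemma q4 : |q / 2| ≤ 41 / 1000 := by
  rw [abs_div, abs_two]
  linarith [h.hq, h.le]

/-- `sin β` is close to `sin (θ / 2)` -/
lemma sin_beta : |Real.sin ((θ + q) / 2) - Real.sin (θ / 2)| ≤ 45 / 1000 * |Real.sin (θ / 2)| := by
  refine (Real.abs_sin_sub_sin_le _ _).trans ?_
  have : (θ + q) / 2 - θ / 2 = q / 2 := by ring
  rw [this]
  exact h.q2

lemma beta_lb : 955 / 1000 * |Real.sin (θ / 2)| ≤ |Real.sin ((θ + q) / 2)| := by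
  have h1 := h.sin_beta
  have h2 := abs_sub_abs_le_abs_sub (Real.sin (θ / 2)) (Real.sin ((θ + q) / 2))
  rw [abs_sub_comm] at h2
  linarith

lemma beta_mul : Real.sin ((θ + q) / 2) * Real.sin (θ / 2) =
    |Real.sin ((θ + q) / 2)| * |Real.sin (θ / 2)| := by
  have h1 := abs_le.1 h.sin_beta
  have h0 := h.S_pos
  rcases le_total 0 (Real.sin (θ / 2)) with h2 | h2
  · rw [abs_of_nonneg h2] at h1 ⊢
    rw [abs_of_nonneg (by linarith [h1.1])]
  · rw [abs_of_nonpos h2] at h1 ⊢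
    rw [abs_of_nonpos (by linarith [h1.2])]
    ring

lemma cos_q : 99 / 100 ≤ Real.cos (q / 2) := by
  have h1 := Real.one_sub_sq_div_two_le_cos (x := q / 2)
  have h2 := h.q4
  have h3 : (q / 2) ^ 2 ≤ (41 / 1000) ^ 2 := by
    rw [← sq_abs]
    exact pow_le_pow_left₀ (abs_nonneg _) h2 2
  linarith

lemma sin_q : |Real.sin (q / 2)| ≤ 41 / 1000 := by
  have h1 := Real.abs_sin_sub_sin_le (q / 2) 0
  rw [Real.sin_zero, sub_zero, sub_zero] at h1
  exact h1.trans h.q4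

end Hy

/-! ### the two values of `sinh` -/

lemma sinh_re (α β : ℝ) : (sinh ((α : ℂ) + β * I)).re = Real.sinh α * Real.cos β := by
  rw [sinh_add, sinh_mul_I, cosh_mul_I]
  simp only [← ofReal_sinh, ← ofReal_cosh, ← ofReal_sin, ← ofReal_cos, add_re, mul_re, mul_im,
    ofReal_re, ofReal_im, I_re, I_im]
  ring

lemma sinh_im (α β : ℝ) : (sinh ((α : ℂ) + β * I)).im = Real.cosh α * Real.sin β := by
  rw [sinh_add, sinh_mul_I, cosh_mul_I]
  simp only [← ofReal_sinh, ← ofReal_cosh, ← ofReal_sin, ← ofReal_cos, add_im, mul_re, mul_im,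
    ofReal_re, ofReal_im, I_re, I_im]
  ring

/-- `sinh (r / 2)` -/
noncomputable def s0 (a θ : ℝ) : ℂ := sinh (((a / 2 : ℝ) : ℂ) + ((θ / 2 : ℝ) : ℂ) * I)

/-- `sinh ((r + v) / 2)` -/
noncomputable def s1 (a θ p q : ℝ) : ℂ :=
  sinh ((((a + p) / 2 : ℝ) : ℂ) + (((θ + q) / 2 : ℝ) : ℂ) * I)

namespace Hy

variable {a θ p q : ℝ} (h : Hy a θ p q)
include h

lemma s0_lb : |Real.sin (θ / 2)| ≤ ‖s0 a θ‖ := by
  have h1 := Complex.abs_im_le_norm (s0 a θ)
  rw [s0, sinh_im] at h1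
  exact X0_lb.trans h1

lemma s0_ub : ‖s0 a θ‖ ≤ 101 / 100 * |Real.sin (θ / 2)| := by
  have h1 := Complex.norm_le_abs_re_add_abs_im (s0 a θ)
  rw [s0, sinh_re, sinh_im] at h1
  have h2 := h.Y0
  have h3 := h.X0_ub
  have h4 := h.S_pos
  rw [s0]
  linarith

lemma s0_pos : 0 < ‖s0 a θ‖ := h.S_pos.trans_le h.s0_lb

lemma s1_lb : 955 / 1000 * Real.cosh ((a + p) / 2) * |Real.sin (θ / 2)| ≤ ‖s1 a θ p q‖ := by
  have h1 := Complex.abs_im_le_norm (s1 a θ p q)
  rw [s1, sinh_im, abs_mul, abs_of_pos (Real.cosh_pos _)] at h1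
  refine le_trans ?_ h1
  have h2 := h.beta_lb
  have h3 := mul_le_mul_of_nonneg_left h2 (Real.cosh_pos ((a + p) / 2)).le
  linarith

lemma s1_pos : 0 < ‖s1 a θ p q‖ := by
  have h1 := h.s1_lb
  have h2 := h.S_pos
  have h3 := Real.cosh_pos ((a + p) / 2)
  have : 0 < 955 / 1000 * Real.cosh ((a + p) / 2) * |Real.sin (θ / 2)| := by positivity
  linarith

/-- the main estimate for the argument -/
lemma arg_est : -(5 / 100) * (‖s1 a θ p q‖ * ‖s0 a θ‖) ≤
    (exp (((q / 2 : ℝ) : ℂ) * I) * (s1 a θ p q * (starRingEnd ℂ) (s0 a θ))).re := by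
  set Y1 := Real.sinh ((a + p) / 2) * Real.cos ((θ + q) / 2) with hY1
  set X1 := Real.cosh ((a + p) / 2) * Real.sin ((θ + q) / 2) with hX1
  set Y0 := Real.sinh (a / 2) * Real.cos (θ / 2) with hY0
  set X0 := Real.cosh (a / 2) * Real.sin (θ / 2) with hX0
  have e1 : (s1 a θ p q).re = Y1 := by rw [s1, sinh_re]
  have e2 : (s1 a θ p q).im = X1 := by rw [s1, sinh_im]
  have e3 : (s0 a θ).re = Y0 := by rw [s0, sinh_re]
  have e4 : (s0 a θ).im = X0 := by rw [s0, sinh_im]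
  have e5 : (exp (((q / 2 : ℝ) : ℂ) * I)).re = Real.cos (q / 2) := by
    rw [exp_ofReal_mul_I_re]
  have e6 : (exp (((q / 2 : ℝ) : ℂ) * I)).im = Real.sin (q / 2) := by
    rw [exp_ofReal_mul_I_im]
  have e7 : (exp (((q / 2 : ℝ) : ℂ) * I) * (s1 a θ p q * (starRingEnd ℂ) (s0 a θ))).re =
      Real.cos (q / 2) * (X1 * X0 + Y1 * Y0) - Real.sin (q / 2) * (X1 * Y0 - Y1 * X0) := by
    rw [mul_re, mul_re, mul_im, conj_re, conj_im, e1, e2, e3, e4, e5, e6]
    ring
  have m0 : X1 * X0 = |X1| * |X0| := by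
    rw [hX1, hX0, abs_mul, abs_mul, abs_of_pos (Real.cosh_pos _), abs_of_pos (Real.cosh_pos _)]
    have := h.beta_mul
    calc _ = Real.cosh ((a + p) / 2) * Real.cosh (a / 2) *
        (Real.sin ((θ + q) / 2) * Real.sin (θ / 2)) := by ring
      _ = _ := by rw [this]; ring
  have m1 : |Y0| ≤ 45 / 10000 * |X0| := h.Y0.trans (by linarith [X0_lb (a := a) (θ := θ)])
  have n1 : |X0| ≤ ‖s0 a θ‖ := by rw [← e4]; exact Complex.abs_im_le_norm _
  have n2 : |Y1| ≤ ‖s1 a θ p q‖ := by rw [← e1]; exact Complex.abs_re_le_norm _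
  have c1 := h.cos_q
  have c2 := h.sin_q
  have c3 : |Real.cos (q / 2)| ≤ 1 := Real.abs_cos_le_one _
  have g1 : |Real.cos (q / 2) * (Y1 * Y0)| ≤ |Y1| * (45 / 10000 * |X0|) := by
    rw [abs_mul, abs_mul]
    calc |Real.cos (q / 2)| * (|Y1| * |Y0|) ≤ 1 * (|Y1| * (45 / 10000 * |X0|)) :=
          mul_le_mul c3 (mul_le_mul_of_nonneg_left m1 (abs_nonneg _)) (by positivity) (by norm_num)
      _ = _ := one_mul _
  have g2 : |Real.sin (q / 2) * (X1 * Y0)| ≤ 41 / 1000 * (|X1| * (45 / 10000 * |X0|)) := by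
    rw [abs_mul, abs_mul]
    exact mul_le_mul c2 (mul_le_mul_of_nonneg_left m1 (abs_nonneg _)) (by positivity) (by norm_num)
  have g3 : |Real.sin (q / 2) * (Y1 * X0)| ≤ 41 / 1000 * (|Y1| * |X0|) := by
    rw [abs_mul, abs_mul]
    exact mul_le_mul_of_nonneg_right c2 (by positivity)
  have g4 : 99 / 100 * (|X1| * |X0|) ≤ Real.cos (q / 2) * (X1 * X0) := by
    rw [m0]
    exact mul_le_mul_of_nonneg_right c1 (by positivity)
  have g5 : |Y1| * |X0| ≤ ‖s1 a θ p q‖ * ‖s0 a θ‖ :=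
    mul_le_mul n2 n1 (abs_nonneg _) (norm_nonneg _)
  have g6 : 0 ≤ |X1| * |X0| := by positivity
  have g7 : 0 ≤ |Y1| * |X0| := by positivity
  rw [e7]
  have f1 := (abs_le.1 g1).1
  have f2 := (abs_le.1 g2).2
  have f3 := (abs_le.1 g3).1
  nlinarith

end Hy

/-- a number whose real part is not too negative -/
lemma slit_of {ρ : ℂ} (h0 : ρ ≠ 0) (h : -(5 / 100) * ‖ρ‖ ≤ ρ.re) :
    ρ ∈ slitPlane ∧ |ρ.arg| ≤ 17 / 10 := by
  have h1 : 0 < ‖ρ‖ := norm_pos_iff.2 h0
  have h2 := Complex.norm_mul_cos_arg ρ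
  have h3 : -(5 / 100) ≤ Real.cos ρ.arg := by
    rw [← h2] at h
    have : ‖ρ‖ * -(5 / 100) ≤ ‖ρ‖ * Real.cos ρ.arg := by linarith
    exact le_of_mul_le_mul_left this h1
  have p1 := Real.pi_gt_d4
  have p2 := Real.pi_lt_d4
  have h4 : Real.cos (17 / 10) ≤ -(8 / 100) := by
    have e : (17 / 10 : ℝ) = (17 / 10 - Real.pi / 2) + Real.pi / 2 := by ring
    rw [e, Real.cos_add_pi_div_two]
    have h5 := Real.mul_le_sin (x := 17 / 10 - Real.pi / 2) (by linarith) (by linarith)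
    have h6 : 2 / Real.pi ≥ 2 / 3.1416 := by
      apply div_le_div_of_nonneg_left (by norm_num) (by linarith) p2.le
    have h7 : (129 / 1000 : ℝ) ≤ 17 / 10 - Real.pi / 2 := by linarith
    have h8 : 2 / 3.1416 * (129 / 1000) ≤ 2 / Real.pi * (17 / 10 - Real.pi / 2) :=
      mul_le_mul h6 h7 (by norm_num) (by positivity)
    have h9 : (8 / 100 : ℝ) ≤ 2 / 3.1416 * (129 / 1000) := by norm_num
    linarith
  have h5 : |ρ.arg| ≤ 17 / 10 := by
    by_contra hcon
    push Not at hcon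
    have h6 := Real.cos_lt_cos_of_nonneg_of_le_pi (x := 17 / 10) (y := |ρ.arg|) (by norm_num)
      (Complex.abs_arg_le_pi ρ) hcon
    rw [Real.cos_abs] at h6
    linarith
  refine ⟨?_, h5⟩
  rw [Complex.mem_slitPlane_iff_arg]
  refine ⟨fun h6 => ?_, h0⟩
  rw [h6, abs_of_pos Real.pi_pos] at h5
  linarith

lemma exp_sub_one_eq (A : ℂ) : exp A - 1 = 2 * exp (A / 2) * sinh (A / 2) := by
  have h1 : exp A = exp (A / 2) * exp (A / 2) := by rw [← exp_add]; congr 1; ring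
  have h2 : sinh (A / 2) = (exp (A / 2) - exp (-(A / 2))) / 2 := rfl
  have h3 : exp (A / 2) * exp (-(A / 2)) = 1 := by rw [← exp_add]; simp
  rw [h1, h2]
  linear_combination h3

lemma s0_eq (r : ℂ) : s0 r.re r.im = sinh (r / 2) := by
  unfold s0
  congr 1
  conv_rhs => rw [← re_add_im r]
  push_cast
  ring

lemma s1_eq (r v : ℂ) : s1 r.re r.im v.re v.im = sinh ((r + v) / 2) := by
  unfold s1
  congr 1
  conv_rhs => rw [← re_add_im r, ← re_add_im v]
  push_cast
  ring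

/-- the quotient -/
noncomputable def rho (r v : ℂ) : ℂ := (exp (r + v) - 1) / (exp r - 1)

section

variable {r v : ℂ} (h : Hy r.re r.im v.re v.im)
include h

lemma exp_sub_ne : exp r - 1 ≠ 0 := by
  rw [exp_sub_one_eq]
  have h1 : sinh (r / 2) ≠ 0 := by
    rw [← s0_eq, ← norm_pos_iff]
    exact h.s0_pos
  exact mul_ne_zero (mul_ne_zero two_ne_zero (exp_ne_zero _)) h1

lemma rho_eq : rho r v = exp (v / 2) * (s1 r.re r.im v.re v.im / s0 r.re r.im) := by
  have h1 : s0 r.re r.im ≠ 0 := norm_pos_iff.1 h.s0_pos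
  have h2 : exp ((r + v) / 2) = exp (r / 2) * exp (v / 2) := by
    rw [← exp_add]
    congr 1
    ring
  rw [rho, exp_sub_one_eq, exp_sub_one_eq, h2, ← s1_eq, ← s0_eq]
  have h3 : exp (r / 2) ≠ 0 := exp_ne_zero _
  field_simp

lemma norm_rho : ‖rho r v‖ =
    Real.exp (v.re / 2) * (‖s1 r.re r.im v.re v.im‖ / ‖s0 r.re r.im‖) := by
  rw [rho_eq h, norm_mul, norm_div, norm_exp]
  congr 2
  have : (2 : ℂ) = ((2 : ℝ) : ℂ) := by norm_num
  rw [this, div_ofReal_re]

lemma rho_ne : rho r v ≠ 0 := by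
  rw [← norm_pos_iff, norm_rho h]
  have := h.s0_pos
  have := h.s1_pos
  positivity

lemma rho_re : -(5 / 100) * ‖rho r v‖ ≤ (rho r v).re := by
  have h0 := h.s0_pos
  have h1 : s0 r.re r.im ≠ 0 := norm_pos_iff.1 h0
  set S0 := s0 r.re r.im with hS0
  set S1 := s1 r.re r.im v.re v.im with hS1
  have h2 : rho r v = ((Real.exp (v.re / 2) / ‖S0‖ ^ 2 : ℝ) : ℂ) *
      (exp (((v.im / 2 : ℝ) : ℂ) * I) * (S1 * (starRingEnd ℂ) S0)) := by
    rw [rho_eq h, ← hS0, ← hS1]
    have e1 : exp (v / 2) = ((Real.exp (v.re / 2) : ℝ) : ℂ) * exp (((v.im / 2 : ℝ) : ℂ) * I) := by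
      rw [ofReal_exp, ← exp_add]
      congr 1
      conv_lhs => rw [← re_add_im v]
      push_cast
      ring
    have e2 : (‖S0‖ : ℂ) ^ 2 = S0 * (starRingEnd ℂ) S0 := (Complex.mul_conj' S0).symm
    have e3 : (starRingEnd ℂ) S0 ≠ 0 := by
      rw [Ne, map_eq_zero]
      exact h1
    rw [e1]
    push_cast
    rw [e2]
    field_simp
  have h3 := h.arg_est
  rw [← hS0, ← hS1] at h3
  rw [norm_rho h, ← hS0, ← hS1, h2, re_ofReal_mul]
  have h4 : 0 < Real.exp (v.re / 2) / ‖S0‖ ^ 2 := by positivity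
  have h5 := mul_le_mul_of_nonneg_left h3 h4.le
  refine le_trans (le_of_eq ?_) h5
  field_simp

lemma rho_slit : rho r v ∈ slitPlane ∧ |(rho r v).arg| ≤ 17 / 10 :=
  slit_of (rho_ne h) (rho_re h)

lemma rho_norm_lb : 9 / 10 ≤ ‖rho r v‖ := by
  have h0 := h.s0_pos
  have h1 := h.s0_ub
  have h2 := h.s1_lb
  have h3 := h.S_pos
  have h4 := Real.one_le_cosh ((r.re + v.re) / 2)
  have h5 := Real.add_one_le_exp (v.re / 2)
  have h6 : -(51 / 2000) ≤ v.re / 2 := by linarith [h.hp, h.le]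
  rw [norm_rho h]
  have h7 : 955 / 1000 * |Real.sin (r.im / 2)| ≤ ‖s1 r.re r.im v.re v.im‖ := by
    refine le_trans ?_ h2
    nlinarith
  have h8 : 945 / 1000 ≤ ‖s1 r.re r.im v.re v.im‖ / ‖s0 r.re r.im‖ := by
    rw [le_div_iff₀ h0]
    linarith
  have h9 : (974 / 1000 : ℝ) ≤ Real.exp (v.re / 2) := by linarith
  calc (9 / 10 : ℝ) ≤ 974 / 1000 * (945 / 1000) := by norm_num
    _ ≤ _ := mul_le_mul h9 h8 (by norm_num) (Real.exp_pos _).le

lemma exp_div_rho : ‖exp v / rho r v‖ ≤ 22 / 10 := by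
  have h0 := h.s0_pos
  have h1 := h.s0_ub
  have h2 := h.s1_lb
  have h3 := h.S_pos
  have h4 := h.s1_pos
  rw [norm_div, norm_rho h, norm_exp]
  have e1 : Real.exp v.re = Real.exp (v.re / 2) * Real.exp (v.re / 2) := by
    rw [← Real.exp_add]
    congr 1
    ring
  have e2 : Real.exp v.re / (Real.exp (v.re / 2) *
      (‖s1 r.re r.im v.re v.im‖ / ‖s0 r.re r.im‖)) =
      Real.exp (v.re / 2) * ‖s0 r.re r.im‖ / ‖s1 r.re r.im v.re v.im‖ := by
    rw [e1]
    have := Real.exp_pos (v.re / 2)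
    field_simp
  rw [e2, div_le_iff₀ h4]
  have h5 : Real.exp ((r.re + v.re) / 2) / 2 ≤ Real.cosh ((r.re + v.re) / 2) := by
    rw [Real.cosh_eq]
    have := Real.exp_pos (-((r.re + v.re) / 2))
    linarith
  have h6 : Real.exp (v.re / 2) ≤ 1005 / 1000 * Real.exp ((r.re + v.re) / 2) := by
    have e3 : Real.exp ((r.re + v.re) / 2) = Real.exp (r.re / 2) * Real.exp (v.re / 2) := by
      rw [← Real.exp_add]
      congr 1
      ring
    rw [e3]
    have h7 := Real.add_one_le_exp (r.re / 2)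
    have h8 := (abs_le.1 h.a2).1
    have h9 := Real.exp_pos (v.re / 2)
    nlinarith
  have h7 : Real.exp (v.re / 2) ≤ 201 / 100 * Real.cosh ((r.re + v.re) / 2) := by linarith
  have h8 := Real.cosh_pos ((r.re + v.re) / 2)
  calc Real.exp (v.re / 2) * ‖s0 r.re r.im‖ ≤
      201 / 100 * Real.cosh ((r.re + v.re) / 2) * (101 / 100 * |Real.sin (r.im / 2)|) :=
        mul_le_mul h7 h1 h0.le (by positivity)
    _ = 201 / 100 * (101 / 100) * (Real.cosh ((r.re + v.re) / 2) * |Real.sin (r.im / 2)|) := by ring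
    _ ≤ 22 / 10 * (955 / 1000 * (Real.cosh ((r.re + v.re) / 2) * |Real.sin (r.im / 2)|)) := by
        have : 0 ≤ Real.cosh ((r.re + v.re) / 2) * |Real.sin (r.im / 2)| := by positivity
        linarith
    _ ≤ 22 / 10 * ‖s1 r.re r.im v.re v.im‖ := by
        refine mul_le_mul_of_nonneg_left ?_ (by norm_num)
        linarith

lemma one_sub_exp_lb : 448 / 1000 * |r.im| ≤ ‖1 - exp (-r)‖ := by
  have h0 := h.s0_lb
  have h3 := h.S_lb
  have h4 := h.pos
  have e1 : 1 - exp (-r) = exp (-r) * (exp r - 1) := by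
    rw [mul_sub, ← exp_add]
    simp
  have e2 : exp (-r) = exp (-(r / 2)) * exp (-(r / 2)) := by
    rw [← exp_add]
    congr 1
    ring
  have e3 : exp (-(r / 2)) * exp (r / 2) = 1 := by rw [← exp_add]; simp
  have e4 : 1 - exp (-r) = 2 * exp (-(r / 2)) * sinh (r / 2) := by
    rw [e1, exp_sub_one_eq, e2]
    linear_combination 2 * exp (-(r / 2)) * sinh (r / 2) * e3
  rw [e4, norm_mul, norm_mul, norm_exp, ← s0_eq]
  have e5 : (-(r / 2)).re = -(r.re / 2) := by
    have : (2 : ℂ) = ((2 : ℝ) : ℂ) := by norm_num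
    rw [neg_re, this, div_ofReal_re]
  rw [e5, Complex.norm_ofNat]
  have h5 := Real.add_one_le_exp (-(r.re / 2))
  have h6 := (abs_le.1 h.a2).2
  have h7 : (996 / 1000 : ℝ) ≤ Real.exp (-(r.re / 2)) := by linarith
  have h8 : 9 / 40 * |r.im| ≤ ‖s0 r.re r.im‖ := h3.trans h0
  calc 448 / 1000 * |r.im| ≤ 2 * (996 / 1000) * (9 / 40 * |r.im|) := by linarith
    _ ≤ 2 * Real.exp (-(r.re / 2)) * ‖s0 r.re r.im‖ :=
        mul_le_mul (by linarith) h8 (by positivity) (by positivity)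

end

/-! ### the stage -/

lemma exp_lower {v : ℂ} (h : ‖v‖ ≤ 1 / 4) : 3 / 4 * ‖v‖ ≤ ‖exp v - 1‖ := by
  have h1 := norm_exp_sub_one_sub_id_le (x := v) (by linarith)
  have h2 : ‖v‖ - ‖exp v - 1‖ ≤ ‖exp v - 1 - v‖ := by
    have := norm_sub_norm_le v (exp v - 1)
    rwa [norm_sub_rev v] at this
  have h3 : ‖v‖ ^ 2 ≤ 1 / 4 * ‖v‖ := by
    rw [sq]
    exact mul_le_mul_of_nonneg_right h (norm_nonneg _)
  linarith

/-- the hypotheses of the job, with `r = x / n` -/
structure Hx (n : ℕ) (x z : ℂ) : Prop where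
  hn : (10 : ℝ) ^ 20 ≤ n
  hx : (10 : ℝ) ^ 7 ≤ ‖x‖
  hre : |x.re| ≤ |x.im| / 500
  him : |x.im| ≤ 4 * n
  hz : z = n * (exp (x / n) - 1)

section

variable {n : ℕ} {x z : ℂ} (H : Hx n x z)
include H

lemma npos : (0 : ℝ) < n := lt_of_lt_of_le (by norm_num) H.hn

lemma nne : (n : ℂ) ≠ 0 := by
  have := npos H
  exact_mod_cast this.ne'

lemma norm_x_le' : ‖x‖ ≤ 501 / 500 * |x.im| := by
  have h1 := Complex.norm_le_abs_re_add_abs_im x
  linarith [H.hre]

lemma hy {u : ℂ} (hu : u ∈ TT x) : Hy (x / n).re (x / n).im (u / n).re (u / n).im := by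
  have hn := npos H
  have e1 : ∀ w : ℂ, (w / n).re = w.re / n := fun w => by rw [← ofReal_natCast, div_ofReal_re]
  have e2 : ∀ w : ℂ, (w / n).im = w.im / n := fun w => by rw [← ofReal_natCast, div_ofReal_im]
  have h1 := norm_x_le' H
  have h2 := H.hx
  have h3 : 0 < |x.im| := by
    have : (0 : ℝ) < 10 ^ 7 := by norm_num
    linarith
  have e3 : |x.im / n| = |x.im| / n := by rw [abs_div, abs_of_pos hn]
  have e4 : |x.re / n| = |x.re| / n := by rw [abs_div, abs_of_pos hn]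
  obtain ⟨hu1, hu2⟩ := hu
  refine ⟨?_, ?_, ?_, ?_, ?_⟩
  · rw [e2]
    exact div_ne_zero (abs_pos.1 h3) hn.ne'
  · rw [e2, e3, div_le_iff₀ hn]
    exact H.him
  · rw [e1, e2, e3, e4, div_div, mul_comm, ← div_div]
    exact div_le_div_of_nonneg_right H.hre hn.le
  · rw [e1, e2, e3, lt_div_iff₀ hn]
    have : -(|x.im| / n * (501 / 500) / 80) * n = -(|x.im| * (501 / 500) / 80) := by
      field_simp
    rw [this]
    linarith
  · rw [e2, e2, e3, abs_div, abs_of_pos hn, div_lt_iff₀ hn]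
    have : |x.im| / n * (501 / 500) / 50 * n = |x.im| * (501 / 500) / 50 := by
      field_simp
    rw [this]
    linarith

lemma zero_mem : (0 : ℂ) ∈ TT x := by
  have h2 := H.hx
  have h3 : (0 : ℝ) < ‖x‖ := lt_of_lt_of_le (by norm_num) h2
  constructor
  · simp only [zero_re]
    linarith
  · simp only [zero_im, abs_zero]
    positivity

lemma ene : exp (x / n) - 1 ≠ 0 := exp_sub_ne (hy H (zero_mem H))

lemma zne : z ≠ 0 := by
  rw [H.hz]
  exact mul_ne_zero (nne H) (ene H)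

lemma one_add_z : 1 + z / n = exp (x / n) := by
  have := nne H
  rw [H.hz]
  field_simp
  ring

/-- `z / (1 + z / n)` -/
lemma D_eq : z / (1 + z / n) = n * (1 - exp (-(x / n))) := by
  rw [one_add_z H, H.hz, exp_neg]
  have := exp_ne_zero (x / n)
  field_simp

lemma D_mul : z / (1 + z / n) * (1 + n / z) = n := by
  have h1 := nne H
  have h2 := zne H
  have h3 : 1 + z / n ≠ 0 := by
    rw [one_add_z H]
    exact exp_ne_zero _
  have h4 : (n : ℂ) + z ≠ 0 := by
    intro h5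
    apply h3
    have : 1 + z / n = (n + z) / n := by field_simp
    rw [this, h5, zero_div]
  field_simp
  ring

lemma rho_z (u : ℂ) : 1 + (1 + n / z) * (exp (u / n) - 1) = rho (x / n) (u / n) := by
  have h1 := nne H
  have h2 := ene H
  have h3 : (1 + n / z : ℂ) = exp (x / n) / (exp (x / n) - 1) := by
    rw [H.hz]
    field_simp
    ring
  rw [h3, rho, exp_add]
  field_simp
  ring

lemma D_lb : 447 / 1000 * ‖x‖ ≤ ‖z / (1 + z / n)‖ := by
  have h1 := one_sub_exp_lb (hy H (zero_mem H))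
  have h2 := npos H
  have h3 := norm_x_le' H
  have e3 : |(x / n).im| = |x.im| / n := by
    rw [← ofReal_natCast, div_ofReal_im, abs_div, abs_of_pos h2]
  rw [e3] at h1
  rw [D_eq H, norm_mul, norm_natCast]
  calc 447 / 1000 * ‖x‖ ≤ n * (448 / 1000 * (|x.im| / n)) := by
        have : (n : ℝ) * (448 / 1000 * (|x.im| / n)) = 448 / 1000 * |x.im| := by field_simp
        rw [this]
        linarith [abs_nonneg x.im]
    _ ≤ _ := mul_le_mul_of_nonneg_left h1 h2.le

lemma D_pos : 0 < ‖z / (1 + z / n)‖ := by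
  have h1 := D_lb H
  have h2 := H.hx
  have : (0 : ℝ) < 10 ^ 7 := by norm_num
  linarith

lemma hh_deriv {u : ℂ} (hu : u ∈ TT x) : HasDerivAt (hh n z)
    (exp (u / n) / rho (x / n) (u / n) / (z / (1 + z / n))) u := by
  have h1 := nne H
  have hs := (rho_slit (hy H hu)).1
  rw [← rho_z H u] at hs
  have h2 : HasDerivAt (fun U : ℂ => 1 + (1 + n / z) * (exp (U / n) - 1))
      ((1 + n / z) * (exp (u / n) * (1 / n))) u :=
    (((((hasDerivAt_id u).div_const (n : ℂ)).cexp).sub_const 1).const_mul _).const_add 1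
  have h3 := h2.clog hs
  refine h3.congr_deriv ?_
  rw [rho_z H u]
  have h4 := D_mul H
  have h5 : z / (1 + z / n) ≠ 0 := norm_pos_iff.1 (D_pos H)
  have h6 : rho (x / n) (u / n) ≠ 0 := rho_ne (hy H hu)
  rw [eq_div_iff h5]
  have h7 : (1 + n / z : ℂ) = n / (z / (1 + z / n)) := by
    rw [eq_div_iff h5, mul_comm]
    exact h4
  rw [h7]
  generalize z / (1 + z / n) = D at h5 ⊢
  field_simp

omit H in
lemma convex_TT : Convex ℝ (TT x) := by
  have h1 : TT x = {u : ℂ | -(‖x‖ / 80) < u.re} ∩ ({u : ℂ | u.im < ‖x‖ / 50} ∩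
      {u : ℂ | -(‖x‖ / 50) < u.im}) := by
    ext u
    simp only [TT, mem_ofPred_eq, mem_inter_iff, abs_lt]
    tauto
  rw [h1]
  exact (convex_halfSpace_re_gt _).inter ((convex_halfSpace_im_lt _).inter
    (convex_halfSpace_im_gt _))

omit H in
lemma hh_zero : hh n z 0 = 0 := by
  simp [hh]

lemma hh_bound {u : ℂ} (hu : u ∈ TT x) : ‖z / (1 + z / n)‖ * ‖hh n z u‖ ≤ 22 / 10 * ‖u‖ := by
  have h0 := D_pos H
  have h1 := convex_TT.norm_image_sub_le_of_norm_deriv_le (𝕜 := ℂ) (f := hh n z)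
    (C := 22 / 10 / ‖z / (1 + z / n)‖)
    (fun w hw => (hh_deriv H hw).differentiableAt) (fun w hw => by
      rw [(hh_deriv H hw).deriv, norm_div]
      exact div_le_div_of_nonneg_right (exp_div_rho (hy H hw)) h0.le) (zero_mem H) hu
  rw [hh_zero, sub_zero, sub_zero] at h1
  have h2 := mul_le_mul_of_nonneg_left h1 h0.le
  refine h2.trans (le_of_eq ?_)
  field_simp

lemma D_ne : z / (1 + z / n) ≠ 0 := norm_pos_iff.1 (D_pos H)

lemma norm_y {u : ℂ} : ‖z / (1 + z / n)‖ * ‖(1 + n / z) * (exp (u / n) - 1)‖ =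
    n * ‖exp (u / n) - 1‖ := by
  rw [← norm_mul, ← mul_assoc, D_mul H, norm_mul, norm_natCast]

/-- the identity of the stage -/
lemma stage_id (h1 : T_PSI) (h2 : T_PHI) {u : ℂ} (hu : u ∈ TT x) :
    u * exp (tau n z u) = z / (1 + z / n) * hh n z u := by
  have hn := nne H
  have hD := D_ne H
  have hs := (rho_slit (hy H hu)).1
  rw [← rho_z H u] at hs
  have hq : |(u / n).im| < Real.pi := by
    have a1 := (hy H hu).hq
    have a2 := (hy H hu).le
    have a3 := Real.pi_gt_d4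
    linarith
  have p1 := slitPlane_ne_zero (h2.2.1 _ hs).1
  have p2 := slitPlane_ne_zero (h1.2.1 _ hq).1
  set y := (1 + n / z) * (exp (u / n) - 1) with hy'
  have e1 : exp (tau n z u) = phi y * psi (u / n) := by
    rw [tau, exp_add, exp_log p1, exp_log p2]
  have e2 : u * psi (u / n) = n * (exp (u / n) - 1) := by
    rw [psi]
    split_ifs with h
    · have hu0 : u = 0 := by
        rcases div_eq_zero_iff.1 h with h' | h'
        · exact h'
        · exact absurd h' hn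
      rw [hu0]
      simp
    · have hu0 : u ≠ 0 := fun h' => h (by rw [h', zero_div])
      field_simp
  have e3 : phi y * y = log (1 + y) := by
    rw [phi]
    split_ifs with h
    · rw [h]
      simp
    · field_simp
  have e4 : hh n z u = log (1 + y) := rfl
  rw [e1, e4, ← e3]
  have e5 := D_mul H
  calc u * (phi y * psi (u / n)) = phi y * (u * psi (u / n)) := by ring
    _ = phi y * ((z / (1 + z / n) * (1 + n / z)) * (exp (u / n) - 1)) := by rw [e2, e5]
    _ = z / (1 + z / n) * (phi y * y) := by rw [hy']; ring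

lemma exp_tau_le (h1 : T_PSI) (h2 : T_PHI) {u : ℂ} (hu : u ∈ TT x) :
    ‖exp (tau n z u)‖ ≤ 3 := by
  have h3 := stage_id H h1 h2 hu
  have h4 := hh_bound H hu
  rcases eq_or_ne u 0 with h0 | h0
  · rw [h0]
    have : tau n z 0 = 0 := by
      simp [tau, phi, psi]
    rw [this, exp_zero, norm_one]
    norm_num
  · have h5 : 0 < ‖u‖ := norm_pos_iff.2 h0
    rw [← norm_mul, ← h3, norm_mul] at h4
    have h6 : ‖exp (tau n z u)‖ * ‖u‖ ≤ 22 / 10 * ‖u‖ := by linarith
    have := le_of_mul_le_mul_right h6 h5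
    linarith

omit H in
lemma norm_exp_sub (w : ℂ) : ‖exp w - 1‖ ≤ ‖w‖ * Real.exp ‖w‖ := by
  refine (norm_exp_sub_one_le' w).trans (mul_le_mul_of_nonneg_left ?_ (norm_nonneg _))
  exact Real.exp_le_exp.2 (max_le (norm_nonneg _) (Complex.re_le_norm w))

/-- the fifth item -/
lemma fifth {u : ℂ} (hu : u ∈ TT x) :
    min ‖u‖ 1 / 4 ≤ ‖z / (1 + z / n)‖ * min ‖hh n z u‖ 1 := by
  have hn := npos H
  have hn' := H.hn
  have hD := D_lb H
  have hx := H.hx
  have hp := D_pos H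
  have hs := (rho_slit (hy H hu)).1
  have h10 : (0 : ℝ) < 10 ^ 7 := by norm_num
  rcases le_total 1 ‖hh n z u‖ with h | h
  · rw [min_eq_right h, mul_one]
    have : min ‖u‖ 1 ≤ 1 := min_le_right _ _
    linarith
  · rw [min_eq_left h]
    have e1 : exp (hh n z u) = 1 + (1 + n / z) * (exp (u / n) - 1) := by
      rw [hh, exp_log]
      rw [rho_z H]
      exact rho_ne (hy H hu)
    have e2 : exp (hh n z u) - 1 = (1 + n / z) * (exp (u / n) - 1) := by
      rw [e1]
      ring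
    have h3 := norm_exp_sub (hh n z u)
    rw [e2] at h3
    have h4 : Real.exp ‖hh n z u‖ ≤ 272 / 100 := by
      have := Real.exp_one_lt_d9
      have h5 := Real.exp_le_exp.2 h
      linarith
    have h5 : ‖(1 + n / z) * (exp (u / n) - 1)‖ ≤ 272 / 100 * ‖hh n z u‖ := by
      refine h3.trans ?_
      rw [mul_comm]
      exact mul_le_mul_of_nonneg_right h4 (norm_nonneg _)
    have h6 := mul_le_mul_of_nonneg_left h5 hp.le
    rw [norm_y H] at h6
    have h7 : 7 / 10 * min ‖u‖ 1 ≤ n * ‖exp (u / n) - 1‖ := by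
      rcases le_total ‖u / n‖ (1 / 4) with h8 | h8
      · have h9 := exp_lower h8
        rw [norm_div, norm_natCast] at h9
        have h11 : ‖u‖ = n * (‖u‖ / n) := by field_simp
        have h12 : min ‖u‖ 1 ≤ ‖u‖ := min_le_left _ _
        have h13 := mul_le_mul_of_nonneg_left h9 hn.le
        have h14 := norm_nonneg u
        nlinarith
      · have g1 := (hy H hu).hq
        have g2 := (hy H hu).le
        have g3 := (hy H hu).hp
        have g4 : |(u / n).im| ≤ 81 / 1000 := by linarith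
        have g5 : (u / n).re ^ 2 + (u / n).im ^ 2 = ‖u / n‖ ^ 2 := by
          rw [Complex.sq_norm, Complex.normSq_apply]
          ring
        have g6 : (u / n).im ^ 2 ≤ (81 / 1000) ^ 2 := by
          rw [← sq_abs]
          exact pow_le_pow_left₀ (abs_nonneg _) g4 2
        have g7 : (1 / 4) ^ 2 ≤ ‖u / n‖ ^ 2 := pow_le_pow_left₀ (by norm_num) h8 2
        have g8 : (1 / 5) ^ 2 < (u / n).re ^ 2 := by linarith
        have g9 : 1 / 5 < (u / n).re := by
          by_contra hcon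
          push Not at hcon
          have : (u / n).re ^ 2 ≤ (1 / 5) ^ 2 := by
            apply sq_le_sq'
            · linarith
            · exact hcon
          linarith
        have g10 : (u / n).re ≤ ‖exp (u / n) - 1‖ := by
          have k1 := norm_sub_norm_le (exp (u / n)) 1
          rw [norm_one, norm_exp] at k1
          have k2 := Real.add_one_le_exp (u / n).re
          linarith
        have g11 : min ‖u‖ 1 ≤ 1 := min_le_right _ _
        have g12 : (n : ℝ) * (1 / 5) ≤ n * ‖exp (u / n) - 1‖ :=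
          mul_le_mul_of_nonneg_left (by linarith) hn.le
        linarith
    have h8 : ‖z / (1 + z / n)‖ * (272 / 100 * ‖hh n z u‖) =
        272 / 100 * (‖z / (1 + z / n)‖ * ‖hh n z u‖) := by ring
    have h9 : 0 ≤ min ‖u‖ 1 := le_min (norm_nonneg _) (by norm_num)
    rw [h8] at h6
    linarith

/-- the last item -/
lemma last_item (h1 : T_PSI) (h2 : T_PHI) {u : ℂ} (hux : ‖u‖ ≤ ‖x‖ / 100) :
    ‖tau n z u‖ ≤ 4 * ‖u‖ / ‖x‖ ∧ ‖hh n z u‖ ≤ 5 / 2 * ‖u‖ / ‖x‖ := by
  have hn := npos H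
  have hD := D_lb H
  have hx : 0 < ‖x‖ := lt_of_lt_of_le (by norm_num) H.hx
  have hp := D_pos H
  have hxn : ‖x‖ ≤ 401 / 100 * n := by
    have := norm_x_le' H
    linarith [H.him]
  have hv : ‖u / n‖ = ‖u‖ / n := by rw [norm_div, norm_natCast]
  have hv1 : ‖u / n‖ ≤ 401 / 100 * (‖u‖ / ‖x‖) := by
    rw [hv, div_le_iff₀ hn]
    have : 401 / 100 * (‖u‖ / ‖x‖) * n = ‖u‖ * (401 / 100 * n / ‖x‖) := by field_simp
    rw [this]
    have h3 : 1 ≤ 401 / 100 * n / ‖x‖ := by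
      rw [le_div_iff₀ hx]
      linarith
    have := norm_nonneg u
    nlinarith
  have hux' : ‖u‖ / ‖x‖ ≤ 1 / 100 := by
    rw [div_le_iff₀ hx]
    linarith
  have hv2 : ‖u / n‖ ≤ 401 / 10000 := by linarith
  set y := (1 + n / z) * (exp (u / n) - 1) with hy'
  have hy1 : ‖z / (1 + z / n)‖ * ‖y‖ = n * ‖exp (u / n) - 1‖ := norm_y H
  have he : Real.exp (401 / 10000) ≤ 1042 / 1000 := by
    have h3 := Real.one_sub_le_exp_neg (401 / 10000)
    rw [Real.exp_neg] at h3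
    have h4 := Real.exp_pos (401 / 10000)
    have h5 : Real.exp (401 / 10000) * (1 - 401 / 10000) ≤ 1 := by
      calc Real.exp (401 / 10000) * (1 - 401 / 10000) ≤ Real.exp (401 / 10000) *
          (Real.exp (401 / 10000))⁻¹ := mul_le_mul_of_nonneg_left h3 h4.le
        _ = 1 := mul_inv_cancel₀ h4.ne'
    by_contra hcon
    push Not at hcon
    linarith
  have hy2 : ‖exp (u / n) - 1‖ ≤ 1042 / 1000 * (‖u‖ / n) := by
    have h3 := norm_exp_sub (u / n)
    have h4 : Real.exp ‖u / n‖ ≤ 1042 / 1000 := (Real.exp_le_exp.2 hv2).trans he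
    have h5 := mul_le_mul_of_nonneg_left h4 (norm_nonneg (u / n))
    rw [hv] at h3 h5
    rw [hv] at h4
    linarith
  have hy3 : ‖y‖ ≤ 234 / 100 * (‖u‖ / ‖x‖) := by
    have h3 : ‖z / (1 + z / n)‖ * ‖y‖ ≤ 1042 / 1000 * ‖u‖ := by
      rw [hy1]
      have h4 := mul_le_mul_of_nonneg_left hy2 hn.le
      have h5 : (n : ℝ) * (1042 / 1000 * (‖u‖ / n)) = 1042 / 1000 * ‖u‖ := by field_simp
      linarith
    have h4 : 447 / 1000 * ‖x‖ * ‖y‖ ≤ 1042 / 1000 * ‖u‖ :=
      (mul_le_mul_of_nonneg_right hD (norm_nonneg _)).trans h3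
    have h5 : 234 / 100 * (‖u‖ / ‖x‖) = 234 / 100 * ‖u‖ / ‖x‖ := by ring
    rw [h5, le_div_iff₀ hx]
    have := norm_nonneg u
    linarith
  have hy4 : ‖y‖ ≤ 234 / 10000 := by linarith
  have hu0 : 0 ≤ ‖u‖ / ‖x‖ := by positivity
  constructor
  · have h3 := h2.2.2 y (by linarith)
    have h4 := h1.2.2.1 (u / n) (by linarith)
    have h5 : ‖tau n z u‖ ≤ ‖log (phi y)‖ + ‖log (psi (u / n))‖ := norm_add_le _ _
    have h6 : 4 * ‖u‖ / ‖x‖ = 4 * (‖u‖ / ‖x‖) := by ring
    rw [h6]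
    linarith
  · have h3 := norm_log_one_add_le (z := y) (by linarith)
    have h4 : hh n z u = log (1 + y) := rfl
    have h6 : 5 / 2 * ‖u‖ / ‖x‖ = 5 / 2 * (‖u‖ / ‖x‖) := by ring
    rw [h4, h6]
    have h7 : (1 - ‖y‖)⁻¹ ≤ 11 / 10 := by
      rw [inv_le_comm₀ (by linarith) (by norm_num)]
      norm_num
      linarith
    have h8 : ‖y‖ ^ 2 * (1 - ‖y‖)⁻¹ / 2 ≤ 13 / 1000 * ‖y‖ := by
      have h9 : ‖y‖ ^ 2 * (1 - ‖y‖)⁻¹ ≤ (234 / 10000 * ‖y‖) * (11 / 10) := by
        apply mul_le_mul _ h7 (by have : 0 < 1 - ‖y‖ := by linarith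
                                  positivity) (by positivity)
        rw [sq]
        exact mul_le_mul_of_nonneg_right hy4 (norm_nonneg _)
      have := norm_nonneg y
      linarith
    linarith

end

end TOPST_

open TOPST_ in
/-- The top stage. -/
theorem p_TOPST (h1 : T_PSI) (h2 : T_PHI) : T_TOPST := by
  intro n x z u hn hx hre him hz hu
  have H : Hx n x z := ⟨hn, hx, hre, him, hz⟩
  have hY := hy H hu
  have hr := rho_slit hY
  have hr2 := rho_norm_lb hY
  have hnn := nne H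
  rw [← rho_z H u] at hr hr2
  have hq : |(u / n).im| < Real.pi := by
    have a1 := hY.hq
    have a2 := hY.le
    have a3 := Real.pi_gt_d4
    linarith
  have hphi := h2.2.1 _ hr.1
  have hpsi := h1.2.1 _ hq
  refine ⟨⟨hr.1, hr.2, hr2⟩, ⟨?_, ?_⟩, ?_, exp_tau_le H h1 h2 hu, fifth H hu,
    stage_id H h1 h2 hu, (hh_deriv H hu).differentiableAt, ?_, ?_, last_item H h1 h2⟩
  · rw [hh, log_re]
    have a1 := Real.log_le_log (by norm_num) hr2
    have a2 := Real.one_sub_inv_le_log_of_pos (by norm_num : (0 : ℝ) < 9 / 10)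
    norm_num at a2
    linarith
  · rw [hh, log_im]
    exact lt_of_le_of_lt hr.2 (by norm_num)
  · rw [tau, add_im, log_im, log_im]
    refine (abs_add_le _ _).trans ?_
    have a1 := hY.hq
    have a2 := hY.le
    linarith [hphi.2, hpsi.2, hr.2]
  · have d1 : DifferentiableAt ℂ (fun U : ℂ => (1 + n / z) * (exp (U / n) - 1)) u := by
      fun_prop
    have d2 : DifferentiableAt ℂ (fun U : ℂ => phi ((1 + n / z) * (exp (U / n) - 1))) u :=
      DifferentiableAt.comp (g := phi) (f := fun U : ℂ => (1 + n / z) * (exp (U / n) - 1)) u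
        (h2.1 _ hr.1) d1
    have d3 : DifferentiableAt ℂ (fun U : ℂ => psi (U / n)) u :=
      DifferentiableAt.comp (g := psi) (f := fun U : ℂ => U / n) u (h1.1 _) (by fun_prop)
    exact (d2.clog hphi.1).add (d3.clog hpsi.1)
  · have a1 := hh_bound H hu
    have a2 := D_lb H
    have a3 : (3 : ℝ) ≤ ‖z / (1 + z / n)‖ := by
      have : (10 : ℝ) ^ 7 = 10000000 := by norm_num
      linarith
    have a4 := mul_le_mul_of_nonneg_right a3 (norm_nonneg (hh n z u))
    have a5 := norm_nonneg u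
    linarith

end Pool.Agent.Limb
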