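import Pool.Agent.Limb.Targets2

/-!
TRAPM: an attracting cycle of period `m + 1` which traps the critical orbit.
-/

set_option autoImplicit false

open Complex Filter Topology Set
open Pool.Agent.Multibrot

namespace Pool.Agent.Limb

namespace TRAPM_

/-- A map `U ↦ U * exp (g U)` with `g` small covers a disc. -/
theorem cover (g : ℂ → ℂ) (hd : ∀ U : ℂ, ‖U‖ < 3 → DifferentiableAt ℂ g U)
    (hg : ∀ U : ℂ, ‖U‖ < 3 → ‖g U‖ ≤ 1 / 10 ^ 7 * ‖U‖) (v : ℂ) (hv : ‖v‖ ≤ 1 / 10) :
    ∃ U : ℂ, ‖U‖ ≤ 1 / 4 ∧ U * exp (g U) = v := by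
  set f : ℂ → ℂ := fun U => U * exp (g U) with hf
  have hf0 : f 0 = 0 := by simp [hf]
  have hfd : ∀ U : ℂ, ‖U‖ < 3 → DifferentiableAt ℂ f U := fun U hU =>
    differentiableAt_id.mul ((hd U hU).cexp)
  have hlow : ∀ U : ℂ, ‖U‖ = 1 / 4 → 9 / 40 ≤ ‖f U‖ := by
    intro U hU
    have h1 : ‖g U‖ ≤ 1 / 10 ^ 7 * (1 / 4) := by
      have := hg U (by rw [hU]; norm_num)
      rwa [hU] at this
    have h2 : -(1 / 10 ^ 7 * (1 / 4)) ≤ (g U).re :=
      (abs_le.1 ((abs_re_le_norm _).trans h1)).1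
    have h3 : 9 / 10 ≤ Real.exp (g U).re := by
      have := Real.add_one_le_exp (g U).re
      norm_num at h2
      linarith
    have h4 : ‖f U‖ = 1 / 4 * Real.exp (g U).re := by
      rw [hf]
      simp only [norm_mul, hU, norm_exp]
    rw [h4]
    linarith
  have hdc : DiffContOnCl ℂ f (Metric.ball 0 (1 / 4)) := by
    apply DifferentiableOn.diffContOnCl
    intro U hU
    rw [closure_ball _ (by norm_num)] at hU
    have : ‖U‖ < 3 := lt_of_le_of_lt (mem_closedBall_zero_iff.1 hU) (by norm_num)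
    exact (hfd U this).differentiableWithinAt
  have hfr : ∃ᶠ z in 𝓝 (0 : ℂ), f z ≠ f 0 := by
    have h1 : ∃ᶠ z in 𝓝[≠] (0 : ℂ), z ∈ ({0}ᶜ : Set ℂ) :=
      (eventually_mem_nhdsWithin).frequently
    refine (h1.filter_mono nhdsWithin_le_nhds).mono ?_
    intro z hz
    rw [hf0, hf]
    exact mul_ne_zero hz (exp_ne_zero _)
  have hsub := hdc.ball_subset_image_closedBall (ε := 9 / 40) (by norm_num)
    (by
      intro z hz
      rw [hf0, sub_zero]
      exact hlow z (by simpa using hz)) hfr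
  have hmem : v ∈ Metric.ball (f 0) (9 / 40 / 2) := by
    rw [hf0, mem_ball_zero_iff]
    exact lt_of_le_of_lt hv (by norm_num)
  obtain ⟨U, hU, hUv⟩ := hsub hmem
  exact ⟨U, mem_closedBall_zero_iff.1 hU, hUv⟩

theorem DD_ne {n m : ℕ} {L : ℂ} (hl : Low n m L) (hz : zz n L m ≠ -n) : DD n L m ≠ 0 := by
  have hnC := natCast_ne hl.two_le
  unfold DD
  rw [Finset.prod_ne_zero_iff]
  intro i hi
  have hi' : i < m := Finset.mem_range.1 hi
  have hne : zz n L (i + 1) ≠ 0 := ne_zero_of_big (hl.ge8 (by omega) (by omega))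
  refine div_ne_zero hne ?_
  rcases Nat.lt_or_ge (i + 1) m with h | h
  · exact one_add_ne (hl.hre (i + 1) (by omega) h)
  · have e : i + 1 = m := by omega
    rw [e]
    intro h0
    apply hz
    have h1 : zz n L m / n = -1 := by
      linear_combination h0
    rw [div_eq_iff hnC] at h1
    rw [h1]
    ring

theorem ne_neg {n m : ℕ} {L : ℂ} (hl : Low n m L) (hz : zz n L m ≠ -n) :
    ∀ i, 1 ≤ i → i ≤ m → (10 : ℝ) ^ 8 ≤ ‖zz n L i‖ ∧ zz n L i ≠ -n := by
  intro i h1 h2
  refine ⟨hl.ge8 h1 h2, ?_⟩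
  rcases Nat.lt_or_ge i m with h | h
  · intro h0
    have h3 := hl.hre i h1 h
    rw [h0, neg_re, natCast_re] at h3
    have h4 := hl.hn
    have : (0 : ℝ) < n := lt_of_lt_of_le (by norm_num) h4
    linarith
  · have e : i = m := by omega
    rw [e]
    exact hz

/-- The trapping disc. -/
theorem trap (h : T_GDISC) {n m : ℕ} {L : ℂ} (hl : Low n m L) (hz : zz n L m ≠ -n)
    (hD : ‖zz n L (m + 1) * DD n L m‖ ≤ 1 / 100) (w : ℂ) (hw : ‖DD n L m * w‖ ≤ 1 / 10) :
    ‖DD n L m * (E n L)^[m + 1] w‖ ≤ 1 / 10 := by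
  have hnC := natCast_ne hl.two_le
  have hD0 := DD_ne hl hz
  have hG := fun (U : ℂ) (hU : ‖U‖ < 3) => h n m L U hl.hn (ne_neg hl hz) hU
  obtain ⟨U, hU, hUv⟩ := cover (GG n L m) (fun U hU => (hG U hU).2.2.2.2.1)
    (fun U hU => (hG U hU).1) (DD n L m * w) hw
  have hU3 : ‖U‖ < 3 := lt_of_le_of_lt hU (by norm_num)
  obtain ⟨-, -, h3, h4, -⟩ := hG U hU3
  have hW : W0 n L m U = w := by
    have := h3.symm.trans hUv
    exact mul_left_cancel₀ hD0 this
  have hE : (E n L)^[m + 1] w = zz n L (m + 1) * exp U := by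
    rw [Function.iterate_succ_apply', ← hW, h4, zz_succ]
    unfold E
    have h1 : 1 + (n : ℂ) * ((1 + zz n L m / n) * exp (U / n) - 1) / n =
        (1 + zz n L m / n) * exp (U / n) := by
      field_simp
      ring
    rw [h1, mul_pow, ← exp_nat_mul]
    have h2 : (n : ℂ) * (U / n) = U := by field_simp
    rw [h2]
    ring
  have he : ‖exp U‖ ≤ 2 := by
    rw [norm_exp]
    have h1 : U.re ≤ 1 / 4 := ((le_abs_self _).trans (abs_re_le_norm _)).trans hU
    calc Real.exp U.re ≤ Real.exp (1 / 4) := Real.exp_le_exp.2 h1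
      _ ≤ 2 := by
        have h2 := Real.one_sub_le_exp_neg (1 / 4)
        rw [Real.exp_neg] at h2
        have h3 : 0 < Real.exp (1 / 4) := Real.exp_pos _
        have h4 : Real.exp (1 / 4) * (Real.exp (1 / 4))⁻¹ = 1 := mul_inv_cancel₀ h3.ne'
        nlinarith
  calc ‖DD n L m * (E n L)^[m + 1] w‖ = ‖(zz n L (m + 1) * DD n L m) * exp U‖ := by
        rw [hE]
        congr 1
        ring
    _ = ‖zz n L (m + 1) * DD n L m‖ * ‖exp U‖ := norm_mul _ _
    _ ≤ 1 / 100 * 2 := mul_le_mul hD he (norm_nonneg _) (by norm_num)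
    _ ≤ 1 / 10 := by norm_num

end TRAPM_

open TRAPM_ in
theorem p_TRAPM (h : T_GDISC) : T_TRAPM := by
  intro n m L hl hz hD
  have hn2 := hl.two_le
  have hnC := natCast_ne hn2
  have hD0 := DD_ne hl hz
  have hDp : 0 < ‖DD n L m‖ := norm_pos_iff.2 hD0
  -- the orbit visits the trapping disc
  have hq : ∀ q : ℕ, ‖DD n L m * zz n L ((m + 1) * q)‖ ≤ 1 / 10 := by
    intro q
    induction q with
    | zero => simp [zz_zero]
    | succ q ih =>
      have e : zz n L ((m + 1) * (q + 1)) = (E n L)^[m + 1] (zz n L ((m + 1) * q)) := by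
        unfold zz
        rw [← Function.iterate_add_apply]
        congr 1
        ring
      rw [e]
      exact trap h hl hz hD _ ih
  -- it is bounded
  obtain ⟨B, hB⟩ : ∃ B : ℝ, ∀ k, ‖zz n L k‖ ≤ B := by
    have hEc : Continuous (E n L) := by
      unfold E
      fun_prop
    have hK : IsCompact (Metric.closedBall (0 : ℂ) (1 / 10 / ‖DD n L m‖)) :=
      isCompact_closedBall _ _
    have hb : ∀ r : ℕ, ∃ C : ℝ, ∀ w ∈ Metric.closedBall (0 : ℂ) (1 / 10 / ‖DD n L m‖),
        ‖(E n L)^[r] w‖ ≤ C := by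
      intro r
      obtain ⟨C, hC⟩ := hK.exists_bound_of_continuousOn ((hEc.iterate r).continuousOn)
      exact ⟨C, hC⟩
    choose C hC using hb
    refine ⟨∑ r ∈ Finset.range (m + 1), |C r|, fun k => ?_⟩
    have hk := Nat.mod_add_div k (m + 1)
    have hr : k % (m + 1) < m + 1 := Nat.mod_lt _ (by omega)
    have e : zz n L k = (E n L)^[k % (m + 1)] (zz n L ((m + 1) * (k / (m + 1)))) := by
      unfold zz
      rw [← Function.iterate_add_apply, hk]
    have h1 : zz n L ((m + 1) * (k / (m + 1))) ∈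
        Metric.closedBall (0 : ℂ) (1 / 10 / ‖DD n L m‖) := by
      rw [mem_closedBall_zero_iff, le_div_iff₀ hDp, mul_comm, ← norm_mul]
      exact hq _
    have h2 := hC (k % (m + 1)) _ h1
    rw [e]
    refine h2.trans ((le_abs_self _).trans ?_)
    exact Finset.single_le_sum (f := fun r => |C r|) (fun i _ => abs_nonneg _)
      (Finset.mem_range.2 hr)
  -- conclusion
  intro k
  by_contra hk
  rw [not_le] at hk
  have ht := tendsto_of_two_lt hn2 hk
  obtain ⟨k1, hk1, hk2⟩ := ((ht.eventually (eventually_gt_atTop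
    (‖cc n L‖ * (1 + B / n)))).and (eventually_ge_atTop 1)).exists
  obtain ⟨j, rfl⟩ := Nat.exists_eq_add_of_le' hk2
  have h1 : ‖Q n (j + 1) (cc n L)‖ ≤ ‖cc n L‖ * (1 + B / n) := by
    rw [Q_succ_eq hn2, norm_mul]
    refine mul_le_mul_of_nonneg_left ?_ (norm_nonneg _)
    refine (norm_add_le _ _).trans ?_
    rw [norm_one, norm_div, norm_natCast]
    have := div_le_div_of_nonneg_right (hB j) (Nat.cast_nonneg (α := ℝ) n)
    linarith
  linarith

end Pool.Agent.Limb
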