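import Pool.Agent.Limb.Targets

/-!
# LIMB: the itinerary is integral and the angle is small
-/

set_option autoImplicit false

open Complex Filter Topology Set
open Pool.Agent.Multibrot

namespace Pool.Agent.Limb

namespace TYPE_

lemma exp_lg {n j : ℕ} {L x : ℂ} (h : Tow n j L x) (hz : exp (zeta n x) = zz n L j) {i : ℕ}
    (hi : i < j) :
    exp (if i = j - 1 then zeta n x else log (zz n L (i + 1))) = zz n L (i + 1) := by
  split_ifs with h1
  · have h2 : i + 1 = j := by omega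
    rw [h2, hz]
  · exact exp_log (ne_zero_of_big (h.toLow.ge8 (by omega) (by omega)))

lemma one_add_ne' {n j : ℕ} {L x : ℂ} (h : Tow n j L x) {i : ℕ} (hi : i < j) :
    1 + zz n L i / n ≠ 0 := by
  rcases Nat.eq_zero_or_pos i with rfl | h0
  · rw [zz_zero]
    simp
  · exact one_add_ne (h.toLow.hre i h0 hi)

lemma key {n j : ℕ} {L x : ℂ} (h : Tow n j L x) (hz : exp (zeta n x) = zz n L j) {i : ℕ}
    (hi : i < j) : ∃ k : ℤ,
    n * log (1 + zz n L i / n) - (if i = j - 1 then zeta n x else log (zz n L (i + 1))) + L =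
      k * (2 * Real.pi * I) := by
  rw [← exp_eq_one_iff, exp_add, exp_sub, exp_lg h hz hi, exp_nat_mul, exp_log (one_add_ne' h hi)]
  have h1 : zz n L (i + 1) = exp L * (1 + zz n L i / n) ^ n := zz_succ n L i
  have h2 : (1 + zz n L i / n) ^ n ≠ 0 := pow_ne_zero _ (one_add_ne' h hi)
  have h3 := exp_ne_zero L
  rw [h1]
  field_simp

lemma lg_im_le {n j : ℕ} {L x : ℂ} (h : Tow n j L x) (i : ℕ) :
    |(if i = j - 1 then zeta n x else log (zz n L (i + 1))).im| ≤ 2 + Real.pi := by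
  have hn0 : (0 : ℝ) < n := lt_of_lt_of_le (by norm_num) h.toLow.hn
  split_ifs with h1
  · have h2 : (x / (2 * n) : ℂ).im = x.im / (2 * n) := by
      have : (2 * (n : ℂ)) = ((2 * n : ℝ) : ℂ) := by push_cast; ring
      rw [this, div_ofReal_im]
    have h3 : |x.im / (2 * n)| ≤ 2 := by
      rw [abs_div, abs_of_pos (by positivity : (0 : ℝ) < 2 * n), div_le_iff₀ (by positivity)]
      have := h.hle
      linarith
    have h4 : |(log (2 * sinh (x / (2 * n)))).im| ≤ Real.pi := by
      rw [log_im]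
      exact abs_arg_le_pi _
    rw [zeta, add_im, add_im, ofReal_im, zero_add, h2]
    exact (abs_add_le _ _).trans (add_le_add h3 h4)
  · rw [log_im]
    have := abs_arg_le_pi (zz n L (i + 1))
    linarith

lemma sI_zero_le {n j : ℕ} {L x : ℂ} (h : Tow n j L x) (h0 : 0 < L.im)
    (h1 : L.im < 2 * Real.pi) : |sI n j L x 0| ≤ 2 := by
  have hp := Real.pi_gt_three
  have h2 := lg_im_le h 0
  rw [sI, abs_div, abs_of_pos (by positivity : (0 : ℝ) < 2 * Real.pi), div_le_iff₀ (by positivity),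
    zz_zero, zero_div, add_zero, log_one, mul_zero, zero_sub, add_im, neg_im]
  rw [abs_le] at h2 ⊢
  constructor <;> linarith [h2.1, h2.2]

lemma sI_le {n j : ℕ} {L x : ℂ} (h : Tow n j L x) (h0 : 0 < L.im)
    (h1 : L.im < 2 * Real.pi) (i : ℕ) : |sI n j L x i| ≤ n := by
  have hn : (10 : ℝ) ^ 20 ≤ n := h.toLow.hn
  have hp := Real.pi_gt_three
  have h2 := lg_im_le h i
  have h3 : |((n : ℂ) * log (1 + zz n L i / n)).im| ≤ n * Real.pi := by
    have e : ((n : ℂ) * log (1 + zz n L i / n)).im = n * (log (1 + zz n L i / n)).im := by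
      rw [← ofReal_natCast, im_ofReal_mul]
    rw [e, abs_mul, abs_of_nonneg (Nat.cast_nonneg n : (0 : ℝ) ≤ n), log_im]
    exact mul_le_mul_of_nonneg_left (abs_arg_le_pi _) (Nat.cast_nonneg n)
  rw [sI, abs_div, abs_of_pos (by positivity : (0 : ℝ) < 2 * Real.pi), div_le_iff₀ (by positivity),
    add_im, sub_im]
  have h4 : (3 : ℝ) * 10 ^ 20 ≤ n * Real.pi := by nlinarith
  have h5 : Real.pi < 4 := Real.pi_lt_four
  rw [abs_le] at h2 h3 ⊢
  constructor <;> nlinarith [h2.1, h2.2, h3.1, h3.2]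

end TYPE_

open TYPE_ in
theorem p_TYPE (h : T_WEST) : T_TYPE := by
  intro n j L x s ht h0 h1
  obtain ⟨-, hz, -, -, hK, -, -⟩ := h n j L x ht
  have hn : (10 : ℝ) ^ 20 ≤ n := ht.toLow.hn
  have hn0 : (0 : ℝ) < n := lt_of_lt_of_le (by norm_num) hn
  have hj : 1 ≤ j := ht.toLow.hj
  have hp := Real.pi_gt_three
  have hp4 := Real.pi_lt_four
  have A : ∀ i, i < j → ∃ k : ℤ, sI n j L x i = k ∧
      n * log (1 + zz n L i / n) =
        (if i = j - 1 then zeta n x else log (zz n L (i + 1))) - L + 2 * Real.pi * I * k := by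
    intro i hi
    obtain ⟨k, hk⟩ := key ht hz hi
    refine ⟨k, ?_, ?_⟩
    · rw [sI, hk]
      have e : ((k : ℂ) * (2 * Real.pi * I)).im = k * (2 * Real.pi) := by
        have : (k : ℂ) * (2 * Real.pi * I) = ((k * (2 * Real.pi) : ℝ) : ℂ) * I := by
          push_cast
          ring
        rw [this, im_ofReal_mul]
        simp
      rw [e]
      field_simp
    · linear_combination hk
  have hpow : (1 : ℝ) < (n : ℝ) ^ (j + 1) := one_lt_pow₀ (by linarith [hn, (by norm_num : (1 : ℝ) < 10 ^ 20)]) (by omega)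
  have hden : (0 : ℝ) < (n : ℝ) ^ (j + 1) - 1 := by linarith
  have hth : ((n : ℝ) ^ (j + 1) - 1) * th n j L x s =
      ∑ i ∈ Finset.range j, sI n j L x i * (n : ℝ) ^ (j - i) + s := by
    rw [th, mul_div_cancel₀ _ hden.ne']
  refine ⟨A, ?_, ?_⟩
  · rw [hth]
    choose! k hk using A
    refine ⟨∑ i ∈ Finset.range j, k i * (n : ℤ) ^ (j - i) + s, ?_⟩
    push_cast
    congr 1
    refine Finset.sum_congr rfl fun i hi => ?_
    rw [(hk i (Finset.mem_range.1 hi)).1]
  · intro hW
    have hx1 := ht.norm_x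
    have hx2 := ht.norm_x_le
    have hj2 : (j : ℝ) ≤ 2 ^ j := by
      have : j < 2 ^ j := Nat.lt_two_pow_self
      exact_mod_cast this.le
    have hjn : (j : ℝ) ≤ n / 10 ^ 6 := by
      rw [le_div_iff₀ (by norm_num)]
      nlinarith
    -- the last integer
    have hs : |(s : ℝ)| ≤ n := by
      have e : (WW n j L x).im = x.im + L.im + (KK n j L x).im := by
        rw [WW, add_im, add_im]
      rw [e] at hW
      have h2 := ht.hle
      rw [abs_le] at hW hK h2 ⊢
      constructor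
      · by_contra hcon
        push Not at hcon
        nlinarith [hW.1, hW.2, hK.1, hK.2, h2.1, h2.2]
      · by_contra hcon
        push Not at hcon
        nlinarith [hW.1, hW.2, hK.1, hK.2, h2.1, h2.2]
    have hterm : ∀ i ∈ Finset.range j, |sI n j L x i * (n : ℝ) ^ (j - i)| ≤ 2 * (n : ℝ) ^ j := by
      intro i hi
      have hi' := Finset.mem_range.1 hi
      rw [abs_mul, abs_of_nonneg (by positivity : (0 : ℝ) ≤ (n : ℝ) ^ (j - i))]
      rcases Nat.eq_zero_or_pos i with h00 | hpos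
      · subst h00
        rw [Nat.sub_zero]
        exact mul_le_mul_of_nonneg_right (sI_zero_le ht h0 h1) (by positivity)
      · calc |sI n j L x i| * (n : ℝ) ^ (j - i) ≤ n * (n : ℝ) ^ (j - i) :=
              mul_le_mul_of_nonneg_right (sI_le ht h0 h1 i) (by positivity)
          _ = (n : ℝ) ^ (j - i + 1) := by ring
          _ ≤ (n : ℝ) ^ j := pow_le_pow_right₀ (by linarith [(by norm_num : (1 : ℝ) < 10 ^ 20)]) (by omega)
          _ ≤ 2 * (n : ℝ) ^ j := by linarith [pow_pos hn0 j]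
    have hsum : |∑ i ∈ Finset.range j, sI n j L x i * (n : ℝ) ^ (j - i)| ≤ j * (2 * (n : ℝ) ^ j) := by
      refine (Finset.abs_sum_le_sum_abs _ _).trans ((Finset.sum_le_card_nsmul _ _ _ hterm).trans ?_)
      rw [Finset.card_range, nsmul_eq_mul]
    have hnj : (n : ℝ) ≤ (n : ℝ) ^ j := le_self_pow₀ (by linarith [(by norm_num : (1 : ℝ) < 10 ^ 20)]) (by omega)
    have hnum : ((n : ℝ) ^ (j + 1) - 1) * |th n j L x s| ≤ (2 * j + 1) * (n : ℝ) ^ j := by
      have e : ((n : ℝ) ^ (j + 1) - 1) * |th n j L x s| =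
          |∑ i ∈ Finset.range j, sI n j L x i * (n : ℝ) ^ (j - i) + s| := by
        rw [← hth, abs_mul, abs_of_pos hden]
      rw [e]
      refine (abs_add_le _ _).trans ?_
      linarith
    have hpj : (1 : ℝ) ≤ (n : ℝ) ^ j := one_le_pow₀ (by linarith [(by norm_num : (1 : ℝ) < 10 ^ 20)])
    have hth2 : |th n j L x s| ≤ 1 / 10 ^ 4 := by
      by_contra hcon
      push Not at hcon
      have h5 : ((n : ℝ) ^ (j + 1) - 1) * (1 / 10 ^ 4) ≤ ((n : ℝ) ^ (j + 1) - 1) * |th n j L x s| :=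
        mul_le_mul_of_nonneg_left hcon.le hden.le
      have h6 : ((n : ℝ) ^ (j + 1) - 1) * (1 / 10 ^ 4) ≤ (2 * j + 1) * (n : ℝ) ^ j := h5.trans hnum
      have h7 : (2 * (j : ℝ) + 1) * (n : ℝ) ^ j ≤ (n / 10 ^ 5) * (n : ℝ) ^ j := by
        apply mul_le_mul_of_nonneg_right _ (by positivity)
        have : (1 : ℝ) ≤ n / 10 ^ 20 := by rw [le_div_iff₀ (by norm_num)]; linarith
        linarith
      have h8 : (n : ℝ) ^ (j + 1) = n * (n : ℝ) ^ j := by ring
      rw [h8] at h6
      nlinarith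
    have hell : |(ell n L).im| ≤ 1 / 10 ^ 4 := by
      have hn1 : (0 : ℝ) < (n : ℝ) - 1 := by linarith [(by norm_num : (1 : ℝ) < 10 ^ 20)]
      have e1 : ((n : ℂ) - 1) = ((n - 1 : ℝ) : ℂ) := by push_cast; ring
      have e2 : (ell n L).im = L.im / (n - 1) := by
        rw [ell, e1, div_ofReal_im, sub_im, ofReal_im, sub_zero]
      rw [e2, abs_div, abs_of_pos hn1, abs_of_pos h0, div_le_iff₀ hn1]
      nlinarith
    have h9 : |2 * Real.pi * th n j L x s| ≤ 8 / 10 ^ 4 := by
      rw [abs_mul, abs_of_pos (by positivity : (0 : ℝ) < 2 * Real.pi)]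
      calc 2 * Real.pi * |th n j L x s| ≤ 8 * (1 / 10 ^ 4) :=
            mul_le_mul (by linarith) hth2 (abs_nonneg _) (by norm_num)
        _ = _ := by norm_num
    refine (abs_sub _ _).trans ?_
    linarith

end Pool.Agent.Limb
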