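import Pool.Agent.Limb.Targets

/-!
# LIMB: positions of the cycle relative to the critical orbit (UI1, UI2)
-/

set_option autoImplicit false

open Complex Filter Topology Set
open Pool.Agent.Multibrot

namespace Pool.Agent.Limb

namespace UI_

lemma ui_eq {n : ℕ} (hn : n ≠ 0) {z w U : ℂ} (hz : 1 + z / n ≠ 0)
    (hw : w = n * ((1 + z / n) * exp (U / n) - 1)) (hU : ‖U / n‖ < 3) : ui n z w = U := by
  have hn0 : (n : ℂ) ≠ 0 := by exact_mod_cast hn
  have h1 : (1 + w / n) / (1 + z / n) = exp (U / n) := by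
    have e : 1 + w / n = (1 + z / n) * exp (U / n) := by
      rw [hw, mul_div_cancel_left₀ _ hn0]
      ring
    rw [e, mul_div_cancel_left₀ _ hz]
  have h2 : |(U / n).im| < 3 := (abs_im_le_norm _).trans_lt hU
  have h3 := Real.pi_gt_three
  have h4 := abs_lt.1 h2
  rw [ui, h1, log_exp (by linarith) (by linarith)]
  field_simp

/-- the low part of the chain -/
lemma low (h3 : T_DISCST) (h4 : T_GDISC) (n : ℕ) (L : ℂ) (hn : (10 : ℝ) ^ 20 ≤ n) :
    ∀ (k : ℕ), (∀ i, 1 ≤ i → i ≤ k → (10 : ℝ) ^ 8 ≤ ‖zz n L i‖ ∧ zz n L i ≠ -n) →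
    ∀ U : ℂ, ‖U‖ ≤ 1 / 2 →
    (∀ i, i ≤ k → ‖ui n (zz n L i) ((E n L)^[i] (W0 n L k U))‖ ≤ ‖U‖) ∧
    ui n (zz n L k) ((E n L)^[k] (W0 n L k U)) = U ∧
    ∑ i ∈ Finset.range (k + 1), ui n (zz n L i) ((E n L)^[i] (W0 n L k U)) = SS n L k U := by
  have hn1 : (0 : ℝ) < n := lt_of_lt_of_le (by norm_num) hn
  have hn' : n ≠ 0 := by rintro rfl; norm_num at hn1
  have hn0 : (n : ℂ) ≠ 0 := by exact_mod_cast hn'
  have hdiv : ∀ U : ℂ, ‖U‖ ≤ 1 / 2 → ‖U / n‖ < 3 := by
    intro U hU
    rw [norm_div, norm_natCast, div_lt_iff₀ hn1]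
    have : (1 : ℝ) ≤ n := le_trans (by norm_num) hn
    linarith
  intro k
  induction k with
  | zero =>
    intro _ U hU
    have h0 : ui n (zz n L 0) ((E n L)^[0] (W0 n L 0 U)) = U := by
      apply ui_eq hn' (U := U)
      · rw [zz_zero]; simp
      · rw [zz_zero, Function.iterate_zero, id, W0, VV]
        simp
      · exact hdiv U hU
    refine ⟨?_, h0, ?_⟩
    · intro i hi
      have hi0 : i = 0 := by omega
      rw [hi0, h0]
    · rw [Finset.sum_range_one, h0, SS]
  | succ k ih =>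
    intro hk U hU
    have hk1 := hk (k + 1) (by omega) le_rfl
    have h5 := h3 n (zz n L (k + 1)) U hn hk1.1 hk1.2 (by linarith)
    have h6 : ‖hh n (zz n L (k + 1)) U‖ ≤ ‖U‖ := by
      have := h5.2.1
      have h7 := norm_nonneg U
      nlinarith
    obtain ⟨i1, i2, i3⟩ := ih (fun i hi1 hi2 => hk i hi1 (by omega)) (hh n (zz n L (k + 1)) U)
      (h6.trans hU)
    have h8 : W0 n L (k + 1) U = W0 n L k (hh n (zz n L (k + 1)) U) := rfl
    have h9 := (h4 n (k + 1) L U hn hk (by linarith)).2.2.2.1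
    have hz : 1 + zz n L (k + 1) / n ≠ 0 := by
      intro h0
      apply hk1.2
      field_simp at h0
      linear_combination h0
    have h10 : ui n (zz n L (k + 1)) ((E n L)^[k + 1] (W0 n L (k + 1) U)) = U :=
      ui_eq hn' hz h9 (hdiv U hU)
    refine ⟨?_, h10, ?_⟩
    · intro i hi
      rcases Nat.lt_or_ge i (k + 1) with h | h
      · rw [h8]
        exact (i1 i (by omega)).trans h6
      · have hi0 : i = k + 1 := by omega
        rw [hi0, h10]
    · rw [Finset.sum_range_succ, h10, h8, i3]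
      change _ = U + SS n L k (hh n (zz n L (k + 1)) U)
      ring

lemma ne_neg {n : ℕ} (hn : 0 < n) {z : ℂ} (h : 0 ≤ z.re) : z ≠ -n := by
  intro h0
  rw [h0, neg_re, natCast_re] at h
  have : (0 : ℝ) < n := by exact_mod_cast hn
  linarith

end UI_

theorem p_UI1 (h1 : T_GTOP) (h2 : T_TOPST) (h3 : T_DISCST) (h4 : T_GDISC) : T_UI1 := by
  intro n j L x u hT hu
  have hn := hT.hn
  have hn1 : (0 : ℝ) < n := lt_of_lt_of_le (by norm_num) hn
  have hn' : n ≠ 0 := by rintro rfl; norm_num at hn1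
  have hx1 := hT.norm_x
  have hx2 := hT.norm_x_le
  have hx3 : (10 : ℝ) ^ 7 ≤ ‖x‖ := by
    have h5 : (1 : ℝ) ≤ 2 ^ j := one_le_pow₀ (by norm_num)
    nlinarith
  have hx0 : 0 < ‖x‖ := lt_of_lt_of_le (by norm_num) hx3
  have huT : u ∈ TT x := by
    constructor
    · have h5 := abs_le.1 ((abs_re_le_norm u).trans hu)
      have h6 : ‖x‖ / 100 < ‖x‖ / 80 := by linarith
      linarith [h5.1]
    · have h5 := (abs_im_le_norm u).trans hu
      have h6 : ‖x‖ / 100 < ‖x‖ / 50 := by linarith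
      linarith
  have hg := (h1 n j L x u hT huT).2.2.2.2.1
  have hz : 1 + zz n L j / n ≠ 0 := by
    rw [hT.one_add]
    exact exp_ne_zero _
  have hdiv : ‖u / n‖ < 3 := by
    rw [norm_div, norm_natCast, div_lt_iff₀ hn1]
    linarith
  have hj : ui n (zz n L j) ((E n L)^[j] (W0 n L j u)) = u := UI_.ui_eq hn' hz hg hdiv
  obtain ⟨k, rfl⟩ : ∃ k, j = k + 1 := ⟨j - 1, by have := hT.hj; omega⟩
  have ht := h2 n x (zz n L (k + 1)) u hn hx3 hT.him hT.hle hT.hx huT
  have hU : ‖hh n (zz n L (k + 1)) u‖ ≤ 1 / 2 := by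
    have h5 := (ht.2.2.2.2.2.2.2.2.2 hu).2
    have h6 : 5 / 2 * ‖u‖ / ‖x‖ ≤ 1 / 2 := by
      rw [div_le_iff₀ hx0]
      linarith
    exact h5.trans h6
  obtain ⟨i1, i2, i3⟩ := UI_.low h3 h4 n L hn k (fun i hi1 hi2 =>
    ⟨hT.ge8 hi1 (by omega), UI_.ne_neg (Nat.pos_of_ne_zero hn') (hT.hre i hi1 (by omega))⟩)
    (hh n (zz n L (k + 1)) u) hU
  have h8 : W0 n L (k + 1) u = W0 n L k (hh n (zz n L (k + 1)) u) := rfl
  refine ⟨?_, hj, ?_⟩
  · intro i hi
    rw [h8]
    exact (i1 i (by omega)).trans hU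
  · rw [Finset.sum_range_succ, hj, h8, i3]
    change _ = u + SS n L k (hh n (zz n L (k + 1)) u)
    ring

theorem p_UI2 : T_UI2 := by
  intro n j L x w hT hw hu hv
  have hn := hT.hn
  have hn1 : (0 : ℝ) < n := lt_of_lt_of_le (by norm_num) hn
  have hn' : n ≠ 0 := by rintro rfl; norm_num at hn1
  have hn0 : (n : ℂ) ≠ 0 := by exact_mod_cast hn'
  have hz : ∀ i, i ≤ j → 1 + zz n L i / n ≠ 0 := by
    intro i hi
    rcases Nat.eq_zero_or_pos i with h | h
    · rw [h, zz_zero]; simp
    · rcases Nat.lt_or_ge i j with h' | h'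
      · exact one_add_ne (hT.hre i h h')
      · have hi0 : i = j := by omega
        rw [hi0, hT.one_add]
        exact exp_ne_zero _
  have hexp : ∀ i, i ≤ j → exp (ui n (zz n L i) ((E n L)^[i] w) / n) =
      (1 + (E n L)^[i] w / n) / (1 + zz n L i / n) := by
    intro i hi
    rw [ui, mul_div_cancel_left₀ _ hn0, exp_log (div_ne_zero (hw i hi) (hz i hi))]
  have key : ∀ k, k ≤ j → W0 n L k (ui n (zz n L k) ((E n L)^[k] w)) = w := by
    intro k
    induction k with
    | zero =>
      intro _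
      have h1 := hexp 0 (by omega)
      have e : n * ((1 + w / n) / (1 + 0 / n) - 1) = w := by
        rw [zero_div, add_zero, div_one, add_sub_cancel_left, mul_div_cancel₀ _ hn0]
      rw [W0, VV, h1, zz_zero, Function.iterate_zero, id]
      exact e
    | succ k ih =>
      intro hk
      have h1 := hexp (k + 1) hk
      have h2 : hh n (zz n L (k + 1)) (ui n (zz n L (k + 1)) ((E n L)^[k + 1] w)) =
          ui n (zz n L k) ((E n L)^[k] w) := by
        set z := zz n L (k + 1) with hzd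
        have hz0 : z ≠ 0 := ne_zero_of_big (hT.ge8 (by omega) hk)
        have hz1 : 1 + z / n ≠ 0 := hz (k + 1) hk
        have hz2 : (n : ℂ) + z ≠ 0 := by
          intro h0
          apply hz1
          have e : 1 + z / n = (n + z) / n := by field_simp
          rw [e, h0, zero_div]
        have e1 : 1 + (1 + n / z) * (exp (ui n z ((E n L)^[k + 1] w) / n) - 1) =
            (E n L)^[k + 1] w / z := by
          rw [h1]
          field_simp
          ring
        have e2 : (E n L)^[k + 1] w / z = exp (ui n (zz n L k) ((E n L)^[k] w)) := by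
          have e3 : ui n (zz n L k) ((E n L)^[k] w) =
              n * (ui n (zz n L k) ((E n L)^[k] w) / n) := by
            field_simp
          rw [e3, exp_nat_mul, hexp k (by omega), hzd, zz_succ, Function.iterate_succ_apply', E, E,
            div_pow, mul_div_mul_left _ _ (exp_ne_zero L)]
        rw [hh, e1, e2]
        have h5 := (abs_im_le_norm _).trans (hu k (by omega))
        have h6 := abs_le.1 h5
        have h7 := Real.pi_gt_three
        exact log_exp (by linarith [h6.1]) (by linarith [h6.2])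
      have h3 : W0 n L (k + 1) (ui n (zz n L (k + 1)) ((E n L)^[k + 1] w)) =
          W0 n L k (hh n (zz n L (k + 1)) (ui n (zz n L (k + 1)) ((E n L)^[k + 1] w))) := rfl
      rw [h3, h2]
      exact ih (by omega)
  exact key j le_rfl

end Pool.Agent.Limb
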