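import Pool.Agent.Limb.Targets

/-!
# LIMB: the condition `Up` is relatively clopen
-/

set_option autoImplicit false

open Complex Filter Topology Set
open Pool.Agent.Multibrot

namespace Pool.Agent.Limb

namespace UP_

/-- The ratio whose logarithm is `ui / n`. -/
noncomputable def rr (n : ℕ) (L w : ℂ) (i : ℕ) : ℂ :=
  (1 + (E n L)^[i] w / n) / (1 + zz n L i / n)

lemma ui_eq (n : ℕ) (L w : ℂ) (i : ℕ) :
    ui n (zz n L i) ((E n L)^[i] w) = n * log (rr n L w i) := rfl

lemma cont_iter (n : ℕ) {A : Set ℂ} {w : ℂ → ℂ} (hw : ContinuousOn w A) (i : ℕ) :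
    ContinuousOn (fun L => (E n L)^[i] (w L)) A := by
  induction i with
  | zero => exact hw
  | succ i ih =>
    have h : (fun L => (E n L)^[i + 1] (w L)) =
        fun L => exp L * (1 + (E n L)^[i] (w L) / n) ^ n := by
      funext L
      rw [Function.iterate_succ_apply']
      rfl
    rw [h]
    exact (continuous_exp.continuousOn).mul ((continuousOn_const.add (ih.div_const _)).pow n)

/-- The compact set of the values `exp v`, `|v| ≤ 1`. -/
def KS : Set ℂ := exp '' Metric.closedBall 0 1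

lemma KS_closed : IsClosed KS :=
  ((isCompact_closedBall (0 : ℂ) 1).image continuous_exp).isClosed

lemma KS_mem {r : ℂ} (h0 : r ≠ 0) (h : ‖log r‖ ≤ 1) : r ∈ KS :=
  ⟨log r, by simpa using h, exp_log h0⟩

lemma KS_slit {r : ℂ} (h : r ∈ KS) : r ∈ slitPlane := by
  obtain ⟨v, hv, rfl⟩ := h
  have h1 : ‖v‖ ≤ 1 := by simpa using hv
  have h2 := abs_le.1 ((abs_im_le_norm v).trans h1)
  have h3 := Real.pi_gt_three
  have h4 : log (exp v) = v := log_exp (by linarith [h2.1]) (by linarith [h2.2])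
  rw [mem_slitPlane_iff_arg]
  refine ⟨?_, exp_ne_zero v⟩
  rw [← log_im, h4]
  linarith [h2.2]

lemma log_le {n j : ℕ} {L x w : ℂ} {s : ℤ} (hT : Tow n j L x) (h : Tcl n j L x w s) :
    ∀ i, i ≤ j → ‖log (rr n L w i)‖ ≤ 1 := by
  intro i hi
  have hn : (1 : ℝ) ≤ n := le_trans (by norm_num) hT.toLow.hn
  have hn0 : (0 : ℝ) < n := by linarith
  have key : ‖(n : ℂ) * log (rr n L w i)‖ ≤ n := by
    rcases hi.lt_or_eq with h1 | h1
    · have h2 := h.1 i h1
      rw [ui_eq] at h2
      exact h2.trans hn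
    · have h2 := h.2.1
      rw [ui_eq, ← h1] at h2
      have h3 := hT.norm_x_le
      refine h2.trans ?_
      linarith
  rw [norm_mul, norm_natCast] at key
  have : (n : ℝ) * ‖log (rr n L w i)‖ ≤ n * 1 := by linarith
  exact le_of_mul_le_mul_left this hn0

lemma top_tcl {n j : ℕ} {L x w : ℂ} {s : ℤ} (h : Top' n j L x w s) : Tcl n j L x w s :=
  ⟨fun i hi => (h.1 i hi).le, h.2.1.le, h.2.2.1.le, h.2.2.2.le⟩

lemma fixed (h4 : T_LAND) (h5 : T_TYPE) {n j : ℕ} {Λ : ℂ → ℂ → ℂ} {L x : ℂ} (s : ℤ)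
    (hΛ : IsExt n Λ) (h : Adm n j L x) :
    (E n L)^[j + 1] (wl n Λ j L x s) = wl n Λ j L x s := by
  obtain ⟨hT, hi0, hi1, hc, -⟩ := h
  have hn := hT.toLow.two_le
  have hn0 := natCast_ne hn
  have hc0 := cc_ne n L
  obtain ⟨k, hk⟩ := (h5 n j L x s hT hi0 hi1).2.1
  have h6 := (h4 n hn Λ hΛ (cc n L) hc (j + 1) (th n j L x s) k (by omega) hk).2
  have e : cc n L * (1 + wl n Λ j L x s / n) = land Λ (cc n L) (th n j L x s) := by
    unfold wl
    field_simp
    ring
  have h7 := F_iter_conj hn L (wl n Λ j L x s) (j + 1)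
  rw [e, h6, ← e] at h7
  have h8 := mul_left_cancel₀ hc0 h7
  have h9 := add_left_cancel h8
  rw [div_left_inj' hn0] at h9
  exact h9.symm

end UP_

open UP_ in
theorem p_UP (h1 : T_WLC) (h2 : T_CLOP) (h3 : T_LOC) (h4 : T_LAND) (h5 : T_TYPE) : T_UP := by
  intro n j Λ A x s hΛ hx hA
  obtain ⟨cw, cW, cz⟩ := h1 n j Λ A x s hΛ hx hA
  -- the ratios
  have hz1 : ∀ L ∈ A, ∀ i, i ≤ j → 1 + zz n L i / n ≠ 0 := by
    intro L hL i hi h0
    have hn := (hA L hL).1.toLow.two_le
    have hn0 := natCast_ne hn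
    apply NR.zz_ne hn (hA L hL).2.2.2.2 i hi
    have h6 : (n : ℂ) * (1 + zz n L i / n) = 0 := by rw [h0, mul_zero]
    rw [mul_add, mul_one, mul_div_cancel₀ _ hn0] at h6
    linear_combination h6
  have hfix : ∀ L ∈ A, (E n L)^[j + 1] (wl n Λ j L (x L) s) = wl n Λ j L (x L) s :=
    fun L hL => fixed h4 h5 s hΛ (hA L hL)
  have hr0 : ∀ L ∈ A, ∀ i, i ≤ j → rr n L (wl n Λ j L (x L) s) i ≠ 0 := by
    intro L hL i hi
    exact div_ne_zero (NR.crit (hA L hL).1.toLow.two_le (hA L hL).2.2.2.2 (hfix L hL) i hi)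
      (hz1 L hL i hi)
  have hrc : ∀ i, i ≤ j → ContinuousOn (fun L => rr n L (wl n Λ j L (x L) s) i) A := by
    intro i hi
    exact (continuousOn_const.add ((cont_iter n cw i).div_const _)).div
      (continuousOn_const.add ((cz i).div_const _)) (fun L hL => hz1 L hL i hi)
  have hic : ∀ L ∈ A, ∀ i, i ≤ j → rr n L (wl n Λ j L (x L) s) i ∈ slitPlane →
      ContinuousWithinAt (fun L => ui n (zz n L i) ((E n L)^[i] (wl n Λ j L (x L) s))) A L := by
    intro L hL i hi hs
    exact continuousWithinAt_const.mul (((hrc i hi) L hL).clog hs)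
  have hbc : ∀ L ∈ A, (∀ i, i ≤ j → rr n L (wl n Λ j L (x L) s) i ∈ slitPlane) →
      ContinuousWithinAt (fun L => beta n j L (x L) (wl n Λ j L (x L) s) s) A L := by
    intro L hL hs
    unfold beta
    refine ((continuous_im.continuousAt.comp_continuousWithinAt (cW L hL)).sub
      continuousWithinAt_const).add (continuousWithinAt_const.mul ?_)
    refine tendsto_finsetSum _ fun i hi => ?_
    have hi' : i ≤ j := by
      have := Finset.mem_range.1 hi
      omega
    exact continuous_im.continuousAt.comp_continuousWithinAt (hic L hL i hi' (hs i hi'))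
  -- `Top'` is open
  have hopen : ∀ L ∈ A, Top' n j L (x L) (wl n Λ j L (x L) s) s →
      ∀ᶠ L' in 𝓝[A] L, Top' n j L' (x L') (wl n Λ j L' (x L') s) s := by
    intro L hL ht
    have hs : ∀ i, i ≤ j → rr n L (wl n Λ j L (x L) s) i ∈ slitPlane := fun i hi =>
      KS_slit (KS_mem (hr0 L hL i hi) (log_le (hA L hL).1 (top_tcl ht) i hi))
    have e1 : ∀ᶠ L' in 𝓝[A] L, ∀ i ∈ Finset.range j,
        ‖ui n (zz n L' i) ((E n L')^[i] (wl n Λ j L' (x L') s))‖ < 1 := by
      rw [Finset.eventually_all]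
      intro i hi
      have hi' := Finset.mem_range.1 hi
      exact ((hic L hL i hi'.le (hs i hi'.le)).norm).eventually_lt_const (ht.1 i hi')
    have e2 : ∀ᶠ L' in 𝓝[A] L,
        ‖ui n (zz n L' j) ((E n L')^[j] (wl n Λ j L' (x L') s))‖ < ‖x L'‖ / 100 :=
      ((hic L hL j le_rfl (hs j le_rfl)).norm).eventually_lt
        ((hx L hL).norm.div_const 100) ht.2.1
    have e3 : ∀ᶠ L' in 𝓝[A] L, 0 < beta n j L' (x L') (wl n Λ j L' (x L') s) s :=
      (hbc L hL hs).eventually_const_lt ht.2.2.1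
    have e4 : ∀ᶠ L' in 𝓝[A] L,
        beta n j L' (x L') (wl n Λ j L' (x L') s) s < 2 * Real.pi :=
      (hbc L hL hs).eventually_lt_const ht.2.2.2
    filter_upwards [e1, e2, e3, e4] with L' g1 g2 g3 g4
    exact ⟨fun i hi => g1 i (Finset.mem_range.2 hi), g2, g3, g4⟩
  -- `Tcl` is closed
  have hclosed : ∀ L ∈ A, ¬ Tcl n j L (x L) (wl n Λ j L (x L) s) s →
      ∀ᶠ L' in 𝓝[A] L, ¬ Tcl n j L' (x L') (wl n Λ j L' (x L') s) s := by
    intro L hL
    contrapose!
    intro hf'
    have hmem : ∀ᶠ L' in 𝓝[A] L, L' ∈ A := self_mem_nhdsWithin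
    have hs : ∀ i, i ≤ j → rr n L (wl n Λ j L (x L) s) i ∈ slitPlane := by
      intro i hi
      apply KS_slit
      refine KS_closed.mem_of_frequently_of_tendsto (b := 𝓝[A] L) ?_ ((hrc i hi) L hL)
      refine (hf'.and_eventually hmem).mono fun L' hL' => ?_
      exact KS_mem (hr0 L' hL'.2 i hi) (log_le (hA L' hL'.2).1 hL'.1 i hi)
    refine ⟨fun i hi => ?_, ?_, ?_, ?_⟩
    · exact le_of_tendsto_of_frequently ((hic L hL i hi.le (hs i hi.le)).norm)
        (hf'.mono fun L' hL' => hL'.1 i hi)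
    · have g1 := ((hic L hL j le_rfl (hs j le_rfl)).norm).sub ((hx L hL).norm.div_const 100)
      have g2 := le_of_tendsto_of_frequently (b := 0) g1
        (hf'.mono fun L' hL' => by simpa using hL'.2.1)
      simp only [Pi.sub_apply] at g2
      linarith
    · exact ge_of_tendsto_of_frequently (hbc L hL hs) (hf'.mono fun L' hL' => hL'.2.2.1)
    · exact le_of_tendsto_of_frequently (hbc L hL hs) (hf'.mono fun L' hL' => hL'.2.2.2)
  -- the continuous function `δ`
  have hδ : ContinuousOn (fun L => (WW n j L (x L)).im - 2 * Real.pi * s) A :=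
    (continuous_im.comp_continuousOn cW).sub continuousOn_const
  intro L hL
  obtain ⟨hT, hi0, hi1, hc, hNR⟩ := hA L hL
  obtain ⟨l1, l2⟩ := h3 n j Λ L (x L) s hΛ hT hi0 hi1 hc hNR
  constructor
  · rintro (hup | ⟨hab, htop⟩)
    · filter_upwards [(hδ L hL).eventually_lt_const hup] with L' g
      exact Or.inl g
    · have hne : (WW n j L (x L)).im - 2 * Real.pi * s ≠ 2 * j + 5 :=
        fun h => l2 h (top_tcl htop)
      have hlt : (WW n j L (x L)).im - 2 * Real.pi * s < 2 * j + 5 :=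
        lt_of_le_of_ne (abs_le.1 hab).2 hne
      filter_upwards [(hδ L hL).eventually_lt_const hlt, hopen L hL htop] with L' g1 g2
      rcases lt_or_ge ((WW n j L' (x L')).im - 2 * Real.pi * s) (-(2 * j + 5)) with g3 | g3
      · exact Or.inl g3
      · exact Or.inr ⟨abs_le.2 ⟨g3, g1.le⟩, g2⟩
  · intro hnu
    unfold Up at hnu
    push Not at hnu
    obtain ⟨u1, u2⟩ := hnu
    rcases lt_or_ge (2 * (j : ℝ) + 5) ((WW n j L (x L)).im - 2 * Real.pi * s) with g | g
    · filter_upwards [(hδ L hL).eventually_const_lt g] with L' g'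
      rintro (h | ⟨h, -⟩)
      · have : (0 : ℝ) ≤ j := Nat.cast_nonneg _
        linarith
      · exact absurd (abs_le.1 h).2 (not_le.2 g')
    · have hab : |(WW n j L (x L)).im - 2 * Real.pi * s| ≤ 2 * j + 5 := abs_le.2 ⟨u1, g⟩
      have hnt := u2 hab
      have hncl : ¬ Tcl n j L (x L) (wl n Λ j L (x L) s) s := fun h =>
        hnt (h2 n j L (x L) _ s hT hNR (hfix L hL) hab h)
      have hne : -(2 * (j : ℝ) + 5) ≠ (WW n j L (x L)).im - 2 * Real.pi * s :=
        fun h => hnt (l1 h.symm)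
      have hlt := lt_of_le_of_ne u1 hne
      filter_upwards [(hδ L hL).eventually_const_lt hlt, hclosed L hL hncl] with L' g1 g2
      rintro (h | ⟨-, h⟩)
      · exact absurd h (not_lt.2 g1.le)
      · exact g2 (top_tcl h)

end Pool.Agent.Limb
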