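import Pool.Agent.Limb.Targets

/-!
# LIMB: WEST, estimates for `KK` and `WW`
-/

set_option autoImplicit false

open Complex Filter Topology Set
open Pool.Agent.Multibrot

namespace Pool.Agent.Limb

namespace WEST_

lemma arg_sub {n : ℕ} (hn : n ≠ 0) {z : ℂ} (hz : 0 ≤ z.re) :
    |(log z - log (1 + z / n)).im| ≤ 8 / 5 := by
  rw [sub_im, log_im, log_im]
  have h1 := abs_le.1 (abs_arg_le_pi_div_two_iff.2 hz)
  have h2 := abs_le.1 (abs_arg_le_pi_div_two_iff.2 (zero_le_one.trans (one_add_re (n := n) hz)))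
  have hn0 : (0 : ℝ) < n := by exact_mod_cast Nat.pos_of_ne_zero hn
  have him : (1 + z / n).im = z.im / n := by
    rw [add_im, one_im, zero_add, ← ofReal_natCast, div_ofReal_im]
  have hpi := Real.pi_lt_d2
  rcases le_or_gt 0 z.im with h3 | h3
  · have h4 : 0 ≤ arg z := arg_nonneg_iff.2 h3
    have h5 : 0 ≤ arg (1 + z / n) := arg_nonneg_iff.2 (by rw [him]; positivity)
    rw [abs_le]
    constructor <;> linarith
  · have h4 : arg z < 0 := arg_neg_iff.2 h3
    have h5 : arg (1 + z / n) < 0 :=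
      arg_neg_iff.2 (by rw [him]; exact div_neg_of_neg_of_pos h3 hn0)
    rw [abs_le]
    constructor <;> linarith

lemma arg_near {w : ℂ} (h1 : 0 < w.im) (h2 : |w.re| ≤ w.im / 50) :
    |arg w - Real.pi / 2| ≤ 1 / 40 := by
  have h0 : w ≠ 0 := by
    intro h
    rw [h] at h1
    simp at h1
  have hw : 0 < ‖w‖ := norm_pos_iff.2 h0
  have h3 : w.im ≤ ‖w‖ := im_le_norm w
  have h4 : |w.re / ‖w‖| ≤ 1 / 50 := by
    rw [abs_div, abs_of_pos hw, div_le_iff₀ hw]
    linarith
  have h5 := abs_le.1 h4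
  have h6 : (1 / 50 : ℝ) ≤ Real.sin (1 / 40) := by
    have h7 := Real.sin_gt_sub_cube (by norm_num : (0 : ℝ) < 1 / 40)
    refine le_trans ?_ h7.le
    norm_num
  have hpi := Real.pi_gt_three
  have h7 : Real.arcsin (w.re / ‖w‖) ≤ 1 / 40 := by
    rw [Real.arcsin_le_iff_le_sin' ⟨by linarith, by linarith⟩]
    linarith
  have h8 : -(1 / 40) ≤ Real.arcsin (w.re / ‖w‖) := by
    rw [Real.le_arcsin_iff_sin_le' ⟨by linarith, by linarith⟩, Real.sin_neg]
    linarith
  rw [arg_of_im_nonneg_of_ne_zero h1.le h0, Real.arccos, abs_le]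
  constructor <;> linarith

lemma sin_ge {b : ℝ} (h1 : 0 < b) (h2 : b ≤ 2) : b / 4 ≤ Real.sin b := by
  have hpi := Real.pi_gt_three
  have hpi2 := Real.pi_lt_d2
  rcases le_total b (Real.pi / 2) with h3 | h3
  · have h4 := Real.mul_le_sin h1.le h3
    have h5 : (1 / 4 : ℝ) ≤ 2 / Real.pi := by
      rw [le_div_iff₀ Real.pi_pos]
      linarith
    have h6 : 1 / 4 * b ≤ 2 / Real.pi * b := mul_le_mul_of_nonneg_right h5 h1.le
    linarith
  · have h4 := Real.mul_le_sin (x := Real.pi - b) (by linarith) (by linarith)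
    rw [Real.sin_pi_sub] at h4
    have h5 : (1 / 2 : ℝ) ≤ 2 / Real.pi := by
      rw [le_div_iff₀ Real.pi_pos]
      linarith
    have h6 : 1 / 2 * (Real.pi - b) ≤ 2 / Real.pi * (Real.pi - b) :=
      mul_le_mul_of_nonneg_right h5 (by linarith)
    linarith

lemma sinh_le {a : ℝ} (h : |a| ≤ 1) : |Real.sinh a| ≤ 2 * |a| := by
  have h1 := Real.abs_exp_sub_one_le h
  have h2 := Real.abs_exp_sub_one_le (x := -a) (by rwa [abs_neg])
  rw [abs_neg] at h2
  have h3 := abs_le.1 h1
  have h4 := abs_le.1 h2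
  rw [Real.sinh_eq, abs_le]
  constructor <;> linarith

lemma sinh_parts (a b : ℝ) :
    (2 * sinh ((a : ℂ) + b * I)).re = 2 * (Real.sinh a * Real.cos b) ∧
      (2 * sinh ((a : ℂ) + b * I)).im = 2 * (Real.cosh a * Real.sin b) := by
  have h : 2 * sinh ((a : ℂ) + b * I) =
      ((2 * (Real.sinh a * Real.cos b) : ℝ) : ℂ) + ((2 * (Real.cosh a * Real.sin b) : ℝ) : ℂ) * I := by
    rw [sinh_add, sinh_mul_I, cosh_mul_I]
    push_cast
    ring
  rw [h]
  generalize 2 * (Real.sinh a * Real.cos b) = p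
  generalize 2 * (Real.cosh a * Real.sin b) = q
  constructor
  · simp
  · simp

lemma arg_sinh {a b : ℝ} (h1 : 0 < b) (h2 : b ≤ 2) (h3 : |a| ≤ b / 500) :
    |arg (2 * sinh ((a : ℂ) + b * I)) - Real.pi / 2| ≤ 1 / 40 := by
  obtain ⟨e1, e2⟩ := sinh_parts a b
  have h4 := sin_ge h1 h2
  have h5 : 1 ≤ Real.cosh a := Real.one_le_cosh a
  have h6 : |Real.sinh a| ≤ 2 * |a| := sinh_le (by linarith)
  have h7 := Real.abs_cos_le_one b
  have h8 : b / 4 ≤ Real.cosh a * Real.sin b := by nlinarith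
  apply arg_near
  · rw [e2]
    linarith
  · rw [e1, e2, abs_mul, abs_mul, abs_of_pos (by norm_num : (0 : ℝ) < 2)]
    have h9 : |Real.sinh a| * |Real.cos b| ≤ 2 * |a| * 1 :=
      mul_le_mul h6 h7 (abs_nonneg _) (by positivity)
    linarith

lemma arg_sinh' {a b : ℝ} (h1 : b < 0) (h2 : -2 ≤ b) (h3 : |a| ≤ -b / 500) :
    |arg (2 * sinh ((a : ℂ) + b * I)) + Real.pi / 2| ≤ 1 / 40 := by
  have h4 := arg_sinh (a := a) (b := -b) (by linarith) (by linarith) h3
  have h5 : 2 * sinh ((a : ℂ) + (-b : ℝ) * I) = (starRingEnd ℂ) (2 * sinh ((a : ℂ) + b * I)) := by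
    rw [map_mul, ← sinh_conj, map_add, map_mul, conj_ofReal, conj_ofReal, conj_I, map_ofNat,
      ofReal_neg]
    ring_nf
  have hpi := Real.pi_gt_three
  have h6 := abs_le.1 h4
  rw [h5, arg_conj] at h6
  split_ifs at h6 with h7
  · exfalso
    linarith
  · rw [abs_le]
    constructor <;> linarith

/-- The last term of `KK`. -/
lemma last_im {n : ℕ} (hn : n ≠ 0) {x : ℂ} (h1 : |x.re| ≤ |x.im| / 500) (h2 : |x.im| ≤ 4 * n)
    (h0 : x.im ≠ 0) : |(zeta n x - x / n).im| ≤ 8 / 5 := by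
  have hn0 : (0 : ℝ) < n := by exact_mod_cast Nat.pos_of_ne_zero hn
  set a : ℝ := x.re / (2 * n) with ha
  set b : ℝ := x.im / (2 * n) with hb
  have e1 : x / (2 * (n : ℂ)) = (a : ℂ) + b * I := by
    have h3 : x = (x.re : ℂ) + x.im * I := (re_add_im x).symm
    rw [ha, hb]
    push_cast
    conv_lhs => rw [h3]
    ring
  have e2 : (x / (n : ℂ)).im = 2 * b := by
    rw [← ofReal_natCast, div_ofReal_im, hb]
    field_simp
  have e3 : (zeta n x - x / n).im = arg (2 * sinh ((a : ℂ) + b * I)) - b := by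
    rw [zeta, sub_im, add_im, add_im, ofReal_im, log_im, e2, e1]
    simp
    ring
  have hab : |a| ≤ |b| / 500 := by
    rw [ha, hb, abs_div, abs_div, abs_of_pos (by positivity : (0 : ℝ) < 2 * n)]
    calc |x.re| / (2 * n) ≤ |x.im| / 500 / (2 * n) := by gcongr
      _ = _ := by ring
  have hb2 : |b| ≤ 2 := by
    rw [hb, abs_div, abs_of_pos (by positivity : (0 : ℝ) < 2 * n), div_le_iff₀ (by positivity)]
    linarith
  have hb0 : b ≠ 0 := by
    rw [hb]
    exact div_ne_zero h0 (by positivity)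
  have hpi := Real.pi_gt_three
  have hpi2 := Real.pi_lt_d2
  rw [e3]
  rcases lt_or_gt_of_ne hb0 with h3 | h3
  · rw [abs_of_neg h3] at hab hb2
    have h4 := abs_le.1 (arg_sinh' h3 (by linarith) hab)
    rw [abs_le]
    constructor <;> linarith
  · rw [abs_of_pos h3] at hab hb2
    have h4 := abs_le.1 (arg_sinh h3 hb2 hab)
    rw [abs_le]
    constructor <;> linarith

lemma num {X : ℝ} (hX : 8 * 10 ^ 7 ≤ X) {j : ℕ} (hj : 4 * 10 ^ 7 * 2 ^ j ≤ X) :
    (j + 1) * Real.log (101 / 100 * X) + 1 ≤ X / 2000 := by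
  have hX0 : 0 < X := lt_of_lt_of_le (by norm_num) hX
  set l := Real.log X with hl
  have hXl : Real.exp l = X := Real.exp_log hX0
  have e18 : Real.exp 18 = Real.exp 1 ^ 18 := by rw [← Real.exp_nat_mul]; norm_num
  have h18 : Real.exp 18 ≤ 8 * 10 ^ 7 := by
    rw [e18]
    have h5 := Real.exp_one_lt_d9
    have h6 : Real.exp 1 ^ 18 ≤ 2.7182818286 ^ 18 :=
      pow_le_pow_left₀ (Real.exp_pos 1).le h5.le 18
    refine h6.trans (by norm_num)
  have h18' : 6 * 10 ^ 7 ≤ Real.exp 18 := by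
    rw [e18]
    have h5 := Real.exp_one_gt_d9
    have h6 : (2.7182818283 : ℝ) ^ 18 ≤ Real.exp 1 ^ 18 :=
      pow_le_pow_left₀ (by norm_num) h5.le 18
    refine le_trans (by norm_num) h6
  have hl18 : 18 ≤ l := by
    by_contra hcon
    push Not at hcon
    have := Real.exp_lt_exp.2 hcon
    rw [hXl] at this
    linarith
  obtain ⟨m, hm⟩ : ∃ m, m = l - 18 := ⟨_, rfl⟩
  have hm0 : 0 ≤ m := by linarith
  have h1 : Real.exp l = Real.exp 18 * Real.exp m := by rw [← Real.exp_add]; congr 1; linarith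
  have h2 := Real.quadratic_le_exp_of_nonneg hm0
  have h3 : 6 * 10 ^ 7 * (1 + m + m ^ 2 / 2) ≤ X := by
    rw [← hXl, h1]
    exact mul_le_mul h18' h2 (by positivity) (Real.exp_pos _).le
  have h4 : (j : ℝ) * Real.log 2 ≤ l := by
    rw [← Real.log_pow]
    apply Real.log_le_log (by positivity)
    have : (0 : ℝ) < 2 ^ j := by positivity
    linarith
  have h5 := Real.log_two_gt_d9
  have hj0 : (0 : ℝ) ≤ j := Nat.cast_nonneg j
  have h6 : (j : ℝ) + 1 ≤ 2 * l := by
    have : (j : ℝ) * 0.6931471803 ≤ j * Real.log 2 := mul_le_mul_of_nonneg_left h5.le hj0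
    linarith
  have h7 : Real.log (101 / 100 * X) ≤ 2 * l := by
    rw [Real.log_mul (by norm_num) hX0.ne']
    have := Real.log_le_sub_one_of_pos (by norm_num : (0 : ℝ) < 101 / 100)
    linarith
  have h8 : ((j : ℝ) + 1) * Real.log (101 / 100 * X) ≤ (2 * l) * (2 * l) :=
    mul_le_mul h6 h7 (Real.log_nonneg (by linarith)) (by linarith)
  have h9 : l = m + 18 := by linarith
  rw [h9] at h8
  nlinarith [sq_nonneg m]

end WEST_

open WEST_ in
theorem p_WEST (h : T_ATT) : T_WEST := by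
  intro n j L x T
  have hL := T.toLow
  have hn2 := hL.two_le
  have hn0 : n ≠ 0 := by omega
  have hnR : (0 : ℝ) < n := by exact_mod_cast Nat.pos_of_ne_zero hn0
  have hnC := natCast_ne hn2
  have hj := hL.hj
  have hX := T.norm_x
  obtain ⟨k, hk⟩ : ∃ k, j = k + 1 := ⟨j - 1, by omega⟩
  have h2j : (2 : ℝ) ≤ 2 ^ j := by
    rw [hk, pow_succ]
    have : (1 : ℝ) ≤ 2 ^ k := one_le_pow₀ (by norm_num)
    linarith
  have hX8 : 8 * 10 ^ 7 ≤ ‖x‖ := by linarith
  have hX0 : 0 < ‖x‖ := lt_of_lt_of_le (by norm_num) hX8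
  have him := T.him
  have hle := T.hle
  have hx0 : x.im ≠ 0 := by
    intro h0
    rw [h0, abs_zero, zero_div] at him
    have h1 := Complex.norm_le_abs_re_add_abs_im x
    rw [h0, abs_zero] at h1
    linarith
  have h1 := T.one_add
  have hz0 : ∀ i, 1 ≤ i → i ≤ j → zz n L i ≠ 0 := fun i h1 h2 => ne_zero_of_big (hL.ge8 h1 h2)
  have hre : ∀ i, i < k → 0 ≤ (zz n L (i + 1)).re := fun i hi => hL.hre (i + 1) (by omega) (by omega)
  have ha1 : ∀ i, i < j → 1 + zz n L (i + 1) / n ≠ 0 := by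
    intro i hi
    rcases Nat.lt_or_ge i k with h2 | h2
    · exact one_add_ne (hre i h2)
    · rw [show i + 1 = j by omega, h1]
      exact exp_ne_zero _
  have hzne : zz n L j ≠ -n := by
    intro h2
    have h3 := ha1 k (by omega)
    rw [← hk, h2] at h3
    apply h3
    field_simp
    ring
  have hz1 : zz n L (j + 1) = exp L * exp x := by
    rw [zz_succ, E, h1, ← exp_nat_mul]
    congr 2
    field_simp
  have hz1ne : zz n L (j + 1) ≠ 0 := by
    rw [hz1]
    exact mul_ne_zero (exp_ne_zero _) (exp_ne_zero _)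
  have hDD : DD n L j ≠ 0 := by
    rw [DD, Finset.prod_ne_zero_iff]
    intro i hi
    have hi' := Finset.mem_range.1 hi
    exact div_ne_zero (hz0 _ (by omega) (by omega)) (ha1 i hi')
  -- zeta
  have hsinh : (n : ℂ) * (exp (x / (2 * n)) * (2 * sinh (x / (2 * n)))) = zz n L j := by
    rw [T.hx, two_sinh, mul_sub, ← exp_add, ← exp_add]
    congr 2
    · congr 1
      field_simp
      ring
    · rw [add_neg_cancel, exp_zero]
  have hs0 : 2 * sinh (x / (2 * n)) ≠ 0 := by
    intro h2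
    rw [h2, mul_zero, mul_zero] at hsinh
    exact hz0 j hj le_rfl hsinh.symm
  have hzeta : exp (zeta n x) = zz n L j := by
    rw [zeta, exp_add, exp_add, exp_log_nat hn2, exp_log hs0, ← hsinh]
    ring
  have hKK : exp (KK n j L x) = DD n L j := by
    have hkj : j - 1 = k := by omega
    rw [KK, exp_add, exp_sum, hkj, exp_sub, hzeta, DD, hk, Finset.prod_range_succ, ← hk, h1]
    congr 1
    apply Finset.prod_congr rfl
    intro i hi
    have hi' := Finset.mem_range.1 hi
    rw [exp_sub, exp_log (hz0 _ (by omega) (by omega)), exp_log (ha1 i (by omega))]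
  have hWW : exp (WW n j L x) = zz n L (j + 1) * DD n L j := by
    rw [WW, exp_add, exp_add, hKK, hz1]
    ring
  refine ⟨⟨hX, hzne, hz1ne, hDD⟩, hzeta, hKK, hWW, ?_, ?_, ?_⟩
  · have hkj : j - 1 = k := by omega
    rw [KK, add_im, im_sum, hkj]
    have h2 : |∑ i ∈ Finset.range k, (log (zz n L (i + 1)) - log (1 + zz n L (i + 1) / n)).im| ≤
        ∑ i ∈ Finset.range k, (8 / 5 : ℝ) :=
      (Finset.abs_sum_le_sum_abs _ _).trans (Finset.sum_le_sum fun i hi =>
        arg_sub hn0 (hre i (Finset.mem_range.1 hi)))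
    rw [Finset.sum_const, Finset.card_range, nsmul_eq_mul] at h2
    have h3 := last_im hn0 him hle hx0
    have h4 : (j : ℝ) = k + 1 := by rw [hk]; push_cast; ring
    refine (abs_add_le _ _).trans ?_
    rw [h4]
    linarith
  · intro hNR
    have h2 := h n j L hL hzne hNR
    rw [← hWW, norm_exp, Real.exp_le_exp] at h2
    linarith
  · have hkj : j - 1 = k := by omega
    have hzj : ‖zz n L j‖ ≤ 101 / 100 * ‖x‖ := by
      have h2 := norm_exp_sub_one_le' (x / n)
      have h3 : (x / n).re = x.re / n := by rw [← ofReal_natCast, div_ofReal_re]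
      have h4 : max 0 (x / n).re ≤ 8 / 1000 := by
        rw [h3]
        apply max_le (by norm_num)
        rw [div_le_iff₀ hnR]
        have h7 := le_abs_self x.re
        linarith
      have h5 : Real.exp (8 / 1000) ≤ 1.01 := by
        have h6 := Real.one_sub_le_exp_neg (8 / 1000)
        rw [Real.exp_neg] at h6
        have h7 : 0 < Real.exp (8 / 1000) := Real.exp_pos _
        have h8 : Real.exp (8 / 1000) * (1 - 8 / 1000) ≤ 1 := by
          calc Real.exp (8 / 1000) * (1 - 8 / 1000) ≤ Real.exp (8 / 1000) *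
              (Real.exp (8 / 1000))⁻¹ := mul_le_mul_of_nonneg_left h6 h7.le
            _ = 1 := mul_inv_cancel₀ h7.ne'
        by_contra hcon
        push Not at hcon
        linarith
      have h6 : Real.exp (max 0 (x / n).re) ≤ 1.01 := (Real.exp_le_exp.2 h4).trans h5
      have h7 : ‖exp (x / n) - 1‖ ≤ ‖x‖ / n * 1.01 := by
        refine h2.trans ?_
        rw [norm_div, norm_natCast]
        exact mul_le_mul_of_nonneg_left h6 (by positivity)
      rw [T.hx, norm_mul, norm_natCast]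
      calc (n : ℝ) * ‖exp (x / n) - 1‖ ≤ n * (‖x‖ / n * 1.01) :=
            mul_le_mul_of_nonneg_left h7 hnR.le
        _ = 101 / 100 * ‖x‖ := by field_simp; norm_num
    have hzj0 : 0 < ‖zz n L j‖ := norm_pos_iff.2 (hz0 j hj le_rfl)
    set l := Real.log (101 / 100 * ‖x‖) with hl
    have hlj : Real.log ‖zz n L j‖ ≤ l := Real.log_le_log hzj0 hzj
    have hli : ∀ i, 1 ≤ i → i ≤ j → Real.log ‖zz n L i‖ ≤ l := fun i h2 h3 =>
      (Real.log_le_log (norm_pos_iff.2 (hz0 i h2 h3)) (hL.mono h3)).trans hlj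
    have hL1 : L.re ≤ l := by
      have h2 := hli 1 le_rfl hj
      rwa [zz_one, norm_exp, Real.log_exp] at h2
    have hzr : (zeta n x).re ≤ l := by
      have h2 := hlj
      rwa [← hzeta, norm_exp, Real.log_exp] at h2
    have hxn : -(1 / 100 : ℝ) ≤ (x / n).re := by
      rw [← ofReal_natCast, div_ofReal_re, le_div_iff₀ hnR]
      have h7 := neg_abs_le x.re
      linarith
    have hsum : (∑ i ∈ Finset.range k,
        (log (zz n L (i + 1)) - log (1 + zz n L (i + 1) / n))).re ≤ k * l := by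
      rw [re_sum]
      have h2 : ∑ i ∈ Finset.range k,
          (log (zz n L (i + 1)) - log (1 + zz n L (i + 1) / n)).re ≤
          ∑ i ∈ Finset.range k, l := by
        apply Finset.sum_le_sum
        intro i hi
        have hi' := Finset.mem_range.1 hi
        rw [sub_re, log_re, log_re]
        have h3 := hli (i + 1) (by omega) (by omega)
        have h4 : 0 ≤ Real.log ‖1 + zz n L (i + 1) / n‖ :=
          Real.log_nonneg (one_le_norm (hre i hi'))
        linarith
      rwa [Finset.sum_const, Finset.card_range, nsmul_eq_mul] at h2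
    have hnum := num hX8 hX
    rw [← hl] at hnum
    have hxr : x.re ≤ ‖x‖ / 500 := by
      have h2 := le_abs_self x.re
      have h3 := abs_im_le_norm x
      linarith
    rw [WW, add_re, add_re, KK, add_re, sub_re, hkj]
    have h4 : (j : ℝ) = k + 1 := by rw [hk]; push_cast; ring
    rw [h4] at hnum
    linarith

end Pool.Agent.Limb
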