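import Pool.Agent.Limb.Targets

/-!
# LIMB: WLC, continuity of the landing point
-/

set_option autoImplicit false

open Complex Filter Topology Set
open Pool.Agent.Multibrot

namespace Pool.Agent.Limb

namespace WLC_

lemma cont_zz (n i : ℕ) : Continuous (fun L => zz n L i) := by
  induction i with
  | zero =>
    have : (fun L => zz n L 0) = fun _ => (0 : ℂ) := by
      funext L
      rfl
    rw [this]
    exact continuous_const
  | succ i ih =>
    have : (fun L => zz n L (i + 1)) = fun L => exp L * (1 + zz n L i / n) ^ n := by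
      funext L
      rw [zz, Function.iterate_succ_apply']
      rfl
    rw [this]
    fun_prop

lemma cont_cc (n : ℕ) : Continuous (cc n) := by
  unfold cc ell
  fun_prop

lemma sinh_im (a b : ℝ) : (sinh (a + b * I)).im = Real.cosh a * Real.sin b := by
  rw [sinh_add, sinh_mul_I, cosh_mul_I, ← ofReal_sinh, ← ofReal_cosh, ← ofReal_sin, ← ofReal_cos]
  simp only [add_im, mul_im, mul_re, ofReal_re, ofReal_im, I_re, I_im]
  ring

/-- the argument of the logarithm in `zeta` is in the slit plane -/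
lemma sinh_slit {n : ℕ} {x : ℂ} (hn : (10 : ℝ) ^ 20 ≤ n) (h0 : x ≠ 0)
    (him : |x.re| ≤ |x.im| / 500) (hle : |x.im| ≤ 4 * n) :
    2 * sinh (x / (2 * n)) ∈ slitPlane := by
  have hn0 : (0 : ℝ) < n := lt_of_lt_of_le (by norm_num) hn
  have hi : x.im ≠ 0 := by
    intro hi
    rw [hi, abs_zero, zero_div] at him
    have hr : x.re = 0 := abs_eq_zero.1 (le_antisymm him (abs_nonneg _))
    exact h0 (Complex.ext hr hi)
  have e : ((2 : ℂ) * n) = ((2 * n : ℝ) : ℂ) := by push_cast; ring
  have e2 : (x / (2 * n)).im = x.im / (2 * n) := by rw [e, div_ofReal_im]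
  have e3 : (x / (2 * n)).re = x.re / (2 * n) := by rw [e, div_ofReal_re]
  right
  have h1 : (2 * sinh (x / (2 * n))).im =
      2 * (Real.cosh (x.re / (2 * n)) * Real.sin (x.im / (2 * n))) := by
    rw [mul_im]
    have h2 : (sinh (x / (2 * n))).im =
        Real.cosh (x.re / (2 * n)) * Real.sin (x.im / (2 * n)) := by
      conv_lhs => rw [← re_add_im (x / (2 * n))]
      rw [sinh_im, e2, e3]
    rw [h2]
    simp
  rw [h1]
  have h3 : Real.sin (x.im / (2 * n)) ≠ 0 := by
    have h4 : |x.im / (2 * n)| ≤ 2 := by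
      rw [abs_div, abs_of_pos (by positivity : (0 : ℝ) < 2 * n), div_le_iff₀ (by positivity)]
      linarith
    have h5 : x.im / (2 * n) ≠ 0 := div_ne_zero hi (by positivity)
    have h6 := abs_le.1 h4
    have h7 := Real.pi_gt_three
    rcases lt_or_gt_of_ne h5 with h8 | h8
    · exact (Real.sin_neg_of_neg_of_neg_pi_lt h8 (by linarith)).ne
    · exact (Real.sin_pos_of_pos_of_lt_pi h8 (by linarith)).ne'
  exact mul_ne_zero two_ne_zero (mul_ne_zero (Real.cosh_pos _).ne' h3)

lemma tow_ne {n j : ℕ} {L x : ℂ} (h : Tow n j L x) : x ≠ 0 := by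
  have h1 := h.norm_x
  intro h0
  rw [h0, norm_zero] at h1
  have : (0 : ℝ) < 4 * 10 ^ 7 * 2 ^ j := by positivity
  linarith

lemma cont_zeta {n j : ℕ} {A : Set ℂ} {x : ℂ → ℂ} (hx : ContinuousOn x A)
    (hA : ∀ L ∈ A, Tow n j L (x L)) : ContinuousOn (fun L => zeta n (x L)) A := by
  unfold zeta
  apply ContinuousOn.add
  · exact continuousOn_const.add (hx.div_const _)
  · apply ContinuousOn.clog
    · exact continuousOn_const.mul (Complex.continuous_sinh.comp_continuousOn (hx.div_const _))
    · intro L hL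
      have h := hA L hL
      exact sinh_slit h.toLow.hn (tow_ne h) h.him h.hle

lemma cont_log1 {n j : ℕ} {A : Set ℂ} {x : ℂ → ℂ}
    (hA : ∀ L ∈ A, Tow n j L (x L)) {i : ℕ} (hi : i < j) :
    ContinuousOn (fun L => log (1 + zz n L i / n)) A := by
  apply ContinuousOn.clog
  · exact (continuous_const.add ((cont_zz n i).div_const _)).continuousOn
  · intro L hL
    have h := hA L hL
    have h1 : 0 ≤ (zz n L i).re := by
      rcases Nat.eq_zero_or_pos i with h0 | h0
      · rw [h0, zz_zero, zero_re]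
      · exact h.toLow.hre i h0 hi
    left
    have := one_add_re (n := n) h1
    linarith

lemma cont_log2 {n j : ℕ} {A : Set ℂ} {x : ℂ → ℂ}
    (hA : ∀ L ∈ A, Tow n j L (x L)) {i : ℕ} (h1 : 1 ≤ i) (hi : i < j) :
    ContinuousOn (fun L => log (zz n L i)) A := by
  apply ContinuousOn.clog
  · exact (cont_zz n i).continuousOn
  · intro L hL
    have h := hA L hL
    exact mem_slit_of_re (h.toLow.hre i h1 hi) (ne_zero_of_big (h.toLow.ge8 h1 hi.le))

lemma cont_sI {n j : ℕ} {A : Set ℂ} {x : ℂ → ℂ} (hx : ContinuousOn x A)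
    (hA : ∀ L ∈ A, Tow n j L (x L)) {i : ℕ} (hi : i < j) :
    ContinuousOn (fun L => sI n j L (x L) i) A := by
  unfold sI
  apply ContinuousOn.div_const
  apply Complex.continuous_im.comp_continuousOn
  apply ContinuousOn.add _ continuousOn_id
  apply ContinuousOn.sub
  · exact continuousOn_const.mul (cont_log1 hA hi)
  · by_cases h : i = j - 1
    · simp only [if_pos h]
      exact cont_zeta hx hA
    · simp only [if_neg h]
      exact cont_log2 hA (by omega) (by omega)

lemma cont_th {n j : ℕ} {A : Set ℂ} {x : ℂ → ℂ} (s : ℤ) (hx : ContinuousOn x A)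
    (hA : ∀ L ∈ A, Tow n j L (x L)) :
    ContinuousOn (fun L => th n j L (x L) s) A := by
  unfold th
  apply ContinuousOn.div_const
  apply ContinuousOn.add _ continuousOn_const
  apply continuousOn_finsetSum
  intro i hi
  exact (cont_sI hx hA (Finset.mem_range.1 hi)).mul continuousOn_const

lemma cont_WW {n j : ℕ} {A : Set ℂ} {x : ℂ → ℂ} (hx : ContinuousOn x A)
    (hA : ∀ L ∈ A, Tow n j L (x L)) :
    ContinuousOn (fun L => WW n j L (x L)) A := by
  unfold WW KK
  apply ContinuousOn.add
  · exact hx.add continuousOn_id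
  · apply ContinuousOn.add
    · apply continuousOn_finsetSum
      intro i hi
      have h := Finset.mem_range.1 hi
      exact (cont_log2 hA (by omega) (by omega)).sub (cont_log1 hA (by omega))
    · exact (cont_zeta hx hA).sub (hx.div_const _)

/-- a continuous function with values in a lattice is locally constant -/
lemma loc_const {f : ℂ → ℝ} {A : Set ℂ} {L0 : ℂ} (hf : ContinuousWithinAt f A L0) {q : ℝ}
    (hL0 : L0 ∈ A) (hq : 0 < q) (hint : ∀ L ∈ A, ∃ k : ℤ, q * f L = k) :
    ∀ᶠ L in 𝓝[A] L0, f L = f L0 := by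
  have h1 : ∀ᶠ L in 𝓝[A] L0, |f L - f L0| < 1 / q := by
    have := Metric.tendsto_nhds.1 hf.tendsto (1 / q) (by positivity)
    filter_upwards [this] with L hL
    rwa [Real.dist_eq] at hL
  filter_upwards [h1, self_mem_nhdsWithin] with L hL hLA
  obtain ⟨k, hk⟩ := hint L hLA
  obtain ⟨k0, hk0⟩ := hint L0 hL0
  have h2 : |((k - k0 : ℤ) : ℝ)| < 1 := by
    have e : ((k - k0 : ℤ) : ℝ) = q * (f L - f L0) := by
      push_cast
      rw [← hk, ← hk0]
      ring
    rw [e, abs_mul, abs_of_pos hq]
    calc q * |f L - f L0| < q * (1 / q) := mul_lt_mul_of_pos_left hL hq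
      _ = 1 := by field_simp
  have h3 : k - k0 = 0 := by
    have : |k - k0| < 1 := by exact_mod_cast h2
    exact Int.abs_lt_one_iff.1 this
  have h4 : q * f L = q * f L0 := by
    rw [hk, hk0]
    have : k = k0 := by omega
    rw [this]
  exact mul_left_cancel₀ hq.ne' h4

end WLC_

open WLC_ in
theorem p_WLC (h1 : T_STAB) (h2 : T_TYPE) (_h3 : T_WEST) : T_WLC := by
  intro n j Λ A x s hΛ hx hA
  have hT : ∀ L ∈ A, Tow n j L (x L) := fun L hL => (hA L hL).1
  refine ⟨?_, cont_WW hx hT, fun i => (cont_zz n i).continuousOn⟩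
  intro L0 hL0
  have hn2 : 2 ≤ n := (hT L0 hL0).toLow.two_le
  have hq : (0 : ℝ) < (n : ℝ) ^ (j + 1) - 1 := by
    have h3 : (2 : ℝ) ≤ n := by exact_mod_cast hn2
    have h4 : (2 : ℝ) ^ 1 ≤ (n : ℝ) ^ (j + 1) :=
      (pow_le_pow_left₀ (by norm_num) h3 1).trans (pow_le_pow_right₀ (by linarith) (by omega))
    linarith
  have hth : ∀ᶠ L in 𝓝[A] L0, th n j L (x L) s = th n j L0 (x L0) s := by
    apply loc_const (f := fun L => th n j L (x L) s) (cont_th s hx hT L0 hL0) hL0 hq
    intro L hL
    obtain ⟨a1, a2, a3, _, _⟩ := hA L hL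
    exact (h2 n j L (x L) s a1 a2 a3).2.1
  obtain ⟨k, hk⟩ := (h2 n j L0 (x L0) s (hA L0 hL0).1 (hA L0 hL0).2.1 (hA L0 hL0).2.2.1).2.1
  have hland : ContinuousWithinAt (fun c => land Λ c (th n j L0 (x L0) s)) (MM n) (cc n L0) := by
    apply h1 n hn2 Λ hΛ (j + 1) _ k (by omega) hk _ (hA L0 hL0).2.2.2.1
    intro z hz
    exact (hA L0 hL0).2.2.2.2 (j + 1) (by omega) le_rfl z hz
  have hcomp : ContinuousWithinAt (fun L => land Λ (cc n L) (th n j L0 (x L0) s)) A L0 := by
    apply ContinuousWithinAt.comp (g := fun c => land Λ c (th n j L0 (x L0) s)) (t := MM n) hland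
    · exact (cont_cc n).continuousWithinAt
    · intro L hL
      exact (hA L hL).2.2.2.1
  have hfin : ContinuousWithinAt
      (fun L => (n : ℂ) * (land Λ (cc n L) (th n j L0 (x L0) s) / cc n L - 1)) A L0 := by
    apply ContinuousWithinAt.mul continuousWithinAt_const
    apply ContinuousWithinAt.sub _ continuousWithinAt_const
    exact hcomp.div (cont_cc n).continuousWithinAt (cc_ne n L0)
  apply hfin.congr_of_eventuallyEq
  · filter_upwards [hth] with L hL
    rw [wl, hL]
  · rfl

end Pool.Agent.Limb
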