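import Pool.Agent.Limb.EX0
import Pool.Agent.Limb.EX1
import Pool.Agent.Limb.EXG
import Pool.Agent.Limb.AREA
import Pool.Agent.Limb.LAND
import Pool.Agent.Limb.STAB
import Pool.Agent.Limb.PSI
import Pool.Agent.Limb.PHI
import Pool.Agent.Limb.LOWST
import Pool.Agent.Limb.TOPST
import Pool.Agent.Limb.DISCST
import Pool.Agent.Limb.GLOW
import Pool.Agent.Limb.GDISC
import Pool.Agent.Limb.GTOP
import Pool.Agent.Limb.UI
import Pool.Agent.Limb.MU
import Pool.Agent.Limb.ATTA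
import Pool.Agent.Limb.CUSPA
import Pool.Agent.Limb.ATT
import Pool.Agent.Limb.WEST
import Pool.Agent.Limb.REAL
import Pool.Agent.Limb.CLOP
import Pool.Agent.Limb.INFT
import Pool.Agent.Limb.INFL
import Pool.Agent.Limb.RAY
import Pool.Agent.Limb.CHL
import Pool.Agent.Limb.TYPE
import Pool.Agent.Limb.LOCI
import Pool.Agent.Limb.LOC
import Pool.Agent.Limb.WLC
import Pool.Agent.Limb.UP
import Pool.Agent.Limb.BOOT
import Pool.Agent.Limb.NEAR
import Pool.Agent.Limb.CROSS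
import Pool.Agent.Limb.GEO
import Pool.Agent.Limb.ROT
import Pool.Agent.Limb.FIN
import Pool.Agent.Limb.LOWNR
import Pool.Agent.Limb.TRAPM
import Pool.Agent.Limb.PATH
import Pool.Agent.Limb.LOWER

/-!
# LIMB: assembly
-/

set_option autoImplicit false

namespace Pool.Agent.Limb

theorem p_upper : T_FIN := by
  have ePSI := p_PSI
  have ePHI := p_PHI
  have eEXT := p_EXG p_EX0 p_EX1
  have eLAND := p_LAND p_AREA
  have eSTAB := p_STAB eLAND
  have eLOWST := p_LOWST ePSI ePHI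
  have eTOPST := p_TOPST ePSI ePHI
  have eDISCST := p_DISCST ePSI ePHI
  have eGLOW := p_GLOW ePSI eLOWST
  have eGDISC := p_GDISC ePSI eDISCST
  have eGTOP := p_GTOP eGLOW eGDISC eTOPST
  have eUI1 := p_UI1 eGTOP eTOPST eDISCST eGDISC
  have eUI2 := p_UI2
  have eMU := p_MU
  have eMUL := p_MUL
  have eATT := p_ATT eGDISC eMU p_ATTA
  have eWEST := p_WEST eATT
  have eREAL := p_REAL eWEST eGTOP eGDISC eUI1 eMU eMUL p_CUSPA
  have eCLOP := p_CLOP eREAL eUI1 eUI2 eWEST eGTOP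
  have eINFL := p_INFL ePSI ePHI
  have eINFT := p_INFT
  have eRAY := p_RAY
  have eCHL := p_CHL eRAY eLOWST eINFL
  have eTYPE := p_TYPE eWEST
  have eLOCI := p_LOCI eRAY eCHL eTYPE eWEST eGTOP eTOPST eINFT
  have eLOC := p_LOC eLOCI eLAND eGTOP eUI1 eWEST eRAY eTYPE
  have eWLC := p_WLC eSTAB eTYPE eWEST
  have eUP := p_UP eWLC eCLOP eLOC eLAND eTYPE
  have eBOOT := p_BOOT
  have eNEAR := p_NEAR eBOOT eATT
  have eCROSS := p_CROSS eEXT eBOOT eNEAR eUP eWEST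
  exact p_FIN eCROSS p_GEO p_ROT

theorem p_lower : T_LOWER :=
  p_LOWER p_PATH (p_TRAPM (p_GDISC p_PSI (p_DISCST p_PSI p_PHI))) p_LOWNR

end Pool.Agent.Limb
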