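import Pool.Agent.Limb.Basics

/-!
# LIMB: targets (see Blueprint.lean.txt for the proofs)
-/

set_option autoImplicit false

open Complex Filter Topology Set
open Pool.Agent.Multibrot

namespace Pool.Agent.Limb

/-! ### A. external rays -/

/-- EX0: the inverse Böttcher map near infinity. -/
def T_EX0 : Prop := ∀ n : ℕ, 2 ≤ n → ∃ Λ : ℂ → ℂ → ℂ,
  ContinuousOn (fun q : ℂ × ℂ => Λ q.1 q.2) ({c : ℂ | ‖c‖ ≤ 2} ×ˢ {s : ℂ | (3 / 2 : ℝ) < s.re}) ∧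
  ∀ c : ℂ, ‖c‖ ≤ 2 →
    DifferentiableOn ℂ (Λ c) {s : ℂ | (3 / 2 : ℝ) < s.re} ∧
    ∀ s : ℂ, (3 / 2 : ℝ) < s.re →
      exp (n * Λ c s) = exp (Λ c (n * s)) - c ∧
      Λ c (s + 2 * Real.pi * I / n) = Λ c s + 2 * Real.pi * I / n ∧
      ‖Λ c s - s‖ ≤ Real.exp (-s.re)

/-- EX1: one extension step. -/
def T_EX1 : Prop := ∀ n : ℕ, 2 ≤ n → ∀ S : ℝ, 0 < S → ∀ f : ℂ → ℂ → ℂ,
  ContinuousOn (fun q : ℂ × ℂ => f q.1 q.2) (MM n ×ˢ {s : ℂ | S < s.re}) →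
  (∀ c ∈ MM n, ∀ s : ℂ, S < s.re → exp (n * f c s) = exp (f c (n * s)) - c) →
  (∀ c ∈ MM n, ∀ s : ℂ, S < s.re → exp (f c s) ≠ c) →
  ∃ f' : ℂ → ℂ → ℂ,
    ContinuousOn (fun q : ℂ × ℂ => f' q.1 q.2) (MM n ×ˢ {s : ℂ | S / n < s.re}) ∧
    (∀ c ∈ MM n, ∀ s : ℂ, S < s.re → f' c s = f c s) ∧
    (∀ c ∈ MM n, ∀ s : ℂ, S / n < s.re → exp (n * f' c s) = exp (f c (n * s)) - c)

/-- EXT (from EX0, EX1). -/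
def T_EXT : Prop := ∀ n : ℕ, 2 ≤ n → ∃ Λ : ℂ → ℂ → ℂ, IsExt n Λ

/-- AREA. -/
def T_AREA : Prop := ∀ n : ℕ, 2 ≤ n → ∀ Λ : ℂ → ℂ → ℂ, IsExt n Λ → ∀ c ∈ MM n,
  ∀ ε : ℝ, 0 < ε → ∃ δ : ℝ, 0 < δ ∧ ∀ s : ℂ, 0 < s.re → s.re < δ →
    ‖deriv (fun s => exp (Λ c s)) s‖ * s.re ≤ ε

/-- LAND (from AREA). -/
def T_LAND : Prop := ∀ n : ℕ, 2 ≤ n → ∀ Λ : ℂ → ℂ → ℂ, IsExt n Λ → ∀ c ∈ MM n,
  ∀ (p : ℕ) (θ : ℝ) (k : ℤ), 1 ≤ p → ((n : ℝ) ^ p - 1) * θ = k →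
    Tendsto (ray Λ c θ) (𝓝[>] 0) (𝓝 (land Λ c θ)) ∧
    (F n c)^[p] (land Λ c θ) = land Λ c θ

/-- STAB (from LAND). -/
def T_STAB : Prop := ∀ n : ℕ, 2 ≤ n → ∀ Λ : ℂ → ℂ → ℂ, IsExt n Λ →
  ∀ (p : ℕ) (θ : ℝ) (k : ℤ), 1 ≤ p → ((n : ℝ) ^ p - 1) * θ = k →
  ∀ c ∈ MM n, (∀ z : ℂ, (F n c)^[p] z = z → 1 < ‖deriv ((F n c)^[p]) z‖) →
    ContinuousWithinAt (fun c => land Λ c θ) (MM n) c

/-! ### B. the functions psi, phi -/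

/-- PSI. -/
def T_PSI : Prop := Differentiable ℂ psi ∧
  (∀ v : ℂ, |v.im| < Real.pi → psi v ∈ slitPlane ∧ |(psi v).arg| ≤ |v.im|) ∧
  (∀ v : ℂ, ‖v‖ ≤ 1 / 20 → ‖log (psi v)‖ ≤ 11 / 20 * ‖v‖) ∧
  (∀ v : ℂ, ‖psi v‖ ≤ Real.exp (max 0 v.re))

/-- PHI. -/
def T_PHI : Prop := (∀ y : ℂ, 1 + y ∈ slitPlane → DifferentiableAt ℂ phi y) ∧
  (∀ y : ℂ, 1 + y ∈ slitPlane → phi y ∈ slitPlane ∧ |(phi y).arg| ≤ |(1 + y).arg|) ∧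
  (∀ y : ℂ, ‖y‖ ≤ 1 / 20 → ‖log (phi y)‖ ≤ 11 / 20 * ‖y‖)

/-! ### C. the stages -/

/-- LOWST: a low stage. -/
def T_LOWST : Prop := ∀ (n : ℕ) (z U : ℂ), (10 : ℝ) ^ 20 ≤ n → (10 : ℝ) ^ 8 ≤ ‖z‖ → 0 ≤ z.re →
  U ∈ QQ →
  (9 / 10 : ℝ) ≤ (1 + (1 + n / z) * (exp (U / n) - 1)).re ∧
  hh n z U ∈ QQ ∧
  |(tau n z U).im| ≤ 2 ∧
  ‖exp (tau n z U)‖ ≤ 3 ∧
  min ‖U‖ 1 / 4 ≤ ‖z / (1 + z / n)‖ * min ‖hh n z U‖ 1 ∧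
  U * exp (tau n z U) = z / (1 + z / n) * hh n z U ∧
  DifferentiableAt ℂ (hh n z) U ∧ DifferentiableAt ℂ (tau n z) U ∧
  ‖hh n z U‖ ≤ ‖U‖

/-- TOPST: the top stage. -/
def T_TOPST : Prop := ∀ (n : ℕ) (x z u : ℂ), (10 : ℝ) ^ 20 ≤ n → (10 : ℝ) ^ 7 ≤ ‖x‖ →
  |x.re| ≤ |x.im| / 500 → |x.im| ≤ 4 * n → z = n * (exp (x / n) - 1) → u ∈ TT x →
  (1 + (1 + n / z) * (exp (u / n) - 1) ∈ slitPlane ∧
    |(1 + (1 + n / z) * (exp (u / n) - 1)).arg| ≤ 17 / 10 ∧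
    (9 / 10 : ℝ) ≤ ‖1 + (1 + n / z) * (exp (u / n) - 1)‖) ∧
  hh n z u ∈ QQ ∧
  |(tau n z u).im| ≤ 2 ∧
  ‖exp (tau n z u)‖ ≤ 3 ∧
  min ‖u‖ 1 / 4 ≤ ‖z / (1 + z / n)‖ * min ‖hh n z u‖ 1 ∧
  u * exp (tau n z u) = z / (1 + z / n) * hh n z u ∧
  DifferentiableAt ℂ (hh n z) u ∧ DifferentiableAt ℂ (tau n z) u ∧
  ‖hh n z u‖ ≤ ‖u‖ ∧
  (‖u‖ ≤ ‖x‖ / 100 → ‖tau n z u‖ ≤ 4 * ‖u‖ / ‖x‖ ∧ ‖hh n z u‖ ≤ 5 / 2 * ‖u‖ / ‖x‖)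

/-- DISCST: a stage near `0`. -/
def T_DISCST : Prop := ∀ (n : ℕ) (z U : ℂ), (10 : ℝ) ^ 20 ≤ n → (10 : ℝ) ^ 8 ≤ ‖z‖ → z ≠ -n →
  ‖U‖ < 3 →
  1 + (1 + n / z) * (exp (U / n) - 1) ∈ slitPlane ∧
  ‖hh n z U‖ ≤ 3 / 10 ^ 8 * ‖U‖ ∧
  ‖tau n z U‖ ≤ 3 / 10 ^ 8 * ‖U‖ ∧
  U * exp (tau n z U) = z / (1 + z / n) * hh n z U ∧
  DifferentiableAt ℂ (hh n z) U ∧ DifferentiableAt ℂ (tau n z) U

/-! ### D. the chain -/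

/-- GLOW (from LOWST, PSI). -/
def T_GLOW : Prop := ∀ (n k : ℕ) (L U : ℂ), (10 : ℝ) ^ 20 ≤ n →
  (∀ i, 1 ≤ i → i ≤ k → (10 : ℝ) ^ 8 ≤ ‖zz n L i‖ ∧ 0 ≤ (zz n L i).re) → U ∈ QQ →
  |(GG n L k U).im| ≤ 2 * k + 1 / 10 ∧
  ‖exp (GG n L k U)‖ ≤ 3 ^ k * Real.exp (‖U‖ / n) ∧
  min ‖U‖ 1 / 4 ^ (k + 1) ≤ ‖U * exp (GG n L k U)‖ ∧
  U * exp (GG n L k U) = DD n L k * W0 n L k U ∧
  (E n L)^[k] (W0 n L k U) = n * ((1 + zz n L k / n) * exp (U / n) - 1) ∧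
  DifferentiableAt ℂ (GG n L k) U ∧ DifferentiableAt ℂ (VV n L k) U ∧
    DifferentiableAt ℂ (SS n L k) U

/-- GDISC (from DISCST, PSI). -/
def T_GDISC : Prop := ∀ (n k : ℕ) (L U : ℂ), (10 : ℝ) ^ 20 ≤ n →
  (∀ i, 1 ≤ i → i ≤ k → (10 : ℝ) ^ 8 ≤ ‖zz n L i‖ ∧ zz n L i ≠ -n) → ‖U‖ < 3 →
  ‖GG n L k U‖ ≤ 1 / 10 ^ 7 * ‖U‖ ∧
  ‖SS n L k U - U‖ ≤ 1 / 10 ^ 7 * ‖U‖ ∧
  U * exp (GG n L k U) = DD n L k * W0 n L k U ∧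
  (E n L)^[k] (W0 n L k U) = n * ((1 + zz n L k / n) * exp (U / n) - 1) ∧
  DifferentiableAt ℂ (GG n L k) U ∧ DifferentiableAt ℂ (VV n L k) U ∧
    DifferentiableAt ℂ (SS n L k) U

/-- GTOP (from GLOW, GDISC, TOPST). -/
def T_GTOP : Prop := ∀ (n j : ℕ) (L x u : ℂ), Tow n j L x → u ∈ TT x →
  |(GG n L j u).im| ≤ 2 * j + 1 ∧
  ‖exp (GG n L j u)‖ ≤ 3 ^ j * Real.exp (‖u‖ / n) ∧
  min ‖u‖ 1 / 4 ^ (j + 1) ≤ ‖u * exp (GG n L j u)‖ ∧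
  u * exp (GG n L j u) = DD n L j * W0 n L j u ∧
  (E n L)^[j] (W0 n L j u) = n * ((1 + zz n L j / n) * exp (u / n) - 1) ∧
  (DifferentiableAt ℂ (GG n L j) u ∧ DifferentiableAt ℂ (VV n L j) u ∧
    DifferentiableAt ℂ (SS n L j) u) ∧
  (‖u‖ ≤ ‖x‖ / 100 → ‖GG n L j u‖ ≤ 5 * ‖u‖ / ‖x‖ ∧ ‖SS n L j u - u‖ ≤ 5 * ‖u‖ / ‖x‖)

/-- UI1 (from LOWST/DISCST, TOPST, GTOP): the positions of the cycle relative to the critical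
orbit, when the cycle is given by `u`. -/
def T_UI1 : Prop := ∀ (n j : ℕ) (L x u : ℂ), Tow n j L x → ‖u‖ ≤ ‖x‖ / 100 →
  (∀ i, i < j → ‖ui n (zz n L i) ((E n L)^[i] (W0 n L j u))‖ ≤ 1 / 2) ∧
  ui n (zz n L j) ((E n L)^[j] (W0 n L j u)) = u ∧
  ∑ i ∈ Finset.range (j + 1), ui n (zz n L i) ((E n L)^[i] (W0 n L j u)) = SS n L j u

/-- UI2: the converse. -/
def T_UI2 : Prop := ∀ (n j : ℕ) (L x w : ℂ), Tow n j L x →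
  (∀ i, i ≤ j → 1 + (E n L)^[i] w / n ≠ 0) →
  (∀ i, i < j → ‖ui n (zz n L i) ((E n L)^[i] w)‖ ≤ 1) →
  ‖ui n (zz n L j) ((E n L)^[j] w)‖ ≤ ‖x‖ / 100 →
  W0 n L j (ui n (zz n L j) ((E n L)^[j] w)) = w

/-! ### E. multipliers, attracting cycles, cusps -/

/-- MU: chain rule. -/
def T_MU : Prop := ∀ (n j : ℕ) (L u : ℂ) (g : ℂ → ℂ), 2 ≤ n → u ≠ 0 →
  zz n L (j + 1) ≠ 0 → DD n L j ≠ 0 →
  DifferentiableAt ℂ g u → DifferentiableAt ℂ (VV n L j) u →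
  (∀ᶠ v in 𝓝 u, v * exp (g v) = DD n L j * W0 n L j v ∧
    (E n L)^[j] (W0 n L j v) = n * ((1 + zz n L j / n) * exp (v / n) - 1)) →
  u * exp (g u - u) = zz n L (j + 1) * DD n L j →
  (E n L)^[j + 1] (W0 n L j u) = W0 n L j u ∧
  (F n (cc n L))^[j + 1] (cc n L * (1 + W0 n L j u / n)) = cc n L * (1 + W0 n L j u / n) ∧
  deriv ((F n (cc n L))^[j + 1]) (cc n L * (1 + W0 n L j u / n)) * (1 / u + deriv g u) = 1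

/-- MUL: the multiplier as a product. -/
def T_MUL : Prop := ∀ (n j : ℕ) (L w : ℂ), 2 ≤ n → (∀ i, i ≤ j → 1 + (E n L)^[i] w / n ≠ 0) →
  (∀ i, i ≤ j → 1 + zz n L i / n ≠ 0) →
  deriv ((F n (cc n L))^[j + 1]) (cc n L * (1 + w / n)) =
    zz n L (j + 1) * DD n L j *
      exp ((1 - 1 / n) * ∑ i ∈ Finset.range (j + 1), ui n (zz n L i) ((E n L)^[i] w))

/-- ATTA: analytic lemma on attracting solutions. -/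
def T_ATTA : Prop := ∀ g : ℂ → ℂ, (∀ u : ℂ, ‖u‖ < 3 → DifferentiableAt ℂ g u) →
  (∀ u : ℂ, ‖u‖ < 3 → ‖g u‖ ≤ 1 / 10 ^ 7 * ‖u‖) →
  ∀ v : ℂ, v ≠ 0 → ‖v‖ < Real.exp (-10001 / 10000) →
    ∃ u : ℂ, ‖u‖ < 1 ∧ u ≠ 0 ∧ u * exp (g u - u) = v ∧ 1 < ‖1 / u + deriv g u‖

/-- CUSPA: analytic lemma near the cusp. -/
def T_CUSPA : Prop := ∀ g : ℂ → ℂ, (∀ u : ℂ, ‖u‖ < 3 → DifferentiableAt ℂ g u) →
  (∀ u : ℂ, ‖u‖ < 3 → ‖g u‖ ≤ 1 / 10 ^ 7 * ‖u‖) →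
  ∀ (u : ℂ) (t : ℝ), ‖u - 1‖ ≤ 1 / 50 → 0 < t → t ≤ 1 / 50 →
    1 / u + deriv g u = 1 / (1 + (t : ℂ)) →
    ∃ v : ℂ, ‖v - 1‖ ≤ 1 / 4 ∧ v * exp (g v - v) = u * exp (g u - u) ∧
      1 < ‖1 / v + deriv g v‖

/-- ATT (from GDISC, MU, ATTA). -/
def T_ATT : Prop := ∀ (n j : ℕ) (L : ℂ), Low n j L → zz n L j ≠ -n → NR n (j + 1) (cc n L) →
  Real.exp (-10001 / 10000) ≤ ‖zz n L (j + 1) * DD n L j‖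

/-- WEST (the last but one item from ATT): estimates for `KK`, `WW`. -/
def T_WEST : Prop := ∀ (n j : ℕ) (L x : ℂ), Tow n j L x →
  (4 * 10 ^ 7 * 2 ^ j ≤ ‖x‖ ∧ zz n L j ≠ -n ∧ zz n L (j + 1) ≠ 0 ∧ DD n L j ≠ 0) ∧
  exp (zeta n x) = zz n L j ∧
  exp (KK n j L x) = DD n L j ∧
  exp (WW n j L x) = zz n L (j + 1) * DD n L j ∧
  |(KK n j L x).im| ≤ 8 / 5 * j ∧
  (NR n (j + 1) (cc n L) → -(10001 / 10000 : ℝ) ≤ (WW n j L x).re) ∧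
  (WW n j L x).re ≤ ‖x‖ / 400

/-- REAL (from WEST, GTOP, GDISC, UI1, MU, MUL, CUSPA): the multiplier is not a positive number. -/
def T_REAL : Prop := ∀ (n j : ℕ) (L x u : ℂ) (k : ℤ), Tow n j L x → NR n (j + 1) (cc n L) →
  u ≠ 0 → ‖u‖ ≤ ‖x‖ / 100 → u * exp (GG n L j u - u) = exp (WW n j L x) →
  (WW n j L x).im + (1 - 1 / (n : ℝ)) * (SS n L j u).im ≠ 2 * Real.pi * k

/-- CLOP (from REAL, UI1, UI2, WEST, GTOP, MUL). -/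
def T_CLOP : Prop := ∀ (n j : ℕ) (L x w : ℂ) (s : ℤ), Tow n j L x → NR n (j + 1) (cc n L) →
  (E n L)^[j + 1] w = w → |(WW n j L x).im - 2 * Real.pi * s| ≤ 2 * j + 5 →
  Tcl n j L x w s → Top' n j L x w s

/-! ### F. limits at infinity, rays, trapping -/

/-- INFL: limits at infinity, low stages. -/
def T_INFL : Prop := ∀ (n : ℕ) (z : ℂ) (b : ℝ) (U : ℝ → ℂ), (10 : ℝ) ^ 20 ≤ n →
  (10 : ℝ) ^ 8 ≤ ‖z‖ → 0 ≤ z.re → |b| ≤ 2 →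
  Tendsto (fun t => (U t).re) atTop atTop → Tendsto (fun t => (U t).im) atTop (𝓝 b) →
  Tendsto (fun t => (hh n z (U t)).re) atTop atTop ∧
  Tendsto (fun t => (hh n z (U t)).im) atTop (𝓝 (b / n + (log (1 + z / n)).im - (log z).im)) ∧
  Tendsto (fun t => (tau n z (U t)).im) atTop (𝓝 ((log z).im - (log (1 + z / n)).im)) ∧
  Tendsto (fun t => (log (psi (U t / n))).im) atTop (𝓝 (b / n))

/-- INFT: limits at infinity, top stage. -/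
def T_INFT : Prop := ∀ (n : ℕ) (x z : ℂ) (b : ℝ) (U : ℝ → ℂ), (10 : ℝ) ^ 20 ≤ n →
  (10 : ℝ) ^ 7 ≤ ‖x‖ → |x.re| ≤ |x.im| / 500 → |x.im| ≤ 4 * n → z = n * (exp (x / n) - 1) →
  |b| ≤ ‖x‖ / 50 →
  Tendsto (fun t => (U t).re) atTop atTop → Tendsto (fun t => (U t).im) atTop (𝓝 b) →
  Tendsto (fun t => (hh n z (U t)).re) atTop atTop ∧
  Tendsto (fun t => (hh n z (U t)).im) atTop (𝓝 (b / n + (x / n).im - (zeta n x).im)) ∧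
  Tendsto (fun t => (tau n z (U t)).im) atTop (𝓝 ((zeta n x).im - (x / n).im))

/-- RAY: the rays in the `w`-plane. -/
def T_RAY : Prop := ∀ (n : ℕ) (Λ : ℂ → ℂ → ℂ) (L : ℂ), 2 ≤ n → IsExt n Λ → cc n L ∈ MM n →
  (∀ s : ℂ, 0 < s.re → exp (L + xi n Λ L s) = n * (exp (xi n Λ L (n * s) / n) - 1)) ∧
  (∀ s : ℂ, n * (exp (xi n Λ L s / n) - 1) = n * (exp (Λ (cc n L) s) / cc n L - 1)) ∧
  (∀ (s : ℂ) (k : ℤ), 0 < s.re →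
    xi n Λ L (s + 2 * Real.pi * I * k / n) = xi n Λ L s + 2 * Real.pi * I * k) ∧
  (∀ a : ℝ, ContinuousOn (fun t : ℝ => xi n Λ L (t + a * I)) (Ioi 0)) ∧
  (∀ a : ℝ, Tendsto (fun t : ℝ => xi n Λ L (t + a * I) - (n * (t + a * I) - n * ell n L))
    atTop (𝓝 0)) ∧
  (∀ (p : ℕ) (θ t : ℝ) (k : ℤ), 0 < t →
    (E n L)^[p] (n * (exp (xi n Λ L (t + 2 * Real.pi * θ * I) / n) - 1)) =
      n * (exp (xi n Λ L ((n : ℝ) ^ p * t + 2 * Real.pi * ((n : ℝ) ^ p * θ + k) * I) / n) - 1))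

/-- CHL (from RAY, LOWST, INFL): the chain along the rays, low stages. -/
def T_CHL : Prop := ∀ (n k : ℕ) (Λ : ℂ → ℂ → ℂ) (L : ℂ) (θ : ℕ → ℝ) (s : ℕ → ℤ) (T : ℝ),
  (10 : ℝ) ^ 20 ≤ n → IsExt n Λ → cc n L ∈ MM n →
  (∀ i, i < k → θ (i + 1) = n * θ i - s i) →
  (∀ i, i < k → n * log (1 + zz n L i / n) = log (zz n L (i + 1)) - L + 2 * Real.pi * I * s i) →
  (∀ i, 1 ≤ i → i ≤ k → (10 : ℝ) ^ 8 ≤ ‖zz n L i‖ ∧ 0 ≤ (zz n L i).re) →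
  0 ≤ T →
  (∀ t : ℝ, T < t →
    xi n Λ L (t + 2 * Real.pi * θ k * I) - n * log (1 + zz n L k / n) ∈ QQ) →
  (∀ t : ℝ, T < t →
    VV n L k (xi n Λ L (t + 2 * Real.pi * θ k * I) - n * log (1 + zz n L k / n)) =
      xi n Λ L ((t / (n : ℝ) ^ k : ℝ) + 2 * Real.pi * θ 0 * I)) ∧
  Tendsto (fun t : ℝ =>
    (GG n L k (xi n Λ L (t + 2 * Real.pi * θ k * I) - n * log (1 + zz n L k / n))).im) atTop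
    (𝓝 (∑ i ∈ Finset.range k, ((log (zz n L (i + 1))).im - (log (1 + zz n L (i + 1) / n)).im) +
      2 * Real.pi * θ 0 - (ell n L).im))

/-- TYPE (from WEST): integrality of the itinerary and size of the angle. -/
def T_TYPE : Prop := ∀ (n j : ℕ) (L x : ℂ) (s : ℤ), Tow n j L x → 0 < L.im → L.im < 2 * Real.pi →
  (∀ i, i < j → ∃ k : ℤ, sI n j L x i = k ∧
    n * log (1 + zz n L i / n) =
      (if i = j - 1 then zeta n x else log (zz n L (i + 1))) - L + 2 * Real.pi * I * k) ∧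
  (∃ k : ℤ, ((n : ℝ) ^ (j + 1) - 1) * th n j L x s = k) ∧
  (|(WW n j L x).im - 2 * Real.pi * s| ≤ 2 * j + 5 →
    |2 * Real.pi * th n j L x s - (ell n L).im| ≤ 1 / 10)

/-- LOCI (from RAY, CHL, TYPE, WEST, GTOP, TOPST, INFT): the ray stays in the trapping region. -/
def T_LOCI : Prop := ∀ (n j : ℕ) (Λ : ℂ → ℂ → ℂ) (L x : ℂ) (s : ℤ) (σ : ℝ), IsExt n Λ →
  Tow n j L x → 0 < L.im → L.im < 2 * Real.pi → cc n L ∈ MM n → (σ = 1 ∨ σ = -1) →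
  (WW n j L x).im - 2 * Real.pi * s = -σ * (2 * j + 5) →
  ∃ U : ℝ → ℂ, ∀ t : ℝ, 0 < t →
    U t ∈ TT x ∧ 1 < σ * (U t).im ∧
    W0 n L j (U t) = n * (exp (xi n Λ L ((t / (n : ℝ) ^ j : ℝ) +
      2 * Real.pi * th n j L x s * I) / n) - 1) ∧
    U (t / (n : ℝ) ^ (j + 1)) =
      log (U t) + GG n L j (U t) - WW n j L x + 2 * Real.pi * I * s

/-- LOC (from LOCI, LAND, GTOP, UI1, WEST). -/
def T_LOC : Prop := ∀ (n j : ℕ) (Λ : ℂ → ℂ → ℂ) (L x : ℂ) (s : ℤ), IsExt n Λ →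
  Tow n j L x → 0 < L.im → L.im < 2 * Real.pi → cc n L ∈ MM n → NR n (j + 1) (cc n L) →
  ((WW n j L x).im - 2 * Real.pi * s = -(2 * j + 5) → Top' n j L x (wl n Λ j L x s) s) ∧
  ((WW n j L x).im - 2 * Real.pi * s = 2 * j + 5 → ¬ Tcl n j L x (wl n Λ j L x s) s)

/-! ### G. the parameter plane -/

/-- The condition up. -/
def Up (n : ℕ) (Λ : ℂ → ℂ → ℂ) (j : ℕ) (L x : ℂ) (s : ℤ) : Prop :=
  (WW n j L x).im - 2 * Real.pi * s < -(2 * j + 5) ∨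
    (|(WW n j L x).im - 2 * Real.pi * s| ≤ 2 * j + 5 ∧ Top' n j L x (wl n Λ j L x s) s)

/-- The parameters under consideration at stage `j`. -/
def Adm (n j : ℕ) (L x : ℂ) : Prop :=
  Tow n j L x ∧ 0 < L.im ∧ L.im < 2 * Real.pi ∧ cc n L ∈ MM n ∧ NR n (j + 1) (cc n L)

/-- WLC (from STAB, TYPE, WEST): `wl` is continuous. -/
def T_WLC : Prop := ∀ (n j : ℕ) (Λ : ℂ → ℂ → ℂ) (A : Set ℂ) (x : ℂ → ℂ) (s : ℤ), IsExt n Λ →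
  ContinuousOn x A → (∀ L ∈ A, Adm n j L (x L)) →
  ContinuousOn (fun L => wl n Λ j L (x L) s) A ∧
  ContinuousOn (fun L => WW n j L (x L)) A ∧
  ∀ i, ContinuousOn (fun L => zz n L i) A

/-- UP (from WLC, CLOP, LOC, LAND). -/
def T_UP : Prop := ∀ (n j : ℕ) (Λ : ℂ → ℂ → ℂ) (A : Set ℂ) (x : ℂ → ℂ) (s : ℤ), IsExt n Λ →
  ContinuousOn x A → (∀ L ∈ A, Adm n j L (x L)) →
  ∀ L ∈ A, (Up n Λ j L (x L) s → ∀ᶠ L' in 𝓝[A] L, Up n Λ j L' (x L') s) ∧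
    (¬ Up n Λ j L (x L) s → ∀ᶠ L' in 𝓝[A] L, ¬ Up n Λ j L' (x L') s)

/-- The hypotheses at the reference point. -/
structure LowS (n j : ℕ) (L : ℂ) : Prop where
  hn : (10 : ℝ) ^ 20 ≤ n
  hj : 1 ≤ j
  h1 : (10 : ℝ) ^ 9 ≤ ‖zz n L 1‖
  hgr : ∀ i, 1 ≤ i → i < j → 4 * ‖zz n L i‖ ≤ ‖zz n L (i + 1)‖
  hre : ∀ i, 1 ≤ i → i < j → 1 ≤ (zz n L i).re

/-- The neighbourhood at stage `j`. -/
def NN (n j : ℕ) (L0 L : ℂ) : Prop :=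
  ‖L - L0‖ ≤ (1 / 2) ^ (j - 1) ∧
  (∀ i, 1 ≤ i → i < j → ‖zz n L i - zz n L0 i‖ ≤ (1 / 2) ^ (j - 1 - i)) ∧
  ‖log (zz n L j / zz n L0 j)‖ ≤ 1 / 4

/-- BOOT: in the neighbourhood the inequalities for `i < j` are strict. -/
def T_BOOT : Prop := ∀ (n j : ℕ) (L0 L : ℂ), LowS n j L0 → cc n L0 ∈ MM n → cc n L ∈ MM n →
  NN n j L0 L →
  Low n j L ∧ ‖L - L0‖ < (1 / 2) ^ (j - 1) ∧
  (∀ i, 1 ≤ i → i < j → ‖zz n L i - zz n L0 i‖ < (1 / 2) ^ (j - 1 - i))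

/-- The continuous branch of `n log (1 + z_j / n)` on the neighbourhood. -/
noncomputable def xL (n j : ℕ) (L0 L : ℂ) : ℂ :=
  n * log (1 + zz n L0 j / n) + n * log ((1 + zz n L j / n) / (1 + zz n L0 j / n))

/-- The point `z_j` is not far to the right. -/
def NFR (n j : ℕ) (L : ℂ) : Prop :=
  (n * log (1 + zz n L j / n)).re < ‖(n : ℂ) * log (1 + zz n L j / n)‖ / 1000

/-- NEAR (from BOOT, ATT, WEST): the tower on the neighbourhood. -/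
def T_NEAR : Prop := ∀ (n j : ℕ) (L0 L : ℂ), LowS n j L0 → cc n L0 ∈ MM n → cc n L ∈ MM n →
  NR n (j + 1) (cc n L0) → NR n (j + 1) (cc n L) → NN n j L0 L → NFR n j L0 → NFR n j L →
  Tow n j L (xL n j L0 L) ∧
  (1 + zz n L j / n) / (1 + zz n L0 j / n) ∈ slitPlane ∧
  (‖log (zz n L j / zz n L0 j)‖ = 1 / 4 →
    |(xL n j L0 L0).im| / 20 ≤ |(xL n j L0 L).im - (xL n j L0 L0).im|)

/-- CROSS (from NEAR, BOOT, UP, WEST). -/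
def T_CROSS : Prop := ∀ (n j : ℕ) (A : Set ℂ) (L0 : ℂ), IsPreconnected A →
  (∀ L ∈ A, 0 < L.im ∧ L.im < 2 * Real.pi ∧ cc n L ∈ MM n ∧ NR n (j + 1) (cc n L)) →
  L0 ∈ A → LowS n j L0 → (∃ L ∈ A, ¬ NN n j L0 L) →
  ∃ L ∈ A, NN n j L0 L ∧ ¬ NFR n j L

/-- GEO: the logarithmic parameter plane. -/
def T_GEO : Prop := ∀ (n : ℕ) (A : Set ℂ), 4 ≤ n → IsPreconnected A → A ⊆ MM n →
  (∀ c ∈ A, NR n 1 c) → ∀ a ∈ A, ∀ b ∈ A,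
  ∃ (A' : Set ℂ) (ω La Lb : ℂ), IsPreconnected A' ∧ ω ^ (n - 1) = 1 ∧ La ∈ A' ∧ Lb ∈ A' ∧
    a = ω * cc n La ∧ b = ω * cc n Lb ∧
    ∀ L ∈ A', 0 < L.im ∧ L.im < 2 * Real.pi ∧ -1 ≤ L.re ∧ L.re ≤ Real.log (2 * n) ∧
      ω * cc n L ∈ A

/-- ROT: rotation invariance. -/
def T_ROT : Prop := ∀ (n m : ℕ) (c ω : ℂ), 2 ≤ n → ω ^ (n - 1) = 1 →
  (ω * c ∈ MM n → c ∈ MM n) ∧ (NR n m (ω * c) → NR n m c)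

/-- FIN (from CROSS, GEO, ROT): the theorem. -/
def T_FIN : Prop := ∃ C : ℝ, 0 < C ∧ ∀ (m n : ℕ) (x : ℝ), 1 ≤ m → 2 ≤ n → 0 ≤ x →
  (n : ℝ) ≤ Real.exp^[m] x → ∀ A : Set ℂ, A ⊆ MM n → IsPreconnected A → (∀ c ∈ A, NR n m c) →
  ∀ a ∈ A, ∀ b ∈ A, dist a b ≤ C * (x + 1) / n

end Pool.Agent.Limb
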